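import Pool.Agent.EXI.CDefs
import Pool.Agent.EXL.Tdi

/-!
# EXI / CTd: transcendence degrees by derivations and by algebraic independence
-/

set_option autoImplicit false

namespace Pool.Agent.EXI

open MvPolynomial Pool.Agent.EXL

private lemma range_am (K : Subfield ℂ) : Set.range (algebraMap K ℂ) = (K : Set ℂ) := by
  ext x
  constructor
  · rintro ⟨c, rfl⟩
    exact c.2
  · intro hx
    exact ⟨⟨x, hx⟩, rfl⟩

theorem td_basis (k : Subfield ℂ) {ι : Type} [Fintype ι] (z : ι → ℂ) {m : ℕ}
    (h : td (k : Set ℂ) z = m) : ∃ s : Fin m → ι, AlgebraicIndependent k (fun i => z (s i)) := by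
  obtain ⟨s, hs, hind, -⟩ := exists_basis (k := k) z
  rw [range_am, h] at hs
  let e : Fin m ≃ s := (Fintype.equivFinOfCardEq (by rw [Fintype.card_coe, hs])).symm
  exact ⟨fun i => (e i : ι), hind.comp e e.injective⟩

theorem ind_iff (k : Subfield ℂ) {n : ℕ} (a : Fin n → ℂ) :
    AlgebraicIndependent k a ↔ td (k : Set ℂ) a = n := by
  rw [algInd_iff, range_am, Fintype.card_fin]

theorem kill_of_algebraic (k : Subfield ℂ) {ι : Type} (z : ι → ℂ) (v : Derivation ℤ ℂ ℂ)
    (hv : v ∈ DerOver (k : Set ℂ)) (hz : ∀ i, v (z i) = 0) (e : ℂ)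
    (he : IsAlgebraic (Algebra.adjoin k (Set.range z)) e) : v e = 0 := by
  set F : Subfield ℂ := Subfield.closure ((k : Set ℂ) ∪ Set.range z) with hF
  have hvF : v ∈ DerOver (F : Set ℂ) := by
    rw [hF, derOver_closure]
    intro x hx
    rcases hx with hx | ⟨i, rfl⟩
    · exact hv x hx
    · exact hz i
  refine derOver_algebraic F v hvF e ?_
  -- algebraic over `F`
  have hle : ∀ x ∈ Algebra.adjoin k (Set.range z), x ∈ F := by
    intro x hx
    induction hx using Algebra.adjoin_induction with
    | mem x hx => exact Subfield.subset_closure (Or.inr hx)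
    | algebraMap r => exact Subfield.subset_closure (Or.inl r.2)
    | add x y _ _ hx hy => exact add_mem hx hy
    | mul x y _ _ hx hy => exact mul_mem hx hy
  obtain ⟨p, hp0, hp⟩ := he
  let g : Algebra.adjoin k (Set.range z) →+* F :=
    { toFun := fun x => ⟨x, hle x x.2⟩
      map_one' := rfl
      map_mul' := fun _ _ => rfl
      map_zero' := rfl
      map_add' := fun _ _ => rfl }
  have hg : Function.Injective g := by
    intro x y hxy
    have := congrArg Subtype.val hxy
    exact Subtype.ext this
  refine ⟨p.map g, ?_, ?_⟩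
  · rwa [Ne, Polynomial.map_eq_zero_iff hg]
  · rw [Polynomial.aeval_def, Polynomial.eval₂_map]
    rw [Polynomial.aeval_def] at hp
    have hcomp : (algebraMap F ℂ).comp g = algebraMap (Algebra.adjoin k (Set.range z)) ℂ := rfl
    rw [hcomp]
    exact hp

theorem td_not_ind (k : Subfield ℂ) {ι : Type} [Fintype ι] (z : ι → ℂ) {m : ℕ}
    (h : td (k : Set ℂ) z = m)
    (y : Fin (m + 1) → IntermediateField.adjoin k (Set.range z)) :
    ¬ AlgebraicIndependent k y := by
  intro hy
  have h1 : AlgebraicIndependent k (fun i => (y i : ℂ)) := by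
    have := hy.map' (f := (IntermediateField.adjoin k (Set.range z)).val)
      (IntermediateField.adjoin k (Set.range z)).val.injective
    exact this
  have h2 := (ind_iff k _).1 h1
  have h3 : td (k : Set ℂ) (fun i => (y i : ℂ)) ≤ td (k : Set ℂ) z := by
    refine rk_le_of_dep _ _ _ ?_
    intro D hD hz i
    have hkill : ∀ x ∈ IntermediateField.adjoin k (Set.range z), D x = 0 := by
      intro x hx
      induction hx using IntermediateField.adjoin_induction with
      | mem x hx =>
        obtain ⟨i, rfl⟩ := hx
        exact hz i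
      | algebraMap r => exact hD _ r.2
      | add x y _ _ hx hy => rw [map_add, hx, hy, add_zero]
      | inv x _ hx => rw [Derivation.leibniz_inv, hx, smul_zero]
      | mul x y _ _ hx hy => rw [Derivation.leibniz, hx, hy, smul_zero, smul_zero, add_zero]
    exact hkill _ (y i).2
  rw [h2, h] at h3
  omega

theorem top_alg (k : Subfield ℂ) {n : ℕ} (a b : Fin n → ℂ) (h1 : td (k : Set ℂ) a = n)
    (h2 : td (k : Set ℂ) (Sum.elim a b) = n) (j : Fin n) :
    IsAlgebraic (Algebra.adjoin k (Set.range a)) (b j) := by
  by_contra hna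
  have hind := (ind_iff k a).2 h1
  have h3 : AlgebraicIndependent k (fun o : Option (Fin n) => o.elim (b j) a) :=
    (hind.option_iff_transcendental (b j)).2 hna
  have h4 := (algInd_iff (k := k) _).1 h3
  rw [range_am, Fintype.card_option, Fintype.card_fin] at h4
  have h5 : td (k : Set ℂ) (fun o : Option (Fin n) => o.elim (b j) a) ≤
      td (k : Set ℂ) (Sum.elim a b) := by
    refine rk_le_of_dep _ _ _ ?_
    intro D _ hz o
    cases o with
    | none => exact hz (Sum.inr j)
    | some i => exact hz (Sum.inl i)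
  rw [h4, h2] at h5
  omega

end Pool.Agent.EXI
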