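import Pool.Agent.EXI.Base

/-!
# EXI / TFTor: monomial base embeddings

`tor_ord`: `f(c_1 ζ^{m_1}, .., c_y ζ^{m_y})` for a polynomial `f ≠ 0` over `K` has order
`min_{s ∈ supp f} ⟨m, s⟩`, when `c_{i₀} = 1`, `m_{i₀} ≠ 0` and the other `c_l` are algebraically
independent over `K`.
PROOF. `eval₂` of `f` is `∑_s f_s c^s ζ^{⟨m, s⟩}`. Let `μ` be the minimum of `⟨m, s⟩` on the support; the
coefficients below `μ` are `0` and the coefficient at `μ` is `∑_{⟨m, s⟩ = μ} f_s c^s`. Distinct `s`
with `⟨m, s⟩ = μ` have distinct restrictions to `{l ≠ i₀}` (because `m_{i₀} ≠ 0`), so this is the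
value at the algebraically independent `c_l` (`l ≠ i₀`) of a nonzero polynomial.

`base_of_inj`: an evaluation homomorphism `K[X] → L` which is injective extends to the field
generated by algebraically independent elements `t_l`.
PROOF. `AlgebraicIndependent.aevalEquiv` identifies `K[X]` with `Algebra.adjoin K (range t)`, and
`IntermediateField.adjoin K (range t)` is its field of fractions
(`IntermediateField.adjoin.. IsFractionRing`, or `AlgebraicIndependent.aevalEquivField`);
`IsFractionRing.lift` / `IsLocalization.lift`.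
-/

set_option autoImplicit false

namespace Pool.Agent.EXL

open MvPolynomial

/-- Constants: `K → Ω((ζ))`. -/
noncomputable def cst {K Ω : Subfield ℂ} (h : K ≤ Ω) : K →+* LaurentSeries Ω :=
  (HahnSeries.C : Ω →+* LaurentSeries Ω).comp (Subfield.inclusion h)

private theorem tT_prod {Ω : Subfield ℂ} {y : ℕ} (c : Fin y → Ω) (m : Fin y → ℤ)
    (s : Fin y →₀ ℕ) :
    ∏ l, (HahnSeries.single (m l) (c l) : LaurentSeries Ω) ^ s l =
      HahnSeries.single (∑ l, m l * (s l : ℤ)) (∏ l, c l ^ s l) := by
  have key : ∀ S : Finset (Fin y), ∏ l ∈ S, (HahnSeries.single (m l) (c l) : LaurentSeries Ω) ^ s l =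
      HahnSeries.single (∑ l ∈ S, m l * (s l : ℤ)) (∏ l ∈ S, c l ^ s l) := by
    intro S
    induction S using Finset.induction_on with
    | empty => simp
    | insert a S ha ih =>
      rw [Finset.prod_insert ha, Finset.sum_insert ha, Finset.prod_insert ha, ih,
        HahnSeries.single_pow, HahnSeries.single_mul_single]
      congr 2
      rw [nsmul_eq_mul, mul_comm]
  exact key Finset.univ

private theorem tT_coeff {K Ω : Subfield ℂ} (h : K ≤ Ω) {y : ℕ} (c : Fin y → Ω) (m : Fin y → ℤ)
    (f : MvPolynomial (Fin y) K) (i : ℤ) :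
    (eval₂ (cst h) (fun l => HahnSeries.single (m l) (c l)) f).coeff i =
      ∑ s ∈ f.support, if i = ∑ l, m l * (s l : ℤ) then
        (Subfield.inclusion h (f.coeff s)) * ∏ l, c l ^ s l else 0 := by
  rw [eval₂_eq', HahnSeries.coeff_sum]
  refine Finset.sum_congr rfl fun s _ => ?_
  rw [tT_prod]
  have e : (cst h) (coeff s f) = HahnSeries.single 0 (Subfield.inclusion h (f.coeff s)) := rfl
  rw [e, HahnSeries.single_mul_single, zero_add, HahnSeries.coeff_single]
  split_ifs <;> rfl

theorem tor_ord {K Ω : Subfield ℂ} (h : K ≤ Ω) {y : ℕ} (c : Fin y → Ω) (m : Fin y → ℤ) (i₀ : Fin y)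
    (hm : m i₀ ≠ 0) (hc : c i₀ = 1)
    (hind : AlgebraicIndependent K fun l : {l : Fin y // l ≠ i₀} => ((c l : Ω) : ℂ))
    (f : MvPolynomial (Fin y) K) (hf : f ≠ 0) :
    ∃ s ∈ f.support, (∀ s' ∈ f.support, ∑ l, m l * (s l : ℤ) ≤ ∑ l, m l * (s' l : ℤ)) ∧
      (eval₂ (cst h) (fun l => HahnSeries.single (m l) (c l)) f).coeff (∑ l, m l * (s l : ℤ)) ≠ 0 ∧
      ∀ i < ∑ l, m l * (s l : ℤ),
        (eval₂ (cst h) (fun l => HahnSeries.single (m l) (c l)) f).coeff i = 0 := by
  classical
  have hne : f.support.Nonempty := by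
    rw [Finset.nonempty_iff_ne_empty]
    intro he
    exact hf (MvPolynomial.support_eq_empty.mp he)
  obtain ⟨s₀, hs₀, hmin⟩ := Finset.exists_min_image f.support (fun s => ∑ l, m l * (s l : ℤ)) hne
  refine ⟨s₀, hs₀, hmin, ?_, ?_⟩
  · rw [tT_coeff]
    intro h0
    set μ : ℤ := ∑ l, m l * (s₀ l : ℤ) with hμ
    -- the restricted polynomial
    set G : MvPolynomial {l : Fin y // l ≠ i₀} K :=
      ∑ s ∈ f.support, if μ = ∑ l, m l * (s l : ℤ) then
        monomial (s.subtypeDomain (fun l => l ≠ i₀)) (f.coeff s) else 0 with hG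
    have hGval : aeval (fun l : {l : Fin y // l ≠ i₀} => ((c l : Ω) : ℂ)) G = 0 := by
      rw [hG, map_sum]
      have h1 := congrArg (fun x : Ω => (x : ℂ)) h0
      simp only [ZeroMemClass.coe_zero] at h1
      rw [← h1]
      rw [AddSubmonoidClass.coe_finsetSum]
      refine Finset.sum_congr rfl fun s _ => ?_
      split_ifs with hs
      · rw [aeval_monomial, Finsupp.prod_fintype _ _ (fun l => pow_zero _)]
        have e1 : ∏ l, ((c l : Ω) : ℂ) ^ s l =
            ∏ l : {l : Fin y // l ≠ i₀}, ((c l : Ω) : ℂ) ^ s l := by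
          rw [Fintype.prod_eq_mul_prod_subtype_ne (fun l => ((c l : Ω) : ℂ) ^ s l) i₀, hc]
          simp
        have e2 : (((Subfield.inclusion h (f.coeff s)) * ∏ l, c l ^ s l : Ω) : ℂ) =
            ((f.coeff s : K) : ℂ) * ∏ l, ((c l : Ω) : ℂ) ^ s l := by
          push_cast
          rfl
        rw [e2, e1]
        rfl
      · simp
    have hG0 : G = 0 := by
      exact (algebraicIndependent_iff.mp hind) G hGval
    have hco : G.coeff (s₀.subtypeDomain (fun l => l ≠ i₀)) = f.coeff s₀ := by
      rw [hG, coeff_sum]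
      rw [Finset.sum_eq_single s₀]
      · rw [if_pos hμ, coeff_monomial, if_pos rfl]
      · intro s _ hss
        split_ifs with hs
        · rw [coeff_monomial, if_neg]
          intro he
          apply hss
          have hr : ∀ l, l ≠ i₀ → s l = s₀ l := by
            intro l hl
            have := DFunLike.congr_fun he ⟨l, hl⟩
            simpa using this
          have hi : s i₀ = s₀ i₀ := by
            have hw : ∑ l, m l * (s₀ l : ℤ) = ∑ l, m l * (s l : ℤ) := hs
            have h2 : ∑ l, m l * ((s₀ l : ℤ) - (s l : ℤ)) = 0 := by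
              simp only [mul_sub, Finset.sum_sub_distrib]
              rw [hw, sub_self]
            rw [Finset.sum_eq_single i₀] at h2
            · rcases mul_eq_zero.mp h2 with h3 | h3
              · exact absurd h3 hm
              · omega
            · intro l _ hl
              rw [hr l hl, sub_self, mul_zero]
            · intro hl
              exact absurd (Finset.mem_univ _) hl
          ext l
          by_cases hl : l = i₀
          · rw [hl, hi]
          · exact hr l hl
        · exact coeff_zero _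
      · intro hs
        exact absurd hs₀ hs
    rw [hG0, coeff_zero] at hco
    exact (mem_support_iff.mp hs₀) hco.symm
  · intro i hi
    rw [tT_coeff]
    refine Finset.sum_eq_zero fun s hs => ?_
    rw [if_neg]
    have := hmin s hs
    intro he
    omega

theorem base_of_inj {K : Subfield ℂ} {y : ℕ} (t : Fin y → ℂ) (ht : AlgebraicIndependent K t)
    {L : Type*} [Field L] (ψ : K →+* L) (v : Fin y → L)
    (hv : ∀ f : MvPolynomial (Fin y) K, f ≠ 0 → eval₂ ψ v f ≠ 0) :
    ∃ κ : (IntermediateField.adjoin K (Set.range t)) →+* L,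
      (∀ c : K, κ (algebraMap K _ c) = ψ c) ∧
      ∀ l, κ ⟨t l, IntermediateField.subset_adjoin K _ ⟨l, rfl⟩⟩ = v l := by
  have hinj : Function.Injective (eval₂Hom ψ v) := by
    rw [injective_iff_map_eq_zero]
    intro f hf
    by_contra hne
    exact hv f hne hf
  let lift : FractionRing (MvPolynomial (Fin y) K) →+* L := IsFractionRing.lift hinj
  have hlift : ∀ f : MvPolynomial (Fin y) K,
      lift (algebraMap _ (FractionRing (MvPolynomial (Fin y) K)) f) = eval₂Hom ψ v f :=
    fun f => IsFractionRing.lift_algebraMap hinj f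
  let e : (IntermediateField.adjoin K (Set.range t)) →+* FractionRing (MvPolynomial (Fin y) K) :=
    ht.aevalEquivField.symm.toAlgHom.toRingHom
  refine ⟨lift.comp e, ?_, ?_⟩
  · intro c
    have h1 : e (algebraMap K _ c) = algebraMap (MvPolynomial (Fin y) K) (FractionRing (MvPolynomial (Fin y) K)) (C c) := by
      have h2 : ht.aevalEquivField.symm (algebraMap K _ c) =
          algebraMap K (FractionRing (MvPolynomial (Fin y) K)) c := AlgEquiv.commutes _ c
      have h3 : algebraMap K (FractionRing (MvPolynomial (Fin y) K)) c =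
          algebraMap (MvPolynomial (Fin y) K) (FractionRing (MvPolynomial (Fin y) K)) (C c) := by
        rw [IsScalarTower.algebraMap_apply K (MvPolynomial (Fin y) K)
          (FractionRing (MvPolynomial (Fin y) K))]
        rfl
      rw [← h3]
      exact h2
    rw [RingHom.comp_apply, h1, hlift]
    simp
  · intro l
    have h1 : e
        ⟨t l, IntermediateField.subset_adjoin K _ ⟨l, rfl⟩⟩ =
        algebraMap (MvPolynomial (Fin y) K) (FractionRing (MvPolynomial (Fin y) K)) (MvPolynomial.X l) := by
      have h2 : ht.aevalEquivField (algebraMap (MvPolynomial (Fin y) K) (FractionRing (MvPolynomial (Fin y) K)) (MvPolynomial.X l)) =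
          ⟨t l, IntermediateField.subset_adjoin K _ ⟨l, rfl⟩⟩ := by
        apply Subtype.ext
        rw [ht.aevalEquivField_algebraMap_apply_coe]
        simp
      rw [← h2]
      exact AlgEquiv.symm_apply_apply _ _
    rw [RingHom.comp_apply, h1, hlift]
    simp

/-- The monomial base embedding. -/
theorem tor_base {K Ω : Subfield ℂ} (h : K ≤ Ω) {y : ℕ} (t : Fin y → ℂ)
    (ht : AlgebraicIndependent K t) (c : Fin y → Ω) (m : Fin y → ℤ) (i₀ : Fin y)
    (hm : m i₀ ≠ 0) (hc : c i₀ = 1)
    (hind : AlgebraicIndependent K fun l : {l : Fin y // l ≠ i₀} => ((c l : Ω) : ℂ)) :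
    ∃ κ : (IntermediateField.adjoin K (Set.range t)) →+* LaurentSeries Ω,
      (∀ x : K, κ (algebraMap K _ x) = cst h x) ∧
      ∀ l, κ ⟨t l, IntermediateField.subset_adjoin K _ ⟨l, rfl⟩⟩ = HahnSeries.single (m l) (c l) := by
  refine base_of_inj t ht (cst h) _ fun f hf h0 => ?_
  obtain ⟨s, _, _, h1, _⟩ := tor_ord h c m i₀ hm hc hind f hf
  rw [h0] at h1
  exact h1 (HahnSeries.coeff_zero ..)

end Pool.Agent.EXL
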