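import Pool.Agent.EXI.CDen

/-!
# EXI / CTou: a generator with a simple root

PROOF.  `L = k(x) ⊆ K`, `O₁ = {f(x)/g(x) : g(ρ x) ≠ 0} ⊆ O ∩ L`. By `hkerP` every element of
`L^*` is `P(x)^s · unit of O₁` (write `f = P^s f₁`, `P ∤ f₁`). `K` is finite over `L` (finitely generated
and algebraic), so `K = L(θ)` (primitive element theorem) with `θ ∈ O` (multiply by a power of
`P(x)`). Let `H ∈ O₁[T]`, `H(θ) = 0`, `H'(θ) ≠ 0` (the minimal polynomial over `L` times a power of
`P(x)`; characteristic zero). `H'(θ) = P(x)^s · unit`, `s ≥ 0`. By `dense` there is `c ∈ O₁` with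
`θ - c ∈ t^{2s+1} O`. Put `w = (θ - c) / P(x)^s ∈ t O` (`D(w) ≥ s + 1`). Then
`H(c + P^s W) = H(c) + H'(c) P^s W + P^{2s} W^2 R(W)`, `R ∈ O₁[W]`, where
`H'(c) ≡ H'(θ)` modulo `(θ - c) O` so `H'(c) = P^s · unit of O₁`, and
`H(c) = H(θ) - (θ - c) H'(θ) + (θ - c)^2 (..)` is in `t^{2s+1} O`, so `H(c) = P^{2s} h₀`, `h₀ ∈ O₁`,
`ρ h₀ = 0` (an element of `L ∩ t^j O` is `P^j` times an element of `O₁`, by the factorization).
So `H₁(W) := H(c + P^s W) / P^{2s} = h₀ + ε₁ W + W^2 R(W) ∈ O₁[W]`, `ρ ε₁ ≠ 0`, `H₁(w) = 0`, and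
`ρ (H₁'(w)) = ρ ε₁ ≠ 0` since `ρ w = 0`. Multiply `H₁` by a common denominator `g(x)`, `g(ρ x) ≠ 0`, of its
coefficients: this is `G₁(x, W)` with `G₁ ∈ k[X, W]`. `K = L(θ) = L(w)`.

(In the formal proof denominators are cleared from the start: with `c = f/g` one works with
`F = scaleRoots H g`, `F(f + g P^s W) = P^{2s} G₁(W)` in `k[X][W]`.)
-/

set_option autoImplicit false

namespace Pool.Agent.EXI

open MvPolynomial

variable {k : Subfield ℂ} {K : Type} [Field K] [Algebra k K]

/-- polynomials in one variable over the polynomial ring as polynomials in `Option (Fin n)` -/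
private noncomputable def ctouOpt {k : Type*} [Field k] {n : ℕ} :
    Polynomial (MvPolynomial (Fin n) k) →+* MvPolynomial (Option (Fin n)) k :=
  Polynomial.eval₂RingHom (rename (R := k) (some : Fin n → Option (Fin n))).toRingHom (X none)

private theorem ctouOpt_aeval {k : Type*} [Field k] {n : ℕ} {A : Type*} [CommRing A] [Algebra k A]
    (a : A) (y : Fin n → A) (G : Polynomial (MvPolynomial (Fin n) k)) :
    aeval (cons a y) (ctouOpt G) = G.eval₂ (aeval y : MvPolynomial (Fin n) k →ₐ[k] A).toRingHom a := by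
  have h1 : aeval (cons a y) (ctouOpt G) =
      (aeval (cons a y) : MvPolynomial (Option (Fin n)) k →ₐ[k] A).toRingHom
        (Polynomial.eval₂ (rename (R := k) (some : Fin n → Option (Fin n))).toRingHom (X none) G) := rfl
  rw [h1, Polynomial.hom_eval₂]
  congr 1
  · ext i
    · simp
    · simp [cons]
  · simp [cons]

private theorem ctouOpt_pderiv {k : Type*} [Field k] {n : ℕ}
    (G : Polynomial (MvPolynomial (Fin n) k)) :
    pderiv none (ctouOpt G) = ctouOpt (Polynomial.derivative G) := by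
  have hz : ∀ c : MvPolynomial (Fin n) k, pderiv none (rename (some : Fin n → Option (Fin n)) c) = 0 := by
    intro c
    apply pderiv_eq_zero_of_notMem_vars
    intro h
    have h2 := vars_rename (some : Fin n → Option (Fin n)) c h
    simp at h2
  have hm : ∀ (i : ℕ) (c : MvPolynomial (Fin n) k), ctouOpt (Polynomial.monomial i c) =
      rename (some : Fin n → Option (Fin n)) c * X none ^ i := by
    intro i c
    simp only [ctouOpt, Polynomial.coe_eval₂RingHom, Polynomial.eval₂_monomial]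
    rfl
  induction G using Polynomial.induction_on' with
  | add p q hp hq => rw [map_add, map_add, hp, hq, map_add, map_add]
  | monomial i c =>
    rw [Polynomial.derivative_monomial, hm, hm, Derivation.leibniz, hz, smul_zero, add_zero,
      Derivation.leibniz_pow, pderiv_X_self, smul_eq_mul, map_mul, map_natCast]
    simp only [smul_eq_mul, nsmul_eq_mul, mul_one]
    ring

section basics

variable (pl : Place k K) {n : ℕ} (x : Fin n → pl.O)

private noncomputable def ctouκ : k →+* pl.O where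
  toFun c := ⟨algebraMap k K c, pl.memk c⟩
  map_one' := by ext; simp
  map_mul' a b := by ext; simp
  map_zero' := by ext; simp
  map_add' a b := by ext; simp

/-- evaluation at `x` with values in `O` -/
private noncomputable def ctouE : MvPolynomial (Fin n) k →+* pl.O := eval₂Hom (ctouκ pl) x

private theorem ctouE_coe (f : MvPolynomial (Fin n) k) :
    ((ctouE pl x f : pl.O) : K) = aeval (fun i => (x i : K)) f := by
  have h : (pl.O.subtype).comp (ctouE pl x) =
      (aeval (fun i => (x i : K)) : MvPolynomial (Fin n) k →ₐ[k] K).toRingHom := by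
    ext i
    · simp [ctouE, ctouκ]
    · simp [ctouE]
  exact DFunLike.congr_fun h f

private theorem ctouE_rho (f : MvPolynomial (Fin n) k) :
    pl.ρ (ctouE pl x f) = aeval (fun i => pl.ρ (x i)) f := by
  have h : (pl.ρ).comp (ctouE pl x) =
      (aeval (fun i => pl.ρ (x i)) : MvPolynomial (Fin n) k →ₐ[k] ℂ).toRingHom := by
    ext i
    · simp only [ctouE, ctouκ, RingHom.comp_apply, AlgHom.toRingHom_eq_coe, RingHom.coe_coe,
        eval₂Hom_C, aeval_C]
      exact pl.ρk i
    · simp [ctouE]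
  exact DFunLike.congr_fun h f

/-- the uniformizer as an element of `O` -/
private noncomputable def ctouT : pl.O := ⟨pl.t, pl.t_mem⟩

private theorem ctou_rhoT : pl.ρ (ctouT pl) = 0 := pl.ρt

private theorem ctou_ne {e : pl.O} (h : pl.ρ e ≠ 0) : (e : K) ≠ 0 := by
  intro h0
  apply h
  have : e = 0 := Subtype.ext h0
  rw [this, map_zero]

/-- comparison of `t^a · unit` -/
private theorem ctou_cmp {a b : ℕ} {u e : pl.O} (hu : pl.ρ u ≠ 0)
    (h : ctouT pl ^ a * u = ctouT pl ^ b * e) : b ≤ a := by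
  by_contra hlt
  obtain ⟨d, rfl⟩ := Nat.exists_eq_add_of_lt (not_le.1 hlt)
  have ht : ctouT pl ≠ 0 := by
    intro h0
    exact pl.t_ne (congrArg Subtype.val h0)
  have h1 : u = ctouT pl * (ctouT pl ^ d * e) := by
    apply mul_left_cancel₀ (pow_ne_zero a ht)
    rw [h]
    ring
  apply hu
  rw [h1, map_mul, ctou_rhoT, zero_mul]

/-- an element with nonzero residue is a unit -/
private theorem ctou_unit {e : pl.O} (h : pl.ρ e ≠ 0) : ∃ e' : pl.O, e * e' = 1 := by
  refine ⟨⟨(e : K)⁻¹, pl.inv_mem e h⟩, Subtype.ext ?_⟩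
  exact mul_inv_cancel₀ (ctou_ne pl h)

variable {pl x} in
private theorem ctou_fac {P : MvPolynomial (Fin n) k}
    (hkerP : ∀ f : MvPolynomial (Fin n) k, aeval (fun i => pl.ρ (x i)) f = 0 ↔ P ∣ f)
    {ε : pl.O} (hε : ctouE pl x P = ctouT pl * ε)
    (f : MvPolynomial (Fin n) k) (hf : f ≠ 0) :
    ∃ (s : ℕ) (f₁ : MvPolynomial (Fin n) k), f = P ^ s * f₁ ∧ pl.ρ (ctouE pl x f₁) ≠ 0 ∧
      ctouE pl x f = ctouT pl ^ s * (ε ^ s * ctouE pl x f₁) := by
  have hPu : ¬ IsUnit P := by
    intro hu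
    have h1 : P ∣ 1 := hu.dvd
    have h2 := (hkerP 1).2 h1
    rw [map_one] at h2
    exact one_ne_zero h2
  obtain ⟨c, hc, hc'⟩ := (FiniteMultiplicity.of_not_isUnit hPu hf).exists_eq_pow_mul_and_not_dvd
  refine ⟨_, c, hc, ?_, ?_⟩
  · rw [ctouE_rho]
    intro h
    exact hc' ((hkerP c).1 h)
  · conv_lhs => rw [hc]
    rw [map_mul, map_pow, hε]
    ring

variable {pl x} in
private theorem ctou_dvd {P : MvPolynomial (Fin n) k}
    (hkerP : ∀ f : MvPolynomial (Fin n) k, aeval (fun i => pl.ρ (x i)) f = 0 ↔ P ∣ f)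
    {ε : pl.O} (hε0 : pl.ρ ε ≠ 0) (hε : ctouE pl x P = ctouT pl * ε)
    (f : MvPolynomial (Fin n) k) {m : ℕ} {e : pl.O} (h : ctouE pl x f = ctouT pl ^ m * e) :
    P ^ m ∣ f := by
  by_cases hf : f = 0
  · rw [hf]
    exact dvd_zero _
  · obtain ⟨s, f₁, h1, h2, h3⟩ := ctou_fac hkerP hε f hf
    have h4 : m ≤ s := by
      refine ctou_cmp pl (u := ε ^ s * ctouE pl x f₁) ?_ (h3.symm.trans h)
      rw [map_mul, map_pow]
      exact mul_ne_zero (pow_ne_zero _ hε0) h2
    rw [h1]
    exact (pow_dvd_pow P h4).mul_right _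

end basics

/-- a polynomial relation with a simple root -/
private theorem ctou_H {n : ℕ} (x : Fin n → K) (hind : AlgebraicIndependent k x) (θ : K)
    (hθ : IsAlgebraic (Algebra.adjoin k (Set.range x)) θ) :
    ∃ H : Polynomial (MvPolynomial (Fin n) k),
      H.eval₂ (aeval x : MvPolynomial (Fin n) k →ₐ[k] K).toRingHom θ = 0 ∧
      (Polynomial.derivative H).eval₂ (aeval x : MvPolynomial (Fin n) k →ₐ[k] K).toRingHom θ ≠ 0 := by
  classical
  set φ := (aeval x : MvPolynomial (Fin n) k →ₐ[k] K).toRingHom with hφ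
  have hinj : Function.Injective φ := hind
  have hex : ∃ d : ℕ, ∃ H : Polynomial (MvPolynomial (Fin n) k), H ≠ 0 ∧ H.natDegree = d ∧
      H.eval₂ φ θ = 0 := by
    obtain ⟨q, hq0, hq⟩ := hθ
    refine ⟨_, q.map (hind.aevalEquiv.symm : _ ≃+* _).toRingHom, ?_, rfl, ?_⟩
    · exact (Polynomial.map_ne_zero_iff (RingEquiv.injective _)).2 hq0
    · rw [Polynomial.eval₂_map, ← hq, Polynomial.aeval_def]
      congr 1
      ext1 c
      have h1 := hind.algebraMap_aevalEquiv (hind.aevalEquiv.symm c)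
      rw [AlgEquiv.apply_symm_apply] at h1
      exact h1.symm
  obtain ⟨H, hH0, hHd, hH⟩ := Nat.find_spec hex
  refine ⟨H, hH, fun h' => ?_⟩
  have hd : H.natDegree ≠ 0 := by
    intro h0
    rw [Polynomial.eq_C_of_natDegree_eq_zero h0, Polynomial.eval₂_C] at hH
    have h1 : H.coeff 0 = 0 := by
      apply hinj
      rw [hH, map_zero]
    apply hH0
    rw [Polynomial.eq_C_of_natDegree_eq_zero h0, h1, Polynomial.C_0]
  have hlt := Polynomial.natDegree_derivative_lt hd
  refine Nat.find_min hex (m := (Polynomial.derivative H).natDegree) (by omega)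
    ⟨_, ?_, rfl, h'⟩
  intro h0
  exact hd (Polynomial.derivative_eq_zero.1 h0)

private theorem ctou_mem {n : ℕ} (x : Fin n → K) (M : IntermediateField k K) (hx : ∀ i, x i ∈ M)
    (f : MvPolynomial (Fin n) k) : aeval x f ∈ M := by
  induction f using MvPolynomial.induction_on with
  | C a =>
    rw [aeval_C]
    exact M.algebraMap_mem a
  | add p q hp hq =>
    rw [map_add]
    exact M.add_mem hp hq
  | mul_X p i hp =>
    rw [map_mul, aeval_X]
    exact M.mul_mem hp (hx i)

private theorem ctou_prim (hfg : ∃ S : Finset K, IntermediateField.adjoin k (S : Set K) = ⊤) {n : ℕ}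
    (x : Fin n → K) (halg : ∀ e : K, IsAlgebraic (Algebra.adjoin k (Set.range x)) e) :
    ∃ α : K, ∀ M : IntermediateField k K, (∀ i, x i ∈ M) → α ∈ M → M = ⊤ := by
  classical
  set L := IntermediateField.adjoin k (Set.range x) with hL
  have hint : ∀ e : K, IsIntegral L e := by
    intro e
    rw [← isAlgebraic_iff_isIntegral]
    obtain ⟨q, hq0, hq⟩ := halg e
    have hle : Algebra.adjoin k (Set.range x) ≤ L.toSubalgebra :=
      IntermediateField.algebra_adjoin_le_adjoin k _
    set ι : Algebra.adjoin k (Set.range x) →+* L := (Subalgebra.inclusion hle).toRingHom with hι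
    have hιi : Function.Injective ι := Subalgebra.inclusion_injective hle
    refine ⟨q.map ι, (Polynomial.map_ne_zero_iff hιi).2 hq0, ?_⟩
    rw [Polynomial.aeval_def, Polynomial.eval₂_map, ← hq, Polynomial.aeval_def]
    rfl
  obtain ⟨S, hS⟩ := hfg
  have hfd : FiniteDimensional L K := by
    have h1 : FiniteDimensional L (IntermediateField.adjoin L (S : Set K)) :=
      IntermediateField.finiteDimensional_adjoin fun e _ => hint e
    have h2 : IntermediateField.adjoin L (S : Set K) = ⊤ := by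
      rw [eq_top_iff]
      intro z _
      have h3 : IntermediateField.adjoin k (S : Set K) ≤
          (IntermediateField.adjoin L (S : Set K)).restrictScalars k := by
        rw [IntermediateField.adjoin_le_iff]
        intro y hy
        exact IntermediateField.subset_adjoin L _ hy
      exact h3 (hS ▸ IntermediateField.mem_top)
    rw [h2] at h1
    exact Module.Finite.equiv (IntermediateField.topEquiv (F := L) (E := K)).toLinearEquiv
  have : CharZero L := algebraRat.charZero L
  obtain ⟨α, hα⟩ := Field.exists_primitive_element L K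
  refine ⟨α, fun M hM hαM => ?_⟩
  have hLM : L ≤ M := by
    rw [hL, IntermediateField.adjoin_le_iff]
    rintro _ ⟨i, rfl⟩
    exact hM i
  rw [eq_top_iff]
  intro z _
  have hz : z ∈ IntermediateField.adjoin L {α} := by
    rw [hα]
    exact IntermediateField.mem_top
  refine IntermediateField.adjoin_induction (F := L) (p := fun z _ => z ∈ M) ?_ ?_ ?_ ?_ ?_ hz
  · intro y hy
    rw [Set.mem_singleton_iff] at hy
    rw [hy]
    exact hαM
  · intro y
    exact hLM y.2
  · intro a b _ _ ha hb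
    exact M.add_mem ha hb
  · intro a _ ha
    exact M.inv_mem ha
  · intro a b _ _ ha hb
    exact M.mul_mem ha hb

/-- A generator `w` of `K` over `k(x)` which is a simple root modulo `t`. -/
theorem exists_w (pl : Place k K)
    (hfg : ∃ S : Finset K, IntermediateField.adjoin k (S : Set K) = ⊤) {n : ℕ} (x : Fin n → pl.O)
    (P : MvPolynomial (Fin n) k)
    (hind : AlgebraicIndependent k (fun i => (x i : K)))
    (halg : ∀ e : K, IsAlgebraic (Algebra.adjoin k (Set.range fun i => (x i : K))) e)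
    (hkerP : ∀ f : MvPolynomial (Fin n) k, aeval (fun i => pl.ρ (x i)) f = 0 ↔ P ∣ f)
    (hP : ∃ ε : pl.O, pl.ρ ε ≠ 0 ∧ aeval (fun i => (x i : K)) P = pl.t * ε)
    (hres : ∀ e : pl.O, pl.ρ e ∈ IntermediateField.adjoin k (Set.range fun i => pl.ρ (x i))) :
    ∃ w : pl.O, pl.ρ w = 0 ∧
      (∃ G₁ : MvPolynomial (Option (Fin n)) k,
        aeval (cons (w : K) fun i => (x i : K)) G₁ = 0 ∧
        aeval (cons (pl.ρ w) fun i => pl.ρ (x i)) (pderiv none G₁) ≠ 0) ∧
      IntermediateField.adjoin k (insert (w : K) (Set.range fun i => (x i : K))) = ⊤ := by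
  classical
  obtain ⟨ε, hε0, hεK⟩ := hP
  set E := ctouE pl x with hE
  set T := ctouT pl with hT
  have hTK : (T : K) = pl.t := rfl
  have hε : E P = T * ε := Subtype.ext (by
    rw [ctouE_coe, hεK]
    rfl)
  obtain ⟨εi, hεi⟩ := ctou_unit pl hε0
  have hEK : ∀ f, ((E f : pl.O) : K) = aeval (fun i => (x i : K)) f := ctouE_coe pl x
  have hEr : ∀ f, pl.ρ (E f) = aeval (fun i => pl.ρ (x i)) f := ctouE_rho pl x
  have hT0 : T ≠ 0 := fun h0 => pl.t_ne (congrArg Subtype.val h0)
  have hρT : pl.ρ T = 0 := pl.ρt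
  have hP0 : P ≠ 0 := by
    intro h0
    rw [h0, map_zero] at hε
    rcases mul_eq_zero.1 hε.symm with h | h
    · exact hT0 h
    · rw [h, map_zero] at hε0
      exact hε0 rfl
  -- the generator
  obtain ⟨α, hα⟩ := ctou_prim hfg (fun i => (x i : K)) halg
  obtain ⟨m, θ, hθ⟩ : ∃ (m : ℕ) (θ : pl.O), (θ : K) = (E P : K) ^ m * α := by
    by_cases h0 : α = 0
    · exact ⟨0, 0, by simp [h0]⟩
    · obtain ⟨j, u, hu, hαu⟩ := pl.fac α h0
      refine ⟨j.natAbs, ⟨(E P : K) ^ j.natAbs * α, ?_⟩, rfl⟩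
      have h1 : (E P : K) ^ j.natAbs * α = pl.t ^ ((j.natAbs : ℤ) + j) * ((ε ^ j.natAbs * u : pl.O) : K) := by
        rw [hαu, hε, zpow_add₀ pl.t_ne, zpow_natCast]
        push_cast
        rw [mul_pow, hTK]
        ring
      rw [h1, pl.mem_iff]
      · omega
      · rw [map_mul, map_pow]
        exact mul_ne_zero (pow_ne_zero _ hε0) hu
  obtain ⟨H, hH, hH'⟩ := ctou_H (fun i => (x i : K)) hind (θ : K) (halg _)
  have hφ : (aeval (fun i => (x i : K)) : MvPolynomial (Fin n) k →ₐ[k] K).toRingHom =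
      pl.O.subtype.comp E := by
    refine RingHom.ext fun f => ?_
    exact (hEK f).symm
  have hHO : H.eval₂ E θ = 0 := by
    apply Subtype.ext
    have h1 := Polynomial.hom_eval₂ H E pl.O.subtype θ
    rw [← hφ] at h1
    exact h1.trans hH
  have hHO' : ((Polynomial.derivative H).eval₂ E θ : pl.O) ≠ 0 := by
    intro h0
    apply hH'
    rw [hφ]
    have h1 := Polynomial.hom_eval₂ (Polynomial.derivative H) E pl.O.subtype θ
    rw [h0, map_zero] at h1
    exact h1.symm
  obtain ⟨s, u, hu, hsu⟩ : ∃ (s : ℕ) (u : pl.O), pl.ρ u ≠ 0 ∧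
      (Polynomial.derivative H).eval₂ E θ = T ^ s * u := by
    obtain ⟨j, u, hu, h1⟩ := pl.fac (((Polynomial.derivative H).eval₂ E θ : pl.O) : K)
      (fun h0 => hHO' (Subtype.ext h0))
    have h2 : 0 ≤ j := by
      rw [← pl.mem_iff j u hu, ← h1]
      exact ((Polynomial.derivative H).eval₂ E θ).2
    obtain ⟨s, rfl⟩ := Int.eq_ofNat_of_zero_le h2
    refine ⟨s, u, hu, Subtype.ext ?_⟩
    rw [h1, zpow_natCast]
    rfl
  obtain ⟨f, g, hg, e, he⟩ := dense pl x P ⟨ε, hε0, hεK⟩ hres θ (2 * s + 1)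
  rw [← hEr] at hg
  rw [← hEK, ← hEK] at he
  have hg0 : ((E g : pl.O) : K) ≠ 0 := ctou_ne pl hg
  have hb : E g * θ = E f + T ^ (2 * s + 1) * (E g * e) := by
    apply Subtype.ext
    push_cast
    rw [he, hTK]
    field_simp
  set F := H.scaleRoots g with hF
  have hF' : Polynomial.derivative F = (Polynomial.derivative H).scaleRoots g := by
    ext1 i
    rw [Polynomial.coeff_derivative, hF, Polynomial.coeff_scaleRoots, Polynomial.coeff_scaleRoots,
      Polynomial.coeff_derivative, Polynomial.natDegree_derivative]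
    have h1 : H.natDegree - (i + 1) = H.natDegree - 1 - i := by omega
    rw [h1]
    ring
  have hFb : F.eval₂ E (E g * θ) = 0 := by
    rw [hF, Polynomial.scaleRoots_eval₂_mul, hHO, mul_zero]
  have hFb' : (Polynomial.derivative F).eval₂ E (E g * θ) =
      T ^ s * (E g ^ (Polynomial.derivative H).natDegree * u) := by
    rw [hF', Polynomial.scaleRoots_eval₂_mul, hsu]
    ring
  have hdiff : ∀ Q : Polynomial (MvPolynomial (Fin n) k), ∃ z : pl.O,
      E (Q.eval f) = Q.eval₂ E (E g * θ) + T ^ (2 * s + 1) * z := by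
    intro Q
    obtain ⟨z, hz⟩ := Polynomial.sub_dvd_eval_sub (E f) (E g * θ) (Q.map E)
    rw [Polynomial.eval_map, Polynomial.eval_map, Polynomial.eval₂_at_apply] at hz
    refine ⟨-(E g * e) * z, ?_⟩
    have h1 : E f - E g * θ = - (T ^ (2 * s + 1) * (E g * e)) := by
      rw [hb]
      ring
    rw [h1] at hz
    rw [sub_eq_iff_eq_add] at hz
    rw [hz]
    ring
  -- divisibility of the first two Taylor coefficients
  obtain ⟨z0, hz0⟩ := hdiff F
  rw [hFb, zero_add] at hz0
  have hd0 : P ^ (2 * s + 1) ∣ F.eval f := ctou_dvd hkerP hε0 hε _ hz0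
  obtain ⟨z1, hz1⟩ := hdiff (Polynomial.derivative F)
  rw [hFb'] at hz1
  have hz1' : E ((Polynomial.derivative F).eval f) =
      T ^ s * (E g ^ (Polynomial.derivative H).natDegree * u + T ^ (s + 1) * z1) := by
    rw [hz1]
    ring
  obtain ⟨b1, hb1⟩ := ctou_dvd hkerP hε0 hε _ hz1'
  have hb1r : pl.ρ (E b1) ≠ 0 := by
    have h1 : ε ^ s * E b1 = E g ^ (Polynomial.derivative H).natDegree * u + T ^ (s + 1) * z1 := by
      apply mul_left_cancel₀ (pow_ne_zero s hT0)
      rw [← hz1', hb1, map_mul, map_pow, hε]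
      ring
    have h2 := congrArg pl.ρ h1
    rw [map_mul, map_add, map_mul, map_mul, map_pow pl.ρ T, hρT, zero_pow (Nat.succ_ne_zero s),
      zero_mul, add_zero, map_pow pl.ρ (E g)] at h2
    intro h0
    rw [h0, mul_zero] at h2
    exact mul_ne_zero (pow_ne_zero _ hg) hu h2.symm
  set Hh := (Polynomial.taylor f F).comp (Polynomial.C (g * P ^ s) * Polynomial.X) with hHh
  have hcoef : ∀ i, Hh.coeff i = (Polynomial.taylor f F).coeff i * (g * P ^ s) ^ i := fun i => by
    rw [hHh, Polynomial.comp_C_mul_X_coeff]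
  have hdvd : Polynomial.C (P ^ (2 * s)) ∣ Hh := by
    rw [Polynomial.C_dvd_iff_dvd_coeff]
    intro i
    rw [hcoef]
    rcases i with _ | _ | i
    · rw [Polynomial.taylor_coeff_zero, pow_zero, mul_one]
      exact (pow_dvd_pow P (by omega)).trans hd0
    · rw [zero_add, Polynomial.taylor_coeff_one, hb1]
      exact ⟨b1 * g, by ring⟩
    · refine Dvd.dvd.mul_left ?_ _
      rw [mul_pow, ← pow_mul]
      refine Dvd.dvd.mul_left (pow_dvd_pow P ?_) _
      nlinarith
  obtain ⟨Gp, hGp⟩ := hdvd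
  have hc1 : Gp.coeff 1 = b1 * g := by
    have h1 := hcoef 1
    rw [hGp, Polynomial.coeff_C_mul, Polynomial.taylor_coeff_one, hb1] at h1
    apply mul_left_cancel₀ (pow_ne_zero (2 * s) hP0)
    rw [h1]
    ring
  set w : pl.O := T ^ (s + 1) * (e * εi ^ s) with hw
  have hρw : pl.ρ w = 0 := by
    rw [hw, map_mul, map_pow, hρT, zero_pow (Nat.succ_ne_zero s), zero_mul]
  have hPw : E P ^ s * w = T ^ (2 * s + 1) * e := by
    calc E P ^ s * w = T ^ (2 * s + 1) * e * (ε * εi) ^ s := by
          rw [hε, hw, mul_pow]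
          ring
      _ = T ^ (2 * s + 1) * e := by rw [hεi, one_pow, mul_one]
  have hθw : E (g * P ^ s) * w + E f = E g * θ := by
    rw [hb, map_mul, map_pow, mul_assoc, hPw]
    ring
  have hG0 : Gp.eval₂ E w = 0 := by
    have h1 : Hh.eval₂ E w = 0 := by
      rw [hHh, Polynomial.taylor_apply, Polynomial.eval₂_comp, Polynomial.eval₂_comp]
      simp only [Polynomial.eval₂_mul, Polynomial.eval₂_add, Polynomial.eval₂_C,
        Polynomial.eval₂_X]
      rw [hθw, hFb]
    rw [hGp, Polynomial.eval₂_mul, Polynomial.eval₂_C, map_pow, hε] at h1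
    rcases mul_eq_zero.1 h1 with h2 | h2
    · exfalso
      refine pow_ne_zero (2 * s) (mul_ne_zero hT0 ?_) h2
      intro h3
      rw [h3, map_zero] at hε0
      exact hε0 rfl
    · exact h2
  refine ⟨w, hρw, ⟨ctouOpt Gp, ?_, ?_⟩, ?_⟩
  · rw [ctouOpt_aeval, hφ]
    have h1 := Polynomial.hom_eval₂ Gp E pl.O.subtype w
    rw [hG0, map_zero] at h1
    exact h1.symm
  · rw [ctouOpt_pderiv, ctouOpt_aeval, hρw, Polynomial.eval₂_at_zero, Polynomial.coeff_derivative,
      Nat.cast_zero, zero_add, zero_add, mul_one, hc1]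
    have h1 : (aeval fun i => pl.ρ (x i) : MvPolynomial (Fin n) k →ₐ[k] ℂ).toRingHom (b1 * g) =
        pl.ρ (E (b1 * g)) := (hEr _).symm
    rw [h1, map_mul, map_mul]
    exact mul_ne_zero hb1r hg
  · set M := IntermediateField.adjoin k (insert (w : K) (Set.range fun i => (x i : K))) with hM
    have hMx : ∀ i, (x i : K) ∈ M := fun i =>
      IntermediateField.subset_adjoin k _ (Set.mem_insert_of_mem _ ⟨i, rfl⟩)
    have hMw : (w : K) ∈ M := IntermediateField.subset_adjoin k _ (Set.mem_insert _ _)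
    have hME : ∀ q, ((E q : pl.O) : K) ∈ M := fun q => by
      rw [hEK]
      exact ctou_mem (fun i => (x i : K)) M hMx q
    refine hα M hMx ?_
    have hMθ : (θ : K) ∈ M := by
      have h1 : (θ : K) = ((E (g * P ^ s) : pl.O) * (w : K) + (E f : pl.O)) / (E g : pl.O) := by
        rw [eq_div_iff hg0, mul_comm]
        exact (congrArg Subtype.val hθw).symm
      rw [h1]
      exact M.div_mem (M.add_mem (M.mul_mem (hME _) hMw) (hME _)) (hME _)
    have hPK : ((E P : pl.O) : K) ≠ 0 := by
      rw [hε]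
      push_cast
      exact mul_ne_zero pl.t_ne (ctou_ne pl hε0)
    have h1 : α = (θ : K) / (E P : K) ^ m := by
      rw [hθ]
      field_simp
    rw [h1]
    exact M.div_mem hMθ (pow_mem (hME P) m)

end Pool.Agent.EXI
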