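import Pool.Agent.EXI.CBase
import Pool.Agent.EXI.CTou

/-!
# EXI / CChart: charts exist

PROOF.  `exists_base` gives `x`, `P`; every element of `K` is algebraic over `k(x)` (`htr`: `x` has
`m + 1` elements), `exists_w` gives `w`, `G₁`, and `exists_ker` (in `K`) gives `G` generating the
relations of `(x, w)`; `G ∣ G₁`, `G₁ = G G'`, and
`∂G₁/∂w = (∂G/∂w) G' + G (∂G'/∂w)`; at the residues `G = 0` (apply `ρ` to `G(x, w) = 0`), so
`∂G/∂w ≠ 0` at the residues.
`rep`: it is enough to treat `e = f(x, w) ≠ 0`, `f ∈ k[X, W]`, since every element of `K^*` is a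
quotient of two such elements (`K = k(x, w)`). Induction on the order `ν` of `e` (`e = t^ν ε`, `ν ≥ 0`
since `e ∈ O`). `ν = 0`: `A = f`, `B = 1`. `ν ≥ 1`: `f(ρ x, 0) = 0` (`ρ w = 0`), so
`f(X, 0) = P f₁` by `kerP`, `f = P f₁ + W f₂`. Now `G₁(x, w) = 0`; write
`G₁ = g₀(X) + g₁(X) W + W^2 R`, `g₁(ρ x) ≠ 0`, `g₀(ρ x) = 0` (apply `ρ`), `g₀ = P g₀'`, so
`w = - P(x) g₀'(x) / (g₁(x) + w R(x, w))` with `ρ` of the denominator `≠ 0`. So
`f(x, w) (g₁ + w R) = P(x) (f₁ (g₁ + w R) - g₀' f₂)`, and the last factor is a polynomial in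
`(x, w)` whose value has order `ν - 1`.
-/

set_option autoImplicit false

namespace Pool.Agent.EXI

open MvPolynomial

variable {k : Subfield ℂ} {K : Type} [Field K] [Algebra k K]

/-- the map `k → O` -/
private noncomputable def chk (pl : Place k K) : k →+* pl.O :=
  (algebraMap k K).codRestrict pl.O pl.memk

/-- evaluation in `O` -/
private noncomputable def chev (pl : Place k K) {σ : Type} (x : σ → pl.O) :
    MvPolynomial σ k →+* pl.O := eval₂Hom (chk pl) x

private theorem chev_coe (pl : Place k K) {σ : Type} (x : σ → pl.O) (f : MvPolynomial σ k) :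
    (chev pl x f : K) = aeval (fun i => (x i : K)) f := by
  show pl.O.subtype (eval₂ (chk pl) x f) = _
  rw [hom_eval₂, aeval_def]
  rfl

private theorem chev_ρ (pl : Place k K) {σ : Type} (x : σ → pl.O) (f : MvPolynomial σ k) :
    pl.ρ (chev pl x f) = aeval (fun i => pl.ρ (x i)) f := by
  show pl.ρ (eval₂ (chk pl) x f) = _
  rw [hom_eval₂, aeval_def]
  have : pl.ρ.comp (chk pl) = algebraMap k ℂ := by
    ext c
    exact pl.ρk c
  rw [this]

private theorem ch_dec {σ : Type} (f : MvPolynomial (Option σ) k) :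
    ∃ (f₀ : MvPolynomial σ k) (f₂ : MvPolynomial (Option σ) k),
      f = rename some f₀ + X none * f₂ := by
  induction f using MvPolynomial.induction_on with
  | C a => exact ⟨C a, 0, by rw [rename_C, mul_zero, add_zero]⟩
  | add p q hp hq =>
    obtain ⟨p0, p2, hp⟩ := hp
    obtain ⟨q0, q2, hq⟩ := hq
    refine ⟨p0 + q0, p2 + q2, ?_⟩
    rw [map_add]
    nth_rewrite 1 [hp, hq]
    ring
  | mul_X p i hp =>
    obtain ⟨p0, p2, hp⟩ := hp
    cases i with
    | none =>
      refine ⟨0, p, ?_⟩
      rw [map_zero]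
      ring
    | some i =>
      refine ⟨p0 * X i, p2 * X (some i), ?_⟩
      rw [map_mul, rename_X]
      nth_rewrite 1 [hp]
      ring

/-- Every place of a field `K` of transcendence degree `m + 1` whose residue field has
transcendence degree `m` has a chart, whose first coordinates are given. -/
theorem exists_chart (pl : Place k K)
    (hfg : ∃ S : Finset K, IntermediateField.adjoin k (S : Set K) = ⊤) {m : ℕ}
    (htr : ∀ y : Fin (m + 2) → K, ¬ AlgebraicIndependent k y) (u : Fin m → pl.O)
    (hu : AlgebraicIndependent k (fun i => pl.ρ (u i))) :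
    ∃ ch : Chart pl m, ∀ i : Fin m, ch.x (some i.castSucc) = u i := by
  obtain ⟨xb, P, hxu, hind, hkerP, hP, hres, hPY⟩ := exists_base pl hfg htr u hu
  have halg : ∀ e : K, IsAlgebraic (Algebra.adjoin k (Set.range fun i => (xb i : K))) e := by
    intro e
    by_contra he
    have h1 := (hind.option_iff_transcendental e).2 he
    have h2 := h1.comp (_root_.finSuccEquiv (m + 1)) (_root_.finSuccEquiv (m + 1)).injective
    exact htr _ h2
  obtain ⟨w, hw0, ⟨G₁, hG1, hG1'⟩, hadj⟩ := exists_w pl hfg xb P hind halg hkerP hP hres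
  obtain ⟨G, hG, -⟩ := exists_ker (fun i => (xb i : K)) (w : K) hind (halg w)
  -- the coordinates
  set x : Option (Fin (m + 1)) → pl.O := cons w xb with hx
  have hxK : (fun i => (x i : K)) = cons (w : K) fun i => (xb i : K) := by
    funext i
    cases i <;> rfl
  have hxρ : (fun i => pl.ρ (x i)) = cons (pl.ρ w) fun i => pl.ρ (xb i) := by
    funext i
    cases i <;> rfl
  have hren : ∀ f : MvPolynomial (Fin (m + 1)) k, chev pl x (rename some f) = chev pl xb f := by
    intro f
    show eval₂ (chk pl) x (rename some f) = eval₂ (chk pl) xb f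
    rw [eval₂_rename]
    rfl
  have hXn : chev pl x (X none) = w := by
    show eval₂ (chk pl) x (X none) = w
    rw [eval₂_X]
    rfl
  have hGx : ∀ f : MvPolynomial (Option (Fin (m + 1))) k, chev pl x f = 0 ↔ G ∣ f := by
    intro f
    rw [← hG f, ← hxK, ← chev_coe]
    exact ⟨fun h => by rw [h]; rfl, fun h => Subtype.ext h⟩
  have hG1x : chev pl x G₁ = 0 := by
    apply Subtype.ext
    rw [chev_coe, hxK]
    exact hG1
  rw [← hxρ, ← chev_ρ] at hG1'
  have hkerP' : ∀ f : MvPolynomial (Fin (m + 1)) k, pl.ρ (chev pl xb f) = 0 ↔ P ∣ f := by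
    intro f
    rw [chev_ρ]
    exact hkerP f
  obtain ⟨εP, hεP, hPε⟩ := hP
  have hPε' : ((chev pl xb P : pl.O) : K) = pl.t * εP := by
    rw [chev_coe]
    exact hPε
  -- the decomposition of `G₁`
  obtain ⟨g₀, H, hg⟩ := ch_dec G₁
  have hg0 : P ∣ g₀ := by
    rw [← hkerP']
    have h1 : chev pl x G₁ = chev pl xb g₀ + w * chev pl x H := by
      rw [hg, map_add, hren, map_mul (chev pl x) (X none), hXn]
    rw [hG1x] at h1
    have h2 := congrArg pl.ρ h1
    rw [map_zero, map_add, map_mul, hw0, zero_mul, add_zero] at h2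
    exact h2.symm
  obtain ⟨g₁, rfl⟩ := hg0
  have hH : pl.ρ (chev pl x H) ≠ 0 := by
    have h1 : pderiv none G₁ = H + X none * pderiv none H := by
      rw [hg, map_add, pderiv_mul, pderiv_X_self]
      have : pderiv none (rename some (P * g₁) : MvPolynomial (Option (Fin (m + 1))) k) = 0 := by
        apply pderiv_eq_zero_of_notMem_vars
        intro h
        have := vars_rename (some : Fin (m + 1) → Option (Fin (m + 1))) (P * g₁) h
        simp at this
      rw [this]
      ring
    rw [h1, map_add, map_mul, hXn, map_add, map_mul, hw0, zero_mul, add_zero] at hG1'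
    exact hG1'
  have hwH : w * chev pl x H = - (chev pl xb P * chev pl xb g₁) := by
    have h1 : chev pl x G₁ = chev pl xb (P * g₁) + w * chev pl x H := by
      rw [hg, map_add, hren, map_mul (chev pl x) (X none), hXn]
    rw [hG1x, map_mul] at h1
    linear_combination -h1
  -- the representation
  have hrep : ∀ N : ℕ, ∀ (f : MvPolynomial (Option (Fin (m + 1))) k) (ε : pl.O), pl.ρ ε ≠ 0 →
      ((chev pl x f : pl.O) : K) = pl.t ^ N * ε →
      ∃ A B : MvPolynomial (Option (Fin (m + 1))) k, pl.ρ (chev pl x A) ≠ 0 ∧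
        pl.ρ (chev pl x B) ≠ 0 ∧ chev pl x f * chev pl x B = chev pl xb P ^ N * chev pl x A := by
    intro N
    induction N with
    | zero =>
      intro f ε hε hf
      refine ⟨f, 1, ?_, by rw [map_one, map_one]; exact one_ne_zero, by rw [map_one]; ring⟩
      have : chev pl x f = ε := Subtype.ext (by rw [hf]; ring)
      rw [this]
      exact hε
    | succ N ih =>
      intro f ε hε hf
      have hρt : pl.ρ ⟨pl.t, pl.t_mem⟩ = 0 := pl.ρt
      have hf' : chev pl x f = ⟨pl.t, pl.t_mem⟩ ^ (N + 1) * ε := by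
        apply Subtype.ext
        rw [hf]
        rfl
      have hf0 : pl.ρ (chev pl x f) = 0 := by
        rw [hf', map_mul, map_pow, hρt, zero_pow (by omega), zero_mul]
      obtain ⟨f₀, f₂, hfd⟩ := ch_dec f
      have hfe : chev pl x f = chev pl xb f₀ + w * chev pl x f₂ := by
        rw [hfd, map_add, hren, map_mul (chev pl x) (X none), hXn]
      have hP0 : P ∣ f₀ := by
        rw [← hkerP']
        rw [hfe, map_add, map_mul, hw0, zero_mul, add_zero] at hf0
        exact hf0
      obtain ⟨f₁, rfl⟩ := hP0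
      rw [map_mul] at hfe
      set f' : MvPolynomial (Option (Fin (m + 1))) k := rename some f₁ * H - rename some g₁ * f₂
        with hf'd
      have hf'e : chev pl x f' = chev pl xb f₁ * chev pl x H - chev pl xb g₁ * chev pl x f₂ := by
        rw [hf'd, map_sub, map_mul (chev pl x), map_mul (chev pl x), hren, hren]
      have hkey : chev pl x f * chev pl x H = chev pl xb P * chev pl x f' := by
        rw [hfe, hf'e]
        linear_combination (chev pl x f₂) * hwH
      have hεPi := pl.inv_mem εP hεP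
      have hεP0 : (εP : K) ≠ 0 := by
        intro h
        apply hεP
        have : εP = 0 := Subtype.ext h
        rw [this, map_zero]
      have hinv : pl.ρ ⟨(εP : K)⁻¹, hεPi⟩ ≠ 0 := by
        intro h
        have h1 : εP * ⟨(εP : K)⁻¹, hεPi⟩ = 1 := Subtype.ext (mul_inv_cancel₀ hεP0)
        have h2 := congrArg pl.ρ h1
        rw [map_mul, h, mul_zero, map_one] at h2
        exact zero_ne_one h2
      have hval : ((chev pl x f' : pl.O) : K) =
          pl.t ^ N * ((ε * chev pl x H * ⟨(εP : K)⁻¹, hεPi⟩ : pl.O) : K) := by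
        have h1 := congrArg (fun z : pl.O => (z : K)) hkey
        simp only [Subring.coe_mul] at h1 ⊢
        rw [hPε', hf] at h1
        have ht := pl.t_ne
        have h2 : pl.t * (εP : K) * ((chev pl x f' : pl.O) : K) =
            pl.t * (εP : K) * (pl.t ^ N * ((ε : K) * ((chev pl x H : pl.O) : K) * (εP : K)⁻¹)) := by
          rw [← h1]
          field_simp
          ring
        exact mul_left_cancel₀ (mul_ne_zero ht hεP0) h2
      obtain ⟨A, B, hA, hB, hAB⟩ := ih f' (ε * chev pl x H * ⟨(εP : K)⁻¹, hεPi⟩)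
        (by rw [map_mul, map_mul]; exact mul_ne_zero (mul_ne_zero hε hH) hinv) hval
      refine ⟨A, H * B, hA, by rw [map_mul, map_mul]; exact mul_ne_zero hH hB, ?_⟩
      rw [map_mul, ← mul_assoc, hkey, mul_assoc, hAB]
      ring
  have hP0 : ((chev pl xb P : pl.O) : K) ≠ 0 := by
    rw [hPε']
    refine mul_ne_zero pl.t_ne fun h => hεP ?_
    have : εP = 0 := Subtype.ext h
    rw [this, map_zero]
  have hrep2 : ∀ f : MvPolynomial (Option (Fin (m + 1))) k, ((chev pl x f : pl.O) : K) ≠ 0 →
      ∃ (N : ℕ) (A B : MvPolynomial (Option (Fin (m + 1))) k), pl.ρ (chev pl x A) ≠ 0 ∧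
        pl.ρ (chev pl x B) ≠ 0 ∧ chev pl x f * chev pl x B = chev pl xb P ^ N * chev pl x A := by
    intro f hf
    obtain ⟨q, ε, hε, he⟩ := pl.fac _ hf
    have h1 : 0 ≤ q := by
      rw [← pl.mem_iff q ε hε, ← he]
      exact (chev pl x f).2
    obtain ⟨N, rfl⟩ := Int.eq_ofNat_of_zero_le h1
    rw [zpow_natCast] at he
    exact ⟨N, hrep N f ε hε he⟩
  refine ⟨⟨x, P, G, hind, ?_, ?_, hkerP, ⟨εP, hεP, hPε⟩, hPY, ?_⟩, hxu⟩
  · intro f
    rw [hxK]
    exact hG f
  · intro hcon
    rw [← chev_ρ] at hcon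
    obtain ⟨G', hG'⟩ := (hGx G₁).1 hG1x
    have h1 : chev pl x G = 0 := (hGx G).2 dvd_rfl
    apply hG1'
    rw [hG', pderiv_mul, map_add, map_mul, map_mul, map_add, map_mul, map_mul, hcon, h1, map_zero]
    ring
  · intro e he
    have hmem : e ∈ IntermediateField.adjoin k (Set.range fun i => (x i : K)) := by
      have : (Set.range fun i => (x i : K)) = insert (w : K) (Set.range fun i => (xb i : K)) := by
        ext z
        constructor
        · rintro ⟨i, rfl⟩
          cases i with
          | none => exact Or.inl rfl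
          | some i => exact Or.inr ⟨i, rfl⟩
        · rintro (rfl | ⟨i, rfl⟩)
          · exact ⟨none, rfl⟩
          · exact ⟨some i, rfl⟩
      rw [this, hadj]
      exact IntermediateField.mem_top
    rw [IntermediateField.mem_adjoin_range_iff] at hmem
    obtain ⟨r, s, hrs⟩ := hmem
    have hs : ((chev pl x s : pl.O) : K) ≠ 0 := by
      intro h
      rw [chev_coe] at h
      apply he
      rw [hrs, h, div_zero]
    have hr : ((chev pl x r : pl.O) : K) ≠ 0 := by
      intro h
      rw [chev_coe] at h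
      apply he
      rw [hrs, h, zero_div]
    rw [← chev_coe, ← chev_coe] at hrs
    obtain ⟨N₁, A₁, B₁, hA₁, hB₁, h₁⟩ := hrep2 r hr
    obtain ⟨N₂, A₂, B₂, hA₂, hB₂, h₂⟩ := hrep2 s hs
    refine ⟨(N₁ : ℤ) - N₂, A₁ * B₂, A₂ * B₁, ?_, ?_, ?_⟩
    · rw [← chev_ρ, map_mul, map_mul]
      exact mul_ne_zero hA₁ hB₂
    · rw [← chev_ρ, map_mul, map_mul]
      exact mul_ne_zero hA₂ hB₁
    · rw [← chev_coe pl x, ← chev_coe pl x]
      have hPe : aeval (fun i => (x (some i) : K)) P = ((chev pl xb P : pl.O) : K) :=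
        (chev_coe pl xb P).symm
      rw [hPe, zpow_sub₀ hP0, zpow_natCast, zpow_natCast, map_mul, map_mul]
      have k1 := congrArg (fun z : pl.O => (z : K)) h₁
      have k2 := congrArg (fun z : pl.O => (z : K)) h₂
      simp only [Subring.coe_mul, Subring.coe_pow] at k1 k2 ⊢
      have hPN : ((chev pl xb P : pl.O) : K) ^ N₂ ≠ 0 := pow_ne_zero _ hP0
      rw [hrs]
      field_simp
      linear_combination (((chev pl x A₂ : pl.O) : K) * ((chev pl xb P : pl.O) : K) ^ N₂) * k1 -
        (((chev pl x A₁ : pl.O) : K) * ((chev pl xb P : pl.O) : K) ^ N₁) * k2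

end Pool.Agent.EXI
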