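import Pool.Agent.EXI.CDefs

/-!
# EXI / CPlace: places from embeddings in fields of Laurent series

PROOF.  `LaurentSeries Ω = HahnSeries ℤ Ω` is a field; `v x = (σ x).order` satisfies
`v (x y) = v x + v y` for `x, y ≠ 0` (`HahnSeries.order_mul`; `σ` is injective). The set of the `v x`,
`x ≠ 0`, is a subgroup `Γ ≠ 0` of `ℤ`; let `g > 0` be its generator (the smallest positive element) and
`t ∈ K`, `v t = g`. `O = {x | all coefficients of σ x of negative index vanish}` is a subring
(`HahnSeries.coeff_mul`, or: `x = 0` or `0 ≤ v x`, `HahnSeries.min_order_le_order_add`,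
`HahnSeries.order_mul`), and `ρ x = (σ x).coeff 0` is a ring homomorphism on `O` (for the product:
`HahnSeries.coeff_mul` or write `σ x` as an element of the range of `PowerSeries Ω → LaurentSeries Ω`
(`HahnSeries.ofPowerSeries`) and use `PowerSeries.constantCoeff`). `ρ t = 0`. `inv_mem`: if `ρ e ≠ 0`
then `v e = 0`, `v e⁻¹ = 0`. `fac`: `v e = m g`, `ε = t^{-m} e` has `v ε = 0`, so `ρ ε` is its leading
coefficient, not `0`.
-/

set_option autoImplicit false

namespace Pool.Agent.EXI

open MvPolynomial Pool.Agent.EXL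

section

variable {Ω : Subfield ℂ} {K : Type} [Field K] (σ : K →+* LaurentSeries Ω)

/-- the valuation ring -/
private noncomputable def OO : Subring K := (HahnSeries.ofPowerSeries ℤ Ω).range.comap σ

private theorem mem_OO {x : K} : x ∈ OO σ ↔ ∀ i : ℤ, i < 0 → (σ x).coeff i = 0 := by
  unfold OO
  rw [Subring.mem_comap, RingHom.mem_range]
  constructor
  · rintro ⟨f, hf⟩ i hi
    rw [← hf, PowerSeries.coeff_coe, if_pos hi]
  · intro h
    refine ⟨PowerSeries.mk fun n => (σ x).coeff n, ?_⟩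
    ext1
    funext i
    rw [PowerSeries.coeff_coe]
    split_ifs with hi
    · rw [h i hi]
    · rw [PowerSeries.coeff_mk]
      congr 1
      omega

private theorem ex_ps {x : K} (hx : x ∈ OO σ) :
    ∃ f : PowerSeries Ω, HahnSeries.ofPowerSeries ℤ Ω f = σ x := by
  unfold OO at hx
  rw [Subring.mem_comap, RingHom.mem_range] at hx
  exact hx

private theorem coeff0 (f : PowerSeries Ω) :
    (HahnSeries.ofPowerSeries ℤ Ω f).coeff 0 = PowerSeries.constantCoeff f := by
  have h := PowerSeries.coeff_coe (R := Ω) (f := f) 0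
  rw [h]
  simp

/-- the residue map -/
private noncomputable def rr : OO σ →+* ℂ where
  toFun x := ((σ x).coeff 0 : Ω)
  map_one' := by
    simp [HahnSeries.coeff_one]
  map_zero' := by
    simp
  map_add' x y := by
    simp
  map_mul' x y := by
    obtain ⟨f, hf⟩ := ex_ps σ x.2
    obtain ⟨g, hg⟩ := ex_ps σ y.2
    rw [Subring.coe_mul, map_mul, ← hf, ← hg, ← map_mul, coeff0, coeff0, coeff0, map_mul]
    rfl

private theorem sne {x : K} (hx : x ≠ 0) : σ x ≠ 0 := (map_ne_zero σ).2 hx

/-- the order as a homomorphism -/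
private noncomputable def WW : Kˣ →* Multiplicative ℤ where
  toFun u := Multiplicative.ofAdd (σ u).order
  map_one' := by
    simp
  map_mul' u v := by
    rw [Units.val_mul, map_mul, HahnSeries.order_mul (sne σ u.ne_zero) (sne σ v.ne_zero)]
    rfl

private theorem order_zpow {x : K} (hx : x ≠ 0) (m : ℤ) :
    (σ (x ^ m)).order = m * (σ x).order := by
  have h := map_zpow (WW σ) (Units.mk0 x hx) m
  have h1 := congrArg Multiplicative.toAdd h
  rw [toAdd_zpow] at h1
  have h2 : Multiplicative.toAdd (WW σ (Units.mk0 x hx ^ m)) = (σ (x ^ m)).order := by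
    change (σ ((Units.mk0 x hx ^ m : Kˣ) : K)).order = _
    rw [Units.val_zpow_eq_zpow_val]
    rfl
  have h3 : Multiplicative.toAdd (WW σ (Units.mk0 x hx)) = (σ x).order := rfl
  rw [h2, h3, smul_eq_mul] at h1
  exact h1

private theorem ex_min (x₀ : K) (hx₀ : (σ x₀).order ≠ 0) :
    ∃ (t : K), t ≠ 0 ∧ 0 < (σ t).order ∧ ∀ e : K, e ≠ 0 → (σ t).order ∣ (σ e).order := by
  classical
  have hx0 : x₀ ≠ 0 := by
    rintro rfl
    simp at hx₀
  have hex : ∃ n : ℕ, 0 < n ∧ ∃ x : K, x ≠ 0 ∧ (σ x).order = n := by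
    rcases lt_or_gt_of_ne hx₀ with h | h
    · refine ⟨(-(σ x₀).order).toNat, by omega, x₀ ^ (-1 : ℤ), zpow_ne_zero _ hx0, ?_⟩
      rw [order_zpow σ hx0]
      omega
    · refine ⟨(σ x₀).order.toNat, by omega, x₀, hx0, ?_⟩
      omega
  obtain ⟨hg, t, ht, htg⟩ := Nat.find_spec hex
  refine ⟨t, ht, by rw [htg]; exact_mod_cast hg, fun e he => ?_⟩
  by_contra hnd
  have hmod : (σ e).order % (σ t).order ≠ 0 := fun h => hnd (Int.dvd_of_emod_eq_zero h)
  have hpos : 0 < (σ t).order := by rw [htg]; exact_mod_cast hg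
  have h1 := Int.emod_nonneg (σ e).order hpos.ne'
  have h2 := Int.emod_lt_of_pos (σ e).order hpos
  have h3 : (σ (e * t ^ (-((σ e).order / (σ t).order)))).order = (σ e).order % (σ t).order := by
    rw [map_mul, HahnSeries.order_mul (sne σ he) (sne σ (zpow_ne_zero _ ht)), order_zpow σ ht]
    have := Int.emod_add_mul_ediv (σ e).order (σ t).order
    linarith
  have h4 := Nat.find_min' hex (m := ((σ e).order % (σ t).order).toNat)
    ⟨by omega, e * t ^ (-((σ e).order / (σ t).order)), mul_ne_zero he (zpow_ne_zero _ ht), by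
      rw [h3]
      omega⟩
  omega

end

/-- An embedding of `K` in `Ω((ζ))` over `k` gives a place. -/
theorem exists_place (k Ω : Subfield ℂ) (hΩ : k ≤ Ω) {K : Type} [Field K] [Algebra k K]
    (σ : K →+* LaurentSeries Ω)
    (hσ : ∀ c : k, σ (algebraMap k K c) = HahnSeries.C (⟨c, hΩ c.2⟩ : Ω))
    (x₀ : K) (hx₀ : (σ x₀).order ≠ 0) :
    ∃ pl : Place k K, (∀ x : K, x ∈ pl.O ↔ ∀ i : ℤ, i < 0 → (σ x).coeff i = 0) ∧
      ∀ x : pl.O, pl.ρ x = ((σ x).coeff 0 : Ω) := by
  obtain ⟨t, ht, htp, htd⟩ := ex_min σ x₀ hx₀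
  have memk : ∀ c : k, algebraMap k K c ∈ OO σ := by
    intro c
    unfold OO
    rw [Subring.mem_comap, RingHom.mem_range]
    exact ⟨PowerSeries.C ⟨c, hΩ c.2⟩, by rw [hσ, HahnSeries.ofPowerSeries_C]⟩
  have ordmem : ∀ x : K, 0 ≤ (σ x).order → x ∈ OO σ := by
    intro x hx
    rw [mem_OO]
    intro i hi
    exact HahnSeries.coeff_eq_zero_of_lt_order (lt_of_lt_of_le hi hx)
  have t_mem : t ∈ OO σ := ordmem t htp.le
  refine ⟨{ O := OO σ
            t := t
            ρ := rr σ
            memk := memk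
            ρk := ?_
            t_ne := ht
            t_mem := t_mem
            ρt := ?_
            inv_mem := ?_
            fac := ?_ }, fun x => mem_OO σ, fun x => rfl⟩
  · intro c
    change (((σ (algebraMap k K c)).coeff 0 : Ω) : ℂ) = c
    rw [hσ]
    simp
  · change (((σ t).coeff 0 : Ω) : ℂ) = 0
    rw [HahnSeries.coeff_eq_zero_of_lt_order htp]
    rfl
  · intro e he
    have he' : (((σ e).coeff 0 : Ω) : ℂ) ≠ 0 := he
    obtain ⟨f, hf⟩ := ex_ps σ e.2
    rw [← hf, coeff0] at he'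
    have hf0 : PowerSeries.constantCoeff f ≠ 0 := by
      intro h
      apply he'
      rw [h]
      rfl
    have h1 : f * f⁻¹ = 1 := PowerSeries.mul_inv_cancel f hf0
    unfold OO
    rw [Subring.mem_comap, RingHom.mem_range]
    refine ⟨f⁻¹, ?_⟩
    rw [map_inv₀]
    refine eq_inv_of_mul_eq_one_right ?_
    rw [← hf, ← map_mul, h1, map_one]
  · intro e he
    obtain ⟨m, hm⟩ := htd e he
    have h1 : (σ (e * t ^ (-m))).order = 0 := by
      rw [map_mul, HahnSeries.order_mul (sne σ he) (sne σ (zpow_ne_zero _ ht)), order_zpow σ ht,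
        hm]
      ring
    refine ⟨m, ⟨e * t ^ (-m), ordmem _ h1.ge⟩, ?_, ?_⟩
    · change (((σ (e * t ^ (-m))).coeff 0 : Ω) : ℂ) ≠ 0
      intro h2
      have h3 : (σ (e * t ^ (-m))).coeff 0 = 0 := by exact_mod_cast h2
      have h4 : (σ (e * t ^ (-m))).coeff (σ (e * t ^ (-m))).order = 0 := by rw [h1, h3]
      rw [HahnSeries.coeff_order_eq_zero] at h4
      exact sne σ (mul_ne_zero he (zpow_ne_zero _ ht)) h4
    · change e = t ^ m * (e * t ^ (-m))
      rw [mul_left_comm, ← zpow_add₀ ht, add_neg_cancel, zpow_zero, mul_one]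

end Pool.Agent.EXI
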