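import Pool.Agent.EXI.TFPui

/-!
# EXI / TFEmb: embeddings of a finite extension in fields of Puiseux series

Wanted: `emb`. `F/E` finite, `κ : E → Ω((s))`, `R ∈ F`. After a ramification `s = ζ^e` (the ring
homomorphism `χ`) the minimal polynomial of `R` splits in `Ω((ζ))` and every root is the image of `R`
under an embedding `σ : F → Ω((ζ))` extending `χ ∘ κ`.

PROOF. `L := Ω((s))` is an `E`-algebra through `κ` (`κ.toAlgebra`). Let `b_i` be a basis of `F/E` and
`p := minpoly E R * ∏ minpoly E (b_i)`, `M := ((p.map κ)).SplittingField`, a finite extension of `L`.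
In `M` the polynomial `minpoly E R` splits; for every root `r ∈ M` of it there is an `E`-algebra
homomorphism `E⟮R⟯ → M`, `R ↦ r`, and it extends to `F → M` because the minimal polynomials over `E`
of the generators `b_i` of `F` split in `M` (`IntermediateField.exists_algHom_adjoin_of_splits`, or
the statements near it). Compose with `χ : M → Ω((ζ))` from `pui`; the ring homomorphism `χ` of the
statement is the composition `L → M → Ω((ζ))`.
-/

set_option autoImplicit false

namespace Pool.Agent.EXL

open Polynomial

theorem emb {E F Ω : Type} [Field E] [Field F] [CharZero E] [Algebra E F] [FiniteDimensional E F]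
    [Field Ω] [IsAlgClosed Ω] [CharZero Ω] (κ : E →+* LaurentSeries Ω) (R : F) :
    ∃ (e : ℕ) (_ : 0 < e) (χ : LaurentSeries Ω →+* LaurentSeries Ω),
      (∀ c : Ω, χ (HahnSeries.C c) = HahnSeries.C c) ∧
      χ (HahnSeries.single 1 1) = HahnSeries.single (e : ℤ) 1 ∧
      ∃ s : Multiset (F →+* LaurentSeries Ω),
        (∀ σ ∈ s, σ.comp (algebraMap E F) = χ.comp κ) ∧
        (minpoly E R).map (χ.comp κ) = (s.map fun σ => X - C (σ R)).prod := by
  classical
  let _ : Algebra E (LaurentSeries Ω) := κ.toAlgebra
  have hint : ∀ z : F, IsIntegral E z := fun z => Algebra.IsIntegral.isIntegral z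
  let b := Module.finBasis E F
  set p : E[X] := minpoly E R * ∏ i, minpoly E (b i) with hp
  have hp0 : p ≠ 0 := mul_ne_zero (minpoly.ne_zero (hint R))
    (Finset.prod_ne_zero_iff.2 fun i _ => minpoly.ne_zero (hint (b i)))
  let M := (p.map κ).SplittingField
  obtain ⟨e, he, χM, h1, h2⟩ := pui Ω M
  have htow : (algebraMap E M) = (algebraMap (LaurentSeries Ω) M).comp κ :=
    IsScalarTower.algebraMap_eq E (LaurentSeries Ω) M
  have hsp : (p.map (algebraMap E M)).Splits := by
    have h3 := SplittingField.splits (p.map κ)
    rw [Polynomial.map_map] at h3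
    rw [htow]
    exact h3
  have hpM : p.map (algebraMap E M) ≠ 0 := (Polynomial.map_ne_zero_iff
    (algebraMap E M).injective).2 hp0
  set S : Set F := insert R (Set.range b) with hS
  have hS1 : ∀ z ∈ S, IsIntegral E z ∧ ((minpoly E z).map (algebraMap E M)).Splits := by
    intro z hz
    refine ⟨hint z, hsp.of_dvd hpM ?_⟩
    apply Polynomial.map_dvd
    rcases hz with rfl | ⟨i, rfl⟩
    · exact dvd_mul_right _ _
    · exact (Finset.dvd_prod_of_mem _ (Finset.mem_univ i)).mul_left _
  have hStop : IntermediateField.adjoin E S = ⊤ := by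
    rw [eq_top_iff]
    intro z _
    have h3 : z ∈ Submodule.span E (Set.range b) := by
      rw [b.span_eq]
      exact Submodule.mem_top
    have h4 : Submodule.span E (Set.range b) ≤
        (IntermediateField.adjoin E S).toSubalgebra.toSubmodule := by
      rw [Submodule.span_le]
      intro y hy
      exact IntermediateField.subset_adjoin E _ (Set.mem_insert_of_mem _ hy)
    exact h4 h3
  have hext : ∀ r : M, aeval r (minpoly E R) = 0 → ∃ φ : F →ₐ[E] M, φ R = r := by
    intro r hr
    have hmem : R ∈ IntermediateField.adjoin E S :=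
      IntermediateField.subset_adjoin E _ (Set.mem_insert _ _)
    obtain ⟨φ, hφ⟩ := IntermediateField.exists_algHom_adjoin_of_splits_of_aeval hS1 hmem hr
    refine ⟨φ.comp ((IntermediateField.equivOfEq hStop).symm.toAlgHom.comp
      (IntermediateField.topEquiv (F := E) (E := F)).symm.toAlgHom), ?_⟩
    rw [← hφ]
    rfl
  set mp := (minpoly E R).map (algebraMap E M) with hmp
  have hmon : mp.Monic := (minpoly.monic (hint R)).map _
  have hspR : mp.Splits := (hS1 R (Set.mem_insert _ _)).2
  have hroots := hspR.eq_prod_roots_of_monic hmon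
  have hne : Nonempty (F →ₐ[E] M) := by
    have hdeg : mp.degree ≠ 0 := by
      rw [hmp, Polynomial.degree_map]
      exact (minpoly.degree_pos (hint R)).ne'
    obtain ⟨r, hr⟩ := hspR.exists_eval_eq_zero hdeg
    rw [hmp, Polynomial.eval_map] at hr
    exact ⟨(hext r hr).choose⟩
  choose! f hf using hext
  refine ⟨e, he, χM.comp (algebraMap (LaurentSeries Ω) M), h1, h2,
    mp.roots.map (fun r => χM.comp (f r).toRingHom), ?_, ?_⟩
  · intro σ hσ
    obtain ⟨r, _, rfl⟩ := Multiset.mem_map.1 hσ
    ext1 a
    simp only [RingHom.comp_apply]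
    have h3 : (f r).toRingHom (algebraMap E F a) = algebraMap E M a := (f r).commutes a
    rw [h3, htow]
    rfl
  · have h3 : (minpoly E R).map ((χM.comp (algebraMap (LaurentSeries Ω) M)).comp κ) = mp.map χM := by
      rw [hmp, Polynomial.map_map, htow]
      rfl
    rw [h3]
    conv_lhs => rw [hroots]
    rw [Polynomial.map_multiset_prod, Multiset.map_map, Multiset.map_map]
    congr 1
    refine Multiset.map_congr rfl fun r hr => ?_
    simp only [Function.comp_apply, Polynomial.map_sub, Polynomial.map_X, Polynomial.map_C]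
    have h4 : aeval r (minpoly E R) = 0 := by
      have h5 := (Polynomial.mem_roots'.1 hr).2
      rw [hmp, Polynomial.IsRoot.def, Polynomial.eval_map] at h5
      exact h5
    have h6 : (f r).toRingHom R = r := hf r h4
    rw [RingHom.comp_apply, h6]

end Pool.Agent.EXL
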