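import Pool.Agent.EXL.Tdi

/-!
# EXI / TADefs: definitions for the analytic half of (T)

`K ⊆ ℂ` a subfield, `b : ι → ℂ` a tuple, `J : Fin y → ι` a choice of `y` coordinates.
-/

set_option autoImplicit false

namespace Pool.Agent.EXI

open MvPolynomial MeasureTheory Pool.Agent.EXL

/-- The field `K(b_J)`. -/
noncomputable abbrev EJ (K : Subfield ℂ) {ι : Type} (b : ι → ℂ) {y : ℕ} (J : Fin y → ι) :
    IntermediateField K ℂ := IntermediateField.adjoin K (Set.range (b ∘ J))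

/-- The field `K(b)` as an extension of `K(b_J)`. -/
noncomputable abbrev FJ (K : Subfield ℂ) {ι : Type} (b : ι → ℂ) {y : ℕ} (J : Fin y → ι) :
    IntermediateField (EJ K b J) ℂ := IntermediateField.adjoin (EJ K b J) (Set.range b)

/-- The specialisations of `b` over `K`. -/
def VV (K : Subfield ℂ) {ι : Type} (b : ι → ℂ) : Set (ι → ℂ) :=
  {x | ∀ p : MvPolynomial ι K, aeval b p = 0 → aeval x p = 0}

/-- The specialisations of `b` over `K` outside the hypersurface `G = 0`. -/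
def XG (K : Subfield ℂ) {ι : Type} (b : ι → ℂ) (G : MvPolynomial ι K) : Set (ι → ℂ) :=
  {x | x ∈ VV K b ∧ aeval x G ≠ 0}

/-- The fibre of `X` over `t` for the coordinates `J`. -/
def fib {ι : Type} (X : Set (ι → ℂ)) {y : ℕ} (J : Fin y → ι) (t : Fin y → ℂ) : Set (ι → ℂ) :=
  {x | x ∈ X ∧ x ∘ J = t}

/-- Evaluation of a polynomial in one variable over `K[T_1, .., T_y]`. -/
noncomputable def ev2 {K : Subfield ℂ} {y : ℕ} (t : Fin y → ℂ) (θ : ℂ)
    (P : Polynomial (MvPolynomial (Fin y) K)) : ℂ :=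
  Polynomial.eval θ (P.map (aeval t : MvPolynomial (Fin y) K →ₐ[K] ℂ).toRingHom)

/-- The Haar measure `|t|⁻² dt` of the multiplicative group of `ℂ`. -/
noncomputable def nu : Measure ℂ :=
  (volume : Measure ℂ).withDensity (fun t => ENNReal.ofReal (‖t‖ ^ 2)⁻¹)

/-- The Haar measure of the torus. -/
noncomputable def mu (y : ℕ) : Measure (Fin y → ℂ) := Measure.pi (fun _ => nu)

/-- The set `|Log t| < ρ`. -/
def LogB (y : ℕ) (ρ : ℝ) : Set (Fin y → ℂ) := {t | ∀ i, t i ≠ 0 ∧ |Real.log ‖t i‖| < ρ}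

/-- The part of `X` in the region `|Log x| < ρ`. -/
def Xr {ι : Type} (X : Set (ι → ℂ)) (ρ : ℝ) : Set (ι → ℂ) :=
  {x | x ∈ X ∧ ∀ k, |Real.log ‖x k‖| < ρ}

/-- The sum of the absolute values of the monomials of a polynomial at `t`. -/
noncomputable def nrm {K : Subfield ℂ} {y : ℕ} (B : MvPolynomial (Fin y) K) (t : Fin y → ℂ) : ℝ :=
  ∑ s ∈ B.support, ‖algebraMap K ℂ (B.coeff s)‖ * ∏ i, ‖t i‖ ^ (s i)

/-- `X` is etale over the coordinates `J`, with logarithmic derivatives `ℓ`. -/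
def IsEt {ι : Type} [Fintype ι] (X : Set (ι → ℂ)) {y : ℕ} (J : Fin y → ι)
    (l : Fin y → ι → (ι → ℂ) → ℂ) : Prop :=
  ∀ x₀ ∈ X, ∃ (U : Set (Fin y → ℂ)) (O : Set (ι → ℂ)) (s : (Fin y → ℂ) → (ι → ℂ)),
    IsOpen U ∧ IsOpen O ∧ x₀ ∈ O ∧ (∀ t ∈ U, s t ∈ X ∧ s t ∘ J = t) ∧
    (∀ x ∈ X ∩ O, x ∘ J ∈ U ∧ s (x ∘ J) = x) ∧
    (∀ t ∈ U, ∀ k, HasFDerivAt (fun t => s t k)
      (∑ i, (s t k * l i k (s t) / t i) • (ContinuousLinearMap.proj i : (Fin y → ℂ) →L[ℂ] ℂ)) t)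

end Pool.Agent.EXI
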