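import Pool.Agent.EXI.TFRes
import Pool.Agent.EXI.TADefs

/-!
# EXI / TFMk: leading terms, extension of the coefficient field, construction of `Degen`

`exists_lead`: a nonzero Laurent series over a subfield `Ω` of `ℂ`, seen over `ℂ`, is
`ζ^n * (power series with nonzero constant term)`.

`toC Ω : Ω((ζ)) → ℂ((ζ))`, the coefficientwise inclusion.

`mk_degen`: an embedding `σ : K(b) → Ω((ζ))` (defined on the field `FJ`) over `K` gives a `Degen`.
PROOF. `Kb K b ≤ FJ` (both contain `K` and the `b_j`), restrict `σ` by `Subfield.inclusion`; `m_j` and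
`u_j` are the order and the leading coefficient of the nonzero `σ (b_j)`.
-/

set_option autoImplicit false

namespace Pool.Agent.EXL

open PowerSeries Pool.Agent.EXI

/-- The inclusion `Ω((ζ)) → ℂ((ζ))`. -/
noncomputable def toC (Ω : Subfield ℂ) : LaurentSeries Ω →+* LaurentSeries ℂ where
  toFun f := HahnSeries.map f (algebraMap Ω ℂ)
  map_one' := HahnSeries.map_one (algebraMap Ω ℂ).toMonoidWithZeroHom
  map_mul' f g := HahnSeries.map_mul ((algebraMap Ω ℂ : Ω →+* ℂ) : Ω →ₙ+* ℂ)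
  map_zero' := by
    ext n
    exact map_zero (algebraMap Ω ℂ)
  map_add' f g := by
    ext n
    exact map_add (algebraMap Ω ℂ) _ _

@[simp] lemma toC_coeff (Ω : Subfield ℂ) (f : LaurentSeries Ω) (n : ℤ) :
    (toC Ω f).coeff n = (f.coeff n : ℂ) := rfl

theorem exists_lead (Ω : Subfield ℂ) (f : LaurentSeries Ω) (hf : f ≠ 0) :
    ∃ (n : ℤ) (g : PowerSeries ℂ), constantCoeff g ≠ 0 ∧
      toC Ω f = HahnSeries.single n 1 * (g : LaurentSeries ℂ) ∧
      constantCoeff g = (f.coeff n : ℂ) ∧ f.coeff n ≠ 0 ∧ ∀ i < n, f.coeff i = 0 := by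
  have hn : f.coeff f.order ≠ 0 := by
    intro h0
    exact hf (HahnSeries.coeff_order_eq_zero.1 h0)
  set n : ℤ := f.order with hnd
  set g : PowerSeries ℂ := PowerSeries.mk fun k => (f.coeff (n + k) : ℂ) with hg
  have hg0 : constantCoeff g = (f.coeff n : ℂ) := by
    rw [hg, ← PowerSeries.coeff_zero_eq_constantCoeff_apply, PowerSeries.coeff_mk]
    simp
  have hlt : ∀ i < n, f.coeff i = 0 := fun i hi => HahnSeries.coeff_eq_zero_of_lt_order hi
  refine ⟨n, g, ?_, ?_, hg0, hn, hlt⟩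
  · rw [hg0]
    simpa using hn
  · ext i
    have e : i = (i - n) + n := by ring
    rw [toC_coeff]
    conv_rhs => rw [e]
    rw [HahnSeries.coeff_single_mul_add, one_mul]
    erw [PowerSeries.coeff_coe]
    split_ifs with h
    · rw [hlt i (by omega)]
      rfl
    · rw [hg, PowerSeries.coeff_mk]
      congr 2
      omega

theorem mk_degen (K : Subfield ℂ) {ι : Type} (b : ι → ℂ) (hb : ∀ j, b j ≠ 0) {y : ℕ}
    (J : Fin y → ι) {Ω : Subfield ℂ} (h : K ≤ Ω) (σ : FJ K b J →+* LaurentSeries Ω)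
    (hσ : ∀ x : K, σ (algebraMap (EJ K b J) (FJ K b J) (algebraMap K (EJ K b J) x)) =
      HahnSeries.C (⟨x, h x.2⟩ : Ω))
    (n : ι → ℤ) (hn : ∀ k, (σ ⟨b k, IntermediateField.subset_adjoin _ _ ⟨k, rfl⟩⟩).coeff (n k) ≠ 0)
    (hn' : ∀ k, ∀ i < n k,
      (σ ⟨b k, IntermediateField.subset_adjoin _ _ ⟨k, rfl⟩⟩).coeff i = 0) :
    ∃ d : Degen K b h, ∀ k, d.m k = n k ∧
      d.u k = (σ ⟨b k, IntermediateField.subset_adjoin _ _ ⟨k, rfl⟩⟩).coeff (n k) := by
  have hle : Kb K b ≤ (FJ K b J).toSubfield := by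
    rw [Subfield.closure_le]
    rintro x (hx | ⟨k, rfl⟩)
    · exact (FJ K b J).algebraMap_mem (algebraMap K (EJ K b J) ⟨x, hx⟩)
    · exact IntermediateField.subset_adjoin _ _ ⟨k, rfl⟩
  let inc : Kb K b →+* FJ K b J :=
    { toFun := fun x => ⟨x.1, hle x.2⟩
      map_one' := rfl
      map_mul' := fun _ _ => rfl
      map_zero' := rfl
      map_add' := fun _ _ => rfl }
  refine ⟨⟨σ.comp inc, ?_, n,
    fun k => (σ ⟨b k, IntermediateField.subset_adjoin _ _ ⟨k, rfl⟩⟩).coeff (n k), hn, ?_, ?_⟩,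
    fun k => ⟨rfl, rfl⟩⟩
  · intro c hc
    rw [← hσ ⟨c, hc⟩, RingHom.comp_apply]
    rfl
  · intro k i hi
    exact hn' k i hi
  · intro k
    rfl

end Pool.Agent.EXL
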