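import Pool.Agent.EXI.Base

/-!
# EXI / TFStab: restriction of derivations to algebraic extensions

Wanted: `der_stab`, `exists_restr`.

PROOF of `der_stab`.  Let `x ∈ F` and `p` its minimal polynomial over `E`: `0 = D (p(x)) =
p^D(x) + p'(x) D x`, where `p^D` has the coefficients `D (p_i)`, which are in the image of `F`, and
`p'(x) ≠ 0`. `exists_restr`: restriction (`j` is injective).
-/

set_option autoImplicit false

namespace Pool.Agent.EXL

theorem der_stab {E F : Type} [Field E] [Field F] [Algebra E F] [Algebra.IsAlgebraic E F]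
    (j : F →+* ℂ) (D : Derivation ℤ ℂ ℂ) (hD : ∀ x : E, ∃ z : F, j z = D (j (algebraMap E F x))) :
    ∀ x : F, ∃ z : F, j z = D (j x) := by
  have : CharZero E := by
    have h1 : Function.Injective (j.comp (algebraMap E F)) := (j.comp (algebraMap E F)).injective
    exact ⟨fun a b hab => by
      have h2 := congrArg (j.comp (algebraMap E F)) hab
      rw [map_natCast, map_natCast] at h2
      exact_mod_cast h2⟩
  intro x
  have hpoly : ∀ q : Polynomial E, ∃ z : F,
      j z = D (j (Polynomial.aeval x q)) -
        j (Polynomial.aeval x (Polynomial.derivative q)) * D (j x) := by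
    intro q
    induction q using Polynomial.induction_on' with
    | add p q hp hq =>
      obtain ⟨z, hz⟩ := hp
      obtain ⟨w, hw⟩ := hq
      refine ⟨z + w, ?_⟩
      rw [map_add, hz, hw, map_add, map_add, map_add, map_add, map_add, map_add]
      ring
    | monomial n a =>
      obtain ⟨z, hz⟩ := hD a
      refine ⟨x ^ n * z, ?_⟩
      rw [map_mul, map_pow, hz, Polynomial.aeval_monomial, map_mul, map_pow, Derivation.leibniz,
        Derivation.leibniz_pow, Polynomial.derivative_monomial, Polynomial.aeval_monomial]
      simp only [map_mul, map_natCast, map_pow, smul_eq_mul, nsmul_eq_mul]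
      ring
  have hint : IsIntegral E x := Algebra.IsIntegral.isIntegral x
  have hsep : (minpoly E x).Separable := (minpoly.irreducible hint).separable
  have hne := hsep.aeval_derivative_ne_zero (minpoly.aeval E x)
  obtain ⟨z, hz⟩ := hpoly (minpoly E x)
  rw [minpoly.aeval, map_zero, map_zero, zero_sub] at hz
  refine ⟨-(Polynomial.aeval x (Polynomial.derivative (minpoly E x)))⁻¹ * z, ?_⟩
  have hne' : j (Polynomial.aeval x (Polynomial.derivative (minpoly E x))) ≠ 0 :=
    (map_ne_zero j).mpr hne
  rw [map_mul, map_neg, map_inv₀, hz]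
  field_simp

theorem exists_restr {F : Type} [Field F] (j : F →+* ℂ) (D : Derivation ℤ ℂ ℂ)
    (hD : ∀ x : F, ∃ z : F, j z = D (j x)) :
    ∃ δ : Derivation ℤ F F, ∀ x : F, j (δ x) = D (j x) := by
  choose d hd using hD
  have hj : Function.Injective j := j.injective
  let f : F →+ F :=
    { toFun := d
      map_zero' := hj (by rw [hd, map_zero, map_zero])
      map_add' := fun a b => hj (by rw [hd, map_add, map_add, map_add, hd, hd]) }
  refine ⟨Derivation.mk' f.toIntLinearMap ?_, fun x => hd x⟩
  intro a b
  apply hj
  show j (d (a * b)) = j (a • d b + b • d a)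
  rw [hd, map_mul, Derivation.leibniz, map_add, smul_eq_mul, smul_eq_mul, smul_eq_mul,
    smul_eq_mul, map_mul, map_mul, hd, hd]

end Pool.Agent.EXL
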