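import Pool.Agent.EXI.TAAlg
import Pool.Agent.EXI.TFStab
import Pool.Agent.EXI.TFMk

/-!
# EXI / TFSetup: the extension `K(b) / K(b_J)` and its derivations

PROOFS. `isAlgClosed_Om`: fields of constants are algebraically closed in `ℂ` (see `consts_algebraic`
and the proof of `Closed.isAlgClosed` in EXL). `setup_fd`: every `b k` is algebraic over `K(b_J)` (`alg_of_td`), finitely generated.
`setup_alg`: the closure of the constants and the `t_l` contains the image of `EJ`, and `FJ/EJ` is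
algebraic. `setup_der`: `der_stab`, `exists_restr` with the inclusion `j : FJ → ℂ`: `D` maps `EJ` into
`EJ` because it kills `K` and maps the generators `t_l` into `EJ` (the set of the `x ∈ EJ` with
`D x ∈ EJ` is a subfield).
-/

set_option autoImplicit false

namespace Pool.Agent.EXL

open Pool.Agent.EXI

/-- The element `b_k` of `K(b)`. -/
noncomputable abbrev bF (K : Subfield ℂ) {ι : Type} (b : ι → ℂ) {y : ℕ} (J : Fin y → ι) (k : ι) :
    FJ K b J := ⟨b k, IntermediateField.subset_adjoin _ _ ⟨k, rfl⟩⟩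

/-- The element `c ∈ K` of `K(b)`. -/
noncomputable abbrev cF (K : Subfield ℂ) {ι : Type} (b : ι → ℂ) {y : ℕ} (J : Fin y → ι) (c : K) :
    FJ K b J := algebraMap (EJ K b J) (FJ K b J) (algebraMap K (EJ K b J) c)

theorem isAlgClosed_Om (K : Subfield ℂ) {r : ℕ} (τ : Fin r → ℂ) : IsAlgClosed (Om K τ) :=
  consts_isAlgClosed _

private theorem ts_tr {A B L : Type*} [CommRing A] [CommRing B] [CommRing L] [Algebra A L]
    [Algebra B L] (i : A →+* B) (hi : Function.Injective i)
    (hc : ∀ a, algebraMap B L (i a) = algebraMap A L a) {x : L} (h : IsAlgebraic A x) :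
    IsAlgebraic B x := by
  obtain ⟨p, hp0, hp⟩ := h
  refine ⟨p.map i, (Polynomial.map_ne_zero_iff hi).2 hp0, ?_⟩
  rw [Polynomial.aeval_def, Polynomial.eval₂_map]
  have : (algebraMap B L).comp i = algebraMap A L := RingHom.ext hc
  rw [this]
  exact hp

theorem setup_fd (K : Subfield ℂ) {ι : Type} [Fintype ι] (b : ι → ℂ) {y : ℕ}
    (hy : td (K : Set ℂ) b = y) (J : Fin y → ι) (hJ : td (K : Set ℂ) (b ∘ J) = y) :
    FiniteDimensional (EJ K b J) (FJ K b J) := by
  refine IntermediateField.finiteDimensional_adjoin ?_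
  rintro x ⟨k, rfl⟩
  have h1 := alg_of_td K b J hy hJ k
  have hle := IntermediateField.algebra_adjoin_le_adjoin K (Set.range (b ∘ J))
  have h2 : IsAlgebraic (EJ K b J) (b k) := by
    refine ts_tr (Subalgebra.inclusion hle).toRingHom ?_ (fun a => rfl) h1
    exact Subalgebra.inclusion_injective hle
  exact h2.isIntegral

private theorem ts_mem (K : Subfield ℂ) {ι : Type} (b : ι → ℂ) {y : ℕ}
    (J : Fin y → ι) (z : ℂ) (hz : z ∈ EJ K b J) :
    algebraMap (EJ K b J) (FJ K b J) ⟨z, hz⟩ ∈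
      Subfield.closure (Set.range (cF K b J) ∪ Set.range fun l => bF K b J (J l)) := by
  set C := Subfield.closure (Set.range (cF K b J) ∪ Set.range fun l => bF K b J (J l)) with hC
  induction hz using IntermediateField.adjoin_induction with
  | mem x hx =>
    obtain ⟨l, rfl⟩ := hx
    exact Subfield.subset_closure (Or.inr ⟨l, rfl⟩)
  | algebraMap x => exact Subfield.subset_closure (Or.inl ⟨x, rfl⟩)
  | add x y hx hy h1 h2 => exact C.add_mem h1 h2
  | inv x hx h1 => exact C.inv_mem h1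
  | mul x y hx hy h1 h2 => exact C.mul_mem h1 h2

theorem setup_alg (K : Subfield ℂ) {ι : Type} [Fintype ι] (b : ι → ℂ) {y : ℕ}
    (hy : td (K : Set ℂ) b = y) (J : Fin y → ι) (hJ : td (K : Set ℂ) (b ∘ J) = y) (x : FJ K b J) :
    IsAlgebraic (Subfield.closure (Set.range (cF K b J) ∪ Set.range fun l => bF K b J (J l))) x := by
  have := setup_fd K b hy J hJ
  have := Algebra.IsAlgebraic.of_finite (EJ K b J) (FJ K b J)
  have h1 : IsAlgebraic (EJ K b J) x := Algebra.IsAlgebraic.isAlgebraic x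
  refine ts_tr (RingHom.codRestrict (algebraMap (EJ K b J) (FJ K b J)) _
    fun z => ts_mem K b J z.1 z.2) ?_ (fun a => rfl) h1
  intro a c hac
  apply (algebraMap (EJ K b J) (FJ K b J)).injective
  exact congrArg Subtype.val hac

private theorem ts_der (K : Subfield ℂ) {ι : Type} (b : ι → ℂ) {y : ℕ} (J : Fin y → ι)
    (D : Derivation ℤ ℂ ℂ) (hDK : D ∈ DerOver (K : Set ℂ)) (hDt : ∀ l, D (b (J l)) ∈ EJ K b J)
    (z : ℂ) (hz : z ∈ EJ K b J) : D z ∈ EJ K b J := by
  induction hz using IntermediateField.adjoin_induction with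
  | mem x hx =>
    obtain ⟨l, rfl⟩ := hx
    exact hDt l
  | algebraMap x =>
    have : D (algebraMap K ℂ x) = 0 := hDK _ x.2
    rw [this]
    exact (EJ K b J).zero_mem
  | add x y hx hy h1 h2 =>
    rw [map_add]
    exact (EJ K b J).add_mem h1 h2
  | inv x hx h1 =>
    rw [Derivation.leibniz_inv, smul_eq_mul]
    exact (EJ K b J).mul_mem
      ((EJ K b J).neg_mem ((EJ K b J).toSubalgebra.pow_mem ((EJ K b J).inv_mem hx) 2)) h1
  | mul x y hx hy h1 h2 =>
    rw [Derivation.leibniz, smul_eq_mul, smul_eq_mul]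
    exact (EJ K b J).add_mem ((EJ K b J).mul_mem hx h2) ((EJ K b J).mul_mem hy h1)

theorem setup_der (K : Subfield ℂ) {ι : Type} [Fintype ι] (b : ι → ℂ) {y : ℕ}
    (hy : td (K : Set ℂ) b = y) (J : Fin y → ι) (hJ : td (K : Set ℂ) (b ∘ J) = y)
    (D : Derivation ℤ ℂ ℂ) (hDK : D ∈ DerOver (K : Set ℂ)) (hDt : ∀ l, D (b (J l)) ∈ EJ K b J) :
    ∃ δ : Derivation ℤ (FJ K b J) (FJ K b J), ∀ x : FJ K b J, ((δ x : FJ K b J) : ℂ) = D (x : ℂ) := by
  have := setup_fd K b hy J hJ
  have := Algebra.IsAlgebraic.of_finite (EJ K b J) (FJ K b J)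
  have h1 := der_stab (E := EJ K b J) (F := FJ K b J) (algebraMap (FJ K b J) ℂ) D (by
    intro x
    refine ⟨algebraMap (EJ K b J) (FJ K b J) ⟨D x, ts_der K b J D hDK hDt x.1 x.2⟩, rfl⟩)
  exact exists_restr (algebraMap (FJ K b J) ℂ) D h1

end Pool.Agent.EXL
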