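import Pool.Agent.EXI.CAbh

/-!
# EXI / CDen: approximation by rational functions of the coordinates

PROOF.  Induction on `M`; `M = 0`: `f = 0`, `g = 1`. Step: `θ = f/g (x) + t^M e`. Since
`P(x) = t ε`, `t^M e = P(x)^M e'` with `e' = e ε^{-M} ∈ O`. `ρ e' ∈ k(ρ x)`, so
`ρ e' = f₁(ρ x) / g₁(ρ x)` with `g₁(ρ x) ≠ 0` (elements of an adjoined field are fractions:
`IntermediateField.mem_adjoin_range_iff`), and `e' - f₁(x)/g₁(x)` has residue `0`, so it is in `t O`.
-/

set_option autoImplicit false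

namespace Pool.Agent.EXI

open MvPolynomial

variable {k : Subfield ℂ} {K : Type} [Field K] [Algebra k K]

/-- Values of polynomials at points of `O` are in `O`, and `ρ` commutes with the evaluation. -/
theorem cden_aeval (pl : Place k K) {ι : Type*} (x : ι → pl.O) (f : MvPolynomial ι k) :
    ∃ h : aeval (fun i => (x i : K)) f ∈ pl.O,
      pl.ρ ⟨aeval (fun i => (x i : K)) f, h⟩ = aeval (fun i => pl.ρ (x i)) f := by
  induction f using MvPolynomial.induction_on with
  | C a =>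
    refine ⟨by rw [aeval_C]; exact pl.memk a, ?_⟩
    have h1 : (⟨aeval (fun i => (x i : K)) (C a : MvPolynomial ι k),
        by rw [aeval_C]; exact pl.memk a⟩ : pl.O) = ⟨algebraMap k K a, pl.memk a⟩ :=
      Subtype.ext (aeval_C _ _)
    rw [h1, pl.ρk, aeval_C]
    rfl
  | add p q hp hq =>
    obtain ⟨h1, e1⟩ := hp
    obtain ⟨h2, e2⟩ := hq
    refine ⟨by rw [map_add]; exact pl.O.add_mem h1 h2, ?_⟩
    have h3 : (⟨aeval (fun i => (x i : K)) (p + q),
        by rw [map_add]; exact pl.O.add_mem h1 h2⟩ : pl.O) = ⟨_, h1⟩ + ⟨_, h2⟩ :=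
      Subtype.ext (map_add _ _ _)
    rw [h3, map_add, e1, e2, map_add]
  | mul_X p i hp =>
    obtain ⟨h1, e1⟩ := hp
    refine ⟨by rw [map_mul, aeval_X]; exact pl.O.mul_mem h1 (x i).2, ?_⟩
    have h3 : (⟨aeval (fun i => (x i : K)) (p * X i),
        by rw [map_mul, aeval_X]; exact pl.O.mul_mem h1 (x i).2⟩ : pl.O) = ⟨_, h1⟩ * x i :=
      Subtype.ext (by
        show aeval (fun i => (x i : K)) (p * X i) = _
        rw [map_mul, aeval_X]
        rfl)
    rw [h3, map_mul, e1, map_mul, aeval_X]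

/-- Elements of `O` are approximated by rational functions of `x`. -/
theorem dense (pl : Place k K) {n : ℕ} (x : Fin n → pl.O) (P : MvPolynomial (Fin n) k)
    (hP : ∃ ε : pl.O, pl.ρ ε ≠ 0 ∧ aeval (fun i => (x i : K)) P = pl.t * ε)
    (hres : ∀ e : pl.O, pl.ρ e ∈ IntermediateField.adjoin k (Set.range fun i => pl.ρ (x i)))
    (θ : pl.O) (M : ℕ) : ∃ f g : MvPolynomial (Fin n) k, aeval (fun i => pl.ρ (x i)) g ≠ 0 ∧
      ∃ e : pl.O, (θ : K) = aeval (fun i => (x i : K)) f / aeval (fun i => (x i : K)) g +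
        pl.t ^ M * e := by
  obtain ⟨ε, hε, hPε⟩ := hP
  have hε0 : (ε : K) ≠ 0 := by
    intro h
    apply hε
    have : ε = 0 := Subtype.ext h
    rw [this, map_zero]
  induction M with
  | zero =>
    refine ⟨0, 1, by simp, θ, ?_⟩
    simp
  | succ M ih =>
    obtain ⟨f, g, hg, e, he⟩ := ih
    -- the quotient of `e` by the power of `ε`
    obtain ⟨e', hee'⟩ : ∃ e' : pl.O, (e : K) = (e' : K) * (ε : K) ^ M := by
      refine ⟨e * ⟨(ε : K)⁻¹, pl.inv_mem ε hε⟩ ^ M, ?_⟩
      push_cast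
      rw [mul_assoc, ← mul_pow, inv_mul_cancel₀ hε0, one_pow, mul_one]
    -- a fraction with the residue of `e'`
    obtain ⟨f₁, g₁, hg₁, hfg⟩ : ∃ f₁ g₁ : MvPolynomial (Fin n) k,
        aeval (fun i => pl.ρ (x i)) g₁ ≠ 0 ∧
        pl.ρ e' = aeval (fun i => pl.ρ (x i)) f₁ / aeval (fun i => pl.ρ (x i)) g₁ := by
      obtain ⟨r, s, hrs⟩ := (IntermediateField.mem_adjoin_range_iff k (fun i => pl.ρ (x i))
        (pl.ρ e')).1 (hres e')
      by_cases hs : aeval (fun i => pl.ρ (x i)) s = 0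
      · refine ⟨0, 1, by simp, ?_⟩
        rw [hrs, hs]
        simp
      · exact ⟨r, s, hs, hrs⟩
    obtain ⟨hfm, hfr⟩ := cden_aeval pl x f₁
    obtain ⟨hgm, hgr⟩ := cden_aeval pl x g₁
    obtain ⟨hgm', hgr'⟩ := cden_aeval pl x g
    have hg1K : aeval (fun i => (x i : K)) g₁ ≠ 0 := by
      intro h
      apply hg₁
      rw [← hgr]
      have : (⟨aeval (fun i => (x i : K)) g₁, hgm⟩ : pl.O) = 0 := Subtype.ext h
      rw [this, map_zero]
    have hgK : aeval (fun i => (x i : K)) g ≠ 0 := by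
      intro h
      apply hg
      rw [← hgr']
      have : (⟨aeval (fun i => (x i : K)) g, hgm'⟩ : pl.O) = 0 := Subtype.ext h
      rw [this, map_zero]
    set ig : pl.O := ⟨(aeval (fun i => (x i : K)) g₁)⁻¹,
      pl.inv_mem ⟨_, hgm⟩ (by rw [hgr]; exact hg₁)⟩ with hig
    have hρig : pl.ρ ig * aeval (fun i => pl.ρ (x i)) g₁ = 1 := by
      rw [← hgr, ← map_mul]
      have : ig * ⟨aeval (fun i => (x i : K)) g₁, hgm⟩ = 1 := by
        apply Subtype.ext
        show (aeval (fun i => (x i : K)) g₁)⁻¹ * aeval (fun i => (x i : K)) g₁ = 1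
        exact inv_mul_cancel₀ hg1K
      rw [this, map_one]
    have hres0 : pl.ρ (e' - ⟨aeval (fun i => (x i : K)) f₁, hfm⟩ * ig) = 0 := by
      have h5 : pl.ρ (⟨aeval (fun i => (x i : K)) f₁, hfm⟩ * ig) =
          aeval (fun i => pl.ρ (x i)) f₁ / aeval (fun i => pl.ρ (x i)) g₁ := by
        rw [map_mul pl.ρ ⟨aeval (fun i => (x i : K)) f₁, hfm⟩ ig, hfr,
          eq_div_of_mul_eq hg₁ hρig, mul_one_div]
      rw [map_sub pl.ρ e' _, h5, hfg, sub_self]
    obtain ⟨e'', he''⟩ := (pl.residue_zero_iff _).1 hres0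
    have he3 : (e' : K) = aeval (fun i => (x i : K)) f₁ / aeval (fun i => (x i : K)) g₁ +
        pl.t * e'' := by
      have h4 : (e' : K) - aeval (fun i => (x i : K)) f₁ * (aeval (fun i => (x i : K)) g₁)⁻¹ =
          pl.t * e'' := by
        rw [← he'']
        rfl
      rw [← h4, div_eq_mul_inv]
      ring
    refine ⟨f * g₁ + P ^ M * f₁ * g, g * g₁, ?_, ε ^ M * e'', ?_⟩
    · rw [map_mul]
      exact mul_ne_zero hg hg₁
    · rw [he, hee', he3]
      simp only [map_add, map_mul, map_pow, hPε]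
      push_cast
      field_simp
      ring

end Pool.Agent.EXI
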