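import Pool.Agent.EXI.CDv
import Pool.Agent.EXI.CDen

/-!
# EXI / CIft: the chart near a point of the special fibre

PROOF of `ift`.  The map `Φ (x, w) = (x, G(x, w))` of `(Fin n → ℂ) × ℂ` to itself is a polynomial map
with invertible derivative at `(x0', w0)`, `x0' = x0 ∘ some`, `w0 = x0 none`
(the derivative in `w` is `(∂G/∂w)(x0) ≠ 0`). Inverse function theorem
(`ContDiffAt.toOpenPartialHomeomorph` or `HasStrictFDerivAt.toOpenPartialHomeomorph`, smooth inverse:
`ContDiffAt.to_localInverse`): `W(x) = (Φ⁻¹ (x, 0)).2`. (Or use the implicit function theorem of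
Mathlib for `G` as a function of `(x, w)`.) The last statement: the function
`x ↦ aeval (cons (W x) x) G` vanishes near `x0'`, so its derivative at `x0'` is `0`; use
`fderiv_aeval_cons`.

PROOF of `local_spec`.  `aeval x G = 0` in `K` by `ch.ker` (`G ∣ G`), apply `ρ`:
`aeval (ρ x) G = 0`, so `aeval x0 G = 0` by `hx0`. Apply `ift`. If `aeval x f = 0` then `G ∣ f`
(`ch.ker`), so `aeval (cons (W x) x) f = 0` for `x` near `x0'`.
-/

set_option autoImplicit false

namespace Pool.Agent.EXI

open MvPolynomial Pool.Agent.EXL Topology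

variable {k : Subfield ℂ}

theorem cift_contDiff {n : ℕ} (G : MvPolynomial (Option (Fin n)) k) :
    ContDiff ℂ 1 (fun p : (Fin n → ℂ) × ℂ => aeval (cons p.2 p.1) G) := by
  induction G using MvPolynomial.induction_on with
  | C c =>
    simp only [aeval_C]
    exact contDiff_const
  | add p q hp hq =>
    simp only [map_add]
    exact hp.add hq
  | mul_X p i hp =>
    simp only [map_mul, aeval_X]
    refine hp.mul ?_
    cases i with
    | none => exact contDiff_snd
    | some i => exact (contDiff_apply ℂ ℂ i).comp contDiff_fst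

theorem cift_hasDerivAt {n : ℕ} (G : MvPolynomial (Option (Fin n)) k) (x : Fin n → ℂ) (w : ℂ) :
    HasDerivAt (fun w => aeval (cons w x) G) (aeval (cons w x) (pderiv none G)) w := by
  classical
  induction G using MvPolynomial.induction_on with
  | C c =>
    simp only [aeval_C, pderiv_C, map_zero]
    exact hasDerivAt_const _ _
  | add p q hp hq =>
    simp only [map_add]
    exact hp.add hq
  | mul_X p i hp =>
    cases i with
    | none =>
      have h := hp.mul (hasDerivAt_id w)
      simp only [map_mul, aeval_X, pderiv_mul, pderiv_X_self, map_add, map_one]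
      exact h
    | some i =>
      have h := hp.mul (hasDerivAt_const w (x i))
      have h1 : pderiv none (X (some i) : MvPolynomial (Option (Fin n)) k) = 0 :=
        pderiv_X_of_ne (by simp)
      simp only [map_mul, aeval_X, pderiv_mul, map_add, h1, map_zero]
      exact h

/-- The implicit function. -/
theorem ift {n : ℕ} (G : MvPolynomial (Option (Fin n)) k) (x0 : Option (Fin n) → ℂ)
    (hG0 : aeval x0 G = 0) (hGW : aeval x0 (pderiv none G) ≠ 0) :
    ∃ W : (Fin n → ℂ) → ℂ, W (fun i => x0 (some i)) = x0 none ∧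
      ContDiffAt ℂ 1 W (fun i => x0 (some i)) ∧
      (∀ᶠ x in 𝓝 (fun i => x0 (some i)), aeval (cons (W x) x) G = 0) ∧
      ∀ c : Fin n → ℂ, dv G x0 (cons (fderiv ℂ W (fun i => x0 (some i)) c) c) = 0 := by
  have hx0 : cons (x0 none) (fun i => x0 (some i)) = x0 := by
    funext i
    cases i <;> rfl
  have cdf : ContDiffAt ℂ 1 (fun p : (Fin n → ℂ) × ℂ => aeval (cons p.2 p.1) G)
      ((fun i => x0 (some i)), x0 none) := (cift_contDiff G).contDiffAt
  have hd : HasFDerivAt (fun p : (Fin n → ℂ) × ℂ => aeval (cons p.2 p.1) G)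
      (fderiv ℂ (fun p : (Fin n → ℂ) × ℂ => aeval (cons p.2 p.1) G)
        ((fun i => x0 (some i)), x0 none)) ((fun i => x0 (some i)), x0 none) :=
    (cdf.differentiableAt one_ne_zero).hasFDerivAt
  have hinr : HasFDerivAt (fun w : ℂ => (((fun i => x0 (some i)), w) : (Fin n → ℂ) × ℂ))
      (ContinuousLinearMap.inr ℂ (Fin n → ℂ) ℂ) (x0 none) :=
    hasFDerivAt_prodMk_right (fun i => x0 (some i)) (x0 none)
  have hcomp := HasFDerivAt.comp (x0 none)
    (g := fun p : (Fin n → ℂ) × ℂ => aeval (cons p.2 p.1) G) hd hinr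
  have hcomp2 := (cift_hasDerivAt G (fun i => x0 (some i)) (x0 none)).hasFDerivAt
  have heq := hcomp.unique hcomp2
  rw [hx0] at heq
  have hinv : (fderiv ℂ (fun p : (Fin n → ℂ) × ℂ => aeval (cons p.2 p.1) G)
      ((fun i => x0 (some i)), x0 none) ∘L .inr ℂ (Fin n → ℂ) ℂ).IsInvertible := by
    rw [heq]
    refine ⟨ContinuousLinearEquiv.unitsEquivAut ℂ (Units.mk0 _ hGW), ?_⟩
    ext
    simp
  have e1 := cdf.eventually_apply_implicitFunction one_ne_zero hinv
  have e3 := cdf.contDiffAt_implicitFunction one_ne_zero hinv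
  have e4 := cdf.implicitFunction_apply_self one_ne_zero hinv
  set W := cdf.implicitFunction one_ne_zero hinv with hW
  simp only [hx0, hG0] at e1 e3 e4
  refine ⟨W, e4, e3, e1, fun c => ?_⟩
  have h1 := fderiv_aeval_cons G W (fun i => x0 (some i)) (e3.differentiableAt one_ne_zero) c
  have h2 : fderiv ℂ (fun y => aeval (cons (W y) y) G) (fun i => x0 (some i)) = 0 := by
    have h3 : (fun y => aeval (cons (W y) y) G) =ᶠ[𝓝 (fun i => x0 (some i))] fun _ => 0 := e1
    rw [h3.fderiv_eq]
    simp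
  rw [h2, e4, hx0] at h1
  exact h1.symm

variable {K : Type} [Field K] [Algebra k K] {pl : Place k K} {m : ℕ}

/-- Near a point `x0` of the special fibre there are specializations `(x, W x)` of the coordinates
of the chart. -/
theorem local_spec (ch : Chart pl m) (x0 : Option (Fin (m + 1)) → ℂ)
    (hx0 : Spec k (fun i => pl.ρ (ch.x i)) x0) (hGW : aeval x0 (pderiv none ch.G) ≠ 0) :
    ∃ W : (Fin (m + 1) → ℂ) → ℂ, W (fun i => x0 (some i)) = x0 none ∧
      ContDiffAt ℂ 1 W (fun i => x0 (some i)) ∧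
      (∀ᶠ x in 𝓝 (fun i => x0 (some i)), Spec k (fun i => (ch.x i : K)) (cons (W x) x)) ∧
      ∀ c : Fin (m + 1) → ℂ,
        dv ch.G x0 (cons (fderiv ℂ W (fun i => x0 (some i)) c) c) = 0 := by
  have hG : aeval (fun i => (ch.x i : K)) ch.G = 0 := (ch.ker _).2 dvd_rfl
  have hG1 : aeval (fun i => pl.ρ (ch.x i)) ch.G = 0 := by
    obtain ⟨h, e⟩ := cden_aeval pl ch.x ch.G
    have h0 : (⟨aeval (fun i => (ch.x i : K)) ch.G, h⟩ : pl.O) = 0 := Subtype.ext hG
    rw [← e, h0, map_zero]
  obtain ⟨W, h1, h2, h3, h4⟩ := ift ch.G x0 (hx0 _ hG1) hGW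
  refine ⟨W, h1, h2, ?_, h4⟩
  filter_upwards [h3] with x hx f hf
  obtain ⟨H, rfl⟩ := (ch.ker f).1 hf
  rw [map_mul, hx, zero_mul]

end Pool.Agent.EXI
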