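import Pool.Agent.EXI.CDefs

/-!
# EXI / CLoc: specialization of fractions

PROOF.  `R = k[x] ⊆ K` (`Algebra.adjoin` or the range of `aeval x`); by `hs` there is a ring
homomorphism `ψ : R → ℂ` over `k` with `ψ (aeval x f) = aeval x' f`. Let `M` be the submonoid of the
`r ∈ R` with `ψ r ≠ 0`. The `e i` are in the subring `R_M = {r / s}` of `K`, and `ψ` extends to
`R_M → ℂ` (`IsLocalization.lift` for `Localization M`, `Localization M → K` is injective; or directly:
`r/s ↦ ψ r / ψ s` is well defined since `r s₁ = r₁ s` in `K` gives `ψ r ψ s₁ = ψ r₁ ψ s`).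
The image of `e i` is `A_i(x') / B_i(x')`, and homomorphisms over `k` commute with `aeval`.
-/

set_option autoImplicit false

namespace Pool.Agent.EXI

open MvPolynomial

private lemma cloc_aux {k : Subfield ℂ} {K : Type} [Field K] [Algebra k K] {ι κ : Type}
    (x : ι → K) (x' : ι → ℂ) (e : κ → K) (A B : κ → MvPolynomial ι k)
    (heq : ∀ i, e i * aeval x (B i) = aeval x (A i)) (hB : ∀ i, aeval x' (B i) ≠ 0)
    (f : MvPolynomial (ι ⊕ κ) k) :
    ∃ D g : MvPolynomial ι k, aeval x' D ≠ 0 ∧ aeval x D * aeval (Sum.elim x e) f = aeval x g ∧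
      aeval x' D * aeval (Sum.elim x' fun i => aeval x' (A i) / aeval x' (B i)) f =
        aeval x' g := by
  induction f using MvPolynomial.induction_on with
  | C a =>
    refine ⟨1, C a, ?_, ?_, ?_⟩
    · rw [map_one]
      exact one_ne_zero
    · rw [map_one, one_mul, aeval_C, aeval_C]
    · rw [map_one, one_mul, aeval_C, aeval_C]
  | add p q hp hq =>
    obtain ⟨D1, g1, h1, h2, h3⟩ := hp
    obtain ⟨D2, g2, h4, h5, h6⟩ := hq
    refine ⟨D1 * D2, g1 * D2 + g2 * D1, ?_, ?_, ?_⟩
    · rw [map_mul]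
      exact mul_ne_zero h1 h4
    · rw [map_mul, map_add, map_add, map_mul, map_mul, ← h2, ← h5]
      ring
    · rw [map_mul, map_add, map_add, map_mul, map_mul, ← h3, ← h6]
      ring
  | mul_X p i hp =>
    obtain ⟨D, g, h1, h2, h3⟩ := hp
    cases i with
    | inl i =>
      refine ⟨D, g * X i, h1, ?_, ?_⟩
      · rw [map_mul, map_mul, aeval_X, aeval_X, Sum.elim_inl, ← h2, mul_assoc]
      · rw [map_mul, map_mul, aeval_X, aeval_X, Sum.elim_inl, ← h3, mul_assoc]
    | inr i =>
      refine ⟨D * B i, g * A i, ?_, ?_, ?_⟩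
      · rw [map_mul]
        exact mul_ne_zero h1 (hB i)
      · rw [map_mul, map_mul, map_mul, aeval_X, Sum.elim_inr, ← h2, ← heq i]
        ring
      · rw [map_mul, map_mul, map_mul, aeval_X, Sum.elim_inr, ← h3]
        have := hB i
        field_simp

/-- Specialization of fractions, together with the original elements. -/
theorem spec_frac {k : Subfield ℂ} {K : Type} [Field K] [Algebra k K] {ι κ : Type} (x : ι → K)
    (x' : ι → ℂ) (hs : Spec k x x') (e : κ → K) (A B : κ → MvPolynomial ι k)
    (heq : ∀ i, e i * aeval x (B i) = aeval x (A i)) (hB : ∀ i, aeval x' (B i) ≠ 0) :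
    Spec k (Sum.elim x e) (Sum.elim x' fun i => aeval x' (A i) / aeval x' (B i)) := by
  intro f hf
  obtain ⟨D, g, h1, h2, h3⟩ := cloc_aux x x' e A B heq hB f
  rw [hf, mul_zero] at h2
  rw [hs g h2.symm] at h3
  exact (mul_eq_zero.1 h3).resolve_left h1

end Pool.Agent.EXI
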