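import Pool.Agent.EXI.ADefs

/-!
# EXI / AAnn: rational subspaces

Integral bases of the rational subspaces `U`, linear independence over `ℂ` of linearly independent
integral vectors, the dimension and complements of `ann U`, and double annihilators.
-/

set_option autoImplicit false

namespace Pool.Agent.EXL

open Module

variable {ι : Type} [Fintype ι]

/-- Clearing denominators. -/
lemma exists_int_mult (u : ι → ℚ) : ∃ (d : ℚ) (z : ι → ℤ), d ≠ 0 ∧ qv z = d • u := by
  let d : ℕ := ∏ i, (u i).den
  have hd : (d : ℚ) ≠ 0 := by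
    have : 0 < d := Finset.prod_pos fun i _ => Rat.den_pos _
    exact_mod_cast this.ne'
  have hint : ∀ i, ∃ z : ℤ, (z : ℚ) = d * u i := by
    intro i
    obtain ⟨t, ht⟩ : (u i).den ∣ d := Finset.dvd_prod_of_mem (fun i => (u i).den)
      (Finset.mem_univ i)
    refine ⟨(u i).num * t, ?_⟩
    have h2 : ((u i).den : ℚ) * u i = (u i).num := Rat.den_mul_eq_num _
    rw [ht]
    push_cast
    rw [← h2]
    ring
  choose z hz using hint
  refine ⟨d, z, hd, ?_⟩
  funext i
  simp [qv, hz]

theorem exists_int_basis_sub (U : Submodule ℚ (ι → ℚ)) :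
    ∃ w : Fin (finrank ℚ U) → ι → ℤ, LinearIndependent ℚ (fun i => qv (w i)) ∧
      Submodule.span ℚ (Set.range fun i => qv (w i)) = U := by
  classical
  let B := Module.finBasis ℚ U
  choose d z hd hz using fun i => exists_int_mult (B i : ι → ℚ)
  refine ⟨z, ?_, ?_⟩
  · have h1 : LinearIndependent ℚ (fun i => (B i : ι → ℚ)) :=
      B.linearIndependent.map' U.subtype U.ker_subtype
    have h2 := h1.units_smul (fun i => Units.mk0 (d i) (hd i))
    convert h2 using 1
    funext i
    rw [hz i]
    rfl
  · apply le_antisymm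
    · rw [Submodule.span_le]
      rintro _ ⟨i, rfl⟩
      change qv (z i) ∈ U
      rw [hz i]
      exact U.smul_mem _ (B i).2
    · intro u hu
      have h1 : (⟨u, hu⟩ : U) ∈ Submodule.span ℚ (Set.range B) := by
        rw [B.span_eq]
        trivial
      have h2 := Submodule.mem_map_of_mem (f := U.subtype) h1
      rw [Submodule.map_span] at h2
      refine Submodule.span_le.2 ?_ h2
      rintro _ ⟨_, ⟨i, rfl⟩, rfl⟩
      have h3 : U.subtype (B i) = (d i)⁻¹ • qv (z i) := by
        rw [hz i, smul_smul, inv_mul_cancel₀ (hd i), one_smul]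
        rfl
      rw [h3]
      exact Submodule.smul_mem _ _ (Submodule.subset_span ⟨i, rfl⟩)

theorem mem_ann_span {κ : Type} (w : κ → ι → ℤ) (v : ι → ℂ) :
    v ∈ ann (Submodule.span ℚ (Set.range fun i => qv (w i))) ↔
      ∀ i, ∑ j, (w i j : ℂ) * v j = 0 := by
  constructor
  · intro h i
    have h1 := h _ (Submodule.subset_span ⟨i, rfl⟩)
    simpa [qv] using h1
  · intro h u hu
    induction hu using Submodule.span_induction with
    | mem x hx =>
      obtain ⟨i, rfl⟩ := hx
      have h1 := h i
      simpa [qv] using h1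
    | zero => simp
    | add x y _ _ hx hy =>
      have h1 : ∑ i, (((x + y) i : ℚ) : ℂ) * v i =
          ∑ i, (x i : ℂ) * v i + ∑ i, (y i : ℂ) * v i := by
        rw [← Finset.sum_add_distrib]
        refine Finset.sum_congr rfl fun i _ => ?_
        rw [Pi.add_apply]
        push_cast
        ring
      rw [h1, hx, hy, add_zero]
    | smul a x _ hx =>
      have h1 : ∑ i, (((a • x) i : ℚ) : ℂ) * v i = (a : ℂ) * ∑ i, (x i : ℂ) * v i := by
        rw [Finset.mul_sum]
        refine Finset.sum_congr rfl fun i _ => ?_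
        rw [Pi.smul_apply, smul_eq_mul]
        push_cast
        ring
      rw [h1, hx, mul_zero]

/-- A right inverse of the matrix of linearly independent rows. -/
lemma exists_right_inv_mat {κ : Type} [Fintype κ] [DecidableEq κ] (w : κ → ι → ℤ)
    (hw : LinearIndependent ℚ (fun i => qv (w i))) :
    ∃ R : ι → κ → ℚ, ∀ i k, ∑ j, (w i j : ℚ) * R j k = if i = k then 1 else 0 := by
  classical
  let f : (κ → ℚ) →ₗ[ℚ] (ι → ℚ) := Fintype.linearCombination ℚ (fun i => qv (w i))
  have hf : LinearMap.ker f = ⊥ := by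
    rw [LinearMap.ker_eq_bot]
    exact (linearIndependent_iff_injective_fintypeLinearCombination.1 hw)
  obtain ⟨g, hg⟩ := f.exists_leftInverse_of_injective hf
  refine ⟨fun j k => g (Pi.single j 1) k, fun i k => ?_⟩
  have h1 : g (f (Pi.single i 1)) = Pi.single i 1 := by
    have := congrArg (fun h : (κ → ℚ) →ₗ[ℚ] (κ → ℚ) => h (Pi.single i 1)) hg
    simpa using this
  have h2 : f (Pi.single i 1) = qv (w i) := by
    simp [f, Fintype.linearCombination_apply_single]
  have h3 : qv (w i) = ∑ j, (w i j : ℚ) • (Pi.single j 1 : ι → ℚ) := by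
    funext j
    simp [qv, Finset.sum_apply, Pi.single_apply]
  rw [h2, h3, map_sum] at h1
  have h4 := congrFun h1 k
  rw [Finset.sum_apply] at h4
  have h5 : ∀ j, (g ((w i j : ℚ) • (Pi.single j 1 : ι → ℚ))) k =
      (w i j : ℚ) * g (Pi.single j 1) k := by
    intro j
    rw [map_smul, Pi.smul_apply, smul_eq_mul]
  rw [Finset.sum_congr rfl fun j _ => h5 j] at h4
  rw [h4, Pi.single_apply]
  by_cases h6 : i = k
  · rw [if_pos h6, if_pos h6.symm]
  · rw [if_neg h6, if_neg (Ne.symm h6)]

lemma exists_right_inv_matC {κ : Type} [Fintype κ] [DecidableEq κ] (w : κ → ι → ℤ)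
    (hw : LinearIndependent ℚ (fun i => qv (w i))) :
    ∃ R : ι → κ → ℂ, ∀ i k, ∑ j, (w i j : ℂ) * R j k = if i = k then 1 else 0 := by
  obtain ⟨R, hR⟩ := exists_right_inv_mat w hw
  refine ⟨fun j k => (R j k : ℂ), fun i k => ?_⟩
  have h1 := congrArg (fun x : ℚ => (x : ℂ)) (hR i k)
  push_cast at h1
  rw [h1]
  split_ifs <;> simp

theorem li_cast {κ : Type} [Fintype κ] (w : κ → ι → ℤ)
    (hw : LinearIndependent ℚ (fun i => qv (w i))) :
    LinearIndependent ℂ (fun i => (fun j => (w i j : ℂ) : ι → ℂ)) := by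
  classical
  obtain ⟨R, hR⟩ := exists_right_inv_matC w hw
  rw [Fintype.linearIndependent_iff]
  intro g hg k
  have h1 : ∀ j, ∑ i, g i * (w i j : ℂ) = 0 := by
    intro j
    have := congrFun hg j
    simpa [Finset.sum_apply] using this
  have h2 : ∑ i, g i * ∑ j, (w i j : ℂ) * R j k = 0 := by
    calc ∑ i, g i * ∑ j, (w i j : ℂ) * R j k
        = ∑ i, ∑ j, g i * (w i j : ℂ) * R j k := by
          refine Finset.sum_congr rfl fun i _ => ?_
          rw [Finset.mul_sum]
          refine Finset.sum_congr rfl fun j _ => ?_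
          ring
      _ = ∑ j, (∑ i, g i * (w i j : ℂ)) * R j k := by
          rw [Finset.sum_comm]
          refine Finset.sum_congr rfl fun j _ => ?_
          rw [Finset.sum_mul]
      _ = 0 := by
          refine Finset.sum_eq_zero fun j _ => ?_
          rw [h1 j, zero_mul]
  rw [← h2]
  simp [hR]

/-- The map `v ↦ (w_i . v)_i` is surjective if the `w_i` are linearly independent. -/
theorem dot_surjective {κ : Type} [Fintype κ] (w : κ → ι → ℤ)
    (hw : LinearIndependent ℚ (fun i => qv (w i))) (c : κ → ℂ) :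
    ∃ v : ι → ℂ, ∀ i, ∑ j, (w i j : ℂ) * v j = c i := by
  classical
  obtain ⟨R, hR⟩ := exists_right_inv_matC w hw
  refine ⟨fun j => ∑ k, R j k * c k, fun i => ?_⟩
  calc ∑ j, (w i j : ℂ) * ∑ k, R j k * c k
      = ∑ j, ∑ k, (w i j : ℂ) * R j k * c k := by
        refine Finset.sum_congr rfl fun j _ => ?_
        rw [Finset.mul_sum]
        refine Finset.sum_congr rfl fun k _ => ?_
        ring
    _ = ∑ k, (∑ j, (w i j : ℂ) * R j k) * c k := by
        rw [Finset.sum_comm]
        refine Finset.sum_congr rfl fun k _ => ?_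
        rw [Finset.sum_mul]
    _ = c i := by simp [hR]

theorem finrank_ann (U : Submodule ℚ (ι → ℚ)) :
    finrank ℂ (ann U) + finrank ℚ U = Fintype.card ι := by
  classical
  obtain ⟨w, hw, hU⟩ := exists_int_basis_sub U
  let f : (ι → ℂ) →ₗ[ℂ] (Fin (finrank ℚ U) → ℂ) :=
    { toFun := fun v i => ∑ j, (w i j : ℂ) * v j
      map_add' := by
        intro v v'
        funext i
        simp only [Pi.add_apply, mul_add, Finset.sum_add_distrib]
      map_smul' := by
        intro c v
        funext i
        simp only [Pi.smul_apply, smul_eq_mul, RingHom.id_apply, Finset.mul_sum]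
        refine Finset.sum_congr rfl fun j _ => ?_
        ring }
  have h1 : LinearMap.ker f = ann U := by
    ext v
    rw [LinearMap.mem_ker]
    have h2 : v ∈ ann U ↔ ∀ i, ∑ j, (w i j : ℂ) * v j = 0 := by
      rw [← mem_ann_span w v, hU]
    rw [h2]
    constructor
    · intro h i
      exact congrFun h i
    · intro h
      funext i
      exact h i
  have h3 : LinearMap.range f = ⊤ := by
    rw [LinearMap.range_eq_top]
    intro c
    obtain ⟨v, hv⟩ := dot_surjective w hw c
    exact ⟨v, funext hv⟩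
  have h4 := f.finrank_range_add_finrank_ker
  rw [h3, finrank_top, h1, finrank_fin_fun, finrank_fintype_fun_eq_card] at h4
  omega

lemma ann_top : ann (⊤ : Submodule ℚ (ι → ℚ)) = ⊥ := by
  classical
  rw [eq_bot_iff]
  intro v hv
  rw [Submodule.mem_bot]
  funext i
  have h1 := hv (Pi.single i 1) trivial
  rw [Finset.sum_eq_single i] at h1
  · simpa using h1
  · intro j _ hj
    rw [Pi.single_eq_of_ne hj]
    simp
  · intro h
    exact absurd (Finset.mem_univ i) h

theorem exists_compl_ann (U : Submodule ℚ (ι → ℚ)) :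
    ∃ U' : Submodule ℚ (ι → ℚ), IsCompl (ann U) (ann U') := by
  classical
  obtain ⟨U', hU'⟩ := Submodule.exists_isCompl U
  refine ⟨U', ?_⟩
  have h1 := finrank_ann U
  have h2 := finrank_ann U'
  have h3 := Submodule.finrank_add_eq_of_isCompl hU'
  rw [finrank_fintype_fun_eq_card] at h3
  rw [Submodule.isCompl_iff_disjoint, disjoint_iff, ← ann_sup, hU'.sup_eq_top, ann_top]
  rw [finrank_fintype_fun_eq_card]
  omega

theorem mem_of_dot (W : Submodule ℂ (ι → ℂ)) (v : ι → ℂ)
    (h : ∀ r : ι → ℂ, (∀ w ∈ W, ∑ i, r i * w i = 0) → ∑ i, r i * v i = 0) : v ∈ W := by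
  classical
  by_contra hv
  obtain ⟨f, hf, hW⟩ := Submodule.exists_le_ker_of_notMem hv
  have hdot : ∀ x : ι → ℂ, ∑ i, f (Pi.single i 1) * x i = f x := by
    intro x
    conv_rhs => rw [← Finset.univ_sum_single x]
    rw [map_sum]
    refine Finset.sum_congr rfl fun i _ => ?_
    have h1 : (Pi.single i (x i) : ι → ℂ) = x i • Pi.single i 1 := by
      rw [← Pi.single_smul, smul_eq_mul, mul_one]
    rw [h1, map_smul, smul_eq_mul, mul_comm]
  apply hf
  rw [← hdot v]
  apply h
  intro w hw
  rw [hdot w]
  exact hW hw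

end Pool.Agent.EXL
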