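import Pool.Agent.EXI.TFEll
import Pool.Agent.EXI.AAnn

/-!
# EXI / AAxc: the main step of the relative theorem of Ax

PROOF of `axt_claim`.  `C₀ = consts Δ`, `W = lev b (DerOver C₀) ⊔ (P ⊓ ann U)`. By `mem_of_dot`
it suffices: every `v ∈ Rel`, `Rel := {v | ∑ v_i w_i = 0 for all w ∈ W}`, satisfies `v . x = 0` for
`x ∈ ann U`. `Rel` is a subspace of `ℂ^ι` stable under `Δ`: let `v ∈ Rel`, `D₀ ∈ Δ`. For
`D ∈ DerOver C₀`: `0 = D₀ (v . lev b D) = (D₀ v) . lev b D + v . D₀ (lev b D)` and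
`D₀ (lev b D) = lev b ⁅D₀, D⁆ + D (lev b D₀)` (`lev_commutator`); `⁅D₀, D⁆ ∈ DerOver C₀`
(for `x ∈ C₀`: `D x = 0`, `D₀ x = 0`), so `v . lev b ⁅D₀, D⁆ = 0`; `lev b D₀ ∈ P ⊓ ann U`, and
`D ∈ DerOver C₀ ≤ DerOver K` (`K ≤ C₀` as `Δ ≤ DerOver K`), so `D (lev b D₀) ∈ P ⊓ ann U` (`hP`,
`ann_stab`) and `v . D (lev b D₀) = 0`. For `p ∈ P ⊓ ann U`: `0 = D₀ (v . p) = D₀ v . p + v . D₀ p`
and `D₀ p ∈ P ⊓ ann U`. So `(D₀ v) ∈ Rel`.
By `stab_span` (EXI/TFEll, proved) it suffices to treat `v ∈ Rel` with all `v_j ∈ C₀`. Write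
`v_j = ∑_s q_{js} e_s` with `q_{js} ∈ ℤ` and `e_s ∈ C₀` linearly independent over `ℤ` (lemma
`exists_int_basis` in EXL/Ax.lean, private there: copy it). Put `u_s = mon b (q_{.s})`. For
`D ∈ DerOver C₀`: `∑_s e_s D (u_s) / u_s = ∑_j v_j lev b D j = 0 = D 0` (`der_mon`). By `residue`
(EXL/Res2) `u_s` is algebraic over `C₀`, so `u_s ∈ C₀` (`consts_algebraic`), i.e.
`∑_j q_{js} lev b D j = 0` for `D ∈ Δ`, i.e. `q_{.s} ∈ U` (`hU`). So for `x ∈ ann U`:
`v . x = ∑_s e_s (q_{.s} . x) = 0`.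
-/

set_option autoImplicit false

namespace Pool.Agent.EXL

open Module

variable {ι : Type} [Fintype ι]

private lemma aaxc_int_basis (C : Subfield ℂ) (c : ι → ℂ) (hc : ∀ j, c j ∈ C) :
    ∃ (m : ℕ) (e : Fin m → ℂ) (q : ι → Fin m → ℤ), (∀ k, e k ∈ C) ∧
      (∀ z : Fin m → ℤ, ∑ k, (z k : ℂ) * e k = 0 → z = 0) ∧
      ∀ j, c j = ∑ k, (q j k : ℂ) * e k := by
  classical
  let W : Submodule ℚ ℂ := Submodule.span ℚ (Set.range c)
  have hWfin : Module.Finite ℚ W := Module.Finite.span_of_finite ℚ (Set.finite_range c)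
  let B := Module.finBasis ℚ W
  set m := Module.finrank ℚ W with hm
  have hCW : ∀ x ∈ W, x ∈ C := by
    intro x hx
    induction hx using Submodule.span_induction with
    | mem x hx =>
      obtain ⟨j, rfl⟩ := hx
      exact hc j
    | zero => exact C.zero_mem
    | add x y _ _ hx hy => exact C.add_mem hx hy
    | smul r x _ hx =>
      rw [Algebra.smul_def]
      exact C.mul_mem (by simp [SubfieldClass.ratCast_mem C r]) hx
  let w : ι → W := fun j => ⟨c j, Submodule.subset_span ⟨j, rfl⟩⟩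
  let d : ℕ := ∏ j : ι, ∏ k : Fin m, (B.repr (w j) k).den
  have hd : 0 < d := Finset.prod_pos fun j _ => Finset.prod_pos fun k _ => Rat.den_pos _
  have hint : ∀ j k, ∃ z : ℤ, (z : ℚ) = d * B.repr (w j) k := by
    intro j k
    have h1 : (B.repr (w j) k).den ∣ d :=
      (Finset.dvd_prod_of_mem (fun k => (B.repr (w j) k).den) (Finset.mem_univ k)).trans
        (Finset.dvd_prod_of_mem (fun j => ∏ k : Fin m, (B.repr (w j) k).den) (Finset.mem_univ j))
    obtain ⟨t, ht⟩ := h1
    refine ⟨(B.repr (w j) k).num * t, ?_⟩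
    have h2 : ((B.repr (w j) k).den : ℚ) * B.repr (w j) k = (B.repr (w j) k).num :=
      Rat.den_mul_eq_num _
    rw [ht]
    push_cast
    rw [← h2]
    ring
  choose q hq using hint
  have hdE : (d : ℂ) ≠ 0 := by exact_mod_cast hd.ne'
  refine ⟨m, fun k => (d : ℂ)⁻¹ * (B k : ℂ), q, ?_, ?_, ?_⟩
  · intro k
    exact C.mul_mem (C.inv_mem (natCast_mem C d)) (hCW _ (B k).2)
  · intro z hz
    have h1 : ∑ k, (z k : ℂ) * (B k : ℂ) = 0 := by
      have : ∑ k, (z k : ℂ) * ((d : ℂ)⁻¹ * (B k : ℂ)) = (d : ℂ)⁻¹ * ∑ k, (z k : ℂ) * (B k : ℂ) := by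
        rw [Finset.mul_sum]
        refine Finset.sum_congr rfl fun k _ => ?_
        ring
      rw [this] at hz
      rcases mul_eq_zero.1 hz with h | h
      · exact absurd h (inv_ne_zero hdE)
      · exact h
    have h2 : ∑ k, (z k : ℚ) • B k = 0 := by
      apply Subtype.ext
      rw [AddSubmonoidClass.coe_finsetSum]
      simp only [SetLike.val_smul, Algebra.smul_def, map_intCast]
      rw [h1]
      rfl
    have h3 := Fintype.linearIndependent_iff.1 B.linearIndependent (fun k => (z k : ℚ)) h2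
    ext k
    exact_mod_cast h3 k
  · intro j
    have h1 : w j = ∑ k, (B.repr (w j) k) • B k := (B.sum_repr (w j)).symm
    have h2 : c j = ∑ k, ((B.repr (w j) k : ℚ) : ℂ) * (B k : ℂ) := by
      have h3 : (w j : ℂ) = ((∑ k, (B.repr (w j) k) • B k : W) : ℂ) := congrArg Subtype.val h1
      rw [AddSubmonoidClass.coe_finsetSum] at h3
      simp only [SetLike.val_smul, Algebra.smul_def, eq_ratCast] at h3
      exact h3
    rw [h2]
    refine Finset.sum_congr rfl fun k _ => ?_
    have h4 : (q j k : ℂ) = (d : ℂ) * ((B.repr (w j) k : ℚ) : ℂ) := by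
      have := congrArg (fun x : ℚ => (x : ℂ)) (hq j k)
      push_cast at this
      exact this
    rw [h4]
    field_simp

theorem axt_claim (K : Subfield ℂ) (b : ι → ℂ) (hb : ∀ j, b j ≠ 0) (P : Submodule ℂ (ι → ℂ))
    (hP : Stab (DerOver (K : Set ℂ)) P) (Δ : Submodule ℂ (Derivation ℤ ℂ ℂ))
    (hΔ : ∀ D, D ∈ Δ ↔ D ∈ DerOver (K : Set ℂ) ∧ lev b D ∈ P)
    (U : Submodule ℚ (ι → ℚ))
    (hU : ∀ u : ι → ℚ, u ∈ U ↔ ∀ D ∈ Δ, ∑ i, (u i : ℂ) * lev b D i = 0) :
    ann U ≤ (DerOver (consts Δ : Set ℂ)).map (lev b) ⊔ (P ⊓ ann U) := by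
  classical
  have hKC : DerOver (consts Δ : Set ℂ) ≤ DerOver (K : Set ℂ) := by
    intro D hD x hx
    exact hD x (fun D' hD' => ((hΔ D').1 hD').1 x hx)
  have hlevU : ∀ D ∈ Δ, lev b D ∈ P ⊓ ann U := by
    intro D hD
    exact ⟨((hΔ D).1 hD).2, fun u hu => (hU u).1 hu D hD⟩
  have hDstab : ∀ D ∈ DerOver (K : Set ℂ), ∀ p ∈ P ⊓ ann U, (fun i => D (p i)) ∈ P ⊓ ann U := by
    intro D hD p hp
    exact ⟨hP D hD p hp.1, ann_stab U D hp.2⟩
  let Rel : Submodule ℂ (ι → ℂ) :=
    { carrier := {r | (∀ D ∈ DerOver (consts Δ : Set ℂ), ∑ i, r i * lev b D i = 0) ∧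
        ∀ p ∈ P ⊓ ann U, ∑ i, r i * p i = 0}
      add_mem' := by
        intro r r' hr hr'
        refine ⟨fun D hD => ?_, fun p hp => ?_⟩
        · simp only [Pi.add_apply, add_mul, Finset.sum_add_distrib]
          rw [hr.1 D hD, hr'.1 D hD, add_zero]
        · simp only [Pi.add_apply, add_mul, Finset.sum_add_distrib]
          rw [hr.2 p hp, hr'.2 p hp, add_zero]
      zero_mem' := by
        refine ⟨fun D hD => ?_, fun p hp => ?_⟩
        · simp
        · simp
      smul_mem' := by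
        intro c r hr
        refine ⟨fun D hD => ?_, fun p hp => ?_⟩
        · simp only [Pi.smul_apply, smul_eq_mul, mul_assoc]
          rw [← Finset.mul_sum, hr.1 D hD, mul_zero]
        · simp only [Pi.smul_apply, smul_eq_mul, mul_assoc]
          rw [← Finset.mul_sum, hr.2 p hp, mul_zero] }
  have hRel : ∀ r, r ∈ Rel ↔ (∀ D ∈ DerOver (consts Δ : Set ℂ), ∑ i, r i * lev b D i = 0) ∧
        ∀ p ∈ P ⊓ ann U, ∑ i, r i * p i = 0 := fun r => Iff.rfl
  have hstab : Stab Δ Rel := by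
    intro D₀ hD₀ v hv
    rw [hRel] at hv ⊢
    have hDv : ∀ w : ι → ℂ, (∑ i, v i * w i = 0) → (∑ i, v i * D₀ (w i) = 0) →
        ∑ i, D₀ (v i) * w i = 0 := by
      intro w h1 h2
      have h3 := congrArg D₀ h1
      rw [map_zero, map_sum] at h3
      simp only [Derivation.leibniz, smul_eq_mul, Finset.sum_add_distrib] at h3
      rw [h2, zero_add] at h3
      rw [← h3]
      exact Finset.sum_congr rfl fun i _ => mul_comm _ _
    refine ⟨fun D hD => ?_, fun p hp => ?_⟩
    · refine hDv (lev b D) (hv.1 D hD) ?_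
      have hcomm : ⁅D₀, D⁆ ∈ DerOver (consts Δ : Set ℂ) := by
        intro x hx
        rw [Derivation.commutator_apply, hD x hx, map_zero, (mem_consts.1 hx) D₀ hD₀, map_zero,
          sub_zero]
      have h1 := hv.1 _ hcomm
      rw [lev_commutator b hb] at h1
      simp only [Pi.sub_apply, mul_sub, Finset.sum_sub_distrib] at h1
      have h2 := hv.2 _ (hDstab D (hKC hD) _ (hlevU D₀ hD₀))
      rw [h2, sub_zero] at h1
      exact h1
    · exact hDv p (hv.2 p hp)
        (hv.2 _ (hDstab D₀ ((hΔ D₀).1 hD₀).1 p hp))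
  intro x hx
  apply mem_of_dot
  intro r hr
  have hrRel : r ∈ Rel := by
    rw [hRel]
    refine ⟨fun D hD => hr _ ?_, fun p hp => hr _ ?_⟩
    · exact Submodule.mem_sup_left ⟨D, hD, rfl⟩
    · exact Submodule.mem_sup_right hp
  rw [stab_span Δ Rel hstab] at hrRel
  -- the vectors of `Rel` with constant coordinates kill `ann U`
  have hgen : ∀ v, v ∈ Rel → (∀ i, v i ∈ consts Δ) → ∑ i, v i * x i = 0 := by
    intro v hv hvC
    rw [hRel] at hv
    obtain ⟨m, e, q, heC, heind, hcq⟩ := aaxc_int_basis (consts Δ) v hvC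
    let u : Fin m → ℂ := fun k => mon b (fun j => q j k)
    have hu : ∀ k, u k ≠ 0 := fun k => mon_ne_zero hb _
    have hDu : ∀ (D : Derivation ℤ ℂ ℂ) k, D (u k) / u k = ∑ j, (q j k : ℂ) * lev b D j :=
      fun D k => der_mon hb D _
    have halg : ∀ k, IsAlgebraic (consts Δ) (u k) := by
      refine residue (consts Δ) e heC heind u hu 0 ?_
      intro D hD
      rw [map_zero, ← hv.1 D hD]
      calc ∑ k, e k * (D (u k) / u k) = ∑ k, ∑ j, e k * ((q j k : ℂ) * lev b D j) := by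
            refine Finset.sum_congr rfl fun k _ => ?_
            rw [hDu, Finset.mul_sum]
        _ = ∑ j, ∑ k, e k * ((q j k : ℂ) * lev b D j) := Finset.sum_comm
        _ = ∑ j, v j * lev b D j := by
            refine Finset.sum_congr rfl fun j _ => ?_
            rw [hcq j, Finset.sum_mul]
            refine Finset.sum_congr rfl fun k _ => ?_
            ring
    have hqU : ∀ k, qv (fun j => q j k) ∈ U := by
      intro k
      rw [hU]
      intro D hD
      have h1 : D (u k) = 0 := (consts_algebraic Δ (u k) (halg k)) D hD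
      have h2 := hDu D k
      rw [h1, zero_div] at h2
      rw [h2]
      refine Finset.sum_congr rfl fun j _ => ?_
      simp [qv]
    calc ∑ j, v j * x j = ∑ j, ∑ k, e k * ((q j k : ℂ) * x j) := by
          refine Finset.sum_congr rfl fun j _ => ?_
          rw [hcq j, Finset.sum_mul]
          refine Finset.sum_congr rfl fun k _ => ?_
          ring
      _ = ∑ k, ∑ j, e k * ((q j k : ℂ) * x j) := Finset.sum_comm
      _ = 0 := by
          refine Finset.sum_eq_zero fun k _ => ?_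
          rw [← Finset.mul_sum]
          have h3 := hx _ (hqU k)
          have h4 : ∑ j, (q j k : ℂ) * x j = 0 := by
            rw [← h3]
            refine Finset.sum_congr rfl fun j _ => ?_
            simp [qv]
          rw [h4, mul_zero]
  clear hr
  induction hrRel using Submodule.span_induction with
  | mem v hv => exact hgen v hv.1 hv.2
  | zero => simp
  | add v w _ _ hv hw =>
    simp only [Pi.add_apply, add_mul, Finset.sum_add_distrib]
    rw [hv, hw, add_zero]
  | smul c v _ hv =>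
    simp only [Pi.smul_apply, smul_eq_mul, mul_assoc]
    rw [← Finset.mul_sum, hv, mul_zero]

end Pool.Agent.EXL
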