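import Pool.Agent.EXI.AAnn
import Pool.Agent.EXL.Ax

/-!
# EXI / AAxd: the theorem of Ax and the rotundity condition (AXD)

PROOF.  Let `Δ ≤ DerOver k` be the space of the `D` with `D z_i = z_i D x_i` for all `i`, and
`C₀ = consts Δ` (`k ≤ C₀`). Let `U' = {u ∈ ℚ^κ | ∑ u_i x_i ∈ C₀}` (a rational subspace), `U''` a
complement of `U'` in `ℚ^κ`, `w' : Fin r → κ → ℤ`, `w'' : Fin s → κ → ℤ` integral bases of `U'`, `U''`
(`exists_int_basis_sub`), `r + s = card κ`. For `D ∈ Δ` and integral `u`: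
`D (mon z u) / mon z u = ∑ u_i D z_i / z_i = D (∑ u_i x_i)` (`der_mon`), so
`x' = (w'_i . x)`, `z' = (mon z w'_i)` have coordinates in `C₀`. `hrot` for `w'`:
`r ≤ td k (Sum.elim x' z')`. Put `x'' = (w''_i . x)`, `z'' = (mon z w''_i)`; `ax` (EXL/Ax) for
`Δ, x'', z''`: its hypothesis `hab` holds by the same formula, `hind`: if `∑ q_i x''_i ∈ C₀` then
`∑ q_i w''_i ∈ U' ⊓ U'' = ⊥`, `q = 0`. So `s + rk Δ x'' ≤ td C₀ (Sum.elim x'' z'')`.
`rk Δ x ≤ rk Δ x''` (`rk_le_of_dep`: if `D ∈ Δ` kills `x''` then `u . (D x) = 0` for `u ∈ U''`, and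
for `u ∈ U'` anyway, so for all `u ∈ ℚ^κ`: `D x = 0`).
`td C₀ (Sum.elim x'' z'') ≤ td C₀ (Sum.elim x z)` (`rk_le_of_dep`),
`td k (Sum.elim x z) = td k (Sum.elim (Sum.elim x' z') (Sum.elim x z))` (`rk_eq_of_dep`)
`= td k (Sum.elim x' z') + td (k ∪ range (Sum.elim x' z')) (Sum.elim x z)` (`td_sum`)
`≥ r + td C₀ (Sum.elim x z)` (`td_anti`: `k ∪ range ⊆ C₀`) `≥ r + s + rk Δ x = card κ + rk Δ x`. With
`htd`: `rk Δ x = 0` and `td k (Sum.elim x z) = card κ`; `rk_eq_zero_iff` gives the second statement.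
-/

set_option autoImplicit false

namespace Pool.Agent.EXL

open Module

/-- The derivations over `k` which are compatible with the exponential relation of `(x, z)`. -/
private noncomputable def axD (k : Subfield ℂ) {κ : Type} (x z : κ → ℂ) :
    Submodule ℂ (Derivation ℤ ℂ ℂ) where
  carrier := {D | D ∈ DerOver (k : Set ℂ) ∧ ∀ i, D (z i) = z i * D (x i)}
  add_mem' := by
    rintro D D' ⟨h1, h2⟩ ⟨h1', h2'⟩
    refine ⟨add_mem h1 h1', fun i => ?_⟩
    rw [Derivation.add_apply, Derivation.add_apply, h2, h2', mul_add]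
  zero_mem' := ⟨zero_mem _, fun i => by simp⟩
  smul_mem' := by
    rintro c D ⟨h1, h2⟩
    refine ⟨Submodule.smul_mem _ c h1, fun i => ?_⟩
    rw [Derivation.smul_apply, Derivation.smul_apply, h2, smul_eq_mul, smul_eq_mul]
    ring

/-- The rational relations of the `x i` modulo a subfield. -/
private noncomputable def axU {κ : Type} [Fintype κ] (C : Subfield ℂ) (x : κ → ℂ) :
    Submodule ℚ (κ → ℚ) where
  carrier := {u | ∑ i, (u i : ℂ) * x i ∈ C}
  add_mem' := by
    intro u v hu hv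
    have h1 : ∑ i, (((u + v) i : ℚ) : ℂ) * x i = ∑ i, (u i : ℂ) * x i + ∑ i, (v i : ℂ) * x i := by
      rw [← Finset.sum_add_distrib]
      refine Finset.sum_congr rfl fun i _ => ?_
      rw [Pi.add_apply]
      push_cast
      ring
    change ∑ i, (((u + v) i : ℚ) : ℂ) * x i ∈ C
    rw [h1]
    exact add_mem hu hv
  zero_mem' := by
    change ∑ i, (((0 : κ → ℚ) i : ℚ) : ℂ) * x i ∈ C
    simp
  smul_mem' := by
    intro c u hu
    have h1 : ∑ i, (((c • u) i : ℚ) : ℂ) * x i = (c : ℂ) * ∑ i, (u i : ℂ) * x i := by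
      rw [Finset.mul_sum]
      refine Finset.sum_congr rfl fun i _ => ?_
      rw [Pi.smul_apply, smul_eq_mul]
      push_cast
      ring
    change ∑ i, (((c • u) i : ℚ) : ℂ) * x i ∈ C
    rw [h1]
    exact mul_mem (SubfieldClass.ratCast_mem C c) hu

theorem axd (k : Subfield ℂ) {κ : Type} [Fintype κ] (x z : κ → ℂ) (hz : ∀ i, z i ≠ 0)
    (htd : td (k : Set ℂ) (Sum.elim x z) ≤ Fintype.card κ)
    (hrot : ∀ (s : ℕ) (w : Fin s → κ → ℤ), LinearIndependent ℚ (fun i => qv (w i)) →
      s ≤ td (k : Set ℂ) (Sum.elim (fun i => ∑ j, (w i j : ℂ) * x j) fun i => mon z (w i))) :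
    td (k : Set ℂ) (Sum.elim x z) = Fintype.card κ ∧
      ∀ D ∈ DerOver (k : Set ℂ), (∀ j, D (z j) = z j * D (x j)) → ∀ j, D (x j) = 0 := by
  classical
  set Δ := axD k x z with hΔ
  set C₀ := consts Δ with hC₀
  have hkC : (k : Set ℂ) ⊆ (C₀ : Set ℂ) := fun c hc D hD => hD.1 c hc
  set U' := axU C₀ x with hU'
  obtain ⟨U'', hU⟩ := Submodule.exists_isCompl U'
  obtain ⟨w', hw', hsp'⟩ := exists_int_basis_sub U'
  obtain ⟨w'', hw'', hsp''⟩ := exists_int_basis_sub U''
  have hrs : finrank ℚ U' + finrank ℚ U'' = Fintype.card κ := by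
    have := Submodule.finrank_add_eq_of_isCompl hU
    rwa [Module.finrank_pi] at this
  have hmon : ∀ D ∈ Δ, ∀ u : κ → ℤ, D (mon z u) / mon z u = D (∑ i, (u i : ℂ) * x i) := by
    intro D hD u
    rw [der_mon hz D u, map_sum]
    refine Finset.sum_congr rfl fun i _ => ?_
    rw [Derivation.leibniz, smul_eq_mul, smul_eq_mul, Derivation.map_intCast, mul_zero, add_zero,
      lev_apply, hD.2 i, mul_div_cancel_left₀ _ (hz i)]
  have hmem' : ∀ i, qv (w' i) ∈ U' := by
    intro i
    rw [← hsp']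
    exact Submodule.subset_span ⟨i, rfl⟩
  have hmem'' : ∀ i, qv (w'' i) ∈ U'' := by
    intro i
    rw [← hsp'']
    exact Submodule.subset_span ⟨i, rfl⟩
  have hcast : ∀ u : κ → ℤ, ∑ j, ((qv u j : ℚ) : ℂ) * x j = ∑ j, (u j : ℂ) * x j := by
    intro u
    refine Finset.sum_congr rfl fun j _ => ?_
    simp [qv]
  set x' : Fin (finrank ℚ U') → ℂ := fun i => ∑ j, (w' i j : ℂ) * x j with hx'
  set z' : Fin (finrank ℚ U') → ℂ := fun i => mon z (w' i) with hz'
  set x'' : Fin (finrank ℚ U'') → ℂ := fun i => ∑ j, (w'' i j : ℂ) * x j with hx''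
  set z'' : Fin (finrank ℚ U'') → ℂ := fun i => mon z (w'' i) with hz''
  have hx'C : ∀ i, x' i ∈ C₀ := by
    intro i
    have h1 : ∑ j, ((qv (w' i) j : ℚ) : ℂ) * x j ∈ C₀ := hmem' i
    rwa [hcast] at h1
  have hz'C : ∀ i, z' i ∈ C₀ := by
    intro i D hD
    have h1 := hmon D hD (w' i)
    rw [show D (∑ j, (w' i j : ℂ) * x j) = 0 from hx'C i D hD, div_eq_zero_iff] at h1
    exact h1.resolve_right (mon_ne_zero hz _)
  have hr1 : finrank ℚ U' ≤ td (k : Set ℂ) (Sum.elim x' z') := hrot _ w' hw'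
  have hax := ax Δ x'' z'' (fun i => mon_ne_zero hz _) (by
      intro D hD i
      have h1 := hmon D hD (w'' i)
      rw [div_eq_iff (mon_ne_zero hz _)] at h1
      rw [hz'', hx'']
      simp only
      rw [h1, mul_comm]) (by
      intro q hq
      have h1 : ∑ j, (q j : ℚ) • qv (w'' j) ∈ U'' :=
        Submodule.sum_mem _ fun j _ => Submodule.smul_mem _ _ (hmem'' j)
      have h2 : ∑ j, (q j : ℚ) • qv (w'' j) ∈ U' := by
        change ∑ l, (((∑ j, (q j : ℚ) • qv (w'' j)) l : ℚ) : ℂ) * x l ∈ C₀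
        have h3 : ∑ l, (((∑ j, (q j : ℚ) • qv (w'' j)) l : ℚ) : ℂ) * x l =
            ∑ j, (q j : ℂ) * x'' j := by
          simp only [hx'', Finset.mul_sum, Finset.sum_apply, Pi.smul_apply, smul_eq_mul, qv,
            Rat.cast_sum, Rat.cast_mul, Rat.cast_intCast, Finset.sum_mul]
          rw [Finset.sum_comm]
          refine Finset.sum_congr rfl fun j _ => Finset.sum_congr rfl fun l _ => ?_
          ring
        rw [h3]
        exact hq
      have h4 : ∑ j, (q j : ℚ) • qv (w'' j) = 0 := by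
        have h5 := hU.disjoint.le_bot ⟨h2, h1⟩
        exact h5
      have h6 := Fintype.linearIndependent_iff.1 hw'' (fun j => (q j : ℚ)) h4
      funext j
      exact_mod_cast h6 j)
  have hrk : rk Δ x ≤ rk Δ x'' := by
    refine rk_le_of_dep _ _ _ ?_
    intro D hD hDx j
    have h1 : (fun l => D (x l)) ∈ ann U' := by
      rw [← hsp', mem_ann_span]
      intro i
      have h2 := hx'C i D hD
      rw [hx'] at h2
      simp only at h2
      rw [map_sum] at h2
      rw [← h2]
      refine Finset.sum_congr rfl fun l _ => ?_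
      rw [Derivation.leibniz, smul_eq_mul, smul_eq_mul, Derivation.map_intCast, mul_zero, add_zero]
    have h3 : (fun l => D (x l)) ∈ ann U'' := by
      rw [← hsp'', mem_ann_span]
      intro i
      have h2 := hDx i
      rw [hx''] at h2
      simp only at h2
      rw [map_sum] at h2
      rw [← h2]
      refine Finset.sum_congr rfl fun l _ => ?_
      rw [Derivation.leibniz, smul_eq_mul, smul_eq_mul, Derivation.map_intCast, mul_zero, add_zero]
    have h4 : (fun l => D (x l)) ∈ ann (⊤ : Submodule ℚ (κ → ℚ)) := by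
      rw [← hU.sup_eq_top, ann_sup]
      exact ⟨h1, h3⟩
    have h5 := h4 (Pi.single j 1) Submodule.mem_top
    rw [Finset.sum_eq_single j] at h5
    · simpa using h5
    · intro l _ hl
      rw [Pi.single_eq_of_ne hl]
      simp
    · intro h
      exact absurd (Finset.mem_univ j) h
  -- killing
  have hkill : ∀ D : Derivation ℤ ℂ ℂ, (∀ i, D (Sum.elim x z i) = 0) → ∀ u : κ → ℤ,
      D (∑ j, (u j : ℂ) * x j) = 0 ∧ D (mon z u) = 0 := by
    intro D hD u
    constructor
    · rw [map_sum]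
      refine Finset.sum_eq_zero fun l _ => ?_
      have := hD (Sum.inl l)
      rw [Sum.elim_inl] at this
      rw [Derivation.leibniz, smul_eq_mul, smul_eq_mul, Derivation.map_intCast, this]
      ring
    · have h1 := der_mon hz D u
      have h2 : ∑ j, (u j : ℂ) * lev z D j = 0 := by
        refine Finset.sum_eq_zero fun l _ => ?_
        have := hD (Sum.inr l)
        rw [Sum.elim_inr] at this
        rw [lev_apply, this, zero_div, mul_zero]
      rw [h2, div_eq_zero_iff] at h1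
      exact h1.resolve_right (mon_ne_zero hz _)
  have e1 : td (C₀ : Set ℂ) (Sum.elim x'' z'') ≤ td (C₀ : Set ℂ) (Sum.elim x z) := by
    refine rk_le_of_dep _ _ _ ?_
    intro D _ hD i
    rcases i with i | i
    · exact (hkill D hD (w'' i)).1
    · exact (hkill D hD (w'' i)).2
  have e2 : td (k : Set ℂ) (Sum.elim x z) =
      td (k : Set ℂ) (Sum.elim (Sum.elim x' z') (Sum.elim x z)) := by
    refine rk_eq_of_dep _ _ _ ?_ ?_
    · intro D _ hD i
      rcases i with (i | i) | i
      · exact (hkill D hD (w' i)).1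
      · exact (hkill D hD (w' i)).2
      · exact hD i
    · intro D _ hD i
      exact hD (Sum.inr i)
  have e3 := td_sum (k : Set ℂ) (Sum.elim x' z') (Sum.elim x z)
  have e4 : td (C₀ : Set ℂ) (Sum.elim x z) ≤
      td ((k : Set ℂ) ∪ Set.range (Sum.elim x' z')) (Sum.elim x z) := by
    refine td_anti ?_ _
    rintro c (hc | ⟨i, rfl⟩)
    · exact hkC hc
    · rcases i with i | i
      · exact hx'C i
      · exact hz'C i
  rw [Fintype.card_fin, ← hC₀] at hax
  have e5 : rk Δ x = 0 := by omega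
  refine ⟨by omega, ?_⟩
  intro D hD hDz j
  exact (rk_eq_zero_iff Δ x).1 e5 D ⟨hD, hDz⟩ j

end Pool.Agent.EXL
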