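import Pool.Agent.EXI.AAxc

/-!
# EXI / AAxt: the relative theorem of Ax (AXT)

PROOF.  `Δ := {D ∈ DerOver K | lev b D ∈ P}` (a subspace), `C₀ = consts Δ`,
`U := {u | ∀ D ∈ Δ, ∑ u_i lev b D i = 0}` (a rational subspace). `W₀ := lev b (DerOver C₀)`.
`W₀ ≤ BB := lev b (DerOver K)` since `K ≤ C₀`. `W₀ ≤ ann U`: for integral `u ∈ U` and `D ∈ Δ`
`D (mon b u) = 0` (`der_mon`), so `mon b u ∈ C₀` and `∑ u_i lev b D i = 0` for `D ∈ DerOver C₀`
(`mem_ann_iff_int`). By `axt_claim` `ann U = W₀ ⊔ (P ⊓ ann U)`, so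
`dim ann U + dim (W₀ ⊓ (P ⊓ ann U)) = dim W₀ + dim (P ⊓ ann U) ≤ dim (BB ⊓ ann U) +
dim (P ⊓ ann U)` (`Submodule.finrank_sup_add_finrank_inf_eq`). `W₀ ⊓ (P ⊓ ann U)` contains
`BB ⊓ P ≠ ⊥`: an element is `lev b D` with `D ∈ Δ ≤ DerOver C₀`, and it is in `W₀ ≤ ann U`. So its
dimension is at least 1. Finally `dim ann U + dim U = card ι` (`finrank_ann`).
-/

set_option autoImplicit false

namespace Pool.Agent.EXL

open Module

variable {ι : Type} [Fintype ι]

theorem axt (K : Subfield ℂ) (b : ι → ℂ) (hb : ∀ j, b j ≠ 0) (P : Submodule ℂ (ι → ℂ))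
    (hP : Stab (DerOver (K : Set ℂ)) P)
    (hne : (DerOver (K : Set ℂ)).map (lev b) ⊓ P ≠ ⊥) :
    ∃ U : Submodule ℚ (ι → ℚ), Fintype.card ι + 1 ≤ ee ((DerOver (K : Set ℂ)).map (lev b)) P U := by
  classical
  let Δ : Submodule ℂ (Derivation ℤ ℂ ℂ) := DerOver (K : Set ℂ) ⊓ P.comap (lev b)
  have hΔ : ∀ D, D ∈ Δ ↔ D ∈ DerOver (K : Set ℂ) ∧ lev b D ∈ P := fun D => Iff.rfl
  let U : Submodule ℚ (ι → ℚ) :=
    { carrier := {u | ∀ D ∈ Δ, ∑ i, (u i : ℂ) * lev b D i = 0}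
      add_mem' := by
        intro u v hu hv D hD
        have h1 : ∑ i, (((u + v) i : ℚ) : ℂ) * lev b D i =
            ∑ i, (u i : ℂ) * lev b D i + ∑ i, (v i : ℂ) * lev b D i := by
          rw [← Finset.sum_add_distrib]
          refine Finset.sum_congr rfl fun i _ => ?_
          rw [Pi.add_apply]
          push_cast
          ring
        rw [h1, hu D hD, hv D hD, add_zero]
      zero_mem' := by
        intro D _
        refine Finset.sum_eq_zero fun i _ => ?_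
        rw [Pi.zero_apply, Rat.cast_zero, zero_mul]
      smul_mem' := by
        intro c u hu D hD
        have h1 : ∑ i, (((c • u) i : ℚ) : ℂ) * lev b D i =
            (c : ℂ) * ∑ i, (u i : ℂ) * lev b D i := by
          rw [Finset.mul_sum]
          refine Finset.sum_congr rfl fun i _ => ?_
          rw [Pi.smul_apply, smul_eq_mul]
          push_cast
          ring
        rw [h1, hu D hD, mul_zero] }
  have hU : ∀ u : ι → ℚ, u ∈ U ↔ ∀ D ∈ Δ, ∑ i, (u i : ℂ) * lev b D i = 0 := fun u => Iff.rfl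
  have hclaim := axt_claim K b hb P hP Δ hΔ U hU
  refine ⟨U, ?_⟩
  set W : Submodule ℂ (ι → ℂ) := (DerOver (consts Δ : Set ℂ)).map (lev b) with hW
  set B : Submodule ℂ (ι → ℂ) := (DerOver (K : Set ℂ)).map (lev b) with hB
  have hKC : DerOver (consts Δ : Set ℂ) ≤ DerOver (K : Set ℂ) := by
    intro D hD x hx
    exact hD x (fun D' hD' => ((hΔ D').1 hD').1 x hx)
  have hWB : W ≤ B := Submodule.map_mono hKC
  have hWU : W ≤ ann U := by
    rintro _ ⟨D, hD, rfl⟩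
    rw [mem_ann_iff_int]
    intro u hu
    have hmon : mon b u ∈ consts Δ := by
      intro D' hD'
      have h1 := hu D' hD'
      have h2 := der_mon hb D' u
      have h3 : ∑ j, (u j : ℂ) * lev b D' j = 0 := by
        rw [← h1]
        refine Finset.sum_congr rfl fun j _ => ?_
        simp [qv]
      rw [h3] at h2
      rcases div_eq_zero_iff.1 h2 with h4 | h4
      · exact h4
      · exact absurd h4 (mon_ne_zero hb u)
    have h5 := der_mon hb D u
    rw [hD _ hmon, zero_div] at h5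
    exact h5.symm
  have hBP : B ⊓ P ≤ W ⊓ (P ⊓ ann U) := by
    rintro _ ⟨⟨D, hD, rfl⟩, hx⟩
    have hDΔ : D ∈ Δ := ⟨hD, hx⟩
    refine ⟨⟨D, fun c hc => hc D hDΔ, rfl⟩, hx, fun u hu => hu D hDΔ⟩
  have hpos : 1 ≤ finrank ℂ (W ⊓ (P ⊓ ann U) : Submodule ℂ (ι → ℂ)) := by
    rw [Nat.one_le_iff_ne_zero]
    intro h0
    have h1 : (W ⊓ (P ⊓ ann U) : Submodule ℂ (ι → ℂ)) = ⊥ := Submodule.finrank_eq_zero.1 h0
    exact hne (eq_bot_iff.2 (hBP.trans h1.le))
  have h1 := Submodule.finrank_sup_add_finrank_inf_eq W (P ⊓ ann U)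
  have h2 : finrank ℂ (ann U) ≤ finrank ℂ (W ⊔ (P ⊓ ann U) : Submodule ℂ (ι → ℂ)) :=
    Submodule.finrank_mono hclaim
  have h3 : finrank ℂ W ≤ finrank ℂ (B ⊓ ann U : Submodule ℂ (ι → ℂ)) :=
    Submodule.finrank_mono (le_inf hWB hWU)
  have h4 := finrank_ann U
  unfold ee
  omega

end Pool.Agent.EXL
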