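import Pool.Agent.EXI.AAnn

/-!
# EXI / ARot: the rotundity condition (ROT)

PROOF.  Let `x_i = ∑_j w i j a_j`, `z_i = mon ub (w i)`. The linear map
`Φ : DerOver k → ℂ^s`, `D ↦ (D x_i - ε D z_i / z_i)_i` is surjective: given `c ∈ ℂ^s` choose
`v ∈ ℂ^ι` with `w_i . v = c_i` (`dot_surjective`) and write `v = ev a D - ε lev ub D + c' m`; then
`c_i = w_i . v = D x_i - ε (D z_i / z_i) + 0` (`der_mon`, `hm`). `Φ` factors through
`D ↦ ev (Sum.elim x z) D`: `Φ = L ∘ ev (Sum.elim x z)` with the linear map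
`L v = (v (inl i) - ε v (inr i) / z_i)_i`. So `s = finrank ℂ^s ≤ finrank ((DerOver k).map
(ev (Sum.elim x z))) = td k (Sum.elim x z)` (`Submodule.finrank_map_le`).
-/

set_option autoImplicit false

namespace Pool.Agent.EXL

open Module

variable {ι : Type} [Fintype ι]

theorem rot (k : Subfield ℂ) (a ub : ι → ℂ) (hub : ∀ j, ub j ≠ 0) (m : ι → ℤ) (ε : ℂ)
    (hs : ∀ v : ι → ℂ, ∃ D ∈ DerOver (k : Set ℂ), ∃ c : ℂ,
      v = ev a D - ε • lev ub D + c • fun j => (m j : ℂ))
    {s : ℕ} (w : Fin s → ι → ℤ) (hw : LinearIndependent ℚ (fun i => qv (w i)))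
    (hm : ∀ i, ∑ j, w i j * m j = 0) :
    s ≤ td (k : Set ℂ) (Sum.elim (fun i => ∑ j, (w i j : ℂ) * a j) fun i => mon ub (w i)) := by
  set x : Fin s → ℂ := fun i => ∑ j, (w i j : ℂ) * a j with hx
  set z : Fin s → ℂ := fun i => mon ub (w i) with hz
  let L : (Fin s ⊕ Fin s → ℂ) →ₗ[ℂ] (Fin s → ℂ) :=
    { toFun := fun v i => v (Sum.inl i) - ε * (v (Sum.inr i) / z i)
      map_add' := by
        intro v v'
        funext i
        simp only [Pi.add_apply]
        ring
      map_smul' := by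
        intro c v
        funext i
        simp only [Pi.smul_apply, smul_eq_mul, RingHom.id_apply]
        ring }
  have htop : ((DerOver (k : Set ℂ)).map (ev (Sum.elim x z))).map L = ⊤ := by
    rw [eq_top_iff]
    intro c _
    obtain ⟨v, hv⟩ := dot_surjective w hw c
    obtain ⟨D, hD, c', hDv⟩ := hs v
    refine ⟨ev (Sum.elim x z) D, ⟨D, hD, rfl⟩, ?_⟩
    funext i
    change D (x i) - ε * (D (z i) / z i) = c i
    have h1 : D (x i) = ∑ j, (w i j : ℂ) * D (a j) := by
      rw [hx]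
      simp only
      rw [map_sum]
      refine Finset.sum_congr rfl fun j _ => ?_
      rw [Derivation.leibniz, smul_eq_mul, smul_eq_mul, Derivation.map_intCast, mul_zero, add_zero]
    have h2 : D (z i) / z i = ∑ j, (w i j : ℂ) * lev ub D j := der_mon hub D (w i)
    have h3 : ∑ j, (w i j : ℂ) * (m j : ℂ) = 0 := by
      have := congrArg (fun t : ℤ => (t : ℂ)) (hm i)
      simpa using this
    have h4 : c i = ∑ j, (w i j : ℂ) * D (a j) - ε * (∑ j, (w i j : ℂ) * lev ub D j) +
        c' * ∑ j, (w i j : ℂ) * (m j : ℂ) := by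
      rw [← hv i, hDv, Finset.mul_sum, Finset.mul_sum, ← Finset.sum_sub_distrib,
        ← Finset.sum_add_distrib]
      refine Finset.sum_congr rfl fun j _ => ?_
      simp only [Pi.add_apply, Pi.sub_apply, Pi.smul_apply, smul_eq_mul]
      change (w i j : ℂ) * (D (a j) - _ + _) = _
      ring
    rw [h1, h2, h4, h3, mul_zero, add_zero]
  have h5 := Submodule.finrank_map_le L ((DerOver (k : Set ℂ)).map (ev (Sum.elim x z)))
  rw [htop, finrank_top, Module.finrank_pi, Fintype.card_fin] at h5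
  exact h5

end Pool.Agent.EXL
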