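import Pool.Agent.EXI.CDefs
import Pool.Agent.EXI.ARot
import Pool.Agent.EXI.AAxd

/-!
# EXI / ABr: the hypothesis for the residues
-/

set_option autoImplicit false

namespace Pool.Agent.EXI

open Pool.Agent.EXL

lemma powZ_eq_mon {n : ℕ} (U : Matrix (Fin n) (Fin n) ℤ) (b : Fin n → ℂ) (j : Fin n) :
    powZ U b j = mon b (U j) := rfl

private lemma zpow_sum' {κ : Type} (s : Finset κ) (x : ℂ) (hx : x ≠ 0) (f : κ → ℤ) :
    x ^ (∑ j ∈ s, f j) = ∏ j ∈ s, x ^ f j := by
  classical
  induction s using Finset.induction_on with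
  | empty => simp
  | insert j s hj ih => rw [Finset.sum_insert hj, Finset.prod_insert hj, zpow_add₀ hx, ih]

/-- Composition of an integral family with the last rows of `U`. -/
private def comp {m s : ℕ} (U : Matrix (Fin (m + 1)) (Fin (m + 1)) ℤ) (w : Fin s → Fin m → ℤ) :
    Fin s → Fin (m + 1) → ℤ := fun i l => ∑ j, w i j * U j.succ l

private lemma comp_li {m s : ℕ} (U : Matrix (Fin (m + 1)) (Fin (m + 1)) ℤ) (hdet : IsUnit U.det)
    (w : Fin s → Fin m → ℤ) (hw : LinearIndependent ℚ (fun i => qv (w i))) :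
    LinearIndependent ℚ (fun i => qv (comp U w i)) := by
  rw [Fintype.linearIndependent_iff] at hw ⊢
  intro c hc
  apply hw c
  let v : Fin (m + 1) → ℚ := Fin.cons 0 (∑ i, c i • qv (w i))
  have hdet' : (U.map (Int.cast : ℤ → ℚ)).det ≠ 0 := by
    have h1 : (U.map (Int.cast : ℤ → ℚ)).det = ((U.det : ℤ) : ℚ) := by
      exact (Int.cast_det U).symm
    rw [h1]
    exact_mod_cast hdet.ne_zero
  have hv : Matrix.vecMul v (U.map (Int.cast : ℤ → ℚ)) = 0 := by
    funext l
    have h1 := congrFun hc l
    simp only [Finset.sum_apply, Pi.smul_apply, smul_eq_mul, qv, comp, Pi.zero_apply] at h1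
    rw [Matrix.vecMul, dotProduct, Fin.sum_univ_succ]
    simp only [v, Fin.cons_zero, zero_mul, Fin.cons_succ, zero_add, Matrix.map_apply,
      Finset.sum_apply, Pi.smul_apply, smul_eq_mul, qv, Pi.zero_apply]
    rw [← h1]
    simp only [Finset.sum_mul]
    rw [Finset.sum_comm]
    refine Finset.sum_congr rfl fun i _ => ?_
    push_cast
    rw [Finset.mul_sum]
    refine Finset.sum_congr rfl fun j _ => ?_
    ring
  have hv0 := Matrix.eq_zero_of_vecMul_eq_zero hdet' hv
  funext j
  have := congrFun hv0 j.succ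
  simpa [v] using this

theorem hyp_residue (k : Subfield ℂ) {m : ℕ} (a ub : Fin (m + 1) → ℂ) (hub : ∀ j, ub j ≠ 0)
    (mm : Fin (m + 1) → ℤ) (ε : ℂ)
    (hs : ∀ v : Fin (m + 1) → ℂ, ∃ D ∈ DerOver (k : Set ℂ), ∃ c : ℂ,
      v = ev a D - ε • lev ub D + c • fun j => (mm j : ℂ))
    (htd : td (k : Set ℂ) (Sum.elim a ub) ≤ m)
    (U : Matrix (Fin (m + 1)) (Fin (m + 1)) ℤ) (hdet : IsUnit U.det)
    (horth : ∀ j : Fin m, ∑ i, U j.succ i * mm i = 0) :
    Hyp k (fun j : Fin m => linZ U a j.succ) (fun j => powZ U ub j.succ) := by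
  have hz : ∀ j : Fin m, powZ U ub j.succ ≠ 0 := fun j => mon_ne_zero hub (U j.succ)
  have htd' : td (k : Set ℂ) (Sum.elim (fun j : Fin m => linZ U a j.succ)
      (fun j : Fin m => powZ U ub j.succ)) ≤ td (k : Set ℂ) (Sum.elim a ub) := by
    apply rk_le_of_dep
    intro D _ h0
    have ha : ∀ j, D (a j) = 0 := fun j => h0 (Sum.inl j)
    have hu : ∀ j, D (ub j) = 0 := fun j => h0 (Sum.inr j)
    intro j'
    rcases j' with j | j
    · change D (∑ i, (U (Fin.succ j) i : ℂ) * a i) = 0
      rw [map_sum]
      refine Finset.sum_eq_zero fun i _ => ?_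
      rw [Derivation.leibniz, ha, smul_zero, Derivation.map_intCast, smul_zero, add_zero]
    · change D (mon ub (U j.succ)) = 0
      have h1 := der_mon hub D (U j.succ)
      have h2 : ∑ i, (U j.succ i : ℂ) * lev ub D i = 0 := by
        refine Finset.sum_eq_zero fun i _ => ?_
        rw [lev_apply, hu, zero_div, mul_zero]
      rw [h2, div_eq_zero_iff] at h1
      exact h1.resolve_right (mon_ne_zero hub _)
  have key := axd k (fun j : Fin m => linZ U a j.succ) (fun j : Fin m => powZ U ub j.succ) hz
    (by rw [Fintype.card_fin]; exact htd'.trans htd) (by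
      intro s w hw
      have h1 := rot k a ub hub mm ε hs (comp U w) (comp_li U hdet w hw) (by
        intro i
        simp only [comp, Finset.sum_mul]
        rw [Finset.sum_comm]
        refine Finset.sum_eq_zero fun j _ => ?_
        have h2 : ∑ l, w i j * U j.succ l * mm l = w i j * ∑ l, U j.succ l * mm l := by
          rw [Finset.mul_sum]
          refine Finset.sum_congr rfl fun l _ => ?_
          ring
        rw [h2, horth, mul_zero])
      have h3 : (fun i => ∑ j, (w i j : ℂ) * linZ U a j.succ) =
          fun i => ∑ l, (comp U w i l : ℂ) * a l := by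
        funext i
        simp only [comp, linZ, Finset.mul_sum]
        rw [Finset.sum_comm]
        refine Finset.sum_congr rfl fun l _ => ?_
        push_cast
        rw [Finset.sum_mul]
        refine Finset.sum_congr rfl fun j _ => ?_
        ring
      have h4 : (fun i => mon (fun j : Fin m => powZ U ub j.succ) (w i)) =
          fun i => mon ub (comp U w i) := by
        funext i
        simp only [mon, powZ, comp, ← Finset.prod_zpow]
        rw [Finset.prod_comm]
        refine Finset.prod_congr rfl fun l _ => ?_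
        rw [zpow_sum' _ _ (hub l)]
        refine Finset.prod_congr rfl fun j _ => ?_
        rw [← zpow_mul, mul_comm]
      rw [h3, h4]
      exact h1)
  rw [Fintype.card_fin] at key
  exact ⟨hz, key.1, key.2⟩

end Pool.Agent.EXI
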