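import Pool.Agent.EXI.AMin

/-!
# EXI / AComp: the complement `P` of `BB_U`

PROOF.  Take `U` from `exists_min` and `U'` from `exists_compl_ann U`. By `dim_PU`,
`finrank (P_U ⊔ BB_U) = finrank P_U + finrank BB_U = card ι - finrank U = finrank (ann U)`
(`finrank_ann`) and `P_U ⊔ BB_U ≤ ann U`, so `P_U ⊔ BB_U = ann U`. Put `P = P_U ⊔ ann U'`: stable
(`stab_PU`, `ann_stab`; a sum of stable subspaces is stable). `P ⊔ BB_U = ann U ⊔ ann U' = ⊤`, and
`finrank P + finrank BB_U ≤ finrank P_U + finrank (ann U') + finrank BB_U = card ι`, so `P` and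
`BB_U` are disjoint.
-/

set_option autoImplicit false

namespace Pool.Agent.EXL

open Module

variable {ι : Type} [Fintype ι]

theorem exists_P (k : Subfield ℂ) (a b : ι → ℂ) (h : HypA k a b)
    (hlt : td (k : Set ℂ) a < Fintype.card ι) :
    ∃ (U : Submodule ℚ (ι → ℚ)) (P : Submodule ℂ (ι → ℂ)), InjU k a b U ∧
      1 ≤ finrank ℂ (BB k a b U) ∧ PU k a b U ⊓ BB k a b U = ⊥ ∧ PU k a b U ≤ P ∧
      Stab (DerOver (KU k a b U : Set ℂ)) P ∧ IsCompl P (BB k a b U) := by
  obtain ⟨U, hU1, hU2, hU3⟩ := exists_min k a b h hlt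
  obtain ⟨U', hU'⟩ := exists_compl_ann U
  have hsup : PU k a b U ⊔ BB k a b U = ann U := by
    refine Submodule.eq_of_le_of_finrank_eq (sup_le (PU_le_ann k a b U) (BB_le_ann h.1 U)) ?_
    have h1 := dim_PU k a b h U hU1
    have h2 := finrank_ann U
    have h3 := Submodule.finrank_sup_add_finrank_inf_eq (PU k a b U) (BB k a b U)
    rw [hU3, finrank_bot] at h3
    omega
  refine ⟨U, PU k a b U ⊔ ann U', hU1, hU2, hU3, le_sup_left, ?_, ?_, ?_⟩
  · intro D hD v hv
    obtain ⟨x, hx, y, hy, rfl⟩ := Submodule.mem_sup.1 hv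
    have e : (fun i => D ((x + y) i)) = (fun i => D (x i)) + fun i => D (y i) := by
      funext i
      simp only [Pi.add_apply, map_add]
    rw [e]
    exact Submodule.add_mem_sup (stab_PU k a b h.1 U D hD x hx) (ann_stab U' D hy)
  · rw [disjoint_iff, eq_bot_iff]
    rintro x ⟨hx1, hx2⟩
    obtain ⟨u, hu, w, hw, rfl⟩ := Submodule.mem_sup.1 hx1
    have h1 : w ∈ ann U := by
      have h2 := sub_mem (BB_le_ann h.1 U hx2) (PU_le_ann k a b U hu)
      rwa [add_sub_cancel_left] at h2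
    have h2 : w = 0 := by
      have h3 : w ∈ ann U ⊓ ann U' := ⟨h1, hw⟩
      rw [hU'.inf_eq_bot] at h3
      exact (Submodule.mem_bot ℂ).1 h3
    rw [h2, add_zero] at hx2 ⊢
    rw [← hU3]
    exact ⟨hu, hx2⟩
  · rw [codisjoint_iff, sup_assoc, sup_comm (ann U'), ← sup_assoc, hsup]
    exact hU'.sup_eq_top

end Pool.Agent.EXL
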