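import Pool.Agent.EXI.Base

/-!
# EXI / ADefs: Part A, definitions

Part A of the proof of the analytic input (`/team-store/exl_inputI.md`). Rational subspaces `N` of
`ℂ^ι` are given by their equations: `U ≤ ℚ^ι` is the space of equations and `ann U ≤ ℂ^ι` the
complex subspace which they cut out.
-/

set_option autoImplicit false

namespace Pool.Agent.EXL

open Module

variable {ι : Type} [Fintype ι]

/-- The complex subspace cut out by the rational subspace `U` of equations. -/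
def ann (U : Submodule ℚ (ι → ℚ)) : Submodule ℂ (ι → ℂ) where
  carrier := {v | ∀ u ∈ U, ∑ i, (u i : ℂ) * v i = 0}
  add_mem' := by
    intro v w hv hw u hu
    simp only [Pi.add_apply, mul_add, Finset.sum_add_distrib]
    rw [hv u hu, hw u hu, add_zero]
  zero_mem' := by
    intro u _
    simp
  smul_mem' := by
    intro c v hv u hu
    have h1 : ∑ i, (u i : ℂ) * (c • v) i = c * ∑ i, (u i : ℂ) * v i := by
      rw [Finset.mul_sum]
      refine Finset.sum_congr rfl fun i _ => ?_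
      rw [Pi.smul_apply, smul_eq_mul]
      ring
    rw [h1, hv u hu, mul_zero]

lemma mem_ann {U : Submodule ℚ (ι → ℚ)} {v : ι → ℂ} :
    v ∈ ann U ↔ ∀ u ∈ U, ∑ i, (u i : ℂ) * v i = 0 := Iff.rfl

/-- The monomial `b^u`. -/
noncomputable def mon (b : ι → ℂ) (u : ι → ℤ) : ℂ := ∏ i, b i ^ u i

/-- The rational vector of an integral vector. -/
def qv (u : ι → ℤ) : ι → ℚ := fun i => (u i : ℚ)

/-- The generators of `K_U`. -/
def genU (k : Subfield ℂ) (a b : ι → ℂ) (U : Submodule ℚ (ι → ℚ)) : Set ℂ :=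
  ((k : Set ℂ) ∪ Set.range a) ∪ {x | ∃ u : ι → ℤ, qv u ∈ U ∧ x = mon b u}

/-- The algebraic closure in `ℂ` of the field generated by `k`, the `a_j` and the monomials `b^u`,
`u ∈ U` integral. -/
noncomputable def KU (k : Subfield ℂ) (a b : ι → ℂ) (U : Submodule ℚ (ι → ℚ)) : Subfield ℂ :=
  consts (DerOver (genU k a b U))

/-- `BB_U`: the space of the logarithmic derivatives of `b` over `K_U`. -/
noncomputable def BB (k : Subfield ℂ) (a b : ι → ℂ) (U : Submodule ℚ (ι → ℚ)) :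
    Submodule ℂ (ι → ℂ) :=
  (DerOver (KU k a b U : Set ℂ)).map (lev b)

/-- The sequences `S(U)` (given by derivations over `k`). -/
def IsSeq (k : Subfield ℂ) (a b : ι → ℂ) (U : Submodule ℚ (ι → ℚ))
    (D : ℕ → Derivation ℤ ℂ ℂ) : Prop :=
  (∀ i, D i ∈ DerOver (k : Set ℂ)) ∧ ev a (D 0) ∈ ann U ∧
    ∀ i, ev a (D (i + 1)) - lev b (D i) ∈ ann U

/-- The space `P_U`. -/
noncomputable def PU (k : Subfield ℂ) (a b : ι → ℂ) (U : Submodule ℚ (ι → ℚ)) :
    Submodule ℂ (ι → ℂ) where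
  carrier := {v | ∃ D, IsSeq k a b U D ∧ ev a (D 0) = v}
  add_mem' := by
    rintro _ _ ⟨D, hD, rfl⟩ ⟨D', hD', rfl⟩
    refine ⟨fun i => D i + D' i, ⟨fun i => add_mem (hD.1 i) (hD'.1 i), ?_, fun i => ?_⟩, ?_⟩
    · rw [map_add]
      exact add_mem hD.2.1 hD'.2.1
    · have h1 : ev a (D (i + 1) + D' (i + 1)) - lev b (D i + D' i) =
          (ev a (D (i + 1)) - lev b (D i)) + (ev a (D' (i + 1)) - lev b (D' i)) := by
        rw [map_add, map_add]
        abel
      rw [h1]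
      exact add_mem (hD.2.2 i) (hD'.2.2 i)
    · rw [map_add]
  zero_mem' := by
    refine ⟨fun _ => 0, ⟨fun i => zero_mem _, ?_, fun i => ?_⟩, ?_⟩
    · rw [map_zero]
      exact zero_mem _
    · rw [map_zero, map_zero, sub_zero]
      exact zero_mem _
    · rw [map_zero]
  smul_mem' := by
    rintro c _ ⟨D, hD, rfl⟩
    refine ⟨fun i => c • D i, ⟨fun i => Submodule.smul_mem _ c (hD.1 i), ?_, fun i => ?_⟩, ?_⟩
    · rw [map_smul]
      exact Submodule.smul_mem _ c hD.2.1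
    · have h1 : ev a (c • D (i + 1)) - lev b (c • D i) =
          c • (ev a (D (i + 1)) - lev b (D i)) := by
        rw [map_smul, map_smul, smul_sub]
      rw [h1]
      exact Submodule.smul_mem _ c (hD.2.2 i)
    · rw [map_smul]

lemma mem_PU {k : Subfield ℂ} {a b : ι → ℂ} {U : Submodule ℚ (ι → ℚ)} {v : ι → ℂ} :
    v ∈ PU k a b U ↔ ∃ D, IsSeq k a b U D ∧ ev a (D 0) = v := Iff.rfl

/-- The condition `inj(U)`. -/
def InjU (k : Subfield ℂ) (a b : ι → ℂ) (U : Submodule ℚ (ι → ℚ)) : Prop :=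
  ∀ D, IsSeq k a b U D → ev a (D 0) = 0 → lev b (D 0) ∈ ann U

/-- The hypothesis on `(a, b)` of the analytic input. -/
def HypA (k : Subfield ℂ) (a b : ι → ℂ) : Prop :=
  (∀ j, b j ≠ 0) ∧ td (k : Set ℂ) (Sum.elim a b) = Fintype.card ι ∧
    ∀ D ∈ DerOver (k : Set ℂ), (∀ j, D (b j) = b j * D (a j)) → ∀ j, D (a j) = 0

/-- The defect number of a rational subspace. -/
noncomputable def ee (B P : Submodule ℂ (ι → ℂ)) (U : Submodule ℚ (ι → ℚ)) : ℕ :=
  finrank ℂ (B ⊓ ann U : Submodule ℂ (ι → ℂ)) + finrank ℂ (P ⊓ ann U : Submodule ℂ (ι → ℂ)) +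
    finrank ℚ U

/-! ### Elementary properties -/

lemma ann_anti {U U' : Submodule ℚ (ι → ℚ)} (h : U ≤ U') : ann U' ≤ ann U :=
  fun _ hv u hu => hv u (h hu)

lemma ann_sup (U U' : Submodule ℚ (ι → ℚ)) : ann (U ⊔ U') = ann U ⊓ ann U' := by
  apply le_antisymm
  · exact le_inf (ann_anti le_sup_left) (ann_anti le_sup_right)
  · intro v hv u hu
    obtain ⟨w, hw, w', hw', rfl⟩ := Submodule.mem_sup.1 hu
    have h1 : ∑ i, (((w + w') i : ℚ) : ℂ) * v i =
        ∑ i, (w i : ℂ) * v i + ∑ i, (w' i : ℂ) * v i := by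
      rw [← Finset.sum_add_distrib]
      refine Finset.sum_congr rfl fun i _ => ?_
      rw [Pi.add_apply]
      push_cast
      ring
    rw [h1, hv.1 w hw, hv.2 w' hw', add_zero]

lemma ann_bot : ann (⊥ : Submodule ℚ (ι → ℚ)) = ⊤ := by
  rw [eq_top_iff]
  intro v _ u hu
  rw [Submodule.mem_bot] at hu
  subst hu
  simp

/-- `ann U` is stable under all derivations. -/
lemma ann_stab (U : Submodule ℚ (ι → ℚ)) (D : Derivation ℤ ℂ ℂ) {v : ι → ℂ} (hv : v ∈ ann U) :
    (fun i => D (v i)) ∈ ann U := by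
  intro u hu
  have h1 := congrArg D (hv u hu)
  rw [map_zero, map_sum] at h1
  rw [← h1]
  refine Finset.sum_congr rfl fun i _ => ?_
  rw [Derivation.leibniz, smul_eq_mul, smul_eq_mul]
  have h2 : D ((u i : ℚ) : ℂ) = 0 := by
    have h3 : ((u i : ℚ) : ℂ) ∈ consts (Submodule.span ℂ {D}) := by
      exact SubfieldClass.ratCast_mem _ _
    exact h3 D (Submodule.mem_span_singleton_self D)
  rw [h2, mul_zero, add_zero]

omit [Fintype ι] in
/-- The commutator formula (R0). -/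
lemma lev_commutator (b : ι → ℂ) (hb : ∀ j, b j ≠ 0) (D D' : Derivation ℤ ℂ ℂ) :
    lev b ⁅D, D'⁆ = (fun i => D (lev b D' i)) - fun i => D' (lev b D i) := by
  funext i
  rw [Pi.sub_apply, lev_apply, lev_apply, lev_apply, Derivation.commutator_apply,
    Derivation.leibniz_div, Derivation.leibniz_div]
  simp only [smul_eq_mul]
  have := hb i
  field_simp
  ring

omit [Fintype ι] in
lemma ev_commutator (a : ι → ℂ) (D D' : Derivation ℤ ℂ ℂ) :
    ev a ⁅D, D'⁆ = (fun i => D (ev a D' i)) - fun i => D' (ev a D i) := by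
  funext i
  rw [Pi.sub_apply]
  change ⁅D, D'⁆ (a i) = D (D' (a i)) - D' (D (a i))
  rw [Derivation.commutator_apply]

lemma mon_ne_zero {b : ι → ℂ} (hb : ∀ j, b j ≠ 0) (u : ι → ℤ) : mon b u ≠ 0 :=
  Finset.prod_ne_zero_iff.2 fun j _ => zpow_ne_zero _ (hb j)

lemma der_zpow' (D : Derivation ℤ ℂ ℂ) (x : ℂ) (hx : x ≠ 0) (n : ℤ) :
    D (x ^ n) / x ^ n = n * (D x / x) := by
  have hpow : ∀ (y : ℂ) (_ : y ≠ 0) (k : ℕ), D (y ^ k) / y ^ k = k * (D y / y) := by
    intro y hy k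
    induction k with
    | zero => simp
    | succ k ih =>
      have hyk : y ^ k ≠ 0 := pow_ne_zero _ hy
      rw [pow_succ, Derivation.leibniz, smul_eq_mul, smul_eq_mul]
      have h1 : (y ^ k * D y + y * D (y ^ k)) / (y ^ k * y) = D y / y + D (y ^ k) / y ^ k := by
        field_simp
      rw [h1, ih]
      push_cast
      ring
  rcases n.eq_nat_or_neg with ⟨k, rfl | rfl⟩
  · rw [zpow_natCast, hpow x hx k]
    push_cast
    ring
  · rw [zpow_neg, zpow_natCast, Derivation.leibniz_inv, smul_eq_mul]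
    have hxk : x ^ k ≠ 0 := pow_ne_zero _ hx
    have h1 : -((x ^ k)⁻¹ ^ 2) * D (x ^ k) / (x ^ k)⁻¹ = -(D (x ^ k) / x ^ k) := by
      field_simp
    rw [h1, hpow x hx k]
    push_cast
    ring

/-- The logarithmic derivative of a monomial. -/
lemma der_mon {b : ι → ℂ} (hb : ∀ j, b j ≠ 0) (D : Derivation ℤ ℂ ℂ) (u : ι → ℤ) :
    D (mon b u) / mon b u = ∑ j, (u j : ℂ) * lev b D j := by
  classical
  have h : ∀ (s : Finset ι), D (∏ j ∈ s, b j ^ u j) / ∏ j ∈ s, b j ^ u j =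
      ∑ j ∈ s, (u j : ℂ) * lev b D j := by
    intro s
    induction s using Finset.induction_on with
    | empty => simp
    | insert j s hj ih =>
      rw [Finset.prod_insert hj, Finset.sum_insert hj, ← ih, Derivation.leibniz, smul_eq_mul,
        smul_eq_mul, lev_apply, ← der_zpow' D (b j) (hb j)]
      have h1 : b j ^ u j ≠ 0 := zpow_ne_zero _ (hb j)
      have h2 : ∏ j ∈ s, b j ^ u j ≠ 0 :=
        Finset.prod_ne_zero_iff.2 fun j _ => zpow_ne_zero _ (hb j)
      field_simp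
      ring
  exact h Finset.univ

/-- It suffices to test integral equations. -/
lemma mem_ann_iff_int {U : Submodule ℚ (ι → ℚ)} {v : ι → ℂ} :
    v ∈ ann U ↔ ∀ u : ι → ℤ, qv u ∈ U → ∑ i, (u i : ℂ) * v i = 0 := by
  constructor
  · intro h u hu
    have := h _ hu
    simpa [qv] using this
  · intro h u hu
    let d : ℕ := ∏ i, (u i).den
    have hd : (d : ℚ) ≠ 0 := by
      have : 0 < d := Finset.prod_pos fun i _ => Rat.den_pos _
      exact_mod_cast this.ne'
    have hint : ∀ i, ∃ z : ℤ, (z : ℚ) = d * u i := by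
      intro i
      obtain ⟨t, ht⟩ : (u i).den ∣ d := Finset.dvd_prod_of_mem (fun i => (u i).den)
        (Finset.mem_univ i)
      refine ⟨(u i).num * t, ?_⟩
      have h2 : ((u i).den : ℚ) * u i = (u i).num := Rat.den_mul_eq_num _
      rw [ht]
      push_cast
      rw [← h2]
      ring
    choose z hz using hint
    have h1 : qv z ∈ U := by
      have : qv z = (d : ℚ) • u := by
        funext i
        simp [qv, hz]
      rw [this]
      exact U.smul_mem _ hu
    have h2 := h z h1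
    have h3 : ∑ i, (z i : ℂ) * v i = (d : ℂ) * ∑ i, (u i : ℂ) * v i := by
      rw [Finset.mul_sum]
      refine Finset.sum_congr rfl fun i _ => ?_
      have h4 : (z i : ℂ) = (d : ℂ) * (u i : ℂ) := by
        have := congrArg (fun x : ℚ => (x : ℂ)) (hz i)
        push_cast at this
        exact this
      rw [h4]
      ring
    rw [h3] at h2
    rcases mul_eq_zero.1 h2 with h5 | h5
    · exact absurd (by exact_mod_cast h5) hd
    · exact h5

/-- The derivations over `K_U`. -/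
lemma derOver_KU (k : Subfield ℂ) (a b : ι → ℂ) (U : Submodule ℚ (ι → ℚ)) :
    DerOver (KU k a b U : Set ℂ) = DerOver (genU k a b U) := by
  apply le_antisymm
  · intro D hD x hx
    exact hD x (fun D' hD' => hD' x hx)
  · exact le_derOver_consts _

/-- The derivations over `K_U`, second form. -/
lemma mem_derOver_KU {k : Subfield ℂ} {a b : ι → ℂ} (hb : ∀ j, b j ≠ 0)
    {U : Submodule ℚ (ι → ℚ)} {D : Derivation ℤ ℂ ℂ} :
    D ∈ DerOver (KU k a b U : Set ℂ) ↔
      D ∈ DerOver (k : Set ℂ) ∧ ev a D = 0 ∧ lev b D ∈ ann U := by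
  rw [derOver_KU]
  constructor
  · intro h
    refine ⟨fun x hx => h x (Or.inl (Or.inl hx)), ?_, ?_⟩
    · funext i
      exact h _ (Or.inl (Or.inr ⟨i, rfl⟩))
    · rw [mem_ann_iff_int]
      intro u hu
      rw [← der_mon hb, h _ (Or.inr ⟨u, hu, rfl⟩), zero_div]
  · rintro ⟨h1, h2, h3⟩ x ((hx | ⟨i, rfl⟩) | ⟨u, hu, rfl⟩)
    · exact h1 x hx
    · exact congrFun h2 i
    · have h4 := der_mon hb D u
      rw [mem_ann_iff_int.1 h3 u hu, div_eq_zero_iff] at h4
      exact h4.resolve_right (mon_ne_zero hb u)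

lemma BB_le_ann {k : Subfield ℂ} {a b : ι → ℂ} (hb : ∀ j, b j ≠ 0) (U : Submodule ℚ (ι → ℚ)) :
    BB k a b U ≤ ann U := by
  rintro _ ⟨D, hD, rfl⟩
  exact ((mem_derOver_KU hb).1 hD).2.2

lemma PU_le_ann (k : Subfield ℂ) (a b : ι → ℂ) (U : Submodule ℚ (ι → ℚ)) :
    PU k a b U ≤ ann U := by
  rintro _ ⟨D, hD, rfl⟩
  exact hD.2.1

lemma mon_mem_KU (k : Subfield ℂ) (a b : ι → ℂ) (U : Submodule ℚ (ι → ℚ)) {u : ι → ℤ}
    (hu : qv u ∈ U) : mon b u ∈ KU k a b U := fun _ hD => hD _ (Or.inr ⟨u, hu, rfl⟩)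

lemma a_mem_KU (k : Subfield ℂ) (a b : ι → ℂ) (U : Submodule ℚ (ι → ℚ)) (j : ι) :
    a j ∈ KU k a b U := fun _ hD => hD _ (Or.inl (Or.inr ⟨j, rfl⟩))

lemma le_KU (k : Subfield ℂ) (a b : ι → ℂ) (U : Submodule ℚ (ι → ℚ)) : k ≤ KU k a b U :=
  fun _ hx _ hD => hD _ (Or.inl (Or.inl hx))

/-- Shift of a sequence in `S(U)`. -/
lemma IsSeq.shift {k : Subfield ℂ} {a b : ι → ℂ} {U : Submodule ℚ (ι → ℚ)}
    {D : ℕ → Derivation ℤ ℂ ℂ} (h : IsSeq k a b U D) (h0 : lev b (D 0) ∈ ann U) :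
    IsSeq k a b U (fun i => D (i + 1)) := by
  refine ⟨fun i => h.1 _, ?_, fun i => h.2.2 _⟩
  have h1 : ev a (D (0 + 1)) = (ev a (D (0 + 1)) - lev b (D 0)) + lev b (D 0) := by abel
  rw [h1]
  exact add_mem (h.2.2 0) h0

/-- The ranks of `ev b` and of `lev b` agree. -/
lemma finrank_lev {κ : Type} [Finite κ] {b : κ → ℂ} (hb : ∀ j, b j ≠ 0)
    (Δ : Submodule ℂ (Derivation ℤ ℂ ℂ)) : finrank ℂ (Δ.map (lev b)) = rk Δ b := by
  let e : (κ → ℂ) ≃ₗ[ℂ] (κ → ℂ) := LinearEquiv.piCongrRight fun j =>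
    LinearEquiv.smulOfNeZero ℂ ℂ (b j)⁻¹ (inv_ne_zero (hb j))
  have h1 : lev b = e.toLinearMap ∘ₗ ev b := by
    apply LinearMap.ext
    intro D
    funext j
    change D (b j) / b j = (b j)⁻¹ * D (b j)
    rw [div_eq_inv_mul]
  rw [h1, Submodule.map_comp]
  exact LinearEquiv.finrank_map_eq e _

end Pool.Agent.EXL
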