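import Pool.Agent.EXI.AAnn

/-!
# EXI / ATn: the space `T`

`T = {(D a, lev b D) | D ∈ DerOver k}`.

PROOFS.  `finrank_T`: the image of `DerOver k` under `ev (Sum.elim a b)` has dimension
`td k (Sum.elim a b) = card ι`; the linear equivalence
`(ι ⊕ ι → ℂ) ≃ (ι → ℂ) × (ι → ℂ)`, `v ↦ ((v (inl j))_j, (v (inr j) / b_j)_j)` maps it onto `T`.
`T_surj`: the map `(α, β) ↦ α - β` is injective on `T`: if `D a = lev b D` then `D b_j = b_j D a_j`,
so `D a = 0` by `h.2.2` and `D b_j = 0`, so the element of `T` is zero. `dim T = card ι`, so it is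
surjective.
-/

set_option autoImplicit false

namespace Pool.Agent.EXL

open Module

variable {ι : Type} [Fintype ι]

/-- The space `T`. -/
noncomputable def TT (k : Subfield ℂ) (a b : ι → ℂ) : Submodule ℂ ((ι → ℂ) × (ι → ℂ)) :=
  (DerOver (k : Set ℂ)).map ((ev a).prod (lev b))

theorem finrank_T (k : Subfield ℂ) (a b : ι → ℂ) (hb : ∀ j, b j ≠ 0) :
    finrank ℂ (TT k a b) = td (k : Set ℂ) (Sum.elim a b) := by
  let e2 : (ι → ℂ) ≃ₗ[ℂ] (ι → ℂ) := LinearEquiv.piCongrRight fun j =>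
    LinearEquiv.smulOfNeZero ℂ ℂ (b j)⁻¹ (inv_ne_zero (hb j))
  let e : (ι ⊕ ι → ℂ) ≃ₗ[ℂ] (ι → ℂ) × (ι → ℂ) :=
    (LinearEquiv.sumArrowLequivProdArrow ι ι ℂ ℂ).trans
      (LinearEquiv.prodCongr (LinearEquiv.refl ℂ (ι → ℂ)) e2)
  have h1 : (ev a).prod (lev b) = e.toLinearMap ∘ₗ ev (Sum.elim a b) := by
    apply LinearMap.ext
    intro D
    refine Prod.ext ?_ ?_
    · rfl
    · funext j
      change D (b j) / b j = (b j)⁻¹ * D (b j)
      rw [div_eq_inv_mul]
  unfold TT td rk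
  rw [h1, Submodule.map_comp]
  exact LinearEquiv.finrank_map_eq e _

theorem T_surj (k : Subfield ℂ) (a b : ι → ℂ) (h : HypA k a b) (v : ι → ℂ) :
    ∃ D ∈ DerOver (k : Set ℂ), ev a D - lev b D = v := by
  let L : TT k a b →ₗ[ℂ] (ι → ℂ) :=
    (LinearMap.fst ℂ (ι → ℂ) (ι → ℂ) - LinearMap.snd ℂ (ι → ℂ) (ι → ℂ)).comp
      (TT k a b).subtype
  have hinj : Function.Injective L := by
    rw [← LinearMap.ker_eq_bot, LinearMap.ker_eq_bot']
    rintro ⟨_, D, hD, rfl⟩ h0
    have h1 : ev a D - lev b D = 0 := h0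
    have h2 : ∀ j, D (a j) = D (b j) / b j := by
      intro j
      have := congrFun h1 j
      exact sub_eq_zero.1 this
    have h3 : ∀ j, D (a j) = 0 := by
      refine h.2.2 D hD fun j => ?_
      rw [h2 j]
      have := h.1 j
      field_simp
    have h4 : ((ev a).prod (lev b)) D = 0 := by
      refine Prod.ext ?_ ?_
      · funext j
        exact h3 j
      · funext j
        show D (b j) / b j = 0
        rw [← h2 j, h3 j]
    exact Subtype.ext h4
  have hfr : finrank ℂ (TT k a b) = finrank ℂ (ι → ℂ) := by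
    rw [finrank_T k a b h.1, h.2.1, Module.finrank_pi]
  have hsurj := (LinearMap.injective_iff_surjective_of_finrank_eq_finrank hfr).1 hinj
  obtain ⟨⟨_, D, hD, rfl⟩, hv⟩ := hsurj v
  exact ⟨D, hD, hv⟩

end Pool.Agent.EXL
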