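import Pool.Agent.EXI.APen
import Pool.Agent.EXI.ATn

/-!
# EXI / ADim: the dimension of `P_U` (DIM)

`pen_one` is applied to the space `T` (`TT k a b`), the quotient `ℂ^ι ⧸ ann U` and the two
coordinates. The chains of the pencil are the images of the sequences in `S(U)`.
-/

set_option autoImplicit false

namespace Pool.Agent.EXL

open Module

variable {ι : Type} [Fintype ι]

/-- The first map of the pencil. -/
noncomputable def penA (k : Subfield ℂ) (a b : ι → ℂ) (U : Submodule ℚ (ι → ℚ)) :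
    TT k a b →ₗ[ℂ] (ι → ℂ) ⧸ ann U :=
  (ann U).mkQ ∘ₗ (LinearMap.fst ℂ (ι → ℂ) (ι → ℂ)) ∘ₗ (TT k a b).subtype

/-- The second map of the pencil. -/
noncomputable def penB (k : Subfield ℂ) (a b : ι → ℂ) (U : Submodule ℚ (ι → ℚ)) :
    TT k a b →ₗ[ℂ] (ι → ℂ) ⧸ ann U :=
  (ann U).mkQ ∘ₗ (LinearMap.snd ℂ (ι → ℂ) (ι → ℂ)) ∘ₗ (TT k a b).subtype

lemma penA_eq_zero {k : Subfield ℂ} {a b : ι → ℂ} {U : Submodule ℚ (ι → ℚ)} (x : TT k a b) :
    penA k a b U x = 0 ↔ x.1.1 ∈ ann U := by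
  change (ann U).mkQ x.1.1 = 0 ↔ _
  rw [Submodule.mkQ_apply, Submodule.Quotient.mk_eq_zero]

lemma penA_eq_penB {k : Subfield ℂ} {a b : ι → ℂ} {U : Submodule ℚ (ι → ℚ)} (x y : TT k a b) :
    penA k a b U x = penB k a b U y ↔ x.1.1 - y.1.2 ∈ ann U := by
  change (ann U).mkQ x.1.1 = (ann U).mkQ y.1.2 ↔ _
  rw [Submodule.mkQ_apply, Submodule.mkQ_apply, Submodule.Quotient.eq]

/-- The chains of the pencil are the sequences in `S(U)`. -/
lemma mem_penS_iff {k : Subfield ℂ} {a b : ι → ℂ} {U : Submodule ℚ (ι → ℚ)} (x : TT k a b) :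
    x ∈ penS (penA k a b U) (penB k a b U) ↔
      ∃ D, IsSeq k a b U D ∧ x.1 = (ev a (D 0), lev b (D 0)) := by
  constructor
  · rintro ⟨t, rfl, h0, h1⟩
    have h2 : ∀ i, ∃ D ∈ DerOver (k : Set ℂ), (t i).1 = (ev a D, lev b D) := by
      intro i
      obtain ⟨D, hD, hDt⟩ := (t i).2
      exact ⟨D, hD, hDt.symm⟩
    choose D hD hDt using h2
    refine ⟨D, ⟨hD, ?_, fun i => ?_⟩, hDt 0⟩
    · rw [penA_eq_zero, hDt 0] at h0
      exact h0
    · have h3 := h1 i
      rw [penA_eq_penB, hDt (i + 1), hDt i] at h3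
      exact h3
  · rintro ⟨D, hD, hx⟩
    let t : ℕ → TT k a b := fun i => ⟨(ev a (D i), lev b (D i)), ⟨D i, hD.1 i, rfl⟩⟩
    refine ⟨t, Subtype.ext hx.symm, ?_, fun i => ?_⟩
    · rw [penA_eq_zero]
      exact hD.2.1
    · rw [penA_eq_penB]
      exact hD.2.2 i

theorem dim_PU (k : Subfield ℂ) (a b : ι → ℂ) (h : HypA k a b) (U : Submodule ℚ (ι → ℚ))
    (hi : InjU k a b U) :
    finrank ℂ (PU k a b U) + finrank ℂ (BB k a b U) + finrank ℚ U = Fintype.card ι := by
  classical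
  have hsurj : Function.Surjective (penA k a b U - (1 : ℂ) • penB k a b U) := by
    intro q
    obtain ⟨v, rfl⟩ := (ann U).mkQ_surjective q
    obtain ⟨D, hD, hv⟩ := T_surj k a b h v
    refine ⟨⟨(ev a D, lev b D), ⟨D, hD, rfl⟩⟩, ?_⟩
    rw [one_smul, LinearMap.sub_apply]
    change (ann U).mkQ (ev a D) - (ann U).mkQ (lev b D) = _
    rw [← map_sub, hv]
  have h1 := pen_one (penA k a b U) (penB k a b U) 1 hsurj
  have hV : finrank ℂ (TT k a b) = Fintype.card ι := by rw [finrank_T k a b h.1, h.2.1]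
  have hQ : finrank ℂ ((ι → ℂ) ⧸ ann U) = finrank ℚ U := by
    have h2 := Submodule.finrank_quotient_add_finrank (ann U)
    have h3 := finrank_ann U
    rw [finrank_fintype_fun_eq_card] at h2
    omega
  let S := penS (penA k a b U) (penB k a b U)
  let g : S →ₗ[ℂ] (ι → ℂ) :=
    (LinearMap.fst ℂ (ι → ℂ) (ι → ℂ)) ∘ₗ (TT k a b).subtype ∘ₗ S.subtype
  have hg : LinearMap.range g = PU k a b U := by
    ext v
    constructor
    · rintro ⟨x, rfl⟩
      obtain ⟨D, hD, hx⟩ := (mem_penS_iff x.1).1 x.2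
      refine ⟨D, hD, ?_⟩
      change _ = x.1.1.1
      rw [hx]
    · rintro ⟨D, hD, rfl⟩
      let x : TT k a b := ⟨(ev a (D 0), lev b (D 0)), ⟨D 0, hD.1 0, rfl⟩⟩
      exact ⟨⟨x, (mem_penS_iff x).2 ⟨D, hD, rfl⟩⟩, rfl⟩
  let g' : LinearMap.ker g →ₗ[ℂ] (ι → ℂ) :=
    (LinearMap.snd ℂ (ι → ℂ) (ι → ℂ)) ∘ₗ (TT k a b).subtype ∘ₗ S.subtype ∘ₗ
      (LinearMap.ker g).subtype
  have hg'inj : Function.Injective g' := by
    intro x y hxy
    have hx : x.1.1.1.1 = 0 := x.2
    have hy : y.1.1.1.1 = 0 := y.2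
    have hxy' : x.1.1.1.2 = y.1.1.1.2 := hxy
    apply Subtype.ext
    apply Subtype.ext
    apply Subtype.ext
    apply Prod.ext
    · rw [hx, hy]
    · exact hxy'
  have hg' : LinearMap.range g' = BB k a b U := by
    ext v
    constructor
    · rintro ⟨x, rfl⟩
      have hx0 : x.1.1.1.1 = 0 := x.2
      obtain ⟨D, hD, hx⟩ := (mem_penS_iff x.1.1).1 x.1.2
      have h2 : ev a (D 0) = 0 := by
        rw [hx] at hx0
        exact hx0
      have h3 := hi D hD h2
      refine ⟨D 0, (mem_derOver_KU h.1).2 ⟨hD.1 0, h2, h3⟩, ?_⟩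
      change _ = x.1.1.1.2
      rw [hx]
    · rintro ⟨D, hD, rfl⟩
      obtain ⟨h2, h3, h4⟩ := (mem_derOver_KU h.1).1 hD
      let E : ℕ → Derivation ℤ ℂ ℂ := fun i => if i = 0 then D else 0
      have hE : IsSeq k a b U E := by
        refine ⟨fun i => ?_, ?_, fun i => ?_⟩
        · by_cases h5 : i = 0
          · simp only [E, if_pos h5]
            exact h2
          · simp only [E, if_neg h5]
            exact zero_mem _
        · simp only [E, if_true]
          rw [h3]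
          exact zero_mem _
        · have h6 : E (i + 1) = 0 := by simp [E]
          rw [h6, map_zero, zero_sub]
          by_cases h5 : i = 0
          · simp only [E, if_pos h5]
            exact neg_mem h4
          · simp only [E, if_neg h5]
            rw [map_zero, neg_zero]
            exact zero_mem _
      have hE0 : E 0 = D := by simp [E]
      let x : TT k a b := ⟨(ev a D, lev b D), ⟨D, h2, rfl⟩⟩
      have hxS : x ∈ S := (mem_penS_iff x).2 ⟨E, hE, by rw [hE0]⟩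
      exact ⟨⟨⟨x, hxS⟩, h3⟩, rfl⟩
  have h5 := LinearMap.finrank_range_add_finrank_ker (K := ℂ) (V := S) (V₂ := ι → ℂ) g
  have h6 := LinearMap.finrank_range_of_inj hg'inj
  rw [hg] at h5
  rw [hg'] at h6
  change finrank ℂ S + _ = _ at h1
  rw [hV, hQ] at h1
  omega

end Pool.Agent.EXL
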