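import Mathlib

/-!
# EXI / APen: pencils of linear maps (PEN)

PROOF (no power series).  Put `W₀ = V`, `W_{i+1} = {v | B v ∈ A (W_i)}` (decreasing: induction).
`V` is finite dimensional, so `W_{N+1} = W_N =: W` for some `N`, i.e. `v ∈ W ↔ B v ∈ A W`. Put
`Q' = A W` (`Submodule.map A W`); `B W ≤ Q'`. `S₀ = {v ∈ W | A v = 0}`: for a sequence `t` in the
definition of `S₀` every `t_j` is in `W_i` for all `i` (induction on `i`: `B t_j = A t_{j+1}`);
conversely for `v ∈ W` with `A v = 0` construct the sequence in `W` recursively. So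
`dim S₀ = dim W - dim Q'` (rank-nullity for `A : W → Q'`, onto).
The induced maps `Ā, B̄ : V / W → Q / Q'`: `B̄` is injective. So `dim V - dim W ≤ dim Q - dim Q'`,
i.e. `dim V ≤ dim S₀ + dim Q` always.
(1) If `A - ε B` is onto then `Ā - ε B̄` is onto, so `dim V - dim W ≥ dim Q - dim Q'`: equality.
(2) Suppose that equality `dim V = dim S₀ + dim Q` holds; then `B̄` is bijective. Choose `ε ≠ 0`
such that `ε` is not an eigenvalue of `B̄⁻¹ Ā` and `ε⁻¹` is not an eigenvalue of `B s`, where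
`s : Q' → W` is a section of `A : W → Q'` (finitely many eigenvalues; the field is infinite). Then
`Ā - ε B̄` is bijective and `(A - ε B) s = 1 - ε B s` is a bijection of `Q'`, so `Q' ≤ range (A - ε B)`
and `A - ε B` is onto `Q`, contradiction. So `dim V + 1 ≤ dim S₀ + dim Q`.
-/

set_option autoImplicit false

namespace Pool.Agent.EXL

open Module

variable {V Q : Type*} [AddCommGroup V] [Module ℂ V] [FiniteDimensional ℂ V]
  [AddCommGroup Q] [Module ℂ Q] [FiniteDimensional ℂ Q]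

/-- The space `S₀` of the initial members of the chains of the pencil `A - ε B`. -/
def penS (A B : V →ₗ[ℂ] Q) : Submodule ℂ V where
  carrier := {v | ∃ t : ℕ → V, t 0 = v ∧ A (t 0) = 0 ∧ ∀ i, A (t (i + 1)) = B (t i)}
  add_mem' := by
    rintro _ _ ⟨t, rfl, h0, h1⟩ ⟨t', rfl, h0', h1'⟩
    refine ⟨fun i => t i + t' i, rfl, ?_, fun i => ?_⟩
    · rw [map_add, h0, h0', add_zero]
    · rw [map_add, map_add, h1, h1']
  zero_mem' := ⟨fun _ => 0, rfl, map_zero A, fun _ => by rw [map_zero, map_zero]⟩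
  smul_mem' := by
    rintro c _ ⟨t, rfl, h0, h1⟩
    refine ⟨fun i => c • t i, rfl, ?_, fun i => ?_⟩
    · rw [map_smul, h0, smul_zero]
    · rw [map_smul, map_smul, h1]

/-- the decreasing sequence of subspaces -/
private def penW (A B : V →ₗ[ℂ] Q) : ℕ → Submodule ℂ V
  | 0 => ⊤
  | n + 1 => ((penW A B n).map A).comap B

private lemma penW_succ_le (A B : V →ₗ[ℂ] Q) (n : ℕ) : penW A B (n + 1) ≤ penW A B n := by
  induction n with
  | zero => exact le_top
  | succ n ih => exact Submodule.comap_mono (Submodule.map_mono ih)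

/-- the stable subspace -/
private lemma exists_penW (A B : V →ₗ[ℂ] Q) :
    ∃ W : Submodule ℂ V, (∀ v, v ∈ W ↔ B v ∈ W.map A) ∧ penS A B = W ⊓ LinearMap.ker A := by
  have hanti : Antitone (penW A B) := antitone_nat_of_succ_le (penW_succ_le A B)
  obtain ⟨n, hn⟩ := IsArtinian.monotone_stabilizes (R := ℂ) (M := V)
    ⟨fun i => OrderDual.toDual (penW A B i), fun i j h => hanti h⟩
  have hn1 : penW A B n = penW A B (n + 1) := hn (n + 1) (Nat.le_succ n)
  have hW : ∀ v, v ∈ penW A B n ↔ B v ∈ (penW A B n).map A := by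
    intro v
    constructor
    · intro hv
      rw [hn1] at hv
      exact hv
    · intro hv
      rw [hn1]
      exact hv
  refine ⟨penW A B n, hW, ?_⟩
  apply le_antisymm
  · rintro v ⟨t, rfl, h0, h1⟩
    have h2 : ∀ i j, t j ∈ penW A B i := by
      intro i
      induction i with
      | zero => intro j; exact Submodule.mem_top
      | succ i ih =>
        intro j
        change B (t j) ∈ (penW A B i).map A
        exact ⟨t (j + 1), ih (j + 1), h1 j⟩
    exact ⟨h2 n 0, h0⟩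
  · rintro v ⟨hv, hv0⟩
    have hstep : ∀ w : penW A B n, ∃ w' : penW A B n, A w' = B w := by
      intro w
      obtain ⟨w', hw', h⟩ := (hW w).1 w.2
      exact ⟨⟨w', hw'⟩, h⟩
    choose f hf using hstep
    refine ⟨fun i => ((f^[i] ⟨v, hv⟩ : penW A B n) : V), rfl, hv0, fun i => ?_⟩
    show A ((f^[i + 1] ⟨v, hv⟩ : penW A B n) : V) = B ((f^[i] ⟨v, hv⟩ : penW A B n) : V)
    rw [Function.iterate_succ_apply']
    exact hf _

private lemma pen_dim (A : V →ₗ[ℂ] Q) (W : Submodule ℂ V) :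
    finrank ℂ (W ⊓ LinearMap.ker A : Submodule ℂ V) + finrank ℂ (W.map A) = finrank ℂ W := by
  have h1 := LinearMap.finrank_range_add_finrank_ker (A.domRestrict W)
  have h2 : LinearMap.range (A.domRestrict W) = W.map A := by
    rw [LinearMap.domRestrict, LinearMap.range_comp, Submodule.range_subtype]
  have h3 : (LinearMap.ker (A.domRestrict W)).map W.subtype = W ⊓ LinearMap.ker A := by
    ext v
    constructor
    · rintro ⟨w, hw, rfl⟩
      exact ⟨w.2, hw⟩
    · rintro ⟨hv, hv0⟩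
      exact ⟨⟨v, hv⟩, hv0, rfl⟩
  have h4 : finrank ℂ (W ⊓ LinearMap.ker A : Submodule ℂ V) =
      finrank ℂ (LinearMap.ker (A.domRestrict W)) := by
    rw [← h3]
    exact Submodule.finrank_map_subtype_eq _ _
  rw [h4, ← h2]
  omega

section quot

variable {A B : V →ₗ[ℂ] Q} {W : Submodule ℂ V}

private lemma pen_le (hW : ∀ v, v ∈ W ↔ B v ∈ W.map A) : W ≤ (W.map A).comap B :=
  fun v hv => (hW v).1 hv

private lemma pen_leA (A : V →ₗ[ℂ] Q) (W : Submodule ℂ V) : W ≤ (W.map A).comap A :=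
  fun v hv => ⟨v, hv, rfl⟩

/-- the induced map `B̄` -/
private noncomputable def penB (hW : ∀ v, v ∈ W ↔ B v ∈ W.map A) :
    (V ⧸ W) →ₗ[ℂ] (Q ⧸ W.map A) := W.mapQ (W.map A) B (pen_le hW)

/-- the induced map `Ā` -/
private noncomputable def penA (A : V →ₗ[ℂ] Q) (W : Submodule ℂ V) :
    (V ⧸ W) →ₗ[ℂ] (Q ⧸ W.map A) := W.mapQ (W.map A) A (pen_leA A W)

private lemma penB_inj (hW : ∀ v, v ∈ W ↔ B v ∈ W.map A) : Function.Injective (penB hW) := by
  rw [← LinearMap.ker_eq_bot, LinearMap.ker_eq_bot']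
  intro m hm
  obtain ⟨v, rfl⟩ := W.mkQ_surjective m
  have h1 : (W.map A).mkQ (B v) = 0 := hm
  rw [Submodule.mkQ_apply, Submodule.Quotient.mk_eq_zero] at h1
  rw [Submodule.mkQ_apply, Submodule.Quotient.mk_eq_zero]
  exact (hW v).2 h1

private lemma pen_quot_le (hW : ∀ v, v ∈ W ↔ B v ∈ W.map A) :
    finrank ℂ (V ⧸ W) ≤ finrank ℂ (Q ⧸ W.map A) :=
  LinearMap.finrank_le_finrank_of_injective (penB_inj hW)

end quot

theorem pen_one (A B : V →ₗ[ℂ] Q) (ε : ℂ) (h : Function.Surjective (A - ε • B)) :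
    finrank ℂ (penS A B) + finrank ℂ Q = finrank ℂ V := by
  obtain ⟨W, hW, hS⟩ := exists_penW A B
  rw [hS]
  have h1 := pen_dim A W
  have h2 := pen_quot_le hW
  have h3 := W.finrank_quotient_add_finrank
  have h4 := (W.map A).finrank_quotient_add_finrank
  have h5 : finrank ℂ (Q ⧸ W.map A) ≤ finrank ℂ (V ⧸ W) := by
    have hsurj : Function.Surjective (penA A W - ε • penB hW) := by
      intro m
      obtain ⟨q, rfl⟩ := (W.map A).mkQ_surjective m
      obtain ⟨v, rfl⟩ := h q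
      refine ⟨W.mkQ v, ?_⟩
      rw [LinearMap.sub_apply, LinearMap.smul_apply, LinearMap.sub_apply, LinearMap.smul_apply,
        map_sub, map_smul]
      rfl
    have h6 := LinearMap.finrank_range_add_finrank_ker (penA A W - ε • penB hW)
    rw [LinearMap.range_eq_top.2 hsurj, finrank_top] at h6
    omega
  omega

/-- an admissible `ε` -/
private lemma exists_eps {X Y : Type*} [AddCommGroup X] [Module ℂ X] [FiniteDimensional ℂ X]
    [AddCommGroup Y] [Module ℂ Y] [FiniteDimensional ℂ Y] (T : End ℂ X) (U : End ℂ Y) :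
    ∃ ε : ℂ, IsUnit (T - algebraMap ℂ (End ℂ X) ε) ∧ IsUnit ((1 : End ℂ Y) - ε • U) := by
  have h1 : (spectrum ℂ T).Finite := Module.End.finite_spectrum T
  have h2 : (spectrum ℂ U).Finite := Module.End.finite_spectrum U
  have h3 : (({0} : Set ℂ) ∪ spectrum ℂ T ∪ (fun x => x⁻¹) '' spectrum ℂ U).Finite :=
    ((Set.finite_singleton 0).union h1).union (h2.image _)
  obtain ⟨ε, hε⟩ := h3.infinite_compl.nonempty
  rw [Set.mem_compl_iff, Set.mem_union, Set.mem_union, Set.mem_singleton_iff] at hε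
  push Not at hε
  obtain ⟨⟨hε0, hε1⟩, hε2⟩ := hε
  refine ⟨ε, ?_, ?_⟩
  · rw [spectrum.notMem_iff] at hε1
    have := hε1.neg
    rwa [neg_sub] at this
  · have h4 : ε⁻¹ ∉ spectrum ℂ U := fun h => hε2 ⟨ε⁻¹, h, inv_inv ε⟩
    rw [spectrum.notMem_iff] at h4
    have h5 : (1 : End ℂ Y) - ε • U = (Units.mk0 ε hε0) • (algebraMap ℂ (End ℂ Y) ε⁻¹ - U) := by
      rw [Units.smul_mk0, smul_sub, Algebra.algebraMap_eq_smul_one, smul_smul,
        mul_inv_cancel₀ hε0, one_smul]
    rw [h5]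
    exact h4.smul _

theorem pen_two (A B : V →ₗ[ℂ] Q) (h : ∀ ε : ℂ, ¬ Function.Surjective (A - ε • B)) :
    finrank ℂ V + 1 ≤ finrank ℂ (penS A B) + finrank ℂ Q := by
  obtain ⟨W, hW, hS⟩ := exists_penW A B
  rw [hS]
  have h1 := pen_dim A W
  have h2 := pen_quot_le hW
  have h3 := W.finrank_quotient_add_finrank
  have h4 := (W.map A).finrank_quotient_add_finrank
  by_contra hcon
  have h5 : finrank ℂ (V ⧸ W) = finrank ℂ (Q ⧸ W.map A) := by omega
  have hbij : Function.Bijective (penB hW) := ⟨penB_inj hW,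
    (LinearMap.injective_iff_surjective_of_finrank_eq_finrank h5).1 (penB_inj hW)⟩
  obtain ⟨Be, hBe⟩ : ∃ Be : (V ⧸ W) ≃ₗ[ℂ] (Q ⧸ W.map A), ∀ m, Be m = penB hW m :=
    ⟨LinearEquiv.ofBijective (penB hW) hbij, fun m => rfl⟩
  -- the section
  have hAr : ∀ w : W, A w ∈ W.map A := fun w => ⟨w, w.2, rfl⟩
  set A' : W →ₗ[ℂ] (W.map A : Submodule ℂ Q) := (A.domRestrict W).codRestrict (W.map A) hAr with hA'
  have hA's : LinearMap.range A' = ⊤ := by
    rw [LinearMap.range_eq_top]
    rintro ⟨q, w, hw, rfl⟩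
    exact ⟨⟨w, hw⟩, rfl⟩
  obtain ⟨sec, hsec⟩ := A'.exists_rightInverse_of_surjective hA's
  have hBr : ∀ w : W, B w ∈ W.map A := fun w => (hW w).1 w.2
  set B' : W →ₗ[ℂ] (W.map A : Submodule ℂ Q) := (B.domRestrict W).codRestrict (W.map A) hBr with hB'
  obtain ⟨ε, hε1, hε2⟩ := exists_eps (Be.symm.toLinearMap ∘ₗ penA A W) (B' ∘ₗ sec)
  apply h ε
  intro q
  -- modulo Q'
  have hs1 : ∃ v : V, q - (A - ε • B) v ∈ W.map A := by
    obtain ⟨m, hm⟩ := ((Module.End.isUnit_iff _).1 hε1).2 (Be.symm ((W.map A).mkQ q))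
    obtain ⟨v, rfl⟩ := W.mkQ_surjective m
    refine ⟨v, ?_⟩
    have h6 : Be (((Be.symm.toLinearMap ∘ₗ penA A W) - algebraMap ℂ _ ε) (W.mkQ v)) =
        Be (Be.symm ((W.map A).mkQ q)) := by rw [hm]
    rw [LinearEquiv.apply_symm_apply, LinearMap.sub_apply, map_sub, LinearMap.comp_apply,
      LinearEquiv.coe_coe, LinearEquiv.apply_symm_apply, Module.algebraMap_end_apply,
      map_smul] at h6
    have h6a : penA A W (W.mkQ v) = (W.map A).mkQ (A v) := rfl
    have h6b : Be (W.mkQ v) = (W.map A).mkQ (B v) := by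
      rw [hBe]
      rfl
    have h7 : (W.map A).mkQ (A v) - ε • (W.map A).mkQ (B v) = (W.map A).mkQ q := by
      rw [← h6a, ← h6b]
      exact h6
    rw [← Submodule.Quotient.mk_eq_zero, ← Submodule.mkQ_apply, map_sub, ← h7,
      LinearMap.sub_apply, LinearMap.smul_apply, map_sub, map_smul, sub_self]
  obtain ⟨v, hv⟩ := hs1
  obtain ⟨q', hq'⟩ := ((Module.End.isUnit_iff _).1 hε2).2 ⟨_, hv⟩
  refine ⟨v + sec q', ?_⟩
  have h6 : (q' : Q) - ε • B (sec q') = q - (A - ε • B) v := by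
    have := congrArg (Subtype.val) hq'
    exact this
  have h7 : A (sec q') = (q' : Q) := by
    have := congrArg (Subtype.val) (LinearMap.congr_fun hsec q')
    exact this
  rw [map_add]
  have h8 : (A - ε • B) (sec q' : V) = q - (A - ε • B) v := by
    rw [LinearMap.sub_apply, LinearMap.smul_apply, h7]
    exact h6
  rw [h8]
  abel

end Pool.Agent.EXL
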