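import Pool.Agent.EXI.AT1
import Pool.Agent.EXI.APen

/-!
# EXI / AGd: the pencil modulo `m` (GOOD)

PROOFS.  (*) `lev ub D - lev b D ∈ ann U` for every derivation `D`, and `m ∈ ann U`: see the header of
AT1. `m ∉ Bh`: otherwise `Bh ⊔ mline m = Bh`, contradicting `dim_eq`, `dim_lt`; in particular
`m ≠ 0`.
`good_td`: `(0, m) ∉ TT k a ub`: if `D a = 0` and `lev ub D = m ∈ ann U` then by (*)
`lev b D ∈ ann U`, `D ∈ DerOver K_U`, `m = lev ub D ∈ Bh`, impossible. So
`finrank (TT k a ub) + 1 ≤ finrank T₁ = card ι` (`TT k a ub < T₁`,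
`Submodule.finrank_lt_finrank_of_lt`), and `finrank (TT k a ub) = td k (Sum.elim a ub)`
(`finrank_T`).
`good_surj`: suppose that there is no such `ε`. Apply `pen_two` with `V = T₁`,
`Q = ℂ^ι ⧸ mline m` (`finrank Q = card ι - 1` as `m ≠ 0`), `A = mkQ ∘ fst`, `B = mkQ ∘ snd`; an element
of `T₁` is `(ev a D, lev ub D + c m)`, so surjectivity of `A - ε B` for one `ε` is the
statement. It gives `card ι + 1 ≤ finrank S₀ + (card ι - 1)`, so `2 ≤ finrank S₀`. But
`S₀ ≤ span {(0, m)}`, a contradiction: let `t_i = (ev a D_i, lev ub D_i + c_i m)` be a chain,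
`ev a D_0 ∈ mline m`, `ev a D_{i+1} - (lev ub D_i + c_i m) ∈ mline m`. Then `D` is in `S(U)`:
`ev a D_0 ∈ mline m ≤ ann U`, `ev a D_{i+1} - lev b D_i ∈ ann U` by (*). `ev a D_0 ∈ P_U ⊓ mline m = ⊥`
(`disj`), so `ev a D_0 = 0`. By `hi` `lev b D_0 ∈ ann U`, so `D_0 ∈ DerOver K_U` and
`lev ub D_0 ∈ Bh`. By `IsSeq.shift` `ev a D_1 ∈ P_U`. `lev ub D_0 = ev a D_1 + c m` for some `c`, so
`ev a D_1 = lev ub D_0 - c m ∈ P_U ⊓ (Bh ⊔ mline m) = ⊥`, so `lev ub D_0 = c m` and
`t_0 = (0, (c + c_0) m)`.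
-/

set_option autoImplicit false

namespace Pool.Agent.EXL

open Module

variable {ι : Type} [Fintype ι]

/-- The line of the orders is not in `Bh`. -/
private lemma good_notMem (k : Subfield ℂ) (a b : ι → ℂ) (U : Submodule ℚ (ι → ℚ))
    (ub : ι → ℂ) (m : ι → ℤ) (g : GoodData k a b U ub m) :
    (fun j => (m j : ℂ)) ∉ Bh k a b U ub := by
  intro hmem
  have h1 : Bh k a b U ub ⊔ mline m = Bh k a b U ub := by
    apply le_antisymm
    · refine sup_le le_rfl ?_
      unfold mline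
      rw [Submodule.span_singleton_le_iff_mem]
      exact hmem
    · exact le_sup_left
  have h2 := g.dim_eq
  rw [h1] at h2
  exact absurd h2 g.dim_lt.ne

theorem good_ne (k : Subfield ℂ) (a b : ι → ℂ) (U : Submodule ℚ (ι → ℚ))
    (ub : ι → ℂ) (m : ι → ℤ) (g : GoodData k a b U ub m) : m ≠ 0 := by
  rintro rfl
  apply good_notMem k a b U ub 0 g
  have : (fun j => (((0 : ι → ℤ) j : ℤ) : ℂ)) = 0 := by
    funext j
    simp
  rw [this]
  exact zero_mem _

theorem good_td (k : Subfield ℂ) (a b : ι → ℂ) (h : HypA k a b) (U : Submodule ℚ (ι → ℚ))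
    (ub : ι → ℂ) (m : ι → ℤ) (g : GoodData k a b U ub m) :
    td (k : Set ℂ) (Sum.elim a ub) + 1 ≤ Fintype.card ι := by
  have hnot : ((0 : ι → ℂ), fun j => (m j : ℂ)) ∉ TT k a ub := by
    rintro ⟨D, hD, hDe⟩
    have h1 : ev a D = 0 := congrArg Prod.fst hDe
    have h2 : lev ub D = fun j => (m j : ℂ) := congrArg Prod.snd hDe
    apply good_notMem k a b U ub m g
    rw [← h2]
    refine ⟨D, (mem_derOver_KU h.1).2 ⟨hD, h1, ?_⟩, rfl⟩
    have h3 : lev ub D ∈ ann U := by
      rw [h2]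
      exact g.m_mem
    have h6 := sub_mem h3 (g.star h.1 D)
    rwa [sub_sub_cancel] at h6
  have hlt : TT k a ub < T1 k a ub m := by
    refine lt_of_le_of_ne le_sup_left fun heq => hnot ?_
    rw [heq]
    exact Submodule.mem_sup_right (Submodule.mem_span_singleton_self _)
  have h1 := Submodule.finrank_lt_finrank_of_lt hlt
  rw [finrank_T1 k a b h U ub m g, finrank_T k a ub g.ub_ne] at h1
  exact h1

theorem good_surj (k : Subfield ℂ) (a b : ι → ℂ) (h : HypA k a b) (U : Submodule ℚ (ι → ℚ))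
    (hi : InjU k a b U) (ub : ι → ℂ) (m : ι → ℤ) (g : GoodData k a b U ub m) :
    ∃ ε : ℂ, ∀ v : ι → ℂ, ∃ D ∈ DerOver (k : Set ℂ), ∃ c : ℂ,
      v = ev a D - ε • lev ub D + c • fun j => (m j : ℂ) := by
  by_contra hno
  have hb := h.1
  set mv : ι → ℂ := fun j => (m j : ℂ) with hmv
  have hmv0 : mv ≠ 0 := by
    intro h0
    apply good_ne k a b U ub m g
    funext j
    have := congrFun h0 j
    simpa [hmv] using this
  -- elements of `T1`
  have hT1 : ∀ x : T1 k a ub m, ∃ D ∈ DerOver (k : Set ℂ), ∃ c : ℂ,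
      (x : (ι → ℂ) × (ι → ℂ)) = (ev a D, lev ub D + c • mv) := by
    intro x
    obtain ⟨x1, ⟨D, hD, rfl⟩, x2, hx2, hx⟩ := Submodule.mem_sup.1 x.2
    obtain ⟨c, rfl⟩ := Submodule.mem_span_singleton.1 hx2
    refine ⟨D, hD, c, ?_⟩
    rw [← hx]
    change (ev a D + c • (0 : ι → ℂ), lev ub D + c • mv) = _
    rw [smul_zero, add_zero]
  let A : T1 k a ub m →ₗ[ℂ] ((ι → ℂ) ⧸ mline m) :=
    (mline m).mkQ ∘ₗ LinearMap.fst ℂ (ι → ℂ) (ι → ℂ) ∘ₗ (T1 k a ub m).subtype
  let B : T1 k a ub m →ₗ[ℂ] ((ι → ℂ) ⧸ mline m) :=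
    (mline m).mkQ ∘ₗ LinearMap.snd ℂ (ι → ℂ) (ι → ℂ) ∘ₗ (T1 k a ub m).subtype
  have hAB : ∀ ε : ℂ, ¬ Function.Surjective (A - ε • B) := by
    intro ε hs
    apply hno
    refine ⟨ε, fun v => ?_⟩
    obtain ⟨x, hx⟩ := hs ((mline m).mkQ v)
    obtain ⟨D, hD, c, hxD⟩ := hT1 x
    have h1 : (mline m).mkQ (ev a D - ε • (lev ub D + c • mv)) = (mline m).mkQ v := by
      rw [← hx, LinearMap.sub_apply, LinearMap.smul_apply, map_sub, map_smul]
      change _ = (mline m).mkQ (x : (ι → ℂ) × (ι → ℂ)).1 -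
        ε • (mline m).mkQ (x : (ι → ℂ) × (ι → ℂ)).2
      rw [hxD]
    have h2 : v - (ev a D - ε • (lev ub D + c • mv)) ∈ mline m := by
      rw [← Submodule.Quotient.mk_eq_zero, ← Submodule.mkQ_apply, map_sub, h1, sub_self]
    obtain ⟨c', hc'⟩ := Submodule.mem_span_singleton.1 h2
    refine ⟨D, hD, c' - ε * c, ?_⟩
    have h3 : v = c' • mv + (ev a D - ε • (lev ub D + c • mv)) := by
      rw [hmv, hc', sub_add_cancel]
    rw [h3, smul_add, smul_smul, sub_smul]
    abel
  have hpen := pen_two A B hAB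
  have hml : finrank ℂ (mline m) = 1 := finrank_span_singleton hmv0
  have hQ : finrank ℂ ((ι → ℂ) ⧸ mline m) + 1 = Fintype.card ι := by
    have := Submodule.finrank_quotient_add_finrank (mline m)
    rw [hml, Module.finrank_pi] at this
    exact this
  have hV : finrank ℂ (T1 k a ub m) = Fintype.card ι := finrank_T1 k a b h U ub m g
  rw [hV] at hpen
  -- `S₀` is contained in the line of `(0, m)`
  have hle : (penS A B).map (T1 k a ub m).subtype ≤
      Submodule.span ℂ {((0 : ι → ℂ), mv)} := by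
    rintro _ ⟨x, ⟨t, rfl, h0, h1⟩, rfl⟩
    choose D hD c hDc using fun i => hT1 (t i)
    have hA : ∀ x : T1 k a ub m, A x = (mline m).mkQ (x : (ι → ℂ) × (ι → ℂ)).1 := fun _ => rfl
    have hB : ∀ x : T1 k a ub m, B x = (mline m).mkQ (x : (ι → ℂ) × (ι → ℂ)).2 := fun _ => rfl
    have hml_ann : mline m ≤ ann U := by
      unfold mline
      rw [Submodule.span_singleton_le_iff_mem]
      exact g.m_mem
    have h0' : ev a (D 0) ∈ mline m := by
      rw [hA, hDc 0, Submodule.mkQ_apply, Submodule.Quotient.mk_eq_zero] at h0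
      exact h0
    have h1' : ∀ i, ev a (D (i + 1)) - (lev ub (D i) + c i • mv) ∈ mline m := by
      intro i
      have h2 := h1 i
      rw [hA, hB, hDc (i + 1), hDc i, ← sub_eq_zero, ← map_sub, Submodule.mkQ_apply,
        Submodule.Quotient.mk_eq_zero] at h2
      exact h2
    have hmm : mv ∈ mline m := Submodule.mem_span_singleton_self _
    have h2' : ∀ i, ev a (D (i + 1)) - lev ub (D i) ∈ mline m := by
      intro i
      have h3 := add_mem (h1' i) (Submodule.smul_mem _ (c i) hmm)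
      have h4 : ev a (D (i + 1)) - (lev ub (D i) + c i • mv) + c i • mv =
          ev a (D (i + 1)) - lev ub (D i) := by abel
      rwa [h4] at h3
    have hseq : IsSeq k a b U D := by
      refine ⟨hD, hml_ann h0', fun i => ?_⟩
      have h3 := add_mem (hml_ann (h2' i)) (g.star hb (D i))
      rwa [sub_add_sub_cancel] at h3
    have hPm : PU k a b U ⊓ (Bh k a b U ub ⊔ mline m) = ⊥ := g.disj
    have hz : ev a (D 0) = 0 := by
      have h3 : ev a (D 0) ∈ PU k a b U ⊓ (Bh k a b U ub ⊔ mline m) :=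
        ⟨⟨D, hseq, rfl⟩, Submodule.mem_sup_right h0'⟩
      rw [hPm] at h3
      exact h3
    have hlev : lev b (D 0) ∈ ann U := hi D hseq hz
    have hBh : lev ub (D 0) ∈ Bh k a b U ub :=
      ⟨D 0, (mem_derOver_KU hb).2 ⟨hD 0, hz, hlev⟩, rfl⟩
    have hsh := hseq.shift hlev
    obtain ⟨c', hc'⟩ := Submodule.mem_span_singleton.1 (h2' 0)
    have h4 : ev a (D (0 + 1)) = lev ub (D 0) + c' • mv := by
      have h5 : ev a (D (0 + 1)) = (ev a (D (0 + 1)) - lev ub (D 0)) + lev ub (D 0) := by abel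
      rw [h5, ← hc', add_comm]
    have h6 : ev a (D (0 + 1)) ∈ PU k a b U ⊓ (Bh k a b U ub ⊔ mline m) := by
      refine ⟨⟨_, hsh, rfl⟩, ?_⟩
      rw [h4]
      exact Submodule.add_mem_sup hBh (Submodule.smul_mem _ _ hmm)
    rw [hPm] at h6
    have h7 : lev ub (D 0) = (-c') • mv := by
      have h8 : lev ub (D 0) + c' • mv = 0 := by
        rw [← h4]
        exact h6
      rw [neg_smul]
      exact eq_neg_of_add_eq_zero_left h8
    rw [Submodule.mem_span_singleton]
    refine ⟨-c' + c 0, ?_⟩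
    rw [Submodule.subtype_apply, hDc 0, hz, h7, ← add_smul]
    change ((-c' + c 0) • (0 : ι → ℂ), (-c' + c 0) • mv) = _
    rw [smul_zero]
  have h9 : finrank ℂ (penS A B) ≤ 1 := by
    have h10 : finrank ℂ ((penS A B).map (T1 k a ub m).subtype) = finrank ℂ (penS A B) :=
      Submodule.finrank_map_subtype_eq _ _
    rw [← h10]
    refine (Submodule.finrank_mono hle).trans ?_
    exact (finrank_span_le_card _).trans (by simp)
  omega

end Pool.Agent.EXL
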