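import Pool.Agent.EXI.ADefs

/-!
# EXI / ALead: orders and leading coefficients of monomials under a degeneration

PROOF.  For a Laurent series `f` say that `(m, c)`, `c ≠ 0`, is its leading term if `f.coeff i = 0`
for `i < m` and `f.coeff m = c`; then `f ≠ 0`, `f.order = m`, `f.leadingCoeff = c`, and conversely.
`HahnSeries.order_mul`, `leadingCoeff_mul` (or `coeff_mul` directly), `order` of the inverse:
products and inverses of leading terms; so
`σ (mon b u) = ∏ (σ b_j)^(u_j)` has the leading term `(∑ u_j m_j, ∏ (u_j-th powers of the leading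
coefficients))`. `mon b u ∈ K(b)` because `K(b)` is a field. Second statement: if `mon b u ∈ K` then
`σ (mon b u) = C (mon b u)` (`σ_const`), with leading term `(0, mon b u)`; compare.
-/

set_option autoImplicit false

namespace Pool.Agent.EXL

open Module

variable {ι : Type} [Fintype ι]

lemma mon_mem_Kb (K : Subfield ℂ) (b : ι → ℂ) (u : ι → ℤ) : mon b u ∈ Kb K b :=
  Subfield.prod_mem _ fun j _ => (Kb K b).zpow_mem (mem_Kb K b j) (u j)

/-- `(m, c)` is the leading term of `f`. -/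
private def Lead {Ω : Type} [Field Ω] (f : LaurentSeries Ω) (m : ℤ) (c : Ω) : Prop :=
  (∀ i < m, f.coeff i = 0) ∧ f.coeff m = c ∧ c ≠ 0

private lemma Lead.ne_zero {Ω : Type} [Field Ω] {f : LaurentSeries Ω} {m : ℤ} {c : Ω}
    (h : Lead f m c) : f ≠ 0 := by
  rintro rfl
  apply h.2.2
  rw [← h.2.1, HahnSeries.coeff_zero]

private lemma Lead.order {Ω : Type} [Field Ω] {f : LaurentSeries Ω} {m : ℤ} {c : Ω}
    (h : Lead f m c) : f.order = m := by
  apply le_antisymm
  · apply HahnSeries.order_le_of_coeff_ne_zero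
    rw [h.2.1]
    exact h.2.2
  · by_contra hlt
    push Not at hlt
    exact HahnSeries.coeff_order_eq_zero.not.2 h.ne_zero (h.1 _ hlt)

private lemma lead_of_ne_zero {Ω : Type} [Field Ω] {f : LaurentSeries Ω} (h : f ≠ 0) :
    Lead f f.order (f.coeff f.order) :=
  ⟨fun _ hi => HahnSeries.coeff_eq_zero_of_lt_order hi, rfl,
    HahnSeries.coeff_order_eq_zero.not.2 h⟩

private lemma Lead.mul {Ω : Type} [Field Ω] {f g : LaurentSeries Ω} {m n : ℤ} {c d : Ω}
    (hf : Lead f m c) (hg : Lead g n d) : Lead (f * g) (m + n) (c * d) := by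
  have h1 : (f * g).order = m + n := by
    rw [HahnSeries.order_mul hf.ne_zero hg.ne_zero, hf.order, hg.order]
  have h2 : (f * g).coeff (m + n) = c * d := by
    have h3 := HahnSeries.coeff_mul_order_add_order f g
    rw [hf.order, hg.order, HahnSeries.leadingCoeff_eq, HahnSeries.leadingCoeff_eq, hf.order,
      hg.order, hf.2.1, hg.2.1] at h3
    exact h3
  refine ⟨fun i hi => HahnSeries.coeff_eq_zero_of_lt_order (by rw [h1]; exact hi), h2,
    mul_ne_zero hf.2.2 hg.2.2⟩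

private lemma lead_one {Ω : Type} [Field Ω] : Lead (1 : LaurentSeries Ω) 0 1 := by
  refine ⟨fun i hi => ?_, ?_, one_ne_zero⟩
  · rw [HahnSeries.coeff_one, if_neg hi.ne]
  · rw [HahnSeries.coeff_one, if_pos rfl]

private lemma Lead.unique {Ω : Type} [Field Ω] {f : LaurentSeries Ω} {m n : ℤ} {c d : Ω}
    (h : Lead f m c) (h' : Lead f n d) : m = n ∧ c = d := by
  have h1 : m = n := by rw [← h.order, h'.order]
  subst h1
  exact ⟨rfl, by rw [← h.2.1, h'.2.1]⟩

private lemma Lead.inv {Ω : Type} [Field Ω] {f : LaurentSeries Ω} {m : ℤ} {c : Ω}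
    (h : Lead f m c) : Lead f⁻¹ (-m) c⁻¹ := by
  have h1 := lead_of_ne_zero (inv_ne_zero h.ne_zero)
  have h2 := h.mul h1
  rw [mul_inv_cancel₀ h.ne_zero] at h2
  obtain ⟨h3, h4⟩ := h2.unique lead_one
  have h5 : (f⁻¹).order = -m := by omega
  have h6 : (f⁻¹).coeff (f⁻¹).order = c⁻¹ := by
    rw [eq_comm, inv_eq_iff_eq_inv, eq_comm]
    exact inv_eq_of_mul_eq_one_left h4
  rw [h6, h5] at h1
  exact h1

private lemma Lead.pow {Ω : Type} [Field Ω] {f : LaurentSeries Ω} {m : ℤ} {c : Ω}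
    (h : Lead f m c) (n : ℕ) : Lead (f ^ n) (n * m) (c ^ n) := by
  induction n with
  | zero =>
    simp only [pow_zero, Nat.cast_zero, zero_mul]
    exact lead_one
  | succ n ih =>
    rw [pow_succ, pow_succ]
    have h1 : ((n + 1 : ℕ) : ℤ) * m = n * m + m := by push_cast; ring
    rw [h1]
    exact ih.mul h

private lemma Lead.zpow {Ω : Type} [Field Ω] {f : LaurentSeries Ω} {m : ℤ} {c : Ω}
    (h : Lead f m c) (n : ℤ) : Lead (f ^ n) (n * m) (c ^ n) := by
  rcases n.eq_nat_or_neg with ⟨k, rfl | rfl⟩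
  · rw [zpow_natCast, zpow_natCast]
    exact h.pow k
  · rw [zpow_neg, zpow_neg, zpow_natCast, zpow_natCast, neg_mul]
    exact (h.pow k).inv

private lemma lead_prod {Ω : Type} [Field Ω] {ι : Type} (s : Finset ι)
    (f : ι → LaurentSeries Ω) (m : ι → ℤ) (c : ι → Ω) (h : ∀ j, Lead (f j) (m j) (c j)) :
    Lead (∏ j ∈ s, f j) (∑ j ∈ s, m j) (∏ j ∈ s, c j) := by
  classical
  induction s using Finset.induction_on with
  | empty => simpa using lead_one
  | insert j s hj ih =>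
    rw [Finset.prod_insert hj, Finset.prod_insert hj, Finset.sum_insert hj]
    exact (h j).mul ih

private lemma lead_mon_aux {K Ω : Subfield ℂ} (b : ι → ℂ) (h : K ≤ Ω) (d : Degen K b h)
    (u : ι → ℤ) :
    Lead (d.σ ⟨mon b u, mon_mem_Kb K b u⟩) (∑ j, u j * d.m j) (∏ j, (d.u j) ^ (u j)) := by
  have h1 : (⟨mon b u, mon_mem_Kb K b u⟩ : Kb K b) = ∏ j, (⟨b j, mem_Kb K b j⟩ : Kb K b) ^ u j := by
    apply Subtype.ext
    have h2 : ((∏ j, (⟨b j, mem_Kb K b j⟩ : Kb K b) ^ u j : Kb K b) : ℂ) =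
        ∏ j, ((⟨b j, mem_Kb K b j⟩ : Kb K b) : ℂ) ^ u j := by
      have := map_prod (Kb K b).subtype (fun j => (⟨b j, mem_Kb K b j⟩ : Kb K b) ^ u j)
        Finset.univ
      rw [Subfield.subtype_apply] at this
      rw [this]
      refine Finset.prod_congr rfl fun j _ => ?_
      rw [map_zpow₀, Subfield.subtype_apply]
    rw [h2]
    rfl
  rw [h1, map_prod]
  refine lead_prod _ _ _ _ fun j => ?_
  rw [map_zpow₀]
  exact Lead.zpow ⟨d.coeff_lt j, d.coeff_m j, d.u_ne j⟩ (u j)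

private lemma coe_prod_zpow {Ω : Subfield ℂ} (v : ι → Ω) (u : ι → ℤ) :
    ((∏ j, (v j) ^ (u j) : Ω) : ℂ) = mon (fun j => ((v j : Ω) : ℂ)) u := by
  have := map_prod Ω.subtype (fun j => v j ^ u j) Finset.univ
  rw [Subfield.subtype_apply] at this
  rw [this]
  refine Finset.prod_congr rfl fun j _ => ?_
  rw [map_zpow₀, Subfield.subtype_apply]

theorem lead_mon {K Ω : Subfield ℂ} (b : ι → ℂ) (h : K ≤ Ω) (d : Degen K b h) (u : ι → ℤ) :
    (∀ i < ∑ j, u j * d.m j, (d.σ ⟨mon b u, mon_mem_Kb K b u⟩).coeff i = 0) ∧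
      (((d.σ ⟨mon b u, mon_mem_Kb K b u⟩).coeff (∑ j, u j * d.m j) : Ω) : ℂ) =
        mon (fun j => ((d.u j : Ω) : ℂ)) u := by
  have h1 := lead_mon_aux b h d u
  refine ⟨h1.1, ?_⟩
  rw [h1.2.1, coe_prod_zpow]

theorem lead_mon_const {K Ω : Subfield ℂ} (b : ι → ℂ) (h : K ≤ Ω) (d : Degen K b h) (u : ι → ℤ)
    (hu : mon b u ∈ K) :
    ∑ j, u j * d.m j = 0 ∧ mon (fun j => ((d.u j : Ω) : ℂ)) u = mon b u := by
  have h1 := lead_mon_aux b h d u
  have h2 : d.σ ⟨mon b u, mon_mem_Kb K b u⟩ = HahnSeries.C (⟨mon b u, h hu⟩ : Ω) :=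
    d.σ_const _ hu
  rw [h2] at h1
  have h0 : (⟨mon b u, h hu⟩ : Ω) ≠ 0 := by
    intro h3
    rw [h3, map_zero] at h1
    exact h1.ne_zero rfl
  have h4 : Lead (HahnSeries.C (⟨mon b u, h hu⟩ : Ω)) 0 (⟨mon b u, h hu⟩ : Ω) := by
    refine ⟨fun i hi => ?_, ?_, h0⟩
    · rw [HahnSeries.C_apply, HahnSeries.coeff_single_of_ne hi.ne]
    · rw [HahnSeries.C_apply, HahnSeries.coeff_single_same]
  obtain ⟨h5, h6⟩ := h1.unique h4
  refine ⟨h5, ?_⟩
  rw [← coe_prod_zpow, h6]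

end Pool.Agent.EXL
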