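import Pool.Agent.EXI.AT1
import Pool.Agent.EXI.ALead

/-!
# EXI / AGe: the data of Theorem T

PROOF.  `ub_j = d.u j ≠ 0`. `orth`, `mon_eq`: `lead_mon_const` with `mon b u ∈ K_U` (`mon_mem_KU`).
`disj`: `PU ≤ P` and `P`, `Bh ⊔ mline m` are disjoint (`hc`). `dim_eq`: `Bh ⊔ mline m` and `BB` are
both complements of `P` (`hc`, `hPB`; `Submodule.finrank_add_eq_of_isCompl`). `dim_lt`:
`finrank Bh = rk (DerOver K_U) ub` (`finrank_lev`) `≤ rk (DerOver K_U) τ = r` (`rk_le_of_dep`: if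
`D ∈ DerOver K_U` kills `τ` then `D ∈ DerOver (K_U ∪ range τ)` kills `ub_j ∈ Om K_U τ`), and
`finrank BB = td K_U b = r + 1` (`finrank_lev`).
-/

set_option autoImplicit false

namespace Pool.Agent.EXL

open Module

variable {ι : Type} [Fintype ι]

theorem good_data (k : Subfield ℂ) (a b : ι → ℂ) (hb : ∀ j, b j ≠ 0) (U : Submodule ℚ (ι → ℚ))
    (P : Submodule ℂ (ι → ℂ)) (hPU : PU k a b U ≤ P) (hPB : IsCompl P (BB k a b U)) (r : ℕ)
    (hr : td (KU k a b U : Set ℂ) b = r + 1) (τ : Fin r → ℂ)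
    (d : Degen (KU k a b U) b (le_Om (KU k a b U) τ)) (hτ : td (KU k a b U : Set ℂ) τ = r)
    (hc : IsCompl P ((DerOver (KU k a b U : Set ℂ)).map
      (lev fun j => ((d.u j : Om (KU k a b U) τ) : ℂ)) ⊔
        Submodule.span ℂ {fun j => (d.m j : ℂ)})) :
    GoodData k a b U (fun j => ((d.u j : Om (KU k a b U) τ) : ℂ)) d.m := by
  have hne : ∀ j, ((d.u j : Om (KU k a b U) τ) : ℂ) ≠ 0 := by
    intro j h
    exact d.u_ne j (Subtype.ext h)
  refine ⟨hne, ?_, ?_, ?_, ?_, ?_⟩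
  · intro u hu
    exact (lead_mon_const b _ d u (mon_mem_KU k a b U hu)).1
  · intro u hu
    exact (lead_mon_const b _ d u (mon_mem_KU k a b U hu)).2
  · rw [eq_bot_iff]
    exact (inf_le_inf_right _ hPU).trans hc.disjoint.le_bot
  · have h1 := Submodule.finrank_add_eq_of_isCompl hc
    have h2 := Submodule.finrank_add_eq_of_isCompl hPB
    have h3 : finrank ℂ (Bh k a b U (fun j => ((d.u j : Om (KU k a b U) τ) : ℂ)) ⊔
        mline d.m : Submodule ℂ (ι → ℂ)) = finrank ℂ ((DerOver (KU k a b U : Set ℂ)).map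
      (lev fun j => ((d.u j : Om (KU k a b U) τ) : ℂ)) ⊔
        Submodule.span ℂ {fun j => (d.m j : ℂ)} : Submodule ℂ (ι → ℂ)) := rfl
    omega
  · have h1 : finrank ℂ (Bh k a b U (fun j => ((d.u j : Om (KU k a b U) τ) : ℂ))) =
        rk (DerOver (KU k a b U : Set ℂ)) (fun j => ((d.u j : Om (KU k a b U) τ) : ℂ)) :=
      finrank_lev hne _
    have h2 : finrank ℂ (BB k a b U) = rk (DerOver (KU k a b U : Set ℂ)) b :=
      finrank_lev hb _
    have h3 : rk (DerOver (KU k a b U : Set ℂ)) (fun j => ((d.u j : Om (KU k a b U) τ) : ℂ)) ≤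
        rk (DerOver (KU k a b U : Set ℂ)) τ := by
      refine rk_le_of_dep _ _ _ ?_
      intro D hD hDτ j
      have h4 : D ∈ DerOver (((KU k a b U : Subfield ℂ) : Set ℂ) ∪ Set.range τ) := by
        intro x hx
        rcases hx with hx | ⟨i, rfl⟩
        · exact hD x hx
        · exact hDτ i
      exact (d.u j).2 D h4
    have h5 : rk (DerOver (KU k a b U : Set ℂ)) τ = r := hτ
    have h6 : rk (DerOver (KU k a b U : Set ℂ)) b = r + 1 := hr
    omega

end Pool.Agent.EXL
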