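import Pool.Agent.EXI.AMst

/-!
# EXI / AMax: a rational subspace of maximal defect (MAX)

PROOF.  `ee BB P U ≤ 3 card ι` is bounded (each of the three dimensions is at most `card ι`), so
choose `U₁` with `ee BB P U₁` maximal; by `axt` it is at least `card ι + 1`. Put `U = U₁ ⊔ U₀`. As
`BB ≤ ann U₀` and `ann U = ann U₁ ⊓ ann U₀` (`ann_sup`): `BB ⊓ ann U = BB ⊓ ann U₁`, the same for
`P`, and `finrank U₁ ≤ finrank U`, so `ee BB P U ≥ ee BB P U₁` is also maximal, and `ee_step` gives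
the last statement.
-/

set_option autoImplicit false

namespace Pool.Agent.EXL

open Module

variable {ι : Type} [Fintype ι]

private lemma amax_bound (B P : Submodule ℂ (ι → ℂ)) (U : Submodule ℚ (ι → ℚ)) :
    ee B P U ≤ 3 * Fintype.card ι := by
  unfold ee
  have h1 : finrank ℂ (B ⊓ ann U : Submodule ℂ (ι → ℂ)) ≤ Fintype.card ι :=
    (Submodule.finrank_le _).trans (Module.finrank_fintype_fun_eq_card ℂ).le
  have h2 : finrank ℂ (P ⊓ ann U : Submodule ℂ (ι → ℂ)) ≤ Fintype.card ι :=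
    (Submodule.finrank_le _).trans (Module.finrank_fintype_fun_eq_card ℂ).le
  have h3 : finrank ℚ U ≤ Fintype.card ι :=
    (Submodule.finrank_le _).trans (Module.finrank_fintype_fun_eq_card ℚ).le
  omega

theorem exists_ee_max (K : Subfield ℂ) (b : ι → ℂ) (hb : ∀ j, b j ≠ 0)
    (P : Submodule ℂ (ι → ℂ)) (hP : Stab (DerOver (K : Set ℂ)) P) (U₀ : Submodule ℚ (ι → ℚ))
    (hB₀ : (DerOver (K : Set ℂ)).map (lev b) ≤ ann U₀) (hP₀ : P ≤ ann U₀)
    (hne : (DerOver (K : Set ℂ)).map (lev b) ⊓ P ≠ ⊥) :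
    ∃ U : Submodule ℚ (ι → ℚ), U₀ ≤ U ∧
      Fintype.card ι + 1 ≤ ee ((DerOver (K : Set ℂ)).map (lev b)) P U ∧
      ((DerOver (K : Set ℂ)).map (lev b) ⊔ ann U) ⊓ (P ⊔ ann U) ≤ ann U := by
  obtain ⟨V, hV⟩ := axt K b hb P hP hne
  set B := (DerOver (K : Set ℂ)).map (lev b) with hB
  -- a subspace of maximal defect
  obtain ⟨U₁, hU₁⟩ : ∃ U₁ : Submodule ℚ (ι → ℚ), ∀ U, ee B P U ≤ ee B P U₁ := by
    have hfin : (Set.range fun U : Submodule ℚ (ι → ℚ) => ee B P U).Finite := by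
      refine (Set.finite_Iic (3 * Fintype.card ι)).subset ?_
      rintro _ ⟨U, rfl⟩
      exact amax_bound B P U
    obtain ⟨m, ⟨U₁, rfl⟩, hm⟩ := hfin.exists_maximal ⟨_, V, rfl⟩
    refine ⟨U₁, fun U => ?_⟩
    rcases le_total (ee B P U) (ee B P U₁) with h | h
    · exact h
    · exact hm ⟨U, rfl⟩ h
  refine ⟨U₁ ⊔ U₀, le_sup_right, ?_, ?_⟩
  all_goals
    have hle : ee B P U₁ ≤ ee B P (U₁ ⊔ U₀) := by
      have h1 : B ⊓ ann (U₁ ⊔ U₀) = B ⊓ ann U₁ := by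
        rw [ann_sup, ← inf_assoc]
        exact inf_eq_left.2 (inf_le_left.trans hB₀)
      have h2 : P ⊓ ann (U₁ ⊔ U₀) = P ⊓ ann U₁ := by
        rw [ann_sup, ← inf_assoc]
        exact inf_eq_left.2 (inf_le_left.trans hP₀)
      have h3 : finrank ℚ U₁ ≤ finrank ℚ (U₁ ⊔ U₀ : Submodule ℚ (ι → ℚ)) :=
        Submodule.finrank_mono le_sup_left
      unfold ee
      rw [h1, h2]
      omega
  · exact (hV.trans (hU₁ V)).trans hle
  · by_contra hcon
    obtain ⟨U₂, hU₂⟩ := ee_step K b hb P hP (U₁ ⊔ U₀) hcon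
    exact absurd (hU₁ U₂) (not_le.2 (lt_of_le_of_lt hle hU₂))

end Pool.Agent.EXL
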