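import Pool.Agent.EXI.ADefs

/-!
# EXI / AStp: `P_U` is stable under the derivations over `K_U` (STP)

PROOF.  Let `D₀ ∈ DerOver K_U` (so `D₀ ∈ DerOver k`, `D₀ a = 0`, `lev b D₀ ∈ ann U`) and let `D_i` be
a sequence in `S(U)`. Put `D'_i = ⁅D₀, D_i⁆ ∈ DerOver k`. By `ev_commutator`, `lev_commutator`:
`ev a D'_i = D₀ (ev a D_i)` (since `ev a D₀ = 0`) and
`lev b D'_i = D₀ (lev b D_i) - D_i (lev b D₀)`, with `D_i (lev b D₀) ∈ ann U` (`ann_stab`). So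
`ev a D'_0 = D₀ (ev a D_0) ∈ ann U` and
`ev a D'_{i+1} - lev b D'_i = D₀ (ev a D_{i+1} - lev b D_i) + D_i (lev b D₀) ∈ ann U`. So `D'` is in
`S(U)` and `D₀ (ev a D_0) = ev a D'_0 ∈ P_U`.
-/

set_option autoImplicit false

namespace Pool.Agent.EXL

variable {ι : Type} [Fintype ι]

theorem stab_PU (k : Subfield ℂ) (a b : ι → ℂ) (hb : ∀ j, b j ≠ 0) (U : Submodule ℚ (ι → ℚ)) :
    Stab (DerOver (KU k a b U : Set ℂ)) (PU k a b U) := by
  rintro D₀ hD₀ _ ⟨D, hD, rfl⟩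
  obtain ⟨h1, h2, h3⟩ := (mem_derOver_KU hb).1 hD₀
  have key1 : ∀ i, ev a ⁅D₀, D i⁆ = fun j => D₀ (ev a (D i) j) := by
    intro i
    rw [ev_commutator, h2]
    funext j
    rw [Pi.sub_apply, Pi.zero_apply, map_zero, sub_zero]
  refine ⟨fun i => ⁅D₀, D i⁆, ⟨fun i x hx => ?_, ?_, fun i => ?_⟩, ?_⟩
  · rw [Derivation.commutator_apply, h1 x hx, hD.1 i x hx, map_zero, map_zero, sub_zero]
  · rw [key1]
    exact ann_stab U D₀ hD.2.1
  · have e : ev a ⁅D₀, D (i + 1)⁆ - lev b ⁅D₀, D i⁆ =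
        (fun j => D₀ ((ev a (D (i + 1)) - lev b (D i)) j)) + fun j => D i (lev b D₀ j) := by
      rw [key1, lev_commutator b hb]
      funext j
      simp only [Pi.sub_apply, Pi.add_apply, map_sub]
      ring
    show ev a ⁅D₀, D (i + 1)⁆ - lev b ⁅D₀, D i⁆ ∈ ann U
    rw [e]
    exact add_mem (ann_stab U D₀ (hD.2.2 i)) (ann_stab U (D i) h3)
  · exact key1 0

end Pool.Agent.EXL
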