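import Pool.Agent.EXI.ADim
import Pool.Agent.EXI.AMax
import Pool.Agent.EXI.AStp

/-!
# EXI / AMin: the minimal rational subspace (MIN)

PROOF.  Among the `U` with `InjU k a b U` and `1 ≤ finrank (BB k a b U)` choose one with maximal
`finrank ℚ U` (`≤ card ι`). There is one: `U = ⊥`: `ann ⊥ = ⊤`, so `InjU` is trivial, and
`DerOver (KU k a b ⊥) = DerOver (k ∪ range a)` (`mem_derOver_KU`: `D ∈ DerOver k`, `ev a D = 0`), so
`finrank (BB ⊥) = td (k ∪ range a) b = card ι - td k a ≥ 1` (`finrank_lev`, `td_sum`).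
Suppose `BB_U ⊓ P_U ≠ ⊥`. Apply `exists_ee_max` with `K = K_U`, `P = P_U` (`stab_PU`), `U₀ = U`
(`BB_le_ann`, `PU_le_ann`): there is `U' ≥ U` with `ee BB_U P_U U' ≥ card ι + 1` and
`(BB_U ⊔ ann U') ⊓ (P_U ⊔ ann U') ≤ ann U'`. `dim_PU` gives `ee BB_U P_U U = card ι`, so
`U' ≠ U` and `finrank U < finrank U'`. Claim: `InjU U'` and `1 ≤ finrank (BB U')`; this contradicts
the choice of `U`.
`BB U' = BB U ⊓ ann U'` (`mem_derOver_KU`, `ann U' ≤ ann U`), and
`finrank (P_U ⊓ ann U') ≤ finrank (ann U') = card ι - finrank U'` (`finrank_ann`), so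
`finrank (BB U') = finrank (BB U ⊓ ann U') ≥ 1`.
`InjU U'`: let `D` be in `S(U')` with `ev a (D 0) = 0`. As `ann U' ≤ ann U`, `D` is in `S(U)`, so
`lev b (D 0) ∈ ann U` (`InjU U`), hence `D 0 ∈ DerOver K_U` and `lev b (D 0) ∈ BB U`. By
`IsSeq.shift` `ev a (D 1) ∈ P_U`. `ev a (D 1) - lev b (D 0) ∈ ann U'`. So
`lev b (D 0) ∈ BB_U ⊓ (P_U ⊔ ann U') ≤ ann U'`.
-/

set_option autoImplicit false

namespace Pool.Agent.EXL

open Module

variable {ι : Type} [Fintype ι]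

theorem exists_min (k : Subfield ℂ) (a b : ι → ℂ) (h : HypA k a b)
    (hlt : td (k : Set ℂ) a < Fintype.card ι) :
    ∃ U : Submodule ℚ (ι → ℚ), InjU k a b U ∧ 1 ≤ finrank ℂ (BB k a b U) ∧
      PU k a b U ⊓ BB k a b U = ⊥ := by
  have h0 := h
  obtain ⟨hb, htd, -⟩ := h
  let S : Set ℕ := {n | ∃ U : Submodule ℚ (ι → ℚ), InjU k a b U ∧ 1 ≤ finrank ℂ (BB k a b U) ∧
    finrank ℚ U = n}
  have hbot : DerOver (KU k a b ⊥ : Set ℂ) = DerOver ((k : Set ℂ) ∪ Set.range a) := by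
    ext D
    rw [mem_derOver_KU hb, ann_bot, derOver_union, Submodule.mem_inf]
    constructor
    · rintro ⟨h1, h2, -⟩
      refine ⟨h1, ?_⟩
      rintro _ ⟨i, rfl⟩
      exact congrFun h2 i
    · rintro ⟨h1, h2⟩
      exact ⟨h1, funext fun i => h2 _ ⟨i, rfl⟩, Submodule.mem_top⟩
  have hS0 : (0 : ℕ) ∈ S := by
    refine ⟨⊥, ?_, ?_, finrank_bot ℚ _⟩
    · intro D _ _
      rw [ann_bot]
      exact Submodule.mem_top
    · have h1 : finrank ℂ (BB k a b ⊥) = td ((k : Set ℂ) ∪ Set.range a) b := by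
        unfold BB
        rw [finrank_lev hb, hbot]
        rfl
      have h2 := td_sum (k : Set ℂ) a b
      rw [htd] at h2
      omega
  have hSb : BddAbove S := by
    refine ⟨Fintype.card ι, ?_⟩
    rintro n ⟨U, -, -, rfl⟩
    have h1 := Submodule.finrank_le U
    rw [Module.finrank_fintype_fun_eq_card] at h1
    exact h1
  obtain ⟨U, hi, hBB, hU⟩ : sSup S ∈ S := Nat.sSup_mem ⟨0, hS0⟩ hSb
  refine ⟨U, hi, hBB, ?_⟩
  by_contra hne
  rw [inf_comm] at hne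
  obtain ⟨U', hle, hee, hmax⟩ := exists_ee_max (KU k a b U) b hb (PU k a b U)
    (stab_PU k a b hb U) U (BB_le_ann hb U) (PU_le_ann k a b U) hne
  have hdim := dim_PU k a b h0 U hi
  have hBBdef : (DerOver (KU k a b U : Set ℂ)).map (lev b) = BB k a b U := rfl
  rw [hBBdef] at hee hmax
  have hlt : finrank ℚ U < finrank ℚ U' := by
    apply Submodule.finrank_lt_finrank_of_lt
    refine lt_of_le_of_ne hle ?_
    rintro rfl
    unfold ee at hee
    rw [inf_eq_left.2 (BB_le_ann hb U), inf_eq_left.2 (PU_le_ann k a b U)] at hee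
    omega
  have hBB' : BB k a b U ⊓ ann U' ≤ BB k a b U' := by
    rintro _ ⟨⟨D, hD, rfl⟩, hD'⟩
    refine ⟨D, ?_, rfl⟩
    have h1 := (mem_derOver_KU hb).1 hD
    exact (mem_derOver_KU hb).2 ⟨h1.1, h1.2.1, hD'⟩
  have h1 : 1 ≤ finrank ℂ (BB k a b U') := by
    have h2 : finrank ℂ (BB k a b U ⊓ ann U' : Submodule ℂ (ι → ℂ)) ≤ finrank ℂ (BB k a b U') :=
      Submodule.finrank_mono hBB'
    have h3 : finrank ℂ (PU k a b U ⊓ ann U' : Submodule ℂ (ι → ℂ)) ≤ finrank ℂ (ann U') :=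
      Submodule.finrank_mono inf_le_right
    have h4 := finrank_ann U'
    unfold ee at hee
    omega
  have h2 : InjU k a b U' := by
    intro D hD hD0
    have hDU : IsSeq k a b U D :=
      ⟨hD.1, ann_anti hle hD.2.1, fun i => ann_anti hle (hD.2.2 i)⟩
    have h3 := hi D hDU hD0
    have h4 : D 0 ∈ DerOver (KU k a b U : Set ℂ) := (mem_derOver_KU hb).2 ⟨hD.1 0, hD0, h3⟩
    have h5 : lev b (D 0) ∈ BB k a b U := ⟨D 0, h4, rfl⟩
    have h6 : ev a (D 1) ∈ PU k a b U := ⟨fun i => D (i + 1), hDU.shift h3, rfl⟩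
    have h7 : lev b (D 0) ∈ PU k a b U ⊔ ann U' := by
      have h8 : lev b (D 0) = ev a (D 1) - (ev a (D (0 + 1)) - lev b (D 0)) := by
        rw [zero_add]
        abel
      rw [h8]
      exact sub_mem (Submodule.mem_sup_left h6) (Submodule.mem_sup_right (hD.2.2 0))
    exact hmax ⟨Submodule.mem_sup_left h5, h7⟩
  have h3 : finrank ℚ U' ≤ sSup S := le_csSup hSb ⟨U', h2, h1, rfl⟩
  omega

end Pool.Agent.EXL
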