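import Pool.Agent.EXI.AAxt

/-!
# EXI / AMst: increasing the defect number

PROOF.  Put `r = finrank U` and let `w : Fin r → ι → ℤ` be an integral basis of `U`
(`exists_int_basis_sub`), `b' i = mon b (w i)`, `π : ℂ^ι → ℂ^r`, `v ↦ (w_i . v)_i`; `ker π = ann U`
(`mem_ann_span`). `BB = lev b (DerOver K)`, `BB' := π BB = lev b' (DerOver K)` (`der_mon`),
`P' := π P` is stable under `DerOver K` (`D (π v) = π (D v)`, `w_i` is integral). By `hbig` there
is `x ∈ (BB ⊔ ann U) ⊓ (P ⊔ ann U)` with `x ∉ ann U`; `π x ≠ 0` is in `BB' ⊓ P'`. `axt` for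
`K, b', P'` gives `U' ≤ ℚ^r` with `r + 1 ≤ ee BB' P' U'`. Let `U₂ ≤ ℚ^ι` be the image of `U'`
under the injective map `g : ℚ^r → ℚ^ι`, `c ↦ ∑ c_i w_i`: `finrank U₂ = finrank U'`, and
`v ∈ ann U₂ ↔ π v ∈ ann U'` . The map `π : BB ⊓ ann U₂ → BB' ⊓ ann U'` is onto with kernel
`BB ⊓ ann U` (note `ann U ≤ ann U₂`: `π v = 0`), so
`finrank (BB ⊓ ann U₂) = finrank (BB' ⊓ ann U') + finrank (BB ⊓ ann U)`; the same for `P`. So
`ee BB P U₂ = ee BB' P' U' + ee BB P U - r ≥ ee BB P U + 1`.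
-/

set_option autoImplicit false

namespace Pool.Agent.EXL

open Module

variable {ι : Type} [Fintype ι]

private theorem amst_rn {V V' : Type*} [AddCommGroup V] [Module ℂ V] [AddCommGroup V']
    [Module ℂ V'] [FiniteDimensional ℂ V] (f : V →ₗ[ℂ] V') (S : Submodule ℂ V) :
    finrank ℂ (S.map f) + finrank ℂ (S ⊓ LinearMap.ker f : Submodule ℂ V) = finrank ℂ S := by
  have h1 := LinearMap.finrank_range_add_finrank_ker (f.domRestrict S)
  rw [LinearMap.range_domRestrict] at h1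
  have h2 : (S ⊓ LinearMap.ker f : Submodule ℂ V) =
      (LinearMap.ker (f.domRestrict S)).map S.subtype := by
    ext x
    constructor
    · rintro ⟨hx, hk⟩
      exact ⟨⟨x, hx⟩, hk, rfl⟩
    · rintro ⟨y, hy, rfl⟩
      exact ⟨y.2, hy⟩
  rw [h2, Submodule.finrank_map_subtype_eq]
  exact h1

/-- the projection -/
private noncomputable def amst_pi {κ : Type} [Fintype κ] (w : κ → ι → ℤ) :
    (ι → ℂ) →ₗ[ℂ] (κ → ℂ) where
  toFun v := fun i => ∑ j, (w i j : ℂ) * v j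
  map_add' u v := by
    funext i
    simp only [Pi.add_apply, mul_add, Finset.sum_add_distrib]
  map_smul' c v := by
    funext i
    simp only [Pi.smul_apply, smul_eq_mul, RingHom.id_apply, Finset.mul_sum]
    exact Finset.sum_congr rfl fun j _ => by ring

private theorem amst_pi_apply {κ : Type} [Fintype κ] (w : κ → ι → ℤ) (v : ι → ℂ) (i : κ) :
    amst_pi w v i = ∑ j, (w i j : ℂ) * v j := rfl

private theorem amst_fin {κ : Type} [Fintype κ] (w : κ → ι → ℤ) (S : Submodule ℂ (ι → ℂ))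
    (T : Submodule ℂ (κ → ℂ)) :
    finrank ℂ (S ⊓ T.comap (amst_pi w) : Submodule ℂ (ι → ℂ)) =
      finrank ℂ (S.map (amst_pi w) ⊓ T : Submodule ℂ (κ → ℂ)) +
        finrank ℂ (S ⊓ LinearMap.ker (amst_pi w) : Submodule ℂ (ι → ℂ)) := by
  have h1 := amst_rn (amst_pi w) (S ⊓ T.comap (amst_pi w))
  have h2 : (S ⊓ T.comap (amst_pi w)).map (amst_pi w) = S.map (amst_pi w) ⊓ T := by
    ext x
    constructor
    · rintro ⟨y, ⟨hy, hy'⟩, rfl⟩
      exact ⟨⟨y, hy, rfl⟩, hy'⟩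
    · rintro ⟨⟨y, hy, rfl⟩, hx⟩
      exact ⟨y, ⟨hy, hx⟩, rfl⟩
  have h3 : (S ⊓ T.comap (amst_pi w)) ⊓ LinearMap.ker (amst_pi w) =
      S ⊓ LinearMap.ker (amst_pi w) := by
    ext x
    constructor
    · rintro ⟨⟨hx, -⟩, hx'⟩
      exact ⟨hx, hx'⟩
    · rintro ⟨hx, hx'⟩
      refine ⟨⟨hx, ?_⟩, hx'⟩
      rw [SetLike.mem_coe, LinearMap.mem_ker] at hx'
      rw [SetLike.mem_coe, Submodule.mem_comap, hx']
      exact T.zero_mem
  rw [h2, h3] at h1
  exact h1.symm

theorem ee_step (K : Subfield ℂ) (b : ι → ℂ) (hb : ∀ j, b j ≠ 0) (P : Submodule ℂ (ι → ℂ))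
    (hP : Stab (DerOver (K : Set ℂ)) P) (U : Submodule ℚ (ι → ℚ))
    (hbig : ¬ (((DerOver (K : Set ℂ)).map (lev b) ⊔ ann U) ⊓ (P ⊔ ann U) ≤ ann U)) :
    ∃ U₂ : Submodule ℚ (ι → ℚ), ee ((DerOver (K : Set ℂ)).map (lev b)) P U <
      ee ((DerOver (K : Set ℂ)).map (lev b)) P U₂ := by
  obtain ⟨r, hr, w, hw, hspan⟩ : ∃ r, finrank ℚ U = r ∧ ∃ w : Fin r → ι → ℤ,
      LinearIndependent ℚ (fun i => qv (w i)) ∧
      Submodule.span ℚ (Set.range fun i => qv (w i)) = U :=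
    ⟨_, rfl, exists_int_basis_sub U⟩
  let p := amst_pi w
  have hker : LinearMap.ker p = ann U := by
    ext v
    have h0 := mem_ann_span w v
    rw [hspan] at h0
    rw [LinearMap.mem_ker, h0]
    constructor
    · intro h i
      exact congrFun h i
    · intro h
      funext i
      exact h i
  let b' : Fin r → ℂ := fun i => mon b (w i)
  have hb' : ∀ i, b' i ≠ 0 := fun i => mon_ne_zero hb (w i)
  have hlev : ∀ D : Derivation ℤ ℂ ℂ, lev b' D = p (lev b D) := by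
    intro D
    funext i
    rw [lev_apply]
    exact der_mon hb D (w i)
  have hB' : (DerOver (K : Set ℂ)).map (lev b') = ((DerOver (K : Set ℂ)).map (lev b)).map p := by
    ext x
    constructor
    · rintro ⟨D, hD, rfl⟩
      exact ⟨lev b D, ⟨D, hD, rfl⟩, (hlev D).symm⟩
    · rintro ⟨_, ⟨D, hD, rfl⟩, rfl⟩
      exact ⟨D, hD, hlev D⟩
  have hP' : Stab (DerOver (K : Set ℂ)) (P.map p) := by
    rintro D hD _ ⟨v, hv, rfl⟩
    refine ⟨fun i => D (v i), hP D hD v hv, ?_⟩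
    funext i
    change ∑ j, (w i j : ℂ) * D (v j) = D (∑ j, (w i j : ℂ) * v j)
    rw [map_sum]
    refine Finset.sum_congr rfl fun j _ => ?_
    rw [Derivation.leibniz, Derivation.map_intCast, smul_zero, add_zero, smul_eq_mul]
  have hne : (DerOver (K : Set ℂ)).map (lev b') ⊓ P.map p ≠ ⊥ := by
    intro h0
    apply hbig
    rintro x ⟨hx, hx'⟩
    rw [← hker, LinearMap.mem_ker]
    have h1 : p x ∈ (DerOver (K : Set ℂ)).map (lev b') := by
      rw [hB']
      obtain ⟨y, hy, z, hz, rfl⟩ := Submodule.mem_sup.1 hx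
      rw [← hker, LinearMap.mem_ker] at hz
      rw [map_add, hz, add_zero]
      exact ⟨y, hy, rfl⟩
    have h2 : p x ∈ P.map p := by
      obtain ⟨y, hy, z, hz, rfl⟩ := Submodule.mem_sup.1 hx'
      rw [← hker, LinearMap.mem_ker] at hz
      rw [map_add, hz, add_zero]
      exact ⟨y, hy, rfl⟩
    have h3 : p x ∈ (DerOver (K : Set ℂ)).map (lev b') ⊓ P.map p := ⟨h1, h2⟩
    rw [h0, Submodule.mem_bot] at h3
    exact h3
  obtain ⟨U', hU'⟩ := axt K b' hb' (P.map p) hP' hne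
  rw [Fintype.card_fin] at hU'
  let g : (Fin r → ℚ) →ₗ[ℚ] (ι → ℚ) := Fintype.linearCombination ℚ (fun i => qv (w i))
  have hg : Function.Injective g := hw.fintypeLinearCombination_injective
  have hfr : finrank ℚ (U'.map g) = finrank ℚ U' :=
    (LinearEquiv.finrank_eq (Submodule.equivMapOfInjective g hg U')).symm
  have hann : ann (U'.map g) = (ann U').comap p := by
    have key : ∀ (c : Fin r → ℚ) (v : ι → ℂ),
        ∑ i, ((g c i : ℚ) : ℂ) * v i = ∑ i, (c i : ℂ) * p v i := by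
      intro c v
      have h1 : ∀ i, ((g c i : ℚ) : ℂ) = ∑ l, (c l : ℂ) * (w l i : ℂ) := by
        intro i
        simp only [g, Fintype.linearCombination_apply, Finset.sum_apply, Pi.smul_apply, qv,
          smul_eq_mul]
        push_cast
        rfl
      simp only [h1, Finset.sum_mul]
      rw [Finset.sum_comm]
      refine Finset.sum_congr rfl fun l _ => ?_
      change _ = (c l : ℂ) * ∑ j, (w l j : ℂ) * v j
      rw [Finset.mul_sum]
      exact Finset.sum_congr rfl fun j _ => by ring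
    ext v
    rw [Submodule.mem_comap, mem_ann, mem_ann]
    constructor
    · intro h c hc
      rw [← key]
      exact h _ ⟨c, hc, rfl⟩
    · rintro h _ ⟨c, hc, rfl⟩
      rw [key]
      exact h c hc
  refine ⟨U'.map g, ?_⟩
  have e1 := amst_fin w ((DerOver (K : Set ℂ)).map (lev b)) (ann U')
  have e2 := amst_fin w P (ann U')
  have e3 : LinearMap.ker (amst_pi w) = ann U := hker
  rw [e3] at e1 e2
  unfold ee at hU' ⊢
  rw [hann, hfr]
  rw [hB'] at hU'
  change _ < finrank ℂ ((DerOver (K : Set ℂ)).map (lev b) ⊓ (ann U').comap (amst_pi w) :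
    Submodule ℂ (ι → ℂ)) + finrank ℂ (P ⊓ (ann U').comap (amst_pi w) : Submodule ℂ (ι → ℂ)) + _
  rw [e1, e2]
  change r + 1 ≤ finrank ℂ (((DerOver (K : Set ℂ)).map (lev b)).map (amst_pi w) ⊓ ann U' :
    Submodule ℂ (Fin r → ℂ)) + finrank ℂ (P.map (amst_pi w) ⊓ ann U' :
    Submodule ℂ (Fin r → ℂ)) + _ at hU'
  omega

end Pool.Agent.EXL
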