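import Mathlib

/-!
# EXI / AUtil: dimensions of submodules
-/

set_option autoImplicit false

namespace Pool.Agent.EXL

open Module

/-- Rank-nullity for a linear map restricted to a submodule. -/
theorem finrank_map_add {K V W : Type*} [Field K] [AddCommGroup V] [Module K V]
    [FiniteDimensional K V] [AddCommGroup W] [Module K W] (f : V →ₗ[K] W) (S : Submodule K V) :
    finrank K (S.map f) + finrank K (S ⊓ LinearMap.ker f : Submodule K V) = finrank K S := by
  have h1 := LinearMap.finrank_range_add_finrank_ker (f.domRestrict S)
  rw [LinearMap.range_domRestrict] at h1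
  have h2 : finrank K (LinearMap.ker (f.domRestrict S)) =
      finrank K (S ⊓ LinearMap.ker f : Submodule K V) := by
    have h3 : (LinearMap.ker (f.domRestrict S)).map S.subtype = S ⊓ LinearMap.ker f := by
      ext x
      simp only [Submodule.mem_map, LinearMap.mem_ker, LinearMap.domRestrict_apply,
        Submodule.subtype_apply, Submodule.mem_inf]
      constructor
      · rintro ⟨y, hy, rfl⟩
        exact ⟨y.2, hy⟩
      · rintro ⟨hx, hx'⟩
        exact ⟨⟨x, hx⟩, hx', rfl⟩
    rw [← h3]
    exact (Submodule.finrank_map_subtype_eq S _).symm
  rw [← h2]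
  exact h1

end Pool.Agent.EXL
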