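import Pool.Agent.EXI.ATn
import Pool.Agent.EXI.AUtil

/-!
# EXI / AT1: the space `T₁`

`GoodData` collects what Theorem T and the orders and leading coefficients of monomials give
(`ub_j` = leading coefficients, `m_j` = orders). `T₁ = {(D a, lev ub D + c m) | D ∈ DerOver k, c ∈ ℂ}`.

PROOF of `finrank_T1`.  First, (*): `lev ub D - lev b D ∈ ann U` for every derivation `D`:
for integral `u ∈ U`, `∑ u_j lev ub D j = D (mon ub u) / mon ub u = D (mon b u) / mon b u =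
∑ u_j lev b D j` (`der_mon`, `mon_eq`, `mem_ann_iff_int`); and `m ∈ ann U` (`orth`). Let
`φ (α, β) = (α, mkQ β)`, `ℂ^ι × ℂ^ι → ℂ^ι × (ℂ^ι ⧸ ann U)`; `ker φ = {(0, β) | β ∈ ann U}`. By (*)
`φ (T₁) = φ (T)`, `T = TT k a b`. `T ⊓ ker φ = {(0, β) | β ∈ BB}` (`mem_derOver_KU`), of dimension
`finrank BB`. `T₁ ⊓ ker φ = {(0, β) | β ∈ Bh ⊔ span m}`: if `(D a, lev ub D + c m)` is in `ker φ` then
`D a = 0` and `lev ub D + c m ∈ ann U`, so `lev ub D ∈ ann U`, `lev b D ∈ ann U` by (*), so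
`D ∈ DerOver K_U` and `lev ub D ∈ Bh`; conversely for `D ∈ DerOver K_U` `D a = 0`,
`lev ub D ∈ ann U`. Its dimension is `finrank (Bh ⊔ span m) = finrank BB` (`dim_eq`).
`finrank_map_add` twice and `finrank_T` with `h.2.1`: `finrank T₁ = finrank T = card ι`.
-/

set_option autoImplicit false

namespace Pool.Agent.EXL

open Module

variable {ι : Type} [Fintype ι]

/-- The logarithmic derivatives over `K_U` of the leading coefficients. -/
noncomputable def Bh (k : Subfield ℂ) (a b : ι → ℂ) (U : Submodule ℚ (ι → ℚ)) (ub : ι → ℂ) :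
    Submodule ℂ (ι → ℂ) :=
  (DerOver (KU k a b U : Set ℂ)).map (lev ub)

/-- The line spanned by the orders. -/
noncomputable def mline (m : ι → ℤ) : Submodule ℂ (ι → ℂ) :=
  Submodule.span ℂ {fun j => (m j : ℂ)}

/-- What Theorem T gives. -/
structure GoodData (k : Subfield ℂ) (a b : ι → ℂ) (U : Submodule ℚ (ι → ℚ)) (ub : ι → ℂ)
    (m : ι → ℤ) : Prop where
  ub_ne : ∀ j, ub j ≠ 0
  orth : ∀ u : ι → ℤ, qv u ∈ U → ∑ j, u j * m j = 0
  mon_eq : ∀ u : ι → ℤ, qv u ∈ U → mon ub u = mon b u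
  disj : PU k a b U ⊓ (Bh k a b U ub ⊔ mline m) = ⊥
  dim_eq : finrank ℂ (Bh k a b U ub ⊔ mline m : Submodule ℂ (ι → ℂ)) = finrank ℂ (BB k a b U)
  dim_lt : finrank ℂ (Bh k a b U ub) < finrank ℂ (BB k a b U)

/-- The space `T₁`. -/
noncomputable def T1 (k : Subfield ℂ) (a ub : ι → ℂ) (m : ι → ℤ) :
    Submodule ℂ ((ι → ℂ) × (ι → ℂ)) :=
  TT k a ub ⊔ Submodule.span ℂ {(0, fun j => (m j : ℂ))}

/-- The formula (*) of the header. -/
theorem GoodData.star {k : Subfield ℂ} {a b : ι → ℂ} (hb : ∀ j, b j ≠ 0)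
    {U : Submodule ℚ (ι → ℚ)} {ub : ι → ℂ} {m : ι → ℤ} (g : GoodData k a b U ub m)
    (D : Derivation ℤ ℂ ℂ) : lev ub D - lev b D ∈ ann U := by
  rw [mem_ann_iff_int]
  intro u hu
  have h1 := der_mon g.ub_ne D u
  have h2 := der_mon hb D u
  rw [g.mon_eq u hu] at h1
  have h3 : ∑ i, (u i : ℂ) * (lev ub D - lev b D) i =
      ∑ i, (u i : ℂ) * lev ub D i - ∑ i, (u i : ℂ) * lev b D i := by
    rw [← Finset.sum_sub_distrib]
    refine Finset.sum_congr rfl fun i _ => ?_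
    rw [Pi.sub_apply]
    ring
  rw [h3, ← h1, ← h2, sub_self]

theorem GoodData.m_mem {k : Subfield ℂ} {a b : ι → ℂ}
    {U : Submodule ℚ (ι → ℚ)} {ub : ι → ℂ} {m : ι → ℤ} (g : GoodData k a b U ub m) :
    (fun j => (m j : ℂ)) ∈ ann U := by
  rw [mem_ann_iff_int]
  intro u hu
  have := congrArg (fun t : ℤ => (t : ℂ)) (g.orth u hu)
  simpa using this

theorem finrank_T1 (k : Subfield ℂ) (a b : ι → ℂ) (h : HypA k a b) (U : Submodule ℚ (ι → ℚ))
    (ub : ι → ℂ) (m : ι → ℤ) (g : GoodData k a b U ub m) :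
    finrank ℂ (T1 k a ub m) = Fintype.card ι := by
  have hb := h.1
  let φ : (ι → ℂ) × (ι → ℂ) →ₗ[ℂ] (ι → ℂ) × ((ι → ℂ) ⧸ ann U) :=
    LinearMap.prodMap LinearMap.id (ann U).mkQ
  have hker : ∀ x : (ι → ℂ) × (ι → ℂ), x ∈ LinearMap.ker φ ↔ x.1 = 0 ∧ x.2 ∈ ann U := by
    intro x
    rw [LinearMap.mem_ker]
    change (x.1, (ann U).mkQ x.2) = 0 ↔ _
    rw [Prod.mk_eq_zero, Submodule.mkQ_apply, Submodule.Quotient.mk_eq_zero]
  have hmap : (T1 k a ub m).map φ = (TT k a b).map φ := by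
    unfold T1
    rw [Submodule.map_sup, Submodule.map_span, Set.image_singleton]
    have h0 : φ (0, fun j => (m j : ℂ)) = 0 := by
      rw [← LinearMap.mem_ker, hker]
      exact ⟨rfl, g.m_mem⟩
    rw [h0, Submodule.span_zero_singleton, sup_bot_eq]
    unfold TT
    rw [← Submodule.map_comp, ← Submodule.map_comp]
    congr 1
    apply LinearMap.ext
    intro D
    rw [← sub_eq_zero, LinearMap.comp_apply, LinearMap.comp_apply, ← map_sub, ← LinearMap.mem_ker,
      hker]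
    refine ⟨?_, g.star hb D⟩
    change ev a D - ev a D = 0
    exact sub_self _
  have hinj : ∀ S : Submodule ℂ (ι → ℂ), finrank ℂ (S.map (LinearMap.inr ℂ (ι → ℂ) (ι → ℂ))) =
      finrank ℂ S := by
    intro S
    exact (LinearEquiv.finrank_eq
      (Submodule.equivMapOfInjective _ LinearMap.inr_injective S)).symm
  have hT : TT k a b ⊓ LinearMap.ker φ = (BB k a b U).map (LinearMap.inr ℂ (ι → ℂ) (ι → ℂ)) := by
    ext x
    rw [Submodule.mem_inf, hker, Submodule.mem_map]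
    constructor
    · rintro ⟨⟨D, hD, rfl⟩, h1, h2⟩
      have h1' : ev a D = 0 := h1
      have h2' : lev b D ∈ ann U := h2
      refine ⟨lev b D, ⟨D, (mem_derOver_KU hb).2 ⟨hD, h1', h2'⟩, rfl⟩, ?_⟩
      change ((0 : ι → ℂ), lev b D) = (ev a D, lev b D)
      rw [h1']
    · rintro ⟨_, ⟨D, hD, rfl⟩, rfl⟩
      obtain ⟨h1, h2, h3⟩ := (mem_derOver_KU hb).1 hD
      refine ⟨⟨D, h1, ?_⟩, rfl, h3⟩
      change (ev a D, lev b D) = ((0 : ι → ℂ), lev b D)
      rw [h2]
  have hT1 : T1 k a ub m ⊓ LinearMap.ker φ =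
      (Bh k a b U ub ⊔ mline m).map (LinearMap.inr ℂ (ι → ℂ) (ι → ℂ)) := by
    ext x
    rw [Submodule.mem_inf, hker, Submodule.mem_map]
    constructor
    · rintro ⟨hx, h1, h2⟩
      obtain ⟨x1, ⟨D, hD, rfl⟩, x2, hx2, rfl⟩ := Submodule.mem_sup.1 hx
      obtain ⟨c, rfl⟩ := Submodule.mem_span_singleton.1 hx2
      have h1' : ev a D = 0 := by
        have : ev a D + c • (0 : ι → ℂ) = 0 := h1
        rwa [smul_zero, add_zero] at this
      have h2' : lev ub D + c • (fun j => (m j : ℂ)) ∈ ann U := h2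
      have h3 : lev ub D ∈ ann U := by
        have h4 := sub_mem h2' (Submodule.smul_mem _ c g.m_mem)
        rwa [add_sub_cancel_right] at h4
      have h5 : lev b D ∈ ann U := by
        have h6 := sub_mem h3 (g.star hb D)
        rwa [sub_sub_cancel] at h6
      refine ⟨lev ub D + c • (fun j => (m j : ℂ)), Submodule.add_mem_sup
        ⟨D, (mem_derOver_KU hb).2 ⟨hD, h1', h5⟩, rfl⟩
        (Submodule.smul_mem _ c (Submodule.mem_span_singleton_self _)), ?_⟩
      change ((0 : ι → ℂ), lev ub D + c • (fun j => (m j : ℂ))) =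
        (ev a D + c • (0 : ι → ℂ), lev ub D + c • (fun j => (m j : ℂ)))
      rw [h1', smul_zero, add_zero]
    · rintro ⟨y, hy, rfl⟩
      obtain ⟨y1, ⟨D, hD, rfl⟩, y2, hy2, rfl⟩ := Submodule.mem_sup.1 hy
      obtain ⟨c, rfl⟩ := Submodule.mem_span_singleton.1 hy2
      obtain ⟨h1, h2, h3⟩ := (mem_derOver_KU hb).1 hD
      refine ⟨?_, rfl, ?_⟩
      · refine Submodule.mem_sup.2 ⟨(ev a D, lev ub D), ⟨D, h1, rfl⟩,
          c • (0, fun j => (m j : ℂ)), Submodule.smul_mem _ c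
            (Submodule.mem_span_singleton_self _), ?_⟩
        change (ev a D + c • (0 : ι → ℂ), lev ub D + c • (fun j => (m j : ℂ))) =
          ((0 : ι → ℂ), lev ub D + c • (fun j => (m j : ℂ)))
        rw [h2, smul_zero, add_zero]
      · change lev ub D + c • (fun j => (m j : ℂ)) ∈ ann U
        refine add_mem ?_ (Submodule.smul_mem _ c g.m_mem)
        have h6 := add_mem (g.star hb D) h3
        rwa [sub_add_cancel] at h6
  have e1 := finrank_map_add φ (TT k a b)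
  have e2 := finrank_map_add φ (T1 k a ub m)
  rw [hT, hinj, finrank_T k a b hb, h.2.1] at e1
  rw [hT1, hinj, hmap, g.dim_eq] at e2
  omega

end Pool.Agent.EXL
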