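import Pool.Agent.EXI.ADefs

/-!
# EXI / AUni: unimodular completion
-/

set_option autoImplicit false

namespace Pool.Agent.EXL

open Module

private noncomputable def dotm {n : ℕ} (m : Fin (n + 1) → ℤ) : (Fin (n + 1) → ℤ) →ₗ[ℤ] ℤ where
  toFun v := ∑ i, v i * m i
  map_add' v w := by
    simp only [Pi.add_apply, add_mul, Finset.sum_add_distrib]
  map_smul' c v := by
    simp only [Pi.smul_apply, smul_eq_mul, mul_assoc, Finset.mul_sum, RingHom.id_apply]

theorem exists_unimodular {n : ℕ} (m : Fin (n + 1) → ℤ) (hm : m ≠ 0) :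
    ∃ U : Matrix (Fin (n + 1)) (Fin (n + 1)) ℤ, IsUnit U.det ∧ 0 < ∑ i, U 0 i * m i ∧
      ∀ j : Fin n, ∑ i, U j.succ i * m i = 0 := by
  classical
  set f := dotm m with hf
  have hf0 : f ≠ 0 := by
    intro h
    apply hm
    funext i
    have h1 := congrArg (fun g : (Fin (n + 1) → ℤ) →ₗ[ℤ] ℤ => g (Pi.single i 1)) h
    have h2 : f (Pi.single i 1) = m i := by
      change ∑ l, (Pi.single i 1 : Fin (n + 1) → ℤ) l * m l = m i
      rw [Finset.sum_eq_single i]
      · simp
      · intro l _ hl
        rw [Pi.single_eq_of_ne hl, zero_mul]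
      · intro h'
        exact absurd (Finset.mem_univ i) h'
    exact h2.symm.trans h1
  -- a generator of the range
  obtain ⟨g, hg⟩ := IsPrincipalIdealRing.principal (LinearMap.range f : Ideal ℤ)
  have hgne : g ≠ 0 := by
    rintro rfl
    apply hf0
    rw [← LinearMap.range_eq_bot]
    have : (LinearMap.range f : Submodule ℤ ℤ) = Submodule.span ℤ {0} := hg
    rw [this, Submodule.span_zero_singleton]
  have hgmem : g ∈ LinearMap.range f := by
    have : (LinearMap.range f : Submodule ℤ ℤ) = Submodule.span ℤ {g} := hg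
    rw [this]
    exact Submodule.mem_span_singleton_self g
  obtain ⟨e0, he0⟩ := hgmem
  have hdiv : ∀ v, g ∣ f v := by
    intro v
    have : (LinearMap.range f : Submodule ℤ ℤ) = Submodule.span ℤ {g} := hg
    have h1 : f v ∈ Submodule.span ℤ {g} := by
      rw [← this]
      exact LinearMap.mem_range_self f v
    obtain ⟨c, hc⟩ := Submodule.mem_span_singleton.1 h1
    exact ⟨c, by rw [← hc, smul_eq_mul, mul_comm]⟩
  obtain ⟨e, he, hepos⟩ : ∃ e, (∀ v, f e ∣ f v) ∧ 0 < f e := by
    rcases lt_or_gt_of_ne hgne with h | h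
    · refine ⟨-e0, fun v => ?_, ?_⟩
      · rw [map_neg, he0]
        exact (neg_dvd).2 (hdiv v)
      · rw [map_neg, he0]
        omega
    · exact ⟨e0, fun v => by rw [he0]; exact hdiv v, by rw [he0]; exact h⟩
  -- the kernel
  have hker : finrank ℤ (LinearMap.ker f) = n := by
    have h1 := Submodule.finrank_quotient_add_finrank (LinearMap.ker f)
    rw [Module.finrank_pi, Fintype.card_fin, LinearEquiv.finrank_eq f.quotKerEquivRange] at h1
    have h2 : finrank ℤ (LinearMap.range f) ≤ 1 := by
      have := Submodule.finrank_le (LinearMap.range f)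
      rwa [Module.finrank_self] at this
    have h3 : finrank ℤ (LinearMap.range f) ≠ 0 := by
      intro h
      rw [Submodule.finrank_eq_zero] at h
      exact hf0 (LinearMap.range_eq_bot.1 h)
    omega
  let bk : Basis (Fin n) ℤ (LinearMap.ker f) := Module.finBasisOfFinrankEq ℤ _ hker
  let B : Basis (Fin (n + 1)) ℤ (Fin (n + 1) → ℤ) := Basis.mkFinCons e bk
    (by
      intro c x hx hcx
      have h1 := congrArg f hcx
      rw [map_add, map_smul, LinearMap.mem_ker.1 hx, add_zero, map_zero, smul_eq_mul] at h1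
      exact (mul_eq_zero.1 h1).resolve_right hepos.ne')
    (by
      intro z
      obtain ⟨c, hc⟩ := he z
      refine ⟨-c, ?_⟩
      rw [LinearMap.mem_ker, map_add, map_smul, hc, smul_eq_mul]
      ring)
  have hB0 : B 0 = e := by
    change (Basis.mkFinCons e bk _ _) 0 = e
    rw [Basis.coe_mkFinCons]
    rfl
  have hBs : ∀ j : Fin n, B j.succ = (bk j : Fin (n + 1) → ℤ) := by
    intro j
    change (Basis.mkFinCons e bk _ _) j.succ = _
    rw [Basis.coe_mkFinCons]
    rfl
  refine ⟨Matrix.of fun j i => B j i, ?_, ?_, ?_⟩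
  · have h1 := (Pi.basisFun ℤ (Fin (n + 1))).isUnit_det B
    rw [Basis.det_apply] at h1
    have h2 : (Pi.basisFun ℤ (Fin (n + 1))).toMatrix B = (Matrix.of fun j i => B j i).transpose := by
      ext i j
      rfl
    rw [h2, Matrix.det_transpose] at h1
    exact h1
  · have : ∑ i, (Matrix.of fun j i => B j i) 0 i * m i = f e := by
      rw [← hB0]
      rfl
    rw [this]
    exact hepos
  · intro j
    have h1 := LinearMap.mem_ker.1 (bk j).2
    rw [← h1, ← hBs j]
    rfl

end Pool.Agent.EXL
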