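import Pool.Agent.EXL.Ax
import Pool.Agent.EXL.Tr
import Pool.Agent.EXL.Tdi

/-!
# EXI / Base: definitions for the proof of the analytic input (I)

`lev b D = (D b_j / b_j)_j`; `Stab Δ P`: the subspace `P` of `ℂ^ι` is stable under the coordinatewise
action of the derivations in `Δ`; `Degen`: a formal degeneration of `b` over `K`.
-/

set_option autoImplicit false

namespace Pool.Agent.EXL

/-- Logarithmic evaluation of derivations at a family of elements. -/
noncomputable def lev {ι : Type*} (b : ι → ℂ) : Derivation ℤ ℂ ℂ →ₗ[ℂ] (ι → ℂ) where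
  toFun D := fun i => D (b i) / b i
  map_add' D D' := by
    funext i
    simp only [Derivation.add_apply, Pi.add_apply, add_div]
  map_smul' c D := by
    funext i
    simp only [Derivation.smul_apply, Pi.smul_apply, smul_eq_mul, RingHom.id_apply, mul_div_assoc]

@[simp] lemma lev_apply {ι : Type*} (b : ι → ℂ) (D : Derivation ℤ ℂ ℂ) (i : ι) :
    lev b D i = D (b i) / b i := rfl

/-- The subspace `P` is stable under the coordinatewise action of the derivations in `Δ`. -/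
def Stab (Δ : Submodule ℂ (Derivation ℤ ℂ ℂ)) {ι : Type*} (P : Submodule ℂ (ι → ℂ)) : Prop :=
  ∀ D ∈ Δ, ∀ v ∈ P, (fun i => D (v i)) ∈ P

/-- The algebraic closure in `ℂ` of the field generated by `K` and the `τ_i`. -/
noncomputable def Om (K : Subfield ℂ) {r : ℕ} (τ : Fin r → ℂ) : Subfield ℂ :=
  consts (DerOver ((K : Set ℂ) ∪ Set.range τ))

/-- `K` is contained in `Om K τ`. -/
lemma le_Om (K : Subfield ℂ) {r : ℕ} (τ : Fin r → ℂ) : K ≤ Om K τ := by
  intro x hx D hD
  exact hD x (Or.inl hx)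

/-- The field `K(b)`. -/
noncomputable abbrev Kb (K : Subfield ℂ) {ι : Type} (b : ι → ℂ) : Subfield ℂ :=
  Subfield.closure ((K : Set ℂ) ∪ Set.range b)

lemma mem_Kb_of_mem {K : Subfield ℂ} {ι : Type} (b : ι → ℂ) {c : ℂ} (hc : c ∈ K) : c ∈ Kb K b :=
  Subfield.subset_closure (Or.inl hc)

lemma mem_Kb (K : Subfield ℂ) {ι : Type} (b : ι → ℂ) (j : ι) : b j ∈ Kb K b :=
  Subfield.subset_closure (Or.inr ⟨j, rfl⟩)

/-- A formal degeneration of the tuple `b` over `K`: an embedding `σ` of `K(b)` in `Ω((ζ))` over `K`.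
`m_j` is the order of `σ (b_j)` and `u_j` its leading coefficient. -/
structure Degen (K : Subfield ℂ) {ι : Type} (b : ι → ℂ) {Ω : Subfield ℂ} (h : K ≤ Ω) where
  /-- the embedding of `K(b)` -/
  σ : Kb K b →+* LaurentSeries Ω
  σ_const : ∀ (c : ℂ) (hc : c ∈ K), σ ⟨c, mem_Kb_of_mem b hc⟩ = HahnSeries.C (⟨c, h hc⟩ : Ω)
  /-- the order of `σ (b_j)` -/
  m : ι → ℤ
  /-- the leading coefficient of `σ (b_j)` -/
  u : ι → Ω
  u_ne : ∀ j, u j ≠ 0
  coeff_lt : ∀ j, ∀ i < m j, (σ ⟨b j, mem_Kb K b j⟩).coeff i = 0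
  coeff_m : ∀ j, (σ ⟨b j, mem_Kb K b j⟩).coeff (m j) = u j

end Pool.Agent.EXL
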