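import Pool.Agent.EXI.CDefs

/-!
# EXI / CAbh: elementary facts on places

PROOFS.
`mem_iff`: `e = t^m ε` with `ρ ε ≠ 0`, so `ε⁻¹ ∈ O`. If `e ∈ O` and `m < 0` then `ε = t^{-m} e` has
`ρ ε = 0`, a contradiction; if `m ≥ 0` then `e ∈ O`.
`residue_zero_iff`: `ρ e = 0`, `e = t^m ε`, `m ≥ 0` and `m = 0` is impossible.
`indep_cons`: let `f ≠ 0` be a polynomial in `v_0, .., v_{r-1}` and `T` with `f(v, t) = 0`. Divide by
the highest power of `T` dividing `f` (`t ≠ 0`): we may assume `f(V, 0) ≠ 0`. Apply `ρ`: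
`f(ρ v, 0) = 0`, so `f(V, 0) = 0` by the independence of the `ρ v_i`, a contradiction.
`residue_algebraic`: if `ρ e` is transcendental over `k(ρ u)` then the residues of `u_i, e`
(`m + 1` elements) are independent, so `u_i, e, t` are `m + 2` independent elements of `K` by
`indep_cons`.
-/

set_option autoImplicit false

namespace Pool.Agent.EXI

open MvPolynomial

variable {k : Subfield ℂ} {K : Type} [Field K] [Algebra k K]

theorem Place.mem_iff (pl : Place k K) (m : ℤ) (ε : pl.O) (hε : pl.ρ ε ≠ 0) :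
    pl.t ^ m * ε ∈ pl.O ↔ 0 ≤ m := by
  constructor
  · intro he
    by_contra hm
    push Not at hm
    have hε0 : (ε : K) ≠ 0 := by
      intro h0
      apply hε
      have : ε = 0 := Subtype.ext h0
      rw [this, map_zero]
    have h1 : pl.t ^ m ∈ pl.O := by
      have h2 := pl.O.mul_mem he (pl.inv_mem ε hε)
      rwa [mul_assoc, mul_inv_cancel₀ hε0, mul_one] at h2
    obtain ⟨n, hn⟩ := Int.eq_ofNat_of_zero_le (show 0 ≤ -m - 1 by omega)
    have hm' : m = -((n : ℤ) + 1) := by omega
    have h3 : pl.t * (pl.t ^ n * pl.t ^ m) = 1 := by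
      rw [hm', zpow_neg, ← mul_assoc, ← pow_succ', ← zpow_natCast pl.t (n + 1)]
      push_cast
      exact mul_inv_cancel₀ (zpow_ne_zero _ pl.t_ne)
    have h4 : (⟨pl.t, pl.t_mem⟩ : pl.O) * (⟨pl.t ^ n, pl.O.pow_mem pl.t_mem n⟩ * ⟨pl.t ^ m, h1⟩) =
        1 := Subtype.ext h3
    have h5 := congrArg pl.ρ h4
    rw [map_mul, pl.ρt, zero_mul, map_one] at h5
    exact zero_ne_one h5
  · intro hm
    obtain ⟨n, rfl⟩ := Int.eq_ofNat_of_zero_le hm
    rw [zpow_natCast]
    exact pl.O.mul_mem (pl.O.pow_mem pl.t_mem n) ε.2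

theorem Place.residue_zero_iff (pl : Place k K) (e : pl.O) :
    pl.ρ e = 0 ↔ ∃ e' : pl.O, (e : K) = pl.t * e' := by
  constructor
  · intro he
    by_cases h0 : (e : K) = 0
    · exact ⟨0, by rw [h0]; simp⟩
    · obtain ⟨m, ε, hε, h1⟩ := pl.fac e h0
      have hm : 0 ≤ m := (pl.mem_iff m ε hε).1 (h1 ▸ e.2)
      obtain ⟨n, rfl⟩ := Int.eq_ofNat_of_zero_le hm
      rw [zpow_natCast] at h1
      cases n with
      | zero =>
        exfalso
        apply hε
        rw [pow_zero, one_mul] at h1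
        rw [← Subtype.ext h1]
        exact he
      | succ n =>
        refine ⟨⟨pl.t ^ n, pl.O.pow_mem pl.t_mem n⟩ * ε, ?_⟩
        rw [h1, pow_succ']
        push_cast
        ring
  · rintro ⟨e', he'⟩
    have h1 : e = ⟨pl.t, pl.t_mem⟩ * e' := Subtype.ext he'
    rw [h1, map_mul, pl.ρt, zero_mul]

private theorem CAbh_descent (pl : Place k K) {R : Type*} [CommRing R] (g : R →+* pl.O)
    (hg : ∀ a, pl.ρ (g a) = 0 → a = 0) (n : ℕ) :
    ∀ p : Polynomial R, p.natDegree ≤ n → p.eval₂ g ⟨pl.t, pl.t_mem⟩ = 0 → p = 0 := by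
  have key : ∀ p : Polynomial R, p.eval₂ g ⟨pl.t, pl.t_mem⟩ = 0 →
      p.coeff 0 = 0 ∧ p.divX.eval₂ g ⟨pl.t, pl.t_mem⟩ = 0 := by
    intro p hp
    rw [← Polynomial.divX_mul_X_add p, Polynomial.eval₂_add, Polynomial.eval₂_mul,
      Polynomial.eval₂_X, Polynomial.eval₂_C] at hp
    have h1 : pl.ρ (g (p.coeff 0)) = 0 := by
      have h2 := congrArg pl.ρ hp
      rw [map_add, map_mul, pl.ρt, mul_zero, zero_add, map_zero] at h2
      exact h2
    have h2 := hg _ h1
    refine ⟨h2, ?_⟩
    rw [h2, map_zero, add_zero, mul_eq_zero] at hp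
    rcases hp with hp | hp
    · exact hp
    · exact absurd (congrArg Subtype.val hp) pl.t_ne
  induction n with
  | zero =>
    intro p hd hp
    obtain ⟨h1, -⟩ := key p hp
    rw [Polynomial.eq_C_of_natDegree_le_zero hd, h1, Polynomial.C_0]
  | succ n ih =>
    intro p hd hp
    obtain ⟨h1, h2⟩ := key p hp
    have h3 : p.divX.natDegree ≤ n := by
      rw [Polynomial.natDegree_divX_eq_natDegree_tsub_one]
      omega
    have h4 := ih _ h3 h2
    rw [← Polynomial.divX_mul_X_add p, h4, h1, zero_mul, Polynomial.C_0, add_zero]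

private noncomputable def kO (pl : Place k K) : k →+* pl.O where
  toFun c := ⟨algebraMap k K c, pl.memk c⟩
  map_one' := Subtype.ext (map_one _)
  map_mul' a b := Subtype.ext (map_mul _ _ _)
  map_zero' := Subtype.ext (map_zero _)
  map_add' a b := Subtype.ext (map_add _ _ _)

private noncomputable def evO (pl : Place k K) {ι : Type*} (v : ι → pl.O) :
    MvPolynomial ι k →+* pl.O := eval₂Hom (kO pl) v

private theorem evO_coe (pl : Place k K) {ι : Type*} (v : ι → pl.O) (f : MvPolynomial ι k) :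
    ((evO pl v f : pl.O) : K) = aeval (fun i => (v i : K)) f := by
  have h1 : (pl.O.subtype.comp (evO pl v)) =
      ((aeval (fun i => (v i : K)) : MvPolynomial ι k →ₐ[k] K) : MvPolynomial ι k →+* K) := by
    refine MvPolynomial.ringHom_ext (fun c => ?_) fun i => ?_
    · simp [evO, kO]
    · simp [evO]
  exact congrArg (fun φ : MvPolynomial ι k →+* K => φ f) h1

private theorem evO_ρ (pl : Place k K) {ι : Type*} (v : ι → pl.O) (f : MvPolynomial ι k) :
    pl.ρ (evO pl v f) = aeval (fun i => pl.ρ (v i)) f := by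
  have h1 : (pl.ρ.comp (evO pl v)) =
      ((aeval (fun i => pl.ρ (v i)) : MvPolynomial ι k →ₐ[k] ℂ) : MvPolynomial ι k →+* ℂ) := by
    refine MvPolynomial.ringHom_ext (fun c => ?_) fun i => ?_
    · have h2 := pl.ρk c
      simp only [evO, kO, RingHom.coe_comp, Function.comp_apply, coe_eval₂Hom, eval₂_C,
        RingHom.coe_mk, MonoidHom.coe_mk, OneHom.coe_mk, RingHom.coe_coe, aeval_C]
      exact h2
    · simp [evO]
  exact congrArg (fun φ : MvPolynomial ι k →+* ℂ => φ f) h1

theorem Place.indep_cons (pl : Place k K) {r : ℕ} (v : Fin r → pl.O)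
    (hv : AlgebraicIndependent k (fun i => pl.ρ (v i))) :
    AlgebraicIndependent k (cons pl.t fun i => (v i : K)) := by
  rw [algebraicIndependent_iff]
  intro f hf
  have h1 : (((optionEquivLeft k (Fin r) f).eval₂ (evO pl v) ⟨pl.t, pl.t_mem⟩ : pl.O) : K) =
      aeval (cons pl.t fun i => (v i : K)) f := by
    have h2 : (pl.O.subtype.comp ((Polynomial.eval₂RingHom (evO pl v) ⟨pl.t, pl.t_mem⟩).comp
        (optionEquivLeft k (Fin r)).toRingEquiv.toRingHom)) =
        ((aeval (cons pl.t fun i => (v i : K)) : MvPolynomial (Option (Fin r)) k →ₐ[k] K) :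
          MvPolynomial (Option (Fin r)) k →+* K) := by
      refine MvPolynomial.ringHom_ext (fun c => ?_) fun i => ?_
      · simp [optionEquivLeft_apply, evO_coe]
      · cases i with
        | none => simp [optionEquivLeft_apply, cons]
        | some i => simp [optionEquivLeft_apply, cons, evO_coe]
    exact congrArg (fun φ : MvPolynomial (Option (Fin r)) k →+* K => φ f) h2
  rw [← h1] at hf
  have h3 := CAbh_descent pl (evO pl v) (fun a ha => by
    rw [evO_ρ] at ha
    exact (algebraicIndependent_iff.1 hv) a ha) _ (optionEquivLeft k (Fin r) f) le_rfl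
    (Subtype.ext hf)
  exact (map_eq_zero_iff _ (optionEquivLeft k (Fin r)).injective).1 h3

theorem Place.residue_algebraic (pl : Place k K) {m : ℕ}
    (htr : ∀ y : Fin (m + 2) → K, ¬ AlgebraicIndependent k y) (u : Fin m → pl.O)
    (hu : AlgebraicIndependent k (fun i => pl.ρ (u i))) (e : pl.O) :
    IsAlgebraic (Algebra.adjoin k (Set.range fun i => pl.ρ (u i))) (pl.ρ e) := by
  by_contra hc
  have h1 := (hu.option_iff_transcendental (pl.ρ e)).2 hc
  have h2 : AlgebraicIndependent k (fun i : Fin (m + 1) =>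
      pl.ρ ((finSuccEquiv m i).elim e u)) := by
    have h3 := (algebraicIndependent_equiv (finSuccEquiv m)).2 h1
    have h4 : ((fun o : Option (Fin m) => o.elim (pl.ρ e) fun i => pl.ρ (u i)) ∘
        (finSuccEquiv m)) = fun i : Fin (m + 1) => pl.ρ ((finSuccEquiv m i).elim e u) := by
      funext i
      simp only [Function.comp_apply]
      cases finSuccEquiv m i <;> rfl
    rw [← h4]
    exact h3
  have h3 := pl.indep_cons _ h2
  exact htr _ ((algebraicIndependent_equiv (finSuccEquiv (m + 1))).2 h3)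

end Pool.Agent.EXI
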