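import Pool.Agent.EXI.CDv
import Pool.Agent.EXI.CDen
import Pool.Agent.EXL.Cpol

/-!
# EXI / CJac: the nondegeneracy of the special fibre

`form N D N' D' z c` is `D^2 D'^2 (dβ - β dα)` at `z` in the direction `c`, for `α = N / D`,
`β = N' / D'`.

PROOF.  Let `ι = Option (Fin (m + 1))` and let `M : Matrix ι ι (MvPolynomial ι k)` be the matrix whose
rows are the polynomial 1-forms: row `none`: `i ↦ pderiv i G`; row `some (Fin.last m)`:
`i ↦ pderiv i (rename some P)`; row `some j.castSucc`: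
`i ↦ D_j^2 (D'_j ∂_i N'_j - N'_j ∂_i D'_j) - N'_j D'_j (D_j ∂_i N_j - N_j ∂_i D_j)`.
So `(aeval z M) *ᵥ c` is the vector with the coordinates `dv G z c`, `dv (rename some P) z c`,
`form .. z c`. `S = det M`; `aeval z S = det (aeval z M)` (`AlgHom.map_det`); if it is not `0`,
`(aeval z M) *ᵥ c = 0` implies `c = 0` (`Matrix.eq_zero_of_mulVec_eq_zero`).
It remains to show that `(aeval z M) *ᵥ c = 0` implies `c = 0` for `z = ρ x`
(`Matrix.exists_mulVec_eq_zero_iff`).
(1) If `f(ρ x) = 0` then `dv f (ρ x) c = 0`. Indeed `ρ (f(x)) = 0`. If `f(x) = 0` then `G ∣ f`, `f = G H`,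
`dv f = G dv H + H dv G = 0` at `ρ x` (`G(ρ x) = ρ (G(x)) = 0`). Otherwise by `ch.rep`
`f(x) B(x) = P(x)^ν A(x)` with `A(ρ x), B(ρ x) ≠ 0`; `ν ≥ 1` because `ρ (f(x) B(x)) = 0`,
`P(x) = t ε` and `pl` is a discrete valuation ring (if `ν ≤ 0` then `f(x) B(x) P(x)^{-ν} = A(x)`, apply
`ρ`: `0 = A(ρ x)`). So `f B - P^ν A` vanishes at `x`, hence `= G H`; differentiate at `ρ x` in the
direction `c`: `B(ρ x) dv f + f(ρ x) dv B = dv (P^ν A) + G(ρ x) dv H + H dv G`, where
`f(ρ x) = 0 = G(ρ x) = P(ρ x)`, `dv G = 0`, `dv P = 0` (so `dv (P^ν A) = 0`): `dv f (ρ x) c = 0`.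
(2) By `cpol_exists_der` (EXL/Cpol) there is `v ∈ DerOver k` with `v (ρ x_i) = c_i`, so
`v (f(ρ x)) = dv f (ρ x) c` for every `f` (`der_aeval`).
(3) `ρ(α_j) D_j(ρ x) = N_j(ρ x)` (apply `ρ`); applying `v`:
`D_j^2 v(ρ α_j) = D_j dv N_j - N_j dv D_j`, and similarly for `β_j`, so
`form .. (ρ x) c = D_j^2 D'_j^2 (v(ρ β_j) - ρ(β_j) v(ρ α_j))`. As it is `0` and the `D`s are not:
`v(ρ β_j) = ρ(β_j) v(ρ α_j)`. By `hyp`: `v(ρ α_j) = 0`, so `v(ρ β_j) = 0` for all `j`, and by `hkill`
`v(ρ x_i) = 0`, i.e. `c = 0`.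
-/

set_option autoImplicit false

namespace Pool.Agent.EXI

open MvPolynomial Pool.Agent.EXL

variable {k : Subfield ℂ}

/-- `D^2 D'^2 (dβ - β dα)` for `α = N / D` and `β = N' / D'`. -/
noncomputable def form {ι : Type} [Fintype ι] (N D N' D' : MvPolynomial ι k) (z c : ι → ℂ) : ℂ :=
  aeval z D ^ 2 * (aeval z D' * dv N' z c - aeval z N' * dv D' z c) -
    aeval z N' * aeval z D' * (aeval z D * dv N z c - aeval z N * dv D z c)

variable {K : Type} [Field K] [Algebra k K] {pl : Place k K} {m : ℕ}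

theorem jac_spec {ι : Type} (x : ι → pl.O) (f : MvPolynomial ι k)
    (hf : aeval (fun i => (x i : K)) f = 0) : aeval (fun i => pl.ρ (x i)) f = 0 := by
  obtain ⟨h, e⟩ := cden_aeval pl x f
  have h0 : (⟨aeval (fun i => (x i : K)) f, h⟩ : pl.O) = 0 := Subtype.ext hf
  rw [← e, h0, map_zero]

/-- (1): the vectors `c` are tangent to the locus of the residues. -/
theorem jac_tangent (ch : Chart pl m) (c : Option (Fin (m + 1)) → ℂ)
    (hG : dv ch.G (fun i => pl.ρ (ch.x i)) c = 0)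
    (hP : dv (rename some ch.P) (fun i => pl.ρ (ch.x i)) c = 0)
    (f : MvPolynomial (Option (Fin (m + 1))) k) (hf : aeval (fun i => pl.ρ (ch.x i)) f = 0) :
    dv f (fun i => pl.ρ (ch.x i)) c = 0 := by
  have hG0 : aeval (fun i => (ch.x i : K)) ch.G = 0 := (ch.ker _).2 dvd_rfl
  have hG1 : aeval (fun i => pl.ρ (ch.x i)) ch.G = 0 := jac_spec ch.x ch.G hG0
  have hGH : ∀ H, dv (ch.G * H) (fun i => pl.ρ (ch.x i)) c = 0 := by
    intro H
    rw [dv_mul, hG1, hG]
    ring
  obtain ⟨ε, hε, hPε⟩ := ch.unif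
  have hPK : aeval (fun i => (ch.x i : K)) (rename some ch.P) =
      aeval (fun i => (ch.x (some i) : K)) ch.P := by
    rw [aeval_rename]
    rfl
  have hP1 : aeval (fun i => pl.ρ (ch.x i)) (rename some ch.P) = 0 := by
    obtain ⟨h, e⟩ := cden_aeval pl ch.x (rename some ch.P)
    have h0 : (⟨aeval (fun i => (ch.x i : K)) (rename some ch.P), h⟩ : pl.O) =
        ⟨pl.t, pl.t_mem⟩ * ε := Subtype.ext (hPK.trans hPε)
    rw [← e, h0, map_mul, pl.ρt, zero_mul]
  have hε0 : (ε : K) ≠ 0 := by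
    intro h
    apply hε
    have h0 : ε = 0 := Subtype.ext h
    rw [h0, map_zero]
  have hP0 : aeval (fun i => (ch.x (some i) : K)) ch.P ≠ 0 := by
    rw [hPε]
    exact mul_ne_zero pl.t_ne hε0
  have hdvP : ∀ n : ℕ, ∀ A, dv ((rename some ch.P) ^ (n + 1) * A)
      (fun i => pl.ρ (ch.x i)) c = 0 := by
    intro n A
    rw [dv_mul, pow_succ, dv_mul, map_mul, hP1, hP]
    ring
  by_cases hf0 : aeval (fun i => (ch.x i : K)) f = 0
  · obtain ⟨H, rfl⟩ := (ch.ker f).1 hf0
    exact hGH H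
  · obtain ⟨ν, A, B, hA, hB, hAB⟩ := ch.rep _ hf0
    rcases le_or_gt ν 0 with hν | hν
    · exfalso
      obtain ⟨n, hn⟩ := Int.eq_ofNat_of_zero_le (neg_nonneg.2 hν)
      have hν' : ν = -(n : ℤ) := by omega
      rw [hν', zpow_neg, zpow_natCast] at hAB
      have h1 : aeval (fun i => (ch.x i : K)) (f * B * (rename some ch.P) ^ n - A) = 0 := by
        rw [map_sub, map_mul, map_mul, map_pow, hPK, hAB]
        field_simp
        ring
      have h2 := jac_spec ch.x _ h1
      rw [map_sub, map_mul, map_mul, hf, zero_mul, zero_mul, zero_sub, neg_eq_zero] at h2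
      exact hA h2
    · obtain ⟨n, hn⟩ := Int.eq_ofNat_of_zero_le hν.le
      obtain ⟨n, rfl⟩ : ∃ l, n = l + 1 := ⟨n - 1, by omega⟩
      rw [hn, zpow_natCast] at hAB
      have h1 : aeval (fun i => (ch.x i : K)) (f * B - (rename some ch.P) ^ (n + 1) * A) = 0 := by
        rw [map_sub, map_mul, map_mul, map_pow, hPK, hAB, sub_self]
      obtain ⟨H, hH⟩ := (ch.ker _).1 h1
      have h2 : f * B = ch.G * H + (rename some ch.P) ^ (n + 1) * A := by
        rw [← hH]
        ring
      have h3 : dv (f * B) (fun i => pl.ρ (ch.x i)) c = 0 := by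
        rw [h2, dv_add, hGH, hdvP, add_zero]
      rw [dv_mul, hf, zero_mul, zero_add] at h3
      exact (mul_eq_zero.1 h3).resolve_left hB

/-- The matrix of the polynomial 1-forms. -/
noncomputable def jacMat (ch : Chart pl m)
    (N D N' D' : Fin m → MvPolynomial (Option (Fin (m + 1))) k) :
    Matrix (Option (Fin (m + 1))) (Option (Fin (m + 1)))
      (MvPolynomial (Option (Fin (m + 1))) k) :=
  fun r i => match r with
  | none => pderiv i ch.G
  | some r => Fin.lastCases (motive := fun _ => MvPolynomial (Option (Fin (m + 1))) k)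
      (pderiv i (rename some ch.P))
      (fun j => D j ^ 2 * (D' j * pderiv i (N' j) - N' j * pderiv i (D' j)) -
        N' j * D' j * (D j * pderiv i (N j) - N j * pderiv i (D j))) r

theorem jacMat_mulVec (ch : Chart pl m)
    (N D N' D' : Fin m → MvPolynomial (Option (Fin (m + 1))) k)
    (z c : Option (Fin (m + 1)) → ℂ) :
    ((jacMat ch N D N' D').map (aeval z)).mulVec c = 0 ↔
      dv ch.G z c = 0 ∧ dv (rename some ch.P) z c = 0 ∧
        ∀ j, form (N j) (D j) (N' j) (D' j) z c = 0 := by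
  have h1 : ((jacMat ch N D N' D').map (aeval z)).mulVec c none = dv ch.G z c := by
    simp only [Matrix.mulVec, dotProduct, Matrix.map_apply, jacMat, dv]
    exact Finset.sum_congr rfl fun i _ => mul_comm _ _
  have h2 : ((jacMat ch N D N' D').map (aeval z)).mulVec c (some (Fin.last m)) =
      dv (rename some ch.P) z c := by
    simp only [Matrix.mulVec, dotProduct, Matrix.map_apply, jacMat, dv, Fin.lastCases_last]
    exact Finset.sum_congr rfl fun i _ => mul_comm _ _
  have h3 : ∀ j : Fin m, ((jacMat ch N D N' D').map (aeval z)).mulVec c (some j.castSucc) =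
      form (N j) (D j) (N' j) (D' j) z c := by
    intro j
    simp only [Matrix.mulVec, dotProduct, Matrix.map_apply, jacMat, dv, Fin.lastCases_castSucc,
      form, map_sub, map_mul, map_pow, Finset.mul_sum, ← Finset.sum_sub_distrib]
    refine Finset.sum_congr rfl fun i _ => ?_
    ring
  constructor
  · intro h
    refine ⟨?_, ?_, fun j => ?_⟩
    · rw [← h1, h]; rfl
    · rw [← h2, h]; rfl
    · rw [← h3, h]; rfl
  · rintro ⟨a1, a2, a3⟩
    funext r
    cases r with
    | none => rw [h1, a1]; rfl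
    | some r =>
      induction r using Fin.lastCases with
      | last => rw [h2, a2]; rfl
      | cast j => rw [h3, a3]; rfl

/-- The nondegeneracy, outside a hypersurface `S = 0` which does not contain the residues. -/
theorem jac (ch : Chart pl m) (α β : Fin m → pl.O)
    (hyp : Hyp k (fun j => pl.ρ (α j)) (fun j => pl.ρ (β j)))
    (hkill : ∀ v ∈ DerOver (k : Set ℂ), (∀ j, v (pl.ρ (α j)) = 0) → (∀ j, v (pl.ρ (β j)) = 0) →
      ∀ e : pl.O, v (pl.ρ e) = 0)
    (N D N' D' : Fin m → MvPolynomial (Option (Fin (m + 1))) k)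
    (hα : ∀ j, (α j : K) * aeval (fun i => (ch.x i : K)) (D j) =
      aeval (fun i => (ch.x i : K)) (N j))
    (hβ : ∀ j, (β j : K) * aeval (fun i => (ch.x i : K)) (D' j) =
      aeval (fun i => (ch.x i : K)) (N' j))
    (hD : ∀ j, aeval (fun i => pl.ρ (ch.x i)) (D j) ≠ 0)
    (hD' : ∀ j, aeval (fun i => pl.ρ (ch.x i)) (D' j) ≠ 0) :
    ∃ S : MvPolynomial (Option (Fin (m + 1))) k, aeval (fun i => pl.ρ (ch.x i)) S ≠ 0 ∧
      ∀ z : Option (Fin (m + 1)) → ℂ, aeval z S ≠ 0 → ∀ c : Option (Fin (m + 1)) → ℂ,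
        dv ch.G z c = 0 → dv (rename some ch.P) z c = 0 →
        (∀ j, form (N j) (D j) (N' j) (D' j) z c = 0) → c = 0 := by
  have hdet : ∀ z : Option (Fin (m + 1)) → ℂ, aeval z (jacMat ch N D N' D').det =
      ((jacMat ch N D N' D').map (aeval z)).det := fun z => AlgHom.map_det _ _
  refine ⟨(jacMat ch N D N' D').det, ?_, ?_⟩
  · rw [hdet]
    intro h0
    obtain ⟨c, hc0, hc⟩ := Matrix.exists_mulVec_eq_zero_iff.2 h0
    obtain ⟨hG, hP, hform⟩ := (jacMat_mulVec ch N D N' D' _ c).1 hc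
    apply hc0
    obtain ⟨v, hv, hvx⟩ := cpol_exists_der (k := k) (fun i => pl.ρ (ch.x i)) c
      (fun f hf => jac_tangent ch c hG hP f hf)
    have hvdv : ∀ f : MvPolynomial (Option (Fin (m + 1))) k,
        v (aeval (fun i => pl.ρ (ch.x i)) f) = dv f (fun i => pl.ρ (ch.x i)) c := by
      intro f
      rw [der_aeval v hv]
      congr 1
      funext i
      exact hvx i
    -- quotients
    have hquot : ∀ (a : pl.O) (N D : MvPolynomial (Option (Fin (m + 1))) k),
        (a : K) * aeval (fun i => (ch.x i : K)) D = aeval (fun i => (ch.x i : K)) N →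
        pl.ρ a * aeval (fun i => pl.ρ (ch.x i)) D = aeval (fun i => pl.ρ (ch.x i)) N ∧
        v (pl.ρ a) * aeval (fun i => pl.ρ (ch.x i)) D + pl.ρ a * dv D (fun i => pl.ρ (ch.x i)) c =
          dv N (fun i => pl.ρ (ch.x i)) c := by
      intro a N D h
      obtain ⟨hN, eN⟩ := cden_aeval pl ch.x N
      obtain ⟨hD, eD⟩ := cden_aeval pl ch.x D
      have h0 : a * (⟨aeval (fun i => (ch.x i : K)) D, hD⟩ : pl.O) = ⟨_, hN⟩ := Subtype.ext h
      have h1 : pl.ρ a * aeval (fun i => pl.ρ (ch.x i)) D = aeval (fun i => pl.ρ (ch.x i)) N := by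
        rw [← eD, ← eN, ← h0, map_mul]
      refine ⟨h1, ?_⟩
      rw [← hvdv N, ← h1, Derivation.leibniz, hvdv D]
      simp only [smul_eq_mul]
      ring
    have hrel : ∀ j, v (pl.ρ (β j)) = pl.ρ (β j) * v (pl.ρ (α j)) := by
      intro j
      obtain ⟨e1, e2⟩ := hquot (α j) (N j) (D j) (hα j)
      obtain ⟨e3, e4⟩ := hquot (β j) (N' j) (D' j) (hβ j)
      have h := hform j
      unfold form at h
      rw [← e1, ← e2, ← e3, ← e4] at h
      have h5 : aeval (fun i => pl.ρ (ch.x i)) (D j) ^ 2 *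
          aeval (fun i => pl.ρ (ch.x i)) (D' j) ^ 2 *
          (v (pl.ρ (β j)) - pl.ρ (β j) * v (pl.ρ (α j))) = 0 := by
        rw [← h]
        ring
      have h6 := (mul_eq_zero.1 h5).resolve_left
        (mul_ne_zero (pow_ne_zero _ (hD j)) (pow_ne_zero _ (hD' j)))
      exact sub_eq_zero.1 h6
    have hva : ∀ j, v (pl.ρ (α j)) = 0 := hyp.2.2 v hv hrel
    have hvb : ∀ j, v (pl.ρ (β j)) = 0 := by
      intro j
      rw [hrel j, hva j, mul_zero]
    funext i
    rw [← hvx i]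
    exact hkill v hv hva hvb (ch.x i)
  · intro z hz c hG hP hform
    rw [hdet] at hz
    exact Matrix.eq_zero_of_mulVec_eq_zero hz ((jacMat_mulVec ch N D N' D' z c).2 ⟨hG, hP, hform⟩)

end Pool.Agent.EXI
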