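import Pool.Agent.EXI.CAbh
import Pool.Agent.EXI.CDen

/-!
# EXI / CRep: representation of the elements of the valuation ring in a chart

PROOFS.  All three from `ch.rep`: `e * B(x) = P(x) ^ ν * A(x)`, `A(ρ x), B(ρ x) ≠ 0`; recall
`P(x) = t ε`, `ρ ε ≠ 0` (`ch.unif`), in particular `ρ (P(x)) = 0`, `P(x) ≠ 0`.
`repO`: `e = 0`: `N = 0`, `D = 1`. Otherwise `ν ≥ 0`: if `ν < 0` then `e * B(x) * P(x)^{-ν} = A(x)` in `O`,
and `ρ` gives `0 = A(ρ x)`. So `D = B`, `N = rename some P ^ ν * A`.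
`repG`: `ν ≥ 0` as before, and `ν ≠ 0` since `ρ e = 0` and `A(ρ x) ≠ 0`.
`repU`: apply `repG`: `z * B(x) = P(x)^g * A(x)` with `g ≥ 1`; if `g ≥ 2`, then dividing by `t` and
applying `ρ`: `ρ(ε_z) B(ρ x) = 0`, a contradiction.
-/

set_option autoImplicit false

namespace Pool.Agent.EXI

open MvPolynomial Pool.Agent.EXL

variable {k : Subfield ℂ} {K : Type} [Field K] [Algebra k K] {pl : Place k K} {m : ℕ}

/-- A polynomial relation between the coordinates specializes to the residues. -/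
theorem crep_spec {ι : Type} (x : ι → pl.O) (f : MvPolynomial ι k)
    (hf : aeval (fun i => (x i : K)) f = 0) : aeval (fun i => pl.ρ (x i)) f = 0 := by
  obtain ⟨h, e⟩ := cden_aeval pl x f
  have h0 : (⟨aeval (fun i => (x i : K)) f, h⟩ : pl.O) = 0 := Subtype.ext hf
  rw [← e, h0, map_zero]

theorem crep_spec2 {ι : Type} (x : ι → pl.O) (f g : MvPolynomial ι k) (e : pl.O)
    (hf : (e : K) * aeval (fun i => (x i : K)) f = aeval (fun i => (x i : K)) g) :
    pl.ρ e * aeval (fun i => pl.ρ (x i)) f = aeval (fun i => pl.ρ (x i)) g := by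
  obtain ⟨h1, e1⟩ := cden_aeval pl x f
  obtain ⟨h2, e2⟩ := cden_aeval pl x g
  have h0 : e * (⟨aeval (fun i => (x i : K)) f, h1⟩ : pl.O) = ⟨_, h2⟩ := Subtype.ext hf
  rw [← e1, ← e2, ← h0, map_mul]

theorem Chart.crep_P (ch : Chart pl m) :
    aeval (fun i => (ch.x i : K)) (rename some ch.P) =
      aeval (fun i => (ch.x (some i) : K)) ch.P := by
  rw [aeval_rename]
  rfl

theorem Chart.crep_P0 (ch : Chart pl m) :
    aeval (fun i => (ch.x i : K)) (rename some ch.P) ≠ 0 := by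
  obtain ⟨ε, hε, hPε⟩ := ch.unif
  have hε0 : (ε : K) ≠ 0 := by
    intro h
    apply hε
    have h0 : ε = 0 := Subtype.ext h
    rw [h0, map_zero]
  rw [ch.crep_P, hPε]
  exact mul_ne_zero pl.t_ne hε0

theorem Chart.crep_P1 (ch : Chart pl m) :
    aeval (fun i => pl.ρ (ch.x i)) (rename some ch.P) = 0 := by
  obtain ⟨ε, hε, hPε⟩ := ch.unif
  obtain ⟨h, e⟩ := cden_aeval pl ch.x (rename some ch.P)
  have h0 : (⟨aeval (fun i => (ch.x i : K)) (rename some ch.P), h⟩ : pl.O) =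
      ⟨pl.t, pl.t_mem⟩ * ε := Subtype.ext (ch.crep_P.trans hPε)
  rw [← e, h0, map_mul, pl.ρt, zero_mul]

/-- The representation of a nonzero element of `O`, with an exponent in `ℕ`. -/
theorem Chart.crep_nat (ch : Chart pl m) (e : pl.O) (he : (e : K) ≠ 0) :
    ∃ (g : ℕ) (A B : MvPolynomial (Option (Fin (m + 1))) k),
      aeval (fun i => pl.ρ (ch.x i)) A ≠ 0 ∧ aeval (fun i => pl.ρ (ch.x i)) B ≠ 0 ∧
      (e : K) * aeval (fun i => (ch.x i : K)) B =
        aeval (fun i => (ch.x i : K)) (rename some ch.P ^ g * A) := by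
  obtain ⟨ν, A, B, hA, hB, hAB⟩ := ch.rep _ he
  rcases lt_or_ge ν 0 with hν | hν
  · exfalso
    obtain ⟨n, hn⟩ := Int.eq_ofNat_of_zero_le (neg_nonneg.2 hν.le)
    have hν' : ν = -(n : ℤ) := by omega
    obtain ⟨l, rfl⟩ : ∃ l, n = l + 1 := ⟨n - 1, by omega⟩
    rw [hν', zpow_neg, zpow_natCast, ← ch.crep_P] at hAB
    have hP0 := ch.crep_P0
    have h1 : (e : K) * aeval (fun i => (ch.x i : K)) (B * (rename some ch.P) ^ (l + 1)) =
        aeval (fun i => (ch.x i : K)) A := by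
      rw [map_mul, map_pow, ← mul_assoc, hAB]
      field_simp
    have h2 := crep_spec2 ch.x _ _ e h1
    rw [map_mul, map_pow, ch.crep_P1, zero_pow (Nat.succ_ne_zero l), mul_zero, mul_zero] at h2
    exact hA h2.symm
  · obtain ⟨n, rfl⟩ := Int.eq_ofNat_of_zero_le hν
    refine ⟨n, A, B, hA, hB, ?_⟩
    rw [map_mul, map_pow, ch.crep_P, hAB, zpow_natCast]

theorem Chart.repO (ch : Chart pl m) (e : pl.O) :
    ∃ N D : MvPolynomial (Option (Fin (m + 1))) k, aeval (fun i => pl.ρ (ch.x i)) D ≠ 0 ∧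
      (e : K) * aeval (fun i => (ch.x i : K)) D = aeval (fun i => (ch.x i : K)) N := by
  by_cases he : (e : K) = 0
  · exact ⟨0, 1, by simp, by simp [he]⟩
  · obtain ⟨g, A, B, -, hB, h⟩ := ch.crep_nat e he
    exact ⟨_, B, hB, h⟩

theorem Chart.repG (ch : Chart pl m) (e : pl.O) (he : (e : K) ≠ 0) (h0 : pl.ρ e = 0) :
    ∃ (g : ℕ) (A B : MvPolynomial (Option (Fin (m + 1))) k), 1 ≤ g ∧
      aeval (fun i => pl.ρ (ch.x i)) A ≠ 0 ∧ aeval (fun i => pl.ρ (ch.x i)) B ≠ 0 ∧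
      (e : K) * aeval (fun i => (ch.x i : K)) B =
        aeval (fun i => (ch.x i : K)) (rename some ch.P ^ g * A) := by
  obtain ⟨g, A, B, hA, hB, h⟩ := ch.crep_nat e he
  refine ⟨g, A, B, ?_, hA, hB, h⟩
  by_contra hg
  have hg0 : g = 0 := by omega
  rw [hg0, pow_zero, one_mul] at h
  have h2 := crep_spec2 ch.x _ _ e h
  rw [h0, zero_mul] at h2
  exact hA h2.symm

theorem Chart.repU (ch : Chart pl m) (z ε : pl.O) (hε : pl.ρ ε ≠ 0) (hz : (z : K) = pl.t * ε) :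
    ∃ A B : MvPolynomial (Option (Fin (m + 1))) k,
      aeval (fun i => pl.ρ (ch.x i)) A ≠ 0 ∧ aeval (fun i => pl.ρ (ch.x i)) B ≠ 0 ∧
      (z : K) * aeval (fun i => (ch.x i : K)) B =
        aeval (fun i => (ch.x i : K)) (rename some ch.P * A) := by
  have hε0 : (ε : K) ≠ 0 := by
    intro h
    apply hε
    have h0 : ε = 0 := Subtype.ext h
    rw [h0, map_zero]
  have hz0 : (z : K) ≠ 0 := by
    rw [hz]
    exact mul_ne_zero pl.t_ne hε0
  have hρz : pl.ρ z = 0 := by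
    have h0 : z = ⟨pl.t, pl.t_mem⟩ * ε := Subtype.ext hz
    rw [h0, map_mul, pl.ρt, zero_mul]
  obtain ⟨g, A, B, hg, hA, hB, h⟩ := ch.repG z hz0 hρz
  obtain ⟨l, rfl⟩ : ∃ l, g = l + 1 := ⟨g - 1, by omega⟩
  obtain ⟨εP, hεP, hPε⟩ := ch.unif
  rcases Nat.eq_zero_or_pos l with rfl | hl
  · refine ⟨A, B, hA, hB, ?_⟩
    rw [h, zero_add, pow_one]
  · exfalso
    obtain ⟨r, rfl⟩ : ∃ r, l = r + 1 := ⟨l - 1, by omega⟩
    rw [map_mul, pow_succ, map_mul, ch.crep_P, hPε, hz] at h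
    have h1 : (ε : K) * aeval (fun i => (ch.x i : K)) B =
        (εP : K) * aeval (fun i => (ch.x i : K)) (rename some ch.P ^ (r + 1) * A) := by
      have h3 : pl.t * ((ε : K) * aeval (fun i => (ch.x i : K)) B) =
          pl.t * ((εP : K) * aeval (fun i => (ch.x i : K)) (rename some ch.P ^ (r + 1) * A)) := by
        rw [← mul_assoc, h, map_mul]
        ring
      exact mul_left_cancel₀ pl.t_ne h3
    obtain ⟨h4, e4⟩ := cden_aeval pl ch.x B
    obtain ⟨h5, e5⟩ := cden_aeval pl ch.x (rename some ch.P ^ (r + 1) * A)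
    have h6 : ε * (⟨aeval (fun i => (ch.x i : K)) B, h4⟩ : pl.O) = εP * ⟨_, h5⟩ := Subtype.ext h1
    have h7 := congrArg pl.ρ h6
    rw [map_mul, map_mul, e4, e5, map_mul, map_pow, ch.crep_P1, zero_pow (Nat.succ_ne_zero r),
      zero_mul, mul_zero] at h7
    exact mul_ne_zero hε hB h7

end Pool.Agent.EXI
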