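import Pool.Agent.EXI.CAbh
import Pool.Agent.EXI.CTd

/-!
# EXI / CRes: the residues are algebraic over `k(ρ α, ρ β)`

PROOF.  `td_basis` (CTd) for `z = (ρ α, ρ β)` gives `s : Fin m → Fin m ⊕ Fin m` with `z ∘ s`
algebraically independent; `u i = Sum.elim α β (s i)`. By `Place.residue_algebraic` every `ρ e` is
algebraic over `k[ρ u] ⊆ k[ρ α, ρ β]` (monotonicity of `IsAlgebraic` in the base ring: the polynomial
is mapped by the inclusion, `IsAlgebraic.of_ringHom_of_comp_eq` or
`IsAlgebraic.extendScalars` after making `k[ρ α, ρ β]` an algebra over `k[ρ u]`). The last statement is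
`kill_of_algebraic` (CTd).
-/

set_option autoImplicit false

namespace Pool.Agent.EXI

open MvPolynomial Pool.Agent.EXL

variable {k : Subfield ℂ} {K : Type} [Field K] [Algebra k K] {m : ℕ}

theorem residue_facts (pl : Place k K) (htr : ∀ y : Fin (m + 2) → K, ¬ AlgebraicIndependent k y)
    (α β : Fin m → pl.O)
    (htd : td (k : Set ℂ) (Sum.elim (fun j => pl.ρ (α j)) fun j => pl.ρ (β j)) = m) :
    (∃ u : Fin m → pl.O, AlgebraicIndependent k (fun i => pl.ρ (u i))) ∧
    (∀ e : pl.O, IsAlgebraic (Algebra.adjoin k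
      (Set.range (Sum.elim (fun j => pl.ρ (α j)) fun j => pl.ρ (β j)))) (pl.ρ e)) ∧
    ∀ v ∈ DerOver (k : Set ℂ), (∀ j, v (pl.ρ (α j)) = 0) → (∀ j, v (pl.ρ (β j)) = 0) →
      ∀ e : pl.O, v (pl.ρ e) = 0 := by
  obtain ⟨s, hs⟩ := td_basis k _ htd
  have hu : ∀ i, pl.ρ (Sum.elim α β (s i)) =
      Sum.elim (fun j => pl.ρ (α j)) (fun j => pl.ρ (β j)) (s i) := by
    intro i
    cases s i <;> rfl
  have hind : AlgebraicIndependent k (fun i => pl.ρ (Sum.elim α β (s i))) := by
    have h1 : (fun i => pl.ρ (Sum.elim α β (s i))) = fun i =>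
      Sum.elim (fun j => pl.ρ (α j)) (fun j => pl.ρ (β j)) (s i) := funext hu
    rw [h1]
    exact hs
  have halg : ∀ e : pl.O, IsAlgebraic (Algebra.adjoin k
      (Set.range (Sum.elim (fun j => pl.ρ (α j)) fun j => pl.ρ (β j)))) (pl.ρ e) := by
    intro e
    have h1 := pl.residue_algebraic htr (fun i => Sum.elim α β (s i)) hind e
    have hle : Algebra.adjoin k (Set.range fun i => pl.ρ (Sum.elim α β (s i))) ≤
        Algebra.adjoin k (Set.range (Sum.elim (fun j => pl.ρ (α j)) fun j => pl.ρ (β j))) := by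
      apply Algebra.adjoin_mono
      rintro _ ⟨i, rfl⟩
      exact ⟨s i, (hu i).symm⟩
    exact h1.ringHom_of_comp_eq (Subalgebra.inclusion hle).toRingHom (RingHom.id ℂ)
      (Subalgebra.inclusion_injective hle) (by ext z; rfl)
  refine ⟨⟨fun i => Sum.elim α β (s i), hind⟩, halg, fun v hv ha hb e => ?_⟩
  refine kill_of_algebraic k _ v hv ?_ _ (halg e)
  rintro (j | j)
  · exact ha j
  · exact hb j

end Pool.Agent.EXI
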