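import Mathlib

/-!
# EXI / CSolve: solving the equations near a point of the special fibre

PROOF.  Put `κ = η x0 * exp (-a0 x0) ≠ 0` and `ℓ x = log (η x * exp (-a0 x) / κ)`, which is `C^1` at `x0`
(the argument of the logarithm is `1` at `x0`), `ℓ x0 = 0`, and `η x * exp (-a0 x) = κ exp (ℓ x)` for `x`
near `x0`. Let `κ₁ ^ g = κ` (`IsAlgClosed.exists_pow_nat_eq`, `κ₁ ≠ 0`) and
`F x = (p x * κ₁ * exp (ℓ x / g), (β j x * exp (-α j x))_j) : ℂ × (Fin m → ℂ)`. `F` is `C^1` at `x0`,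
and its derivative at `x0` in the direction `c` is
`(κ₁ (dp c), (exp (-α j x0) (dβ_j c - β j x0 dα_j c))_j)` (`p x0 = 0`), injective by `hinj`; the
dimensions are equal, so it is a linear equivalence (`LinearEquiv.ofInjectiveEndo` does not apply
because the spaces are different: `LinearEquiv.ofBijective` with
`LinearMap.injective_iff_surjective_of_finrank_eq_finrank`), and
`F` maps neighbourhoods of `x0` onto neighbourhoods of `F x0 = (0, (φ (q j))_j)`
(`HasStrictFDerivAt.map_nhds_eq_of_equiv`, or `.map_nhds_eq_of_surj`).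
For a suitable sequence of integers `q0` (`q0 → +∞` or `-∞`) `φ q0 = φ 1 ^ q0 → 0`, `φ q0 ≠ 0`;
choose `z` with `z ^ g = φ q0`, so `‖z‖ = ‖φ q0‖ ^ (1/g)` is small. So there is `x ∈ U` (also in the
neighbourhood where `η x * exp (-a0 x) = κ exp (ℓ x)`) with `F x = (z, (φ (q j))_j)`. Then `p x ≠ 0`,
`p x ^ g * κ * exp (ℓ x) = z ^ g = φ q0`, i.e. `p x ^ g * η x = exp (a0 x) * φ q0`, and
`β j x = exp (α j x) * φ (q j)`.
-/

set_option autoImplicit false

namespace Pool.Agent.EXI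

open Topology

private theorem CSolve_small (φ : AddChar ℚ ℂ) (hφ : ‖φ 1‖ ≠ 1) {δ : ℝ} (hδ : 0 < δ) :
    ∃ q0 : ℚ, φ q0 ≠ 0 ∧ ‖φ q0‖ < δ := by
  have hne : ∀ a : ℚ, φ a ≠ 0 := by
    intro a h
    have h1 : φ (a + -a) = φ a * φ (-a) := φ.map_add_eq_mul a (-a)
    rw [h, zero_mul, add_neg_cancel, φ.map_zero_eq_one] at h1
    exact one_ne_zero h1
  have hinv : φ (-1) = (φ 1)⁻¹ := by
    have h1 : φ (1 + -1) = φ 1 * φ (-1) := φ.map_add_eq_mul 1 (-1)
    rw [add_neg_cancel, φ.map_zero_eq_one] at h1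
    exact eq_inv_of_mul_eq_one_right h1.symm
  have hpow : ∀ (a : ℚ) (n : ℕ), φ (n • a) = φ a ^ n := fun a n => φ.map_nsmul_eq_pow n a
  rcases lt_or_gt_of_ne hφ with h | h
  · obtain ⟨n, hn⟩ := exists_pow_lt_of_lt_one hδ h
    refine ⟨n • 1, hne _, ?_⟩
    rw [hpow, norm_pow]
    exact hn
  · have h' : ‖φ (-1)‖ < 1 := by
      rw [hinv, norm_inv]
      exact inv_lt_one_of_one_lt₀ h
    obtain ⟨n, hn⟩ := exists_pow_lt_of_lt_one hδ h'
    refine ⟨n • (-1), hne _, ?_⟩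
    rw [hpow, norm_pow]
    exact hn

/-- Solution of the equations near a point of the special fibre `p = 0`. -/
theorem solve (φ : AddChar ℚ ℂ) (hφ : ‖φ 1‖ ≠ 1) {m : ℕ} (x0 : Fin (m + 1) → ℂ)
    (p η a0 : (Fin (m + 1) → ℂ) → ℂ) (α β : Fin m → (Fin (m + 1) → ℂ) → ℂ)
    (hp : ContDiffAt ℂ 1 p x0) (hη : ContDiffAt ℂ 1 η x0) (ha0 : ContDiffAt ℂ 1 a0 x0)
    (hα : ∀ j, ContDiffAt ℂ 1 (α j) x0) (hβ : ∀ j, ContDiffAt ℂ 1 (β j) x0)
    (hp0 : p x0 = 0) (hη0 : η x0 ≠ 0)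
    (hinj : ∀ c : Fin (m + 1) → ℂ, fderiv ℂ p x0 c = 0 →
      (∀ j, fderiv ℂ (β j) x0 c = β j x0 * fderiv ℂ (α j) x0 c) → c = 0)
    (g : ℕ) (hg : 1 ≤ g) (q : Fin m → ℚ)
    (hq : ∀ j, β j x0 = Complex.exp (α j x0) * φ (q j))
    (U : Set (Fin (m + 1) → ℂ)) (hU : U ∈ 𝓝 x0) :
    ∃ x ∈ U, p x ≠ 0 ∧ (∃ q0 : ℚ, p x ^ g * η x = Complex.exp (a0 x) * φ q0) ∧
      ∀ j, β j x = Complex.exp (α j x) * φ (q j) := by
  have h1ne : (1 : WithTop ℕ∞) ≠ 0 := one_ne_zero
  have hg0 : (g : ℂ) ≠ 0 := Nat.cast_ne_zero.2 (by omega)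
  set κ : ℂ := η x0 * Complex.exp (-a0 x0) with hκ
  have hκ0 : κ ≠ 0 := mul_ne_zero hη0 (Complex.exp_ne_zero _)
  obtain ⟨κ₁, hκ₁⟩ := IsAlgClosed.exists_pow_nat_eq κ (n := g) (by omega)
  have hκ₁0 : κ₁ ≠ 0 := by
    rintro rfl
    rw [zero_pow (by omega)] at hκ₁
    exact hκ0 hκ₁.symm
  let w : (Fin (m + 1) → ℂ) → ℂ := fun x => η x * Complex.exp (-a0 x) / κ
  have hw : ContDiffAt ℂ 1 w x0 := by
    have h2 : ContDiffAt ℂ 1 (fun x => Complex.exp (-a0 x)) x0 := ha0.neg.cexp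
    exact (hη.mul h2).div_const κ
  have hw1 : w x0 = 1 := div_self hκ0
  let E : (Fin (m + 1) → ℂ) → ℂ := fun x => κ₁ * Complex.exp (Complex.log (w x) / g)
  have hE : ContDiffAt ℂ 1 E x0 := by
    have h2 : ContDiffAt ℂ 1 (fun x => Complex.log (w x)) x0 := by
      have h3 : ContDiffAt ℂ 1 Complex.log (w x0) := by
        rw [hw1]
        exact Complex.contDiffAt_log Complex.one_mem_slitPlane
      exact h3.comp x0 hw
    exact contDiffAt_const.mul ((h2.div_const (g : ℂ)).cexp)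
  have hE0 : E x0 = κ₁ := by
    simp only [E, hw1, Complex.log_one, zero_div, Complex.exp_zero, mul_one]
  -- the derivative of the first component
  have hF1 : HasStrictFDerivAt (fun x => p x * E x) (κ₁ • fderiv ℂ p x0) x0 := by
    have h2 := (hp.hasStrictFDerivAt h1ne).mul (hE.hasStrictFDerivAt h1ne)
    refine h2.congr_fderiv ?_
    ext c
    simp [hp0, hE0]
  have hF2 : ∀ j, HasStrictFDerivAt (fun x => β j x * Complex.exp (-α j x))
      (β j x0 • (Complex.exp (-α j x0) • (-fderiv ℂ (α j) x0)) +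
        Complex.exp (-α j x0) • fderiv ℂ (β j) x0) x0 := by
    intro j
    exact ((hβ j).hasStrictFDerivAt h1ne).mul ((hα j).hasStrictFDerivAt h1ne).neg.cexp
  have hF : HasStrictFDerivAt (fun x => (p x * E x, fun j => β j x * Complex.exp (-α j x)))
      ((κ₁ • fderiv ℂ p x0).prod (ContinuousLinearMap.pi fun j =>
        (β j x0 • (Complex.exp (-α j x0) • (-fderiv ℂ (α j) x0)) +
          Complex.exp (-α j x0) • fderiv ℂ (β j) x0))) x0 :=
    hF1.prodMk (hasStrictFDerivAt_pi.2 hF2)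
  set F' := ((κ₁ • fderiv ℂ p x0).prod (ContinuousLinearMap.pi fun j =>
        (β j x0 • (Complex.exp (-α j x0) • (-fderiv ℂ (α j) x0)) +
          Complex.exp (-α j x0) • fderiv ℂ (β j) x0))) with hF'
  have hF'inj : Function.Injective (F' : (Fin (m + 1) → ℂ) →ₗ[ℂ] ℂ × (Fin m → ℂ)) := by
    rw [injective_iff_map_eq_zero]
    intro c hc
    have hc1 : κ₁ * fderiv ℂ p x0 c = 0 := congrArg Prod.fst hc
    have hc2 : ∀ j, β j x0 * (Complex.exp (-α j x0) * (-fderiv ℂ (α j) x0 c)) +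
        Complex.exp (-α j x0) * fderiv ℂ (β j) x0 c = 0 := fun j =>
      congrFun (congrArg Prod.snd hc) j
    refine hinj c ((mul_eq_zero.1 hc1).resolve_left hκ₁0) fun j => ?_
    have h2 := hc2 j
    have h3 : Complex.exp (-α j x0) * (fderiv ℂ (β j) x0 c - β j x0 * fderiv ℂ (α j) x0 c) = 0 := by
      rw [← h2]
      ring
    exact sub_eq_zero.1 ((mul_eq_zero.1 h3).resolve_left (Complex.exp_ne_zero _))
  have hrk : Module.finrank ℂ (Fin (m + 1) → ℂ) = Module.finrank ℂ (ℂ × (Fin m → ℂ)) := by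
    rw [Module.finrank_prod, Module.finrank_fin_fun, Module.finrank_fin_fun, Module.finrank_self]
    omega
  have hF'surj := (LinearMap.injective_iff_surjective_of_finrank_eq_finrank hrk).1 hF'inj
  have hmap := hF.map_nhds_eq_of_surj (LinearMap.range_eq_top.2 hF'surj)
  have hFx0 : (p x0 * E x0, fun j => β j x0 * Complex.exp (-α j x0)) =
      ((0 : ℂ), fun j => φ (q j)) := by
    rw [hp0, zero_mul]
    congr 1
    funext j
    rw [hq j, mul_assoc, mul_comm (φ (q j)), ← mul_assoc, ← Complex.exp_add, add_neg_cancel,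
      Complex.exp_zero, one_mul]
  -- the neighbourhood
  have hev : ∀ᶠ x in 𝓝 x0, w x ≠ 0 := by
    have h2 : w x0 ≠ 0 := by
      rw [hw1]
      exact one_ne_zero
    exact hw.continuousAt.eventually_ne h2
  have hW : {x | x ∈ U ∧ w x ≠ 0} ∈ 𝓝 x0 := Filter.inter_mem hU hev
  have hFW := Filter.image_mem_map (m := fun x => (p x * E x, fun j => β j x * Complex.exp (-α j x)))
    hW
  rw [hmap] at hFW
  simp only [hFx0] at hFW
  have hcont : ContinuousAt (fun z : ℂ => (z, fun j => φ (q j))) 0 :=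
    (continuous_id.prodMk continuous_const).continuousAt
  have hz := hcont.preimage_mem_nhds hFW
  obtain ⟨δ, hδ, hball⟩ := Metric.mem_nhds_iff.1 hz
  obtain ⟨q0, hq0, hq0δ⟩ := CSolve_small φ hφ (pow_pos hδ g)
  obtain ⟨z, hzg⟩ := IsAlgClosed.exists_pow_nat_eq (φ q0) (n := g) (by omega)
  have hzδ : ‖z‖ < δ := by
    rw [← hzg, norm_pow] at hq0δ
    exact lt_of_pow_lt_pow_left₀ g hδ.le hq0δ
  have hz0 : z ≠ 0 := by
    rintro rfl
    rw [zero_pow (by omega)] at hzg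
    exact hq0 hzg.symm
  obtain ⟨x, ⟨hxU, hxw⟩, hx⟩ := hball (mem_ball_zero_iff.2 hzδ)
  have hx1 : p x * E x = z := congrArg Prod.fst hx
  have hx2 : ∀ j, β j x * Complex.exp (-α j x) = φ (q j) := fun j =>
    congrFun (congrArg Prod.snd hx) j
  refine ⟨x, hxU, ?_, ⟨q0, ?_⟩, fun j => ?_⟩
  · rintro h0
    rw [h0, zero_mul] at hx1
    exact hz0 hx1.symm
  · have h2 : E x ^ g = η x * Complex.exp (-a0 x) := by
      simp only [E]
      rw [mul_pow, hκ₁, ← Complex.exp_nat_mul, mul_div_cancel₀ _ hg0, Complex.exp_log hxw]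
      simp only [w]
      rw [mul_div_cancel₀ _ hκ0]
    have h3 : p x ^ g * (η x * Complex.exp (-a0 x)) = φ q0 := by
      rw [← h2, ← mul_pow, hx1, hzg]
    rw [← h3]
    have h4 : Complex.exp (a0 x) * Complex.exp (-a0 x) = 1 := by
      rw [← Complex.exp_add, add_neg_cancel, Complex.exp_zero]
    calc p x ^ g * η x = p x ^ g * η x * 1 := (mul_one _).symm
      _ = p x ^ g * η x * (Complex.exp (a0 x) * Complex.exp (-a0 x)) := by rw [h4]
      _ = _ := by ring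
  · rw [← hx2 j]
    have h4 : Complex.exp (α j x) * Complex.exp (-α j x) = 1 := by
      rw [← Complex.exp_add, add_neg_cancel, Complex.exp_zero]
    calc β j x = β j x * 1 := (mul_one _).symm
      _ = β j x * (Complex.exp (α j x) * Complex.exp (-α j x)) := by rw [h4]
      _ = _ := by ring

end Pool.Agent.EXI
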