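import Pool.Agent.EXI.CChart
import Pool.Agent.EXI.CRep
import Pool.Agent.EXI.CPoint
import Pool.Agent.EXI.CRes
import Pool.Agent.EXI.CIft
import Pool.Agent.EXI.CJac
import Pool.Agent.EXI.CSolve
import Pool.Agent.EXI.CLoc

/-!
# EXI / CStep: the induction step

PROOF.  (1) `residue_facts` (for `α_j = A j.succ`, `β_j = B j.succ`) and `exists_chart` give a chart
`ch`. Write `x` for its coordinates in `K`, `ρ x` for the residues.
(2) `Chart.repO`: `α_j D_j(x) = N_j(x)`, `β_j D'_j(x) = N'_j(x)`, `A_0 D_0(x) = N_0(x)`, all `D`s not zero at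
`ρ x`. `Chart.repG`: `B_0 B_1(x) = (P^g A_1)(x)`, `g ≥ 1`. `ch.rep` for `H = h(A, B) ∈ K`, `H ≠ 0`:
`H B_2(x) = P(x)^ν A_2(x)`; `A_1, B_1, A_2, B_2` not zero at `ρ x`.
(3) `jac` gives `S_0`. Let `S = S_0 * (∂G/∂w) * ∏ D_j * ∏ D'_j * D_0 * A_1 * B_1 * A_2 * B_2`, not zero at
`ρ x`. `exists_point` gives `x0, a', b', q` with `b'_j = exp(a'_j) φ(q_j)`, `S(x0) ≠ 0`,
`a'_j D_j(x0) = N_j(x0)`, `b'_j D'_j(x0) = N'_j(x0)`.
(4) `local_spec` gives `W`. Let `x0' = x0 ∘ some` and write `F(f)(x) = aeval (cons (W x) x) f`; so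
`cons (W x0') x0' = x0`. Put `p = F(rename some P)`, `η = F(A_1) / F(B_1)`, `a0 = F(N_0) / F(D_0)`,
`α_j = F(N_j) / F(D_j)`, `β_j = F(N'_j) / F(D'_j)`: `C^1` at `x0'` (`contDiffAt_aeval_cons`).
`p x0' = 0`: `rename some P` vanishes at `ρ x` (`P(x) = t ε`, apply `ρ`), so at `x0`. `η x0' ≠ 0`.
`α_j x0' = a'_j`, `β_j x0' = b'_j`. `hinj`: let `c` be in the kernel and `ĉ = cons (dW c) c`. By
`fderiv_aeval_cons` and the derivative of a quotient, `D_j^2 dα_j c = D_j dv N_j x0 ĉ - N_j dv D_j x0 ĉ`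
and similarly for `β_j`, so `form (N j) (D j) (N' j) (D' j) x0 ĉ = D_j^2 D'_j^2 (dβ_j c - β_j dα_j c) = 0`;
`dv (rename some P) x0 ĉ = dp c = 0`; `dv G x0 ĉ = 0` by `local_spec`. So `ĉ = 0` by `jac`, `c = 0`.
(5) `solve` with `U = {x | Spec k x (cons (W x) x), all D, D', D_0, A_1, B_1, A_2, B_2 not zero at
(x, W x)}` gives `x`, `p x ≠ 0`, `q0`. Let `a''_0 = a0 x`, `b''_0 = p x ^ g * η x`,
`a''_{j+1} = α_j x`, `b''_{j+1} = β_j x` (`Fin.cons`). `Sol`: with `Fin.cons q0 q`.
`Spec`: `spec_frac` with `e = Sum.elim A B`, numerators `N_0, N_j` and `rename some P ^ g * A_1, N'_j`,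
denominators `D_0, D_j, B_1, D'_j`; it gives `Spec k (Sum.elim x (Sum.elim A B)) (Sum.elim z
(Sum.elim a'' b''))`, `z = cons (W x) x`.
`h(a'', b'') ≠ 0`: by this specialization, from `H B_2(x) = P(x)^ν A_2(x)` if `ν ≥ 0`, or
`H B_2(x) P(x)^{-ν} = A_2(x)` if `ν < 0`: `h(a'', b'') B_2(z) = p^ν A_2(z) ≠ 0`, resp.
`h(a'', b'') B_2(z) p^{-ν} = A_2(z) ≠ 0`.
-/

set_option autoImplicit false

namespace Pool.Agent.EXI

open MvPolynomial Pool.Agent.EXL Topology

variable {k : Subfield ℂ} {K : Type} [Field K] [Algebra k K] {m : ℕ}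

theorem cstep_hasFDerivAt_div {E : Type*} [NormedAddCommGroup E] [NormedSpace ℂ E]
    (f g : E → ℂ) (x : E) (hf : DifferentiableAt ℂ f x) (hg : DifferentiableAt ℂ g x)
    (h0 : g x ≠ 0) (c : E) :
    g x ^ 2 * fderiv ℂ (fun y => f y / g y) x c = g x * fderiv ℂ f x c - f x * fderiv ℂ g x c := by
  have hq : DifferentiableAt ℂ (fun y => f y / g y) x := by
    simp only [div_eq_mul_inv]
    exact hf.mul (hg.inv h0)
  have h1 : (fun y => (f y / g y) * g y) =ᶠ[𝓝 x] f := by
    filter_upwards [hg.continuousAt.eventually_ne h0] with y hy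
    exact div_mul_cancel₀ _ hy
  have h2 : fderiv ℂ (fun y => (f y / g y) * g y) x = fderiv ℂ f x := h1.fderiv_eq
  rw [fderiv_fun_mul hq hg] at h2
  have h3 := congrArg (fun L : E →L[ℂ] ℂ => L c) h2
  simp only [add_apply, smul_apply, smul_eq_mul] at h3
  rw [← h3]
  field_simp
  ring

theorem cstep_inr {ι κ : Type} {R : Type} [CommRing R] [Algebra k R] (x : ι → R) (e : κ → R)
    (f : MvPolynomial κ k) : aeval (Sum.elim x e) (rename Sum.inr f) = aeval e f := by
  rw [aeval_rename, Sum.elim_comp_inr]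

theorem cstep_inl {ι κ : Type} {R : Type} [CommRing R] [Algebra k R] (x : ι → R) (e : κ → R)
    (f : MvPolynomial ι k) : aeval (Sum.elim x e) (rename Sum.inl f) = aeval x f := by
  rw [aeval_rename, Sum.elim_comp_inl]

/-- The induction step: from the residues of `(A, B)` at a place to `(A, B)`. -/
theorem step (φ : AddChar ℚ ℂ) (hφ : ‖φ 1‖ ≠ 1) (pl : Place k K)
    (hfg : ∃ S : Finset K, IntermediateField.adjoin k (S : Set K) = ⊤)
    (htr : ∀ y : Fin (m + 2) → K, ¬ AlgebraicIndependent k y) (A B : Fin (m + 1) → pl.O)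
    (hB0 : (B 0 : K) ≠ 0) (h0 : pl.ρ (B 0) = 0)
    (hyp : Hyp k (fun j : Fin m => pl.ρ (A j.succ)) (fun j => pl.ρ (B j.succ)))
    (ih : Concl φ k (fun j : Fin m => pl.ρ (A j.succ)) (fun j => pl.ρ (B j.succ)))
    (h : MvPolynomial (Fin (m + 1) ⊕ Fin (m + 1)) k)
    (hh : aeval (Sum.elim (fun j => (A j : K)) fun j => (B j : K)) h ≠ 0) :
    ∃ a' b' : Fin (m + 1) → ℂ, Sol φ a' b' ∧
      Spec k (Sum.elim (fun j => (A j : K)) fun j => (B j : K)) (Sum.elim a' b') ∧
      aeval (Sum.elim a' b') h ≠ 0 := by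
  -- (1)
  obtain ⟨⟨u, hu⟩, halg, hkill⟩ := residue_facts pl htr (fun j : Fin m => A j.succ)
    (fun j => B j.succ) hyp.2.1
  obtain ⟨ch, -⟩ := exists_chart pl hfg htr u hu
  -- (2)
  choose N D hD hN using fun j : Fin m => ch.repO (A j.succ)
  choose N' D' hD' hN' using fun j : Fin m => ch.repO (B j.succ)
  obtain ⟨N0, D0, hD0, hN0⟩ := ch.repO (A 0)
  obtain ⟨g, A1, B1, hg, hA1, hB1, hAB1⟩ := ch.repG (B 0) hB0 h0
  obtain ⟨ν, A2, B2, hA2, hB2, hAB2⟩ := ch.rep _ hh
  -- (3)
  obtain ⟨S0, hS0, hjac⟩ := jac ch (fun j : Fin m => A j.succ) (fun j => B j.succ) hyp hkill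
    N D N' D' hN hN' hD hD'
  have hGW : aeval (fun i => pl.ρ (ch.x i)) (pderiv none ch.G) ≠ 0 := ch.hGW
  obtain ⟨x0, a', b', ⟨q, hq⟩, hspec, hS, ha', hb'⟩ := exists_point φ ch.x
    (fun j : Fin m => A j.succ) (fun j => B j.succ) halg ih
    (S0 * pderiv none ch.G * (∏ j, D j) * (∏ j, D' j) * D0 * A1 * B1 * A2 * B2) (by
      simp only [map_mul, map_prod]
      refine mul_ne_zero (mul_ne_zero (mul_ne_zero (mul_ne_zero (mul_ne_zero (mul_ne_zero
        (mul_ne_zero (mul_ne_zero hS0 hGW) ?_) ?_) hD0) hA1) hB1) hA2) hB2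
      · exact Finset.prod_ne_zero_iff.2 fun j _ => hD j
      · exact Finset.prod_ne_zero_iff.2 fun j _ => hD' j)
  simp only [map_mul, map_prod, mul_ne_zero_iff, Finset.prod_ne_zero_iff, Finset.mem_univ,
    true_implies] at hS
  obtain ⟨⟨⟨⟨⟨⟨⟨⟨xS0, xG⟩, xD⟩, xD'⟩, xD0⟩, xA1⟩, xB1⟩, xA2⟩, xB2⟩ := hS
  -- (4)
  obtain ⟨W, hW0, hWd, hWs, hWG⟩ := local_spec ch x0 hspec xG
  set x0' : Fin (m + 1) → ℂ := fun i => x0 (some i) with hx0'
  have hcons : cons (W x0') x0' = x0 := by
    funext i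
    cases i with
    | none => exact hW0
    | some i => rfl
  have hF : ∀ f : MvPolynomial (Option (Fin (m + 1))) k,
      ContDiffAt ℂ 1 (fun x => aeval (cons (W x) x) f) x0' := fun f =>
    contDiffAt_aeval_cons f W x0' hWd
  have hFd : ∀ f : MvPolynomial (Option (Fin (m + 1))) k,
      DifferentiableAt ℂ (fun x => aeval (cons (W x) x) f) x0' := fun f =>
    (hF f).differentiableAt one_ne_zero
  have hdF : ∀ (f : MvPolynomial (Option (Fin (m + 1))) k) (c : Fin (m + 1) → ℂ),
      fderiv ℂ (fun x => aeval (cons (W x) x) f) x0' c = dv f x0 (cons (fderiv ℂ W x0' c) c) := by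
    intro f c
    rw [fderiv_aeval_cons f W x0' (hWd.differentiableAt one_ne_zero) c, hcons]
  have hP0 : aeval x0 (rename some ch.P) = 0 := hspec _ ch.crep_P1
  have hne : ∀ f : MvPolynomial (Option (Fin (m + 1))) k, aeval x0 f ≠ 0 →
      ∀ᶠ x in 𝓝 x0', aeval (cons (W x) x) f ≠ 0 := by
    intro f hf
    have h1 := (hF f).continuousAt
    refine h1.eventually_ne ?_
    rw [hcons]
    exact hf
  have hinj : ∀ c : Fin (m + 1) → ℂ,
      fderiv ℂ (fun x => aeval (cons (W x) x) (rename some ch.P)) x0' c = 0 →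
      (∀ j, fderiv ℂ (fun x => aeval (cons (W x) x) (N' j) / aeval (cons (W x) x) (D' j)) x0' c =
        (aeval (cons (W x0') x0') (N' j) / aeval (cons (W x0') x0') (D' j)) *
        fderiv ℂ (fun x => aeval (cons (W x) x) (N j) / aeval (cons (W x) x) (D j)) x0' c) →
      c = 0 := by
    intro c h1 h2
    have h3 : cons (fderiv ℂ W x0' c) c = 0 := by
      refine hjac x0 xS0 _ (hWG c) ?_ ?_
      · rw [← hdF, h1]
      · intro j
        have e1 := cstep_hasFDerivAt_div (fun x => aeval (cons (W x) x) (N j))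
          (fun x => aeval (cons (W x) x) (D j)) x0' (hFd _) (hFd _)
          (by simp only [hcons]; exact xD j) c
        have e2 := cstep_hasFDerivAt_div (fun x => aeval (cons (W x) x) (N' j))
          (fun x => aeval (cons (W x) x) (D' j)) x0' (hFd _) (hFd _)
          (by simp only [hcons]; exact xD' j) c
        simp only [h2 j] at e2
        simp only [hdF, hcons] at e1 e2
        unfold form
        rw [← e1, ← e2]
        have hd := xD' j
        field_simp
        ring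
    funext i
    exact congrFun h3 (some i)
  -- (5)
  have haj : ∀ j, aeval x0 (N j) / aeval x0 (D j) = a' j := by
    intro j
    rw [div_eq_iff (xD j)]
    exact (ha' j (N j) (D j) (hN j)).symm
  have hbj : ∀ j, aeval x0 (N' j) / aeval x0 (D' j) = b' j := by
    intro j
    rw [div_eq_iff (xD' j)]
    exact (hb' j (N' j) (D' j) (hN' j)).symm
  have hU : ∀ᶠ x in 𝓝 x0', Spec k (fun i => (ch.x i : K)) (cons (W x) x) ∧
      (∀ j, aeval (cons (W x) x) (D j) ≠ 0) ∧ (∀ j, aeval (cons (W x) x) (D' j) ≠ 0) ∧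
      aeval (cons (W x) x) D0 ≠ 0 ∧ aeval (cons (W x) x) A1 ≠ 0 ∧
      aeval (cons (W x) x) B1 ≠ 0 ∧ aeval (cons (W x) x) A2 ≠ 0 ∧
      aeval (cons (W x) x) B2 ≠ 0 :=
    hWs.and ((Filter.eventually_all.2 fun j => hne _ (xD j)).and
      ((Filter.eventually_all.2 fun j => hne _ (xD' j)).and ((hne _ xD0).and ((hne _ xA1).and
        ((hne _ xB1).and ((hne _ xA2).and (hne _ xB2)))))))
  obtain ⟨x, hxU, hpx, ⟨q0, hq0⟩, hβx⟩ := solve φ hφ x0'
    (fun x => aeval (cons (W x) x) (rename some ch.P))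
    (fun x => aeval (cons (W x) x) A1 / aeval (cons (W x) x) B1)
    (fun x => aeval (cons (W x) x) N0 / aeval (cons (W x) x) D0)
    (fun j x => aeval (cons (W x) x) (N j) / aeval (cons (W x) x) (D j))
    (fun j x => aeval (cons (W x) x) (N' j) / aeval (cons (W x) x) (D' j))
    (hF _)
    ((hF _).div (hF _) (by simp only [hcons]; exact xB1))
    ((hF _).div (hF _) (by simp only [hcons]; exact xD0))
    (fun j => (hF _).div (hF _) (by simp only [hcons]; exact xD j))
    (fun j => (hF _).div (hF _) (by simp only [hcons]; exact xD' j))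
    (by simp only [hcons]; exact hP0)
    (by simp only [hcons]; exact div_ne_zero xA1 xB1)
    hinj g hg q
    (by
      intro j
      simp only [hcons]
      rw [haj, hbj]
      exact hq j) _ hU
  obtain ⟨hsp, zD, zD', zD0, zA1, zB1, zA2, zB2⟩ := hxU
  set z : Option (Fin (m + 1)) → ℂ := cons (W x) x with hz
  have hfrac := spec_frac (fun i => (ch.x i : K)) z hsp
    (Sum.elim (fun j => (A j : K)) fun j => (B j : K))
    (Sum.elim (Fin.cons N0 N) (Fin.cons (rename some ch.P ^ g * A1) N') :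
      Fin (m + 1) ⊕ Fin (m + 1) → MvPolynomial (Option (Fin (m + 1))) k)
    (Sum.elim (Fin.cons D0 D) (Fin.cons B1 D'))
    (by
      rintro (j | j)
      · refine Fin.cases ?_ (fun j => ?_) j
        · exact hN0
        · exact hN j
      · refine Fin.cases ?_ (fun j => ?_) j
        · exact hAB1
        · exact hN' j)
    (by
      rintro (j | j)
      · refine Fin.cases ?_ (fun j => ?_) j
        · exact zD0
        · exact zD j
      · refine Fin.cases ?_ (fun j => ?_) j
        · exact zB1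
        · exact zD' j)
  have hval : (fun i => aeval z ((Sum.elim (Fin.cons N0 N) (Fin.cons (rename some ch.P ^ g * A1) N') :
      Fin (m + 1) ⊕ Fin (m + 1) → MvPolynomial (Option (Fin (m + 1))) k) i) /
      aeval z ((Sum.elim (Fin.cons D0 D) (Fin.cons B1 D') :
      Fin (m + 1) ⊕ Fin (m + 1) → MvPolynomial (Option (Fin (m + 1))) k) i)) =
      Sum.elim (Fin.cons (aeval z N0 / aeval z D0) fun j => aeval z (N j) / aeval z (D j))
        (Fin.cons (aeval z (rename some ch.P) ^ g * (aeval z A1 / aeval z B1)) fun j =>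
          aeval z (N' j) / aeval z (D' j)) := by
    funext i
    rcases i with (j | j)
    · refine Fin.cases ?_ (fun j => ?_) j
      · rfl
      · rfl
    · refine Fin.cases ?_ (fun j => ?_) j
      · simp only [Sum.elim_inr, Fin.cons_zero, map_mul, map_pow]
        rw [mul_div_assoc]
      · rfl
  rw [hval] at hfrac
  refine ⟨Fin.cons (aeval z N0 / aeval z D0) fun j => aeval z (N j) / aeval z (D j),
    Fin.cons (aeval z (rename some ch.P) ^ g * (aeval z A1 / aeval z B1)) fun j =>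
          aeval z (N' j) / aeval z (D' j), ⟨Fin.cons q0 q, ?_⟩, ?_, ?_⟩
  rotate_left
  · intro f hf
    have h1 := hfrac (rename Sum.inr f) (by
      rw [aeval_rename, Sum.elim_comp_inr]
      exact hf)
    rw [aeval_rename, Sum.elim_comp_inr] at h1
    exact h1
  · intro h1
    rcases le_or_gt 0 ν with hν | hν
    · obtain ⟨n, rfl⟩ := Int.eq_ofNat_of_zero_le hν
      have h2 := hfrac (rename Sum.inr h * rename Sum.inl B2 -
        rename Sum.inl (rename some ch.P ^ n * A2)) (by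
          rw [map_sub, map_mul, cstep_inr, cstep_inl, cstep_inl, hAB2, map_mul, map_pow, ch.crep_P,
            zpow_natCast, sub_self])
      rw [map_sub, map_mul, cstep_inr, cstep_inl, cstep_inl, h1, zero_mul, zero_sub, neg_eq_zero,
        map_mul, map_pow] at h2
      exact mul_ne_zero (pow_ne_zero _ hpx) zA2 h2
    · obtain ⟨n, hn⟩ := Int.eq_ofNat_of_zero_le (neg_nonneg.2 hν.le)
      have hν' : ν = -(n : ℤ) := by omega
      have hPK := ch.crep_P0
      rw [ch.crep_P] at hPK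
      have h2 := hfrac (rename Sum.inr h * rename Sum.inl B2 * rename Sum.inl (rename some ch.P ^ n) -
        rename Sum.inl A2) (by
          rw [map_sub, map_mul, map_mul, cstep_inr, cstep_inl, cstep_inl, cstep_inl, hAB2, map_pow,
            ch.crep_P, hν', zpow_neg, zpow_natCast, sub_eq_zero]
          field_simp)
      rw [map_sub, map_mul, map_mul, cstep_inr, cstep_inl, cstep_inl, cstep_inl, h1, zero_mul,
        zero_mul, zero_sub, neg_eq_zero] at h2
      exact zA2 h2
  · intro j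
    refine Fin.cases ?_ (fun j => ?_) j
    · simp only [Fin.cons_zero]
      exact hq0
    · simp only [Fin.cons_succ]
      exact hβx j

end Pool.Agent.EXI
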