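import Pool.Agent.EXI.CTopDefs
import Pool.Agent.EXI.CChart
import Pool.Agent.EXI.CRep
import Pool.Agent.EXI.CIft
import Pool.Agent.EXI.CLoc

/-!
# EXI / CTopCh: the chart at infinity

PROOF.  `exists_chart` for `u` (`ρ u = a` is algebraically independent): `ch`, with
`x_{some i.castSucc} = u i` (`i : Fin n`) and a last coordinate `Y`. By `Chart.repU`:
`z B_0(x) = P(x) A_0(x)`. By `ch.rep`: `β_j B_j(x) = P(x)^{ν_j} A_j(x)` (`β_j ≠ 0` since `b_j ≠ 0`: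
`iso` for `f = X (inr j)`), and for `H = h(u z^{-e}, β) ≠ 0` (`iso`): `H B_h(x) = P(x)^{ν_h} A_h(x)`;
all `A, B` not zero at `ρ x`.
`local_spec` at `x0 = ρ x` (a specialization of itself): `W` near `x0' = (a, Y_0)`. Write
`F(f)(x) = aeval (cons (W x) x) f`, `p = F(rename some P)`, `Z = p F(A_0) / F(B_0)`: `C^1` at `x0'`,
`Z x0' = 0` and `dZ = (A_0/B_0)(x0) dp` at `x0'`, `dp (Pi.single (Fin.last n) 1) = (∂P/∂Y)(ρ x) ≠ 0`
(`ch.hPY`). The map `Θ x = (x ∘ castSucc, Z x) : (Fin (n+1) → ℂ) → (Fin n → ℂ) × ℂ` has an invertible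
derivative at `x0'`, so it has a local inverse `Ψ`, `C^1` at `Θ x0' = (a, 0)`
(`ContDiffAt.to_localInverse`, `HasStrictFDerivAt.eventually_right_inverse`): `Θ (Ψ q) = q` for `q` near
`(a, 0)`. Let `E = F(B_0)/F(A_0)` (so `p = Z E`) and
`V_j q = (E^{ν_j} F(A_j) / F(B_j)) (Ψ q)`: `C^1` at `(a, 0)` and not zero there.
For `q = (y, ζ)` near `(a, 0)` with `ζ ≠ 0`, `x = Ψ q`: `x ∘ castSucc = y`, `Z x = ζ`, `p x = ζ E x ≠ 0`, and
`spec_frac` for the elements `z, z⁻¹, β_j` (`z⁻¹`: `z⁻¹ (P A_0)(x) = B_0(x)`; `β_j`: numerator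
`P^{ν_j} A_j` and denominator `B_j` if `ν_j ≥ 0`, numerator `A_j` and denominator `P^{-ν_j} B_j`
otherwise) gives that `(x, z, z⁻¹, β)` specializes to `((x, W x), ζ, ζ⁻¹, (p^{ν_j} A_j/B_j)(x))`, and
`p^{ν_j} A_j / B_j = ζ^{ν_j} V_j q`. So every polynomial relation of `(u z^{-e}, β)` holds at
`(y ζ^{-e}, ζ^{ν_j} V_j)`, hence (`iso`) every relation of `(a, b)`. `h ≠ 0`: from the relation
`H B_h = P^{ν_h} A_h` (multiplied by `P^{-ν_h}` if `ν_h < 0`), `p x ≠ 0`, `A_h ≠ 0` near `x0`.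
-/

set_option autoImplicit false

namespace Pool.Agent.EXI

open MvPolynomial Pool.Agent.EXL Topology

private theorem ctc_zpow {E : Type*} [NormedAddCommGroup E] [NormedSpace ℂ E] {f : E → ℂ} {x : E}
    (hf : ContDiffAt ℂ 1 f x) (h0 : f x ≠ 0) (ν : ℤ) : ContDiffAt ℂ 1 (fun y => f y ^ ν) x := by
  rcases Int.eq_nat_or_neg ν with ⟨m, rfl | rfl⟩
  · simp only [zpow_natCast]
    exact hf.pow m
  · simp only [zpow_neg, zpow_natCast]
    exact (hf.pow m).inv (pow_ne_zero _ h0)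

private theorem ctc_snoc_contDiff (n : ℕ) :
    ContDiff ℂ 1 (fun q : (Fin n → ℂ) × ℂ => (Fin.snoc q.1 q.2 : Fin (n + 1) → ℂ)) := by
  rw [contDiff_pi]
  intro i
  refine Fin.lastCases ?_ (fun j => ?_) i
  · simp only [Fin.snoc_last]
    exact contDiff_snd
  · simp only [Fin.snoc_castSucc]
    exact (contDiff_apply ℂ ℂ j).comp contDiff_fst

private theorem ctc_deriv {k : Subfield ℂ} {n : ℕ} (P : MvPolynomial (Fin (n + 1)) k)
    (a : Fin n → ℂ) (Y : ℂ) :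
    HasDerivAt (fun Y : ℂ => aeval (Fin.snoc a Y : Fin (n + 1) → ℂ) P)
      (aeval (Fin.snoc a Y : Fin (n + 1) → ℂ) (pderiv (Fin.last n) P)) Y := by
  classical
  induction P using MvPolynomial.induction_on with
  | C c =>
    simp only [aeval_C, pderiv_C, map_zero]
    exact hasDerivAt_const _ _
  | add p q hp hq =>
    simp only [map_add]
    exact hp.add hq
  | mul_X p i hp =>
    revert i
    intro i
    refine Fin.lastCases ?_ (fun j => ?_) i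
    · have h := hp.mul (hasDerivAt_id Y)
      simp only [map_mul, aeval_X, pderiv_mul, pderiv_X_self, map_add, map_one, Fin.snoc_last]
      exact h
    · have h := hp.mul (hasDerivAt_const Y (a j))
      have h1 : pderiv (Fin.last n) (X j.castSucc : MvPolynomial (Fin (n + 1)) k) = 0 :=
        pderiv_X_of_ne (Fin.castSucc_lt_last j).ne
      simp only [map_mul, aeval_X, pderiv_mul, map_add, h1, map_zero, Fin.snoc_castSucc]
      exact h

/-- The inverse function. -/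
private theorem ctc_inv {n : ℕ} (a : Fin n → ℂ) (Y₀ : ℂ) (Z : (Fin (n + 1) → ℂ) → ℂ)
    (hZ : ContDiffAt ℂ 1 Z (Fin.snoc a Y₀)) (hZ0 : Z (Fin.snoc a Y₀) = 0) (d : ℂ) (hd : d ≠ 0)
    (hder : HasDerivAt (fun Y : ℂ => Z (Fin.snoc a Y)) d Y₀) :
    ∃ Ψ : (Fin n → ℂ) × ℂ → (Fin (n + 1) → ℂ), ContDiffAt ℂ 1 Ψ (a, 0) ∧
      Ψ (a, 0) = Fin.snoc a Y₀ ∧ (∀ q i, Ψ q (Fin.castSucc i) = q.1 i) ∧
      ∀ᶠ q in 𝓝 (a, (0 : ℂ)), Z (Ψ q) = q.2 := by
  set Φ : ((Fin n → ℂ) × ℂ) × ℂ → ℂ := fun q => Z (Fin.snoc q.1.1 q.2) - q.1.2 with hΦ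
  have hsn : ContDiff ℂ 1 (fun q : ((Fin n → ℂ) × ℂ) × ℂ =>
      (Fin.snoc q.1.1 q.2 : Fin (n + 1) → ℂ)) :=
    (ctc_snoc_contDiff n).comp ((contDiff_fst.comp contDiff_fst).prodMk contDiff_snd)
  have cdf : ContDiffAt ℂ 1 Φ ((a, 0), Y₀) := by
    refine ContDiffAt.sub ?_ (contDiff_snd.comp contDiff_fst).contDiffAt
    exact ContDiffAt.comp (g := Z) ((a, (0 : ℂ)), Y₀) hZ hsn.contDiffAt
  have hdf : HasFDerivAt Φ (fderiv ℂ Φ ((a, 0), Y₀)) ((a, 0), Y₀) :=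
    (cdf.differentiableAt one_ne_zero).hasFDerivAt
  have hinr : HasFDerivAt (fun w : ℂ => (((a, (0 : ℂ)), w) : ((Fin n → ℂ) × ℂ) × ℂ))
      (ContinuousLinearMap.inr ℂ ((Fin n → ℂ) × ℂ) ℂ) Y₀ :=
    hasFDerivAt_prodMk_right (a, (0 : ℂ)) Y₀
  have hcomp := HasFDerivAt.comp Y₀ (g := Φ) hdf hinr
  have hcomp2 : HasFDerivAt (Φ ∘ fun w : ℂ => (((a, (0 : ℂ)), w) : ((Fin n → ℂ) × ℂ) × ℂ))
      (ContinuousLinearMap.toSpanSingleton ℂ d) Y₀ := by
    have h1 := (hder.sub_const (0 : ℂ)).hasFDerivAt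
    exact h1
  have heq := hcomp.unique hcomp2
  have hinv : (fderiv ℂ Φ ((a, 0), Y₀) ∘L .inr ℂ ((Fin n → ℂ) × ℂ) ℂ).IsInvertible := by
    rw [heq]
    refine ⟨ContinuousLinearEquiv.unitsEquivAut ℂ (Units.mk0 _ hd), ?_⟩
    ext
    simp
  have e1 := cdf.eventually_apply_implicitFunction one_ne_zero hinv
  have e3 := cdf.contDiffAt_implicitFunction one_ne_zero hinv
  have e4 := cdf.implicitFunction_apply_self one_ne_zero hinv
  set W := cdf.implicitFunction one_ne_zero hinv with hW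
  refine ⟨fun q => Fin.snoc q.1 (W q), ?_, ?_, ?_, ?_⟩
  · exact (ctc_snoc_contDiff n).contDiffAt.comp (a, (0 : ℂ)) (contDiffAt_fst.prodMk e3)
  · show (Fin.snoc a (W (a, 0)) : Fin (n + 1) → ℂ) = _
    rw [e4]
  · intro q i
    show (Fin.snoc q.1 (W q) : Fin (n + 1) → ℂ) i.castSucc = q.1 i
    rw [Fin.snoc_castSucc]
  · filter_upwards [e1] with q hq
    have h1 : Z (Fin.snoc q.1 (W q)) - q.2 = Z (Fin.snoc a Y₀) - 0 := hq
    rw [hZ0] at h1
    show Z (Fin.snoc q.1 (W q)) = q.2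
    linear_combination h1

private theorem ctc_int {F : Type*} [Field F] {c : F} (hc : c ≠ 0) (ν : ℤ) :
    c ^ ν.toNat = c ^ ν * c ^ (-ν).toNat := by
  rw [← zpow_natCast, ← zpow_natCast, ← zpow_add₀ hc]
  congr 1
  omega

/-- Specialization of `(u z^{-e}, β)`. -/
private theorem ctc_alg {k : Subfield ℂ} {n : ℕ} {a b : Fin n → ℂ} {K : Type} [Field K]
    [Algebra k K] (T : TopData k a b K) {ι : Type} (X : ι → K) (P A₀ B₀ : MvPolynomial ι k)
    (ui : Fin n → ι) (hu : ∀ i, X (ui i) = T.u i)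
    (hP : aeval X P ≠ 0) (hz : (T.z : K) ≠ 0) (hz0 : (T.z : K) * aeval X B₀ = aeval X (P * A₀))
    (ν : Fin n → ℤ) (A B : Fin n → MvPolynomial ι k)
    (hβ : ∀ j, T.β j * aeval X (B j) = aeval X P ^ ν j * aeval X (A j))
    (h : MvPolynomial (Fin n ⊕ Fin n) k) (νh : ℤ) (Ah Bh : MvPolynomial ι k)
    (hH : aeval (Sum.elim (fun i => (T.u i : K) * ((T.z : K)⁻¹) ^ T.e) T.β) h * aeval X Bh =
      aeval X P ^ νh * aeval X Ah)
    (x : ι → ℂ) (hx : Spec k X x) (hA0 : aeval x A₀ ≠ 0)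
    (hB : ∀ j, aeval x (B j) ≠ 0) (hAh : aeval x Ah ≠ 0) (hPx : aeval x P ≠ 0) :
    Spec k (Sum.elim a b)
      (Sum.elim (fun i => x (ui i) * ((aeval x P * aeval x A₀ / aeval x B₀)⁻¹) ^ T.e)
        fun j => aeval x P ^ ν j * aeval x (A j) / aeval x (B j)) ∧
    aeval (Sum.elim (fun i => x (ui i) * ((aeval x P * aeval x A₀ / aeval x B₀)⁻¹) ^ T.e)
        fun j => aeval x P ^ ν j * aeval x (A j) / aeval x (B j)) h ≠ 0 := by
  set e : Fin n ⊕ Fin n → K :=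
    Sum.elim (fun i => (T.u i : K) * ((T.z : K)⁻¹) ^ T.e) T.β with he
  set Nn : Fin n ⊕ Fin n → MvPolynomial ι k :=
    Sum.elim (fun i => MvPolynomial.X (ui i) * B₀ ^ T.e) fun j => P ^ (ν j).toNat * A j with hN
  set Dd : Fin n ⊕ Fin n → MvPolynomial ι k :=
    Sum.elim (fun _ => (P * A₀) ^ T.e) fun j => P ^ (-ν j).toNat * B j with hD
  have h1 : ∀ i, e i * aeval X (Dd i) = aeval X (Nn i) := by
    rintro (i | j)
    · simp only [he, hN, hD, Sum.elim_inl]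
      rw [map_pow, ← hz0, map_mul, map_pow, aeval_X, hu, mul_pow, mul_assoc, ← mul_assoc (_ ^ _),
        ← mul_pow, inv_mul_cancel₀ hz, one_pow, one_mul]
    · simp only [he, hN, hD, Sum.elim_inr]
      rw [map_mul, map_pow, map_mul, map_pow, ctc_int hP (ν j)]
      linear_combination (aeval X P ^ (-ν j).toNat) * hβ j
  have h2 : ∀ i, aeval x (Dd i) ≠ 0 := by
    rintro (i | j)
    · simp only [hD, Sum.elim_inl]
      rw [map_pow, map_mul]
      exact pow_ne_zero _ (mul_ne_zero hPx hA0)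
    · simp only [hD, Sum.elim_inr]
      rw [map_mul, map_pow]
      exact mul_ne_zero (pow_ne_zero _ hPx) (hB j)
  have h3 := spec_frac X x hx e Nn Dd h1 h2
  have h4 : (fun i => aeval x (Nn i) / aeval x (Dd i)) =
      (Sum.elim (fun i => x (ui i) * ((aeval x P * aeval x A₀ / aeval x B₀)⁻¹) ^ T.e)
        fun j => aeval x P ^ ν j * aeval x (A j) / aeval x (B j)) := by
    funext i
    rcases i with i | j
    · simp only [hN, hD, Sum.elim_inl]
      rw [map_mul, map_pow, aeval_X, map_pow, map_mul, inv_div, div_pow, mul_div_assoc]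
    · simp only [hN, hD, Sum.elim_inr]
      rw [map_mul, map_pow, map_mul, map_pow, ctc_int hPx (ν j)]
      have := hB j
      have := pow_ne_zero (-ν j).toNat hPx
      field_simp
  rw [h4] at h3
  set e' : Fin n ⊕ Fin n → ℂ :=
    (Sum.elim (fun i => x (ui i) * ((aeval x P * aeval x A₀ / aeval x B₀)⁻¹) ^ T.e)
        fun j => aeval x P ^ ν j * aeval x (A j) / aeval x (B j)) with he'
  constructor
  · intro f hf
    have h5 : aeval e f = 0 := (T.iso f).1 hf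
    have h6 := h3 (rename Sum.inr f) (by
      rw [aeval_rename]
      exact h5)
    rw [aeval_rename] at h6
    exact h6
  · intro h0
    have h6 := h3 (rename Sum.inr h * rename Sum.inl (P ^ (-νh).toNat * Bh) -
      rename Sum.inl (P ^ νh.toNat * Ah)) (by
        rw [map_sub, map_mul, aeval_rename, aeval_rename, aeval_rename]
        show aeval e h * aeval X (P ^ (-νh).toNat * Bh) - aeval X (P ^ νh.toNat * Ah) = 0
        rw [map_mul, map_pow, map_mul, map_pow, ctc_int hP νh]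
        linear_combination (aeval X P ^ (-νh).toNat) * hH)
    rw [map_sub, map_mul, aeval_rename, aeval_rename, aeval_rename] at h6
    have h7 : aeval e' h * aeval x (P ^ (-νh).toNat * Bh) - aeval x (P ^ νh.toNat * Ah) = 0 := h6
    rw [h0, zero_mul, zero_sub, neg_eq_zero, map_mul, map_pow] at h7
    exact mul_ne_zero (pow_ne_zero _ hPx) hAh h7

/-- Specializations of `(a, b)` near infinity. -/
theorem top_chart (k : Subfield ℂ) {n : ℕ} (a b : Fin n → ℂ) {K : Type} [Field K] [Algebra k K]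
    (T : TopData k a b K) (ha : AlgebraicIndependent k a) (hb : ∀ j, b j ≠ 0)
    (h : MvPolynomial (Fin n ⊕ Fin n) k) (hh : aeval (Sum.elim a b) h ≠ 0) :
    ∃ (ν : Fin n → ℤ) (V : Fin n → (Fin n → ℂ) × ℂ → ℂ),
      (∀ j, ContDiffAt ℂ 1 (V j) (a, 0)) ∧ (∀ j, V j (a, 0) ≠ 0) ∧
      ∀ᶠ p : (Fin n → ℂ) × ℂ in 𝓝 (a, 0), p.2 ≠ 0 →
        Spec k (Sum.elim a b)
          (Sum.elim (fun j => p.1 j * (p.2⁻¹) ^ T.e) fun j => p.2 ^ ν j * V j p) ∧
        aeval (Sum.elim (fun j => p.1 j * (p.2⁻¹) ^ T.e) fun j => p.2 ^ ν j * V j p) h ≠ 0 := by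
  obtain ⟨ch, hch⟩ := exists_chart T.pl T.fg T.tr T.u (by
    have : (fun i => T.pl.ρ (T.u i)) = a := funext T.ρu
    rw [this]
    exact ha)
  obtain ⟨ε, hε, hzε⟩ := T.hz
  have hz : (T.z : K) ≠ 0 := by
    rw [hzε]
    refine mul_ne_zero T.pl.t_ne fun h0 => hε ?_
    have h1 : ε = 0 := Subtype.ext h0
    rw [h1, map_zero]
  obtain ⟨A₀, B₀, hA₀, hB₀, hz0⟩ := ch.repU T.z ε hε hzε
  have hβ0 : ∀ j, T.β j ≠ 0 := by
    intro j h0
    apply hb j
    have h1 := (T.iso (X (Sum.inr j))).2 (by rw [aeval_X]; exact h0)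
    rw [aeval_X] at h1
    exact h1
  have hH0 : aeval (Sum.elim (fun i => (T.u i : K) * ((T.z : K)⁻¹) ^ T.e) T.β) h ≠ 0 :=
    fun h0 => hh ((T.iso h).2 h0)
  choose ν A B hA hB hAB using fun j => ch.rep (T.β j) (hβ0 j)
  obtain ⟨νh, Ah, Bh, hAh, hBh, hABh⟩ := ch.rep _ hH0
  -- the point
  set xK : Option (Fin (n + 1)) → K := fun i => (ch.x i : K) with hxK
  set x0 : Option (Fin (n + 1)) → ℂ := fun i => T.pl.ρ (ch.x i) with hx0
  set Y₀ : ℂ := x0 (some (Fin.last n)) with hY₀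
  set P' : MvPolynomial (Option (Fin (n + 1))) k := rename some ch.P with hP'
  have hsn : (fun i => x0 (some i)) = (Fin.snoc a Y₀ : Fin (n + 1) → ℂ) := by
    funext i
    refine Fin.lastCases ?_ (fun j => ?_) i
    · rw [Fin.snoc_last]
    · rw [Fin.snoc_castSucc]
      show T.pl.ρ (ch.x (some j.castSucc)) = a j
      rw [hch, T.ρu]
  obtain ⟨W, hW0, hWc, hWs, -⟩ := local_spec ch x0 (fun f hf => hf) ch.hGW
  rw [hsn] at hW0 hWc hWs
  have hx0c : cons (W (Fin.snoc a Y₀)) (Fin.snoc a Y₀) = x0 := by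
    rw [hW0, ← hsn]
    funext i
    cases i <;> rfl
  -- evaluation at `(x, W x)`
  set F : MvPolynomial (Option (Fin (n + 1))) k → (Fin (n + 1) → ℂ) → ℂ :=
    fun f x => aeval (cons (W x) x) f with hF
  have hFc : ∀ f, ContDiffAt ℂ 1 (F f) (Fin.snoc a Y₀) := fun f =>
    contDiffAt_aeval_cons f W _ hWc
  have hF0 : ∀ f, F f (Fin.snoc a Y₀) = aeval x0 f := by
    intro f
    show aeval (cons (W (Fin.snoc a Y₀)) (Fin.snoc a Y₀)) f = _
    rw [hx0c]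
  have hFP : ∀ x, F P' x = aeval x ch.P := by
    intro x
    show aeval (cons (W x) x) (rename some ch.P) = _
    rw [aeval_rename]
    rfl
  have hPx0 : aeval (Fin.snoc a Y₀ : Fin (n + 1) → ℂ) ch.P = 0 := by
    rw [← hFP, hF0]
    exact ch.crep_P1
  set Q : (Fin (n + 1) → ℂ) → ℂ := fun x => F A₀ x / F B₀ x with hQ
  have hQc : ContDiffAt ℂ 1 Q (Fin.snoc a Y₀) :=
    (hFc A₀).fun_div (hFc B₀) (by rw [hF0]; exact hB₀)
  have hQ0 : Q (Fin.snoc a Y₀) ≠ 0 := by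
    show F A₀ _ / F B₀ _ ≠ 0
    rw [hF0, hF0]
    exact div_ne_zero hA₀ hB₀
  obtain ⟨Ψ, hΨc, hΨ0, hΨ1, hΨ2⟩ := ctc_inv a Y₀ (fun x => F P' x * Q x)
    ((hFc P').mul hQc) (by
      show F P' _ * Q _ = 0
      rw [hFP, hPx0, zero_mul])
    (aeval (Fin.snoc a Y₀ : Fin (n + 1) → ℂ) (pderiv (Fin.last n) ch.P) * Q (Fin.snoc a Y₀))
    (mul_ne_zero (by rw [← hsn]; exact ch.hPY) hQ0) (by
      have h1 := ctc_deriv ch.P a Y₀
      have h2 : DifferentiableAt ℂ (fun Y : ℂ => Q (Fin.snoc a Y)) Y₀ := by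
        have h3 : ContDiffAt ℂ 1 (fun Y : ℂ => (Fin.snoc a Y : Fin (n + 1) → ℂ)) Y₀ :=
          ((ctc_snoc_contDiff n).comp (contDiff_prodMk_right a)).contDiffAt
        exact (ContDiffAt.comp (g := Q) Y₀ hQc h3).differentiableAt one_ne_zero
      have h4 := h1.fun_mul h2.hasDerivAt
      rw [hPx0, zero_mul, add_zero] at h4
      simp only [hFP]
      exact h4)
  -- the functions `V j`
  refine ⟨ν, fun j q => (F B₀ (Ψ q) / F A₀ (Ψ q)) ^ ν j * F (A j) (Ψ q) / F (B j) (Ψ q),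
    ?_, ?_, ?_⟩
  · intro j
    have hc : ∀ f, ContDiffAt ℂ 1 (fun q => F f (Ψ q)) (a, (0 : ℂ)) := by
      intro f
      refine ContDiffAt.comp (g := F f) (a, (0 : ℂ)) ?_ hΨc
      rw [hΨ0]
      exact hFc f
    have hc0 : ∀ f, F f (Ψ (a, 0)) = aeval x0 f := by
      intro f
      rw [hΨ0, hF0]
    refine ContDiffAt.fun_div (ContDiffAt.mul (ctc_zpow ((hc B₀).fun_div (hc A₀) ?_) ?_ _)
      (hc (A j))) (hc (B j)) ?_
    · rw [hc0]; exact hA₀
    · rw [hc0, hc0]; exact div_ne_zero hB₀ hA₀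
    · rw [hc0]; exact hB j
  · intro j
    show (F B₀ (Ψ (a, 0)) / F A₀ (Ψ (a, 0))) ^ ν j * F (A j) (Ψ (a, 0)) / F (B j) (Ψ (a, 0)) ≠ 0
    rw [hΨ0, hF0, hF0, hF0, hF0]
    exact div_ne_zero (mul_ne_zero (zpow_ne_zero _ (div_ne_zero hB₀ hA₀)) (hA j)) (hB j)
  · have hΨt : Filter.Tendsto Ψ (𝓝 (a, (0 : ℂ))) (𝓝 (Fin.snoc a Y₀)) := by
      have := hΨc.continuousAt.tendsto
      rwa [hΨ0] at this
    have hne : ∀ f, aeval x0 f ≠ 0 → ∀ᶠ q in 𝓝 (a, (0 : ℂ)), F f (Ψ q) ≠ 0 := by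
      intro f hf
      have h1 : ∀ᶠ x in 𝓝 (Fin.snoc a Y₀ : Fin (n + 1) → ℂ), F f x ≠ 0 :=
        (hFc f).continuousAt.eventually_ne (by rw [hF0]; exact hf)
      exact hΨt.eventually h1
    filter_upwards [hΨ2, hΨt.eventually hWs, hne A₀ hA₀, hne B₀ hB₀, hne Ah hAh,
      Filter.eventually_all.2 fun j => hne (B j) (hB j)] with q q1 q2 q3 q4 q5 q6 hq
    have hPne : F P' (Ψ q) ≠ 0 := by
      intro h0
      apply hq
      rw [← q1, h0, zero_mul]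
    have key := ctc_alg T xK P' A₀ B₀ (fun i => some i.castSucc)
      (fun i => congrArg (fun z : T.pl.O => (z : K)) (hch i))
      ch.crep_P0 hz hz0 ν A B (fun j => by rw [hAB j, hP', ch.crep_P]) h νh Ah Bh
      (by rw [hABh, hP', ch.crep_P]) (cons (W (Ψ q)) (Ψ q)) q2 q3 q6 q5 hPne
    have e1 : (fun i : Fin n => cons (W (Ψ q)) (Ψ q) (some i.castSucc) *
        ((aeval (cons (W (Ψ q)) (Ψ q)) P' * aeval (cons (W (Ψ q)) (Ψ q)) A₀ /
          aeval (cons (W (Ψ q)) (Ψ q)) B₀)⁻¹) ^ T.e) = fun i => q.1 i * (q.2⁻¹) ^ T.e := by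
      funext i
      have h1 : cons (W (Ψ q)) (Ψ q) (some i.castSucc) = q.1 i := hΨ1 q i
      have h2 : aeval (cons (W (Ψ q)) (Ψ q)) P' * aeval (cons (W (Ψ q)) (Ψ q)) A₀ /
          aeval (cons (W (Ψ q)) (Ψ q)) B₀ = q.2 := by
        rw [← q1]
        show F P' (Ψ q) * F A₀ (Ψ q) / F B₀ (Ψ q) = F P' (Ψ q) * (F A₀ (Ψ q) / F B₀ (Ψ q))
        ring
      rw [h1, h2]
    have e2 : (fun j => aeval (cons (W (Ψ q)) (Ψ q)) P' ^ ν j *
        aeval (cons (W (Ψ q)) (Ψ q)) (A j) / aeval (cons (W (Ψ q)) (Ψ q)) (B j)) =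
        fun j => q.2 ^ ν j * ((F B₀ (Ψ q) / F A₀ (Ψ q)) ^ ν j * F (A j) (Ψ q) /
          F (B j) (Ψ q)) := by
      funext j
      show F P' (Ψ q) ^ ν j * F (A j) (Ψ q) / F (B j) (Ψ q) = _
      have h2 : F P' (Ψ q) = q.2 * (F B₀ (Ψ q) / F A₀ (Ψ q)) := by
        rw [← q1]
        show F P' (Ψ q) = F P' (Ψ q) * (F A₀ (Ψ q) / F B₀ (Ψ q)) * (F B₀ (Ψ q) / F A₀ (Ψ q))
        field_simp
      rw [h2, mul_zpow]
      ring
    rw [e1, e2] at key
    exact key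

end Pool.Agent.EXI
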