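import Pool.Agent.EXI.CTopPl
import Pool.Agent.EXI.CTopCh
import Pool.Agent.EXI.CTopA

/-!
# EXI / CTop: the top case
-/

set_option autoImplicit false

namespace Pool.Agent.EXI

open MvPolynomial Pool.Agent.EXL Topology

/-- The top case: the first coordinates are algebraically independent. -/
theorem concl_top (φ : AddChar ℚ ℂ) (hφ : ‖φ 1‖ ≠ 1) (k : Subfield ℂ) {n : ℕ} (a b : Fin n → ℂ)
    (ha : AlgebraicIndependent k a) (hb : ∀ j, b j ≠ 0)
    (halg : ∀ j, IsAlgebraic (Algebra.adjoin k (Set.range a)) (b j)) : Concl φ k a b := by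
  intro h hh
  obtain ⟨K, iK, iA, ⟨T⟩⟩ := top_place k a b ha hb halg
  obtain ⟨ν, V, hV, hV0, hev⟩ := top_chart k a b T ha hb h hh
  obtain ⟨p, hp, hp2, q, hq⟩ := top_solve φ hφ a T.e T.he ν V hV hV0 _ hev
  obtain ⟨h1, h2⟩ := hp hp2
  exact ⟨_, _, ⟨q, hq⟩, h1, h2⟩

end Pool.Agent.EXI
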