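import Pool.Agent.EXI.CDefs

/-!
# EXI / CUni: integral unimodular changes of coordinates
-/

set_option autoImplicit false

namespace Pool.Agent.EXI

open MvPolynomial Pool.Agent.EXL

private lemma linZ_linZ {n : ℕ} (U V : Matrix (Fin n) (Fin n) ℤ) (a : Fin n → ℂ) :
    linZ V (linZ U a) = linZ (V * U) a := by
  funext j
  unfold linZ
  simp only [Matrix.mul_apply, Finset.mul_sum, Int.cast_sum, Int.cast_mul, Finset.sum_mul]
  rw [Finset.sum_comm]
  refine Finset.sum_congr rfl fun i _ => Finset.sum_congr rfl fun l _ => ?_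
  ring

private lemma prod_zpow_aux {κ : Type} (s : Finset κ) (x : ℂ) (hx : x ≠ 0) (e : κ → ℤ) :
    ∏ l ∈ s, x ^ e l = x ^ ∑ l ∈ s, e l := by
  classical
  induction s using Finset.induction_on with
  | empty => simp
  | insert a s ha ih => rw [Finset.prod_insert ha, Finset.sum_insert ha, ih, zpow_add₀ hx]

private lemma addChar_sum {κ : Type} (φ : AddChar ℚ ℂ) (s : Finset κ) (e : κ → ℚ) :
    φ (∑ l ∈ s, e l) = ∏ l ∈ s, φ (e l) := by
  classical
  induction s using Finset.induction_on with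
  | empty => simp
  | insert a s ha ih =>
    rw [Finset.prod_insert ha, Finset.sum_insert ha, AddChar.map_add_eq_mul, ih]

private lemma addChar_zmul (φ : AddChar ℚ ℂ) (m : ℤ) (q : ℚ) : φ ((m : ℚ) * q) = φ q ^ m := by
  rw [← zsmul_eq_mul, AddChar.map_zsmul_eq_zpow]

private lemma powZ_powZ {n : ℕ} (U V : Matrix (Fin n) (Fin n) ℤ) (b : Fin n → ℂ)
    (hb : ∀ i, b i ≠ 0) : powZ V (powZ U b) = powZ (V * U) b := by
  funext j
  unfold powZ
  simp only [Matrix.mul_apply, ← Finset.prod_zpow, ← zpow_mul]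
  rw [Finset.prod_comm]
  refine Finset.prod_congr rfl fun i _ => ?_
  rw [show (∑ l, V j l * U l i) = ∑ l, U l i * V j l from
    Finset.sum_congr rfl fun l _ => mul_comm _ _]
  rw [prod_zpow_aux _ _ (hb i)]

private lemma linZ_one {n : ℕ} (a : Fin n → ℂ) : linZ (1 : Matrix (Fin n) (Fin n) ℤ) a = a := by
  funext j
  unfold linZ
  rw [Finset.sum_eq_single j]
  · simp
  · intro i _ hi
    rw [Matrix.one_apply_ne hi.symm]
    simp
  · intro h
    exact absurd (Finset.mem_univ j) h

private lemma powZ_one {n : ℕ} (b : Fin n → ℂ) : powZ (1 : Matrix (Fin n) (Fin n) ℤ) b = b := by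
  funext j
  unfold powZ
  rw [Finset.prod_eq_single j]
  · simp
  · intro i _ hi
    rw [Matrix.one_apply_ne hi.symm]
    simp
  · intro h
    exact absurd (Finset.mem_univ j) h

/-- Clearing the denominators after the change of coordinates. -/
private lemma key (k : Subfield ℂ) {n : ℕ} (V : Matrix (Fin n) (Fin n) ℤ)
    (f : MvPolynomial (Fin n ⊕ Fin n) k) :
    ∃ (f' : MvPolynomial (Fin n ⊕ Fin n) k) (s : ℕ), ∀ A B : Fin n → ℂ, (∀ i, B i ≠ 0) →
      aeval (Sum.elim A B) f' = (∏ i, B i) ^ s * aeval (Sum.elim (linZ V A) (powZ V B)) f := by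
  have hP : ∀ A B : Fin n → ℂ, aeval (Sum.elim A B)
      (∏ i, X (Sum.inr i) : MvPolynomial (Fin n ⊕ Fin n) k) = ∏ i, B i := by
    intro A B
    rw [map_prod]
    exact Finset.prod_congr rfl fun i _ => by rw [aeval_X]; rfl
  induction f using MvPolynomial.induction_on with
  | C c =>
    refine ⟨C c, 0, fun A B _ => ?_⟩
    rw [algHom_C, algHom_C, pow_zero, one_mul]
  | add p q hp hq =>
    obtain ⟨p', s, hp'⟩ := hp
    obtain ⟨q', r, hq'⟩ := hq
    refine ⟨p' * (∏ i, X (Sum.inr i)) ^ r + q' * (∏ i, X (Sum.inr i)) ^ s, s + r,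
      fun A B hB => ?_⟩
    rw [map_add, map_mul, map_mul, map_pow, map_pow, hP, hp' A B hB, hq' A B hB, map_add]
    ring
  | mul_X p i hp =>
    obtain ⟨p', s, hp'⟩ := hp
    cases i with
    | inl j =>
      refine ⟨p' * ∑ i, C (V j i : k) * X (Sum.inl i), s, fun A B hB => ?_⟩
      rw [map_mul, hp' A B hB, map_mul, aeval_X, map_sum]
      have : ∑ i, aeval (Sum.elim A B) (C (V j i : k) * X (Sum.inl i)) = linZ V A j := by
        unfold linZ
        refine Finset.sum_congr rfl fun i _ => ?_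
        rw [map_mul, algHom_C, aeval_X]
        simp
      rw [this]
      simp only [Sum.elim_inl]
      ring
    | inr j =>
      set S : ℕ := ∑ i, (V j i).natAbs with hS
      refine ⟨p' * ∏ i, X (Sum.inr i) ^ ((S : ℤ) + V j i).toNat, s + S, fun A B hB => ?_⟩
      rw [map_mul, hp' A B hB, map_mul, aeval_X, map_prod]
      have h1 : ∏ i, aeval (Sum.elim A B) (X (Sum.inr i) ^ ((S : ℤ) + V j i).toNat :
          MvPolynomial (Fin n ⊕ Fin n) k) = (∏ i, B i) ^ S * powZ V B j := by
        unfold powZ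
        rw [← Finset.prod_pow, ← Finset.prod_mul_distrib]
        refine Finset.prod_congr rfl fun i _ => ?_
        rw [map_pow, aeval_X, Sum.elim_inr, ← zpow_natCast, ← zpow_natCast, ← zpow_add₀ (hB i)]
        congr 1
        apply Int.toNat_of_nonneg
        have h2 : (V j i).natAbs ≤ S :=
          Finset.single_le_sum (f := fun i => (V j i).natAbs) (fun _ _ => Nat.zero_le _)
            (Finset.mem_univ i)
        omega
      rw [h1]
      simp only [Sum.elim_inr]
      ring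

theorem concl_uni (φ : AddChar ℚ ℂ) (k : Subfield ℂ) {n : ℕ} (a b : Fin n → ℂ)
    (hb : ∀ j, b j ≠ 0) (U : Matrix (Fin n) (Fin n) ℤ) (hU : IsUnit U.det)
    (hc : Concl φ k (linZ U a) (powZ U b)) : Concl φ k a b := by
  set V := U⁻¹ with hV
  have hVU : V * U = 1 := Matrix.nonsing_inv_mul U hU
  have ha1 : linZ V (linZ U a) = a := by rw [linZ_linZ, hVU, linZ_one]
  have hb1 : powZ V (powZ U b) = b := by rw [powZ_powZ _ _ _ hb, hVU, powZ_one]
  have hB : ∀ i, powZ U b i ≠ 0 := fun i =>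
    Finset.prod_ne_zero_iff.2 fun l _ => zpow_ne_zero _ (hb l)
  intro h hh
  obtain ⟨h', s, hh'⟩ := key k V h
  have h1 : aeval (Sum.elim (linZ U a) (powZ U b)) h' ≠ 0 := by
    rw [hh' _ _ hB, ha1, hb1]
    exact mul_ne_zero (pow_ne_zero _ (Finset.prod_ne_zero_iff.2 fun i _ => hB i)) hh
  obtain ⟨A', B', ⟨q, hq⟩, hspec, hne⟩ := hc h' h1
  have hφ0 : ∀ r : ℚ, φ r ≠ 0 := by
    intro r h0
    have h2 : φ (r + -r) = φ r * φ (-r) := φ.map_add_eq_mul r (-r)
    rw [h0, add_neg_cancel, zero_mul, φ.map_zero_eq_one] at h2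
    exact one_ne_zero h2
  have hB' : ∀ i, B' i ≠ 0 := fun i => by
    rw [hq i]
    exact mul_ne_zero (Complex.exp_ne_zero _) (hφ0 _)
  refine ⟨linZ V A', powZ V B', ⟨fun j => ∑ i, (V j i : ℚ) * q i, fun j => ?_⟩, ?_, ?_⟩
  · unfold powZ linZ
    have h3 : φ (∑ i, (V j i : ℚ) * q i) = ∏ i, φ (q i) ^ V j i := by
      rw [addChar_sum]
      exact Finset.prod_congr rfl fun i _ => addChar_zmul φ _ _
    rw [h3, Complex.exp_sum, ← Finset.prod_mul_distrib]
    refine Finset.prod_congr rfl fun i _ => ?_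
    rw [hq i, mul_zpow, ← Complex.exp_int_mul]
  · intro f hf
    obtain ⟨f', r, hf'⟩ := key k V f
    have h2 : aeval (Sum.elim (linZ U a) (powZ U b)) f' = 0 := by
      rw [hf' _ _ hB, ha1, hb1, hf, mul_zero]
    have h3 := hspec f' h2
    rw [hf' _ _ hB'] at h3
    exact (mul_eq_zero.1 h3).resolve_left
      (pow_ne_zero _ (Finset.prod_ne_zero_iff.2 fun i _ => hB' i))
  · intro h2
    apply hne
    rw [hh' _ _ hB', h2, mul_zero]

end Pool.Agent.EXI
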