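import Pool.Agent.EXI.CAbh

/-!
# EXI / CFin: the residue field is finitely generated

PROOF.  `L = k(u, t) ⊆ K`. `K` is algebraic over `L` (`htr`, `indep_cons`) and finitely
generated over `k`, so `K` is finite over `L`, of degree `d`. Every element of `L^*` is `t^s c` with
`c ∈ O`, `ρ c ∈ k(ρ u)`, `ρ c ≠ 0` (for a nonzero polynomial `f(u, t) = t^s f₁(u, t)`, `f₁(U, 0) ≠ 0`,
`ρ f₁(u, t) = f₁(ρ u, 0) ≠ 0`). If `e_1, .., e_r ∈ O` have residues which are linearly independent
over `k(ρ u)` then the `e_i` are linearly independent over `L`: divide a relation `∑ c_i e_i = 0` by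
the power of `t` such that all `c_i ∈ O` and some residue is not zero, apply `ρ`. So `r ≤ d`.
The residue field (the set of the `ρ e`) is a field, algebraic over `k(ρ u)`, of degree `≤ d`; take a
primitive element (characteristic zero), it is `ρ y`; every `ρ e` is in `k(ρ u)(ρ y)`.
-/

set_option autoImplicit false

namespace Pool.Agent.EXI

open MvPolynomial

variable {k : Subfield ℂ} {K : Type} [Field K] [Algebra k K]

/-- the map `k → O` -/
private noncomputable def cfk (pl : Place k K) : k →+* pl.O :=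
  (algebraMap k K).codRestrict pl.O pl.memk

/-- evaluation in `O` -/
private noncomputable def cfev (pl : Place k K) {σ : Type} (x : σ → pl.O) :
    MvPolynomial σ k →+* pl.O := eval₂Hom (cfk pl) x

private theorem cfev_coe (pl : Place k K) {σ : Type} (x : σ → pl.O) (f : MvPolynomial σ k) :
    (cfev pl x f : K) = aeval (fun i => (x i : K)) f := by
  show pl.O.subtype (eval₂ (cfk pl) x f) = _
  rw [hom_eval₂, aeval_def]
  rfl

private theorem cfev_ρ (pl : Place k K) {σ : Type} (x : σ → pl.O) (f : MvPolynomial σ k) :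
    pl.ρ (cfev pl x f) = aeval (fun i => pl.ρ (x i)) f := by
  show pl.ρ (eval₂ (cfk pl) x f) = _
  rw [hom_eval₂, aeval_def]
  have : pl.ρ.comp (cfk pl) = algebraMap k ℂ := by
    ext c
    exact pl.ρk c
  rw [this]

private theorem cf_dec {σ : Type} (f : MvPolynomial (Option σ) k) :
    ∃ (f₀ : MvPolynomial σ k) (f₂ : MvPolynomial (Option σ) k),
      f = rename some f₀ + X none * f₂ := by
  induction f using MvPolynomial.induction_on with
  | C a => exact ⟨C a, 0, by rw [rename_C, mul_zero, add_zero]⟩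
  | add p q hp hq =>
    obtain ⟨p0, p2, hp⟩ := hp
    obtain ⟨q0, q2, hq⟩ := hq
    refine ⟨p0 + q0, p2 + q2, ?_⟩
    rw [map_add]
    nth_rewrite 1 [hp, hq]
    ring
  | mul_X p i hp =>
    obtain ⟨p0, p2, hp⟩ := hp
    cases i with
    | none =>
      refine ⟨0, p, ?_⟩
      rw [map_zero]
      ring
    | some i =>
      refine ⟨p0 * X i, p2 * X (some i), ?_⟩
      rw [map_mul, rename_X]
      nth_rewrite 1 [hp]
      ring

/-- the inverse in `O` of an element with nonzero residue -/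
private theorem cf_inv (pl : Place k K) {e : pl.O} (he : pl.ρ e ≠ 0) :
    ∃ e' : pl.O, (e' : K) = (e : K)⁻¹ ∧ pl.ρ e' = (pl.ρ e)⁻¹ := by
  refine ⟨⟨(e : K)⁻¹, pl.inv_mem e he⟩, rfl, ?_⟩
  have he0 : (e : K) ≠ 0 := by
    intro h
    apply he
    have : e = 0 := Subtype.ext h
    rw [this, map_zero]
  have h1 : e * ⟨(e : K)⁻¹, pl.inv_mem e he⟩ = 1 := Subtype.ext (mul_inv_cancel₀ he0)
  have h2 := congrArg pl.ρ h1
  rw [map_mul, map_one] at h2
  exact eq_inv_of_mul_eq_one_right h2

/-- nonzero polynomials in `u`, `t` -/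
private theorem cf_poly (pl : Place k K) {m : ℕ} (u : Fin m → pl.O)
    (hu : AlgebraicIndependent k (fun i => pl.ρ (u i))) (N : ℕ) :
    ∀ (f : MvPolynomial (Option (Fin m)) k) (ε : pl.O), pl.ρ ε ≠ 0 →
      ((cfev pl (cons ⟨pl.t, pl.t_mem⟩ u) f : pl.O) : K) = pl.t ^ N * ε →
      pl.ρ ε ∈ IntermediateField.adjoin k (Set.range fun i => pl.ρ (u i)) := by
  have hren : ∀ f : MvPolynomial (Fin m) k,
      cfev pl (cons ⟨pl.t, pl.t_mem⟩ u) (rename some f) = cfev pl u f := by
    intro f
    show eval₂ (cfk pl) _ (rename some f) = eval₂ (cfk pl) u f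
    rw [eval₂_rename]
    rfl
  have hXn : cfev pl (cons ⟨pl.t, pl.t_mem⟩ u) (X none) = ⟨pl.t, pl.t_mem⟩ := by
    show eval₂ (cfk pl) _ (X none) = _
    rw [eval₂_X]
    rfl
  have hρt : pl.ρ ⟨pl.t, pl.t_mem⟩ = 0 := pl.ρt
  have hdec : ∀ f : MvPolynomial (Option (Fin m)) k, ∃ (f₀ : MvPolynomial (Fin m) k)
      (f₂ : MvPolynomial (Option (Fin m)) k),
      cfev pl (cons ⟨pl.t, pl.t_mem⟩ u) f = cfev pl u f₀ +
        ⟨pl.t, pl.t_mem⟩ * cfev pl (cons ⟨pl.t, pl.t_mem⟩ u) f₂ := by
    intro f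
    obtain ⟨f₀, f₂, h⟩ := cf_dec f
    refine ⟨f₀, f₂, ?_⟩
    conv_lhs => rw [h]
    rw [map_add, hren, map_mul, hXn]
  induction N with
  | zero =>
    intro f ε hε hf
    rw [pow_zero, one_mul] at hf
    have h1 : cfev pl (cons ⟨pl.t, pl.t_mem⟩ u) f = ε := Subtype.ext hf
    obtain ⟨f₀, f₂, h⟩ := hdec f
    rw [← h1, h, map_add, map_mul, hρt, zero_mul, add_zero, cfev_ρ]
    rw [IntermediateField.mem_adjoin_range_iff]
    exact ⟨f₀, 1, by rw [map_one, div_one]⟩
  | succ N ih =>
    intro f ε hε hf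
    have hf' : cfev pl (cons ⟨pl.t, pl.t_mem⟩ u) f = ⟨pl.t, pl.t_mem⟩ ^ (N + 1) * ε :=
      Subtype.ext hf
    obtain ⟨f₀, f₂, h⟩ := hdec f
    have h1 : pl.ρ (cfev pl (cons ⟨pl.t, pl.t_mem⟩ u) f) = 0 := by
      rw [hf', map_mul, map_pow, hρt, zero_pow (by omega), zero_mul]
    have h0 : f₀ = 0 := by
      rw [h, map_add, map_mul, hρt, zero_mul, add_zero, cfev_ρ] at h1
      exact (algebraicIndependent_iff.1 hu) f₀ h1
    rw [h0, map_zero, zero_add] at h
    refine ih f₂ ε hε ?_
    have h2 := congrArg (fun z : pl.O => (z : K)) h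
    simp only [Subring.coe_mul] at h2
    rw [hf, pow_succ', mul_assoc] at h2
    exact (mul_left_cancel₀ pl.t_ne h2).symm

/-- nonzero elements of `k(u, t)` -/
private theorem cf_L (pl : Place k K) {m : ℕ} (u : Fin m → pl.O)
    (hu : AlgebraicIndependent k (fun i => pl.ρ (u i))) (c : K) (hc : c ≠ 0)
    (hcL : c ∈ IntermediateField.adjoin k (Set.range (cons pl.t fun i => (u i : K)))) :
    ∃ (s : ℤ) (c' : pl.O), pl.ρ c' ≠ 0 ∧
      pl.ρ c' ∈ IntermediateField.adjoin k (Set.range fun i => pl.ρ (u i)) ∧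
      c = pl.t ^ s * c' := by
  rw [IntermediateField.mem_adjoin_range_iff] at hcL
  obtain ⟨r, q, hrq⟩ := hcL
  have hxK : (fun i => ((cons ⟨pl.t, pl.t_mem⟩ u i : pl.O) : K)) =
      cons pl.t fun i => (u i : K) := by
    funext i
    cases i <;> rfl
  have hev : ∀ f : MvPolynomial (Option (Fin m)) k,
      aeval (cons pl.t fun i => (u i : K)) f =
        ((cfev pl (cons ⟨pl.t, pl.t_mem⟩ u) f : pl.O) : K) := by
    intro f
    rw [cfev_coe, hxK]
  rw [hev, hev] at hrq
  have key : ∀ f : MvPolynomial (Option (Fin m)) k,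
      ((cfev pl (cons ⟨pl.t, pl.t_mem⟩ u) f : pl.O) : K) ≠ 0 →
      ∃ (s : ℤ) (c' : pl.O), pl.ρ c' ≠ 0 ∧
      pl.ρ c' ∈ IntermediateField.adjoin k (Set.range fun i => pl.ρ (u i)) ∧
      ((cfev pl (cons ⟨pl.t, pl.t_mem⟩ u) f : pl.O) : K) = pl.t ^ s * c' := by
    intro f hf
    obtain ⟨s, ε, hε, he⟩ := pl.fac _ hf
    have h1 : 0 ≤ s := by
      rw [← pl.mem_iff s ε hε, ← he]
      exact (cfev pl _ f).2
    obtain ⟨N, rfl⟩ := Int.eq_ofNat_of_zero_le h1
    refine ⟨N, ε, hε, ?_, he⟩
    rw [zpow_natCast] at he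
    exact cf_poly pl u hu N f ε hε he
  have hq : ((cfev pl (cons ⟨pl.t, pl.t_mem⟩ u) q : pl.O) : K) ≠ 0 := by
    intro h
    apply hc
    rw [hrq, h, div_zero]
  have hr : ((cfev pl (cons ⟨pl.t, pl.t_mem⟩ u) r : pl.O) : K) ≠ 0 := by
    intro h
    apply hc
    rw [hrq, h, zero_div]
  obtain ⟨s₁, c₁, h11, h12, h13⟩ := key r hr
  obtain ⟨s₂, c₂, h21, h22, h23⟩ := key q hq
  obtain ⟨c₂', h24, h25⟩ := cf_inv pl h21
  refine ⟨s₁ - s₂, c₁ * c₂', ?_, ?_, ?_⟩
  · rw [map_mul, h25]
    exact mul_ne_zero h11 (inv_ne_zero h21)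
  · rw [map_mul, h25]
    exact mul_mem h12 (inv_mem h22)
  · rw [hrq, h13, h23, zpow_sub₀ pl.t_ne, Subring.coe_mul, h24]
    rw [mul_div_mul_comm, div_eq_mul_inv (c₁ : K)]

/-- elements with independent residues are independent over `k(u, t)` -/
private theorem cf_indep (pl : Place k K) {m : ℕ} (u : Fin m → pl.O)
    (hu : AlgebraicIndependent k (fun i => pl.ρ (u i))) {ι : Type*} (e : ι → pl.O)
    (he : LinearIndependent (IntermediateField.adjoin k (Set.range fun i => pl.ρ (u i)))
      (fun i => pl.ρ (e i))) :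
    LinearIndependent (IntermediateField.adjoin k (Set.range (cons pl.t fun i => (u i : K))))
      (fun i => (e i : K)) := by
  classical
  rw [linearIndependent_iff'] at he ⊢
  intro s g hg i₀ hi₀
  by_contra hne
  have hch : ∀ i : ι, ∃ (q : ℤ) (c' : pl.O), g i ≠ 0 → pl.ρ c' ≠ 0 ∧
      pl.ρ c' ∈ IntermediateField.adjoin k (Set.range fun i => pl.ρ (u i)) ∧
      (g i : K) = pl.t ^ q * c' := by
    intro i
    by_cases h : g i = 0
    · exact ⟨0, 0, fun h' => absurd h h'⟩
    · obtain ⟨q, c', h1, h2, h3⟩ := cf_L pl u hu (g i : K)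
        (fun h' => h (Subtype.ext h')) (g i).2
      exact ⟨q, c', fun _ => ⟨h1, h2, h3⟩⟩
  choose q c' hqc using hch
  obtain ⟨i₁, hi₁, hmin⟩ := Finset.exists_min_image (s.filter fun i => g i ≠ 0) q
    ⟨i₀, Finset.mem_filter.2 ⟨hi₀, hne⟩⟩
  rw [Finset.mem_filter] at hi₁
  set d : ι → pl.O := fun i => if g i = 0 then 0 else
    ⟨pl.t, pl.t_mem⟩ ^ (q i - q i₁).toNat * c' i with hd
  have hdK : ∀ i ∈ s, ((d i : pl.O) : K) = pl.t ^ (-q i₁) * g i := by
    intro i hi
    by_cases h : g i = 0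
    · simp only [hd, h, if_true]
      simp
    · have h1 := hmin i (Finset.mem_filter.2 ⟨hi, h⟩)
      have h2 : ((q i - q i₁).toNat : ℤ) = -q i₁ + q i := by omega
      simp only [hd, h, if_false]
      rw [Subring.coe_mul, Subring.coe_pow, (hqc i h).2.2, ← mul_assoc, ← zpow_natCast, h2,
        zpow_add₀ pl.t_ne]
  have hdρ : ∀ i ∈ s, pl.ρ (d i) ∈
      IntermediateField.adjoin k (Set.range fun i => pl.ρ (u i)) := by
    intro i hi
    by_cases h : g i = 0
    · simp only [hd, h, if_true, map_zero]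
      exact zero_mem _
    · simp only [hd, h, if_false]
      rw [map_mul, map_pow]
      have hρt : pl.ρ ⟨pl.t, pl.t_mem⟩ = 0 := pl.ρt
      rw [hρt]
      refine mul_mem (pow_mem (zero_mem _) _) (hqc i h).2.1
  have hsum : ∑ i ∈ s, d i * e i = 0 := by
    apply Subtype.ext
    rw [Subring.coe_zero]
    push_cast
    have : ∀ i ∈ s, ((d i : pl.O) : K) * ((e i : pl.O) : K) =
        pl.t ^ (-q i₁) * (g i • ((e i : pl.O) : K)) := by
      intro i hi
      rw [hdK i hi, mul_assoc]
      rfl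
    rw [Finset.sum_congr rfl this, ← Finset.mul_sum, hg, mul_zero]
  have h3 := congrArg pl.ρ hsum
  rw [map_sum, map_zero] at h3
  set g' : ι → IntermediateField.adjoin k (Set.range fun i => pl.ρ (u i)) := fun i =>
    if h : i ∈ s then ⟨pl.ρ (d i), hdρ i h⟩ else 0 with hg'
  have h4 : ∑ i ∈ s, g' i • pl.ρ (e i) = 0 := by
    rw [← h3]
    refine Finset.sum_congr rfl fun i hi => ?_
    simp only [hg', hi, dif_pos]
    rw [map_mul]
    rfl
  have h5 := he s g' h4 i₁ hi₁.1
  have h6 : pl.ρ (d i₁) = 0 := by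
    have h7 := congrArg (fun z : IntermediateField.adjoin k (Set.range fun i => pl.ρ (u i)) =>
      (z : ℂ)) h5
    simp only [hg', hi₁.1, dif_pos] at h7
    exact h7
  apply (hqc i₁ hi₁.2).1
  have h8 : d i₁ = c' i₁ := by
    simp only [hd, hi₁.2, if_false, sub_self]
    simp
  rw [← h8]
  exact h6

theorem Place.finite_residue (pl : Place k K)
    (hfg : ∃ S : Finset K, IntermediateField.adjoin k (S : Set K) = ⊤) {m : ℕ}
    (htr : ∀ y : Fin (m + 2) → K, ¬ AlgebraicIndependent k y) (u : Fin m → pl.O)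
    (hu : AlgebraicIndependent k (fun i => pl.ρ (u i))) :
    ∃ y : pl.O, ∀ e : pl.O, pl.ρ e ∈
      IntermediateField.adjoin k (insert (pl.ρ y) (Set.range fun i => pl.ρ (u i))) := by
  classical
  set v : Option (Fin m) → K := cons pl.t fun i => (u i : K) with hv
  have hvi : AlgebraicIndependent k v := pl.indep_cons u hu
  set L := IntermediateField.adjoin k (Set.range v) with hL
  set F := IntermediateField.adjoin k (Set.range fun i => pl.ρ (u i)) with hF
  -- `K` is algebraic over `L`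
  have halg : ∀ e : K, IsAlgebraic L e := by
    intro e
    have h0 : IsAlgebraic (Algebra.adjoin k (Set.range v)) e := by
      by_contra he
      have h1 := (hvi.option_iff_transcendental e).2 he
      set σ : Fin (m + 2) ≃ Option (Option (Fin m)) :=
        (_root_.finSuccEquiv (m + 1)).trans (Equiv.optionCongr (_root_.finSuccEquiv m)) with hσ
      exact htr _ (h1.comp σ σ.injective)
    have hle : Algebra.adjoin k (Set.range v) ≤ L.toSubalgebra :=
      Algebra.adjoin_le (IntermediateField.subset_adjoin k _)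
    exact h0.tower_top_of_subalgebra_le hle
  obtain ⟨S, hS⟩ := hfg
  have hfin : FiniteDimensional L K := by
    have h1 : IntermediateField.adjoin L (S : Set K) = ⊤ :=
      IntermediateField.adjoin_eq_top_of_adjoin_eq_top k hS
    have h2 : FiniteDimensional L (IntermediateField.adjoin L (S : Set K)) :=
      IntermediateField.finiteDimensional_adjoin fun x _ => (halg x).isIntegral
    rw [h1] at h2
    exact IntermediateField.topEquiv.toLinearEquiv.finiteDimensional
  -- the residue field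
  set Rs : Subfield ℂ :=
    { pl.ρ.range with
      inv_mem' := by
        rintro z ⟨e, rfl⟩
        by_cases he : pl.ρ e = 0
        · rw [he, inv_zero]
          exact ⟨0, map_zero _⟩
        · obtain ⟨e', h1, h2⟩ := cf_inv pl he
          exact ⟨e', h2⟩ } with hRs
  have hRm : ∀ z : ℂ, z ∈ Rs ↔ ∃ e : pl.O, pl.ρ e = z := fun z => Iff.rfl
  have hkR : ∀ c : k, algebraMap k ℂ c ∈ Rs := fun c => ⟨⟨algebraMap k K c, pl.memk c⟩, pl.ρk c⟩
  have hFR : ∀ c : F, algebraMap F ℂ c ∈ Rs := by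
    intro c
    have h1 : F ≤ Rs.toIntermediateField hkR := by
      rw [hF, IntermediateField.adjoin_le_iff]
      rintro z ⟨i, rfl⟩
      exact ⟨u i, rfl⟩
    exact h1 c.2
  set R : IntermediateField F ℂ := Rs.toIntermediateField hFR with hR
  have hRm' : ∀ z : R, ∃ e : pl.O, pl.ρ e = z := fun z => z.2
  choose lift hlift using hRm'
  have hrank : Module.rank F R ≤ (Module.finrank L K : ℕ) := by
    apply rank_le
    intro s hs
    have h1 : LinearIndependent F (fun i : s => pl.ρ (lift (i : R))) := by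
      have h2 : LinearIndependent F (fun i : s => R.val.toLinearMap (i : R)) :=
        hs.map' R.val.toLinearMap (LinearMap.ker_eq_bot.2 R.val.injective)
      have h3 : (fun i : s => pl.ρ (lift (i : R))) = fun i : s => R.val.toLinearMap (i : R) :=
        funext fun i => hlift (i : R)
      rw [h3]
      exact h2
    have h3 := cf_indep pl u hu (fun i : s => lift (i : R)) h1
    have h4 := h3.fintype_card_le_finrank
    rwa [Fintype.card_coe] at h4
  have hfinR : FiniteDimensional F R := by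
    rw [FiniteDimensional, ← Module.rank_lt_aleph0_iff]
    exact lt_of_le_of_lt hrank (Cardinal.natCast_lt_aleph0)
  obtain ⟨α, hα⟩ := Field.exists_primitive_element F R
  refine ⟨lift α, fun e => ?_⟩
  set z : R := ⟨pl.ρ e, ⟨e, rfl⟩⟩ with hz
  have h1 : z ∈ IntermediateField.adjoin F ({α} : Set R) := by
    rw [hα]
    exact IntermediateField.mem_top
  have h2 : pl.ρ e ∈ (IntermediateField.adjoin F ({α} : Set R)).map R.val := ⟨z, h1, rfl⟩
  rw [IntermediateField.adjoin_map, Set.image_singleton] at h2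
  have h3 : pl.ρ e ∈ (IntermediateField.adjoin F ({R.val α} : Set ℂ)).restrictScalars k := h2
  have h4 := IntermediateField.adjoin_adjoin_left k (Set.range fun i => pl.ρ (u i))
    ({R.val α} : Set ℂ)
  have h5 := (SetLike.ext_iff.1 h4 (pl.ρ e)).1 h3
  rw [hlift]
  refine (IntermediateField.adjoin.mono k _ _ ?_) h5
  rintro w (hw | hw)
  · exact Or.inr hw
  · left
    rw [Set.mem_singleton_iff.1 hw]
    rfl

end Pool.Agent.EXI
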