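import Pool.Agent.EXI.CKer
import Pool.Agent.EXI.CFin

/-!
# EXI / CBase: the base of a chart

PROOF.  Let `y` be as in `Place.finite_residue`. `ρ y` is algebraic over `k(ρ u)`
(`Place.residue_algebraic`), so `exists_ker` (in `ℂ`, for `ρ ∘ u` and `w = ρ y`) gives
`G ∈ k[U, Y]`; let `P` be the same polynomial in the variables `Fin (m + 1)` (`rename` by the
bijection `some i ↦ i.castSucc`, `none ↦ Fin.last m`). So the polynomials vanishing at `(ρ u, ρ y)`
are the multiples of `P` and `∂P/∂Y (ρ u, ρ y) ≠ 0`. In particular `P(u, y) ∈ t O`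
(`Place.residue_zero_iff`). If `P(u, y) = t ε` with `ρ ε ≠ 0` take `x = (u, y)`; otherwise
`P(u, y) = t ε`, `ρ ε = 0` and by the Taylor formula
`P(u, y + t) = P(u, y) + t ∂P/∂Y(u, y) + t^2 (..) = t (ε + ∂P/∂Y(u, y) + t (..))`, and the residue of the
last factor is `∂P/∂Y(ρ u, ρ y) ≠ 0`; take `x = (u, y + t)` (same residues).
Taylor formula: `P(u, Y + t) - P(u, Y)` for a polynomial in one variable `Y` over a commutative ring:
`Polynomial.aeval_add_of_sq_eq_zero`, `Polynomial.evalEvalPoly..`, `Polynomial.eval_add_eq..`, or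
`Polynomial.binomExpansion`.
Independence of `x`: let `f ≠ 0` with `f(x) = 0`. `f = P^s f₁` with `P ∤ f₁` (`P` is prime, not a unit:
the kernel of a ring homomorphism to a field; finite multiplicity in the factorial ring `k[X]`), so
`f₁(ρ x) ≠ 0`, `f₁(x) ≠ 0`, `P(x) ≠ 0`: contradiction.
-/

set_option autoImplicit false

namespace Pool.Agent.EXI

open MvPolynomial

variable {k : Subfield ℂ} {K : Type} [Field K] [Algebra k K]

private noncomputable def CBase_kO (pl : Place k K) : k →+* pl.O where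
  toFun c := ⟨algebraMap k K c, pl.memk c⟩
  map_one' := Subtype.ext (map_one _)
  map_mul' a b := Subtype.ext (map_mul _ _ _)
  map_zero' := Subtype.ext (map_zero _)
  map_add' a b := Subtype.ext (map_add _ _ _)

private noncomputable def CBase_ev (pl : Place k K) {ι : Type*} (v : ι → pl.O) :
    MvPolynomial ι k →+* pl.O := eval₂Hom (CBase_kO pl) v

private theorem CBase_ev_coe (pl : Place k K) {ι : Type*} (v : ι → pl.O) (f : MvPolynomial ι k) :
    ((CBase_ev pl v f : pl.O) : K) = aeval (fun i => (v i : K)) f := by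
  have h1 : (pl.O.subtype.comp (CBase_ev pl v)) =
      ((aeval (fun i => (v i : K)) : MvPolynomial ι k →ₐ[k] K) : MvPolynomial ι k →+* K) := by
    refine MvPolynomial.ringHom_ext (fun c => ?_) fun i => ?_
    · simp [CBase_ev, CBase_kO]
    · simp [CBase_ev]
  exact congrArg (fun φ : MvPolynomial ι k →+* K => φ f) h1

private theorem CBase_ev_ρ (pl : Place k K) {ι : Type*} (v : ι → pl.O) (f : MvPolynomial ι k) :
    pl.ρ (CBase_ev pl v f) = aeval (fun i => pl.ρ (v i)) f := by
  have h1 : (pl.ρ.comp (CBase_ev pl v)) =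
      ((aeval (fun i => pl.ρ (v i)) : MvPolynomial ι k →ₐ[k] ℂ) : MvPolynomial ι k →+* ℂ) := by
    refine MvPolynomial.ringHom_ext (fun c => ?_) fun i => ?_
    · have h2 := pl.ρk c
      simp only [CBase_ev, CBase_kO, RingHom.coe_comp, Function.comp_apply, coe_eval₂Hom, eval₂_C,
        RingHom.coe_mk, MonoidHom.coe_mk, OneHom.coe_mk, RingHom.coe_coe, aeval_C]
      exact h2
    · simp [CBase_ev]
  exact congrArg (fun φ : MvPolynomial ι k →+* ℂ => φ f) h1

private theorem CBase_taylor {A : Type*} [CommRing A] (g : k →+* A) {n : ℕ} (j : Fin n)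
    (v v' : Fin n → A) (t : A) (hv : ∀ i, v' i = v i + if i = j then t else 0)
    (P : MvPolynomial (Fin n) k) :
    ∃ c, eval₂Hom g v' P = eval₂Hom g v P + t * eval₂Hom g v (pderiv j P) + t ^ 2 * c := by
  induction P using MvPolynomial.induction_on with
  | C a => exact ⟨0, by simp⟩
  | add p q hp hq =>
    obtain ⟨c, hc⟩ := hp
    obtain ⟨d, hd⟩ := hq
    refine ⟨c + d, ?_⟩
    rw [map_add, map_add, map_add, map_add, hc, hd]
    ring
  | mul_X p i hp =>
    obtain ⟨c, hc⟩ := hp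
    by_cases hij : i = j
    · refine ⟨c * (v i + t) + eval₂Hom g v (pderiv j p), ?_⟩
      have h1 : v' i = v i + t := by rw [hv, if_pos hij]
      have h2 : pderiv j (p * X i) = pderiv j p * X i + p := by
        rw [pderiv_mul, hij, pderiv_X_self, mul_one]
      rw [map_mul, h2, map_add, map_mul, map_mul, hc]
      simp only [coe_eval₂Hom, eval₂_X, h1]
      ring
    · refine ⟨c * v i, ?_⟩
      have h1 : v' i = v i := by rw [hv, if_neg hij, add_zero]
      have h2 : pderiv j (p * X i) = pderiv j p * X i := by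
        rw [pderiv_mul, pderiv_X_of_ne (R := k) hij, mul_zero, add_zero]
      rw [map_mul, h2, map_mul, map_mul, hc]
      simp only [coe_eval₂Hom, eval₂_X, h1]
      ring

private theorem CBase_indep (pl : Place k K) {n : ℕ} (x : Fin n → pl.O)
    (P : MvPolynomial (Fin n) k)
    (hk : ∀ f : MvPolynomial (Fin n) k, aeval (fun i => pl.ρ (x i)) f = 0 ↔ P ∣ f)
    (ε : pl.O) (hε : pl.ρ ε ≠ 0) (hP : aeval (fun i => (x i : K)) P = pl.t * ε) :
    AlgebraicIndependent k (fun i => (x i : K)) := by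
  have hε0 : (ε : K) ≠ 0 := by
    intro h0
    apply hε
    have : ε = 0 := Subtype.ext h0
    rw [this, map_zero]
  have hP0 : aeval (fun i => (x i : K)) P ≠ 0 := by
    rw [hP]
    exact mul_ne_zero pl.t_ne hε0
  have hPne : P ≠ 0 := by
    rintro rfl
    exact hP0 (map_zero _)
  have hprime : Prime P := by
    rw [← Ideal.span_singleton_prime hPne]
    have h1 : RingHom.ker ((aeval (fun i => pl.ρ (x i)) : MvPolynomial (Fin n) k →ₐ[k] ℂ) :
        MvPolynomial (Fin n) k →+* ℂ) = Ideal.span {P} := by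
      ext f
      rw [RingHom.mem_ker, Ideal.mem_span_singleton]
      exact hk f
    rw [← h1]
    exact RingHom.ker_isPrime _
  rw [algebraicIndependent_iff]
  intro f hf
  by_contra hf0
  obtain ⟨s, f₁, h1, h2⟩ := WfDvdMonoid.max_power_factor hf0 hprime.irreducible
  rw [h2, map_mul, map_pow] at hf
  rcases mul_eq_zero.1 hf with h3 | h3
  · exact pow_ne_zero s hP0 h3
  · apply h1
    rw [← hk, ← CBase_ev_ρ]
    have h4 : CBase_ev pl x f₁ = 0 := Subtype.ext (by
      rw [CBase_ev_coe, h3]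
      rfl)
    rw [h4, map_zero]

private def CBase_e (m : ℕ) : Option (Fin m) ≃ Fin (m + 1) := finSuccEquivLast.symm

private theorem CBase_cons {m : ℕ} {R : Type*} (z : Fin (m + 1) → R) :
    z ∘ CBase_e m = cons (z (Fin.last m)) fun i => z i.castSucc := by
  funext o
  cases o with
  | none => simp [CBase_e, cons]
  | some i => simp [CBase_e, cons]

/-- The coordinates `x` of a chart: `P(x)` is a uniformizer and the residue field is generated by the
residues of `x`. -/
theorem exists_base (pl : Place k K)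
    (hfg : ∃ S : Finset K, IntermediateField.adjoin k (S : Set K) = ⊤) {m : ℕ}
    (htr : ∀ y : Fin (m + 2) → K, ¬ AlgebraicIndependent k y) (u : Fin m → pl.O)
    (hu : AlgebraicIndependent k (fun i => pl.ρ (u i))) :
    ∃ (x : Fin (m + 1) → pl.O) (P : MvPolynomial (Fin (m + 1)) k),
      (∀ i : Fin m, x i.castSucc = u i) ∧
      AlgebraicIndependent k (fun i => (x i : K)) ∧
      (∀ f : MvPolynomial (Fin (m + 1)) k, aeval (fun i => pl.ρ (x i)) f = 0 ↔ P ∣ f) ∧
      (∃ ε : pl.O, pl.ρ ε ≠ 0 ∧ aeval (fun i => (x i : K)) P = pl.t * ε) ∧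
      (∀ e : pl.O, pl.ρ e ∈ IntermediateField.adjoin k (Set.range fun i => pl.ρ (x i))) ∧
      aeval (fun i => pl.ρ (x i)) (pderiv (Fin.last m) P) ≠ 0 := by
  obtain ⟨y, hy⟩ := pl.finite_residue hfg htr u hu
  obtain ⟨G, hG, hGd⟩ := exists_ker (fun i => pl.ρ (u i)) (pl.ρ y) hu
    (pl.residue_algebraic htr u hu y)
  set P : MvPolynomial (Fin (m + 1)) k := rename (CBase_e m) G with hPdef
  -- the facts for all coordinates with the right residues
  have hz : ∀ x : Fin (m + 1) → pl.O, (∀ i : Fin m, x i.castSucc = u i) →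
      pl.ρ (x (Fin.last m)) = pl.ρ y →
      (fun i => pl.ρ (x i)) ∘ CBase_e m = cons (pl.ρ y) fun i => pl.ρ (u i) := by
    intro x h1 h2
    rw [CBase_cons, h2]
    congr 1
    funext i
    rw [h1]
  have hk : ∀ x : Fin (m + 1) → pl.O, (∀ i : Fin m, x i.castSucc = u i) →
      pl.ρ (x (Fin.last m)) = pl.ρ y →
      ∀ f : MvPolynomial (Fin (m + 1)) k, aeval (fun i => pl.ρ (x i)) f = 0 ↔ P ∣ f := by
    intro x h1 h2 f
    obtain ⟨g, rfl⟩ := (renameEquiv k (CBase_e m)).surjective f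
    have h3 : (renameEquiv k (CBase_e m)) g = rename (CBase_e m) g := rfl
    have h4 : P = (renameEquiv k (CBase_e m)) G := rfl
    rw [h4, map_dvd_iff, h3, aeval_rename, hz x h1 h2]
    exact hG g
  have hd : ∀ x : Fin (m + 1) → pl.O, (∀ i : Fin m, x i.castSucc = u i) →
      pl.ρ (x (Fin.last m)) = pl.ρ y →
      aeval (fun i => pl.ρ (x i)) (pderiv (Fin.last m) P) ≠ 0 := by
    intro x h1 h2
    have h3 : Fin.last m = CBase_e m none := by simp [CBase_e]
    rw [hPdef, h3, pderiv_rename (CBase_e m).injective, aeval_rename, hz x h1 h2]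
    exact hGd
  have hfin : ∀ x : Fin (m + 1) → pl.O, (∀ i : Fin m, x i.castSucc = u i) →
      pl.ρ (x (Fin.last m)) = pl.ρ y → ∀ ε : pl.O, pl.ρ ε ≠ 0 →
      aeval (fun i => (x i : K)) P = pl.t * ε →
      ∃ (x : Fin (m + 1) → pl.O) (P : MvPolynomial (Fin (m + 1)) k),
        (∀ i : Fin m, x i.castSucc = u i) ∧
        AlgebraicIndependent k (fun i => (x i : K)) ∧
        (∀ f : MvPolynomial (Fin (m + 1)) k, aeval (fun i => pl.ρ (x i)) f = 0 ↔ P ∣ f) ∧
        (∃ ε : pl.O, pl.ρ ε ≠ 0 ∧ aeval (fun i => (x i : K)) P = pl.t * ε) ∧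
        (∀ e : pl.O, pl.ρ e ∈ IntermediateField.adjoin k (Set.range fun i => pl.ρ (x i))) ∧
        aeval (fun i => pl.ρ (x i)) (pderiv (Fin.last m) P) ≠ 0 := by
    intro x h1 h2 ε hε h3
    refine ⟨x, P, h1, CBase_indep pl x P (hk x h1 h2) ε hε h3, hk x h1 h2, ⟨ε, hε, h3⟩,
      fun e => ?_, hd x h1 h2⟩
    refine IntermediateField.adjoin.mono k _ _ ?_ (hy e)
    rw [Set.insert_subset_iff]
    refine ⟨⟨Fin.last m, h2⟩, ?_⟩
    rintro _ ⟨i, rfl⟩
    exact ⟨i.castSucc, by simp only [h1]⟩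
  set x₀ : Fin (m + 1) → pl.O := Fin.snoc u y with hx₀
  have ha0 : ∀ i : Fin m, x₀ i.castSucc = u i := fun i => by
    rw [hx₀]
    exact Fin.snoc_castSucc (α := fun _ => pl.O) y u i
  have hb0 : x₀ (Fin.last m) = y := by
    rw [hx₀]
    exact Fin.snoc_last (α := fun _ => pl.O) y u
  have hb0' : pl.ρ (x₀ (Fin.last m)) = pl.ρ y := by rw [hb0]
  have h1 : pl.ρ (CBase_ev pl x₀ P) = 0 := by
    rw [CBase_ev_ρ]
    exact (hk x₀ ha0 hb0' P).2 dvd_rfl
  obtain ⟨ε, hε⟩ := (pl.residue_zero_iff _).1 h1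
  by_cases hε0 : pl.ρ ε = 0
  · -- the second case
    set T : pl.O := ⟨pl.t, pl.t_mem⟩ with hT
    set x₁ : Fin (m + 1) → pl.O := Fin.snoc u (y + T) with hx₁
    have ha1 : ∀ i : Fin m, x₁ i.castSucc = u i := fun i => by
      rw [hx₁]
      exact Fin.snoc_castSucc (α := fun _ => pl.O) (y + T) u i
    have hb1 : x₁ (Fin.last m) = y + T := by
      rw [hx₁]
      exact Fin.snoc_last (α := fun _ => pl.O) (y + T) u
    have hb1' : pl.ρ (x₁ (Fin.last m)) = pl.ρ y := by
      rw [hb1, map_add, hT, pl.ρt, add_zero]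
    have hv : ∀ i, x₁ i = x₀ i + if i = Fin.last m then T else 0 := by
      intro i
      refine Fin.lastCases ?_ (fun i => ?_) i
      · rw [if_pos rfl, hb1, hb0]
      · rw [if_neg (Fin.castSucc_lt_last i).ne, ha1, ha0, add_zero]
    obtain ⟨c, hc⟩ := CBase_taylor (CBase_kO pl) (Fin.last m) x₀ x₁ T hv P
    have hε' : CBase_ev pl x₀ P = T * ε := Subtype.ext hε
    have hc' : CBase_ev pl x₁ P = T * (ε + CBase_ev pl x₀ (pderiv (Fin.last m) P) + T * c) := by
      have h2 : CBase_ev pl x₁ P = CBase_ev pl x₀ P +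
        T * CBase_ev pl x₀ (pderiv (Fin.last m) P) + T ^ 2 * c := hc
      rw [h2, hε']
      ring
    refine hfin x₁ ha1 hb1' (ε + CBase_ev pl x₀ (pderiv (Fin.last m) P) + T * c) ?_ ?_
    · rw [map_add, map_add, map_mul, hT, pl.ρt, zero_mul, add_zero, hε0, zero_add, CBase_ev_ρ]
      exact hd x₀ ha0 hb0'
    · rw [← CBase_ev_coe, hc']
      rfl
  · refine hfin x₀ ha0 hb0' ε hε0 ?_
    rw [← CBase_ev_coe, hε]

end Pool.Agent.EXI
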