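import Pool.Agent.EXL.Defs

/-!
# EXI / CDefs: places, charts, integral changes of coordinates

`Place k K` is a discrete valuation ring `O` of the field `K` over `k ⊆ ℂ` together with an embedding
of its residue field into `ℂ` over `k`, i.e. a ring homomorphism `ρ : O → ℂ` whose kernel is
generated by the uniformizer `t`.
-/

set_option autoImplicit false

namespace Pool.Agent.EXI

open MvPolynomial Pool.Agent.EXL

/-- A discrete valuation ring `O` of `K` over `k`, with uniformizer `t` and with an embedding `ρ` of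
the residue field into the complex numbers. -/
structure Place (k : Subfield ℂ) (K : Type) [Field K] [Algebra k K] where
  O : Subring K
  t : K
  ρ : O →+* ℂ
  memk : ∀ c : k, algebraMap k K c ∈ O
  ρk : ∀ c : k, ρ ⟨algebraMap k K c, memk c⟩ = c
  t_ne : t ≠ 0
  t_mem : t ∈ O
  ρt : ρ ⟨t, t_mem⟩ = 0
  inv_mem : ∀ e : O, ρ e ≠ 0 → (e : K)⁻¹ ∈ O
  fac : ∀ e : K, e ≠ 0 → ∃ (m : ℤ) (ε : O), ρ ε ≠ 0 ∧ e = t ^ m * ε

/-- The point `(x, w)`: the coordinates `some i` are `x i` and the coordinate `none` is `w`. -/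
def cons {n : ℕ} {R : Type*} (w : R) (x : Fin n → R) : Option (Fin n) → R
  | none => w
  | some i => x i

/-- A chart of a place: `K` is given by the polynomial relation `G(x, w) = 0`, `x` is algebraically
independent, `∂G/∂w ≠ 0` at the residues, `P(x)` is a uniformizer, the polynomial relations of the
residues of `x` are the multiples of `P`, and every element of `K^*` is `P(x)^ν A(x, w) / B(x, w)`
where the residues of `A(x, w)`, `B(x, w)` are not zero. -/
structure Chart {k : Subfield ℂ} {K : Type} [Field K] [Algebra k K] (pl : Place k K) (m : ℕ) where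
  x : Option (Fin (m + 1)) → pl.O
  P : MvPolynomial (Fin (m + 1)) k
  G : MvPolynomial (Option (Fin (m + 1))) k
  ind : AlgebraicIndependent k (fun i : Fin (m + 1) => (x (some i) : K))
  ker : ∀ f : MvPolynomial (Option (Fin (m + 1))) k, aeval (fun i => (x i : K)) f = 0 ↔ G ∣ f
  hGW : aeval (fun i => pl.ρ (x i)) (pderiv none G) ≠ 0
  kerP : ∀ f : MvPolynomial (Fin (m + 1)) k, aeval (fun i => pl.ρ (x (some i))) f = 0 ↔ P ∣ f
  unif : ∃ ε : pl.O, pl.ρ ε ≠ 0 ∧ aeval (fun i => (x (some i) : K)) P = pl.t * ε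
  hPY : aeval (fun i => pl.ρ (x (some i))) (pderiv (Fin.last m) P) ≠ 0
  rep : ∀ e : K, e ≠ 0 → ∃ (ν : ℤ) (A B : MvPolynomial (Option (Fin (m + 1))) k),
    aeval (fun i => pl.ρ (x i)) A ≠ 0 ∧ aeval (fun i => pl.ρ (x i)) B ≠ 0 ∧
      e * aeval (fun i => (x i : K)) B =
        aeval (fun i => (x (some i) : K)) P ^ ν * aeval (fun i => (x i : K)) A

/-- `x'` is a specialization of `x` over `k`. -/
def Spec (k : Subfield ℂ) {ι : Type*} {K : Type*} [Field K] [Algebra k K] (x : ι → K) (x' : ι → ℂ) :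
    Prop :=
  ∀ f : MvPolynomial ι k, aeval x f = 0 → aeval x' f = 0

/-- Integral change of the additive coordinates. -/
def linZ {n : ℕ} {R : Type*} [Ring R] (U : Matrix (Fin n) (Fin n) ℤ) (a : Fin n → R) : Fin n → R :=
  fun j => ∑ i, (U j i : R) * a i

/-- Integral change of the multiplicative coordinates. -/
def powZ {n : ℕ} {R : Type*} [Field R] (U : Matrix (Fin n) (Fin n) ℤ) (b : Fin n → R) : Fin n → R :=
  fun j => ∏ i, b i ^ U j i

/-- The first coordinates of the points `(a, b)` and the `b` of the form `b = exp(a) φ(q)`. -/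
def Sol (φ : AddChar ℚ ℂ) {n : ℕ} (a b : Fin n → ℂ) : Prop :=
  ∃ q : Fin n → ℚ, ∀ j, b j = Complex.exp (a j) * φ (q j)

/-- The conclusion of the analytic input. -/
def Concl (φ : AddChar ℚ ℂ) (k : Subfield ℂ) {n : ℕ} (a b : Fin n → ℂ) : Prop :=
  ∀ h : MvPolynomial (Fin n ⊕ Fin n) k, aeval (Sum.elim a b) h ≠ 0 →
    ∃ a' b' : Fin n → ℂ, Sol φ a' b' ∧ Spec k (Sum.elim a b) (Sum.elim a' b') ∧
      aeval (Sum.elim a' b') h ≠ 0

/-- The hypothesis of the analytic input. -/
def Hyp (k : Subfield ℂ) {n : ℕ} (a b : Fin n → ℂ) : Prop :=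
  (∀ j, b j ≠ 0) ∧ td (k : Set ℂ) (Sum.elim a b) = n ∧
    ∀ D ∈ DerOver (k : Set ℂ), (∀ j, D (b j) = b j * D (a j)) → ∀ j, D (a j) = 0

end Pool.Agent.EXI
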