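import Pool.Agent.EXI.CDefs

/-!
# EXI / CDv: differentials of polynomials

`dv f z c = ∑ c_i (∂f/∂z_i)(z)` is the differential of `f` at `z` in the direction `c`.

PROOFS.  `dv_mul`, `dv_add`: `pderiv` is a derivation. `der_aeval`: induction on `f`, `v` kills `k`.
`contDiffAt_aeval_cons`, `fderiv_aeval_cons`: induction on `f` (`MvPolynomial.induction_on`); the
coordinate functions of `y ↦ cons (W y) y` are `W` and the projections.
-/

set_option autoImplicit false

namespace Pool.Agent.EXI

open MvPolynomial Pool.Agent.EXL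

variable {k : Subfield ℂ}

/-- The differential of the polynomial `f` at the point `z` in the direction `c`. -/
noncomputable def dv {ι : Type} [Fintype ι] (f : MvPolynomial ι k) (z c : ι → ℂ) : ℂ :=
  ∑ i, c i * aeval z (pderiv i f)

theorem dv_add {ι : Type} [Fintype ι] (f g : MvPolynomial ι k) (z c : ι → ℂ) :
    dv (f + g) z c = dv f z c + dv g z c := by
  simp only [dv, map_add, mul_add, Finset.sum_add_distrib]

theorem dv_mul {ι : Type} [Fintype ι] (f g : MvPolynomial ι k) (z c : ι → ℂ) :
    dv (f * g) z c = aeval z f * dv g z c + aeval z g * dv f z c := by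
  simp only [dv, Finset.mul_sum, ← Finset.sum_add_distrib]
  refine Finset.sum_congr rfl fun i _ => ?_
  rw [Derivation.leibniz]
  simp only [smul_eq_mul, map_add, map_mul]
  ring

private theorem dv_C {ι : Type} [Fintype ι] (a : k) (z c : ι → ℂ) :
    dv (C a : MvPolynomial ι k) z c = 0 := by
  simp [dv]

private theorem dv_X {ι : Type} [Fintype ι] (i : ι) (z c : ι → ℂ) :
    dv (X i : MvPolynomial ι k) z c = c i := by
  classical
  simp only [dv, pderiv_X]
  rw [Finset.sum_eq_single i]
  · simp
  · intro j _ hj
    rw [Pi.single_eq_of_ne' hj]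
    simp
  · intro h
    exact absurd (Finset.mem_univ i) h

/-- Derivations of `ℂ` over `k` and differentials of polynomials. -/
theorem der_aeval {ι : Type} [Fintype ι] (v : Derivation ℤ ℂ ℂ) (hv : v ∈ DerOver (k : Set ℂ))
    (f : MvPolynomial ι k) (z : ι → ℂ) : v (aeval z f) = dv f z (fun i => v (z i)) := by
  induction f using MvPolynomial.induction_on with
  | C a =>
    rw [dv_C, aeval_C]
    exact hv a.1 a.2
  | add p q hp hq => rw [map_add, map_add, dv_add, hp, hq]
  | mul_X p i hp =>
    rw [map_mul, Derivation.leibniz, dv_mul, hp, aeval_X, dv_X]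
    simp only [smul_eq_mul]

theorem contDiffAt_aeval_cons {n : ℕ} (f : MvPolynomial (Option (Fin n)) k)
    (W : (Fin n → ℂ) → ℂ) (x : Fin n → ℂ) (hW : ContDiffAt ℂ 1 W x) :
    ContDiffAt ℂ 1 (fun y => aeval (cons (W y) y) f) x := by
  induction f using MvPolynomial.induction_on with
  | C a =>
    simp only [aeval_C]
    exact contDiffAt_const
  | add p q hp hq =>
    simp only [map_add]
    exact hp.add hq
  | mul_X p i hp =>
    simp only [map_mul, aeval_X]
    refine hp.mul ?_
    cases i with
    | none => exact hW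
    | some i => exact contDiffAt_apply ℂ ℂ i x

theorem fderiv_aeval_cons {n : ℕ} (f : MvPolynomial (Option (Fin n)) k)
    (W : (Fin n → ℂ) → ℂ) (x : Fin n → ℂ) (hW : DifferentiableAt ℂ W x) (c : Fin n → ℂ) :
    fderiv ℂ (fun y => aeval (cons (W y) y) f) x c =
      dv f (cons (W x) x) (cons (fderiv ℂ W x c) c) := by
  have key : DifferentiableAt ℂ (fun y => aeval (cons (W y) y) f) x ∧
      fderiv ℂ (fun y => aeval (cons (W y) y) f) x c =
        dv f (cons (W x) x) (cons (fderiv ℂ W x c) c) := by
    induction f using MvPolynomial.induction_on with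
    | C a =>
      simp only [aeval_C]
      refine ⟨differentiableAt_const _, ?_⟩
      rw [dv_C, fderiv_const_apply]
      rfl
    | add p q hp hq =>
      simp only [map_add]
      refine ⟨hp.1.add hq.1, ?_⟩
      rw [dv_add, fderiv_fun_add hp.1 hq.1, ← hp.2, ← hq.2]
      rfl
    | mul_X p i hp =>
      have hc : DifferentiableAt ℂ (fun y : Fin n → ℂ => cons (W y) y i) x ∧
          fderiv ℂ (fun y : Fin n → ℂ => cons (W y) y i) x c = cons (fderiv ℂ W x c) c i := by
        cases i with
        | none => exact ⟨hW, rfl⟩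
        | some i =>
          refine ⟨differentiableAt_apply i x, ?_⟩
          have h1 : fderiv ℂ (fun y : Fin n → ℂ => y i) x =
            (ContinuousLinearMap.proj i : (Fin n → ℂ) →L[ℂ] ℂ) :=
              (ContinuousLinearMap.proj i : (Fin n → ℂ) →L[ℂ] ℂ).fderiv
          exact congrArg (fun φ : (Fin n → ℂ) →L[ℂ] ℂ => φ c) h1
      simp only [map_mul, aeval_X]
      refine ⟨hp.1.mul hc.1, ?_⟩
      rw [dv_mul, aeval_X, dv_X, fderiv_fun_mul hp.1 hc.1, ← hp.2, ← hc.2]
      simp only [add_apply, _root_.smul_apply, smul_eq_mul]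
  exact key.2

end Pool.Agent.EXI
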