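import Pool.Agent.EXI.TFEmb
import Pool.Agent.EXI.TFTor
import Pool.Agent.EXI.TFSetup

/-!
# EXI / CEmb: Puiseux embedding at infinity

PROOF.  `k(a) → Ω((s))`, `a_i ↦ a_i s⁻¹` (`Ω = Om k a` is the algebraic closure of `k(a)` in `ℂ`; the
map is well defined because the `a_i s⁻¹` are algebraically independent over `k`: for a polynomial
`f ≠ 0` the sum of the coefficients of `f(a s⁻¹)` is `f(a) ≠ 0`). By `emb` (EXI/TFEmb) it extends to the
finite extension `k(a, b)` of `k(a)` after `s ↦ ζ^e`.
-/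

set_option autoImplicit false

namespace Pool.Agent.EXI

open MvPolynomial Pool.Agent.EXL

theorem mem_Om (k : Subfield ℂ) {n : ℕ} (a : Fin n → ℂ) (i : Fin n) : a i ∈ Om k a :=
  fun _ hD => hD _ (Or.inr ⟨i, rfl⟩)

private lemma eval_scale (k : Subfield ℂ) {n : ℕ} (a : Fin n → ℂ) (f : MvPolynomial (Fin n) k)
    (i : ℤ) :
    ((eval₂ (cst (le_Om k a)) (fun i : Fin n =>
      HahnSeries.single (-1 : ℤ) (⟨a i, mem_Om k a i⟩ : Om k a)) f).coeff i : ℂ) =
      ∑ s ∈ f.support, if i = -((∑ j, s j : ℕ) : ℤ) then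
        ((f.coeff s : k) : ℂ) * ∏ j, a j ^ (s j) else 0 := by
  classical
  rw [eval₂_eq']
  have h1 : ∀ s : Fin n →₀ ℕ, (cst (le_Om k a)) (f.coeff s) *
      ∏ j, (HahnSeries.single (-1 : ℤ) (⟨a j, mem_Om k a j⟩ : Om k a)) ^ (s j) =
      HahnSeries.single (-((∑ j, s j : ℕ) : ℤ))
        (Subfield.inclusion (le_Om k a) (f.coeff s) * ∏ j, (⟨a j, mem_Om k a j⟩ : Om k a) ^ (s j)) := by
    intro s
    have h2 : ∏ j, (HahnSeries.single (-1 : ℤ) (⟨a j, mem_Om k a j⟩ : Om k a)) ^ (s j) =
        HahnSeries.single (-((∑ j, s j : ℕ) : ℤ)) (∏ j, (⟨a j, mem_Om k a j⟩ : Om k a) ^ (s j)) := by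
      have : ∀ T : Finset (Fin n),
          ∏ j ∈ T, (HahnSeries.single (-1 : ℤ) (⟨a j, mem_Om k a j⟩ : Om k a)) ^ (s j) =
          HahnSeries.single (-((∑ j ∈ T, s j : ℕ) : ℤ))
            (∏ j ∈ T, (⟨a j, mem_Om k a j⟩ : Om k a) ^ (s j)) := by
        intro T
        induction T using Finset.induction_on with
        | empty => simp
        | insert j T hj ih =>
          rw [Finset.prod_insert hj, Finset.sum_insert hj, Finset.prod_insert hj, ih,
            HahnSeries.single_pow, HahnSeries.single_mul_single]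
          congr 1
          push_cast
          simp only [nsmul_eq_mul]
          congr 1
          ring
      exact this Finset.univ
    rw [h2]
    change HahnSeries.C _ * _ = _
    rw [HahnSeries.C_apply, HahnSeries.single_mul_single, zero_add]
  have h3 : ∀ T : Finset (Fin n →₀ ℕ), ((∑ s ∈ T, (cst (le_Om k a)) (f.coeff s) *
      ∏ j, (HahnSeries.single (-1 : ℤ) (⟨a j, mem_Om k a j⟩ : Om k a)) ^ (s j)).coeff i : ℂ) =
      ∑ s ∈ T, if i = -((∑ j, s j : ℕ) : ℤ) then
        ((f.coeff s : k) : ℂ) * ∏ j, a j ^ (s j) else 0 := by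
    intro T
    induction T using Finset.induction_on with
    | empty => simp
    | insert s T hs ih =>
      rw [Finset.sum_insert hs, Finset.sum_insert hs, HahnSeries.coeff_add, Subfield.coe_add, ih,
        h1]
      congr 1
      split_ifs with h
      · rw [h, HahnSeries.coeff_single_same]
        push_cast
        rfl
      · rw [HahnSeries.coeff_single_of_ne h]
        rfl
  exact h3 f.support

private lemma eval_scale_ne (k : Subfield ℂ) {n : ℕ} (a : Fin n → ℂ) (ha : AlgebraicIndependent k a)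
    (f : MvPolynomial (Fin n) k) (hf : f ≠ 0) :
    eval₂ (cst (le_Om k a)) (fun i : Fin n =>
      HahnSeries.single (-1 : ℤ) (⟨a i, mem_Om k a i⟩ : Om k a)) f ≠ 0 := by
  classical
  intro h0
  apply hf
  apply (algebraicIndependent_iff.1 ha) f
  have h1 := eval_scale k a f
  rw [h0] at h1
  rw [aeval_def, eval₂_eq']
  let I : Finset ℤ := f.support.image fun s => -((∑ j, s j : ℕ) : ℤ)
  have h2 : ∑ i ∈ I, (∑ s ∈ f.support, if i = -((∑ j, s j : ℕ) : ℤ) then
        ((f.coeff s : k) : ℂ) * ∏ j, a j ^ (s j) else 0) = 0 := by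
    refine Finset.sum_eq_zero fun i _ => ?_
    rw [← h1 i]
    simp
  rw [Finset.sum_comm] at h2
  rw [← h2]
  refine Finset.sum_congr rfl fun s hs => ?_
  rw [Finset.sum_ite_eq' I, if_pos (Finset.mem_image_of_mem _ hs)]
  rfl

/-- Puiseux embedding at infinity. -/
theorem emb_top (k : Subfield ℂ) {n : ℕ} (a b : Fin n → ℂ) (ha : AlgebraicIndependent k a)
    (halg : ∀ j, IsAlgebraic (Algebra.adjoin k (Set.range a)) (b j)) :
    ∃ (e : ℕ) (σ : Kb k (Sum.elim a b) →+* LaurentSeries (Om k a)), 1 ≤ e ∧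
      (∀ (c : ℂ) (hc : c ∈ k), σ ⟨c, mem_Kb_of_mem _ hc⟩ =
        HahnSeries.C (⟨c, le_Om k a hc⟩ : Om k a)) ∧
      ∀ i : Fin n, σ ⟨a i, mem_Kb k (Sum.elim a b) (Sum.inl i)⟩ =
        HahnSeries.single (-(e : ℤ)) (⟨a i, mem_Om k a i⟩ : Om k a) := by
  classical
  obtain ⟨κ, hκc, hκa⟩ := base_of_inj a ha (cst (le_Om k a)) _ (eval_scale_ne k a ha)
  let F : IntermediateField (IntermediateField.adjoin k (Set.range a)) ℂ :=
    IntermediateField.adjoin (IntermediateField.adjoin k (Set.range a)) (Set.range b)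
  have hfd : FiniteDimensional (IntermediateField.adjoin k (Set.range a)) F := by
    refine IntermediateField.finiteDimensional_adjoin ?_
    rintro x ⟨j, rfl⟩
    have h1 := halg j
    have hle := IntermediateField.algebra_adjoin_le_adjoin k (Set.range a)
    have h2 : IsAlgebraic (IntermediateField.adjoin k (Set.range a)) (b j) := by
      obtain ⟨p, hp0, hp⟩ := h1
      refine ⟨p.map (Subalgebra.inclusion hle).toRingHom,
        (Polynomial.map_ne_zero_iff (Subalgebra.inclusion_injective hle)).2 hp0, ?_⟩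
      rw [Polynomial.aeval_def, Polynomial.eval₂_map]
      exact hp
    exact h2.isIntegral
  have hac := isAlgClosed_Om k a
  obtain ⟨e, he, χ, hχc, hχ1, s, hs, hmin⟩ := emb (F := F) (Ω := Om k a) κ 0
  have hs0 : s ≠ 0 := by
    rintro rfl
    have hdeg := congrArg Polynomial.natDegree hmin
    rw [minpoly.zero, Polynomial.map_X, Polynomial.natDegree_X, Multiset.map_zero,
      Multiset.prod_zero, Polynomial.natDegree_one] at hdeg
    exact one_ne_zero hdeg
  obtain ⟨σ, hσs⟩ := Multiset.exists_mem_of_ne_zero hs0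
  have hσ := hs σ hσs
  have hle : ∀ x ∈ Kb k (Sum.elim a b), x ∈ F := by
    intro x hx
    have h1 : Kb k (Sum.elim a b) ≤ F.toSubfield := by
      rw [Subfield.closure_le]
      rintro y (hy | ⟨j | j, rfl⟩)
      · exact F.algebraMap_mem (algebraMap k (IntermediateField.adjoin k (Set.range a)) ⟨y, hy⟩)
      · exact F.algebraMap_mem ⟨a j, IntermediateField.subset_adjoin k _ ⟨j, rfl⟩⟩
      · exact IntermediateField.subset_adjoin _ _ ⟨j, rfl⟩
    exact h1 hx
  let incl : Kb k (Sum.elim a b) →+* F :=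
    (Kb k (Sum.elim a b)).subtype.codRestrict F (fun x => hle x x.2)
  refine ⟨e, σ.comp incl, he, ?_, ?_⟩
  · intro c hc
    have h1 := congrArg (fun g => g (algebraMap k (IntermediateField.adjoin k (Set.range a))
      ⟨c, hc⟩)) hσ
    simp only [RingHom.comp_apply] at h1
    rw [hκc] at h1
    change σ (algebraMap (IntermediateField.adjoin k (Set.range a)) F
      (algebraMap k (IntermediateField.adjoin k (Set.range a)) ⟨c, hc⟩)) = _
    rw [h1]
    exact hχc _
  · intro i
    have h1 := congrArg (fun g => g (⟨a i, IntermediateField.subset_adjoin k _ ⟨i, rfl⟩⟩ :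
      IntermediateField.adjoin k (Set.range a))) hσ
    simp only [RingHom.comp_apply] at h1
    rw [hκa] at h1
    change σ (algebraMap (IntermediateField.adjoin k (Set.range a)) F
      ⟨a i, IntermediateField.subset_adjoin k _ ⟨i, rfl⟩⟩) = _
    rw [h1]
    have h2 : (HahnSeries.single (-1 : ℤ) (⟨a i, mem_Om k a i⟩ : Om k a) :
        LaurentSeries (Om k a)) =
        HahnSeries.C (⟨a i, mem_Om k a i⟩ : Om k a) * (HahnSeries.single (1 : ℤ) 1)⁻¹ := by
      rw [HahnSeries.inv_single, HahnSeries.C_apply, HahnSeries.single_mul_single, zero_add,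
        inv_one, mul_one]
    rw [h2, map_mul, hχc, map_inv₀, hχ1, HahnSeries.inv_single, HahnSeries.C_apply,
      HahnSeries.single_mul_single, zero_add, inv_one, mul_one]

end Pool.Agent.EXI
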