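import Pool.Agent.EXI.CDefs

/-!
# EXI / CKer: the kernel of the evaluation at `(x, w)` is principal

PROOF.  `optionEquivLeft k (Fin n) : MvPolynomial (Option (Fin n)) k ≃ₐ Polynomial (MvPolynomial
(Fin n) k)`. Let `R = MvPolynomial (Fin n) k` (a UFD, so a normalized GCD domain / integrally closed)
and `F = FractionRing R`; since `x` is algebraically independent `R → K` is injective and extends to
`F → K`, so `K` is an `F`-algebra. `w` is algebraic over `R`, hence over `F`; let `Q ∈ R[W]` be a
primitive polynomial which is associated in `F[W]` to `minpoly F w`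
(`IsLocalization.integerNormalization` and `Polynomial.primPart`, `NormalizedGCDMonoid R` from
`UniqueFactorizationMonoid.toGCDMonoid`/`Classical.choice`). For `f ∈ R[W]`: `f(w) = 0` iff
`minpoly F w ∣ f` in `F[W]` iff `Q ∣ f` in `F[W]` iff `Q ∣ f` in `R[W]`
(`Polynomial.IsPrimitive.dvd_of_fraction_map_dvd_fraction_map` or
`Polynomial.IsPrimitive.Int...`; see `Mathlib/RingTheory/Polynomial/GaussLemma.lean`). `G` corresponds
to `Q`.
`∂G/∂w (x, w) ≠ 0`: `minpoly F w` is separable (characteristic zero), or: otherwise `G ∣ ∂G/∂w`,
which has smaller degree in `w`, so `∂G/∂w = 0`, so `G` has degree `0` in `w` and `G(x, w) = 0`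
contradicts the independence of `x` (`G ≠ 0` since `w` is algebraic).
-/

set_option autoImplicit false

namespace Pool.Agent.EXI

open MvPolynomial

private lemma cker_der {k : Type} [Field k] {σ : Type} (f : MvPolynomial (Option σ) k) :
    optionEquivLeft k σ (pderiv none f) = Polynomial.derivative (optionEquivLeft k σ f) := by
  induction f using MvPolynomial.induction_on with
  | C a =>
    rw [pderiv_C, map_zero, optionEquivLeft_C, Polynomial.derivative_C]
  | add p q hp hq =>
    rw [map_add, map_add, map_add, Polynomial.derivative_add, hp, hq]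
  | mul_X p i hp =>
    rw [pderiv_mul, map_add, map_mul, map_mul, map_mul, hp, Polynomial.derivative_mul]
    cases i with
    | none =>
      rw [pderiv_X_self, map_one, optionEquivLeft_X_none, Polynomial.derivative_X]
    | some j =>
      rw [pderiv_X_of_ne (by simp), map_zero, optionEquivLeft_X_some, Polynomial.derivative_C]

private lemma cker_gen {R K : Type} [CommRing R] [IsDomain R] [UniqueFactorizationMonoid R]
    [CharZero R] [Field K] [Algebra R K] (hinj : Function.Injective (algebraMap R K)) (w : K)
    (hw : IsAlgebraic R w) :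
    ∃ Q : Polynomial R, (∀ P : Polynomial R, Polynomial.aeval w P = 0 ↔ Q ∣ P) ∧
      Polynomial.aeval w (Polynomial.derivative Q) ≠ 0 := by
  classical
  have hfs : FaithfulSMul R K := (faithfulSMul_iff_algebraMap_injective R K).2 hinj
  let _ : Algebra (FractionRing R) K := FractionRing.liftAlgebra R K
  have : IsScalarTower R (FractionRing R) K := FractionRing.isScalarTower_liftAlgebra R K
  have : CharZero (FractionRing R) :=
    charZero_of_injective_algebraMap (IsFractionRing.injective R (FractionRing R))
  let _ : NormalizedGCDMonoid R := Classical.choice inferInstance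
  have hint : IsIntegral (FractionRing R) w :=
    isAlgebraic_iff_isIntegral.1 ((IsFractionRing.isAlgebraic_iff R (FractionRing R) K).1 hw)
  set M := minpoly (FractionRing R) w with hM
  set N := IsLocalization.integerNormalization (nonZeroDivisors R) M with hN
  have hM0 : M ≠ 0 := minpoly.ne_zero hint
  have hN0 : N ≠ 0 := by
    intro h
    exact hM0 ((IsLocalization.integerNormalization_eq_zero_iff le_rfl M).1 h)
  obtain ⟨b, hb, hbN⟩ := IsLocalization.integerNormalization_spec (nonZeroDivisors R) M
  rw [← hN] at hbN
  set Q := N.primPart with hQ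
  have hb0 : algebraMap R (FractionRing R) b ≠ 0 := by
    intro h
    exact (nonZeroDivisors.ne_zero hb) ((IsFractionRing.injective R (FractionRing R))
      (by rw [h, map_zero]))
  have hc0 : algebraMap R (FractionRing R) N.content ≠ 0 := by
    intro h
    have h1 : N.content = 0 := (IsFractionRing.injective R (FractionRing R))
      (by rw [h, map_zero])
    exact hN0 (Polynomial.content_eq_zero_iff.1 h1)
  have h1 : Polynomial.C (algebraMap R (FractionRing R) N.content) *
      Q.map (algebraMap R (FractionRing R)) =
      Polynomial.C (algebraMap R (FractionRing R) b) * M := by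
    have h2 := congrArg (Polynomial.map (algebraMap R (FractionRing R)))
      (Polynomial.eq_C_content_mul_primPart N)
    rw [Polynomial.map_mul, Polynomial.map_C, hbN, ← algebraMap_smul (FractionRing R) b M,
      Polynomial.smul_eq_C_mul] at h2
    exact h2.symm
  have h2 : Q.map (algebraMap R (FractionRing R)) =
      Polynomial.C (algebraMap R (FractionRing R) b / algebraMap R (FractionRing R) N.content) *
        M := by
    have h3 : Polynomial.C (algebraMap R (FractionRing R) N.content) ≠ 0 :=
      Polynomial.C_ne_zero.2 hc0
    apply mul_left_cancel₀ h3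
    rw [h1, ← mul_assoc, ← Polynomial.C_mul, mul_div_cancel₀ _ hc0]
  set u := algebraMap R (FractionRing R) b / algebraMap R (FractionRing R) N.content with hu
  have hu0 : u ≠ 0 := div_ne_zero hb0 hc0
  refine ⟨Q, fun P => ?_, ?_⟩
  · rw [(Polynomial.isPrimitive_primPart N).dvd_iff_fraction_map_dvd_fraction_map
      (FractionRing R) (q := P), ← hQ, h2,
      (Polynomial.isUnit_C.2 (isUnit_iff_ne_zero.2 hu0)).mul_left_dvd, hM, minpoly.dvd_iff,
      Polynomial.aeval_map_algebraMap]
  · have h3 : Polynomial.aeval w (Polynomial.derivative Q) =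
        algebraMap (FractionRing R) K u * Polynomial.aeval w (Polynomial.derivative M) := by
      rw [← Polynomial.aeval_map_algebraMap (FractionRing R) w, ← Polynomial.derivative_map, h2,
        Polynomial.derivative_C_mul, map_mul, Polynomial.aeval_C]
    rw [h3]
    refine mul_ne_zero ((map_ne_zero _).2 hu0) ?_
    exact (minpoly.irreducible hint).separable.aeval_derivative_ne_zero (minpoly.aeval _ _)

/-- The kernel of the evaluation at `(x, w)`, `x` algebraically independent and `w` algebraic over
`k(x)`, is generated by one polynomial. -/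
theorem exists_ker {k : Type} [Field k] [CharZero k] {K : Type} [Field K] [Algebra k K] {n : ℕ}
    (x : Fin n → K) (w : K) (hx : AlgebraicIndependent k x)
    (hw : IsAlgebraic (Algebra.adjoin k (Set.range x)) w) :
    ∃ G : MvPolynomial (Option (Fin n)) k, (∀ f, aeval (cons w x) f = 0 ↔ G ∣ f) ∧
      aeval (cons w x) (pderiv none G) ≠ 0 := by
  let _ : Algebra (MvPolynomial (Fin n) k) K := (aeval x : MvPolynomial (Fin n) k →ₐ[k] K).toAlgebra
  have hal : ∀ p : MvPolynomial (Fin n) k, algebraMap (MvPolynomial (Fin n) k) K p = aeval x p :=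
    fun _ => rfl
  have hinj : Function.Injective (algebraMap (MvPolynomial (Fin n) k) K) := hx
  have hst : IsScalarTower k (MvPolynomial (Fin n) k) K := IsScalarTower.of_algebraMap_eq
    fun c => by rw [hal, MvPolynomial.algebraMap_eq, aeval_C]
  have hw' : IsAlgebraic (MvPolynomial (Fin n) k) w := by
    refine IsAlgebraic.of_ringHom_of_comp_eq
      (hx.aevalEquiv.toAlgHom.toRingHom : MvPolynomial (Fin n) k →+* _) (RingHom.id K) (a := w) hw
      hx.aevalEquiv.surjective Function.injective_id ?_
    ext p
    · rfl
    · rfl
  obtain ⟨Q, hQ1, hQ2⟩ := cker_gen hinj w hw'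
  have key : ∀ f : MvPolynomial (Option (Fin n)) k,
      aeval (cons w x) f = Polynomial.aeval w (optionEquivLeft k (Fin n) f) := by
    intro f
    have h1 : (aeval (cons w x) : MvPolynomial (Option (Fin n)) k →ₐ[k] K) =
        ((Polynomial.aeval w : Polynomial (MvPolynomial (Fin n) k) →ₐ[MvPolynomial (Fin n) k]
          K).restrictScalars k).comp (optionEquivLeft k (Fin n)).toAlgHom := by
      apply MvPolynomial.algHom_ext
      intro i
      rw [aeval_X]
      cases i with
      | none =>
        show w = Polynomial.aeval w (optionEquivLeft k (Fin n) (X none))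
        rw [optionEquivLeft_X_none, Polynomial.aeval_X]
      | some j =>
        show x j = Polynomial.aeval w (optionEquivLeft k (Fin n) (X (some j)))
        rw [optionEquivLeft_X_some, Polynomial.aeval_C, hal, aeval_X]
    rw [h1]
    rfl
  refine ⟨(optionEquivLeft k (Fin n)).symm Q, fun f => ?_, ?_⟩
  · rw [key, hQ1]
    constructor
    · rintro ⟨g, hg⟩
      refine ⟨(optionEquivLeft k (Fin n)).symm g, ?_⟩
      rw [← map_mul, ← hg, AlgEquiv.symm_apply_apply]
    · rintro ⟨g, hg⟩
      refine ⟨optionEquivLeft k (Fin n) g, ?_⟩
      rw [hg, map_mul, AlgEquiv.apply_symm_apply]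
  · rw [key, cker_der, AlgEquiv.apply_symm_apply]
    exact hQ2

end Pool.Agent.EXI
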