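import Pool.Agent.EXI.CDefs

/-!
# EXI / CSpec: extension of specializations

PROOF.  Let `A = k[p] ⊆ ℂ` and `B = A[y, 1/s] ⊆ ℂ` with `s = S(p, y) ≠ 0`. The finitely many
generators `y_i`, `1/s` of `B` are algebraic over `A` (`1/s` since `s` is), so there is `c ∈ A`,
`c ≠ 0`, such that they are integral over `A[1/c]` (`exists_integral_multiple` for each of them,
multiply; or: take for each generator a nonzero polynomial over `A` which kills it, `c` the product of
the leading coefficients). Take `h` with `aeval p h = c`. If `Spec k p p'` and `h(p') ≠ 0`, the map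
`k[p] → ℂ`, `f(p) ↦ f(p')` is well defined and extends to a ring homomorphism `A[1/c] → ℂ`; by
lying over (`B[1/c]` is integral over `A[1/c]`) and since `ℂ` is algebraically closed it extends to
`B[1/c] → ℂ`: the kernel `𝔭` of `A[1/c] → ℂ` has a prime `𝔮` above it
(`Ideal.exists_ideal_over_prime_of_isIntegral`), `B[1/c]/𝔮` is integral over `A[1/c]/𝔭 ⊆ ℂ`, use
`IsAlgClosed.lift` for the fraction fields. (There may be a ready lemma: extension of ring
homomorphisms to algebraically closed fields along integral extensions, or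
`Algebra.IsIntegral` + `IsAlgClosed`.) Let `y'_i` be the images of the `y_i`; `S(p', y')` is the image
of the unit `s`, so it is not `0`.
Alternative for one element at a time (induction on the number of the `y_i`, `S` in the last step).
-/

set_option autoImplicit false

namespace Pool.Agent.EXI

open MvPolynomial

private theorem cs_key {k : Subfield ℂ} {ι : Type} {p p' : ι → ℂ} (h : Spec k p p')
    {f g : MvPolynomial ι k} (hfg : aeval p f = aeval p g) : aeval p' f = aeval p' g := by
  have := h (f - g) (by rw [map_sub, hfg, sub_self])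
  rwa [map_sub, sub_eq_zero] at this

private theorem cs_ex (k : Subfield ℂ) {ι : Type} (p : ι → ℂ)
    (a : Algebra.adjoin k (Set.range p)) : ∃ f : MvPolynomial ι k, aeval p f = (a : ℂ) := by
  obtain ⟨a, ha⟩ := a
  rw [Algebra.adjoin_range_eq_range_aeval] at ha
  exact ha

private theorem cs_mem (k : Subfield ℂ) {ι : Type} (p : ι → ℂ) (f : MvPolynomial ι k) :
    aeval p f ∈ Algebra.adjoin k (Set.range p) := by
  rw [Algebra.adjoin_range_eq_range_aeval]
  exact ⟨f, rfl⟩

/-- the homomorphism of a specialization -/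
private theorem cs_hom {k : Subfield ℂ} {ι : Type} {p p' : ι → ℂ} (h : Spec k p p') :
    ∃ φ : Algebra.adjoin k (Set.range p) →+* ℂ,
      ∀ f : MvPolynomial ι k, φ ⟨aeval p f, cs_mem k p f⟩ = aeval p' f := by
  choose g hg using cs_ex k p
  refine ⟨{ toFun := fun a => aeval p' (g a), map_one' := ?_, map_mul' := ?_, map_zero' := ?_,
            map_add' := ?_ }, ?_⟩
  · have h1 : aeval p (g 1) = aeval p (1 : MvPolynomial ι k) := by
      rw [hg, map_one]
      rfl
    rw [cs_key h h1, map_one]
  · intro a b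
    have h1 : aeval p (g (a * b)) = aeval p (g a * g b) := by
      rw [hg, map_mul, hg, hg]
      rfl
    show aeval p' (g (a * b)) = aeval p' (g a) * aeval p' (g b)
    rw [cs_key h h1, map_mul]
  · have h1 : aeval p (g 0) = aeval p (0 : MvPolynomial ι k) := by
      rw [hg, map_zero]
      rfl
    show aeval p' (g 0) = 0
    rw [cs_key h h1, map_zero]
  · intro a b
    have h1 : aeval p (g (a + b)) = aeval p (g a + g b) := by
      rw [hg, map_add, hg, hg]
      rfl
    show aeval p' (g (a + b)) = aeval p' (g a) + aeval p' (g b)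
    rw [cs_key h h1, map_add]
  · intro f
    exact cs_key h (hg _)

/-- pseudo division -/
private theorem cs_pseudo {A : Type*} [CommRing A] [IsDomain A] (M : Polynomial A) (hM : M ≠ 0) :
    ∀ (n : ℕ) (f : Polynomial A), f.natDegree < n → ∃ (N : ℕ) (q r : Polynomial A),
      Polynomial.C (M.leadingCoeff ^ N) * f = M * q + r ∧ r.degree < M.degree := by
  intro n
  induction n with
  | zero => intro f hf; omega
  | succ n ih =>
    intro f hf
    by_cases hd : f.degree < M.degree
    · exact ⟨0, 0, f, by simp, hd⟩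
    · have hd' : M.degree ≤ f.degree := not_lt.1 hd
      have hf0 : f ≠ 0 := by
        rintro rfl
        rw [Polynomial.degree_zero, le_bot_iff, Polynomial.degree_eq_bot] at hd'
        exact hM hd'
      have hnd : M.natDegree ≤ f.natDegree := Polynomial.natDegree_le_natDegree hd'
      have hlM : M.leadingCoeff ≠ 0 := Polynomial.leadingCoeff_ne_zero.2 hM
      have hlf : f.leadingCoeff ≠ 0 := Polynomial.leadingCoeff_ne_zero.2 hf0
      set s : Polynomial A := Polynomial.C f.leadingCoeff *
        Polynomial.X ^ (f.natDegree - M.natDegree) with hs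
      have hs0 : s ≠ 0 := mul_ne_zero (Polynomial.C_ne_zero.2 hlf)
        (pow_ne_zero _ Polynomial.X_ne_zero)
      have h1 : (Polynomial.C M.leadingCoeff * f - s * M).degree <
          (Polynomial.C M.leadingCoeff * f).degree := by
        refine Polynomial.degree_sub_lt ?_ (mul_ne_zero (Polynomial.C_ne_zero.2 hlM) hf0) ?_
        · rw [Polynomial.degree_C_mul hlM, Polynomial.degree_mul, hs, Polynomial.degree_C_mul hlf,
            Polynomial.degree_X_pow, Polynomial.degree_eq_natDegree hf0,
            Polynomial.degree_eq_natDegree hM, ← Nat.cast_add, Nat.sub_add_cancel hnd]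
        · rw [Polynomial.leadingCoeff_mul, Polynomial.leadingCoeff_mul, hs,
            Polynomial.leadingCoeff_mul, Polynomial.leadingCoeff_C, Polynomial.leadingCoeff_C,
            Polynomial.leadingCoeff_X_pow, mul_one, mul_comm]
      rw [Polynomial.degree_C_mul hlM] at h1
      set g : Polynomial A := Polynomial.C M.leadingCoeff * f - s * M with hg
      by_cases hg0 : g = 0
      · refine ⟨1, s, 0, ?_, ?_⟩
        · rw [hg0] at hg
          rw [pow_one, add_zero]
          linear_combination (-1 : Polynomial A) * hg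
        · rw [Polynomial.degree_zero]
          exact bot_lt_iff_ne_bot.2 fun h => hM (Polynomial.degree_eq_bot.1 h)
      · have h2 := Polynomial.natDegree_lt_natDegree hg0 h1
        obtain ⟨N, q, r, h3, h4⟩ := ih g (by omega)
        refine ⟨N + 1, q + Polynomial.C (M.leadingCoeff ^ N) * s, r, ?_, h4⟩
        rw [pow_succ, Polynomial.C_mul]
        rw [hg] at h3
        linear_combination h3

/-- polynomials in one more variable -/
private theorem cs_lift {k : Subfield ℂ} {ι : Type} {p p' : ι → ℂ} (y y' : ℂ)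
    {φ : Algebra.adjoin k (Set.range p) →+* ℂ}
    (hφ : ∀ f : MvPolynomial ι k, φ ⟨aeval p f, cs_mem k p f⟩ = aeval p' f)
    (F : MvPolynomial (Option ι) k) :
    ∃ f : Polynomial (Algebra.adjoin k (Set.range p)),
      Polynomial.aeval y f = aeval (fun o : Option ι => o.elim y p) F ∧
      f.eval₂ φ y' = aeval (fun o : Option ι => o.elim y' p') F := by
  induction F using MvPolynomial.induction_on with
  | C a =>
    refine ⟨Polynomial.C ⟨aeval p (C a), cs_mem k p _⟩, ?_, ?_⟩
    · have e : aeval (fun o : Option ι => o.elim y p) (C a : MvPolynomial (Option ι) k) =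
          aeval p (C a : MvPolynomial ι k) := by rw [aeval_C, aeval_C]
      rw [Polynomial.aeval_C]
      exact e.symm
    · rw [Polynomial.eval₂_C, hφ, aeval_C, aeval_C]
  | add F G hF hG =>
    obtain ⟨f, h1, h2⟩ := hF
    obtain ⟨g, h3, h4⟩ := hG
    exact ⟨f + g, by rw [map_add, map_add, h1, h3], by rw [Polynomial.eval₂_add, map_add, h2, h4]⟩
  | mul_X F o hF =>
    obtain ⟨f, h1, h2⟩ := hF
    rcases o with _ | i
    · refine ⟨f * Polynomial.X, ?_, ?_⟩
      · rw [map_mul, map_mul, h1, Polynomial.aeval_X, aeval_X]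
        rfl
      · rw [Polynomial.eval₂_mul, map_mul, h2, Polynomial.eval₂_X, aeval_X]
        rfl
    · refine ⟨f * Polynomial.C ⟨aeval p (X i), cs_mem k p _⟩, ?_, ?_⟩
      · have e : aeval (fun o : Option ι => o.elim y p) (X (some i) : MvPolynomial (Option ι) k) =
            aeval p (X i : MvPolynomial ι k) := by
          rw [aeval_X, aeval_X]
          rfl
        rw [map_mul, map_mul, h1, Polynomial.aeval_C]
        congr 1
        exact e.symm
      · rw [Polynomial.eval₂_mul, map_mul, h2, Polynomial.eval₂_C, hφ, aeval_X, aeval_X]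
        rfl

/-- one element -/
private theorem cs_one (k : Subfield ℂ) {ι : Type} (p : ι → ℂ) (y : ℂ)
    (hy : IsAlgebraic (Algebra.adjoin k (Set.range p)) y) :
    ∃ h : MvPolynomial ι k, aeval p h ≠ 0 ∧ ∀ p' : ι → ℂ, Spec k p p' → aeval p' h ≠ 0 →
      ∃ y' : ℂ, Spec k (fun o : Option ι => o.elim y p) (fun o : Option ι => o.elim y' p') := by
  classical
  have hex : ∃ d : ℕ, ∃ M : Polynomial (Algebra.adjoin k (Set.range p)), M ≠ 0 ∧
      Polynomial.aeval y M = 0 ∧ M.natDegree = d := by
    obtain ⟨q, h1, h2⟩ := hy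
    exact ⟨_, q, h1, h2, rfl⟩
  obtain ⟨M, hM0, hMy, hMd⟩ := Nat.find_spec hex
  have hmin : ∀ r : Polynomial (Algebra.adjoin k (Set.range p)), r.degree < M.degree →
      Polynomial.aeval y r = 0 → r = 0 := by
    intro r hr hry
    by_contra hr0
    have h1 := Polynomial.natDegree_lt_natDegree hr0 hr
    rw [hMd] at h1
    exact Nat.find_min hex h1 ⟨r, hr0, hry, rfl⟩
  obtain ⟨h, hh⟩ := cs_ex k p M.leadingCoeff
  have hlM : M.leadingCoeff ≠ 0 := Polynomial.leadingCoeff_ne_zero.2 hM0
  refine ⟨h, ?_, fun p' hS hp' => ?_⟩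
  · rw [hh]
    intro h0
    exact hlM (Subtype.ext h0)
  obtain ⟨φ, hφ⟩ := cs_hom hS
  have hl : φ M.leadingCoeff ≠ 0 := by
    have h1 := hφ h
    have e : (⟨aeval p h, cs_mem k p h⟩ : Algebra.adjoin k (Set.range p)) = M.leadingCoeff :=
      Subtype.ext hh
    rw [e] at h1
    rw [h1]
    exact hp'
  have hdeg : (M.map φ).degree = M.degree :=
    Polynomial.degree_map_eq_of_leadingCoeff_ne_zero φ hl
  have hd0 : M.degree ≠ 0 := by
    intro h0
    rw [Polynomial.eq_C_of_degree_eq_zero h0, Polynomial.aeval_C] at hMy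
    have h1 : M.coeff 0 = 0 := Subtype.ext hMy
    apply hM0
    rw [Polynomial.eq_C_of_degree_eq_zero h0, h1, Polynomial.C_0]
  obtain ⟨y', hy'⟩ := IsAlgClosed.exists_root (M.map φ) (by rw [hdeg]; exact hd0)
  have hy2 : M.eval₂ φ y' = 0 := by
    rw [Polynomial.IsRoot, Polynomial.eval_map] at hy'
    exact hy'
  refine ⟨y', fun F hF => ?_⟩
  obtain ⟨f, hf1, hf2⟩ := cs_lift y y' hφ F
  rw [← hf1] at hF
  rw [← hf2]
  obtain ⟨N, q, r, hqr, hr⟩ := cs_pseudo M hM0 _ f (Nat.lt_succ_self _)
  have hr0 : r = 0 := by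
    refine hmin r hr ?_
    have h1 := congrArg (Polynomial.aeval y) hqr
    rw [map_mul, hF, mul_zero, map_add, map_mul, hMy, zero_mul, zero_add] at h1
    exact h1.symm
  have h2 := congrArg (Polynomial.eval₂ φ y') hqr
  rw [hr0, add_zero, Polynomial.eval₂_mul, Polynomial.eval₂_mul, hy2, zero_mul,
    Polynomial.eval₂_C, map_pow] at h2
  rcases mul_eq_zero.1 h2 with h3 | h3
  · exact absurd h3 (pow_ne_zero _ hl)
  · exact h3

/-- nonvanishing -/
private theorem cs_nv (k : Subfield ℂ) {ι κ : Type} (p : ι → ℂ) (y : κ → ℂ)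
    (hy : ∀ i, IsAlgebraic (Algebra.adjoin k (Set.range p)) (y i))
    (S : MvPolynomial (ι ⊕ κ) k) (hS : aeval (Sum.elim p y) S ≠ 0) :
    ∃ h : MvPolynomial ι k, aeval p h ≠ 0 ∧ ∀ (p' : ι → ℂ) (y' : κ → ℂ),
      Spec k (Sum.elim p y) (Sum.elim p' y') → aeval p' h ≠ 0 →
      aeval (Sum.elim p' y') S ≠ 0 := by
  have hs : ∀ F : MvPolynomial (ι ⊕ κ) k,
      IsAlgebraic (Algebra.adjoin k (Set.range p)) (aeval (Sum.elim p y) F) := by
    intro F
    induction F using MvPolynomial.induction_on with
    | C a =>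
      rw [aeval_C]
      exact isAlgebraic_algebraMap (R := Algebra.adjoin k (Set.range p)) (A := ℂ)
        ⟨algebraMap k ℂ a, Subalgebra.algebraMap_mem _ _⟩
    | add F G hF hG =>
      rw [map_add]
      exact hF.add hG
    | mul_X F o hF =>
      rw [map_mul, aeval_X]
      refine hF.mul ?_
      rcases o with i | i
      · exact isAlgebraic_algebraMap (R := Algebra.adjoin k (Set.range p)) (A := ℂ)
          ⟨p i, Algebra.subset_adjoin ⟨i, rfl⟩⟩
      · exact hy i
  obtain ⟨q, hq0, hq⟩ := (hs S).exists_nonzero_coeff_and_aeval_eq_zero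
    (mem_nonZeroDivisors_of_ne_zero hS)
  choose Q hQ using fun i => cs_ex k p (q.coeff i)
  refine ⟨Q 0, ?_, fun p' y' hsp hp' hS' => ?_⟩
  · rw [hQ]
    intro h0
    exact hq0 (Subtype.ext h0)
  have hR : aeval (Sum.elim p y) (∑ i ∈ Finset.range (q.natDegree + 1),
      rename Sum.inl (Q i) * S ^ i) = 0 := by
    rw [map_sum]
    rw [Polynomial.aeval_eq_sum_range] at hq
    refine Eq.trans (Finset.sum_congr rfl fun i _ => ?_) hq
    rw [map_mul, map_pow, aeval_rename, Sum.elim_comp_inl, hQ]
    rfl
  have hR' := hsp _ hR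
  rw [map_sum, Finset.sum_eq_single 0] at hR'
  · rw [map_mul, map_pow, aeval_rename, Sum.elim_comp_inl, pow_zero, mul_one] at hR'
    exact hp' hR'
  · intro i _ hi
    rw [map_mul, map_pow, hS', zero_pow hi, mul_zero]
  · intro h
    exact absurd (Finset.mem_range.2 (Nat.succ_pos _)) h

/-- all elements, without prescribed nonvanishing -/
private theorem cs_all (k : Subfield ℂ) {ι : Type} (p : ι → ℂ) (κ : Type) [Finite κ] :
    ∀ y : κ → ℂ, (∀ i, IsAlgebraic (Algebra.adjoin k (Set.range p)) (y i)) →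
    ∃ h : MvPolynomial ι k, aeval p h ≠ 0 ∧ ∀ p' : ι → ℂ, Spec k p p' → aeval p' h ≠ 0 →
      ∃ y' : κ → ℂ, Spec k (Sum.elim p y) (Sum.elim p' y') := by
  refine Finite.induction_empty_option (P := fun κ : Type =>
    ∀ y : κ → ℂ, (∀ i, IsAlgebraic (Algebra.adjoin k (Set.range p)) (y i)) →
    ∃ h : MvPolynomial ι k, aeval p h ≠ 0 ∧ ∀ p' : ι → ℂ, Spec k p p' → aeval p' h ≠ 0 →
      ∃ y' : κ → ℂ, Spec k (Sum.elim p y) (Sum.elim p' y')) ?_ ?_ ?_ κ
  · intro α β e hα y hy
    obtain ⟨h, h1, h2⟩ := hα (y ∘ e) fun i => hy (e i)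
    refine ⟨h, h1, fun p' hp hp' => ?_⟩
    obtain ⟨y', hy'⟩ := h2 p' hp hp'
    refine ⟨y' ∘ e.symm, fun F hF => ?_⟩
    have e1 : ∀ (a : ι → ℂ) (b : α → ℂ), aeval (Sum.elim a b) (rename (Sum.map id e.symm) F) =
        aeval (Sum.elim a (b ∘ e.symm)) F := by
      intro a b
      rw [aeval_rename, Sum.elim_comp_map, Function.comp_id]
    have h3 := hy' (rename (Sum.map id e.symm) F) (by
      rw [e1]
      have : (y ∘ e) ∘ e.symm = y := by
        funext i
        simp
      rw [this]
      exact hF)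
    rw [e1] at h3
    exact h3
  · intro y _
    refine ⟨1, by rw [map_one]; exact one_ne_zero, fun p' hp _ => ⟨PEmpty.elim, fun F hF => ?_⟩⟩
    have e1 : ∀ (a : ι → ℂ) (b : PEmpty → ℂ), aeval (Sum.elim a b) F =
        aeval a (rename (Sum.elim id PEmpty.elim) F) := by
      intro a b
      rw [aeval_rename]
      congr 2
      funext o
      rcases o with i | i
      · rfl
      · exact i.elim
    rw [e1] at hF ⊢
    exact hp _ hF
  · intro α _ hα y hy
    obtain ⟨h0, h01, h02⟩ := hα (fun i => y (some i)) fun i => hy (some i)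
    have hle : Algebra.adjoin k (Set.range p) ≤
        Algebra.adjoin k (Set.range (Sum.elim p (fun i => y (some i)))) := by
      apply Algebra.adjoin_mono
      rintro _ ⟨i, rfl⟩
      exact ⟨Sum.inl i, rfl⟩
    obtain ⟨h1, h11, h12⟩ := cs_one k (Sum.elim p (fun i => y (some i))) (y none)
      ((hy none).tower_top_of_subalgebra_le hle)
    obtain ⟨h2, h21, h22⟩ := cs_nv k p (fun i => y (some i)) (fun i => hy (some i)) h1 h11
    refine ⟨h0 * h2, by rw [map_mul]; exact mul_ne_zero h01 h21, fun p' hp hp' => ?_⟩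
    rw [map_mul] at hp'
    obtain ⟨y1, hy1⟩ := h02 p' hp (left_ne_zero_of_mul hp')
    have h3 := h22 p' y1 hy1 (right_ne_zero_of_mul hp')
    obtain ⟨y0, hy0⟩ := h12 _ hy1 h3
    refine ⟨fun o => o.elim y0 y1, fun F hF => ?_⟩
    set e : ι ⊕ Option α → Option (ι ⊕ α) := fun s => match s with
      | Sum.inl i => some (Sum.inl i)
      | Sum.inr none => none
      | Sum.inr (some j) => some (Sum.inr j) with he
    have e1 : ∀ (a : ι → ℂ) (b : α → ℂ) (c : ℂ),
        aeval (fun o : Option (ι ⊕ α) => o.elim c (Sum.elim a b)) (rename e F) =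
        aeval (Sum.elim a (fun o : Option α => o.elim c b)) F := by
      intro a b c
      rw [aeval_rename]
      congr 2
      funext s
      rcases s with i | (_ | j)
      · rfl
      · rfl
      · rfl
    have h4 := hy0 (rename e F) (by
      rw [e1]
      have : (fun o : Option α => o.elim (y none) (fun i => y (some i))) = y := by
        funext o
        rcases o with _ | i
        · rfl
        · rfl
      rw [this]
      exact hF)
    rw [e1] at h4
    exact h4

/-- Specializations of `p` extend to specializations of elements which are algebraic over `k(p)`,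
outside a hypersurface, and one may prescribe that a nonzero element does not vanish. -/
theorem exists_spec (k : Subfield ℂ) {ι κ : Type} [Fintype ι] [Fintype κ] (p : ι → ℂ) (y : κ → ℂ)
    (hy : ∀ i, IsAlgebraic (Algebra.adjoin k (Set.range p)) (y i))
    (S : MvPolynomial (ι ⊕ κ) k) (hS : aeval (Sum.elim p y) S ≠ 0) :
    ∃ h : MvPolynomial ι k, aeval p h ≠ 0 ∧ ∀ p' : ι → ℂ, Spec k p p' → aeval p' h ≠ 0 →
      ∃ y' : κ → ℂ, Spec k (Sum.elim p y) (Sum.elim p' y') ∧ aeval (Sum.elim p' y') S ≠ 0 := by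
  obtain ⟨h1, h11, h12⟩ := cs_all k p κ y hy
  obtain ⟨h2, h21, h22⟩ := cs_nv k p y hy S hS
  refine ⟨h1 * h2, by rw [map_mul]; exact mul_ne_zero h11 h21, fun p' hp hp' => ?_⟩
  rw [map_mul] at hp'
  obtain ⟨y', hy'⟩ := h12 p' hp (left_ne_zero_of_mul hp')
  exact ⟨y', hy', h22 p' y' hy' (right_ne_zero_of_mul hp')⟩

end Pool.Agent.EXI
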