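import Pool.Agent.EXI.CDefs

/-!
# EXI / CTopDefs: the data of a place at infinity

`(a, b)` is isomorphic over `k` to the tuple `(u z^{-e}, β)` of elements of the field `K` which has a
place such that the residues of `u` are the `a_i` and `z` is a uniformizer.
-/

set_option autoImplicit false

namespace Pool.Agent.EXI

open MvPolynomial Pool.Agent.EXL

/-- The data of a place at infinity. -/
structure TopData (k : Subfield ℂ) {n : ℕ} (a b : Fin n → ℂ) (K : Type) [Field K]
    [Algebra k K] where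
  pl : Place k K
  e : ℕ
  he : 1 ≤ e
  u : Fin n → pl.O
  z : pl.O
  β : Fin n → K
  fg : ∃ S : Finset K, IntermediateField.adjoin k (S : Set K) = ⊤
  tr : ∀ y : Fin (n + 2) → K, ¬ AlgebraicIndependent k y
  ρu : ∀ i, pl.ρ (u i) = a i
  hz : ∃ ε : pl.O, pl.ρ ε ≠ 0 ∧ (z : K) = pl.t * ε
  iso : ∀ f : MvPolynomial (Fin n ⊕ Fin n) k, aeval (Sum.elim a b) f = 0 ↔
    aeval (Sum.elim (fun i => (u i : K) * ((z : K)⁻¹) ^ e) β) f = 0

end Pool.Agent.EXI
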