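import Pool.Agent.EXI.CTopDefs
import Pool.Agent.EXI.CPlace
import Pool.Agent.EXI.CEmb

/-!
# EXI / CTopPl: the place at infinity

PROOF.  Let `Ω = Om k a`, `σ, e` from `emb_top`, `ζ = HahnSeries.single 1 1 ∈ F = LaurentSeries Ω`. Let
`T = C '' k ∪ {C (a i)} ∪ {ζ} ∪ {σ (b j)} ⊆ F` and `K = Subfield.closure T` (a subfield of `F`, as a type
in `Type`), `Algebra k K` by the ring homomorphism `c ↦ C c` (`RingHom.toAlgebra`). `exists_place` for
the inclusion `K → F` and `x₀ = ζ` (order `1`) gives `pl`; `u i = C (a i)`, `z = ζ`: in `O`, `ρ (u i) = a i`.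
`ζ = pl.t^m ε` (`pl.fac`), `ρ ε ≠ 0`, so the order of `ζ` is `m` times the order of `pl.t`
(`ε` and `ε⁻¹` are in `O`, so the order of `ε` is `0`) and `m ≥ 1` as `ρ ζ = 0` (`ζ⁻¹ ∉ O`), so
`m = 1`: `hz`. `β j = σ (b j)`.
`fg`: `K` is generated by the finitely many `C (a i), ζ, σ (b j)` over `k`.
`tr`: every element of `K` is algebraic over the field generated by the `n + 1` elements `C (a i), ζ`:
`σ (b j)` is algebraic over `k[σ a] = k[C (a i) ζ^{-e}]` (apply `σ` to an algebraic equation of `b j`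
over `k[a]`). So the transcendence degree is `≤ n + 1`
(`Algebra.trdeg`, `AlgebraicIndependent.cardinalMk_le_trdeg`/`IsTranscendenceBasis`, exchange lemma:
`AlgebraicIndependent` families have cardinality at most that of an algebraically generating family).
`iso`: `σ (a i) = C (a i) ζ^{-e} = u i z^{-e}` and `σ (b j) = β j`; `σ` restricted to `k[a, b]` is injective
and `aeval (σ a, σ b) f = σ (aeval (a, b) f)`; the evaluation in `K` and in `F` agree.
-/

set_option autoImplicit false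
set_option linter.unusedVariables false

namespace Pool.Agent.EXI

open MvPolynomial Pool.Agent.EXL

private theorem ctp_order0 {Ω : Type*} [Field Ω] (x : LaurentSeries Ω)
    (h : ∀ i : ℤ, i < 0 → x.coeff i = 0) (h0 : x.coeff 0 ≠ 0) : x.order = 0 := by
  have hx : x ≠ 0 := by
    rintro rfl
    exact h0 rfl
  apply le_antisymm (HahnSeries.order_le_of_coeff_ne_zero h0)
  by_contra hlt
  push Not at hlt
  exact hx (HahnSeries.coeff_order_eq_zero.1 (h _ hlt))

private theorem ctp_order1 {Ω : Type*} [Field Ω] (x : LaurentSeries Ω) (hx : x ≠ 0)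
    (h : ∀ i : ℤ, i < 0 → x.coeff i = 0) (h0 : x.coeff 0 = 0) : 1 ≤ x.order := by
  by_contra hlt
  push Not at hlt
  have h1 : x.order < 0 ∨ x.order = 0 := by omega
  rcases h1 with h1 | h1
  · exact hx (HahnSeries.coeff_order_eq_zero.1 (h _ h1))
  · rw [← h1] at h0
    exact hx (HahnSeries.coeff_order_eq_zero.1 h0)

/-- transcendence degree -/
private theorem ctp_tr {k K : Type} [Field k] [Field K] [Algebra k K] {n : ℕ}
    (s : Option (Fin n) → K) (halg : ∀ x : K, IsAlgebraic (Algebra.adjoin k (Set.range s)) x)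
    (y : Fin (n + 2) → K) : ¬ AlgebraicIndependent k y := by
  intro hy
  have : Algebra.IsAlgebraic (Algebra.adjoin k (Set.range s)) K := ⟨halg⟩
  have h1 := hy.cardinalMk_le_trdeg
  have h2 := Algebra.IsAlgebraic.trdeg_le_cardinalMk k (Set.range s)
  have h3 : Cardinal.mk (Set.range s) ≤ Cardinal.mk (Option (Fin n)) := Cardinal.mk_range_le
  have h4 := (h1.trans h2).trans h3
  rw [Cardinal.mk_fin, Cardinal.mk_fintype, Fintype.card_option, Fintype.card_fin] at h4
  have h5 : n + 2 ≤ n + 1 := by exact_mod_cast h4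
  omega

/-- finitely generated -/
private theorem ctp_fg {k F : Type} [Field k] [Field F] [Algebra k F] (T : Set F)
    (hT : T.Finite) : ∃ S : Finset (IntermediateField.adjoin k T),
      IntermediateField.adjoin k (S : Set (IntermediateField.adjoin k T)) = ⊤ := by
  have h1 : (Subtype.val ⁻¹' T : Set (IntermediateField.adjoin k T)).Finite :=
    hT.preimage Subtype.val_injective.injOn
  refine ⟨h1.toFinset, ?_⟩
  rw [Set.Finite.coe_toFinset]
  rw [eq_top_iff]
  rintro ⟨x, hx⟩ -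
  induction hx using IntermediateField.adjoin_induction with
  | mem x hx => exact IntermediateField.subset_adjoin _ _ hx
  | algebraMap x => exact IntermediateField.algebraMap_mem _ x
  | add x y hx hy h h' => exact add_mem h h'
  | inv x hx h => exact inv_mem h
  | mul x y hx hy h h' => exact mul_mem h h'

/-- algebraic elements -/
private theorem ctp_alg {k : Subfield ℂ} {n : ℕ} (a : Fin n → ℂ) {E : Subfield ℂ}
    {K : Type} [Field K] [Algebra k K] (hkE : ∀ c ∈ k, c ∈ E) (haE : ∀ i, a i ∈ E)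
    (σ : E →+* K) (hσ : ∀ c : k, σ ⟨c, hkE c c.2⟩ = algebraMap k K c) (s : Set K)
    (hs : ∀ i, σ ⟨a i, haE i⟩ ∈ s) (b : ℂ) (hbE : b ∈ E)
    (hb : IsAlgebraic (Algebra.adjoin k (Set.range a)) b) :
    IsAlgebraic (Algebra.adjoin k s) (σ ⟨b, hbE⟩) := by
  have hAE : ∀ x ∈ Algebra.adjoin k (Set.range a), x ∈ E := by
    intro x hx
    induction hx using Algebra.adjoin_induction with
    | mem x hx => obtain ⟨i, rfl⟩ := hx; exact haE i
    | algebraMap c => exact hkE _ c.2
    | add x y _ _ h h' => exact add_mem h h'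
    | mul x y _ _ h h' => exact mul_mem h h'
  set A := Algebra.adjoin k (Set.range a) with hA
  let incl : A →+* E := (A.val : A →+* ℂ).codRestrict E (fun x => hAE x.1 x.2)
  have hR : ∀ x : A, (σ.comp incl) x ∈ Algebra.adjoin k s := by
    rintro ⟨x, hx⟩
    induction hx using Algebra.adjoin_induction with
    | mem x hx => obtain ⟨i, rfl⟩ := hx; exact Algebra.subset_adjoin (hs i)
    | algebraMap c =>
      have h1 : (σ.comp incl) ⟨algebraMap k ℂ c, Subalgebra.algebraMap_mem _ c⟩ =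
        algebraMap k K c := hσ c
      rw [h1]
      exact Subalgebra.algebraMap_mem _ c
    | add x y hx hy h h' =>
      have h1 : (σ.comp incl) ⟨x + y, add_mem hx hy⟩ =
        (σ.comp incl) ⟨x, hx⟩ + (σ.comp incl) ⟨y, hy⟩ := by
        rw [← map_add]; rfl
      rw [h1]
      exact add_mem h h'
    | mul x y hx hy h h' =>
      have h1 : (σ.comp incl) ⟨x * y, mul_mem hx hy⟩ =
        (σ.comp incl) ⟨x, hx⟩ * (σ.comp incl) ⟨y, hy⟩ := by
        rw [← map_mul]; rfl
      rw [h1]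
      exact mul_mem h h'
  let τ : A →+* Algebra.adjoin k s := (σ.comp incl).codRestrict _ hR
  have hinj : Function.Injective incl := by
    intro x y hxy
    exact Subtype.ext (congrArg (fun z : E => (z : ℂ)) hxy)
  have hτ : Function.Injective τ := by
    intro x y hxy
    apply hinj
    apply σ.injective
    exact congrArg (fun z : Algebra.adjoin k s => (z : K)) hxy
  obtain ⟨p, hp0, hp⟩ := hb
  refine ⟨p.map τ, fun h0 => hp0 ?_, ?_⟩
  · exact (Polynomial.map_eq_zero_iff hτ).1 h0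
  · rw [Polynomial.aeval_def, Polynomial.eval₂_map]
    have h1 : (algebraMap (Algebra.adjoin k s) K).comp τ = σ.comp incl := rfl
    rw [h1, ← Polynomial.hom_eval₂]
    have h2 : Polynomial.eval₂ incl (⟨b, hbE⟩ : E) p = 0 := by
      apply Subtype.ext
      show E.subtype (Polynomial.eval₂ incl (⟨b, hbE⟩ : E) p) = 0
      rw [Polynomial.hom_eval₂]
      exact hp
    rw [h2, map_zero]

/-- `ζ` is a uniformizer -/
private theorem ctp_hz {k Ω : Subfield ℂ} {K : Type} [Field K] [Algebra k K] (pl : Place k K)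
    (σ : K →+* LaurentSeries Ω)
    (hO : ∀ x : K, x ∈ pl.O ↔ ∀ i : ℤ, i < 0 → (σ x).coeff i = 0)
    (hρ : ∀ x : pl.O, pl.ρ x = ((σ x).coeff 0 : Ω)) (z : K)
    (hz : σ z = HahnSeries.single (1 : ℤ) (1 : Ω)) :
    ∃ ε : pl.O, pl.ρ ε ≠ 0 ∧ z = pl.t * ε := by
  have hoz : (σ z).order = 1 := by
    rw [hz]
    exact HahnSeries.order_single one_ne_zero
  have hσz0 : σ z ≠ 0 := by
    intro h
    rw [h, HahnSeries.order_zero] at hoz
    exact absurd hoz (by norm_num)
  have hz0 : z ≠ 0 := by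
    rintro rfl
    exact hσz0 (map_zero σ)
  have hσt0 : σ pl.t ≠ 0 := fun h => pl.t_ne (σ.injective (by rw [h, map_zero]))
  have hot : 1 ≤ (σ pl.t).order := by
    refine ctp_order1 _ hσt0 ((hO _).1 pl.t_mem) ?_
    have h1 := hρ ⟨pl.t, pl.t_mem⟩
    rw [pl.ρt] at h1
    exact Subtype.ext h1.symm
  obtain ⟨m, ε, hε, he⟩ := pl.fac z hz0
  have hε0 : (σ ε).coeff 0 ≠ 0 := by
    intro h
    apply hε
    rw [hρ, h]
    rfl
  have hoε : (σ ε).order = 0 := ctp_order0 _ ((hO _).1 ε.2) hε0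
  have hσε0 : σ ε ≠ 0 := by
    intro h
    rw [h] at hε0
    exact hε0 rfl
  rcases Int.eq_nat_or_neg m with ⟨p, rfl | rfl⟩
  · rw [zpow_natCast] at he
    have h1 := congrArg (fun x => (σ x).order) he
    simp only [map_mul, map_pow] at h1
    rw [hoz, HahnSeries.order_mul (pow_ne_zero _ hσt0) hσε0, HahnSeries.order_pow, hoε,
      add_zero, nsmul_eq_mul] at h1
    have hp : p = 1 := by
      have hp0 : p ≠ 0 := by
        rintro rfl
        rw [Nat.cast_zero, zero_mul] at h1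
        exact absurd h1 (by norm_num)
      by_contra hp1
      have h2 : (2 : ℤ) ≤ p := by omega
      have h3 : (2 : ℤ) * 1 ≤ p * (σ pl.t).order :=
        mul_le_mul h2 hot (by norm_num) (by omega)
      omega
    rw [hp, pow_one] at he
    exact ⟨ε, hε, he⟩
  · exfalso
    have ht := pl.t_ne
    have h0 : z * pl.t ^ p = ε := by
      rw [he, zpow_neg, zpow_natCast]
      field_simp
    have h1 := congrArg (fun x => (σ x).order) h0
    simp only [map_mul, map_pow] at h1
    rw [HahnSeries.order_mul hσz0 (pow_ne_zero _ hσt0), hoz, HahnSeries.order_pow, hoε,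
      nsmul_eq_mul] at h1
    have h3 : (0 : ℤ) ≤ p * (σ pl.t).order := mul_nonneg (by omega) (by omega)
    omega

/-- The construction of the data, for an embedding `σ` of `E = k(a, b)`. -/
private theorem ctp_data (k Ω E : Subfield ℂ) (hΩ : k ≤ Ω) {n : ℕ} (a b : Fin n → ℂ)
    (hkE : ∀ c ∈ k, c ∈ E) (haE : ∀ i, a i ∈ E) (hbE : ∀ i, b i ∈ E) (haΩ : ∀ i, a i ∈ Ω)
    (hE : E = Subfield.closure ((k : Set ℂ) ∪ Set.range (Sum.elim a b)))
    (σ : E →+* LaurentSeries Ω) (e : ℕ) (he : 1 ≤ e)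
    (hσc : ∀ c : k, σ ⟨c, hkE c c.2⟩ = HahnSeries.C (⟨c, hΩ c.2⟩ : Ω))
    (hσa : ∀ i, σ ⟨a i, haE i⟩ = HahnSeries.single (-(e : ℤ)) (⟨a i, haΩ i⟩ : Ω))
    (halg : ∀ j, IsAlgebraic (Algebra.adjoin k (Set.range a)) (b j)) :
    ∃ (K : Type) (_ : Field K) (_ : Algebra k K), Nonempty (TopData k a b K) := by
  let : Algebra k (LaurentSeries Ω) :=
    ((HahnSeries.C : Ω →+* HahnSeries ℤ Ω).comp (Subfield.inclusion hΩ)).toAlgebra
  have halgmap : ∀ c : k, algebraMap k (LaurentSeries Ω) c =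
      HahnSeries.C (⟨c, hΩ c.2⟩ : Ω) := fun c => rfl
  obtain ⟨ζ, hζ⟩ : ∃ ζ : LaurentSeries Ω, ζ = HahnSeries.single (1 : ℤ) (1 : Ω) := ⟨_, rfl⟩
  obtain ⟨ca, hca⟩ : ∃ ca : Fin n → LaurentSeries Ω,
    ∀ i, ca i = HahnSeries.single (0 : ℤ) (⟨a i, haΩ i⟩ : Ω) := ⟨_, fun _ => rfl⟩
  obtain ⟨cb, hcb⟩ : ∃ cb : Fin n → LaurentSeries Ω, ∀ j, cb j = σ ⟨b j, hbE j⟩ :=
    ⟨_, fun _ => rfl⟩
  obtain ⟨T, hT⟩ : ∃ T : Set (LaurentSeries Ω), T = Set.range ca ∪ {ζ} ∪ Set.range cb := ⟨_, rfl⟩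
  have hTf : T.Finite := by
    rw [hT]
    exact ((Set.finite_range ca).union (Set.finite_singleton ζ)).union (Set.finite_range cb)
  have hζ0 : ζ ≠ 0 := by
    rw [hζ]
    exact HahnSeries.single_ne_zero one_ne_zero
  have hζinv : ∀ m : ℕ, (ζ⁻¹) ^ m = HahnSeries.single (-(m : ℤ)) (1 : Ω) := by
    intro m
    rw [inv_pow]
    apply inv_eq_of_mul_eq_one_right
    rw [hζ, HahnSeries.single_pow, HahnSeries.single_mul_single]
    simp
  have hσa' : ∀ i, σ ⟨a i, haE i⟩ = ca i * (ζ⁻¹) ^ e := by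
    intro i
    rw [hσa, hζinv, hca, HahnSeries.single_mul_single, zero_add, mul_one]
  obtain ⟨K, hK⟩ : ∃ K : IntermediateField k (LaurentSeries Ω),
    K = IntermediateField.adjoin k T := ⟨_, rfl⟩
  have hTK : ∀ x ∈ T, x ∈ K := by
    intro x hx
    rw [hK]
    exact IntermediateField.subset_adjoin k T hx
  have hcaK : ∀ i, ca i ∈ K := fun i => hTK _ (by rw [hT]; exact Or.inl (Or.inl ⟨i, rfl⟩))
  have hζK : ζ ∈ K := hTK _ (by rw [hT]; exact Or.inl (Or.inr rfl))
  have hcbK : ∀ i, cb i ∈ K := fun i => hTK _ (by rw [hT]; exact Or.inr ⟨i, rfl⟩)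
  have hσK' : ∀ x (_ : x ∈ Subfield.closure ((k : Set ℂ) ∪ Set.range (Sum.elim a b)))
      (hx : x ∈ E), σ ⟨x, hx⟩ ∈ K := by
    intro x hx
    induction hx using Subfield.closure_induction with
    | mem x hx =>
      intro hxE
      rcases hx with hx | ⟨i | i, rfl⟩
      · have h1 : σ ⟨x, hxE⟩ = algebraMap k (LaurentSeries Ω) ⟨x, hx⟩ := hσc ⟨x, hx⟩
        rw [h1]
        exact K.algebraMap_mem _
      · have h1 : σ ⟨Sum.elim a b (Sum.inl i), hxE⟩ = ca i * (ζ⁻¹) ^ e := hσa' i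
        rw [h1]
        exact mul_mem (hcaK i) (pow_mem (inv_mem hζK) e)
      · have h1 : σ ⟨Sum.elim a b (Sum.inr i), hxE⟩ = cb i := (hcb i).symm
        rw [h1]
        exact hcbK i
    | one =>
      intro hxE
      have h1 : σ ⟨1, hxE⟩ = 1 := map_one σ
      rw [h1]
      exact one_mem K
    | add x y hx hy h h' =>
      intro hxE
      have h1 := add_mem (h (hE ▸ hx)) (h' (hE ▸ hy))
      rw [← map_add] at h1
      exact h1
    | neg x hx h =>
      intro hxE
      have h1 := neg_mem (h (hE ▸ hx))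
      rw [← map_neg] at h1
      exact h1
    | inv x hx h =>
      intro hxE
      have h1 := inv_mem (h (hE ▸ hx))
      rw [← map_inv₀] at h1
      exact h1
    | mul x y hx hy h h' =>
      intro hxE
      have h1 := mul_mem (h (hE ▸ hx)) (h' (hE ▸ hy))
      rw [← map_mul] at h1
      exact h1
  have hσK : ∀ x : E, σ x ∈ K := fun x => hσK' x.1 (hE ▸ x.2) x.2
  obtain ⟨τ, hτ⟩ : ∃ τ : E →+* K, ∀ x, ((τ x : K) : LaurentSeries Ω) = σ x :=
    ⟨σ.codRestrict K hσK, fun _ => rfl⟩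
  have hτk : ∀ c : k, τ ⟨c, hkE c c.2⟩ = algebraMap k K c := by
    intro c
    apply Subtype.ext
    rw [hτ, hσc]
    rfl
  obtain ⟨zK, hzK⟩ : ∃ z : K, (z : LaurentSeries Ω) = ζ := ⟨⟨ζ, hζK⟩, rfl⟩
  obtain ⟨uK, huK⟩ : ∃ u : Fin n → K, ∀ i, (u i : LaurentSeries Ω) = ca i :=
    ⟨fun i => ⟨ca i, hcaK i⟩, fun _ => rfl⟩
  have hzK0 : zK ≠ 0 := by
    intro h
    apply hζ0
    rw [← hzK, h]
    rfl
  have hτa : ∀ i, τ ⟨a i, haE i⟩ = uK i * (zK⁻¹) ^ e := by
    intro i
    apply Subtype.ext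
    rw [hτ, hσa', ← huK, ← hzK]
    rfl
  obtain ⟨pl, hO, hρ⟩ := exists_place k Ω hΩ (algebraMap K (LaurentSeries Ω))
    (fun c => rfl) zK (by
      have h1 : (algebraMap K (LaurentSeries Ω)) zK = ζ := hzK
      rw [h1, hζ, HahnSeries.order_single one_ne_zero]
      norm_num)
  have huO : ∀ i, uK i ∈ pl.O := by
    intro i
    rw [hO]
    intro j hj
    have h1 : (algebraMap K (LaurentSeries Ω)) (uK i) = ca i := huK i
    rw [h1, hca]
    exact HahnSeries.coeff_single_of_ne (by omega)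
  have hzO : zK ∈ pl.O := by
    rw [hO]
    intro j hj
    have h1 : (algebraMap K (LaurentSeries Ω)) zK = ζ := hzK
    rw [h1, hζ]
    exact HahnSeries.coeff_single_of_ne (by omega)
  -- algebraicity
  obtain ⟨s, hsn', hsa'⟩ : ∃ s : Option (Fin n) → K, s none = zK ∧
      ∀ i, s (some i) = τ ⟨a i, haE i⟩ :=
    ⟨fun i => i.elim zK fun i => τ ⟨a i, haE i⟩, rfl, fun _ => rfl⟩
  have hsn : zK ∈ Algebra.adjoin k (Set.range s) := Algebra.subset_adjoin ⟨none, hsn'⟩
  have hsa : ∀ i, τ ⟨a i, haE i⟩ ∈ Algebra.adjoin k (Set.range s) := fun i =>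
    Algebra.subset_adjoin ⟨some i, hsa' i⟩
  have hKalg' : ∀ x ∈ IntermediateField.adjoin k T, ∀ y : K, (y : LaurentSeries Ω) = x →
      IsAlgebraic (Algebra.adjoin k (Set.range s)) y := by
    intro x hx
    induction hx using IntermediateField.adjoin_induction with
    | mem x hx =>
      rw [hT] at hx
      intro y hy
      rcases hx with (⟨i, rfl⟩ | rfl) | ⟨j, rfl⟩
      · have h1 : y = τ ⟨a i, haE i⟩ * zK ^ e := by
          rw [hτa, mul_assoc, ← mul_pow, inv_mul_cancel₀ hzK0, one_pow, mul_one]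
          apply Subtype.ext
          rw [hy, huK]
        have h2 : y ∈ Algebra.adjoin k (Set.range s) := by
          rw [h1]
          exact mul_mem (hsa i) (pow_mem hsn e)
        exact isAlgebraic_algebraMap (⟨_, h2⟩ : Algebra.adjoin k (Set.range s))
      · have h2 : y ∈ Algebra.adjoin k (Set.range s) := by
          have h1 : y = zK := Subtype.ext (by rw [hy, hzK])
          rw [h1]
          exact hsn
        exact isAlgebraic_algebraMap (⟨_, h2⟩ : Algebra.adjoin k (Set.range s))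
      · have h1 : y = τ ⟨b j, hbE j⟩ := Subtype.ext (by rw [hy, hτ, hcb])
        rw [h1]
        exact ctp_alg a hkE haE τ hτk (Set.range s) (fun i => ⟨some i, hsa' i⟩) (b j) (hbE j)
          (halg j)
    | algebraMap x =>
      intro y hy
      have h1 : y = algebraMap k K x := Subtype.ext (by rw [hy]; rfl)
      rw [h1]
      exact isAlgebraic_algebraMap (algebraMap k (Algebra.adjoin k (Set.range s)) x)
    | add x y hx hy h h' =>
      intro z hz
      rw [← hK] at hx hy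
      have h1 : z = ⟨x, hx⟩ + ⟨y, hy⟩ := Subtype.ext hz
      rw [h1]
      exact (h ⟨x, hx⟩ rfl).add (h' ⟨y, hy⟩ rfl)
    | inv x hx h =>
      intro z hz
      rw [← hK] at hx
      have h1 : z = (⟨x, hx⟩ : K)⁻¹ := Subtype.ext hz
      rw [h1]
      exact (h ⟨x, hx⟩ rfl).inv
    | mul x y hx hy h h' =>
      intro z hz
      rw [← hK] at hx hy
      have h1 : z = ⟨x, hx⟩ * ⟨y, hy⟩ := Subtype.ext hz
      rw [h1]
      exact (h ⟨x, hx⟩ rfl).mul (h' ⟨y, hy⟩ rfl)
  have hKalg : ∀ x : K, IsAlgebraic (Algebra.adjoin k (Set.range s)) x :=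
    fun x => hKalg' x.1 (hK ▸ x.2) x rfl
  have hfg : ∃ S : Finset K, IntermediateField.adjoin k (S : Set K) = ⊤ := by
    rw [hK]
    exact ctp_fg T hTf
  refine ⟨K, inferInstance, inferInstance, ⟨?_⟩⟩
  refine { pl := pl, e := e, he := he, u := fun i => ⟨uK i, huO i⟩
           z := ⟨zK, hzO⟩, β := fun j => τ ⟨b j, hbE j⟩, fg := hfg
           tr := ctp_tr s hKalg, ρu := ?_, hz := ?_, iso := ?_ }
  · intro i
    rw [hρ]
    have h1 : (algebraMap K (LaurentSeries Ω)) (uK i) = ca i := huK i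
    rw [h1, hca, HahnSeries.coeff_single_same]
  · exact ctp_hz pl (algebraMap K (LaurentSeries Ω)) hO hρ zK (hzK.trans hζ)
  · intro f
    obtain ⟨y, hy⟩ : ∃ y : Fin n ⊕ Fin n → E, ∀ i, (y i : ℂ) = Sum.elim a b i :=
      ⟨fun i => ⟨Sum.elim a b i, by rcases i with i | i; exacts [haE i, hbE i]⟩, fun _ => rfl⟩
    have h1 : (Sum.elim (fun i => uK i * (zK⁻¹) ^ e) (fun j => τ ⟨b j, hbE j⟩)) =
        fun i => τ (y i) := by
      funext i
      rcases i with i | j
      · rw [Sum.elim_inl, ← hτa]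
        exact congrArg τ (Subtype.ext (hy (Sum.inl i)).symm)
      · exact congrArg τ (Subtype.ext (hy (Sum.inr j)).symm)
    have h5 : (fun i => E.subtype (y i)) = Sum.elim a b := funext hy
    show _ ↔ aeval (Sum.elim (fun i => uK i * (zK⁻¹) ^ e) (fun j => τ ⟨b j, hbE j⟩)) f = 0
    rw [h1]
    let ι : k →+* E := Subfield.inclusion hkE
    have h2 : aeval (fun i => τ (y i)) f = τ (eval₂ ι y f) := by
      rw [hom_eval₂, aeval_def]
      have h3 : τ.comp ι = algebraMap k K := RingHom.ext hτk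
      rw [h3]
    have h4 : aeval (Sum.elim a b) f = E.subtype (eval₂ ι y f) := by
      rw [hom_eval₂, aeval_def, ← h5]
      rfl
    rw [h2, h4, map_eq_zero, map_eq_zero]

/-- There is a place at infinity. -/
theorem top_place (k : Subfield ℂ) {n : ℕ} (a b : Fin n → ℂ) (ha : AlgebraicIndependent k a)
    (hb : ∀ j, b j ≠ 0) (halg : ∀ j, IsAlgebraic (Algebra.adjoin k (Set.range a)) (b j)) :
    ∃ (K : Type) (_ : Field K) (_ : Algebra k K), Nonempty (TopData k a b K) := by
  obtain ⟨e, σ, he, hσc, hσa⟩ := emb_top k a b ha halg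
  exact ctp_data k (Om k a) (Kb k (Sum.elim a b)) (le_Om k a) a b
    (fun c hc => mem_Kb_of_mem _ hc) (fun i => mem_Kb k (Sum.elim a b) (Sum.inl i))
    (fun i => mem_Kb k (Sum.elim a b) (Sum.inr i)) (mem_Om k a) rfl σ e he
    (fun c => hσc c c.2) hσa halg

end Pool.Agent.EXI
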