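import Pool.Agent.EXI.TFMain

/-!
# EXI / ThmT: the degeneration theorem

See `/team-store/exl_inputI.md`, Part B.
-/

set_option autoImplicit false

namespace Pool.Agent.EXL

/-- THEOREM T. Let `K` be an algebraically closed subfield of `ℂ`, `b ∈ (ℂ^*)^ι` of transcendence
degree `y ≥ 1` over `K` and `P` a subspace of `ℂ^ι`, defined over `K`, complementary to the space
`lev b (DerOver K)` of logarithmic derivatives. Then there is a degeneration of `b` with coefficient
field of transcendence degree `y - 1` such that `P` is complementary to the space spanned by the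
logarithmic derivatives of the leading coefficients and the vector of the orders. -/
theorem thmT (K : Subfield ℂ) (hK : IsAlgClosed K) {ι : Type} [Fintype ι] (b : ι → ℂ)
    (hb : ∀ j, b j ≠ 0) (r : ℕ) (hr : td (K : Set ℂ) b = r + 1) (P : Submodule ℂ (ι → ℂ))
    (hP : Stab (DerOver (K : Set ℂ)) P)
    (hc : IsCompl P ((DerOver (K : Set ℂ)).map (lev b))) :
    ∃ (τ : Fin r → ℂ) (d : Degen K b (le_Om K τ)), td (K : Set ℂ) τ = r ∧
      IsCompl P ((DerOver (K : Set ℂ)).map (lev fun j => ((d.u j : Om K τ) : ℂ)) ⊔
        Submodule.span ℂ {fun j => (d.m j : ℂ)}) :=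
  thmT' K hK b hb r hr P hP hc

end Pool.Agent.EXL
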