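import Pool.Agent.EXI.CPlace
import Pool.Agent.EXI.ThmT
import Pool.Agent.EXI.AComp
import Pool.Agent.EXI.AGd
import Pool.Agent.EXI.AGe
import Pool.Agent.EXI.AUni
import Pool.Agent.EXI.ABr

/-!
# EXI / DivG: the divisorial place (Part A and Theorem T)

See `/team-store/exl_inputI.md`, Part A.
-/

set_option autoImplicit false

namespace Pool.Agent.EXI

open MvPolynomial Pool.Agent.EXL

/-- Elements of the valuation ring of the place given by an embedding in Laurent series whose image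
is a constant. -/
private lemma coeff_C {Ω : Subfield ℂ} (c : Ω) (i : ℤ) (hi : i < 0) :
    (HahnSeries.C c : LaurentSeries Ω).coeff i = 0 := by
  rw [HahnSeries.C_apply, HahnSeries.coeff_single_of_ne hi.ne]

/-- If the transcendence degree of `a` is smaller than `m + 1` there are an integral change of
coordinates and a place of `k(a, b)` such that the residues satisfy the same hypotheses in dimension
`m`. -/
theorem divG (k : Subfield ℂ) (hk : (k : Set ℂ).Countable) (hk' : IsAlgClosed k) {m : ℕ}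
    (a b : Fin (m + 1) → ℂ) (h : Hyp k a b) (hlt : td (k : Set ℂ) a < m + 1) :
    ∃ U : Matrix (Fin (m + 1)) (Fin (m + 1)) ℤ, IsUnit U.det ∧
      ∃ (pl : Place k (IntermediateField.adjoin k (Set.range (Sum.elim a b))))
        (A B : Fin (m + 1) → pl.O),
        (∀ j, ((A j : IntermediateField.adjoin k (Set.range (Sum.elim a b))) : ℂ) =
          linZ U a j) ∧
        (∀ j, ((B j : IntermediateField.adjoin k (Set.range (Sum.elim a b))) : ℂ) =
          powZ U b j) ∧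
        pl.ρ (B 0) = 0 ∧ (∀ j : Fin m, pl.ρ (B j.succ) ≠ 0) ∧
        Hyp k (fun j => pl.ρ (A j.succ)) (fun j => pl.ρ (B j.succ)) := by
  have hA : HypA k a b := ⟨h.1, by rw [h.2.1, Fintype.card_fin], h.2.2⟩
  obtain ⟨U₀, P, hi, hBB, -, hPU, hStab, hcompl⟩ := exists_P k a b hA (by
    rw [Fintype.card_fin]
    exact hlt)
  have hBBtd : Module.finrank ℂ (BB k a b U₀) = td (KU k a b U₀ : Set ℂ) b :=
    finrank_lev h.1 _
  obtain ⟨r, hr⟩ : ∃ r, td (KU k a b U₀ : Set ℂ) b = r + 1 :=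
    ⟨td (KU k a b U₀ : Set ℂ) b - 1, by omega⟩
  obtain ⟨τ, d, hτ, hc⟩ := thmT (KU k a b U₀) (consts_isAlgClosed _) b h.1 r hr P hStab hcompl
  have g := good_data k a b h.1 U₀ P hPU hcompl r hr τ d hτ hc
  set Ω : Subfield ℂ := Om (KU k a b U₀) τ with hΩdef
  set ub : Fin (m + 1) → ℂ := fun j => ((d.u j : Ω) : ℂ) with hub
  have hm : d.m ≠ 0 := good_ne k a b U₀ ub d.m g
  obtain ⟨U, hdet, hpos, horth⟩ := exists_unimodular d.m hm
  have htd := good_td k a b hA U₀ ub d.m g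
  rw [Fintype.card_fin] at htd
  obtain ⟨ε, hs⟩ := good_surj k a b hA U₀ hi ub d.m g
  have hyp := hyp_residue k a ub g.ub_ne d.m ε hs (by omega) U hdet horth
  -- the embedding
  set K := IntermediateField.adjoin k (Set.range (Sum.elim a b)) with hK
  have haK : ∀ j, a j ∈ K := fun j => IntermediateField.subset_adjoin _ _ ⟨Sum.inl j, rfl⟩
  have hbK : ∀ j, b j ∈ K := fun j => IntermediateField.subset_adjoin _ _ ⟨Sum.inr j, rfl⟩
  have hle : ∀ x ∈ K, x ∈ Kb (KU k a b U₀) b := by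
    intro x hx
    have h1 : K.toSubfield ≤ Kb (KU k a b U₀) b := by
      rw [hK, IntermediateField.adjoin_toSubfield, Subfield.closure_le]
      rintro y (⟨c, rfl⟩ | ⟨j | j, rfl⟩)
      · exact mem_Kb_of_mem b (le_KU k a b U₀ c.2)
      · exact mem_Kb_of_mem b (a_mem_KU k a b U₀ j)
      · exact mem_Kb _ b j
    exact h1 hx
  let incl : K →+* Kb (KU k a b U₀) b :=
    (K.val : K →+* ℂ).codRestrict (Kb (KU k a b U₀) b) (fun x => hle x x.2)
  let σ' : K →+* LaurentSeries Ω := d.σ.comp incl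
  have hkΩ : k ≤ Ω := (le_KU k a b U₀).trans (le_Om _ τ)
  have hσc : ∀ (x : K) (hx : (x : ℂ) ∈ KU k a b U₀), σ' x = HahnSeries.C (⟨(x : ℂ), le_Om _ τ hx⟩ : Ω) := by
    intro x hx
    exact d.σ_const (x : ℂ) hx
  have hσ : ∀ c : k, σ' (algebraMap k K c) = HahnSeries.C (⟨c, hkΩ c.2⟩ : Ω) := by
    intro c
    exact hσc (algebraMap k K c) (le_KU k a b U₀ c.2)
  have hBmem : ∀ u : Fin (m + 1) → ℤ, mon b u ∈ K := fun u =>
    prod_mem fun j _ => zpow_mem (hbK j) (u j)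
  have hAmem : ∀ j, linZ U a j ∈ K := fun j =>
    sum_mem fun i _ => mul_mem (intCast_mem K _) (haK i)
  have hAKU : ∀ j, linZ U a j ∈ KU k a b U₀ := fun j =>
    sum_mem fun i _ => mul_mem (intCast_mem _ _) (a_mem_KU k a b U₀ i)
  have hlead := fun u : Fin (m + 1) → ℤ => lead_mon b (le_Om (KU k a b U₀) τ) d u
  have hσB : ∀ u : Fin (m + 1) → ℤ, σ' ⟨mon b u, hBmem u⟩ = d.σ ⟨mon b u, mon_mem_Kb _ b u⟩ :=
    fun u => rfl
  have hord : (σ' ⟨mon b (U 0), hBmem (U 0)⟩).order ≠ 0 := by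
    intro h0
    have h1 : σ' ⟨mon b (U 0), hBmem (U 0)⟩ ≠ 0 := by
      rw [map_ne_zero]
      intro h2
      exact mon_ne_zero h.1 (U 0) (congrArg Subtype.val h2)
    have h2 := HahnSeries.coeff_order_eq_zero.not.2 h1
    rw [h0, hσB] at h2
    exact h2 ((hlead (U 0)).1 0 hpos)
  obtain ⟨pl, hO, hρ⟩ := exists_place k Ω hkΩ σ' hσ ⟨mon b (U 0), hBmem (U 0)⟩ hord
  have hAO : ∀ j, (⟨linZ U a j, hAmem j⟩ : K) ∈ pl.O := by
    intro j
    rw [hO]
    intro i hi
    rw [hσc ⟨linZ U a j, hAmem j⟩ (hAKU j)]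
    exact coeff_C _ i hi
  have hBO : ∀ j, (⟨mon b (U j), hBmem (U j)⟩ : K) ∈ pl.O := by
    intro j
    rw [hO]
    intro i hi
    rw [hσB]
    apply (hlead (U j)).1
    refine Fin.cases ?_ (fun j => ?_) j
    · exact hi.trans hpos
    · rw [horth j]
      exact hi
  have hρA : ∀ j, pl.ρ ⟨⟨linZ U a j, hAmem j⟩, hAO j⟩ = linZ U a j := by
    intro j
    rw [hρ]
    change (((σ' ⟨linZ U a j, hAmem j⟩).coeff 0 : Ω) : ℂ) = _
    rw [hσc ⟨linZ U a j, hAmem j⟩ (hAKU j), HahnSeries.C_apply, HahnSeries.coeff_single_same]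
  have hρB : ∀ j : Fin m, pl.ρ ⟨⟨mon b (U j.succ), hBmem (U j.succ)⟩, hBO j.succ⟩ =
      powZ U ub j.succ := by
    intro j
    rw [hρ]
    have h1 := (hlead (U j.succ)).2
    rw [horth j] at h1
    exact h1
  refine ⟨U, hdet, pl, fun j => ⟨⟨linZ U a j, hAmem j⟩, hAO j⟩,
    fun j => ⟨⟨mon b (U j), hBmem (U j)⟩, hBO j⟩, fun j => rfl, fun j => rfl, ?_, ?_, ?_⟩
  · rw [hρ]
    change (((σ' ⟨mon b (U 0), hBmem (U 0)⟩).coeff 0 : Ω) : ℂ) = 0
    rw [hσB, (hlead (U 0)).1 0 hpos]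
    rfl
  · intro j
    rw [hρB]
    exact hyp.1 j
  · have h1 : (fun j : Fin m => pl.ρ ⟨⟨linZ U a j.succ, hAmem j.succ⟩, hAO j.succ⟩) =
        fun j : Fin m => linZ U a j.succ := funext fun j => hρA j.succ
    have h2 : (fun j : Fin m => pl.ρ ⟨⟨mon b (U j.succ), hBmem (U j.succ)⟩, hBO j.succ⟩) =
        fun j : Fin m => powZ U ub j.succ := funext fun j => hρB j
    rw [h1, h2]
    exact hyp

end Pool.Agent.EXI
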