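import Pool.Agent.EXI.TADefs

/-!
# EXI / TAAlg: transcendence degree and annihilating polynomials

`td` is computed by `EXL/Tdi.lean` (`exists_basis`, `algInd_iff`, `card_le_td`) with `k = K`,
`Set.range (algebraMap K ℂ) = (K : Set ℂ)`.
* `algInd_of_td`: `algInd_iff` with `Fintype.card (Fin y) = y`.
* `alg_of_td`: if `b k` were transcendental over `K[b_J]`, then `(b_J, b_k)` would be algebraically
  independent (`y + 1` elements, the `J j` distinct and different from `k`), so `td K b ≥ y + 1` by
  `card_le_td` (for the finset `insert k (image J)`).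
* `exists_J`: `exists_basis` gives a finset `s` of `y` indices; enumerate it.
* `rel`: among the nonzero polynomials `Q ∈ K[T][Y]` with `Q(b_J, b_k) = 0` (they exist: `halg` and
  `K[b_J] ≅ K[T]`, clear nothing) take one of minimal `Y`-degree; its degree is `≥ 1` (`J` independent),
  and `Q'` has smaller degree and is `≠ 0` (characteristic zero), so `Q'(b_J, b_k) ≠ 0`.
* `rel0`: take a nonzero polynomial of minimal `Y`-degree (or divide by a power of `Y`, `b k ≠ 0`);
  its constant coefficient is nonzero (otherwise divide by `Y`), the leading one too; `a i` are its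
  coefficients (`Finset.sum_range`).
-/

set_option autoImplicit false

namespace Pool.Agent.EXI

open MvPolynomial MeasureTheory Pool.Agent.EXL
open scoped ENNReal

/-- `ev2` in terms of the polynomials over `K[t]`, for independent `t`. -/
theorem alg_ev2 {K : Subfield ℂ} {y : ℕ} (t : Fin y → ℂ) (ht : AlgebraicIndependent K t) (θ : ℂ)
    (p : Polynomial (Algebra.adjoin K (Set.range t))) :
    ev2 t θ (p.map ht.aevalEquiv.symm.toAlgHom.toRingHom) = Polynomial.aeval θ p := by
  unfold ev2
  rw [Polynomial.map_map, Polynomial.aeval_def, Polynomial.eval_map]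
  congr 1
  ext a
  show aeval t (ht.aevalEquiv.symm a) = (a : ℂ)
  have h := ht.algebraMap_aevalEquiv (ht.aevalEquiv.symm a)
  rw [AlgEquiv.apply_symm_apply] at h
  exact h.symm

variable (K : Subfield ℂ) {ι : Type} [Fintype ι] (b : ι → ℂ) {y : ℕ} (J : Fin y → ι)

theorem range_algMap (K : Subfield ℂ) : Set.range (algebraMap K ℂ) = (K : Set ℂ) :=
  Subtype.range_coe

theorem algInd_of_td (h : td (K : Set ℂ) (b ∘ J) = y) : AlgebraicIndependent K (b ∘ J) := by
  rw [algInd_iff, range_algMap, h, Fintype.card_fin]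

theorem alg_of_td (hb : td (K : Set ℂ) b = y) (h : td (K : Set ℂ) (b ∘ J) = y) (k : ι) :
    IsAlgebraic (Algebra.adjoin K (Set.range (b ∘ J))) (b k) := by
  classical
  by_contra hna
  have hJ := algInd_of_td K b J h
  have hinj : Function.Injective J := by
    intro i j hij
    exact hJ.injective (by simp [Function.comp, hij])
  have hind : AlgebraicIndepOn K b (Set.range J) := by
    have h1 := hJ.comp (fun i : Set.range J => Classical.choose i.2) (by
      intro i j hij
      apply Subtype.ext
      rw [← Classical.choose_spec i.2, ← Classical.choose_spec j.2]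
      exact congrArg J hij)
    have h2 : ((b ∘ J) ∘ fun i : Set.range J => Classical.choose i.2) =
        fun i : Set.range J => b i := by
      funext i
      exact congrArg b (Classical.choose_spec i.2)
    rw [h2] at h1
    exact h1
  have hk : k ∉ Finset.univ.image J := by
    intro hk
    obtain ⟨j, -, rfl⟩ := Finset.mem_image.1 hk
    exact hna (isAlgebraic_algebraMap
      (⟨b (J j), Algebra.subset_adjoin ⟨j, rfl⟩⟩ : Algebra.adjoin K (Set.range (b ∘ J))))
  have h1 : AlgebraicIndepOn K b (insert k (Set.range J)) := by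
    refine hind.insert ?_
    rw [← Set.range_comp]
    exact hna
  have h2 : AlgebraicIndependent K (fun i : (insert k (Finset.univ.image J) : Finset ι) => b i) := by
    have h3 : (Set.range J : Set ι) = ((Finset.univ.image J : Finset ι) : Set ι) := by simp
    rw [h3, ← Finset.coe_insert] at h1
    exact h1
  have h3 := card_le_td b _ h2
  rw [Finset.card_insert_of_notMem hk, Finset.card_image_of_injective _ hinj, range_algMap, hb,
    Finset.card_univ, Fintype.card_fin] at h3
  omega

theorem exists_J (hb : td (K : Set ℂ) b = y) : ∃ J : Fin y → ι, td (K : Set ℂ) (b ∘ J) = y := by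
  obtain ⟨s, hs, hind, -⟩ := exists_basis (k := K) b
  rw [range_algMap, hb] at hs
  refine ⟨fun j => ((s.equivFinOfCardEq hs).symm j : ι), ?_⟩
  have h1 := hind.comp (s.equivFinOfCardEq hs).symm (s.equivFinOfCardEq hs).symm.injective
  have h2 := (algInd_iff (k := K) _).1 h1
  rw [range_algMap, Fintype.card_fin] at h2
  exact h2

theorem rel (hJ : AlgebraicIndependent K (b ∘ J))
    (halg : ∀ k, IsAlgebraic (Algebra.adjoin K (Set.range (b ∘ J))) (b k)) (k : ι) :
    ∃ Q : Polynomial (MvPolynomial (Fin y) K), ev2 (b ∘ J) (b k) Q = 0 ∧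
      ev2 (b ∘ J) (b k) (Polynomial.derivative Q) ≠ 0 := by
  classical
  have hex : ∃ n : ℕ, ∃ Q : Polynomial (MvPolynomial (Fin y) K), Q ≠ 0 ∧ Q.natDegree = n ∧
      ev2 (b ∘ J) (b k) Q = 0 := by
    obtain ⟨p, hp0, hp⟩ := halg k
    refine ⟨_, p.map hJ.aevalEquiv.symm.toAlgHom.toRingHom, ?_, rfl, ?_⟩
    · intro h
      apply hp0
      exact (Polynomial.map_eq_zero_iff (f := hJ.aevalEquiv.symm.toAlgHom.toRingHom)
        hJ.aevalEquiv.symm.injective).1 h
    · rw [alg_ev2, hp]
  obtain ⟨Q, hQ0, hQn, hQ⟩ := Nat.find_spec hex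
  refine ⟨Q, hQ, fun hd => ?_⟩
  have hdeg : Q.natDegree ≠ 0 := by
    intro h0
    rw [Polynomial.eq_C_of_natDegree_eq_zero h0] at hQ
    have h1 : aeval (b ∘ J) (Q.coeff 0) = 0 := by
      unfold ev2 at hQ
      rw [Polynomial.map_C, Polynomial.eval_C] at hQ
      exact hQ
    have h2 := (algebraicIndependent_iff.1 hJ) _ h1
    apply hQ0
    rw [Polynomial.eq_C_of_natDegree_eq_zero h0, h2, map_zero]
  have hd0 : Polynomial.derivative Q ≠ 0 := by
    intro h
    exact hdeg (Polynomial.derivative_eq_zero.1 h)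
  have hlt : (Polynomial.derivative Q).natDegree < Nat.find hex := by
    rw [← hQn]
    exact Polynomial.natDegree_derivative_lt hdeg
  exact Nat.find_min hex hlt ⟨_, hd0, rfl, hd⟩

theorem rel0 (hJ : AlgebraicIndependent K (b ∘ J))
    (halg : ∀ k, IsAlgebraic (Algebra.adjoin K (Set.range (b ∘ J))) (b k)) (k : ι)
    (hk : b k ≠ 0) :
    ∃ (e : ℕ) (a : Fin (e + 1) → MvPolynomial (Fin y) K), a 0 ≠ 0 ∧ a (Fin.last e) ≠ 0 ∧
      ∑ i, aeval (b ∘ J) (a i) * b k ^ (i : ℕ) = 0 := by
  obtain ⟨p, hp0, hp⟩ := (halg k).exists_nonzero_coeff_and_aeval_eq_zero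
    (mem_nonZeroDivisors_of_ne_zero hk)
  have hpne : p ≠ 0 := by
    rintro rfl
    exact hp0 (Polynomial.coeff_zero 0)
  refine ⟨p.natDegree, fun i => hJ.aevalEquiv.symm (p.coeff i), ?_, ?_, ?_⟩
  · intro h
    apply hp0
    have h1 : hJ.aevalEquiv.symm (p.coeff 0) = 0 := h
    exact (map_eq_zero_iff _ hJ.aevalEquiv.symm.injective).1 h1
  · intro h
    have h1 : hJ.aevalEquiv.symm (p.coeff p.natDegree) = 0 := h
    have h2 := (map_eq_zero_iff _ hJ.aevalEquiv.symm.injective).1 h1
    exact hpne (Polynomial.leadingCoeff_eq_zero.1 h2)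
  · rw [← hp, Polynomial.aeval_eq_sum_range, ← Fin.sum_univ_eq_sum_range
      (fun i => p.coeff i • b k ^ i)]
    refine Finset.sum_congr rfl fun i _ => ?_
    have h := hJ.algebraMap_aevalEquiv (hJ.aevalEquiv.symm (p.coeff i))
    rw [AlgEquiv.apply_symm_apply] at h
    rw [← h, Algebra.smul_def]

end Pool.Agent.EXI
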