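import Pool.Agent.EXI.TAStr

/-!
# EXI / TACard: the number of points of the fibres

PROOF.  Take `D, P, A, W` from `str`, `n = P.natDegree`. For `aeval t D ≠ 0` the map `x ↦ aeval x W` is
a bijection of `fib (XG K b G) J t` with the set of roots of the specialisation of `P` at `t`:
injective, since `aeval t D * x k = ev2 t (aeval x W) (A k)`; into the roots by the first property;
surjective by the second. The specialisation is monic of degree `n` and separable over `ℂ`, so it
has exactly `n` roots (`Polynomial.card_rootSet_eq_natDegree` or `nodup_roots` +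
`splits_iff_card_roots`).
-/

set_option autoImplicit false

namespace Pool.Agent.EXI

open MvPolynomial MeasureTheory Pool.Agent.EXL
open scoped ENNReal

variable (K : Subfield ℂ) {ι : Type} [Fintype ι] (b : ι → ℂ) {y : ℕ} (J : Fin y → ι)

theorem fib_card (hJ : AlgebraicIndependent K (b ∘ J))
    (halg : ∀ k, IsAlgebraic (Algebra.adjoin K (Set.range (b ∘ J))) (b k))
    (G : MvPolynomial ι K) (hG : aeval b G ≠ 0) :
    ∃ (n : ℕ) (D : MvPolynomial (Fin y) K), 1 ≤ n ∧ D ≠ 0 ∧ ∀ t : Fin y → ℂ, aeval t D ≠ 0 →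
      (fib (XG K b G) J t).Finite ∧ (fib (XG K b G) J t).ncard = n := by
  classical
  obtain ⟨D, P, A, W, hD, hP, hn, -, -, h1, h2⟩ := str K b J hJ halg G hG
  refine ⟨P.natDegree, D, hn, hD, fun t ht => ?_⟩
  obtain ⟨hsep, hsurj⟩ := h2 t ht
  obtain ⟨p, hp⟩ : ∃ p, p = P.map (aeval t : MvPolynomial (Fin y) K →ₐ[K] ℂ).toRingHom :=
    ⟨_, rfl⟩
  rw [← hp] at hsep
  have hpm : p.Monic := by
    rw [hp]
    exact hP.map _
  have hpd : p.natDegree = P.natDegree := by
    rw [hp]
    exact hP.natDegree_map _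
  have hroot : ∀ θ, θ ∈ (p.roots.toFinset : Set ℂ) ↔ ev2 t θ P = 0 := by
    intro θ
    rw [Finset.mem_coe, Multiset.mem_toFinset, Polynomial.mem_roots hpm.ne_zero,
      Polynomial.IsRoot.def, ev2, ← hp]
  have hbij : Set.BijOn (fun x => aeval x W) (fib (XG K b G) J t)
      (p.roots.toFinset : Set ℂ) := by
    refine ⟨?_, ?_, ?_⟩
    · rintro x ⟨⟨hx, -⟩, hxt⟩
      have h3 := (h1 x hx).1
      rw [hxt] at h3
      exact (hroot _).2 h3
    · rintro x ⟨⟨hx, -⟩, hxt⟩ x' ⟨⟨hx', -⟩, hxt'⟩ he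
      funext k
      have e1 := (h1 x hx).2 k
      have e2 := (h1 x' hx').2 k
      rw [hxt] at e1
      rw [hxt'] at e2
      have he' : aeval x W = aeval x' W := he
      rw [he', ← e2] at e1
      exact mul_left_cancel₀ ht e1
    · intro θ hθ
      obtain ⟨x, hx, hxt, hxw⟩ := hsurj θ ((hroot θ).1 hθ)
      exact ⟨x, ⟨hx, hxt⟩, hxw⟩
  have hfin : (fib (XG K b G) J t).Finite := by
    refine Set.Finite.of_finite_image (f := fun x => aeval x W) ?_ hbij.injOn
    rw [hbij.image_eq]
    exact Finset.finite_toSet _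
  refine ⟨hfin, ?_⟩
  rw [← Set.InjOn.ncard_image hbij.injOn, hbij.image_eq, Set.ncard_coe_finset,
    Multiset.toFinset_card_of_nodup (Polynomial.nodup_roots hsep), ← hpd]
  exact Polynomial.splits_iff_card_roots.1 (IsAlgClosed.splits p)

end Pool.Agent.EXI
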