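import Pool.Agent.EXI.TADefs

/-!
# EXI / TANu: the Haar measure of the torus

`nu = |t|⁻² dt` on `ℂ`, `mu y` the product measure.
* `nu_zero`: the density is finite and `volume {0} = 0` (`withDensity_absolutelyContinuous`).
* instance `SigmaFinite nu` (the density is finite valued: `SigmaFinite.withDensity_ofReal` or
  `SigmaFinite.withDensity`).
* `mu_lintegral`: `mu y = volume.withDensity (∏ ofReal (‖t i‖^2)⁻¹)`: use `Measure.pi_eq` (the two
  measures agree on boxes: `withDensity_apply`, and the integral over a box of a product of functions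
  of one variable is the product of the integrals, by induction on `y` with
  `volume_preserving_piFinSuccAbove`, or search `lintegral_prod_pi`/`Measure.pi` + `withDensity`),
  then `lintegral_withDensity_eq_lintegral_mul`.
* `nu_map`: polar coordinates. For measurable `g ≥ 0`: `∫⁻ t, g t = ∫⁻ p in polarCoord.target,
  ofReal p.1 * g (p.1 cos p.2 + p.1 sin p.2 I)` (`Complex.lintegral_comp_polarCoord_symm`), then
  substitute `r = exp u` (`lintegral_image_eq_lintegral_abs_deriv_mul` or
  `lintegral_comp_exp`-type lemma: `r dr = r^2 du`), so `|t|⁻² dt = du dθ`. `Ioo` versus `Ioc` is a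
  null set.
* `mu_apply`: `mu y` is the image of the product over `i` of `(volume on ℝ) × (volume restricted to
  Ioc (-π) π)` under `exp` in every coordinate (`Measure.pi_map_pi`/`Measure.map_pi`), and the measure
  of `A` is computed by Fubini (reorder `∏ (ℝ × ℝ)` as `ℝ^y × ℝ^y`:
  `MeasurableEquiv.arrowProdEquivProdArrow`, `measurePreserving_arrowProdEquivProdArrow`).
* `mu_logB`: from `mu_apply`: the set `LogB y ρ` is the box `|u i| < ρ`, and all `θ`:
  `(2ρ)^y (2π)^y = (4πρ)^y`.
-/

set_option autoImplicit false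

namespace Pool.Agent.EXI

open MvPolynomial MeasureTheory Pool.Agent.EXL
open scoped ENNReal

theorem nu_zero : nu {0} = 0 :=
  withDensity_absolutelyContinuous volume _ (measure_singleton (0 : ℂ))

instance : SigmaFinite nu := by
  unfold nu
  exact SigmaFinite.withDensity_ofReal _

instance sigmaFinite_mu (y : ℕ) : SigmaFinite (mu y) := by
  unfold mu
  infer_instance

private theorem meas_dens : Measurable fun t : ℂ => ENNReal.ofReal (‖t‖ ^ 2)⁻¹ := by
  fun_prop

private theorem meas_dens' (y : ℕ) :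
    Measurable fun t : Fin y → ℂ => ENNReal.ofReal (∏ i, (‖t i‖ ^ 2)⁻¹) := by
  fun_prop

theorem mu_lintegral (y : ℕ) (g : (Fin y → ℂ) → ℝ≥0∞) (hg : Measurable g) :
    ∫⁻ t, g t ∂(mu y) = ∫⁻ t, g t * ENNReal.ofReal (∏ i, (‖t i‖ ^ 2)⁻¹) := by
  induction y with
  | zero =>
    unfold mu
    rw [volume_pi, Measure.pi_of_empty _ (fun i => i.elim0), Measure.pi_of_empty _ (fun i => i.elim0),
      lintegral_dirac, lintegral_dirac]
    simp
  | succ y ih =>
    have h1 := (measurePreserving_piFinSuccAbove (fun _ : Fin (y + 1) => nu) 0).symm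
    have h2 := (volume_preserving_piFinSuccAbove (fun _ : Fin (y + 1) => ℂ) 0).symm
    have hG : Measurable fun p : ℂ × (Fin y → ℂ) =>
        g ((MeasurableEquiv.piFinSuccAbove (fun _ : Fin (y + 1) => ℂ) 0).symm p) :=
      hg.comp (MeasurableEquiv.measurable _)
    have hcons : ∀ (a : ℂ) (b : Fin y → ℂ),
        (MeasurableEquiv.piFinSuccAbove (fun _ : Fin (y + 1) => ℂ) 0).symm (a, b) =
          (Fin.cons a b : Fin (y + 1) → ℂ) := by
      intro a b
      show Fin.insertNth 0 a b = (Fin.cons a b : Fin (y + 1) → ℂ)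
      rw [Fin.insertNth_zero']
    have hL : ∫⁻ t, g t ∂(mu (y + 1)) =
        ∫⁻ a, ∫⁻ b, g (Fin.cons a b : Fin (y + 1) → ℂ) ∂(mu y) ∂nu := by
      have h3 : ∫⁻ t, g t ∂(mu (y + 1)) = ∫⁻ p, g ((MeasurableEquiv.piFinSuccAbove
          (fun _ : Fin (y + 1) => ℂ) 0).symm p) ∂(nu.prod (mu y)) :=
        (h1.lintegral_comp_emb (MeasurableEquiv.measurableEmbedding _) g).symm
      rw [h3, lintegral_prod _ hG.aemeasurable]
      refine lintegral_congr fun a => lintegral_congr fun b => ?_
      rw [hcons]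
    have hR : ∫⁻ t : Fin (y + 1) → ℂ, g t * ENNReal.ofReal (∏ i, (‖t i‖ ^ 2)⁻¹) =
        ∫⁻ a : ℂ, ∫⁻ b : Fin y → ℂ, g (Fin.cons a b : Fin (y + 1) → ℂ) *
          (ENNReal.ofReal (‖a‖ ^ 2)⁻¹ * ENNReal.ofReal (∏ i, (‖b i‖ ^ 2)⁻¹)) := by
      have h3 : ∫⁻ t : Fin (y + 1) → ℂ, g t * ENNReal.ofReal (∏ i, (‖t i‖ ^ 2)⁻¹) =
          ∫⁻ p : ℂ × (Fin y → ℂ), g ((MeasurableEquiv.piFinSuccAbove
          (fun _ : Fin (y + 1) => ℂ) 0).symm p) * ENNReal.ofReal (∏ i,
            (‖(MeasurableEquiv.piFinSuccAbove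
              (fun _ : Fin (y + 1) => ℂ) 0).symm p i‖ ^ 2)⁻¹) :=
        (h2.lintegral_comp_emb (MeasurableEquiv.measurableEmbedding _)
          (fun t => g t * ENNReal.ofReal (∏ i, (‖t i‖ ^ 2)⁻¹))).symm
      rw [h3, Measure.volume_eq_prod, lintegral_prod]
      · refine lintegral_congr fun a => lintegral_congr fun b => ?_
        rw [hcons, ← ENNReal.ofReal_mul (by positivity), Fin.prod_univ_succ]
        simp
      · refine (hG.mul ?_).aemeasurable
        exact (meas_dens' (y + 1)).comp (MeasurableEquiv.measurable _)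
    have hm : Measurable fun p : ℂ × (Fin y → ℂ) => g (Fin.cons p.1 p.2 : Fin (y + 1) → ℂ) := by
      have h3 : (fun p : ℂ × (Fin y → ℂ) => g (Fin.cons p.1 p.2 : Fin (y + 1) → ℂ)) =
          fun p => g ((MeasurableEquiv.piFinSuccAbove (fun _ : Fin (y + 1) => ℂ) 0).symm p) := by
        funext p
        rw [← hcons]
      rw [h3]
      exact hG
    rw [hL, hR]
    have h4 : ∀ a : ℂ, ∫⁻ b, g (Fin.cons a b : Fin (y + 1) → ℂ) ∂(mu y) =
        ∫⁻ b : Fin y → ℂ, g (Fin.cons a b : Fin (y + 1) → ℂ) *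
          ENNReal.ofReal (∏ i, (‖b i‖ ^ 2)⁻¹) := fun a =>
      ih (fun b => g (Fin.cons a b : Fin (y + 1) → ℂ)) (hm.comp measurable_prodMk_left)
    simp_rw [h4]
    unfold nu
    rw [lintegral_withDensity_eq_lintegral_mul _ meas_dens]
    · refine lintegral_congr fun a => ?_
      rw [Pi.mul_apply, ← lintegral_const_mul]
      · refine lintegral_congr fun b => ?_
        ring
      · exact (hm.comp measurable_prodMk_left).mul (meas_dens' y)
    · refine Measurable.lintegral_prod_right' (f := fun p : ℂ × (Fin y → ℂ) =>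
        g (Fin.cons p.1 p.2 : Fin (y + 1) → ℂ) * ENNReal.ofReal (∏ i, (‖p.2 i‖ ^ 2)⁻¹)) ?_
      exact hm.mul ((meas_dens' y).comp measurable_snd)

private theorem meas_exp :
    Measurable fun p : ℝ × ℝ => Complex.exp (p.1 + p.2 * Complex.I) := by
  have : Continuous fun p : ℝ × ℝ => Complex.exp (p.1 + p.2 * Complex.I) := by fun_prop
  exact this.measurable

/-- Polar coordinates. -/
theorem nu_map : nu = Measure.map (fun p : ℝ × ℝ => Complex.exp (p.1 + p.2 * Complex.I))
    ((volume : Measure ℝ).prod (volume.restrict (Set.Ioc (-Real.pi) Real.pi))) := by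
  refine Measure.ext_of_lintegral _ fun g hg => ?_
  rw [lintegral_map hg meas_exp, lintegral_prod
    (fun p : ℝ × ℝ => g (Complex.exp (p.1 + p.2 * Complex.I))) (hg.comp meas_exp).aemeasurable]
  have h0 : volume.restrict (Set.Ioc (-Real.pi) Real.pi) =
      volume.restrict (Set.Ioo (-Real.pi) Real.pi) :=
    Measure.restrict_congr_set Ioo_ae_eq_Ioc.symm
  rw [h0]
  unfold nu
  rw [lintegral_withDensity_eq_lintegral_mul _ meas_dens hg, ←
    Complex.lintegral_comp_polarCoord_symm]
  have ht : polarCoord.target = Set.Ioi (0 : ℝ) ×ˢ Set.Ioo (-Real.pi) Real.pi := rfl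
  have hm2 : Measurable fun p : ℝ × ℝ => g (Complex.polarCoord.symm p) := by
    refine hg.comp ?_
    have h2 : (Complex.polarCoord.symm : ℝ × ℝ → ℂ) = fun p : ℝ × ℝ =>
        (p.1 : ℂ) * (Real.cos p.2 + Real.sin p.2 * Complex.I) := by
      funext p
      exact Complex.polarCoord_symm_apply p
    rw [h2]
    fun_prop
  have h1 : ∫⁻ p in polarCoord.target, ENNReal.ofReal p.1 •
      ((fun t : ℂ => ENNReal.ofReal (‖t‖ ^ 2)⁻¹) * g) (Complex.polarCoord.symm p) =
      ∫⁻ p in Set.Ioi (0 : ℝ) ×ˢ Set.Ioo (-Real.pi) Real.pi,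
        ENNReal.ofReal p.1⁻¹ * g (Complex.polarCoord.symm p) := by
    rw [ht]
    refine setLIntegral_congr_fun (measurableSet_Ioi.prod measurableSet_Ioo) fun p hp => ?_
    have hp1 : 0 < p.1 := hp.1
    show ENNReal.ofReal p.1 • (ENNReal.ofReal (‖Complex.polarCoord.symm p‖ ^ 2)⁻¹ *
      g (Complex.polarCoord.symm p)) = _
    rw [Complex.norm_polarCoord_symm, sq_abs, smul_eq_mul, ← mul_assoc, ← ENNReal.ofReal_mul hp1.le]
    congr 2
    field_simp
  rw [h1, Measure.volume_eq_prod, ← Measure.prod_restrict, lintegral_prod]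
  · have h2 : Set.Ioi (0 : ℝ) = Real.exp '' Set.univ := by
      rw [Set.image_univ, Real.range_exp]
    rw [h2, lintegral_image_eq_lintegral_abs_deriv_mul MeasurableSet.univ
      (fun x _ => (Real.hasDerivAt_exp x).hasDerivWithinAt) Real.exp_injective.injOn,
      setLIntegral_univ]
    refine lintegral_congr fun u => ?_
    rw [← lintegral_const_mul]
    · refine lintegral_congr fun θ => ?_
      rw [← mul_assoc, ← ENNReal.ofReal_mul (abs_nonneg _), abs_of_pos (Real.exp_pos u)]
      dsimp only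
      rw [mul_inv_cancel₀ (Real.exp_pos u).ne', ENNReal.ofReal_one, one_mul,
        Complex.polarCoord_symm_apply]
      congr 1
      rw [Complex.exp_add, Complex.exp_mul_I]
      push_cast
      rfl
    · have h3 : Measurable fun θ : ℝ => g (Complex.polarCoord.symm (Real.exp u, θ)) :=
        hm2.comp measurable_prodMk_left
      exact h3.const_mul (ENNReal.ofReal (Real.exp u)⁻¹)
  · refine ((Measurable.mul ?_ hm2)).aemeasurable
    fun_prop

/-- Fubini in logarithmic polar coordinates. -/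
theorem mu_apply (y : ℕ) (A : Set (Fin y → ℂ)) (hA : MeasurableSet A) :
    mu y A = ∫⁻ u : Fin y → ℝ, volume {θ : Fin y → ℝ | (∀ i, θ i ∈ Set.Ioc (-Real.pi) Real.pi) ∧
      (fun i => Complex.exp (u i + θ i * Complex.I)) ∈ A} := by
  set ρ : Measure (ℝ × ℝ) :=
    (volume : Measure ℝ).prod (volume.restrict (Set.Ioc (-Real.pi) Real.pi)) with hρ
  have hsf : SigmaFinite (Measure.map (fun p : ℝ × ℝ => Complex.exp (p.1 + p.2 * Complex.I)) ρ) := by
    rw [hρ, ← nu_map]
    infer_instance
  have h1 : mu y = Measure.map (fun (x : Fin y → ℝ × ℝ) i =>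
      Complex.exp ((x i).1 + (x i).2 * Complex.I)) (Measure.pi fun _ => ρ) := by
    unfold mu
    rw [Measure.pi_map_pi (μ := fun _ : Fin y => ρ)
      (f := fun _ (p : ℝ × ℝ) => Complex.exp (p.1 + p.2 * Complex.I))
      (fun _ => meas_exp.aemeasurable)]
    congr 1
    funext i
    exact nu_map
  have hmE : Measurable fun (x : Fin y → ℝ × ℝ) (i : Fin y) =>
      Complex.exp ((x i).1 + (x i).2 * Complex.I) :=
    measurable_pi_lambda _ fun i => meas_exp.comp (measurable_pi_apply i)
  rw [h1, Measure.map_apply hmE hA]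
  have he := (measurePreserving_arrowProdEquivProdArrow ℝ ℝ (Fin y)
    (fun _ => (volume : Measure ℝ))
    (fun _ => volume.restrict (Set.Ioc (-Real.pi) Real.pi))).symm
  have hmS : MeasurableSet ((fun (x : Fin y → ℝ × ℝ) (i : Fin y) =>
      Complex.exp ((x i).1 + (x i).2 * Complex.I)) ⁻¹' A) := hmE hA
  rw [← he.measure_preimage_equiv, Measure.prod_apply (MeasurableEquiv.measurable _ hmS), volume_pi]
  refine lintegral_congr fun u => ?_
  have h2 : (Measure.pi fun _ : Fin y => (volume : Measure ℝ).restrict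
      (Set.Ioc (-Real.pi) Real.pi)) =
      (Measure.pi fun _ : Fin y => (volume : Measure ℝ)).restrict
        (Set.pi Set.univ fun _ => Set.Ioc (-Real.pi) Real.pi) :=
    (Measure.restrict_pi_pi _ _).symm
  rw [h2, Measure.restrict_apply]
  · rw [← volume_pi]
    congr 1
    ext θ
    constructor
    · rintro ⟨h3, h4⟩
      exact ⟨fun i => h4 i (Set.mem_univ i), h3⟩
    · rintro ⟨h3, h4⟩
      exact ⟨h4, fun i _ => h3 i⟩
  · exact measurable_prodMk_left (MeasurableEquiv.measurable _ hmS)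

theorem measurableSet_LogB (y : ℕ) (ρ : ℝ) : MeasurableSet (LogB y ρ) := by
  have h : LogB y ρ = ⋂ i, ({t : Fin y → ℂ | t i ≠ 0} ∩ {t | |Real.log ‖t i‖| < ρ}) := by
    ext t
    simp [LogB]
  rw [h]
  refine MeasurableSet.iInter fun i => MeasurableSet.inter ?_ ?_
  · exact (measurableSet_eq_fun (measurable_pi_apply i) measurable_const).compl
  · refine measurableSet_lt ?_ measurable_const
    exact (Real.measurable_log.comp (measurable_norm.comp (measurable_pi_apply i))).abs

theorem mu_logB (y : ℕ) (ρ : ℝ) (hρ : 0 ≤ ρ) :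
    mu y (LogB y ρ) = ENNReal.ofReal ((4 * Real.pi * ρ) ^ y) := by
  have hpi := Real.pi_pos
  rw [mu_apply y _ (measurableSet_LogB y ρ)]
  have hB : Set.pi Set.univ (fun _ : Fin y => Set.Ioo (-ρ) ρ) =
      {u : Fin y → ℝ | ∀ i, |u i| < ρ} := by
    ext u
    simp [abs_lt]
  have hBm : MeasurableSet (Set.pi Set.univ (fun _ : Fin y => Set.Ioo (-ρ) ρ)) :=
    MeasurableSet.univ_pi fun _ => measurableSet_Ioo
  have h1 : ∀ u : Fin y → ℝ, volume {θ : Fin y → ℝ |
      (∀ i, θ i ∈ Set.Ioc (-Real.pi) Real.pi) ∧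
      (fun i => Complex.exp (u i + θ i * Complex.I)) ∈ LogB y ρ} =
      (Set.pi Set.univ (fun _ : Fin y => Set.Ioo (-ρ) ρ)).indicator
        (fun _ => ENNReal.ofReal ((2 * Real.pi) ^ y)) u := by
    intro u
    have h2 : ((fun i => Complex.exp (u i + 0 * Complex.I)) ∈ LogB y ρ) ↔ ∀ i, |u i| < ρ := by
      simp [LogB, Complex.norm_exp]
    have h3 : ∀ θ : Fin y → ℝ, ((fun i => Complex.exp (u i + θ i * Complex.I)) ∈ LogB y ρ) ↔
        ∀ i, |u i| < ρ := by
      intro θ
      simp [LogB, Complex.norm_exp]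
    by_cases hu : ∀ i, |u i| < ρ
    · have h4 : u ∈ Set.pi Set.univ (fun _ : Fin y => Set.Ioo (-ρ) ρ) := by
        rw [hB]
        exact hu
      rw [Set.indicator_of_mem h4]
      have h5 : {θ : Fin y → ℝ | (∀ i, θ i ∈ Set.Ioc (-Real.pi) Real.pi) ∧
          (fun i => Complex.exp (u i + θ i * Complex.I)) ∈ LogB y ρ} =
          Set.pi Set.univ fun _ => Set.Ioc (-Real.pi) Real.pi := by
        ext θ
        constructor
        · rintro ⟨h6, _⟩
          exact fun i _ => h6 i
        · intro h6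
          exact ⟨fun i => h6 i (Set.mem_univ i), (h3 θ).2 hu⟩
      rw [h5, Real.volume_pi_Ioc]
      simp only [Finset.prod_const, Finset.card_univ, Fintype.card_fin]
      rw [← ENNReal.ofReal_pow (by linarith)]
      congr 2
      ring
    · have h4 : u ∉ Set.pi Set.univ (fun _ : Fin y => Set.Ioo (-ρ) ρ) := by
        rw [hB]
        exact hu
      rw [Set.indicator_of_notMem h4]
      have h5 : {θ : Fin y → ℝ | (∀ i, θ i ∈ Set.Ioc (-Real.pi) Real.pi) ∧
          (fun i => Complex.exp (u i + θ i * Complex.I)) ∈ LogB y ρ} = ∅ := by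
        rw [Set.eq_empty_iff_forall_notMem]
        rintro θ ⟨_, h6⟩
        exact hu ((h3 θ).1 h6)
      rw [h5, measure_empty]
  rw [lintegral_congr h1, lintegral_indicator_const hBm, Real.volume_pi_Ioo]
  simp only [Finset.prod_const, Finset.card_univ, Fintype.card_fin]
  rw [← ENNReal.ofReal_pow (by linarith), ← ENNReal.ofReal_mul (by positivity), ← mul_pow]
  congr 2
  ring

end Pool.Agent.EXI
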