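import Pool.Agent.EXI.TADec
import Pool.Agent.EXI.TANu

/-!
# EXI / TACv: change of variables

PROOF.  Take `decomp` for `J, J'`; `Z = {t ∈ U n | s n t ∈ Xn n}`, `Z' = {t ∈ U' n | s' n t ∈ Xn n}`
(measurable by `tsum_fib`). By `tsum_fib` and `lintegral_tsum` it suffices to prove for every `n`
  `∫⁻ t' in Z', g (s' t') ∂mu = ∫⁻ t in Z, g (s t) * ofReal (‖det (l i (J' j) (s t))‖^2) ∂mu`.
By `mu_lintegral` (applied to the measurable indicator functions) both sides become Lebesgue integrals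
with the densities `∏ (‖t i‖^2)⁻¹`. The map `τ t = s t ∘ J'` is injective on `Z` (`s t = s' (τ t)`),
maps `Z` onto `Z'`, and has the complex derivative with matrix
`M_{j i} = x_{J' j} l_{i, J' j}(x) / t_i`, `x = s t` (`TChart`, `hasFDerivAt_pi`). Its real determinant is
`‖det M‖^2` (`LinearMap.det_restrictScalars` and `Algebra.norm_complex_apply`/`normSq`), and
`det M = (∏ x_{J' j} / ∏ t_i) det (l_{i, J' j}(x))` (`Matrix.det_mul_row`, `det_mul_column`). The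
change of variables formula `lintegral_image_eq_lintegral_abs_det_fderiv_mul` gives the claim, since
`(∏ ‖x_{J' j}‖^2)⁻¹ ‖det M‖^2 = (∏ ‖t_i‖^2)⁻¹ ‖det l‖^2` (`x_k ≠ 0` on `X`).
-/

set_option autoImplicit false

namespace Pool.Agent.EXI

open MvPolynomial MeasureTheory Pool.Agent.EXL
open scoped ENNReal

/-- the derivative of the transition map -/
private noncomputable def cvD {y : ℕ} (c : Matrix (Fin y) (Fin y) ℂ) :
    (Fin y → ℂ) →L[ℂ] (Fin y → ℂ) :=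
  ContinuousLinearMap.pi fun j => ∑ i, c j i • (ContinuousLinearMap.proj i : (Fin y → ℂ) →L[ℂ] ℂ)

private theorem cvD_det {y : ℕ} (c : Matrix (Fin y) (Fin y) ℂ) :
    ((cvD c).restrictScalars ℝ).det = ‖c.det‖ ^ 2 := by
  have h1 : ((cvD c : (Fin y → ℂ) →L[ℂ] (Fin y → ℂ)) : (Fin y → ℂ) →ₗ[ℂ] (Fin y → ℂ)) =
      Matrix.toLin' c := by
    refine LinearMap.ext fun v => ?_
    funext j
    show (∑ i, c j i • (ContinuousLinearMap.proj i : (Fin y → ℂ) →L[ℂ] ℂ)) v = _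
    rw [Matrix.toLin'_apply, ContinuousLinearMap.sum_apply]
    rfl
  have h2 : ((cvD c).restrictScalars ℝ).det =
      LinearMap.det (((cvD c : (Fin y → ℂ) →L[ℂ] (Fin y → ℂ)) :
        (Fin y → ℂ) →ₗ[ℂ] (Fin y → ℂ)).restrictScalars ℝ) := rfl
  rw [h2, LinearMap.det_restrictScalars, h1, LinearMap.det_toLin', Algebra.norm_complex_apply,
    Complex.normSq_eq_norm_sq]

private theorem cv_scale {y : ℕ} (a b : Fin y → ℂ) (M : Matrix (Fin y) (Fin y) ℂ) :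
    Matrix.det (fun j i => a j * M j i / b i) = (∏ j, a j) * (∏ i, (b i)⁻¹) * M.det := by
  have h1 : (fun j i => a j * M j i / b i : Matrix (Fin y) (Fin y) ℂ) =
      Matrix.of fun j i => a j * (Matrix.of (fun j i => (b i)⁻¹ * M j i)) j i := by
    ext j i
    simp only [Matrix.of_apply]
    ring
  rw [h1, Matrix.det_mul_column, Matrix.det_mul_row]
  ring

/-- one chart -/
private theorem cv_chart {ι : Type} [Fintype ι] (X : Set (ι → ℂ))
    (hX0 : ∀ x ∈ X, ∀ k, x k ≠ 0) {y : ℕ} (J J' : Fin y → ι) (l l' : Fin y → ι → (ι → ℂ) → ℂ)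
    (g : (ι → ℂ) → ℝ≥0∞) (Xn : Set (ι → ℂ)) (U U' : Set (Fin y → ℂ))
    (s s' : (Fin y → ℂ) → (ι → ℂ)) (hc : TChart X J l U s) (hc' : TChart X J' l' U' s')
    (hs : ∀ x ∈ Xn, x ∘ J ∈ U ∧ s (x ∘ J) = x ∧ x ∘ J' ∈ U' ∧ s' (x ∘ J') = x)
    (hZ : MeasurableSet {t | t ∈ U ∧ s t ∈ Xn}) :
    ∫⁻ t in {t | t ∈ U' ∧ s' t ∈ Xn}, g (s' t) * ENNReal.ofReal (∏ i, (‖t i‖ ^ 2)⁻¹) =
    ∫⁻ t in {t | t ∈ U ∧ s t ∈ Xn}, g (s t) *
      ENNReal.ofReal (‖Matrix.det (fun j i => l i (J' j) (s t))‖ ^ 2) *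
        ENNReal.ofReal (∏ i, (‖t i‖ ^ 2)⁻¹) := by
  set Z := {t | t ∈ U ∧ s t ∈ Xn} with hZd
  set τ : (Fin y → ℂ) → (Fin y → ℂ) := fun t => s t ∘ J' with hτ
  have himg : {t | t ∈ U' ∧ s' t ∈ Xn} = τ '' Z := by
    ext t
    constructor
    · rintro ⟨h1, h2⟩
      obtain ⟨a1, a2, a3, a4⟩ := hs _ h2
      refine ⟨s' t ∘ J, ⟨a1, by rw [a2]; exact h2⟩, ?_⟩
      show s (s' t ∘ J) ∘ J' = t
      rw [a2]
      exact (hc'.2.1 t h1).2
    · rintro ⟨t', ⟨h1, h2⟩, rfl⟩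
      obtain ⟨a1, a2, a3, a4⟩ := hs _ h2
      refine ⟨a3, ?_⟩
      show s' (s t' ∘ J') ∈ Xn
      rw [a4]
      exact h2
  have hinj : Set.InjOn τ Z := by
    rintro t1 ⟨h1, h2⟩ t2 ⟨h3, h4⟩ h5
    have e1 := (hs _ h2).2.2.2
    have e2 := (hs _ h4).2.2.2
    have e3 : s t1 = s t2 := by
      rw [← e1, ← e2]
      exact congrArg s' h5
    rw [← (hc.2.1 t1 h1).2, ← (hc.2.1 t2 h3).2, e3]
  set c : (Fin y → ℂ) → Matrix (Fin y) (Fin y) ℂ := fun t j i =>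
    s t (J' j) * l i (J' j) (s t) / t i with hcd
  have hder : ∀ t ∈ Z, HasFDerivWithinAt τ ((cvD (c t)).restrictScalars ℝ) Z t := by
    rintro t ⟨ht, -⟩
    have h1 : HasFDerivAt τ (cvD (c t)) t := by
      rw [cvD]
      exact hasFDerivAt_pi.2 fun j => hc.2.2 t ht (J' j)
    exact (h1.restrictScalars ℝ).hasFDerivWithinAt
  rw [himg, lintegral_image_eq_lintegral_abs_det_fderiv_mul volume hZ hder hinj]
  refine setLIntegral_congr_fun hZ ?_
  rintro t ⟨ht, ht'⟩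
  have hxX := (hc.2.1 t ht).1
  obtain ⟨a1, a2, a3, a4⟩ := hs _ ht'
  simp only
  have e1 : s' (τ t) = s t := a4
  rw [e1, cvD_det, abs_of_nonneg (by positivity), hcd]
  simp only
  rw [cv_scale (fun j => s t (J' j)) t (fun j i => l i (J' j) (s t))]
  have e2 : ∏ i, (‖τ t i‖ ^ 2)⁻¹ = ((∏ j, ‖s t (J' j)‖) ^ 2)⁻¹ := by
    rw [← Finset.prod_pow, Finset.prod_inv_distrib]
    rfl
  have e3 : ∏ i, (‖t i‖ ^ 2)⁻¹ = ((∏ i, ‖t i‖) ^ 2)⁻¹ := by
    rw [← Finset.prod_pow, Finset.prod_inv_distrib]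
  have e4 : ∏ j, ‖s t (J' j)‖ ≠ 0 :=
    Finset.prod_ne_zero_iff.2 fun j _ => norm_ne_zero_iff.2 (hX0 _ hxX _)
  have key : ENNReal.ofReal (‖(∏ j, s t (J' j)) * (∏ i, (t i)⁻¹) *
      Matrix.det (fun j i => l i (J' j) (s t))‖ ^ 2) * ENNReal.ofReal (∏ i, (‖τ t i‖ ^ 2)⁻¹) =
      ENNReal.ofReal (‖Matrix.det (fun j i => l i (J' j) (s t))‖ ^ 2) *
        ENNReal.ofReal (∏ i, (‖t i‖ ^ 2)⁻¹) := by
    rw [← ENNReal.ofReal_mul (by positivity), ← ENNReal.ofReal_mul (by positivity)]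
    congr 1
    rw [e2, e3, norm_mul, norm_mul, norm_prod, norm_prod]
    simp only [norm_inv, Finset.prod_inv_distrib]
    field_simp
  rw [mul_left_comm, key, mul_assoc]

theorem cv {ι : Type} [Fintype ι] (X : Set (ι → ℂ)) (hX : MeasurableSet X)
    (hX0 : ∀ x ∈ X, ∀ k, x k ≠ 0) {y : ℕ} (J J' : Fin y → ι) (l l' : Fin y → ι → (ι → ℂ) → ℂ)
    (h : IsEt X J l) (h' : IsEt X J' l') (hl : ∀ i k, Measurable (l i k))
    (g : (ι → ℂ) → ℝ≥0∞) (hg : Measurable g) :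
    ∫⁻ t, ∑' x : fib X J' t, g x ∂(mu y) = ∫⁻ t, ∑' x : fib X J t, g x *
      ENNReal.ofReal (‖Matrix.det (fun j i => l i (J' j) (x : ι → ℂ))‖ ^ 2) ∂(mu y) := by
  obtain ⟨Xn, U, U', s, s', hm, hd, hu, hn⟩ := decomp X hX J J' l l' h h'
  obtain ⟨m1, m2, m3⟩ := tsum_fib X J l Xn U s hm hd hu (fun n => (hn n).1)
    (fun n x hx => ⟨((hn n).2.2 x hx).1, ((hn n).2.2 x hx).2.1⟩)
  obtain ⟨m1', m2', m3'⟩ := tsum_fib X J' l' Xn U' s' hm hd hu (fun n => (hn n).2.1)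
    (fun n x hx => ((hn n).2.2 x hx).2.2)
  set g' : (ι → ℂ) → ℝ≥0∞ := fun x => g x *
    ENNReal.ofReal (‖Matrix.det (fun j i => l i (J' j) x)‖ ^ 2) with hg'
  have hdet : Measurable fun x : ι → ℂ => Matrix.det (fun j i => l i (J' j) x :
      Matrix (Fin y) (Fin y) ℂ) := by
    simp only [Matrix.det_apply]
    refine Finset.measurable_sum _ fun σ _ => ?_
    refine Measurable.const_smul ?_ _
    exact Finset.measurable_prod _ fun i _ => hl _ _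
  have hgm : Measurable g' := hg.mul (hdet.norm.pow_const 2).ennreal_ofReal
  have hL : ∀ t, ∑' x : fib X J' t, g x =
      ∑' n, {t | t ∈ U' n ∧ s' n t ∈ Xn n}.indicator (fun t => g (s' n t)) t := fun t => m3' g t
  have hR : ∀ t, ∑' x : fib X J t, g x *
      ENNReal.ofReal (‖Matrix.det (fun j i => l i (J' j) (x : ι → ℂ))‖ ^ 2) =
      ∑' n, {t | t ∈ U n ∧ s n t ∈ Xn n}.indicator (fun t => g' (s n t)) t := fun t => m3 g' t
  simp only [hL, hR]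
  rw [lintegral_tsum fun n => (m2' n g hg).aemeasurable,
    lintegral_tsum fun n => (m2 n g' hgm).aemeasurable]
  refine tsum_congr fun n => ?_
  rw [mu_lintegral y _ (m2' n g hg), mu_lintegral y _ (m2 n g' hgm)]
  have k1 : ∀ t : Fin y → ℂ, {t | t ∈ U' n ∧ s' n t ∈ Xn n}.indicator (fun t => g (s' n t)) t *
      ENNReal.ofReal (∏ i, (‖t i‖ ^ 2)⁻¹) = {t | t ∈ U' n ∧ s' n t ∈ Xn n}.indicator
        (fun t => g (s' n t) * ENNReal.ofReal (∏ i, (‖t i‖ ^ 2)⁻¹)) t := by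
    intro t
    by_cases ht : t ∈ {t | t ∈ U' n ∧ s' n t ∈ Xn n}
    · rw [Set.indicator_of_mem ht, Set.indicator_of_mem ht]
    · rw [Set.indicator_of_notMem ht, Set.indicator_of_notMem ht, zero_mul]
  have k2 : ∀ t : Fin y → ℂ, {t | t ∈ U n ∧ s n t ∈ Xn n}.indicator (fun t => g' (s n t)) t *
      ENNReal.ofReal (∏ i, (‖t i‖ ^ 2)⁻¹) = {t | t ∈ U n ∧ s n t ∈ Xn n}.indicator
        (fun t => g (s n t) * ENNReal.ofReal (‖Matrix.det (fun j i => l i (J' j) (s n t))‖ ^ 2) *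
          ENNReal.ofReal (∏ i, (‖t i‖ ^ 2)⁻¹)) t := by
    intro t
    by_cases ht : t ∈ {t | t ∈ U n ∧ s n t ∈ Xn n}
    · rw [Set.indicator_of_mem ht, Set.indicator_of_mem ht]
    · rw [Set.indicator_of_notMem ht, Set.indicator_of_notMem ht, zero_mul]
  simp only [k1, k2]
  rw [lintegral_indicator (m1' n), lintegral_indicator (m1 n)]
  exact cv_chart X hX0 J J' l l' g (Xn n) (U n) (U' n) (s n) (s' n) (hn n).1 (hn n).2.1
    (hn n).2.2 (m1 n)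

end Pool.Agent.EXI
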