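import Pool.Agent.EXI.TADefs

/-!
# EXI / TADec: decomposition into charts

PROOF of `decomp`.  For `x₀ ∈ X` intersect the open sets `O, O'` of the two etale structures. The open
sets `O ∩ O'` cover `X`; by Lindelöf (`ι → ℂ` is second countable:
`TopologicalSpace.isOpen_iUnion_countable` or `countable_cover_nhdsWithin`) countably many cover `X`
(if `X` is empty use `U = ∅`). Put `Xn n = X ∩ O_n ∩ O'_n \ ⋃_{m<n} (O_m ∩ O'_m)`
(`disjointed`, `MeasurableSet.disjointed`).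

PROOF of `tsum_fib`.  `s n` is continuous on the open set `U n` (differentiable in every coordinate),
so `{t ∈ U n | s n t ∈ Xn n}` is measurable, and the indicator function is measurable. The fibre
`fib X J t` is the disjoint union over `n` of the sets `{x ∈ Xn n | x∘J = t}`, and this set is
`{s n t}` if `t ∈ U n`, `s n t ∈ Xn n`, and empty otherwise. (E.g. `tsum` over `fib X J t` of `g` is
`∑' x, (fib X J t).indicator g x` and `(fib X J t).indicator g x = ∑' n, (...)`; or build the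
equivalence of `fib X J t` with `{n | t ∈ U n ∧ s n t ∈ Xn n}`: `x ↦` the unique `n` with `x ∈ Xn n`,
inverse `n ↦ s n t`; `Equiv.tsum_eq` and `tsum_subtype`.)
-/

set_option autoImplicit false

namespace Pool.Agent.EXI

open MvPolynomial MeasureTheory Pool.Agent.EXL
open scoped ENNReal

/-- A chart. -/
def TChart {ι : Type} [Fintype ι] (X : Set (ι → ℂ)) {y : ℕ} (J : Fin y → ι)
    (l : Fin y → ι → (ι → ℂ) → ℂ) (U : Set (Fin y → ℂ)) (s : (Fin y → ℂ) → (ι → ℂ)) : Prop :=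
  IsOpen U ∧ (∀ t ∈ U, s t ∈ X ∧ s t ∘ J = t) ∧
    (∀ t ∈ U, ∀ k, HasFDerivAt (fun t => s t k)
      (∑ i, (s t k * l i k (s t) / t i) • (ContinuousLinearMap.proj i : (Fin y → ℂ) →L[ℂ] ℂ)) t)

theorem decomp {ι : Type} [Fintype ι] (X : Set (ι → ℂ)) (hX : MeasurableSet X) {y : ℕ}
    (J J' : Fin y → ι) (l l' : Fin y → ι → (ι → ℂ) → ℂ) (h : IsEt X J l) (h' : IsEt X J' l') :
    ∃ (Xn : ℕ → Set (ι → ℂ)) (U U' : ℕ → Set (Fin y → ℂ)) (s s' : ℕ → (Fin y → ℂ) → (ι → ℂ)),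
      (∀ n, MeasurableSet (Xn n)) ∧ Pairwise (Function.onFun Disjoint Xn) ∧ (⋃ n, Xn n) = X ∧
      ∀ n, TChart X J l (U n) (s n) ∧ TChart X J' l' (U' n) (s' n) ∧
        ∀ x ∈ Xn n, x ∘ J ∈ U n ∧ s n (x ∘ J) = x ∧ x ∘ J' ∈ U' n ∧ s' n (x ∘ J') = x := by
  rcases X.eq_empty_or_nonempty with hX0 | ⟨z, hz⟩
  · subst hX0
    refine ⟨fun _ => ∅, fun _ => ∅, fun _ => ∅, fun _ _ => 0, fun _ _ => 0,
      fun _ => MeasurableSet.empty, fun _ _ _ => disjoint_bot_left, ?_, fun n => ⟨?_, ?_, ?_⟩⟩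
    · exact Set.iUnion_empty
    · exact ⟨isOpen_empty, fun _ h => absurd h (Set.notMem_empty _),
        fun _ h => absurd h (Set.notMem_empty _)⟩
    · exact ⟨isOpen_empty, fun _ h => absurd h (Set.notMem_empty _),
        fun _ h => absurd h (Set.notMem_empty _)⟩
    · exact fun _ h => absurd h (Set.notMem_empty _)
  · unfold IsEt at h h'
    choose U O s hU hO hx0 hs hxs hd using h
    choose U' O' s' hU' hO' hx0' hs' hxs' hd' using h'
    obtain ⟨T, hT, hT'⟩ := TopologicalSpace.isOpen_iUnion_countable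
      (fun x : X => O x.1 x.2 ∩ O' x.1 x.2) (fun x => (hO x.1 x.2).inter (hO' x.1 x.2))
    have hcov : X ⊆ ⋃ x ∈ T, O x.1 x.2 ∩ O' x.1 x.2 := by
      rw [hT']
      intro x hx
      exact Set.mem_iUnion.2 ⟨⟨x, hx⟩, hx0 x hx, hx0' x hx⟩
    have hTne : T.Nonempty := by
      obtain ⟨x, hx, -⟩ := Set.mem_iUnion₂.1 (hcov hz)
      exact ⟨x, hx⟩
    obtain ⟨f, hf⟩ := hT.exists_eq_range hTne
    refine ⟨disjointed fun n => X ∩ (O (f n).1 (f n).2 ∩ O' (f n).1 (f n).2),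
      fun n => U (f n).1 (f n).2, fun n => U' (f n).1 (f n).2, fun n => s (f n).1 (f n).2,
      fun n => s' (f n).1 (f n).2, fun n => ?_, disjoint_disjointed _, ?_, fun n =>
      ⟨⟨hU _ _, hs _ _, hd _ _⟩, ⟨hU' _ _, hs' _ _, hd' _ _⟩, fun x hx => ?_⟩⟩
    · exact MeasurableSet.disjointed (fun m => hX.inter
        (((hO _ _).inter (hO' _ _)).measurableSet)) n
    · rw [iUnion_disjointed]
      refine Set.Subset.antisymm (Set.iUnion_subset fun n => Set.inter_subset_left) ?_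
      intro x hx
      obtain ⟨y, hy, hxy⟩ := Set.mem_iUnion₂.1 (hcov hx)
      rw [hf] at hy
      obtain ⟨n, rfl⟩ := hy
      exact Set.mem_iUnion.2 ⟨n, hx, hxy⟩
    · have hx' := disjointed_subset (fun n => X ∩ (O (f n).1 (f n).2 ∩ O' (f n).1 (f n).2)) n hx
      obtain ⟨h1, h2, h3⟩ := hx'
      obtain ⟨a1, a2⟩ := hxs (f n).1 (f n).2 x ⟨h1, h2⟩
      obtain ⟨b1, b2⟩ := hxs' (f n).1 (f n).2 x ⟨h1, h3⟩
      exact ⟨a1, a2, b1, b2⟩

theorem TChart.continuousOn {ι : Type} [Fintype ι] {X : Set (ι → ℂ)} {y : ℕ} {J : Fin y → ι}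
    {l : Fin y → ι → (ι → ℂ) → ℂ} {U : Set (Fin y → ℂ)} {s : (Fin y → ℂ) → (ι → ℂ)}
    (h : TChart X J l U s) : ContinuousOn s U := by
  intro t ht
  refine ContinuousAt.continuousWithinAt ?_
  exact continuousAt_pi.2 fun k => (h.2.2 t ht k).continuousAt

theorem tsum_fib {ι : Type} [Fintype ι] (X : Set (ι → ℂ)) {y : ℕ} (J : Fin y → ι)
    (l : Fin y → ι → (ι → ℂ) → ℂ) (Xn : ℕ → Set (ι → ℂ)) (U : ℕ → Set (Fin y → ℂ))
    (s : ℕ → (Fin y → ℂ) → (ι → ℂ)) (hm : ∀ n, MeasurableSet (Xn n))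
    (hd : Pairwise (Function.onFun Disjoint Xn)) (hu : (⋃ n, Xn n) = X)
    (hc : ∀ n, TChart X J l (U n) (s n)) (hs : ∀ n, ∀ x ∈ Xn n, x ∘ J ∈ U n ∧ s n (x ∘ J) = x) :
    (∀ n, MeasurableSet {t | t ∈ U n ∧ s n t ∈ Xn n}) ∧
    (∀ n (g : (ι → ℂ) → ℝ≥0∞), Measurable g →
      Measurable ({t | t ∈ U n ∧ s n t ∈ Xn n}.indicator (fun t => g (s n t)))) ∧
    ∀ (g : (ι → ℂ) → ℝ≥0∞) (t : Fin y → ℂ), ∑' x : fib X J t, g x =
      ∑' n, {t | t ∈ U n ∧ s n t ∈ Xn n}.indicator (fun t => g (s n t)) t := by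
  have hr : ∀ n, Measurable ((U n).domRestrict (s n)) := fun n =>
    (continuousOn_iff_continuous_domRestrict.1 (hc n).continuousOn).measurable
  have hA : ∀ n, MeasurableSet {t | t ∈ U n ∧ s n t ∈ Xn n} := by
    intro n
    have e : {t | t ∈ U n ∧ s n t ∈ Xn n} = Subtype.val '' ((U n).domRestrict (s n) ⁻¹' Xn n) := by
      ext t
      constructor
      · rintro ⟨h1, h2⟩
        exact ⟨⟨t, h1⟩, h2, rfl⟩
      · rintro ⟨⟨t, h1⟩, h2, rfl⟩
        exact ⟨h1, h2⟩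
    rw [e]
    exact (hc n).1.measurableSet.subtype_image (hr n (hm n))
  refine ⟨hA, fun n g hg => ?_, fun g t => ?_⟩
  · refine measurable_of_restrict_of_restrict_compl (hA n) ?_ ?_
    · have e : ({t | t ∈ U n ∧ s n t ∈ Xn n}.domRestrict
          ({t | t ∈ U n ∧ s n t ∈ Xn n}.indicator (fun t => g (s n t)))) =
          fun x : {t | t ∈ U n ∧ s n t ∈ Xn n} => g ((U n).domRestrict (s n) ⟨x.1, x.2.1⟩) := by
        funext x
        show Set.indicator {t | t ∈ U n ∧ s n t ∈ Xn n} (fun t => g (s n t)) x.1 = g (s n x.1)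
        rw [Set.indicator_of_mem x.2]
      rw [e]
      exact hg.comp ((hr n).comp (measurable_subtype_coe.subtype_mk))
    · have e : ({t | t ∈ U n ∧ s n t ∈ Xn n}ᶜ.domRestrict
          ({t | t ∈ U n ∧ s n t ∈ Xn n}.indicator (fun t => g (s n t)))) = fun _ => 0 := by
        funext x
        show Set.indicator {t | t ∈ U n ∧ s n t ∈ Xn n} (fun t => g (s n t)) x.1 = 0
        rw [Set.indicator_of_notMem x.2]
      rw [e]
      exact measurable_const
  · have hsub : ∀ n, Xn n ⊆ X := fun n => hu ▸ Set.subset_iUnion Xn n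
    let F : {n | t ∈ U n ∧ s n t ∈ Xn n} → fib X J t := fun n =>
      ⟨s n.1 t, hsub n.1 n.2.2, ((hc n.1).2.1 t n.2.1).2⟩
    have hF : Function.Bijective F := by
      constructor
      · rintro ⟨n, hn1, hn2⟩ ⟨m, hm1, hm2⟩ hnm
        have e : s n t = s m t := congrArg Subtype.val hnm
        have hnm' : n = m := by
          by_contra hne
          refine Set.disjoint_left.1 (hd hne) hn2 ?_
          rw [e]
          exact hm2
        subst hnm'
        rfl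
      · rintro ⟨x, hx, hxt⟩
        rw [← hu] at hx
        obtain ⟨n, hn⟩ := Set.mem_iUnion.1 hx
        obtain ⟨h1, h2⟩ := hs n x hn
        rw [hxt] at h1 h2
        exact ⟨⟨n, h1, h2 ▸ hn⟩, Subtype.ext h2⟩
    rw [← (Equiv.ofBijective F hF).tsum_eq]
    have e1 : ∀ n : {n | t ∈ U n ∧ s n t ∈ Xn n},
        g ((Equiv.ofBijective F hF) n).1 = (fun n => g (s n t)) n.1 := fun n => rfl
    simp only [e1]
    rw [tsum_subtype {n | t ∈ U n ∧ s n t ∈ Xn n} (fun n => g (s n t))]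
    refine tsum_congr fun n => ?_
    by_cases h : t ∈ U n ∧ s n t ∈ Xn n
    · rw [Set.indicator_of_mem (s := {n | t ∈ U n ∧ s n t ∈ Xn n}) h,
        Set.indicator_of_mem (s := {t | t ∈ U n ∧ s n t ∈ Xn n}) h]
    · rw [Set.indicator_of_notMem (s := {n | t ∈ U n ∧ s n t ∈ Xn n}) h,
        Set.indicator_of_notMem (s := {t | t ∈ U n ∧ s n t ∈ Xn n}) h]

end Pool.Agent.EXI
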