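import Pool.Agent.EXI.TADefs

/-!
# EXI / TADer: the derivations dual to b_J

* `exists_D`: `b ∘ J` is algebraically independent over `K` (`algInd_iff`); for every `i` apply
  `exists_der K 0 (b∘J) _ (fun j => if i = j then b (J j) else 0)` (EXL/Ext).
* `det_zero`: if the determinant is nonzero, the vectors `(D i (b (J j)))_j`, `i : Fin y`, are linearly
  independent (the matrix `D i (b (J j))` is the transpose of the given one with rows multiplied by
  `b (J j) ≠ 0`), so `td K (b∘J) ≥ y` by `le_rk_of_linearIndependent` (EXL/Rk), and `≤ y` by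
  `rk_le_card`.
* `D_change`: the derivation `D - ∑ i', (D (b (J' i')) / b (J' i')) • D' i'` is in `DerOver K` and kills
  all `b (J' j)`; since `td K b = y = td K (b ∘ J')` it kills all `b k` (every `b k` is algebraic over
  `K(b_{J'})`; use `alg_of_td` and `derOver_algebraic` in EXL/Rk, or a rank argument).
* `R_change`: by `D_change` the matrix `(D i (b k) / b k)_{i k}` is the product of
  `(D i (b (J' i')) / b (J' i'))_{i i'}` and `(D' i' (b k) / b k)_{i' k}`; `Matrix.det_mul` and
  transposes.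
-/

set_option autoImplicit false

namespace Pool.Agent.EXI

open MvPolynomial MeasureTheory Pool.Agent.EXL
open scoped ENNReal

variable (K : Subfield ℂ) {ι : Type} [Fintype ι] (b : ι → ℂ) {y : ℕ}

private theorem der_sum (f : Fin y → Derivation ℤ ℂ ℂ) (x : ℂ) :
    (∑ i, f i) x = ∑ i, f i x := by
  have h := map_sum (ev (fun _ : Unit => x)) f Finset.univ
  have h' := congrFun h ()
  rw [Finset.sum_apply] at h'
  exact h'

theorem exists_D (hb : ∀ k, b k ≠ 0) (J : Fin y → ι) (hJ : td (K : Set ℂ) (b ∘ J) = y) :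
    ∃ D : Fin y → Derivation ℤ ℂ ℂ, (∀ i, D i ∈ DerOver (K : Set ℂ)) ∧
      ∀ i j, D i (b (J j)) = if i = j then b (J j) else 0 := by
  have _ := hb
  have h0 : Set.range (algebraMap K ℂ) = (K : Set ℂ) := Subtype.range_coe
  have h1 : AlgebraicIndependent K (b ∘ J) := by
    rw [algInd_iff, h0, hJ, Fintype.card_fin]
  have h2 : ∀ i, ∃ D : Derivation ℤ ℂ ℂ, D ∈ DerOver (K : Set ℂ) ∧
      ∀ j, D (b (J j)) = if i = j then b (J j) else 0 := by
    intro i
    obtain ⟨D, hD, hv⟩ := exists_der K 0 (b ∘ J) h1 (fun j => if i = j then b (J j) else 0)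
    refine ⟨D, ?_, hv⟩
    intro c hc
    have h3 := hD ⟨c, hc⟩
    simpa using h3
  choose D hD hv using h2
  exact ⟨D, hD, hv⟩

theorem det_zero (hb : ∀ k, b k ≠ 0) (J : Fin y → ι) (hJ : td (K : Set ℂ) (b ∘ J) ≠ y)
    (D : Fin y → Derivation ℤ ℂ ℂ) (hD : ∀ i, D i ∈ DerOver (K : Set ℂ)) :
    Matrix.det (fun j i => D i (b (J j)) / b (J j)) = 0 := by
  by_contra hdet
  apply hJ
  apply le_antisymm
  · have h1 := rk_le_card (DerOver (K : Set ℂ)) (b ∘ J)
    rwa [Fintype.card_fin] at h1
  · refine le_rk_of_linearIndependent (DerOver (K : Set ℂ)) (b ∘ J) D hD ?_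
    have h2 : (Matrix.of (fun i j => D i (b (J j))) : Matrix (Fin y) (Fin y) ℂ) =
        (Matrix.of (fun j i => D i (b (J j)) / b (J j)) : Matrix (Fin y) (Fin y) ℂ).transpose *
          Matrix.diagonal (fun j => b (J j)) := by
      ext i j
      rw [Matrix.mul_diagonal, Matrix.transpose_apply, Matrix.of_apply, Matrix.of_apply,
        div_mul_cancel₀ _ (hb _)]
    have h3 : (Matrix.of (fun i j => D i (b (J j))) : Matrix (Fin y) (Fin y) ℂ).det ≠ 0 := by
      rw [h2, Matrix.det_mul, Matrix.det_transpose, Matrix.det_diagonal]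
      exact mul_ne_zero hdet (Finset.prod_ne_zero_iff.2 fun j _ => hb _)
    exact Matrix.linearIndependent_rows_of_det_ne_zero h3

theorem D_change (hb : ∀ k, b k ≠ 0) (hy : td (K : Set ℂ) b = y) (J' : Fin y → ι)
    (hJ' : td (K : Set ℂ) (b ∘ J') = y)
    (D : Derivation ℤ ℂ ℂ) (D' : Fin y → Derivation ℤ ℂ ℂ) (hD : D ∈ DerOver (K : Set ℂ))
    (hD' : ∀ i, D' i ∈ DerOver (K : Set ℂ))
    (hDJ' : ∀ i j, D' i (b (J' j)) = if i = j then b (J' j) else 0) (k : ι) :
    D (b k) = ∑ i, D (b (J' i)) / b (J' i) * D' i (b k) := by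
  -- the derivations over `K` which kill all `b (J' j)` kill all `b k`
  have h1 : rk (DerOver (K : Set ℂ) ⊓ DerOver (Set.range (b ∘ J'))) b = 0 := by
    have h2 := rk_sum (DerOver (K : Set ℂ)) (b ∘ J') b
    have h3 : rk (DerOver (K : Set ℂ)) (Sum.elim (b ∘ J') b) = rk (DerOver (K : Set ℂ)) b :=
      rk_eq_of_dep _ _ _ (fun D _ h j => h (Sum.inr j))
        (fun D _ h i => by
          rcases i with i | i
          · exact h (J' i)
          · exact h i)
    have h4 : rk (DerOver (K : Set ℂ)) b = y := hy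
    have h5 : rk (DerOver (K : Set ℂ)) (b ∘ J') = y := hJ'
    rw [h3, h4, h5] at h2
    omega
  rw [rk_eq_zero_iff] at h1
  have h6 : D - ∑ i, (D (b (J' i)) / b (J' i)) • D' i ∈
      DerOver (K : Set ℂ) ⊓ DerOver (Set.range (b ∘ J')) := by
    refine ⟨Submodule.sub_mem _ hD (Submodule.sum_mem _ fun i _ =>
      Submodule.smul_mem _ _ (hD' i)), ?_⟩
    rintro _ ⟨j, rfl⟩
    rw [Derivation.sub_apply, der_sum, Function.comp_apply, Finset.sum_eq_single j]
    · rw [Derivation.smul_apply, hDJ', if_pos rfl, smul_eq_mul, div_mul_cancel₀ _ (hb _), sub_self]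
    · intro i _ hij
      rw [Derivation.smul_apply, hDJ', if_neg hij, smul_zero]
    · intro h
      exact absurd (Finset.mem_univ j) h
  have h7 := h1 _ h6 k
  rw [Derivation.sub_apply, der_sum, sub_eq_zero] at h7
  rw [h7]
  rfl

theorem R_change (hb : ∀ k, b k ≠ 0) (hy : td (K : Set ℂ) b = y) (J' : Fin y → ι)
    (hJ' : td (K : Set ℂ) (b ∘ J') = y)
    (D D' : Fin y → Derivation ℤ ℂ ℂ) (hD : ∀ i, D i ∈ DerOver (K : Set ℂ))
    (hD' : ∀ i, D' i ∈ DerOver (K : Set ℂ))
    (hDJ' : ∀ i j, D' i (b (J' j)) = if i = j then b (J' j) else 0) (l : Fin y → ι → ℂ) :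
    Matrix.det (fun j i => ∑ k, l j k * (D i (b k) / b k)) =
      Matrix.det (fun j i => ∑ k, l j k * (D' i (b k) / b k)) *
        Matrix.det (fun j i => D i (b (J' j)) / b (J' j)) := by
  have h1 : (Matrix.of (fun j i => ∑ k, l j k * (D i (b k) / b k)) :
      Matrix (Fin y) (Fin y) ℂ) =
      Matrix.of (fun j i => ∑ k, l j k * (D' i (b k) / b k)) *
        Matrix.of (fun j i => D i (b (J' j)) / b (J' j)) := by
    ext j i
    rw [Matrix.mul_apply]
    simp only [Matrix.of_apply]
    have h2 : ∀ k, l j k * (D i (b k) / b k) =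
        ∑ i', l j k * (D' i' (b k) / b k) * (D i (b (J' i')) / b (J' i')) := by
      intro k
      rw [D_change K b hb hy J' hJ' (D i) D' (hD i) hD' hDJ' k, Finset.sum_div, Finset.mul_sum]
      refine Finset.sum_congr rfl fun i' _ => ?_
      ring
    rw [Finset.sum_congr rfl fun k _ => h2 k, Finset.sum_comm]
    refine Finset.sum_congr rfl fun i' _ => ?_
    rw [Finset.sum_mul]
  have h3 := congrArg Matrix.det h1
  rw [Matrix.det_mul] at h3
  exact h3

end Pool.Agent.EXI
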