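import Pool.Agent.EXI.TASubOne

/-!
# EXI / TASub: sublevel sets of polynomials on the torus

PROOF.  Induction on `y`. `y = 0`: `q` is a constant `a`, the set is empty for `s ≤ 1` and for `s > 1`
the measure (of a subset of a point) is at most `1`. Step `y → y + 1`: use
`MvPolynomial.finSuccEquiv ℂ y : MvPolynomial (Fin (y+1)) ℂ ≃ Polynomial (MvPolynomial (Fin y) ℂ)`,
`q = ∑_{j ≤ N} q_j X_0^j` with `q_j` of degree `≤ N` in every variable
(`MvPolynomial.degreeOf_coeff_finSuccEquiv`, `natDegree_finSuccEquiv`) and `L(q) = ∑_j L(q_j)`, where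
`L` is the sum of the absolute values of the coefficients. Choose `j` with `L(q_j) ≥ L(q)/(N+1)`.
Let `s ≤ 1` (for `s > 1` use the trivial bound `(2π)^y`). By induction, for `θ'` outside a set `E'` of
measure `≤ C s^(c/2)` one has `‖q_j(exp θ')‖ ≥ s^(1/2) L(q_j)`; for these `θ'` the one variable
polynomial `p = ∑_j q_j(exp θ') X^j` has `L(p) ≥ s^(1/2) L(q)/(N+1)`, so the condition
`‖p(exp θ_0)‖ < s L(q)` implies `‖p(exp θ_0)‖ < s^(1/2) (N+1) L(p)` and `sub1` bounds the measure of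
such `θ_0` by `C₁ (s^(1/2) (N+1))^(1/(N+1))`. Fubini (`MeasurableEquiv.piFinSuccAbove`,
`volume_preserving_piFinSuccAbove` at `0`, `Measure.prod_apply`) gives
`measure ≤ 2π C s^(c/2) + (2π)^y C₁ ...`. If `L(q) = 0` the set is empty. All sets involved are
measurable (continuous functions).
-/

set_option autoImplicit false

namespace Pool.Agent.EXI

open MvPolynomial MeasureTheory Pool.Agent.EXL
open scoped ENNReal

private noncomputable def L {y : ℕ} (q : MvPolynomial (Fin y) ℂ) : ℝ :=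
  ∑ j ∈ q.support, ‖q.coeff j‖

private noncomputable def zt {y : ℕ} (θ : Fin y → ℝ) : Fin y → ℂ :=
  fun i => Complex.exp (θ i * Complex.I)

private def Bx (y : ℕ) : Set (Fin y → ℝ) := {θ | ∀ i, θ i ∈ Set.Ioc (-Real.pi) Real.pi}

private def SS (y : ℕ) (q : MvPolynomial (Fin y) ℂ) (s : ℝ) : Set (Fin y → ℝ) :=
  {θ : Fin y → ℝ | (∀ i, θ i ∈ Set.Ioc (-Real.pi) Real.pi) ∧
      ‖MvPolynomial.eval (fun i => Complex.exp (θ i * Complex.I)) q‖ <
        s * ∑ j ∈ q.support, ‖q.coeff j‖}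

private theorem L_nonneg {y : ℕ} (q : MvPolynomial (Fin y) ℂ) : 0 ≤ L q :=
  Finset.sum_nonneg fun _ _ => norm_nonneg _

private theorem vol_Bx (y : ℕ) : volume (Bx y) = ENNReal.ofReal ((2 * Real.pi) ^ y) := by
  have h : Bx y = Set.pi Set.univ (fun _ => Set.Ioc (-Real.pi) Real.pi) := by
    ext θ
    simp [Bx]
  rw [h, Real.volume_pi_Ioc]
  simp only [Finset.prod_const, Finset.card_univ, Fintype.card_fin]
  rw [← ENNReal.ofReal_pow (by linarith [Real.pi_pos])]
  congr 2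
  ring

private theorem meas_Bx (y : ℕ) : MeasurableSet (Bx y) := by
  have h : Bx y = Set.pi Set.univ (fun _ => Set.Ioc (-Real.pi) Real.pi) := by
    ext θ
    simp [Bx]
  rw [h]
  exact MeasurableSet.univ_pi fun _ => measurableSet_Ioc

private theorem SS_sub (y : ℕ) (q : MvPolynomial (Fin y) ℂ) (s : ℝ) : SS y q s ⊆ Bx y :=
  fun _ h => h.1

private theorem vol_SS (y : ℕ) (q : MvPolynomial (Fin y) ℂ) (s : ℝ) :
    volume (SS y q s) ≤ ENNReal.ofReal ((2 * Real.pi) ^ y) :=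
  (measure_mono (SS_sub y q s)).trans (vol_Bx y).le

private theorem meas_SS (y : ℕ) (q : MvPolynomial (Fin y) ℂ) (s : ℝ) :
    MeasurableSet (SS y q s) := by
  have h : SS y q s = Bx y ∩ {θ | ‖MvPolynomial.eval (zt θ) q‖ < s * L q} := rfl
  rw [h]
  refine (meas_Bx y).inter (measurableSet_lt ?_ measurable_const)
  have h1 : Continuous fun θ : Fin y → ℝ => MvPolynomial.eval (zt θ) q := by
    refine (MvPolynomial.continuous_eval q).comp ?_
    unfold zt
    fun_prop
  exact h1.norm.measurable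

private theorem L_le_sum {y : ℕ} (q : MvPolynomial (Fin (y + 1)) ℂ) (N : ℕ)
    (hq : q.degreeOf 0 ≤ N) :
    L q ≤ ∑ j ∈ Finset.range (N + 1), L ((finSuccEquiv ℂ y q).coeff j) := by
  classical
  set φ : (Fin (y + 1) →₀ ℕ) → (Σ _ : ℕ, (Fin y →₀ ℕ)) := fun m => ⟨m 0, m.tail⟩ with hφ
  have hinj : Function.Injective φ := by
    intro m m' h
    rw [hφ] at h
    simp only [Sigma.mk.injEq] at h
    rw [← Finsupp.cons_tail m, ← Finsupp.cons_tail m', h.1, eq_of_heq h.2]
  set g : (Σ _ : ℕ, (Fin y →₀ ℕ)) → ℝ :=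
    fun x => ‖((finSuccEquiv ℂ y q).coeff x.1).coeff x.2‖ with hg
  have h1 : ∀ m, ‖q.coeff m‖ = g (φ m) := by
    intro m
    rw [hg, hφ]
    simp only
    rw [finSuccEquiv_coeff_coeff, Finsupp.cons_tail]
  unfold L
  rw [Finset.sum_congr rfl fun m _ => h1 m, ← Finset.sum_image (f := g) (g := φ) hinj.injOn]
  have h2 : ∑ j ∈ Finset.range (N + 1), ∑ m ∈ ((finSuccEquiv ℂ y q).coeff j).support,
      ‖((finSuccEquiv ℂ y q).coeff j).coeff m‖ =
      ∑ x ∈ (Finset.range (N + 1)).sigma fun j => ((finSuccEquiv ℂ y q).coeff j).support, g x := by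
    rw [Finset.sum_sigma]
  rw [h2]
  refine Finset.sum_le_sum_of_subset_of_nonneg ?_ fun _ _ _ => norm_nonneg _
  intro x hx
  obtain ⟨m, hm, rfl⟩ := Finset.mem_image.1 hx
  rw [Finset.mem_sigma]
  refine ⟨?_, ?_⟩
  · rw [Finset.mem_range]
    exact Nat.lt_succ_of_le ((MvPolynomial.monomial_le_degreeOf 0 hm).trans hq)
  · show m.tail ∈ ((finSuccEquiv ℂ y q).coeff (m 0)).support
    rw [mem_support_iff, finSuccEquiv_coeff_coeff, Finsupp.cons_tail]
    exact mem_support_iff.1 hm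

private theorem exists_coeff {y : ℕ} (q : MvPolynomial (Fin (y + 1)) ℂ) (N : ℕ)
    (hq : q.degreeOf 0 ≤ N) :
    ∃ j, L q ≤ (N + 1 : ℝ) * L ((finSuccEquiv ℂ y q).coeff j) := by
  have hN : (0 : ℝ) < N + 1 := by positivity
  have h1 : ∑ _j ∈ Finset.range (N + 1), L q / (N + 1 : ℝ) ≤
      ∑ j ∈ Finset.range (N + 1), L ((finSuccEquiv ℂ y q).coeff j) := by
    refine le_of_eq_of_le ?_ (L_le_sum q N hq)
    rw [Finset.sum_const, Finset.card_range, nsmul_eq_mul]
    push_cast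
    field_simp
  obtain ⟨j, _, hj⟩ := Finset.exists_le_of_sum_le (by simp) h1
  refine ⟨j, ?_⟩
  rwa [div_le_iff₀ hN, mul_comm] at hj

private theorem sec_bound {y N : ℕ} {C₁ : ℝ}
    (hC : ∀ q : Polynomial ℂ, q.natDegree ≤ N → ∀ s : ℝ, 0 < s →
      volume {θ : ℝ | θ ∈ Set.Ioc (-Real.pi) Real.pi ∧
        ‖q.eval (Complex.exp (θ * Complex.I))‖ < s * ∑ j ∈ q.support, ‖q.coeff j‖} ≤
        ENNReal.ofReal (C₁ * s ^ ((1:ℝ) / (N + 1))))
    (q : MvPolynomial (Fin (y + 1)) ℂ) (hq : ∀ i, q.degreeOf i ≤ N) {j : ℕ}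
    (hj : L q ≤ (N + 1 : ℝ) * L ((finSuccEquiv ℂ y q).coeff j)) {s σ : ℝ} (hσ : 0 < σ)
    (hσs : σ ^ 2 = s) (θ' : Fin y → ℝ) (h1 : θ' ∈ Bx y)
    (h2 : θ' ∉ SS y ((finSuccEquiv ℂ y q).coeff j) σ) :
    volume {θ : ℝ | (Fin.cons θ θ' : Fin (y + 1) → ℝ) ∈ SS (y + 1) q s} ≤
      ENNReal.ofReal (C₁ * (σ * (N + 1)) ^ ((1:ℝ) / (N + 1))) := by
  have hN : (0 : ℝ) < N + 1 := by positivity
  set P := finSuccEquiv ℂ y q with hP
  set p := P.map (eval (zt θ')) with hp
  have hdeg : p.natDegree ≤ N := by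
    refine Polynomial.natDegree_map_le.trans ?_
    rw [hP, natDegree_finSuccEquiv]
    exact hq 0
  have h3 : σ * L (P.coeff j) ≤ ‖eval (zt θ') (P.coeff j)‖ := by
    by_contra hcon
    exact h2 ⟨h1, not_le.1 hcon⟩
  have h4 : ‖eval (zt θ') (P.coeff j)‖ ≤ ∑ j ∈ p.support, ‖p.coeff j‖ := by
    have h5 : eval (zt θ') (P.coeff j) = p.coeff j := by
      rw [hp, Polynomial.coeff_map]
    rw [h5]
    by_cases h6 : j ∈ p.support
    · exact Finset.single_le_sum (f := fun j => ‖p.coeff j‖) (fun _ _ => norm_nonneg _) h6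
    · rw [Polynomial.notMem_support_iff.1 h6, norm_zero]
      exact Finset.sum_nonneg fun _ _ => norm_nonneg _
  have h5 : s * L q ≤ (σ * (N + 1)) * ∑ j ∈ p.support, ‖p.coeff j‖ := by
    have h6 : σ * L (P.coeff j) ≤ ∑ j ∈ p.support, ‖p.coeff j‖ := h3.trans h4
    calc s * L q ≤ s * ((N + 1 : ℝ) * L (P.coeff j)) :=
          mul_le_mul_of_nonneg_left hj (by rw [← hσs]; positivity)
      _ = (σ * (N + 1)) * (σ * L (P.coeff j)) := by
          rw [← hσs]
          ring
      _ ≤ (σ * (N + 1)) * ∑ j ∈ p.support, ‖p.coeff j‖ :=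
          mul_le_mul_of_nonneg_left h6 (by positivity)
  refine (measure_mono ?_).trans (hC p hdeg (σ * (N + 1)) (by positivity))
  rintro θ ⟨hθ, h⟩
  refine ⟨hθ 0, ?_⟩
  have h6 : (fun i => Complex.exp (((Fin.cons θ θ' : Fin (y + 1) → ℝ) i : ℝ) * Complex.I)) =
      Fin.cons (Complex.exp (θ * Complex.I)) (zt θ') := by
    funext i
    refine Fin.cases ?_ (fun i => ?_) i
    · simp
    · simp [zt]
  rw [h6, eval_eq_eval_mv_eval'] at h
  exact h.trans_le h5

private theorem vol_succ (y : ℕ) (A : Set (Fin (y + 1) → ℝ)) (hA : MeasurableSet A) :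
    volume A = ∫⁻ θ' : Fin y → ℝ, volume {θ : ℝ | (Fin.cons θ θ' : Fin (y + 1) → ℝ) ∈ A} := by
  have he := (volume_preserving_piFinSuccAbove (fun _ : Fin (y + 1) => ℝ) 0).symm
  rw [← he.measure_preimage_equiv A]
  rw [Measure.volume_eq_prod, Measure.prod_apply_symm (MeasurableEquiv.measurable _ hA)]
  refine lintegral_congr fun θ' => ?_
  congr 1
  ext θ
  rw [Set.mem_preimage, Set.mem_preimage, Set.mem_ofPred_eq]
  have h1 : (MeasurableEquiv.piFinSuccAbove (fun _ : Fin (y + 1) => ℝ) 0).symm (θ, θ') =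
      (Fin.cons θ θ' : Fin (y + 1) → ℝ) := by
    show Fin.insertNth 0 θ θ' = (Fin.cons θ θ' : Fin (y + 1) → ℝ)
    rw [Fin.insertNth_zero']
  rw [h1]

theorem subn (y N : ℕ) : ∃ C > (0:ℝ), ∃ c > (0:ℝ), ∀ q : MvPolynomial (Fin y) ℂ,
    (∀ i, q.degreeOf i ≤ N) → ∀ s : ℝ, 0 < s →
    volume {θ : Fin y → ℝ | (∀ i, θ i ∈ Set.Ioc (-Real.pi) Real.pi) ∧
      ‖MvPolynomial.eval (fun i => Complex.exp (θ i * Complex.I)) q‖ <
        s * ∑ j ∈ q.support, ‖q.coeff j‖} ≤ ENNReal.ofReal (C * s ^ c) := by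
  have hpi := Real.pi_pos
  obtain ⟨C₁, hC₁, hC1⟩ := sub1 N
  induction y with
  | zero =>
    refine ⟨1, one_pos, 1, one_pos, ?_⟩
    intro q _ s hs
    rw [one_mul, Real.rpow_one]
    rcases lt_or_ge 1 s with h1 | h1
    · refine (vol_SS 0 q s).trans (ENNReal.ofReal_le_ofReal ?_)
      simpa using h1.le
    · have h2 : {θ : Fin 0 → ℝ | (∀ i, θ i ∈ Set.Ioc (-Real.pi) Real.pi) ∧
          ‖MvPolynomial.eval (fun i => Complex.exp (θ i * Complex.I)) q‖ <
            s * ∑ j ∈ q.support, ‖q.coeff j‖} = ∅ := by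
        rw [Set.eq_empty_iff_forall_notMem]
        rintro θ ⟨_, h⟩
        rw [eq_C_of_isEmpty q, eval_C] at h
        have h3 : ∑ j ∈ (C (coeff 0 q) : MvPolynomial (Fin 0) ℂ).support,
            ‖(C (coeff 0 q) : MvPolynomial (Fin 0) ℂ).coeff j‖ ≤ ‖coeff 0 q‖ := by
          rw [support_C]
          split_ifs with h0
          · simp
          · simp
        have h4 : s * ∑ j ∈ (C (coeff 0 q) : MvPolynomial (Fin 0) ℂ).support,
            ‖(C (coeff 0 q) : MvPolynomial (Fin 0) ℂ).coeff j‖ ≤ 1 * ‖coeff 0 q‖ :=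
          mul_le_mul h1 h3 (Finset.sum_nonneg fun _ _ => norm_nonneg _) zero_le_one
        linarith
      rw [h2]
      simp
  | succ y ih =>
    obtain ⟨C₀, hC₀, c, hc, ih⟩ := ih
    have hN : (0 : ℝ) < N + 1 := by positivity
    have hN1 : (1 : ℝ) ≤ N + 1 := by
      have : (0 : ℝ) ≤ N := Nat.cast_nonneg N
      linarith
    set c' := min (c / 2) (1 / (2 * (N + 1))) with hc'
    have hc'0 : 0 < c' := lt_min (by positivity) (by positivity)
    refine ⟨2 * Real.pi * C₀ + C₁ * (N + 1) * (2 * Real.pi) ^ y + (2 * Real.pi) ^ (y + 1),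
      by positivity, c', hc'0, ?_⟩
    intro q hq s hs
    rcases lt_or_ge 1 s with h1 | h1
    · refine (vol_SS (y + 1) q s).trans (ENNReal.ofReal_le_ofReal ?_)
      have h2 : 1 ≤ s ^ c' := Real.one_le_rpow h1.le hc'0.le
      have h3 : 0 ≤ 2 * Real.pi * C₀ + C₁ * (N + 1) * (2 * Real.pi) ^ y := by positivity
      calc (2 * Real.pi) ^ (y + 1) ≤ 2 * Real.pi * C₀ + C₁ * (N + 1) * (2 * Real.pi) ^ y +
            (2 * Real.pi) ^ (y + 1) := by linarith
        _ ≤ _ := le_mul_of_one_le_right (by positivity) h2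
    · obtain ⟨j, hj⟩ := exists_coeff q N (hq 0)
      set σ := √s with hσ'
      have hσ : 0 < σ := Real.sqrt_pos.2 hs
      have hσs : σ ^ 2 = s := Real.sq_sqrt hs.le
      have hE := ih ((finSuccEquiv ℂ y q).coeff j)
        (fun i => (degreeOf_coeff_finSuccEquiv q i j).trans (hq _)) σ hσ
      have hEm : MeasurableSet (SS y ((finSuccEquiv ℂ y q).coeff j) σ) := meas_SS _ _ _
      have hE' : volume (SS y ((finSuccEquiv ℂ y q).coeff j) σ) ≤
          ENNReal.ofReal (C₀ * σ ^ c) := hE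
      set E' := SS y ((finSuccEquiv ℂ y q).coeff j) σ with hEd
      show volume (SS (y + 1) q s) ≤ _
      rw [vol_succ y _ (meas_SS _ _ _)]
      have hb : ∀ θ' : Fin y → ℝ,
          volume {θ : ℝ | (Fin.cons θ θ' : Fin (y + 1) → ℝ) ∈ SS (y + 1) q s} ≤
          E'.indicator (fun _ => ENNReal.ofReal (2 * Real.pi)) θ' +
          (Bx y).indicator
            (fun _ => ENNReal.ofReal (C₁ * (σ * (N + 1)) ^ ((1:ℝ) / (N + 1)))) θ' := by
        intro θ'
        by_cases h2 : θ' ∈ Bx y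
        · by_cases h3 : θ' ∈ E'
          · rw [Set.indicator_of_mem h3]
            refine le_trans ?_ le_self_add
            have h4 : {θ : ℝ | (Fin.cons θ θ' : Fin (y + 1) → ℝ) ∈ SS (y + 1) q s} ⊆
                Set.Ioc (-Real.pi) Real.pi := fun θ hθ => hθ.1 0
            refine (measure_mono h4).trans ?_
            rw [Real.volume_Ioc]
            apply ENNReal.ofReal_le_ofReal
            linarith
          · rw [Set.indicator_of_mem h2]
            exact (sec_bound hC1 q hq hj hσ hσs θ' h2 h3).trans le_add_self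
        · have h4 : {θ : ℝ | (Fin.cons θ θ' : Fin (y + 1) → ℝ) ∈ SS (y + 1) q s} = ∅ := by
            rw [Set.eq_empty_iff_forall_notMem]
            intro θ hθ
            exact h2 fun i => hθ.1 i.succ
          rw [h4, measure_empty]
          exact zero_le
      refine (lintegral_mono hb).trans ?_
      rw [lintegral_add_left (measurable_const.indicator hEm), lintegral_indicator_const hEm,
        lintegral_indicator_const (meas_Bx y), vol_Bx]
      refine (add_le_add_left (mul_le_mul_right hE' _) _).trans ?_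
      rw [← ENNReal.ofReal_mul (by positivity), ← ENNReal.ofReal_mul (by positivity),
        ← ENNReal.ofReal_add (by positivity) (by positivity)]
      apply ENNReal.ofReal_le_ofReal
      have h5 : σ ^ c ≤ s ^ c' := by
        rw [hσ', Real.sqrt_eq_rpow, ← Real.rpow_mul hs.le]
        refine Real.rpow_le_rpow_of_exponent_ge hs h1 ?_
        rw [hc']
        refine (min_le_left _ _).trans (le_of_eq ?_)
        ring
      have h6 : (σ * (N + 1)) ^ ((1:ℝ) / (N + 1)) ≤ (N + 1) * s ^ c' := by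
        rw [Real.mul_rpow hσ.le hN.le, mul_comm]
        refine mul_le_mul ?_ ?_ (Real.rpow_nonneg hσ.le _) hN.le
        · calc (N + 1 : ℝ) ^ ((1:ℝ) / (N + 1)) ≤ (N + 1 : ℝ) ^ (1 : ℝ) := by
                refine Real.rpow_le_rpow_of_exponent_le hN1 ?_
                rw [div_le_one hN]
                exact hN1
            _ = N + 1 := Real.rpow_one _
        · rw [hσ', Real.sqrt_eq_rpow, ← Real.rpow_mul hs.le]
          refine Real.rpow_le_rpow_of_exponent_ge hs h1 ?_
          rw [hc']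
          refine (min_le_right _ _).trans (le_of_eq ?_)
          field_simp
      have h7 : 0 ≤ s ^ c' := Real.rpow_nonneg hs.le _
      have h8 : 2 * Real.pi * (C₀ * σ ^ c) ≤ 2 * Real.pi * C₀ * s ^ c' := by
        rw [← mul_assoc]
        exact mul_le_mul_of_nonneg_left h5 (by positivity)
      have h9 : C₁ * (σ * (N + 1)) ^ ((1:ℝ) / (N + 1)) * (2 * Real.pi) ^ y ≤
          C₁ * (N + 1) * (2 * Real.pi) ^ y * s ^ c' := by
        have h10 : C₁ * (σ * (N + 1)) ^ ((1:ℝ) / (N + 1)) ≤ C₁ * ((N + 1) * s ^ c') :=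
          mul_le_mul_of_nonneg_left h6 hC₁.le
        calc _ ≤ C₁ * ((N + 1) * s ^ c') * (2 * Real.pi) ^ y :=
              mul_le_mul_of_nonneg_right h10 (by positivity)
          _ = _ := by ring
      have h10 : 0 ≤ (2 * Real.pi) ^ (y + 1) * s ^ c' := by positivity
      calc _ ≤ 2 * Real.pi * C₀ * s ^ c' + C₁ * (N + 1) * (2 * Real.pi) ^ y * s ^ c' :=
            add_le_add h8 h9
        _ ≤ _ := by
            rw [add_mul, add_mul]
            linarith

end Pool.Agent.EXI
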