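import Pool.Agent.EXI.TANu
import Pool.Agent.EXI.TASub

/-!
# EXI / TAExc: exceptional sets

PROOF of `exc`.  Let `t i = exp (u i + θ i I)`, so `‖t i‖ = exp (u i)`. Then `aeval t B` is the value
at the point `(exp (θ i I))_i` of the polynomial `q_u = ∑_s (B_s exp ⟨u, s⟩) X^s` (over `ℂ`), whose
degrees are at most `N = B.totalDegree`, and `nrm B t` is the sum of the absolute values of the
coefficients of `q_u`. By `subn` the measure of the `θ` is at most `C s^c` for every `u`; by `mu_apply`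
(the set is measurable) `mu y {...} ≤ ∫⁻ u in {|u i| < ρ ∀ i}, C s^c = (2ρ)^y C s^c`.

PROOF of `null`.  On `{t | ∀ i, t i ≠ 0}` one has `nrm B t > 0` (`B ≠ 0`), so for every `ρ ∈ ℕ` and
every `s > 0` the set `{t ∈ LogB y ρ | aeval t B = 0}` has measure `≤ C ρ^y s^c`; let `s → 0`. The
sets `LogB y ρ` cover `{t | ∀ i, t i ≠ 0}`, and `{t | t i = 0}` has measure `0` by `nu_zero`
(`Measure.pi_hyperplane`-like, or `Measure.pi_eq_zero`, quasi measure preserving evaluation).
-/

set_option autoImplicit false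

namespace Pool.Agent.EXI

open MvPolynomial MeasureTheory Pool.Agent.EXL
open scoped ENNReal

private theorem taexc_aeval {K : Subfield ℂ} {y : ℕ} (B : MvPolynomial (Fin y) K)
    (t : Fin y → ℂ) :
    aeval t B = ∑ d ∈ B.support, algebraMap K ℂ (B.coeff d) * ∏ i, t i ^ d i := by
  rw [aeval_def, eval₂_eq']

private theorem taexc_cont {K : Subfield ℂ} {y : ℕ} (B : MvPolynomial (Fin y) K) :
    Continuous fun t : Fin y → ℂ => aeval t B := by
  simp only [taexc_aeval]
  fun_prop

theorem continuous_nrm {K : Subfield ℂ} {y : ℕ} (B : MvPolynomial (Fin y) K) :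
    Continuous (nrm B) := by
  unfold nrm
  fun_prop

/-- the polynomial `q_u` -/
private noncomputable def taexc_q {K : Subfield ℂ} {y : ℕ} (B : MvPolynomial (Fin y) K)
    (u : Fin y → ℝ) : MvPolynomial (Fin y) ℂ :=
  ∑ d ∈ B.support, monomial d (algebraMap K ℂ (B.coeff d) * ∏ i, (Real.exp (u i) : ℂ) ^ d i)

private theorem taexc_coeff {K : Subfield ℂ} {y : ℕ} (B : MvPolynomial (Fin y) K)
    (u : Fin y → ℝ) (m : Fin y →₀ ℕ) :
    (taexc_q B u).coeff m = algebraMap K ℂ (B.coeff m) * ∏ i, (Real.exp (u i) : ℂ) ^ m i := by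
  classical
  rw [taexc_q, coeff_sum]
  simp only [coeff_monomial]
  rw [Finset.sum_ite_eq' B.support m]
  split_ifs with h
  · rfl
  · rw [notMem_support_iff.1 h, map_zero, zero_mul]

private theorem taexc_supp {K : Subfield ℂ} {y : ℕ} (B : MvPolynomial (Fin y) K)
    (u : Fin y → ℝ) : (taexc_q B u).support = B.support := by
  ext m
  rw [mem_support_iff, mem_support_iff, taexc_coeff]
  have h1 : (∏ i, (Real.exp (u i) : ℂ) ^ m i) ≠ 0 :=
    Finset.prod_ne_zero_iff.2 fun i _ => pow_ne_zero _ (by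
      exact_mod_cast (Real.exp_pos (u i)).ne')
  rw [Ne, mul_eq_zero, not_or]
  constructor
  · intro h h0
    exact h.1 (by rw [h0, map_zero])
  · intro h
    refine ⟨fun h0 => h ?_, h1⟩
    exact (map_eq_zero_iff _ (algebraMap K ℂ).injective).1 h0

private theorem taexc_norm (u θ : ℝ) :
    ‖Complex.exp (u + θ * Complex.I)‖ = Real.exp u := by
  rw [Complex.norm_exp]
  simp

private theorem taexc_eval {K : Subfield ℂ} {y : ℕ} (B : MvPolynomial (Fin y) K)
    (u θ : Fin y → ℝ) :
    MvPolynomial.eval (fun i => Complex.exp (θ i * Complex.I)) (taexc_q B u) =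
      aeval (fun i => Complex.exp (u i + θ i * Complex.I)) B := by
  rw [taexc_aeval, taexc_q, map_sum]
  refine Finset.sum_congr rfl fun d _ => ?_
  rw [eval_monomial, mul_assoc]
  congr 1
  rw [Finsupp.prod_fintype _ _ (fun i => pow_zero _), ← Finset.prod_mul_distrib]
  refine Finset.prod_congr rfl fun i _ => ?_
  rw [← mul_pow, Complex.exp_add, Complex.ofReal_exp]

private theorem taexc_nrm {K : Subfield ℂ} {y : ℕ} (B : MvPolynomial (Fin y) K)
    (u θ : Fin y → ℝ) :
    ∑ j ∈ (taexc_q B u).support, ‖(taexc_q B u).coeff j‖ =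
      nrm B (fun i => Complex.exp (u i + θ i * Complex.I)) := by
  rw [taexc_supp, nrm]
  refine Finset.sum_congr rfl fun d _ => ?_
  rw [taexc_coeff, norm_mul]
  congr 1
  rw [norm_prod]
  refine Finset.prod_congr rfl fun i _ => ?_
  rw [norm_pow, taexc_norm, Complex.norm_real, Real.norm_eq_abs, abs_of_pos (Real.exp_pos _)]

theorem exc {K : Subfield ℂ} {y : ℕ} (B : MvPolynomial (Fin y) K) :
    ∃ C > (0:ℝ), ∃ c > (0:ℝ), ∀ ρ : ℝ, 0 ≤ ρ → ∀ s : ℝ, 0 < s →
    mu y {t | t ∈ LogB y ρ ∧ ‖aeval t B‖ < s * nrm B t} ≤ ENNReal.ofReal (C * ρ ^ y * s ^ c) := by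
  obtain ⟨C, hC, c, hc, H⟩ := subn y (B.support.sup fun m => ∑ i, m i)
  refine ⟨2 ^ y * C, by positivity, c, hc, fun ρ hρ s hs => ?_⟩
  have hmeas : MeasurableSet {t : Fin y → ℂ | t ∈ LogB y ρ ∧ ‖aeval t B‖ < s * nrm B t} := by
    refine (measurableSet_LogB y ρ).inter ?_
    exact measurableSet_lt (taexc_cont B).norm.measurable
      ((continuous_nrm B).const_mul s |>.measurable)
  rw [mu_apply y _ hmeas]
  have hdeg : ∀ u : Fin y → ℝ, ∀ i, (taexc_q B u).degreeOf i ≤
      B.support.sup fun m => ∑ i, m i := by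
    intro u i
    rw [degreeOf_le_iff]
    intro m hm
    rw [taexc_supp] at hm
    exact (Finset.single_le_sum (f := fun i => m i) (fun _ _ => Nat.zero_le _)
      (Finset.mem_univ i)).trans (Finset.le_sup (f := fun m : Fin y →₀ ℕ => ∑ i, m i) hm)
  have h1 : ∀ u : Fin y → ℝ, volume {θ : Fin y → ℝ | (∀ i, θ i ∈ Set.Ioc (-Real.pi) Real.pi) ∧
      (fun i => Complex.exp (u i + θ i * Complex.I)) ∈
        {t : Fin y → ℂ | t ∈ LogB y ρ ∧ ‖aeval t B‖ < s * nrm B t}} ≤
      (Set.pi Set.univ fun _ : Fin y => Set.Ioo (-ρ) ρ).indicator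
        (fun _ => ENNReal.ofReal (C * s ^ c)) u := by
    intro u
    by_cases hu : u ∈ Set.pi Set.univ fun _ : Fin y => Set.Ioo (-ρ) ρ
    · rw [Set.indicator_of_mem hu]
      refine le_trans (measure_mono ?_) (H (taexc_q B u) (hdeg u) s hs)
      rintro θ ⟨h2, -, h3⟩
      refine ⟨h2, ?_⟩
      rw [taexc_eval, taexc_nrm B u θ]
      exact h3
    · rw [Set.indicator_of_notMem hu]
      rw [nonpos_iff_eq_zero]
      convert measure_empty (μ := (volume : Measure (Fin y → ℝ)))
      rw [Set.eq_empty_iff_forall_notMem]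
      rintro θ ⟨-, h2, -⟩
      apply hu
      intro i _
      have h3 := (h2 i).2
      rw [taexc_norm, Real.log_exp] at h3
      exact abs_lt.1 h3
  refine (lintegral_mono h1).trans ?_
  rw [lintegral_indicator_const (MeasurableSet.univ_pi fun _ => measurableSet_Ioo),
    Real.volume_pi_Ioo, Finset.prod_const, Finset.card_univ, Fintype.card_fin,
    ← ENNReal.ofReal_pow (by linarith), ← ENNReal.ofReal_mul (by positivity)]
  refine le_of_eq (congrArg _ ?_)
  have : ρ - -ρ = 2 * ρ := by ring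
  rw [this, mul_pow]
  ring

private instance taexc_nsc : NullSingletonClass nu :=
  ⟨fun x => withDensity_absolutelyContinuous _ _ (measure_singleton x)⟩

theorem null {K : Subfield ℂ} {y : ℕ} (B : MvPolynomial (Fin y) K) (hB : B ≠ 0) :
    mu y {t | aeval t B = 0} = 0 := by
  have hsub : {t : Fin y → ℂ | aeval t B = 0} ⊆ (⋃ i, {t : Fin y → ℂ | t i = 0}) ∪
      ⋃ n : ℕ, {t | t ∈ LogB y n ∧ aeval t B = 0} := by
    intro t ht
    by_cases h : ∀ i, t i ≠ 0
    · right
      obtain ⟨n, hn⟩ := exists_nat_gt (∑ i, |Real.log ‖t i‖|)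
      refine Set.mem_iUnion.2 ⟨n, fun i => ⟨h i, lt_of_le_of_lt ?_ hn⟩, ht⟩
      exact Finset.single_le_sum (f := fun i => |Real.log ‖t i‖|) (fun _ _ => abs_nonneg _)
        (Finset.mem_univ i)
    · left
      push Not at h
      obtain ⟨i, hi⟩ := h
      exact Set.mem_iUnion.2 ⟨i, hi⟩
  refine measure_mono_null hsub (measure_union_null ?_ ?_)
  · refine measure_iUnion_null fun i => ?_
    exact Measure.pi_hyperplane (fun _ => nu) i 0
  · refine measure_iUnion_null fun n => ?_
    obtain ⟨C, hC, c, hc, H⟩ := exc B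
    have hn : (0 : ℝ) ≤ n := Nat.cast_nonneg n
    have hD : 0 < C * (n : ℝ) ^ y + 1 := by positivity
    rw [← nonpos_iff_eq_zero]
    refine ENNReal.le_of_forall_pos_le_add fun ε hε _ => ?_
    have hε' : (0 : ℝ) < ε := hε
    rw [zero_add]
    set s : ℝ := (ε / (C * (n : ℝ) ^ y + 1)) ^ (1 / c) with hs
    have hs0 : 0 < s := Real.rpow_pos_of_pos (by positivity) _
    have hsc : s ^ c = ε / (C * (n : ℝ) ^ y + 1) := by
      rw [hs, ← Real.rpow_mul (by positivity), one_div_mul_cancel hc.ne', Real.rpow_one]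
    refine le_trans (measure_mono ?_) ((H n hn s hs0).trans ?_)
    · rintro t ⟨h1, h2⟩
      refine ⟨h1, ?_⟩
      rw [h2, norm_zero]
      refine mul_pos hs0 (Finset.sum_pos (fun d hd => ?_) ?_)
      · refine mul_pos (norm_pos_iff.2 fun h0 => ?_)
          (Finset.prod_pos fun i _ => pow_pos (norm_pos_iff.2 (h1 i).1) _)
        exact mem_support_iff.1 hd ((map_eq_zero_iff _ (algebraMap K ℂ).injective).1 h0)
      · exact Finset.nonempty_iff_ne_empty.2 fun h0 => hB (support_eq_empty.1 h0)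
    · rw [hsc]
      calc ENNReal.ofReal (C * (n : ℝ) ^ y * (ε / (C * (n : ℝ) ^ y + 1))) ≤
          ENNReal.ofReal ε := by
            refine ENNReal.ofReal_le_ofReal ?_
            rw [mul_div_assoc', div_le_iff₀ hD]
            nlinarith
        _ = ε := ENNReal.ofReal_coe_nnreal

end Pool.Agent.EXI
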