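import Pool.Agent.EXI.TADefs

/-!
# EXI / TANewt: strict inclusion of Newton polytopes

PROOF.  Let `F u = max_{s' ∈ G} ⟨u, s'⟩ - max_{s ∈ N} ⟨u, s⟩` (if `N = ∅` the statement is trivial with
`c = 1`). `F` is continuous and positively homogeneous.
(1) `F u > 0` for every real `u ≠ 0`. Suppose not: there is `s ∈ N` with `⟨u, s⟩ ≥ ⟨u, s'⟩` for all
`s' ∈ G`, i.e. `⟨u, v⟩ ≥ 0` for the integer vectors `v = s - s'`, `s' ∈ G`. There is then a nonzero
INTEGER vector `m` with `⟨m, v⟩ ≥ 0` for all these `v` (rational approximation, see below); apply `h`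
to `-m`: there is `s' ∈ G` with `⟨-m, s'⟩ < ⟨-m, s⟩`, i.e. `⟨m, s - s'⟩ < 0`, a contradiction.
Rational approximation: the `ℚ`-span of the coordinates of `u` is finite dimensional; let `e_1..e_r` be
a basis (real numbers, linearly independent over `ℚ`), `u = ∑ e_k y_k` with `y_k ∈ ℚ^y`. For an
integer vector `v`: `⟨u, v⟩ = ∑ e_k ⟨y_k, v⟩`, so `⟨u, v⟩ = 0` implies `⟨y_k, v⟩ = 0` for all `k`. Take
rational `e'_k` close to `e_k` and `u' = ∑ e'_k y_k ∈ ℚ^y`: the `v` with `⟨u, v⟩ = 0` have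
`⟨u', v⟩ = 0`, the finitely many `v` with `⟨u, v⟩ > 0` have `⟨u', v⟩ > 0`, and `u' ≠ 0` as `u ≠ 0`
(closeness). Clear denominators.
(2) If `y = 0` the conclusion is void in `i`. Otherwise `F` has a positive minimum `c` on the compact
set `{u | max |u i| = 1}` (`isCompact_sphere` of `Fin y → ℝ` with the sup norm), so `F u ≥ c ‖u‖` by
homogeneity, and `|u i| ≤ ‖u‖`.
-/

set_option autoImplicit false

namespace Pool.Agent.EXI

open MvPolynomial MeasureTheory Pool.Agent.EXL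
open scoped ENNReal

private theorem rat_approx {y : ℕ} (u : Fin y → ℝ) (V : Finset (Fin y → ℤ)) :
    ∃ u' : Fin y → ℚ, (∀ v ∈ V, 0 ≤ ∑ i, u i * (v i : ℝ) → 0 ≤ ∑ i, u' i * (v i : ℚ)) ∧
      (∀ v ∈ V, 0 < ∑ i, u i * (v i : ℝ) → 0 < ∑ i, u' i * (v i : ℚ)) := by
  classical
  set W : Submodule ℚ ℝ := Submodule.span ℚ (Set.range u) with hW
  have : Module.Finite ℚ W := Module.Finite.span_of_finite ℚ (Set.finite_range u)
  set n := Module.finrank ℚ W
  let b : Module.Basis (Fin n) ℚ W := Module.finBasis ℚ W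
  let uw : Fin y → W := fun i => ⟨u i, Submodule.subset_span ⟨i, rfl⟩⟩
  let w : (Fin y → ℤ) → W := fun v => ∑ i, (v i : ℚ) • uw i
  have hw : ∀ v, ((w v : W) : ℝ) = ∑ i, u i * (v i : ℝ) := by
    intro v
    show ((∑ i, (v i : ℚ) • uw i : W) : ℝ) = _
    rw [Submodule.coe_sum]
    refine Finset.sum_congr rfl fun i _ => ?_
    rw [Submodule.coe_smul, Rat.smul_def]
    push_cast
    ring
  let g : W → (Fin n → ℝ) → ℝ := fun x e => ∑ k, ((b.repr x k : ℚ) : ℝ) * e k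
  have hg : ∀ x, Continuous (g x) := by
    intro x
    show Continuous fun e : Fin n → ℝ => ∑ k, ((b.repr x k : ℚ) : ℝ) * e k
    fun_prop
  have hg0 : ∀ x, g x (fun k => (b k : ℝ)) = (x : ℝ) := by
    intro x
    conv_rhs => rw [← b.sum_repr x]
    rw [Submodule.coe_sum]
    refine Finset.sum_congr rfl fun k _ => ?_
    rw [Submodule.coe_smul, Rat.smul_def]
  let V' := V.filter fun v => 0 < ((w v : W) : ℝ)
  let U : Set (Fin n → ℝ) := ⋂ v ∈ V', {e | 0 < g (w v) e}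
  have hU : IsOpen U := by
    refine isOpen_biInter_finset fun v _ => ?_
    exact isOpen_lt continuous_const (hg _)
  have hUne : U.Nonempty := by
    refine ⟨fun k => (b k : ℝ), ?_⟩
    rw [Set.mem_iInter₂]
    intro v hv
    show 0 < g (w v) (fun k => (b k : ℝ))
    rw [hg0]
    exact (Finset.mem_filter.1 hv).2
  have hD : DenseRange (Pi.map (fun (_ : Fin n) (r : ℚ) => (r : ℝ))) :=
    DenseRange.piMap fun _ => Rat.denseRange_cast
  obtain ⟨e', he'⟩ := hD.exists_mem_open hU hUne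
  let φ : W →ₗ[ℚ] ℚ := b.constr ℚ e'
  have hφ : ∀ x, ((φ x : ℚ) : ℝ) = g x (Pi.map (fun (_ : Fin n) (r : ℚ) => (r : ℝ)) e') := by
    intro x
    show (((b.constr ℚ e') x : ℚ) : ℝ) = _
    rw [b.constr_apply_fintype ℚ]
    push_cast
    refine Finset.sum_congr rfl fun k _ => ?_
    simp [Pi.map]
  have hφw : ∀ v, φ (w v) = ∑ i, φ (uw i) * (v i : ℚ) := by
    intro v
    show φ (∑ i, (v i : ℚ) • uw i) = _
    rw [map_sum]
    refine Finset.sum_congr rfl fun i _ => ?_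
    rw [map_smul, smul_eq_mul, mul_comm]
  have hpos : ∀ v ∈ V, 0 < ∑ i, u i * (v i : ℝ) → 0 < ∑ i, φ (uw i) * (v i : ℚ) := by
    intro v hv h
    rw [← hw] at h
    rw [← hφw]
    have h1 := Set.mem_iInter₂.1 he' v (Finset.mem_filter.2 ⟨hv, h⟩)
    have h2 : (0 : ℝ) < ((φ (w v) : ℚ) : ℝ) := by
      rw [hφ]
      exact h1
    exact_mod_cast h2
  refine ⟨fun i => φ (uw i), ?_, hpos⟩
  intro v hv h
  rcases h.lt_or_eq with h1 | h1
  · exact (hpos v hv h1).le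
  · rw [← hw] at h1
    have h2 : w v = 0 := Subtype.ext h1.symm
    rw [← hφw, h2, map_zero]

private theorem int_approx {y : ℕ} (u : Fin y → ℝ) (hu : u ≠ 0) (V : Finset (Fin y → ℤ))
    (hV : ∀ v ∈ V, 0 ≤ ∑ i, u i * (v i : ℝ)) :
    ∃ m : Fin y → ℤ, m ≠ 0 ∧ ∀ v ∈ V, 0 ≤ ∑ i, m i * v i := by
  classical
  obtain ⟨i₀, hi₀⟩ : ∃ i, u i ≠ 0 := by
    by_contra hcon
    push Not at hcon
    exact hu (funext hcon)
  obtain ⟨u', h1, h2⟩ := rat_approx u
    (V ∪ {(Pi.single i₀ 1 : Fin y → ℤ), (Pi.single i₀ (-1) : Fin y → ℤ)})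
  have hs : ∀ a : ℤ, ∑ i, u i * (((Pi.single i₀ a : Fin y → ℤ) i : ℤ) : ℝ) = u i₀ * a := by
    intro a
    rw [Finset.sum_eq_single i₀]
    · simp
    · intro i _ hi
      simp [Pi.single_eq_of_ne hi]
    · simp
  have hs' : ∀ a : ℤ, ∑ i, u' i * (((Pi.single i₀ a : Fin y → ℤ) i : ℤ) : ℚ) = u' i₀ * a := by
    intro a
    rw [Finset.sum_eq_single i₀]
    · simp
    · intro i _ hi
      simp [Pi.single_eq_of_ne hi]
    · simp
  have hu' : u' i₀ ≠ 0 := by
    rcases lt_or_gt_of_ne hi₀ with h3 | h3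
    · have h4 := h2 (Pi.single i₀ (-1)) (by simp) (by
        rw [hs]
        push_cast
        linarith)
      rw [hs'] at h4
      push_cast at h4
      intro h5
      rw [h5] at h4
      norm_num at h4
    · have h4 := h2 (Pi.single i₀ 1) (by simp) (by
        rw [hs]
        push_cast
        linarith)
      rw [hs'] at h4
      push_cast at h4
      intro h5
      rw [h5] at h4
      norm_num at h4
  set D : ℕ := ∏ j, (u' j).den with hD
  have hD0 : (0 : ℚ) < D := by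
    have : 0 < D := Finset.prod_pos fun j _ => (u' j).den_pos
    exact_mod_cast this
  have hm : ∀ i, ∃ mi : ℤ, (mi : ℚ) = D * u' i := by
    intro i
    obtain ⟨k, hk⟩ : (u' i).den ∣ D := Finset.dvd_prod_of_mem _ (Finset.mem_univ i)
    refine ⟨k * (u' i).num, ?_⟩
    rw [hk]
    push_cast
    have h3 := Rat.den_mul_eq_num (u' i)
    rw [← h3]
    ring
  choose m hm using hm
  refine ⟨m, ?_, ?_⟩
  · intro h3
    have h4 := hm i₀
    rw [h3] at h4
    simp only [Pi.zero_apply, Int.cast_zero] at h4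
    exact mul_ne_zero hD0.ne' hu' h4.symm
  · intro v hv
    have h3 := h1 v (Finset.mem_union_left _ hv) (hV v hv)
    have h4 : ((∑ i, m i * v i : ℤ) : ℚ) = D * ∑ i, u' i * (v i : ℚ) := by
      push_cast
      rw [Finset.mul_sum]
      refine Finset.sum_congr rfl fun i _ => ?_
      rw [hm]
      ring
    have h5 : (0 : ℚ) ≤ ((∑ i, m i * v i : ℤ) : ℚ) := by
      rw [h4]
      exact mul_nonneg hD0.le h3
    exact_mod_cast h5

private theorem pos_claim {y : ℕ} (N G : Finset (Fin y →₀ ℕ)) (hG : G.Nonempty)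
    (h : ∀ m : Fin y → ℤ, m ≠ 0 → ∃ s' ∈ G, ∀ s ∈ N,
      ∑ i, m i * (s' i : ℤ) < ∑ i, m i * (s i : ℤ)) (u : Fin y → ℝ) (hu : u ≠ 0) :
    ∃ s' ∈ G, ∀ s ∈ N, ∑ i, u i * (s i : ℝ) < ∑ i, u i * (s' i : ℝ) := by
  classical
  by_contra hcon
  push Not at hcon
  obtain ⟨g, hg⟩ := hG
  obtain ⟨s₁, hs₁, _⟩ := hcon g hg
  obtain ⟨s₀, hs₀, hmax⟩ := Finset.exists_max_image N
    (fun s : Fin y →₀ ℕ => ∑ i, u i * (s i : ℝ)) ⟨s₁, hs₁⟩
  obtain ⟨m, hm0, hm⟩ := int_approx u hu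
    (G.image fun s' : Fin y →₀ ℕ => fun i => (s₀ i : ℤ) - (s' i : ℤ)) (by
      intro v hv
      obtain ⟨s', hs', rfl⟩ := Finset.mem_image.1 hv
      obtain ⟨s, hs, hle⟩ := hcon s' hs'
      have h1 := hle.trans (hmax s hs)
      have h2 : ∑ i, u i * (((s₀ i : ℤ) - (s' i : ℤ) : ℤ) : ℝ) =
          ∑ i, u i * (s₀ i : ℝ) - ∑ i, u i * (s' i : ℝ) := by
        rw [← Finset.sum_sub_distrib]
        refine Finset.sum_congr rfl fun i _ => ?_
        push_cast
        ring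
      rw [h2]
      linarith)
  obtain ⟨s', hs', h1⟩ := h (-m) (neg_ne_zero.2 hm0)
  have h2 := h1 s₀ hs₀
  have h3 := hm _ (Finset.mem_image_of_mem _ hs')
  have h4 : ∑ i, m i * ((s₀ i : ℤ) - (s' i : ℤ)) =
      ∑ i, (-m) i * (s' i : ℤ) - ∑ i, (-m) i * (s₀ i : ℤ) := by
    rw [← Finset.sum_sub_distrib]
    refine Finset.sum_congr rfl fun i _ => ?_
    rw [Pi.neg_apply]
    ring
  rw [h4] at h3
  linarith

theorem newt {y : ℕ} (N G : Finset (Fin y →₀ ℕ)) (hG : G.Nonempty)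
    (h : ∀ m : Fin y → ℤ, m ≠ 0 → ∃ s' ∈ G, ∀ s ∈ N,
      ∑ i, m i * (s' i : ℤ) < ∑ i, m i * (s i : ℤ)) :
    ∃ c > (0:ℝ), ∀ u : Fin y → ℝ, ∃ s' ∈ G, ∀ s ∈ N, ∀ i,
      ∑ i, u i * (s i : ℝ) ≤ ∑ i, u i * (s' i : ℝ) - c * |u i| := by
  rcases N.eq_empty_or_nonempty with hN | hN
  · refine ⟨1, one_pos, fun u => ?_⟩
    obtain ⟨g, hg⟩ := hG
    refine ⟨g, hg, fun s hs => ?_⟩
    rw [hN] at hs
    exact absurd hs (Finset.notMem_empty s)
  have hzero : ∀ c : ℝ, ∃ s' ∈ G, ∀ s ∈ N, ∀ i : Fin y,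
      ∑ i, (0 : Fin y → ℝ) i * (s i : ℝ) ≤
        ∑ i, (0 : Fin y → ℝ) i * (s' i : ℝ) - c * |(0 : Fin y → ℝ) i| := by
    intro c
    obtain ⟨g, hg⟩ := hG
    refine ⟨g, hg, fun s _ i => ?_⟩
    simp
  have hsph : ∀ u : Fin y → ℝ, u ≠ 0 → ‖u‖⁻¹ • u ∈ Metric.sphere (0 : Fin y → ℝ) 1 := by
    intro u hu
    rw [mem_sphere_zero_iff_norm, norm_smul, norm_inv, norm_norm]
    exact inv_mul_cancel₀ (norm_ne_zero_iff.2 hu)
  rcases (Metric.sphere (0 : Fin y → ℝ) 1).eq_empty_or_nonempty with hK | hK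
  · refine ⟨1, one_pos, fun u => ?_⟩
    by_cases hu : u = 0
    · rw [hu]
      exact hzero 1
    · have := hsph u hu
      rw [hK] at this
      exact absurd this (Set.notMem_empty _)
  set F : (Fin y → ℝ) → ℝ := fun u => G.sup' hG fun s' => N.inf' hN fun s =>
    ∑ i, u i * (s' i : ℝ) - ∑ i, u i * (s i : ℝ) with hF
  have hFc : Continuous F := by
    rw [hF]
    refine Continuous.finset_sup'_apply hG fun s' _ => ?_
    refine Continuous.finset_inf'_apply hN fun s _ => ?_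
    fun_prop
  obtain ⟨u₀, hu₀, hmin⟩ := (isCompact_sphere (0 : Fin y → ℝ) 1).exists_isMinOn hK
    hFc.continuousOn
  have hu₀0 : u₀ ≠ 0 := by
    intro h0
    rw [h0, mem_sphere_zero_iff_norm, norm_zero] at hu₀
    exact zero_ne_one hu₀
  refine ⟨F u₀, ?_, fun u => ?_⟩
  · obtain ⟨s', hs', hlt⟩ := pos_claim N G hG h u₀ hu₀0
    rw [hF]
    show 0 < G.sup' hG _
    rw [Finset.lt_sup'_iff]
    refine ⟨s', hs', ?_⟩
    rw [Finset.lt_inf'_iff]
    intro s hs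
    have := hlt s hs
    linarith
  · by_cases hu : u = 0
    · rw [hu]
      exact hzero _
    · have h1 : F u₀ ≤ F (‖u‖⁻¹ • u) := hmin (hsph u hu)
      have h2 : F u₀ ≤ G.sup' hG fun s' => N.inf' hN fun s =>
        ∑ i, (‖u‖⁻¹ • u) i * (s' i : ℝ) - ∑ i, (‖u‖⁻¹ • u) i * (s i : ℝ) := h1
      rw [Finset.le_sup'_iff] at h2
      obtain ⟨s', hs', h3⟩ := h2
      rw [Finset.le_inf'_iff] at h3
      refine ⟨s', hs', fun s hs i => ?_⟩
      have h4 := h3 s hs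
      have hn : 0 < ‖u‖ := norm_pos_iff.2 hu
      have h5 : ∀ r : Fin y →₀ ℕ, ∑ i, (‖u‖⁻¹ • u) i * (r i : ℝ) =
          ‖u‖⁻¹ * ∑ i, u i * (r i : ℝ) := by
        intro r
        rw [Finset.mul_sum]
        refine Finset.sum_congr rfl fun i _ => ?_
        rw [Pi.smul_apply, smul_eq_mul, mul_assoc]
      rw [h5, h5, ← mul_sub] at h4
      have h6 : ‖u‖ * F u₀ ≤ ∑ i, u i * (s' i : ℝ) - ∑ i, u i * (s i : ℝ) := by
        calc ‖u‖ * F u₀ ≤ ‖u‖ * (‖u‖⁻¹ * (∑ i, u i * (s' i : ℝ) - ∑ i, u i * (s i : ℝ))) :=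
              mul_le_mul_of_nonneg_left h4 hn.le
          _ = _ := by
              rw [← mul_assoc, mul_inv_cancel₀ hn.ne', one_mul]
      have hc : 0 ≤ F u₀ := by
        obtain ⟨s', hs', hlt⟩ := pos_claim N G hG h u₀ hu₀0
        rw [hF]
        show 0 ≤ G.sup' hG _
        rw [Finset.le_sup'_iff]
        refine ⟨s', hs', ?_⟩
        rw [Finset.le_inf'_iff]
        intro s hs
        have := hlt s hs
        linarith
      have h7 : F u₀ * |u i| ≤ ‖u‖ * F u₀ := by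
        rw [mul_comm]
        refine mul_le_mul_of_nonneg_right ?_ hc
        rw [← Real.norm_eq_abs]
        exact norm_le_pi_norm u i
      linarith

end Pool.Agent.EXI
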