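import Pool.Agent.EXI.TAExc
import Pool.Agent.EXI.TANewt

/-!
# EXI / TAFar: the estimate far from the origin

PROOF.  Let `u i = log ‖t i‖`. `newt` for the union of the supports of the `N i` and for `G.support`
gives `c₁ > 0`: for every `u` there is `s' ∈ G.support` with `⟨u, s⟩ ≤ ⟨u, s'⟩ - c₁ |u i|` for all `i`
and all `s` in the supports. For `t ∈ LogB y ρ`, `t ∉ LogB y (c₀ ρ)` some `|u i| ≥ c₀ ρ`. So
`‖aeval t (N i)‖ ≤ A exp(⟨u, s'⟩ - c₁ c₀ ρ)`, with `A` the maximal sum of the absolute values of the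
coefficients, and `nrm G t ≥ γ exp ⟨u, s'⟩` with `γ > 0` the smallest absolute value of a coefficient
of `G`. Let `σ = exp(-c₁ c₀ ρ / 2)`, `E = {t ∈ LogB y ρ | ‖aeval t G‖ < σ nrm G t}` (measurable). By
`exc` `mu y E ≤ C₂ ρ^y exp(-c₂ c₁ c₀ ρ/2) ≤ C exp(-c ρ)`. For `t ∉ E`:
`‖aeval t (N i)‖ ≤ (A/γ) exp(-c₁ c₀ ρ/2) ‖aeval t G‖ =: η ‖aeval t G‖`, `aeval t G ≠ 0`. Root bound:
`‖R‖^d ≤ η ∑_{i<d} ‖R‖^i`. If `d η < 1` then `‖R‖ < 1` (otherwise `‖R‖^d ≤ d η ‖R‖^(d-1)`), so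
`‖R‖^d ≤ d η` and `‖R‖ ≤ (dη)^(1/d)`, of the form `C exp(-c ρ)`. If `d η ≥ 1` (only for bounded `ρ`)
`‖R‖ ≤ max 1 (dη) ≤ constant`, so enlarge `C`. (In general `‖R‖ ≤ max (dη) ((dη)^(1/d))`.)
-/

set_option autoImplicit false

namespace Pool.Agent.EXI

open MvPolynomial MeasureTheory Pool.Agent.EXL
open scoped ENNReal

private lemma tf_aeval_eq {K : Subfield ℂ} {y : ℕ} (B : MvPolynomial (Fin y) K)
    (t : Fin y → ℂ) :
    aeval t B = ∑ s ∈ B.support, algebraMap K ℂ (B.coeff s) * ∏ i, t i ^ (s i) := by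
  rw [aeval_def, eval₂_eq']

private lemma tf_cont {K : Subfield ℂ} {y : ℕ} (B : MvPolynomial (Fin y) K) :
    Continuous fun t : Fin y → ℂ => aeval t B := by
  have h : (fun t : Fin y → ℂ => aeval t B) = fun t : Fin y → ℂ =>
      ∑ s ∈ B.support, algebraMap K ℂ (B.coeff s) * ∏ i, t i ^ (s i) := by
    funext t
    exact tf_aeval_eq B t
  rw [h]
  fun_prop

private lemma tf_le_nrm {K : Subfield ℂ} {y : ℕ} (B : MvPolynomial (Fin y) K)
    (t : Fin y → ℂ) : ‖aeval t B‖ ≤ nrm B t := by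
  rw [tf_aeval_eq, nrm]
  refine (norm_sum_le _ _).trans (le_of_eq ?_)
  refine Finset.sum_congr rfl fun s _ => ?_
  rw [norm_mul, norm_prod]
  simp only [norm_pow]

/-- a monomial on `LogB` -/
private lemma tf_mono {y : ℕ} {r : ℝ} {t : Fin y → ℂ} (ht : t ∈ LogB y r) (s : Fin y →₀ ℕ) :
    ∏ i, ‖t i‖ ^ (s i) = Real.exp (∑ i, Real.log ‖t i‖ * (s i : ℝ)) := by
  have h1 : ∀ i, 0 < ‖t i‖ := fun i => norm_pos_iff.2 (ht i).1
  rw [Real.exp_sum]
  refine Finset.prod_congr rfl fun i _ => ?_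
  rw [mul_comm, Real.exp_nat_mul, Real.exp_log (h1 i)]

private lemma tf_pow_exp (y : ℕ) (c : ℝ) (hc : 0 < c) :
    ∃ Q > (0:ℝ), ∀ ρ : ℝ, 0 ≤ ρ → ρ ^ y * Real.exp (-(c * ρ)) ≤ Q := by
  refine ⟨(y.factorial : ℝ) / c ^ y, by positivity, fun ρ hρ => ?_⟩
  have h1 := Real.pow_div_factorial_le_exp (c * ρ) (by positivity) y
  rw [Real.exp_neg, le_div_iff₀ (by positivity)]
  rw [div_le_iff₀ (by positivity)] at h1
  have h2 := Real.exp_pos (c * ρ)
  calc ρ ^ y * (Real.exp (c * ρ))⁻¹ * c ^ y = (c * ρ) ^ y * (Real.exp (c * ρ))⁻¹ := by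
        rw [mul_pow]; ring
    _ ≤ Real.exp (c * ρ) * (y.factorial : ℝ) * (Real.exp (c * ρ))⁻¹ :=
        mul_le_mul_of_nonneg_right h1 (by positivity)
    _ = (y.factorial : ℝ) := by field_simp

private lemma tf_exc {K : Subfield ℂ} {y : ℕ} (B : MvPolynomial (Fin y) K) (δ : ℝ) (hδ : 0 < δ) :
    ∃ C > (0:ℝ), ∃ c > (0:ℝ), ∀ ρ : ℝ, 0 ≤ ρ →
      mu y {t | t ∈ LogB y ρ ∧ ‖aeval t B‖ < Real.exp (-(δ * ρ)) * nrm B t} ≤
        ENNReal.ofReal (C * Real.exp (-c * ρ)) := by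
  obtain ⟨C, hC, c, hc, h⟩ := exc B
  obtain ⟨Q, hQ0, hQ⟩ := tf_pow_exp y (c * δ / 2) (by positivity)
  refine ⟨C * Q, by positivity, c * δ / 2, by positivity, fun ρ hρ => ?_⟩
  refine (h ρ hρ _ (Real.exp_pos _)).trans ?_
  apply ENNReal.ofReal_le_ofReal
  have h2 : Real.exp (-(δ * ρ)) ^ c = Real.exp (-(c * δ / 2 * ρ)) *
      Real.exp (-(c * δ / 2) * ρ) := by
    rw [← Real.exp_mul, ← Real.exp_add]
    congr 1
    ring
  rw [h2]
  calc C * ρ ^ y * (Real.exp (-(c * δ / 2 * ρ)) * Real.exp (-(c * δ / 2) * ρ))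
      = C * (ρ ^ y * Real.exp (-(c * δ / 2 * ρ))) * Real.exp (-(c * δ / 2) * ρ) := by ring
    _ ≤ C * Q * Real.exp (-(c * δ / 2) * ρ) := by
        refine mul_le_mul_of_nonneg_right ?_ (Real.exp_pos _).le
        exact mul_le_mul_of_nonneg_left (hQ ρ hρ) hC.le

/-- a bound for the roots -/
private lemma tf_root {d : ℕ} (hd : 1 ≤ d) (g : ℂ) (n : Fin d → ℂ) (R : ℂ) (η : ℝ) (hη : 0 ≤ η)
    (hg : g ≠ 0) (h : ∀ i, ‖n i‖ ≤ η * ‖g‖) (hR : g * R ^ d + ∑ i, n i * R ^ (i : ℕ) = 0) :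
    ‖R‖ ≤ d * η ∨ ‖R‖ ^ d ≤ d * η := by
  have hg' : 0 < ‖g‖ := norm_pos_iff.2 hg
  have h3 : ‖g‖ * ‖R‖ ^ d ≤ ∑ i : Fin d, ‖n i‖ * ‖R‖ ^ (i : ℕ) := by
    have h2 : g * R ^ d = -∑ i : Fin d, n i * R ^ (i : ℕ) := eq_neg_of_add_eq_zero_left hR
    have h4 := congrArg norm h2
    rw [norm_mul, norm_pow, norm_neg] at h4
    rw [h4]
    refine (norm_sum_le _ _).trans (le_of_eq ?_)
    refine Finset.sum_congr rfl fun i _ => ?_
    rw [norm_mul, norm_pow]
  rcases le_total 1 ‖R‖ with h1 | h1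
  · left
    have h5 : ‖g‖ * (‖R‖ ^ d * ‖R‖) ≤ ‖g‖ * (d * η * ‖R‖ ^ d) := by
      calc ‖g‖ * (‖R‖ ^ d * ‖R‖) = ‖g‖ * ‖R‖ ^ d * ‖R‖ := by ring
        _ ≤ (∑ i : Fin d, ‖n i‖ * ‖R‖ ^ (i : ℕ)) * ‖R‖ :=
            mul_le_mul_of_nonneg_right h3 (norm_nonneg _)
        _ ≤ ∑ i : Fin d, η * ‖g‖ * ‖R‖ ^ d := by
            rw [Finset.sum_mul]
            refine Finset.sum_le_sum fun i _ => ?_
            rw [mul_assoc, ← pow_succ]
            exact mul_le_mul (h _) (pow_le_pow_right₀ h1 i.2) (by positivity) (by positivity)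
        _ = ‖g‖ * (d * η * ‖R‖ ^ d) := by
            rw [Finset.sum_const, Finset.card_univ, Fintype.card_fin, nsmul_eq_mul]
            ring
    have h6 := le_of_mul_le_mul_left h5 hg'
    have h8 : 0 < ‖R‖ ^ d := by positivity
    rw [mul_comm] at h6
    exact le_of_mul_le_mul_right h6 h8
  · right
    have h5 : ‖g‖ * ‖R‖ ^ d ≤ ‖g‖ * (d * η) := by
      calc ‖g‖ * ‖R‖ ^ d ≤ ∑ i : Fin d, ‖n i‖ * ‖R‖ ^ (i : ℕ) := h3
        _ ≤ ∑ i : Fin d, η * ‖g‖ * 1 := by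
            refine Finset.sum_le_sum fun i _ => ?_
            exact mul_le_mul (h _) (pow_le_one₀ (norm_nonneg _) h1) (by positivity)
              (by positivity)
        _ = ‖g‖ * (d * η) := by
            rw [Finset.sum_const, Finset.card_univ, Fintype.card_fin, nsmul_eq_mul]
            ring
    exact le_of_mul_le_mul_left h5 hg'

theorem far {K : Subfield ℂ} {y d : ℕ} (N : Fin d → MvPolynomial (Fin y) K)
    (hd : 1 ≤ d) (G : MvPolynomial (Fin y) K) (hG : G ≠ 0)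
    (h : ∀ m : Fin y → ℤ, m ≠ 0 → ∃ s' ∈ G.support, ∀ i, ∀ s ∈ (N i).support,
      ∑ i, m i * (s' i : ℤ) < ∑ i, m i * (s i : ℤ)) (c₀ : ℝ) (hc₀ : 0 < c₀) :
    ∃ C > (0:ℝ), ∃ c > (0:ℝ), ∀ ρ : ℝ, 1 ≤ ρ → ∃ E : Set (Fin y → ℂ), MeasurableSet E ∧
      mu y E ≤ ENNReal.ofReal (C * Real.exp (-c * ρ)) ∧
      ∀ t ∈ LogB y ρ, t ∉ E → t ∉ LogB y (c₀ * ρ) → ∀ R : ℂ,
        aeval t G * R ^ d + ∑ i, aeval t (N i) * R ^ (i : ℕ) = 0 →
          ‖R‖ ≤ C * Real.exp (-c * ρ) := by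
  classical
  obtain ⟨c₁, hc₁, hn⟩ := newt (Finset.univ.biUnion fun i => (N i).support) G.support
    (MvPolynomial.support_nonempty.2 hG) (fun m hm => by
      obtain ⟨s', hs', h'⟩ := h m hm
      refine ⟨s', hs', fun s hs => ?_⟩
      obtain ⟨i, -, hi⟩ := Finset.mem_biUnion.1 hs
      exact h' i s hi)
  set δ : ℝ := c₁ * c₀ / 2 with hδ
  have hδ0 : 0 < δ := by positivity
  obtain ⟨C₂, hC₂, c₂, hc₂, hexc⟩ := tf_exc G δ hδ0
  set A : ℝ := ∑ i, ∑ s ∈ (N i).support, ‖algebraMap K ℂ ((N i).coeff s)‖ with hA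
  set D : ℝ := ∑ s ∈ G.support, ‖algebraMap K ℂ (G.coeff s)‖⁻¹ with hD
  have hA0 : 0 ≤ A := Finset.sum_nonneg fun i _ => Finset.sum_nonneg fun s _ => norm_nonneg _
  have hD0 : 0 ≤ D := Finset.sum_nonneg fun s _ => by positivity
  set Q : ℝ := d * (A * D) with hQ
  have hQ0 : 0 ≤ Q := by positivity
  have hd0 : (0 : ℝ) < d := by exact_mod_cast hd
  refine ⟨C₂ + (1 + Q), by positivity, min c₂ (δ / d), lt_min hc₂ (by positivity),
    fun ρ hρ => ?_⟩
  have hρ0 : 0 ≤ ρ := by linarith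
  have hmin1 : Real.exp (-c₂ * ρ) ≤ Real.exp (-(min c₂ (δ / d)) * ρ) := by
    rw [Real.exp_le_exp]
    have := mul_le_mul_of_nonneg_right (min_le_left c₂ (δ / d)) hρ0
    linarith
  have hmin2 : Real.exp (-(δ / d) * ρ) ≤ Real.exp (-(min c₂ (δ / d)) * ρ) := by
    rw [Real.exp_le_exp]
    have := mul_le_mul_of_nonneg_right (min_le_right c₂ (δ / d)) hρ0
    linarith
  refine ⟨{t | t ∈ LogB y ρ ∧ ‖aeval t G‖ < Real.exp (-(δ * ρ)) * nrm G t}, ?_, ?_, ?_⟩
  · exact (measurableSet_LogB y ρ).inter (measurableSet_lt (tf_cont G).norm.measurable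
      (continuous_const.mul (continuous_nrm G)).measurable)
  · refine (hexc ρ hρ0).trans (ENNReal.ofReal_le_ofReal ?_)
    refine mul_le_mul ?_ hmin1 (Real.exp_pos _).le (by positivity)
    linarith
  · intro t ht htE htn R hR
    -- a large coordinate
    have hbig : ∃ i, c₀ * ρ ≤ |Real.log ‖t i‖| := by
      by_contra hcon
      push Not at hcon
      exact htn fun i => ⟨(ht i).1, hcon i⟩
    obtain ⟨i₀, hi₀⟩ := hbig
    obtain ⟨s', hs', hns⟩ := hn (fun i => Real.log ‖t i‖)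
    set F : ℝ := Real.exp (∑ i, Real.log ‖t i‖ * (s' i : ℝ)) with hF
    have hF0 : 0 < F := Real.exp_pos _
    -- upper bound
    have hup : ∀ j, ‖aeval t (N j)‖ ≤ A * (F * Real.exp (-(2 * δ * ρ))) := by
      intro j
      refine (tf_le_nrm (N j) t).trans ?_
      have h1 : ∑ s ∈ (N j).support, ‖algebraMap K ℂ ((N j).coeff s)‖ ≤ A :=
        Finset.single_le_sum (f := fun i => ∑ s ∈ (N i).support,
          ‖algebraMap K ℂ ((N i).coeff s)‖)
          (fun i _ => Finset.sum_nonneg fun s _ => norm_nonneg _) (Finset.mem_univ j)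
      refine le_trans ?_ (mul_le_mul_of_nonneg_right h1 (by positivity))
      rw [nrm, Finset.sum_mul]
      refine Finset.sum_le_sum fun s hs => ?_
      refine mul_le_mul_of_nonneg_left ?_ (norm_nonneg _)
      rw [tf_mono ht, hF, ← Real.exp_add, Real.exp_le_exp]
      have h2 := hns s (Finset.mem_biUnion.2 ⟨j, Finset.mem_univ j, hs⟩) i₀
      have h3 := mul_le_mul_of_nonneg_left hi₀ hc₁.le
      have h4 : 2 * δ * ρ = c₁ * (c₀ * ρ) := by rw [hδ]; ring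
      rw [h4]
      linarith
    -- lower bound
    have hc : algebraMap K ℂ (G.coeff s') ≠ 0 := by
      rw [Ne, map_eq_zero]
      exact MvPolynomial.mem_support_iff.1 hs'
    have hc' : 0 < ‖algebraMap K ℂ (G.coeff s')‖ := norm_pos_iff.2 hc
    have hlow : F ≤ D * nrm G t := by
      have h1 : ‖algebraMap K ℂ (G.coeff s')‖ * ∏ i, ‖t i‖ ^ (s' i) ≤ nrm G t := by
        rw [nrm]
        exact Finset.single_le_sum (f := fun s : Fin y →₀ ℕ =>
          ‖algebraMap K ℂ (G.coeff s)‖ * ∏ i, ‖t i‖ ^ (s i))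
          (fun s _ => mul_nonneg (norm_nonneg _) (Finset.prod_nonneg fun i _ => by positivity))
          hs'
      rw [tf_mono ht, ← hF] at h1
      have h2 : ‖algebraMap K ℂ (G.coeff s')‖⁻¹ ≤ D :=
        Finset.single_le_sum (f := fun s : Fin y →₀ ℕ => ‖algebraMap K ℂ (G.coeff s)‖⁻¹)
          (fun s _ => by positivity) hs'
      have h3 : 0 ≤ nrm G t := (mul_nonneg hc'.le hF0.le).trans h1
      calc F = ‖algebraMap K ℂ (G.coeff s')‖⁻¹ * (‖algebraMap K ℂ (G.coeff s')‖ * F) := by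
            field_simp
        _ ≤ ‖algebraMap K ℂ (G.coeff s')‖⁻¹ * nrm G t :=
            mul_le_mul_of_nonneg_left h1 (by positivity)
        _ ≤ D * nrm G t := mul_le_mul_of_nonneg_right h2 h3
    have hnE : nrm G t ≤ Real.exp (δ * ρ) * ‖aeval t G‖ := by
      have h1 : Real.exp (-(δ * ρ)) * nrm G t ≤ ‖aeval t G‖ := by
        by_contra hcon
        push Not at hcon
        exact htE ⟨ht, hcon⟩
      rw [Real.exp_neg, inv_mul_le_iff₀ (Real.exp_pos _)] at h1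
      exact h1
    have hlow' : F ≤ D * (Real.exp (δ * ρ) * ‖aeval t G‖) :=
      hlow.trans (mul_le_mul_of_nonneg_left hnE hD0)
    have hg : aeval t G ≠ 0 := by
      intro h0
      rw [h0, norm_zero, mul_zero, mul_zero] at hlow'
      linarith
    have hcoef : ∀ j, ‖aeval t (N j)‖ ≤ A * D * Real.exp (-(δ * ρ)) * ‖aeval t G‖ := by
      intro j
      refine (hup j).trans ?_
      calc A * (F * Real.exp (-(2 * δ * ρ)))
          ≤ A * (D * (Real.exp (δ * ρ) * ‖aeval t G‖) * Real.exp (-(2 * δ * ρ))) :=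
            mul_le_mul_of_nonneg_left (mul_le_mul_of_nonneg_right hlow' (Real.exp_pos _).le) hA0
        _ = A * D * (Real.exp (δ * ρ) * Real.exp (-(2 * δ * ρ))) * ‖aeval t G‖ := by ring
        _ = A * D * Real.exp (-(δ * ρ)) * ‖aeval t G‖ := by
            rw [← Real.exp_add]
            congr 3
            ring
    have hroot := tf_root hd (aeval t G) (fun i => aeval t (N i)) R
      (A * D * Real.exp (-(δ * ρ))) (by positivity) hg hcoef hR
    have hfin : ‖R‖ ≤ (1 + Q) * Real.exp (-(δ / d) * ρ) := by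
      rcases hroot with h1 | h1
      · refine h1.trans ?_
        have h2 : (d : ℝ) * (A * D * Real.exp (-(δ * ρ))) = Q * Real.exp (-(δ * ρ)) := by
          rw [hQ]
          ring
        rw [h2]
        refine mul_le_mul (by linarith) ?_ (Real.exp_pos _).le (by positivity)
        rw [Real.exp_le_exp]
        have h3 : δ / d ≤ δ := div_le_self hδ0.le (by exact_mod_cast hd)
        have := mul_le_mul_of_nonneg_right h3 hρ0
        linarith
      · refine (pow_le_pow_iff_left₀ (norm_nonneg _) (by positivity) (by omega : d ≠ 0)).1 ?_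
        refine h1.trans ?_
        have h2 : (d : ℝ) * (A * D * Real.exp (-(δ * ρ))) = Q * Real.exp (-(δ * ρ)) := by
          rw [hQ]
          ring
        have h3 : Real.exp (-(δ / d) * ρ) ^ d = Real.exp (-(δ * ρ)) := by
          rw [← Real.exp_nat_mul]
          congr 1
          field_simp
        rw [h2, mul_pow, h3]
        refine mul_le_mul_of_nonneg_right ?_ (Real.exp_pos _).le
        calc Q ≤ (1 + Q) := by linarith
          _ ≤ (1 + Q) ^ d := le_self_pow₀ (by linarith) (by omega)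
    refine hfin.trans ?_
    refine mul_le_mul (by linarith) hmin2 (Real.exp_pos _).le (by positivity)

end Pool.Agent.EXI
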