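import Pool.Agent.EXI.TADefs

/-!
# EXI / TATr: traces as remainders

PROOF of `sum_roots`.  Let `P ∈ L[Y]` be monic and separable of degree `n`, with all its roots
`θ_1..θ_n` in `L` (`L` algebraically closed). Let `L_i` be the Lagrange basis polynomial (degree
`n - 1`, `L_i(θ_j) = δ_ij`, `Lagrange.basis`). Then `(X^j r) %ₘ P = ∑_i θ_i^j r(θ_i) L_i` (both sides
have degree `< n` and the same values at the `θ_i`). So `∑_{j<n} coeff_j ((X^j r) %ₘ P)
= ∑_i r(θ_i) ∑_{j<n} θ_i^j coeff_j(L_i) = ∑_i r(θ_i) L_i(θ_i) = ∑_i r(θ_i)`.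

PROOF of `trace_eq`.  `F = E(θ)` finite separable, `P = minpoly E θ`, `r ∈ E[Y]`. In the algebraic
closure `L` of `E`: `algebraMap (trace (aeval θ r)) = ∑_{σ : F →ₐ L} σ (aeval θ r) =
∑_{roots} r(θ_i)` (`trace_eq_sum_embeddings`, the embeddings correspond to the roots, see
`PowerBasis.liftEquiv'` or `Algebra.trace` of `AdjoinRoot`), apply `sum_roots` to the images of `P` and
`r` in `L[Y]` (`Polynomial.map_modByMonic`, `coeff_map`).
-/

set_option autoImplicit false

namespace Pool.Agent.EXI

open MvPolynomial MeasureTheory Pool.Agent.EXL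
open scoped ENNReal

private theorem sum_roots_fin {L : Type*} [Field L] [IsAlgClosed L] [DecidableEq L]
    (P r : Polynomial L) (hP : P.Monic) (hs : P.Separable) :
    ∑ j ∈ Finset.range P.natDegree, ((Polynomial.X ^ j * r) %ₘ P).coeff j =
      ∑ θ ∈ P.roots.toFinset, r.eval θ := by
  have hsplit : P.Splits := IsAlgClosed.splits P
  have hcard : P.roots.toFinset.card = P.natDegree := by
    rw [Multiset.toFinset_card_of_nodup (Polynomial.nodup_roots hs),
      ← hsplit.natDegree_eq_card_roots]
  have hinj : Set.InjOn (id : L → L) (P.roots.toFinset : Set L) := Function.injective_id.injOn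
  have hroot : ∀ a ∈ P.roots.toFinset, P.eval a = 0 := by
    intro a ha
    rw [Multiset.mem_toFinset, Polynomial.mem_roots hP.ne_zero] at ha
    exact ha
  have hmod : ∀ j : ℕ, (Polynomial.X ^ j * r) %ₘ P =
      ∑ a ∈ P.roots.toFinset,
        Polynomial.C (a ^ j * r.eval a) * Lagrange.basis P.roots.toFinset id a := by
    intro j
    have h1 := Lagrange.eq_interpolate_of_eval_eq (f := (Polynomial.X ^ j * r) %ₘ P)
      (fun a : L => a ^ j * r.eval a) hinj (by
        rw [hcard, ← Polynomial.degree_eq_natDegree hP.ne_zero]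
        exact Polynomial.degree_modByMonic_lt _ hP) (by
        intro a ha
        have h2 := congrArg (Polynomial.eval a)
          (Polynomial.modByMonic_add_div (Polynomial.X ^ j * r) P)
        rw [Polynomial.eval_add, Polynomial.eval_mul, hroot a ha, zero_mul, add_zero,
          Polynomial.eval_mul, Polynomial.eval_pow, Polynomial.eval_X] at h2
        exact h2)
    rw [h1, Lagrange.interpolate_apply]
  have hcoeff : ∀ j : ℕ, ((Polynomial.X ^ j * r) %ₘ P).coeff j =
      ∑ a ∈ P.roots.toFinset,
        r.eval a * ((Lagrange.basis P.roots.toFinset id a).coeff j * a ^ j) := by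
    intro j
    rw [hmod j, Polynomial.finsetSum_coeff]
    refine Finset.sum_congr rfl fun a _ => ?_
    rw [Polynomial.coeff_C_mul]
    ring
  rw [Finset.sum_congr rfl fun j _ => hcoeff j, Finset.sum_comm]
  refine Finset.sum_congr rfl fun a ha => ?_
  rw [← Finset.mul_sum]
  have hdeg : (Lagrange.basis P.roots.toFinset id a).natDegree < P.natDegree := by
    rw [Lagrange.natDegree_basis hinj ha, hcard]
    have : 0 < P.roots.toFinset.card := Finset.card_pos.mpr ⟨a, ha⟩
    omega
  rw [← Polynomial.eval_eq_sum_range' hdeg]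
  have h3 := Lagrange.eval_basis_self hinj ha
  rw [id_eq] at h3
  rw [h3, mul_one]

theorem sum_roots {L : Type*} [Field L] [IsAlgClosed L] (P r : Polynomial L) (hP : P.Monic)
    (hs : P.Separable) :
    ∑ j ∈ Finset.range P.natDegree, ((Polynomial.X ^ j * r) %ₘ P).coeff j =
      ∑ᶠ θ ∈ {θ : L | P.eval θ = 0}, r.eval θ := by
  classical
  have hset : {θ : L | P.eval θ = 0} = (P.roots.toFinset : Set L) := by
    ext θ
    rw [Finset.mem_coe, Multiset.mem_toFinset, Polynomial.mem_roots hP.ne_zero]
    rfl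
  rw [sum_roots_fin P r hP hs, hset, finsum_mem_coe_finset]

theorem trace_eq {E F : Type*} [Field E] [Field F] [CharZero E] [Algebra E F]
    [FiniteDimensional E F] (θ : F) (hθ : IntermediateField.adjoin E {θ} = ⊤) (r : Polynomial E) :
    Algebra.trace E F (Polynomial.aeval θ r) =
      ∑ j ∈ Finset.range (minpoly E θ).natDegree,
        ((Polynomial.X ^ j * r) %ₘ (minpoly E θ)).coeff j := by
  classical
  have hint : IsIntegral E θ := Algebra.IsIntegral.isIntegral θ
  have hadj : Algebra.adjoin E {θ} = ⊤ :=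
    Algebra.adjoin_eq_top_of_primitive_element hint.isAlgebraic hθ
  obtain ⟨pb, hgen⟩ : ∃ pb : PowerBasis E F, pb.gen = θ :=
    ⟨PowerBasis.ofAdjoinEqTop hint hadj, PowerBasis.ofAdjoinEqTop_gen hint hadj⟩
  subst hgen
  let L := AlgebraicClosure E
  apply (algebraMap E L).injective
  have hmon : (minpoly E pb.gen).Monic := minpoly.monic hint
  have hsep : (minpoly E pb.gen).Separable := Algebra.IsSeparable.isSeparable E pb.gen
  rw [trace_eq_sum_embeddings L]
  have h1 : ∀ σ : F →ₐ[E] L, σ (Polynomial.aeval pb.gen r) =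
      (r.map (algebraMap E L)).eval (pb.liftEquiv' σ : L) := by
    intro σ
    rw [PowerBasis.liftEquiv'_apply_coe, Polynomial.eval_map_algebraMap,
      Polynomial.aeval_algHom_apply]
  have h2 := sum_roots_fin ((minpoly E pb.gen).map (algebraMap E L)) (r.map (algebraMap E L))
    (hmon.map _) (hsep.map)
  rw [Polynomial.natDegree_map] at h2
  have h3 : ∀ j : ℕ, ((Polynomial.X ^ j * r.map (algebraMap E L)) %ₘ
      (minpoly E pb.gen).map (algebraMap E L)).coeff j =
      algebraMap E L (((Polynomial.X ^ j * r) %ₘ (minpoly E pb.gen)).coeff j) := by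
    intro j
    rw [← Polynomial.coeff_map, Polynomial.map_modByMonic _ hmon, Polynomial.map_mul,
      Polynomial.map_pow, Polynomial.map_X]
  rw [Finset.sum_congr rfl fun j _ => h3 j] at h2
  rw [map_sum, h2]
  refine Finset.sum_bij (fun σ _ => (pb.liftEquiv' σ : L)) ?_ ?_ ?_ ?_
  · intro σ _
    rw [Multiset.mem_toFinset]
    exact (pb.liftEquiv' σ).2
  · intro σ _ τ _ h
    exact pb.liftEquiv'.injective (Subtype.ext h)
  · intro y hy
    rw [Multiset.mem_toFinset] at hy
    refine ⟨pb.liftEquiv'.symm ⟨y, hy⟩, Finset.mem_univ _, ?_⟩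
    rw [Equiv.apply_symm_apply]
  · intro σ _
    exact h1 σ

end Pool.Agent.EXI
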