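import Pool.Agent.EXI.TACard
import Pool.Agent.EXI.TATr

/-!
# EXI / TAFsum: sums over the fibres and traces

PROOF.  Let `D, P, A, W` be from `str` for `G`, `θ = aeval b W`. Write
`aeval (b∘J) D' * (aeval b N / aeval b M) = ev2 (b∘J) θ B`, `D' ≠ 0` (fifth part of `str`). Let
`τ = ∑_{j < n} coeff_j ((X^j B) %ₘ P) ∈ K[T]`, `n = P.natDegree`.
(1) `τ = 0`: the minimal polynomial of `θ` over `E = EJ K b J` is the image of `P` (monic,
irreducible/minimal by the fourth part of `str`; a polynomial over `E` vanishing at `θ` becomes after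
clearing denominators a `Q` with `P ∣ Q`). `FJ K b J = E(θ)` by the fifth part of `str`. By `trace_eq`
(`Polynomial.map_modByMonic`) `aeval (b∘J) τ = trace (D'(b_J) r) = D'(b_J) * trace r = 0`, and
`b∘J` is algebraically independent.
(2) For `aeval t (D * D') ≠ 0` the fibre is in bijection with the roots `θ_x = aeval x W` of `P` at `t`
(as in `fib_card`), and `aeval t D' * (aeval x N / aeval x M) = ev2 t θ_x B` for `x` in the fibre,
since `aeval x M ≠ 0` (`M ∣ G`) and the relation
`aeval (b∘J) D' * aeval b N = ev2 (b∘J) (aeval b W) B * aeval b M` is a polynomial relation of `b`. So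
`aeval t D' * (∑ over the fibre) = ∑_{roots} = aeval t τ = 0` by `sum_roots` for the specialisations
at `t` (`map_modByMonic`).
-/

set_option autoImplicit false

namespace Pool.Agent.EXI

open MvPolynomial MeasureTheory Pool.Agent.EXL
open scoped ENNReal

variable (K : Subfield ℂ) {ι : Type} [Fintype ι] (b : ι → ℂ) {y : ℕ} (J : Fin y → ι)

private lemma fs_ev2 {K : Subfield ℂ} {ι : Type} {y : ℕ} (J : Fin y → ι) (x : ι → ℂ)
    (W : MvPolynomial ι K) (B : Polynomial (MvPolynomial (Fin y) K)) :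
    aeval x (Polynomial.eval₂ (rename J : MvPolynomial (Fin y) K →ₐ[K] MvPolynomial ι K).toRingHom
      W B) = ev2 (x ∘ J) (aeval x W) B := by
  have h1 : ((aeval x : MvPolynomial ι K →ₐ[K] ℂ).toRingHom).comp
      (rename J : MvPolynomial (Fin y) K →ₐ[K] MvPolynomial ι K).toRingHom =
      (aeval (x ∘ J) : MvPolynomial (Fin y) K →ₐ[K] ℂ).toRingHom := by
    ext p
    · simp
    · simp
  rw [ev2, Polynomial.eval_map, ← h1]
  exact Polynomial.hom_eval₂ B _ (aeval x : MvPolynomial ι K →ₐ[K] ℂ).toRingHom W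

/-- the field `K(b_J)` as a quotient field: common denominators -/
private lemma fs_clear {K : Subfield ℂ} {y : ℕ} {E : IntermediateField K ℂ} (c : Fin y → ℂ)
    (hE : E = IntermediateField.adjoin K (Set.range c))
    (φ : MvPolynomial (Fin y) K →+* E) (hφ : ∀ p, ((φ p : E) : ℂ) = aeval c p)
    (q : Polynomial E) :
    ∃ (d : MvPolynomial (Fin y) K) (Q : Polynomial (MvPolynomial (Fin y) K)), φ d ≠ 0 ∧
      Polynomial.C (φ d) * q = Q.map φ := by
  have hel : ∀ z : E, ∃ r s : MvPolynomial (Fin y) K, φ s ≠ 0 ∧ φ s * z = φ r := by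
    intro z
    have hz : (z : ℂ) ∈ IntermediateField.adjoin K (Set.range c) := by
      rw [← hE]
      exact z.2
    obtain ⟨r, s, hrs⟩ := (IntermediateField.mem_adjoin_range_iff K c (z : ℂ)).1 hz
    by_cases hs : aeval c s = 0
    · refine ⟨0, 1, by simp, ?_⟩
      have h0 : z = 0 := by
        apply Subtype.ext
        rw [hrs, hs, div_zero]
        rfl
      rw [h0]
      simp
    · refine ⟨r, s, ?_, ?_⟩
      · intro h
        apply hs
        rw [← hφ, h]
        rfl
      · apply Subtype.ext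
        show ((φ s : E) : ℂ) * (z : ℂ) = ((φ r : E) : ℂ)
        rw [hφ, hφ, hrs]
        field_simp
  induction q using Polynomial.induction_on' with
  | add p q hp hq =>
    obtain ⟨d1, Q1, h1, e1⟩ := hp
    obtain ⟨d2, Q2, h2, e2⟩ := hq
    refine ⟨d1 * d2, Polynomial.C d2 * Q1 + Polynomial.C d1 * Q2, ?_, ?_⟩
    · rw [map_mul]
      exact mul_ne_zero h1 h2
    · rw [Polynomial.map_add, Polynomial.map_mul, Polynomial.map_mul, Polynomial.map_C,
        Polynomial.map_C, ← e1, ← e2, map_mul, Polynomial.C_mul]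
      ring
  | monomial n a =>
    obtain ⟨r, s, hs, he⟩ := hel a
    refine ⟨s, Polynomial.monomial n r, hs, ?_⟩
    rw [Polynomial.map_monomial, Polynomial.C_mul_monomial, he]

/-- the number `τ` -/
private noncomputable def fsTau {R : Type*} [CommRing R] (B P : Polynomial R) : R :=
  ∑ j ∈ Finset.range P.natDegree, ((Polynomial.X ^ j * B) %ₘ P).coeff j

private lemma fs_tau_map {R S : Type*} [CommRing R] [CommRing S] [Nontrivial S] (f : R →+* S)
    (B P : Polynomial R) (hP : P.Monic) :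
    fsTau (B.map f) (P.map f) = f (fsTau B P) := by
  rw [fsTau, fsTau, map_sum, hP.natDegree_map]
  refine Finset.sum_congr rfl fun j _ => ?_
  rw [← Polynomial.coeff_map, Polynomial.map_modByMonic _ hP, Polynomial.map_mul,
    Polynomial.map_pow, Polynomial.map_X]

theorem fib_trace (hJ : AlgebraicIndependent K (b ∘ J))
    (halg : ∀ k, IsAlgebraic (Algebra.adjoin K (Set.range (b ∘ J))) (b k))
    (G : MvPolynomial ι K) (hG : aeval b G ≠ 0) (N M : MvPolynomial ι K) (hM : M ∣ G)
    (htr : ∃ r : FJ K b J, (r : ℂ) = aeval b N / aeval b M ∧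
      Algebra.trace (EJ K b J) (FJ K b J) r = 0) :
    ∃ D : MvPolynomial (Fin y) K, D ≠ 0 ∧ ∀ t : Fin y → ℂ, aeval t D ≠ 0 →
      ∑ᶠ x ∈ fib (XG K b G) J t, aeval x N / aeval x M = 0 := by
  obtain ⟨D, P, A, W, hD, hPm, hPd, hPdvd, hfrac, hVV, hspec⟩ := str K b J hJ halg G hG
  obtain ⟨r, hr, htr0⟩ := htr
  have hbVV : b ∈ VV K b := fun p hp => hp
  have hMb : aeval b M ≠ 0 := by
    obtain ⟨M', hM'⟩ := hM
    intro h0
    apply hG
    rw [hM', map_mul, h0, zero_mul]
  have hinj : ∀ p : MvPolynomial (Fin y) K, aeval (b ∘ J) p = 0 → p = 0 := fun p hp => by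
    have h1 : aeval (b ∘ J) p = aeval (b ∘ J) (0 : MvPolynomial (Fin y) K) := by
      rw [hp, map_zero]
    exact hJ h1
  -- the element z
  have hz : aeval b N / aeval b M ∈ IntermediateField.adjoin K (Set.range b) :=
    (IntermediateField.mem_adjoin_range_iff K b _).2 ⟨N, M, rfl⟩
  obtain ⟨B, D', hD', hB⟩ := hfrac _ hz
  -- the ring homomorphism to E
  let bE : Fin y → EJ K b J := fun i => ⟨b (J i), IntermediateField.subset_adjoin _ _ ⟨i, rfl⟩⟩
  let φ : MvPolynomial (Fin y) K →+* EJ K b J :=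
    (aeval bE : MvPolynomial (Fin y) K →ₐ[K] EJ K b J).toRingHom
  have hφc : ((EJ K b J).val.toRingHom).comp φ =
      (aeval (b ∘ J) : MvPolynomial (Fin y) K →ₐ[K] ℂ).toRingHom := by
    refine MvPolynomial.ringHom_ext (fun a => ?_) (fun i => ?_)
    · simp [φ]
    · simp [φ, bE]
  have hφ : ∀ p, ((φ p : EJ K b J) : ℂ) = aeval (b ∘ J) p := fun p => by
    have := congrArg (fun f : MvPolynomial (Fin y) K →+* ℂ => f p) hφc
    exact this
  have hφinj : Function.Injective φ := by
    intro p q hpq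
    have h1 : aeval (b ∘ J) (p - q) = 0 := by
      rw [← hφ, map_sub, hpq, sub_self]
      rfl
    exact sub_eq_zero.1 (hinj _ h1)
  have hφ0 : ∀ p, p ≠ 0 → φ p ≠ 0 := fun p hp h => hp (hφinj (by rw [h, map_zero]))
  -- the element θ in F
  let bF : ι → FJ K b J := fun k => ⟨b k, IntermediateField.subset_adjoin _ _ ⟨k, rfl⟩⟩
  let eF : MvPolynomial ι K →+* FJ K b J :=
    eval₂Hom ((algebraMap (EJ K b J) (FJ K b J)).comp (algebraMap K (EJ K b J))) bF
  have heF : ∀ p, ((eF p : FJ K b J) : ℂ) = aeval b p := by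
    have h1 : ((FJ K b J).val.toRingHom).comp eF =
        (aeval b : MvPolynomial ι K →ₐ[K] ℂ).toRingHom := by
      refine MvPolynomial.ringHom_ext (fun a => ?_) (fun i => ?_)
      · simp [eF]
      · simp [eF, bF]
    intro p
    exact congrArg (fun f : MvPolynomial ι K →+* ℂ => f p) h1
  set θ : FJ K b J := eF W with hθ
  have hθc : (θ : ℂ) = aeval b W := heF W
  -- evaluation at θ
  have haev : ∀ Q : Polynomial (MvPolynomial (Fin y) K),
      ((Polynomial.aeval θ (Q.map φ) : FJ K b J) : ℂ) = ev2 (b ∘ J) (aeval b W) Q := by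
    intro Q
    have h1 : ((Polynomial.aeval θ (Q.map φ) : FJ K b J) : ℂ) =
        (FJ K b J).val (Polynomial.aeval θ (Q.map φ)) := rfl
    rw [h1, ← Polynomial.aeval_algHom_apply, Polynomial.aeval_def, Polynomial.eval₂_map]
    rw [ev2, Polynomial.eval_map]
    have h2 : (FJ K b J).val θ = aeval b W := hθc
    rw [h2]
    congr 1
  have hPθ : Polynomial.aeval θ (P.map φ) = 0 := by
    apply Subtype.ext
    rw [haev]
    exact (hVV b hbVV).1
  have hint : IsIntegral (EJ K b J) θ := ⟨P.map φ, hPm.map φ, by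
    rw [← Polynomial.aeval_def]
    exact hPθ⟩
  -- F = E(θ)
  have htop : IntermediateField.adjoin (EJ K b J) {θ} = ⊤ := by
    rw [eq_top_iff]
    intro z _
    have hle : FJ K b J ≤ IntermediateField.lift (IntermediateField.adjoin (EJ K b J) {θ}) := by
      refine IntermediateField.adjoin_le_iff.2 ?_
      rintro _ ⟨k, rfl⟩
      have hθm : θ ∈ IntermediateField.adjoin (EJ K b J) {θ} :=
        IntermediateField.mem_adjoin_simple_self _ _
      have h1 : Polynomial.aeval θ ((A k).map φ) / algebraMap (EJ K b J) (FJ K b J) (φ D) ∈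
          IntermediateField.adjoin (EJ K b J) {θ} := by
        refine div_mem ?_ (IntermediateField.algebraMap_mem _ _)
        exact IntermediateField.algebra_adjoin_le_adjoin _ _
          (Algebra.adjoin_singleton_eq_range_aeval (EJ K b J) θ ▸ ⟨(A k).map φ, rfl⟩)
      have h2 : b k = ((Polynomial.aeval θ ((A k).map φ) /
          algebraMap (EJ K b J) (FJ K b J) (φ D) : FJ K b J) : ℂ) := by
        have h3 := (hVV b hbVV).2 k
        have h4 : aeval (b ∘ J) D ≠ 0 := fun h => hD (hinj D h)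
        have h5 : ((Polynomial.aeval θ ((A k).map φ) /
            algebraMap (EJ K b J) (FJ K b J) (φ D) : FJ K b J) : ℂ) =
            ((Polynomial.aeval θ ((A k).map φ) : FJ K b J) : ℂ) / ((φ D : EJ K b J) : ℂ) := rfl
        rw [h5, haev, hφ, ← h3]
        field_simp
      show b k ∈ IntermediateField.lift (IntermediateField.adjoin (EJ K b J) {θ})
      rw [h2]
      exact (IntermediateField.mem_lift _).2 h1
    exact (IntermediateField.mem_lift z).1 (hle z.2)
  have hfd : FiniteDimensional (EJ K b J) (FJ K b J) := by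
    have h1 : FiniteDimensional (EJ K b J) (IntermediateField.adjoin (EJ K b J) {θ}) :=
      IntermediateField.adjoin.finiteDimensional hint
    rw [htop] at h1
    exact Module.Finite.equiv (IntermediateField.topEquiv (F := EJ K b J)
      (E := FJ K b J)).toLinearEquiv
  -- the minimal polynomial
  have hmin : P.map φ = minpoly (EJ K b J) θ := by
    refine minpoly.unique _ _ (hPm.map φ) hPθ fun q hq hqθ => ?_
    obtain ⟨d, Q, hd, hQ⟩ := fs_clear (b ∘ J) rfl φ hφ q
    have h1 : ev2 (b ∘ J) (aeval b W) Q = 0 := by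
      rw [← haev, ← hQ, map_mul, hqθ, mul_zero]
      rfl
    have h2 : P.map φ ∣ Polynomial.C (φ d) * q := by
      rw [hQ]
      exact Polynomial.map_dvd φ (hPdvd Q h1)
    have h3 : P.map φ ∣ q := by
      have hu : IsUnit (Polynomial.C (φ d)) := Polynomial.isUnit_C.2 (Ne.isUnit hd)
      exact (hu.dvd_mul_left).1 h2
    exact Polynomial.degree_le_of_dvd h3 hq.ne_zero
  -- τ = 0
  have htau : fsTau B P = 0 := by
    apply hφinj
    rw [map_zero, ← fs_tau_map φ B P hPm]
    have h1 := trace_eq θ htop (B.map φ)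
    have h2 : Polynomial.aeval θ (B.map φ) = φ D' • r := by
      apply Subtype.ext
      rw [haev, ← hB, ← hφ]
      show _ = ((φ D' : EJ K b J) : ℂ) * (r : ℂ)
      rw [hr]
    rw [h2, map_smul, htr0, smul_zero] at h1
    rw [h1, hmin]
    rfl
  refine ⟨D * D', mul_ne_zero hD hD', fun t ht => ?_⟩
  rw [map_mul] at ht
  have htD : aeval t D ≠ 0 := left_ne_zero_of_mul ht
  have htD' : aeval t D' ≠ 0 := right_ne_zero_of_mul ht
  obtain ⟨hsep, hlift⟩ := hspec t htD
  set ft : MvPolynomial (Fin y) K →+* ℂ :=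
    (aeval t : MvPolynomial (Fin y) K →ₐ[K] ℂ).toRingHom with hft
  -- the relation
  have hrel : ∀ x ∈ fib (XG K b G) J t, aeval x M ≠ 0 ∧
      aeval t D' * aeval x N = ev2 t (aeval x W) B * aeval x M := by
    rintro x ⟨⟨hxV, hxG⟩, hxJ⟩
    have hxM : aeval x M ≠ 0 := by
      obtain ⟨M', hM'⟩ := hM
      intro h0
      apply hxG
      rw [hM', map_mul, h0, zero_mul]
    refine ⟨hxM, ?_⟩
    have h1 := hxV (rename J D' * N - Polynomial.eval₂
      (rename J : MvPolynomial (Fin y) K →ₐ[K] MvPolynomial ι K).toRingHom W B * M) (by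
        rw [map_sub, map_mul, map_mul, fs_ev2, aeval_rename, ← hB]
        field_simp
        ring)
    rw [map_sub, map_mul, map_mul, fs_ev2, aeval_rename, hxJ] at h1
    exact sub_eq_zero.1 h1
  have hbij : Set.BijOn (fun x => aeval x W) (fib (XG K b G) J t)
      {θ : ℂ | (P.map ft).eval θ = 0} := by
    refine ⟨?_, ?_, ?_⟩
    · rintro x ⟨⟨hxV, hxG⟩, hxJ⟩
      have h1 := (hVV x hxV).1
      rw [hxJ] at h1
      exact h1
    · rintro x ⟨⟨hxV, hxG⟩, hxJ⟩ x' ⟨⟨hxV', hxG'⟩, hxJ'⟩ hxx
      have hxx' : aeval x W = aeval x' W := hxx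
      funext k
      have h1 := (hVV x hxV).2 k
      have h2 := (hVV x' hxV').2 k
      rw [hxJ, hxx'] at h1
      rw [hxJ', ← h1] at h2
      exact (mul_left_cancel₀ htD h2).symm
    · intro θ' hθ'
      obtain ⟨x, hx, hxJ, hxW⟩ := hlift θ' hθ'
      exact ⟨x, ⟨hx, hxJ⟩, hxW⟩
  have hPt : (P.map ft).Monic := hPm.map ft
  have hfin : {θ : ℂ | (P.map ft).eval θ = 0}.Finite := by
    refine ((P.map ft).roots.toFinset.finite_toSet).subset fun θ' hθ' => ?_
    rw [Finset.mem_coe, Multiset.mem_toFinset, Polynomial.mem_roots hPt.ne_zero]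
    exact hθ'
  have h1 : ∑ᶠ x ∈ fib (XG K b G) J t, aeval x N / aeval x M =
      ∑ᶠ θ ∈ {θ : ℂ | (P.map ft).eval θ = 0}, (aeval t D')⁻¹ * (B.map ft).eval θ := by
    refine finsum_mem_eq_of_bijOn _ hbij fun x hx => ?_
    obtain ⟨h2, h3⟩ := hrel x hx
    have h4 : (B.map ft).eval (aeval x W) = ev2 t (aeval x W) B := rfl
    rw [h4, div_eq_iff h2, mul_assoc, ← h3]
    field_simp
  rw [h1, ← mul_finsum_mem' _ _ hfin]
  have h2 := sum_roots (P.map ft) (B.map ft) hPt hsep
  rw [← h2]
  have h3 : ∑ j ∈ Finset.range (P.map ft).natDegree,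
      ((Polynomial.X ^ j * B.map ft) %ₘ (P.map ft)).coeff j = fsTau (B.map ft) (P.map ft) := rfl
  rw [h3, fs_tau_map ft B P hPm, htau, map_zero, mul_zero]

end Pool.Agent.EXI
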