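import Pool.Agent.EXI.TADefs

/-!
# EXI / TAImp: implicit function theorem for a simple root

PROOF.  `Φ (t, θ) = (t, ev2 t θ P)` is a smooth (polynomial) map of `(Fin y → ℂ) × ℂ` to itself with
invertible derivative at `(t₀, θ₀)` (the derivative in `θ` is `ev2 t₀ θ₀ P' ≠ 0`). By the inverse
function theorem (`ContDiffAt.toOpenPartialHomeomorph`, over `𝕜 = ℂ`, `n = ⊤` or `1`) it is a local
homeomorphism with a smooth inverse near `(t₀, 0)`; put `g t = (Φ⁻¹ (t, 0)).2` on a small open `U`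
(a product neighbourhood inside the source, and where the inverse is differentiable:
`OpenPartialHomeomorph.contDiffAt_symm`, `ContDiffAt.eventually`), and `V` open such that
`U × V` is inside the source of the homeomorphism: for `t ∈ U`, `θ ∈ V` with `ev2 t θ P = 0` one has
`Φ (t, θ) = (t, 0)`, so `θ = g t` by injectivity. Shrink `U` so that `g t ∈ V` for `t ∈ U`.
-/

set_option autoImplicit false

namespace Pool.Agent.EXI

open MvPolynomial MeasureTheory Pool.Agent.EXL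
open scoped ENNReal

theorem ev2_differentiable {K : Subfield ℂ} {y : ℕ} (P : Polynomial (MvPolynomial (Fin y) K)) :
    ContDiff ℂ ⊤ (fun p : (Fin y → ℂ) × ℂ => ev2 p.1 p.2 P) := by
  have haev : ∀ a : MvPolynomial (Fin y) K,
      ContDiff ℂ ⊤ (fun p : (Fin y → ℂ) × ℂ => aeval p.1 a) := by
    intro a
    induction a using MvPolynomial.induction_on with
    | C c =>
      simp only [aeval_C]
      exact contDiff_const
    | add p q hp hq =>
      simp only [map_add]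
      exact hp.add hq
    | mul_X p i hp =>
      simp only [map_mul, aeval_X]
      refine hp.mul ?_
      exact (contDiff_apply ℂ ℂ i).comp contDiff_fst
  induction P using Polynomial.induction_on' with
  | add p q hp hq =>
    simp only [ev2, Polynomial.map_add, Polynomial.eval_add]
    exact hp.add hq
  | monomial n a =>
    simp only [ev2, Polynomial.map_monomial, Polynomial.eval_monomial]
    exact (haev a).mul (contDiff_snd.pow n)

theorem ev2_hasDerivAt {K : Subfield ℂ} {y : ℕ} (P : Polynomial (MvPolynomial (Fin y) K))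
    (t : Fin y → ℂ) (θ : ℂ) :
    HasDerivAt (fun θ => ev2 t θ P) (ev2 t θ (Polynomial.derivative P)) θ := by
  unfold ev2
  rw [← Polynomial.derivative_map]
  exact Polynomial.hasDerivAt _ _

theorem imp {K : Subfield ℂ} {y : ℕ} (P : Polynomial (MvPolynomial (Fin y) K))
    (t₀ : Fin y → ℂ) (θ₀ : ℂ) (h0 : ev2 t₀ θ₀ P = 0)
    (h1 : ev2 t₀ θ₀ (Polynomial.derivative P) ≠ 0) :
    ∃ (U : Set (Fin y → ℂ)) (V : Set ℂ) (g : (Fin y → ℂ) → ℂ), IsOpen U ∧ IsOpen V ∧ t₀ ∈ U ∧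
      θ₀ ∈ V ∧ (∀ t ∈ U, DifferentiableAt ℂ g t ∧ g t ∈ V ∧ ev2 t (g t) P = 0) ∧
      ∀ t ∈ U, ∀ θ ∈ V, ev2 t θ P = 0 → θ = g t := by
  have hsm := ev2_differentiable P
  have cdf : ContDiffAt ℂ 1 (fun p : (Fin y → ℂ) × ℂ => ev2 p.1 p.2 P) (t₀, θ₀) :=
    (hsm.of_le le_top).contDiffAt
  have hd : HasFDerivAt (fun p : (Fin y → ℂ) × ℂ => ev2 p.1 p.2 P)
      (fderiv ℂ (fun p : (Fin y → ℂ) × ℂ => ev2 p.1 p.2 P) (t₀, θ₀)) (t₀, θ₀) :=
    (cdf.differentiableAt one_ne_zero).hasFDerivAt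
  have hinr : HasFDerivAt (fun θ : ℂ => ((t₀, θ) : (Fin y → ℂ) × ℂ))
      (ContinuousLinearMap.inr ℂ (Fin y → ℂ) ℂ) θ₀ := hasFDerivAt_prodMk_right t₀ θ₀
  have hcomp := HasFDerivAt.comp θ₀ (g := fun p : (Fin y → ℂ) × ℂ => ev2 p.1 p.2 P) hd hinr
  have hcomp2 := (ev2_hasDerivAt P t₀ θ₀).hasFDerivAt
  have heq := hcomp.unique hcomp2
  have hinv : (fderiv ℂ (fun p : (Fin y → ℂ) × ℂ => ev2 p.1 p.2 P) (t₀, θ₀) ∘L
      .inr ℂ (Fin y → ℂ) ℂ).IsInvertible := by
    rw [heq]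
    refine ⟨ContinuousLinearEquiv.unitsEquivAut ℂ (Units.mk0 _ h1), ?_⟩
    ext
    simp
  have e1 := cdf.eventually_apply_implicitFunction one_ne_zero hinv
  have e2 := cdf.eventually_apply_eq_iff_implicitFunction one_ne_zero hinv
  have e3 := cdf.contDiffAt_implicitFunction one_ne_zero hinv
  have e4 := cdf.implicitFunction_apply_self one_ne_zero hinv
  set ψ := cdf.implicitFunction one_ne_zero hinv with hψ
  simp only [h0] at e1 e2 e3 e4
  obtain ⟨U₁, V, hU₁, ht₁, hV, hθ, hsub⟩ := mem_nhds_prod_iff'.1 e2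
  have e5 : ∀ᶠ t in nhds t₀, DifferentiableAt ℂ ψ t := by
    filter_upwards [e3.eventually (by simp)] with t ht
    exact ht.differentiableAt one_ne_zero
  have e6 : ∀ᶠ t in nhds t₀, ψ t ∈ V := by
    refine e3.continuousAt.eventually_mem ?_
    rw [e4]
    exact hV.mem_nhds hθ
  have e7 : ∀ᶠ t in nhds t₀, t ∈ U₁ := hU₁.mem_nhds ht₁
  obtain ⟨U, hU, hUo, htU⟩ := eventually_nhds_iff.1 (e1.and (e5.and (e6.and e7)))
  refine ⟨U, V, ψ, hUo, hV, htU, hθ, fun t ht => ?_, fun t ht θ hθV h => ?_⟩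
  · exact ⟨(hU t ht).2.1, (hU t ht).2.2.1, (hU t ht).1⟩
  · have h3 : (t, θ) ∈ U₁ ×ˢ V := ⟨(hU t ht).2.2.2, hθV⟩
    exact ((hsub h3).1 h).symm

end Pool.Agent.EXI
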