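import Pool.Agent.EXI.TAAlg

/-!
# EXI / TARep: the logarithmic derivatives are rational functions

For `Q = ∑_n q_n Y^n ∈ K[T][Y]` let `∂_i Q` be the polynomial with coefficients `pderiv i q_n`
(`Polynomial.map` does not work for derivations: write it as a sum).
* `der_ev2`: for `D ∈ DerOver K`: `D (Q(u, v)) = ∑_i (∂_i Q)(u, v) D (u i) + Q'(u, v) D v`
  (Leibniz; induction on `Q`, `MvPolynomial` part: `Derivation.leibniz` + induction, or
  `MvPolynomial.mkDerivation`).
* `rep`: for `Q` from `rel K b J hJ halg k`: `0 = D i (Q(b_J, b_k)) = (∂_i Q)(b_J, b_k) b_{J i} +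
  Q'(b_J, b_k) D i (b k)`, so `D i (b k) / b k = - (∂_i Q)(b_J, b_k) b_{J i} / (Q'(b_J, b_k) b_k)`:
  a quotient of polynomials in `b`. Take `G` the product over all `i, k` of the denominators.
-/

set_option autoImplicit false

namespace Pool.Agent.EXI

open MvPolynomial MeasureTheory Pool.Agent.EXL
open scoped ENNReal

variable (K : Subfield ℂ) {ι : Type} [Fintype ι] (b : ι → ℂ) {y : ℕ} (J : Fin y → ι)

/-- Partial derivative of the coefficients. -/
noncomputable def dT {K : Subfield ℂ} {y : ℕ} (i : Fin y)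
    (Q : Polynomial (MvPolynomial (Fin y) K)) : Polynomial (MvPolynomial (Fin y) K) :=
  Q.sum fun n q => Polynomial.monomial n (pderiv i q)

private theorem rep_ev2_add {K : Subfield ℂ} {y : ℕ} (u : Fin y → ℂ) (v : ℂ)
    (P Q : Polynomial (MvPolynomial (Fin y) K)) : ev2 u v (P + Q) = ev2 u v P + ev2 u v Q := by
  unfold ev2
  rw [Polynomial.map_add, Polynomial.eval_add]

private theorem rep_ev2_mon {K : Subfield ℂ} {y : ℕ} (u : Fin y → ℂ) (v : ℂ) (n : ℕ)
    (q : MvPolynomial (Fin y) K) : ev2 u v (Polynomial.monomial n q) = aeval u q * v ^ n := by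
  unfold ev2
  rw [Polynomial.map_monomial, Polynomial.eval_monomial]
  rfl

private theorem rep_dT_add {K : Subfield ℂ} {y : ℕ} (i : Fin y)
    (P Q : Polynomial (MvPolynomial (Fin y) K)) : dT i (P + Q) = dT i P + dT i Q := by
  unfold dT
  refine Polynomial.sum_add_index _ _ _ (fun n => ?_) (fun n a b => ?_)
  · rw [map_zero, map_zero]
  · rw [map_add, map_add]

private theorem rep_dT_mon {K : Subfield ℂ} {y : ℕ} (i : Fin y) (n : ℕ)
    (q : MvPolynomial (Fin y) K) :
    dT i (Polynomial.monomial n q) = Polynomial.monomial n (pderiv i q) := by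
  unfold dT
  refine Polynomial.sum_monomial_index _ _ ?_
  rw [map_zero, map_zero]

private theorem rep_der_aeval (D : Derivation ℤ ℂ ℂ) (hD : D ∈ DerOver (K : Set ℂ))
    (u : Fin y → ℂ) (p : MvPolynomial (Fin y) K) :
    D (aeval u p) = ∑ i, aeval u (pderiv i p) * D (u i) := by
  classical
  induction p using MvPolynomial.induction_on with
  | C a =>
    rw [aeval_C]
    have h1 : D (algebraMap K ℂ a) = 0 := hD _ a.2
    rw [h1]
    symm
    refine Finset.sum_eq_zero fun i _ => ?_
    rw [pderiv_C, map_zero, zero_mul]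
  | add p q hp hq =>
    rw [map_add, map_add, hp, hq, ← Finset.sum_add_distrib]
    refine Finset.sum_congr rfl fun i _ => ?_
    rw [map_add, map_add, add_mul]
  | mul_X p j hp =>
    rw [map_mul, aeval_X, Derivation.leibniz, hp, smul_eq_mul, smul_eq_mul]
    have h1 : ∀ i, aeval u (pderiv i (p * X j)) * D (u i) =
        (if i = j then aeval u p * D (u i) else 0) + u j * (aeval u (pderiv i p) * D (u i)) := by
      intro i
      rw [pderiv_mul, pderiv_X, map_add, map_mul, map_mul, aeval_X]
      by_cases hij : i = j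
      · subst hij
        rw [Pi.single_eq_same, if_pos rfl, map_one]
        ring
      · rw [if_neg hij, Pi.single_eq_of_ne (fun h => hij h.symm), map_zero]
        ring
    rw [Finset.sum_congr rfl fun i _ => h1 i, Finset.sum_add_distrib, Finset.sum_ite_eq' ,
      if_pos (Finset.mem_univ j), Finset.mul_sum]

theorem der_ev2 (D : Derivation ℤ ℂ ℂ) (hD : D ∈ DerOver (K : Set ℂ))
    (Q : Polynomial (MvPolynomial (Fin y) K)) (u : Fin y → ℂ) (v : ℂ) :
    D (ev2 u v Q) = ∑ i, ev2 u v (dT i Q) * D (u i) +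
      ev2 u v (Polynomial.derivative Q) * D v := by
  induction Q using Polynomial.induction_on' with
  | add P Q hP hQ =>
    rw [rep_ev2_add, map_add, hP, hQ, Polynomial.derivative_add, rep_ev2_add]
    have h1 : ∑ i, ev2 u v (dT i (P + Q)) * D (u i) =
        ∑ i, ev2 u v (dT i P) * D (u i) + ∑ i, ev2 u v (dT i Q) * D (u i) := by
      rw [← Finset.sum_add_distrib]
      refine Finset.sum_congr rfl fun i _ => ?_
      rw [rep_dT_add, rep_ev2_add, add_mul]
    rw [h1]
    ring
  | monomial n q =>
    rw [rep_ev2_mon, Derivation.leibniz, rep_der_aeval K D hD u q, Derivation.leibniz_pow,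
      Polynomial.derivative_monomial, rep_ev2_mon]
    have h1 : ∑ i, ev2 u v (dT i (Polynomial.monomial n q)) * D (u i) =
        v ^ n * ∑ i, aeval u (pderiv i q) * D (u i) := by
      rw [Finset.mul_sum]
      refine Finset.sum_congr rfl fun i _ => ?_
      rw [rep_dT_mon, rep_ev2_mon]
      ring
    rw [h1]
    simp only [smul_eq_mul, nsmul_eq_mul, map_mul, map_natCast]
    ring

/-- The polynomial in `b` with the value `ev2 (b ∘ J) (b k) P`. -/
private noncomputable def repT (k : ι) (P : Polynomial (MvPolynomial (Fin y) K)) :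
    MvPolynomial ι K :=
  Polynomial.eval (X k) (P.map (rename J : MvPolynomial (Fin y) K →ₐ[K] _).toRingHom)

omit [Fintype ι] in
private theorem aeval_repT (k : ι) (P : Polynomial (MvPolynomial (Fin y) K)) :
    aeval b (repT K J k P) = ev2 (b ∘ J) (b k) P := by
  induction P using Polynomial.induction_on' with
  | add P Q hP hQ =>
    rw [rep_ev2_add, ← hP, ← hQ, ← map_add]
    congr 1
    unfold repT
    rw [Polynomial.map_add, Polynomial.eval_add]
  | monomial n q =>
    rw [rep_ev2_mon]
    unfold repT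
    rw [Polynomial.map_monomial, Polynomial.eval_monomial, map_mul, map_pow, aeval_X]
    congr 1
    exact aeval_rename J b q

theorem rep (hb : ∀ k, b k ≠ 0) (hJ : AlgebraicIndependent K (b ∘ J))
    (halg : ∀ k, IsAlgebraic (Algebra.adjoin K (Set.range (b ∘ J))) (b k))
    (D : Fin y → Derivation ℤ ℂ ℂ) (hD : ∀ i, D i ∈ DerOver (K : Set ℂ))
    (hDJ : ∀ i j, D i (b (J j)) = if i = j then b (J j) else 0) :
    ∃ G : MvPolynomial ι K, aeval b G ≠ 0 ∧ ∀ i k, ∃ N : MvPolynomial ι K,
      D i (b k) / b k = aeval b N / aeval b G := by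
  classical
  choose Q hQ0 hQ1 using fun k => rel K b J hJ halg k
  have hd : ∀ k, aeval b (repT K J k (Polynomial.derivative (Q k)) * X k) ≠ 0 := by
    intro k
    rw [map_mul, aeval_X, aeval_repT]
    exact mul_ne_zero (hQ1 k) (hb k)
  refine ⟨∏ k, (repT K J k (Polynomial.derivative (Q k)) * X k), ?_, ?_⟩
  · rw [map_prod]
    exact Finset.prod_ne_zero_iff.2 fun k _ => hd k
  · intro i k
    refine ⟨-(repT K J k (dT i (Q k)) * X (J i)) * ∏ k' ∈ Finset.univ.erase k,
      (repT K J k' (Polynomial.derivative (Q k')) * X k'), ?_⟩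
    have h1 := der_ev2 K (D i) (hD i) (Q k) (b ∘ J) (b k)
    rw [hQ0 k, map_zero] at h1
    have h2 : ∑ j, ev2 (b ∘ J) (b k) (dT j (Q k)) * D i ((b ∘ J) j) =
        ev2 (b ∘ J) (b k) (dT i (Q k)) * b (J i) := by
      rw [Finset.sum_eq_single i]
      · rw [Function.comp_apply, hDJ, if_pos rfl]
      · intro j _ hj
        rw [Function.comp_apply, hDJ, if_neg (fun h => hj h.symm), mul_zero]
      · intro h
        exact absurd (Finset.mem_univ i) h
    rw [h2] at h1
    rw [← Finset.mul_prod_erase Finset.univ _ (Finset.mem_univ k), map_mul, map_mul,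
      mul_div_mul_right]
    · rw [map_neg, map_mul, map_mul, aeval_X, aeval_X, aeval_repT, aeval_repT]
      rw [div_eq_div_iff (hb k) (mul_ne_zero (hQ1 k) (hb k))]
      have h3 : ev2 (b ∘ J) (b k) (Polynomial.derivative (Q k)) * D i (b k) =
          -(ev2 (b ∘ J) (b k) (dT i (Q k)) * b (J i)) := by
        linear_combination -h1
      rw [← h3]
      ring
    · rw [map_prod]
      exact Finset.prod_ne_zero_iff.2 fun k _ => hd k

end Pool.Agent.EXI
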