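import Pool.Agent.EXI.TAStr
import Pool.Agent.EXI.TARep
import Pool.Agent.EXI.TAImp

/-!
# EXI / TALoc: the locus is etale over the coordinates J

PROOF of `loc`.  For every `k` let `Q_k` be from `rel`, and let `q_k ∈ K[X]` be the polynomial
`Q_k'(X_J, X_k)` (so `aeval x q_k = ev2 (x∘J) (x k) Q_k'`, `aeval b q_k ≠ 0`). Let
`G₂ = G * ∏ X_k * ∏ q_k` and `D, P, A, W` from `str` for `G₂`; let `G₁ = ∏ X_k * ∏ q_k * D(X_J)`. Let
`X = XG K b (G * G₁)`, `x₀ ∈ X`, `t₀ = x₀∘J` (so `D(t₀) ≠ 0`), `θ₀ = aeval x₀ W`, a root of `P` at `t₀`,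
simple because the specialisation is separable. Let `U, V, g` be from `imp`, shrink `U` to
`D(t) ≠ 0` on `U`; `s t k = ev2 t (g t) (A k) / aeval t D`. For `t ∈ U` there is by `str`
`x ∈ XG K b G₂` with `x∘J = t`, `aeval x W = g t`, so `x = s t` and `s t ∈ X`, `s t ∘ J = t`. Let
`O = {x | x∘J ∈ U, aeval x W ∈ V}` (open, contains `x₀`): for `x ∈ X ∩ O` the relations of `str` give
`aeval x W = g (x∘J)` and `x = s (x∘J)`.
Derivatives: `s` is differentiable on `U` (quotient of differentiable functions). For `k` the function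
`t ↦ ev2 t (s t k) Q_k` vanishes on `U` (`Q_k(b_J, b_k) = 0` is a relation of `b`), so
`(∂_i Q_k)(t, s t k) + Q_k'(t, s t k) ∂_i (s t k) = 0`. On the other hand `der_ev2` for `D i` gives the
relation `(∂_i Q_k)(b_J, b_k) b_{J i} + Q_k'(b_J, b_k) b_k N_{ik}(b) / G(b) = 0`, i.e. a polynomial
relation after multiplication by `G(b)`, which holds at `x = s t ∈ X`. Since `Q_k'(t, s t k) ≠ 0` on `X`:
`∂_i (s t k) = s t k * (N_{ik}/G)(s t) / t_i` (`t_i = x_{J i} ≠ 0`). The Fréchet derivative is
determined by the partial derivatives (linearity, `Pi.single`).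

PROOF of `IsEt.mul`.  `XG K b (G*G')` is the intersection of `XG K b G` with the open set
`{aeval x G' ≠ 0}`; shrink `U` to the open set of `t ∈ U` with `aeval (s t) G' ≠ 0` (`s` is continuous
on `U`, being differentiable in every coordinate).

`measurableSet_XG`: a closed set (intersection of zero sets of continuous functions) intersected with
an open set.
-/

set_option autoImplicit false

namespace Pool.Agent.EXI

open MvPolynomial MeasureTheory Pool.Agent.EXL
open scoped ENNReal

/-! ### Substitution -/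

section Sub

variable {K : Subfield ℂ} {ι : Type} {y : ℕ}

/-- substitution of `X_J` and `W` in a polynomial over `K[T]` -/
noncomputable def sub2 (W : MvPolynomial ι K) (J : Fin y → ι)
    (P : Polynomial (MvPolynomial (Fin y) K)) : MvPolynomial ι K :=
  P.eval₂ (rename J : MvPolynomial (Fin y) K →ₐ[K] MvPolynomial ι K).toRingHom W

theorem ev2_eq (t : Fin y → ℂ) (θ : ℂ) (P : Polynomial (MvPolynomial (Fin y) K)) :
    ev2 t θ P = P.eval₂ (aeval t : MvPolynomial (Fin y) K →ₐ[K] ℂ).toRingHom θ :=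
  Polynomial.eval_map _ _

theorem aeval_sub2 (W : MvPolynomial ι K) (J : Fin y → ι)
    (P : Polynomial (MvPolynomial (Fin y) K)) (x : ι → ℂ) :
    aeval x (sub2 W J P) = ev2 (x ∘ J) (aeval x W) P := by
  rw [ev2_eq]
  unfold sub2
  have h := Polynomial.hom_eval₂ P
    (rename J : MvPolynomial (Fin y) K →ₐ[K] MvPolynomial ι K).toRingHom
    (aeval x : MvPolynomial ι K →ₐ[K] ℂ).toRingHom W
  have e : (aeval x : MvPolynomial ι K →ₐ[K] ℂ).toRingHom.comp
      (rename J : MvPolynomial (Fin y) K →ₐ[K] MvPolynomial ι K).toRingHom =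
      (aeval (x ∘ J) : MvPolynomial (Fin y) K →ₐ[K] ℂ).toRingHom := by
    refine RingHom.ext fun q => ?_
    exact aeval_rename J x q
  rw [e] at h
  exact h

theorem continuous_aeval (p : MvPolynomial ι K) : Continuous fun x : ι → ℂ => aeval x p := by
  have : (fun x : ι → ℂ => aeval x p) = fun x => eval x (map (algebraMap K ℂ) p) := by
    funext x
    rw [aeval_def, eval₂_eq_eval_map]
  rw [this]
  exact MvPolynomial.continuous_eval _

theorem hasDerivAt_aeval (q : MvPolynomial (Fin y) K) {c : ℂ → Fin y → ℂ} {c' : Fin y → ℂ}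
    {u₀ : ℂ} (hc : ∀ j, HasDerivAt (fun u => c u j) (c' j) u₀) :
    HasDerivAt (fun u => aeval (c u) q) (∑ i, aeval (c u₀) (pderiv i q) * c' i) u₀ := by
  induction q using MvPolynomial.induction_on with
  | C a =>
    simp only [algHom_C, pderiv_C, map_zero, zero_mul, Finset.sum_const_zero]
    exact hasDerivAt_const _ _
  | add p q hp hq =>
    simp only [map_add, add_mul, Finset.sum_add_distrib]
    exact hp.add hq
  | mul_X p j hp =>
    have h := hp.mul (hc j)
    have e1 : (fun u => aeval (c u) (p * X j)) =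
        (fun u => aeval (c u) p) * (fun u => c u j) := by
      funext u
      simp only [map_mul, aeval_X, Pi.mul_apply]
    rw [e1]
    refine h.congr_deriv ?_
    have e2 : ∀ i, aeval (c u₀) (pderiv i (p * X j)) * c' i =
        aeval (c u₀) (pderiv i p) * c' i * c u₀ j +
          (if i = j then aeval (c u₀) p * c' i else 0) := by
      intro i
      rw [Derivation.leibniz, smul_eq_mul, smul_eq_mul, map_add, map_mul, map_mul, aeval_X]
      by_cases hij : i = j
      · subst hij
        rw [pderiv_X_self, map_one, if_pos rfl]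
        ring
      · rw [pderiv_X_of_ne (Ne.symm hij), map_zero, if_neg hij]
        ring
    rw [Finset.sum_congr rfl fun i _ => e2 i, Finset.sum_add_distrib, ← Finset.sum_mul,
      Finset.sum_ite_eq' Finset.univ j, if_pos (Finset.mem_univ j)]

theorem ev2_add (t : Fin y → ℂ) (θ : ℂ) (P Q : Polynomial (MvPolynomial (Fin y) K)) :
    ev2 t θ (P + Q) = ev2 t θ P + ev2 t θ Q := by
  unfold ev2
  rw [Polynomial.map_add, Polynomial.eval_add]

theorem ev2_monomial (t : Fin y → ℂ) (θ : ℂ) (n : ℕ) (q : MvPolynomial (Fin y) K) :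
    ev2 t θ (Polynomial.monomial n q) = aeval t q * θ ^ n := by
  unfold ev2
  rw [Polynomial.map_monomial, Polynomial.eval_monomial]
  rfl

theorem dT_add (i : Fin y) (P Q : Polynomial (MvPolynomial (Fin y) K)) :
    dT i (P + Q) = dT i P + dT i Q := by
  unfold dT
  exact Polynomial.sum_add_index P Q _ (fun n => by rw [map_zero, map_zero])
    (fun n a b => by rw [map_add, map_add])

theorem dT_monomial (i : Fin y) (n : ℕ) (q : MvPolynomial (Fin y) K) :
    dT i (Polynomial.monomial n q) = Polynomial.monomial n (pderiv i q) := by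
  have h0 : Polynomial.monomial n (pderiv i (0 : MvPolynomial (Fin y) K)) = 0 := by
    rw [map_zero, map_zero]
  rw [dT, Polynomial.sum_monomial_index _ _ h0]

theorem hasDerivAt_ev2 (Q : Polynomial (MvPolynomial (Fin y) K)) {c : ℂ → Fin y → ℂ}
    {c' : Fin y → ℂ} {θ : ℂ → ℂ} {θ' u₀ : ℂ}
    (hc : ∀ j, HasDerivAt (fun u => c u j) (c' j) u₀) (hθ : HasDerivAt θ θ' u₀) :
    HasDerivAt (fun u => ev2 (c u) (θ u) Q) (∑ i, ev2 (c u₀) (θ u₀) (dT i Q) * c' i +
      ev2 (c u₀) (θ u₀) (Polynomial.derivative Q) * θ') u₀ := by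
  induction Q using Polynomial.induction_on' with
  | add P Q hP hQ =>
    simp only [ev2_add, dT_add, Polynomial.derivative_add, add_mul, Finset.sum_add_distrib]
    refine (hP.add hQ).congr_deriv ?_
    ring
  | monomial n q =>
    have h := (hasDerivAt_aeval q hc).mul (hθ.pow n)
    have e1 : (fun u => ev2 (c u) (θ u) (Polynomial.monomial n q)) =
        (fun u => aeval (c u) q) * (θ ^ n) := by
      funext u
      rw [ev2_monomial]
      rfl
    rw [e1]
    refine h.congr_deriv ?_
    simp only [dT_monomial, ev2_monomial, Polynomial.derivative_monomial, Pi.pow_apply]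
    rw [Finset.sum_mul]
    congr 1
    · refine Finset.sum_congr rfl fun i _ => ?_
      ring
    · rw [map_mul]
      have : aeval (c u₀) (n : MvPolynomial (Fin y) K) = (n : ℂ) := map_natCast _ n
      rw [this]
      ring

end Sub

theorem loc (K : Subfield ℂ) {ι : Type} [Fintype ι] (b : ι → ℂ) {y : ℕ} (J : Fin y → ι)
    (hb : ∀ k, b k ≠ 0) (hJ : AlgebraicIndependent K (b ∘ J))
    (halg : ∀ k, IsAlgebraic (Algebra.adjoin K (Set.range (b ∘ J))) (b k))
    (D : Fin y → Derivation ℤ ℂ ℂ) (hD : ∀ i, D i ∈ DerOver (K : Set ℂ))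
    (hDJ : ∀ i j, D i (b (J j)) = if i = j then b (J j) else 0)
    (G : MvPolynomial ι K) (hG : aeval b G ≠ 0) (N : Fin y → ι → MvPolynomial ι K)
    (hN : ∀ i k, D i (b k) / b k = aeval b (N i k) / aeval b G) :
    ∃ G₁ : MvPolynomial ι K, aeval b G₁ ≠ 0 ∧
      IsEt (XG K b (G * G₁)) J (fun i k x => aeval x (N i k) / aeval x G) := by
  classical
  choose Q hQ0 hQ1 using fun k => rel K b J hJ halg k
  obtain ⟨q, hq⟩ : ∃ q : ι → MvPolynomial ι K, q = fun k =>
    sub2 (X k) J (Polynomial.derivative (Q k)) := ⟨_, rfl⟩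
  have hqx : ∀ k (x : ι → ℂ), aeval x (q k) = ev2 (x ∘ J) (x k) (Polynomial.derivative (Q k)) := by
    intro k x
    rw [hq, aeval_sub2, aeval_X]
  obtain ⟨R, hR⟩ : ∃ R : MvPolynomial ι K, R = (∏ k, X k) * ∏ k, q k := ⟨_, rfl⟩
  have hRx : ∀ x : ι → ℂ, aeval x R = (∏ k, x k) * ∏ k, aeval x (q k) := by
    intro x
    rw [hR, map_mul, map_prod, map_prod]
    simp only [aeval_X]
  have hRb : aeval b R ≠ 0 := by
    rw [hRx]
    refine mul_ne_zero (Finset.prod_ne_zero_iff.2 fun k _ => hb k)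
      (Finset.prod_ne_zero_iff.2 fun k _ => ?_)
    rw [hqx]
    exact hQ1 k
  obtain ⟨Dd, P, A, W, hDd, -, -, -, -, hx, ht⟩ := str K b J hJ halg (G * R) (by
    rw [map_mul]
    exact mul_ne_zero hG hRb)
  have hDb : aeval (b ∘ J) Dd ≠ 0 := by
    intro h
    exact hDd (hJ.eq_zero_of_aeval_eq_zero Dd h)
  refine ⟨R * rename J Dd, ?_, ?_⟩
  · rw [map_mul, aeval_rename]
    exact mul_ne_zero hRb hDb
  intro x₀ hx₀
  have hx0D : aeval (x₀ ∘ J) Dd ≠ 0 := by
    have h := hx₀.2
    rw [map_mul, map_mul, aeval_rename] at h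
    exact right_ne_zero_of_mul (right_ne_zero_of_mul h)
  obtain ⟨hsep, -⟩ := ht (x₀ ∘ J) hx0D
  have hP0 := (hx x₀ hx₀.1).1
  have hP1 : ev2 (x₀ ∘ J) (aeval x₀ W) (Polynomial.derivative P) ≠ 0 := by
    unfold ev2
    rw [← Polynomial.derivative_map]
    intro h0
    have h1 := hsep.eval₂_derivative_ne_zero (RingHom.id ℂ) (x := aeval x₀ W) (by
      rw [Polynomial.eval₂_id]
      exact hP0)
    rw [Polynomial.eval₂_id] at h1
    exact h1 h0
  obtain ⟨U, V, g, hU, hV, hxU, hxV, hg, huniq⟩ := imp P (x₀ ∘ J) (aeval x₀ W) hP0 hP1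
  obtain ⟨s, hs⟩ : ∃ s : (Fin y → ℂ) → ι → ℂ, s = fun t k => ev2 t (g t) (A k) / aeval t Dd :=
    ⟨_, rfl⟩
  -- the points of the section
  have key : ∀ t ∈ U, aeval t Dd ≠ 0 → s t ∈ XG K b (G * R) ∧ s t ∘ J = t ∧
      aeval (s t) W = g t := by
    intro t htU htD
    obtain ⟨-, h2⟩ := ht t htD
    obtain ⟨x, hxX, hxJ, hxW⟩ := h2 (g t) (hg t htU).2.2
    have h3 := (hx x hxX.1).2
    have e : x = s t := by
      funext k
      rw [hs]
      have h4 := h3 k
      rw [hxJ, hxW] at h4
      rw [eq_div_iff htD, mul_comm]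
      exact h4
    rw [← e]
    exact ⟨hxX, hxJ, hxW⟩
  have hUD : IsOpen (U ∩ {t | aeval t Dd ≠ 0}) :=
    hU.inter (isOpen_ne_fun (continuous_aeval Dd) continuous_const)
  have hcJ : Continuous fun x : ι → ℂ => x ∘ J :=
    continuous_pi fun i => continuous_apply (J i)
  refine ⟨U ∩ {t | aeval t Dd ≠ 0},
    {x | x ∘ J ∈ U ∩ {t | aeval t Dd ≠ 0}} ∩ {x | aeval x W ∈ V}, s, hUD,
    (hUD.preimage hcJ).inter (hV.preimage (continuous_aeval W)), ⟨⟨hxU, hx0D⟩, hxV⟩, ?_, ?_, ?_⟩
  · rintro t ⟨htU, htD⟩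
    obtain ⟨h1, h2, h3⟩ := key t htU htD
    refine ⟨⟨h1.1, ?_⟩, h2⟩
    rw [← mul_assoc, map_mul, aeval_rename, h2]
    exact mul_ne_zero h1.2 htD
  · rintro x ⟨hxX, ⟨hxU', hxD'⟩, hxV'⟩
    refine ⟨⟨hxU', hxD'⟩, ?_⟩
    obtain ⟨h1, h2⟩ := hx x hxX.1
    have h3 := huniq (x ∘ J) hxU' (aeval x W) hxV' h1
    funext k
    rw [hs]
    have h4 := h2 k
    rw [h3] at h4
    show ev2 (x ∘ J) (g (x ∘ J)) (A k) / aeval (x ∘ J) Dd = x k
    rw [div_eq_iff hxD', mul_comm]
    exact h4.symm
  · rintro t ⟨htU, htD⟩ k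
    obtain ⟨hXt, hJt, -⟩ := key t htU htD
    -- non-vanishing
    have hGt : aeval (s t) G ≠ 0 := by
      have h := hXt.2
      rw [map_mul] at h
      exact left_ne_zero_of_mul h
    have hRt : aeval (s t) R ≠ 0 := by
      have h := hXt.2
      rw [map_mul] at h
      exact right_ne_zero_of_mul h
    rw [hRx] at hRt
    have hst : ∀ j, s t j ≠ 0 := fun j =>
      (Finset.prod_ne_zero_iff.1 (left_ne_zero_of_mul hRt)) j (Finset.mem_univ j)
    have hti : ∀ i, t i = s t (J i) := fun i => (congrFun hJt i).symm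
    have hqt : ev2 t (s t k) (Polynomial.derivative (Q k)) ≠ 0 := by
      have h := (Finset.prod_ne_zero_iff.1 (right_ne_zero_of_mul hRt)) k (Finset.mem_univ k)
      rw [hqx, hJt] at h
      exact h
    -- differentiability
    have hdiff : DifferentiableAt ℂ (fun t => s t k) t := by
      have h1 : DifferentiableAt ℂ (fun t => ev2 t (g t) (A k)) t := by
        have h2 : DifferentiableAt ℂ (fun p : (Fin y → ℂ) × ℂ => ev2 p.1 p.2 (A k)) (t, g t) :=
          (ev2_differentiable (A k)).differentiable (by simp) (t, g t)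
        exact h2.comp (f := fun t => (t, g t)) t (differentiableAt_id.prodMk (hg t htU).1)
      have h3 : DifferentiableAt ℂ (fun t : Fin y → ℂ => aeval t Dd) t := by
        have h4 : DifferentiableAt ℂ (fun p : (Fin y → ℂ) × ℂ =>
            ev2 p.1 p.2 (Polynomial.C Dd)) (t, (0 : ℂ)) :=
          (ev2_differentiable (Polynomial.C Dd)).differentiable (by simp) (t, (0 : ℂ))
        have h5 := h4.comp (f := fun t => (t, (0 : ℂ))) t
          (differentiableAt_id.prodMk (differentiableAt_const (0 : ℂ)))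
        have e : (fun t : Fin y → ℂ => aeval t Dd) = (fun p : (Fin y → ℂ) × ℂ =>
            ev2 p.1 p.2 (Polynomial.C Dd)) ∘ fun t => (t, (0 : ℂ)) := by
          funext t
          show _ = ev2 t 0 (Polynomial.C Dd)
          rw [← Polynomial.monomial_zero_left, ev2_monomial, pow_zero, mul_one]
        rw [e]
        exact h5
      rw [hs]
      have h4 := h1.mul (DifferentiableAt.inv (h := fun t : Fin y → ℂ => aeval t Dd) h3 htD)
      exact h4
    have hf := hdiff.hasFDerivAt
    refine hf.congr_fderiv ?_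
    -- the partial derivatives
    have hpart : ∀ i, fderiv ℂ (fun t => s t k) t (Pi.single i 1) =
        s t k * (aeval (s t) (N i k) / aeval (s t) G) / t i := by
      intro i
      have hc : ∀ j, HasDerivAt (fun u : ℂ => (t + u • (Pi.single i (1 : ℂ) : Fin y → ℂ)) j)
          ((Pi.single i (1 : ℂ) : Fin y → ℂ) j) 0 := by
        intro j
        have h1 : HasDerivAt (fun u : ℂ => t j + u * (Pi.single i (1 : ℂ) : Fin y → ℂ) j)
            (1 * (Pi.single i (1 : ℂ) : Fin y → ℂ) j) 0 :=
          ((hasDerivAt_id (0 : ℂ)).mul_const _).const_add _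
        rw [one_mul] at h1
        exact h1
      have hc0 : t + (0 : ℂ) • (Pi.single i (1 : ℂ) : Fin y → ℂ) = t := by
        rw [zero_smul, add_zero]
      have hcv : HasDerivAt (fun u : ℂ => t + u • (Pi.single i (1 : ℂ) : Fin y → ℂ))
          (Pi.single i (1 : ℂ) : Fin y → ℂ) 0 := hasDerivAt_pi.2 hc
      have hθ : HasDerivAt (fun u : ℂ => s (t + u • (Pi.single i (1 : ℂ) : Fin y → ℂ)) k)
          (fderiv ℂ (fun t => s t k) t (Pi.single i 1)) 0 := by
        have hf' : HasFDerivAt (fun t => s t k) (fderiv ℂ (fun t => s t k) t)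
            (t + (0 : ℂ) • (Pi.single i (1 : ℂ) : Fin y → ℂ)) := by
          rw [hc0]
          exact hf
        exact hf'.comp_hasDerivAt (0 : ℂ) hcv
      have hd := hasDerivAt_ev2 (Q k) hc hθ
      -- the function vanishes
      have hz : (fun u : ℂ => ev2 (t + u • (Pi.single i (1 : ℂ) : Fin y → ℂ))
          (s (t + u • (Pi.single i (1 : ℂ) : Fin y → ℂ)) k) (Q k)) =ᶠ[nhds 0] fun _ => 0 := by
        have h1 : ∀ᶠ u : ℂ in nhds 0, t + u • (Pi.single i (1 : ℂ) : Fin y → ℂ) ∈
            U ∩ {t | aeval t Dd ≠ 0} := by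
          refine hcv.continuousAt.eventually_mem ?_
          rw [hc0]
          exact hUD.mem_nhds ⟨htU, htD⟩
        filter_upwards [h1] with u hu
        obtain ⟨k1, k2, -⟩ := key _ hu.1 hu.2
        have k3 := k1.1 (sub2 (X k) J (Q k)) (by
          rw [aeval_sub2, aeval_X]
          exact hQ0 k)
        rw [aeval_sub2, aeval_X, k2] at k3
        exact k3
      have hd0 := (hd.congr_of_eventuallyEq hz.symm).unique (hasDerivAt_const (0 : ℂ) (0 : ℂ))
      simp only [hc0] at hd0
      rw [Finset.sum_eq_single i (fun j _ hji => by rw [Pi.single_eq_of_ne hji, mul_zero])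
        (fun h => absurd (Finset.mem_univ i) h), Pi.single_eq_same, mul_one] at hd0
      -- the relation of `b`
      have hrelb : aeval b (sub2 (X k) J (dT i (Q k)) * X (J i) * G + q k * X k * N i k) = 0 := by
        have h1 := der_ev2 K (D i) (hD i) (Q k) (b ∘ J) (b k)
        rw [hQ0 k, map_zero, Finset.sum_eq_single i (fun j _ hji => by
          show _ * D i (b (J j)) = 0
          rw [hDJ, if_neg (Ne.symm hji), mul_zero])
          (fun h => absurd (Finset.mem_univ i) h)] at h1
        have h2 : D i ((b ∘ J) i) = b (J i) := by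
          show D i (b (J i)) = _
          rw [hDJ, if_pos rfl]
        have h3 : D i (b k) * aeval b G = b k * aeval b (N i k) := by
          have := hN i k
          rw [div_eq_div_iff (hb k) hG] at this
          rw [this]
          ring
        rw [h2] at h1
        rw [map_add, map_mul, map_mul, map_mul, map_mul, aeval_sub2, aeval_X, aeval_X, hqx]
        linear_combination (-aeval b G) * h1 -
          ev2 (b ∘ J) (b k) (Polynomial.derivative (Q k)) * h3
      have hrelx := hXt.1 _ hrelb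
      rw [map_add, map_mul, map_mul, map_mul, map_mul, aeval_sub2, aeval_X, aeval_X, hqx, hJt,
        ← hti i] at hrelx
      have hti0 : t i ≠ 0 := by
        rw [hti i]
        exact hst _
      rw [eq_div_iff hti0, mul_div_assoc', eq_div_iff hGt]
      refine mul_left_cancel₀ hqt ?_
      linear_combination (t i * aeval (s t) G) * hd0 - hrelx
    refine ContinuousLinearMap.ext fun v => ?_
    rw [sum_apply]
    have hv : v = ∑ i, v i • (Pi.single i (1 : ℂ) : Fin y → ℂ) := by
      funext j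
      rw [Finset.sum_apply]
      simp [Pi.single_apply]
    conv_lhs => rw [hv]
    rw [map_sum]
    refine Finset.sum_congr rfl fun i _ => ?_
    rw [map_smul, hpart i, smul_apply, ContinuousLinearMap.proj_apply,
      smul_eq_mul, smul_eq_mul, mul_comm]

theorem IsEt.mul {K : Subfield ℂ} {ι : Type} [Fintype ι] {b : ι → ℂ} {y : ℕ} {J : Fin y → ι}
    {l : Fin y → ι → (ι → ℂ) → ℂ} {G : MvPolynomial ι K} (h : IsEt (XG K b G) J l)
    (G' : MvPolynomial ι K) : IsEt (XG K b (G * G')) J l := by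
  intro x₀ hx₀
  have h0 : x₀ ∈ XG K b G := by
    refine ⟨hx₀.1, ?_⟩
    have h1 := hx₀.2
    rw [map_mul] at h1
    exact left_ne_zero_of_mul h1
  obtain ⟨U, O, s, hU, hO, hxO, hs, hxs, hd⟩ := h x₀ h0
  have hcont : ContinuousOn s U := fun t ht =>
    ContinuousAt.continuousWithinAt (continuousAt_pi.2 fun k => (hd t ht k).continuousAt)
  have hopen : IsOpen (U ∩ s ⁻¹' {x | aeval x G' ≠ 0}) :=
    hcont.isOpen_inter_preimage hU (isOpen_ne_fun (continuous_aeval G') continuous_const)
  refine ⟨U ∩ s ⁻¹' {x | aeval x G' ≠ 0}, O, s, hopen, hO, hxO, ?_, ?_, ?_⟩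
  · rintro t ⟨htU, htG⟩
    obtain ⟨h1, h2⟩ := hs t htU
    refine ⟨⟨h1.1, ?_⟩, h2⟩
    rw [map_mul]
    exact mul_ne_zero h1.2 htG
  · rintro x ⟨hxX, hxO'⟩
    have h1 := hxX.2
    rw [map_mul] at h1
    obtain ⟨h2, h3⟩ := hxs x ⟨⟨hxX.1, left_ne_zero_of_mul h1⟩, hxO'⟩
    refine ⟨⟨h2, ?_⟩, h3⟩
    show aeval (s (x ∘ J)) G' ≠ 0
    rw [h3]
    exact right_ne_zero_of_mul h1
  · rintro t ⟨htU, -⟩ k
    exact hd t htU k

theorem measurableSet_XG (K : Subfield ℂ) {ι : Type} [Fintype ι] (b : ι → ℂ)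
    (G : MvPolynomial ι K) : MeasurableSet (XG K b G) := by
  have h1 : IsClosed (VV K b) := by
    have e : VV K b = ⋂ (p : MvPolynomial ι K) (_ : aeval b p = 0), {x | aeval x p = 0} := by
      ext x
      simp only [VV, Set.mem_iInter]
      rfl
    rw [e]
    exact isClosed_iInter fun p => isClosed_iInter fun _ =>
      isClosed_eq (continuous_aeval p) continuous_const
  have h2 : IsOpen {x : ι → ℂ | aeval x G ≠ 0} :=
    isOpen_ne_fun (continuous_aeval G) continuous_const
  exact h1.measurableSet.inter h2.measurableSet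

end Pool.Agent.EXI
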