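import Pool.Agent.EXI.TADefs

/-!
# EXI / TAInt: complex integrals with vanishing fibre sums

PROOF.  Real and imaginary parts: it suffices to treat real valued `g` (`integral_re_add_im`, the
finite sums of the real and imaginary parts vanish). For real `g`: `∫ g = (∫⁻ ofReal g).toReal -
(∫⁻ ofReal (-g)).toReal` (`integral_eq_lintegral_pos_part_sub_lintegral_neg_part`). By `hm` the two are
`∫⁻ t, ∑' x : fib X J t, ofReal (± g x)`; for almost every `t` the fibre is finite and the two sums are
equal, because the difference of the (finite) sums of `max (g x) 0` and `max (-g x) 0` is the sum of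
the `g x`, which is `0`. So the integrals agree (`lintegral_congr_ae`).
-/

set_option autoImplicit false

namespace Pool.Agent.EXI

open MvPolynomial MeasureTheory Pool.Agent.EXL
open scoped ENNReal

theorem int_zero_real {ι : Type} [Fintype ι] (X : Set (ι → ℂ)) {y : ℕ} (J : Fin y → ι)
    (m : Measure (ι → ℂ))
    (hm : ∀ g : (ι → ℂ) → ℝ≥0∞, Measurable g →
      ∫⁻ x, g x ∂m = ∫⁻ t, ∑' x : fib X J t, g x ∂(mu y))
    (g : (ι → ℂ) → ℝ) (hg : Measurable g) (hi : Integrable g m)
    (h0 : ∀ᵐ t ∂(mu y), (fib X J t).Finite ∧ ∑ᶠ x ∈ fib X J t, g x = 0) :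
    ∫ x, g x ∂m = 0 := by
  have key : ∫⁻ x, ENNReal.ofReal (g x) ∂m = ∫⁻ x, ENNReal.ofReal (-g x) ∂m := by
    rw [hm (fun x => ENNReal.ofReal (g x)) hg.ennreal_ofReal,
      hm (fun x => ENNReal.ofReal (-g x)) hg.neg.ennreal_ofReal]
    apply lintegral_congr_ae
    filter_upwards [h0] with t ht
    obtain ⟨hfin, hsum⟩ := ht
    have : Fintype (fib X J t) := hfin.fintype
    have hsum' : ∑ x : fib X J t, g x = 0 := by
      rw [← hsum, ← finsum_set_coe_eq_finsum_mem, finsum_eq_sum_of_fintype]
    rw [tsum_fintype, tsum_fintype]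
    have e1 : ∑ x : fib X J t, ENNReal.ofReal (g x) =
        ENNReal.ofReal (∑ x : fib X J t, max (g x) 0) := by
      rw [ENNReal.ofReal_sum_of_nonneg (fun _ _ => le_max_right _ _)]
      refine Finset.sum_congr rfl fun x _ => ?_
      rw [ENNReal.ofReal_max, ENNReal.ofReal_zero, max_eq_left (zero_le)]
    have e2 : ∑ x : fib X J t, ENNReal.ofReal (-g x) =
        ENNReal.ofReal (∑ x : fib X J t, max (-g x) 0) := by
      rw [ENNReal.ofReal_sum_of_nonneg (fun _ _ => le_max_right _ _)]
      refine Finset.sum_congr rfl fun x _ => ?_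
      rw [ENNReal.ofReal_max, ENNReal.ofReal_zero, max_eq_left (zero_le)]
    rw [e1, e2]
    congr 1
    have e3 : ∑ x : fib X J t, max (g x) 0 - ∑ x : fib X J t, max (-g x) 0 =
        ∑ x : fib X J t, g x := by
      rw [← Finset.sum_sub_distrib]
      refine Finset.sum_congr rfl fun x _ => ?_
      rcases le_total (g x) 0 with h | h
      · rw [max_eq_right h, max_eq_left (by linarith)]
        ring
      · rw [max_eq_left h, max_eq_right (by linarith)]
        ring
    linarith
  rw [integral_eq_lintegral_pos_part_sub_lintegral_neg_part hi, key, sub_self]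

theorem int_zero {ι : Type} [Fintype ι] (X : Set (ι → ℂ)) {y : ℕ} (J : Fin y → ι)
    (m : Measure (ι → ℂ))
    (hm : ∀ g : (ι → ℂ) → ℝ≥0∞, Measurable g →
      ∫⁻ x, g x ∂m = ∫⁻ t, ∑' x : fib X J t, g x ∂(mu y))
    (g : (ι → ℂ) → ℂ) (hg : Measurable g) (hi : Integrable g m)
    (h0 : ∀ᵐ t ∂(mu y), (fib X J t).Finite ∧ ∑ᶠ x ∈ fib X J t, g x = 0) :
    ∫ x, g x ∂m = 0 := by
  have hre : ∫ x, (g x).re ∂m = 0 := by
    refine int_zero_real X J m hm (fun x => (g x).re) (Complex.measurable_re.comp hg) hi.re ?_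
    filter_upwards [h0] with t ht
    refine ⟨ht.1, ?_⟩
    have h1 := congrArg Complex.re ht.2
    rw [finsum_mem_eq_finite_toFinset_sum _ ht.1, Complex.re_sum] at h1
    rw [finsum_mem_eq_finite_toFinset_sum _ ht.1]
    exact h1
  have him : ∫ x, (g x).im ∂m = 0 := by
    refine int_zero_real X J m hm (fun x => (g x).im) (Complex.measurable_im.comp hg) hi.im ?_
    filter_upwards [h0] with t ht
    refine ⟨ht.1, ?_⟩
    have h1 := congrArg Complex.im ht.2
    rw [finsum_mem_eq_finite_toFinset_sum _ ht.1, Complex.im_sum] at h1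
    rw [finsum_mem_eq_finite_toFinset_sum _ ht.1]
    exact h1
  have h := integral_re_add_im hi
  have e1 : ∫ x, RCLike.re (g x) ∂m = 0 := hre
  have e2 : ∫ x, RCLike.im (g x) ∂m = 0 := him
  rw [e1, e2] at h
  rw [← h]
  simp

end Pool.Agent.EXI
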