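import Pool.Agent.EXI.TANu
import Pool.Agent.EXI.TAInt

/-!
# EXI / TAMain: the energy estimate

NOTATION.  `m_J = m.withDensity (ofReal ‖κ J x‖^2)`, so `hm` says
`∫⁻ g dm_J = ∫⁻ t, ∑' x : fib X J t, g x ∂mu`. `S ρ = Xr X ρ` (measurable). `E ρ = ∫⁻ x in S ρ, ofReal
(‖R J₀ x‖^2) ∂m`.
(1) `m_J (S ρ) ≤ δ (4πρ)^y`: for `x ∈ S ρ` one has `x∘J ∈ LogB y ρ` (`hX0`), so for almost all `t` the
sum over the fibre of the indicator function of `S ρ` is `≤ δ` and is `0` unless `t ∈ LogB y ρ`;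
`mu_logB`.
(2) `E ρ ≤ C ρ^y`, in particular finite (`ρ ≥ 1`): `‖R J₀ x‖^2 ≤ |Γ| ∑ ‖c J‖^2 ‖κ J x‖^2` on `X` (`h1`,
Cauchy-Schwarz `sq_sum_le_card_mul_sum_sq`) and (1).
(3) `E ρ` as a real number is `∫_{S ρ} R J₀ * conj (R J₀) dm = ∑_{J ∈ Γ} conj (c J) ∫_{S ρ} R J₀ * conj
(κ J) dm = ∑ conj (c J) ∫_{S ρ} R J * ‖κ J‖^2 dm` (`h1`, `h2`), `= ∑ conj (c J) ∫_{S ρ} R J dm_J`
(`integral_withDensity_eq_integral_smul` or keep the density). All functions are integrable on `S ρ`: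
`‖R J₀‖ ‖κ J‖ ≤ (‖R J₀‖^2 + ‖κ J‖^2)/2`.
(4) Estimate of `∫_{S ρ} R J dm_J` for `J ∈ Γ`, `ρ ≥ ρ₀`, with `E, c₀, C, c` from `hE`: split
`S ρ = A ∪ B ∪ D` with `A = {x ∈ S ρ | x∘J ∈ LogB y (c₀ρ) \ E}`, `B = {x∘J ∉ LogB y (c₀ρ), x∘J ∉ E}`,
`D = {x∘J ∈ E}`. By the first part of `hE` `A = {x ∈ X | x∘J ∈ LogB y (c₀ρ) \ E}`, so the function
`A.indicator (R J)` has vanishing fibre sums (it is `R J` on the whole fibre or `0` on the whole
fibre; `hδ`) and `∫_A R J dm_J = 0` by `int_zero` (for the measure `m_J`). On `B`: `‖R J‖ ≤ C exp(-cρ)`,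
so the integral is `≤ C exp(-cρ) m_J(S ρ)`. On `D`: Cauchy-Schwarz
`(∫_D ‖R J‖ dm_J)^2 ≤ m_J(D) ∫_{S ρ} ‖R J‖^2 dm_J`, `m_J(D) ≤ δ mu(E)` (fibre formula), and
`∫_{S ρ} ‖R J‖^2 dm_J = ∫_{S ρ} ‖R J‖^2 ‖κ J‖^2 dm = E ρ ≤ C ρ^y` (`h2`).
(5) So `E ρ ≤ C' ρ^y exp(-c' ρ)` for large `ρ`, which tends to `0`; `E` is monotone in `ρ`, so
`E ρ = 0` for all `ρ`, and `R J₀ = 0` `m`-almost everywhere on `X = ⋃ S n`.
(6) Conclusion: for `J ∈ Γ` let `g` be the indicator function (value `1`) of `{x ∈ X | R J x ≠ 0}`.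
`g x * ‖κ J x‖^2 = 0` for `m`-almost every `x` (if `x ∈ X`, `R J x ≠ 0`, `κ J x ≠ 0` then
`R J₀ x ≠ 0` by `h2`), so `∫⁻ t, ∑' x : fib X J t, g x ∂mu = 0`, and by `hmeas`
(`lintegral_eq_zero_iff`) the sum is `0` for almost all `t`, i.e. `g = 0` on the fibre
(`ENNReal.tsum_eq_zero`).
-/

set_option autoImplicit false

namespace Pool.Agent.EXI

open MvPolynomial MeasureTheory Pool.Agent.EXL
open scoped ENNReal

private theorem measurableSet_Xr' {ι : Type} [Fintype ι] {X : Set (ι → ℂ)} (hX : MeasurableSet X)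
    (ρ : ℝ) : MeasurableSet (Xr X ρ) := by
  have e : Xr X ρ = X ∩ ⋂ k, {x : ι → ℂ | |Real.log ‖x k‖| < ρ} := by
    ext x
    simp [Xr]
  rw [e]
  exact hX.inter (MeasurableSet.iInter fun k => measurableSet_lt
    (continuous_abs.measurable.comp (Real.measurable_log.comp
      (measurable_norm.comp (measurable_pi_apply k)))) measurable_const)

private theorem meas_le' {ι : Type} [Fintype ι] {y : ℕ} {X : Set (ι → ℂ)} {J : Fin y → ι}
    {μ : Measure (ι → ℂ)}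
    (hm : ∀ g : (ι → ℂ) → ℝ≥0∞, Measurable g →
      ∫⁻ x, g x ∂μ = ∫⁻ t, ∑' x : fib X J t, g x ∂(mu y)) {δ : ℕ}
    (hδ : ∀ᵐ t ∂(mu y), (fib X J t).Finite ∧ (fib X J t).ncard ≤ δ)
    {A : Set (ι → ℂ)} (hA : MeasurableSet A) {T : Set (Fin y → ℂ)} (hT : MeasurableSet T)
    (h : ∀ x ∈ X, x ∈ A → x ∘ J ∈ T) : μ A ≤ δ * mu y T := by
  have e : μ A = ∫⁻ x, A.indicator 1 x ∂μ := (lintegral_indicator_one hA).symm
  rw [e, hm _ (measurable_one.indicator hA)]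
  have e2 : (δ : ℝ≥0∞) * mu y T = ∫⁻ t, T.indicator (fun _ => (δ : ℝ≥0∞)) t ∂(mu y) := by
    rw [lintegral_indicator_const hT]
  rw [e2]
  apply lintegral_mono_ae
  filter_upwards [hδ] with t ht
  by_cases hT' : t ∈ T
  · rw [Set.indicator_of_mem hT']
    refine (ENNReal.tsum_le_tsum (g := fun _ => (1 : ℝ≥0∞)) fun x => ?_).trans ?_
    · exact Set.indicator_le_self' (fun _ _ => zero_le) _
    · rw [ENNReal.tsum_set_one, ← ht.1.cast_ncard_eq]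
      exact_mod_cast ht.2
  · rw [Set.indicator_of_notMem hT']
    refine le_of_eq (ENNReal.tsum_eq_zero.2 fun x => ?_)
    refine Set.indicator_of_notMem (fun hx => hT' ?_) _
    have := h x x.2.1 hx
    rwa [x.2.2] at this

private theorem one {ι : Type} [Fintype ι] {y : ℕ} {X : Set (ι → ℂ)} (hX : MeasurableSet X)
    {J : Fin y → ι} {μ : Measure (ι → ℂ)}
    (hm : ∀ g : (ι → ℂ) → ℝ≥0∞, Measurable g →
      ∫⁻ x, g x ∂μ = ∫⁻ t, ∑' x : fib X J t, g x ∂(mu y))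
    {δ : ℕ} {f : (ι → ℂ) → ℂ} (hf : Measurable f)
    (hδ : ∀ᵐ t ∂(mu y), (fib X J t).Finite ∧ (fib X J t).ncard ≤ δ ∧
      ∑ᶠ x ∈ fib X J t, f x = 0)
    {ρ C c c₀ Q : ℝ} (hρ : 1 ≤ ρ) (hC : 0 < C) (E : Set (Fin y → ℂ)) (hE : MeasurableSet E)
    (hE1 : mu y E ≤ ENNReal.ofReal (C * Real.exp (-c * ρ)))
    (hE2 : ∀ x ∈ X, x ∘ J ∈ LogB y (c₀ * ρ) → x ∘ J ∉ E → x ∈ Xr X ρ)
    (hE3 : ∀ x ∈ Xr X ρ, x ∘ J ∉ LogB y (c₀ * ρ) → x ∘ J ∉ E →
      ‖f x‖ ≤ C * Real.exp (-c * ρ))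
    (hQ0 : 0 ≤ Q) (hQ : ∫⁻ x in Xr X ρ, ENNReal.ofReal (‖f x‖ ^ 2) ∂μ ≤ ENNReal.ofReal Q)
    (hS1 : μ (Xr X ρ) ≤ ENNReal.ofReal (δ * (4 * Real.pi * ρ) ^ y)) :
    ‖∫ x in Xr X ρ, f x ∂μ‖ ≤ C * Real.exp (-c * ρ) * (δ * (4 * Real.pi * ρ) ^ y) +
      (Real.exp (-(c / 2) * ρ) * Q +
        Real.exp (c / 2 * ρ) * (δ * (C * Real.exp (-c * ρ)))) := by
  have hS := measurableSet_Xr' hX ρ
  have hJm : Measurable fun x : ι → ℂ => x ∘ J :=
    measurable_pi_lambda _ fun i => measurable_pi_apply (J i)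
  have hL := measurableSet_LogB y (c₀ * ρ)
  have hδ' : ∀ᵐ t ∂(mu y), (fib X J t).Finite ∧ (fib X J t).ncard ≤ δ := by
    filter_upwards [hδ] with t ht
    exact ⟨ht.1, ht.2.1⟩
  obtain ⟨A, hAdef⟩ : ∃ A : Set (ι → ℂ),
      A = X ∩ ((fun x : ι → ℂ => x ∘ J) ⁻¹' (LogB y (c₀ * ρ) \ E)) := ⟨_, rfl⟩
  have hA : MeasurableSet A := by
    rw [hAdef]
    exact hX.inter (hJm (hL.diff hE))
  have hAS : A ⊆ Xr X ρ := by
    rw [hAdef]
    rintro x ⟨h1, h2, h3⟩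
    exact hE2 x h1 h2 h3
  have hfe : Measurable fun x => ENNReal.ofReal (‖f x‖ ^ 2) :=
    ENNReal.measurable_ofReal.comp (hf.norm.pow_const 2)
  have hint : IntegrableOn f (Xr X ρ) μ := by
    refine ⟨hf.aestronglyMeasurable, ?_⟩
    rw [hasFiniteIntegral_iff_enorm]
    have h1 : ∫⁻ x in Xr X ρ, ‖f x‖ₑ ∂μ ≤
        ∫⁻ x in Xr X ρ, (ENNReal.ofReal (‖f x‖ ^ 2) + 1) ∂μ := by
      apply lintegral_mono
      intro x
      show ‖f x‖ₑ ≤ ENNReal.ofReal (‖f x‖ ^ 2) + 1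
      rw [← ofReal_norm, ← ENNReal.ofReal_one, ← ENNReal.ofReal_add (by positivity)
        zero_le_one]
      apply ENNReal.ofReal_le_ofReal
      nlinarith [sq_nonneg (‖f x‖ - 1), sq_nonneg ‖f x‖]
    refine h1.trans_lt ?_
    rw [lintegral_add_left hfe]
    refine ENNReal.add_lt_top.2 ⟨hQ.trans_lt ENNReal.ofReal_lt_top, ?_⟩
    simp only [lintegral_const, one_mul, Measure.restrict_apply, MeasurableSet.univ,
      Set.univ_inter]
    exact hS1.trans_lt ENNReal.ofReal_lt_top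
  have h0 : ∫ x in A, f x ∂μ = 0 := by
    rw [← integral_indicator hA]
    refine int_zero X J μ hm (A.indicator f) (hf.indicator hA) ?_ ?_
    · exact (integrable_indicator_iff hA).2 (hint.mono_set hAS)
    · filter_upwards [hδ] with t ht
      refine ⟨ht.1, ?_⟩
      by_cases h : t ∈ LogB y (c₀ * ρ) \ E
      · rw [← ht.2.2]
        refine finsum_mem_congr rfl fun x hx => Set.indicator_of_mem ?_ _
        rw [hAdef]
        refine ⟨hx.1, ?_⟩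
        show x ∘ J ∈ LogB y (c₀ * ρ) \ E
        rw [hx.2]
        exact h
      · refine (finsum_mem_congr rfl fun x hx => ?_).trans (finsum_mem_zero _)
        refine Set.indicator_of_notMem (fun hxA => h ?_) _
        rw [hAdef] at hxA
        have := hxA.2
        show t ∈ LogB y (c₀ * ρ) \ E
        rw [← hx.2]
        exact this
  have h1 : ∫ x in Xr X ρ, f x ∂μ = ∫ x in Xr X ρ \ A, f x ∂μ := by
    rw [setIntegral_sdiff hA hint hAS, h0, sub_zero]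
  obtain ⟨B, hBdef⟩ : ∃ B : Set (ι → ℂ),
      B = Xr X ρ ∩ ((fun x : ι → ℂ => x ∘ J) ⁻¹' ((LogB y (c₀ * ρ))ᶜ \ E)) := ⟨_, rfl⟩
  obtain ⟨D, hDdef⟩ : ∃ D : Set (ι → ℂ),
      D = Xr X ρ ∩ ((fun x : ι → ℂ => x ∘ J) ⁻¹' E) := ⟨_, rfl⟩
  have hB : MeasurableSet B := by
    rw [hBdef]
    exact hS.inter (hJm (hL.compl.diff hE))
  have hD : MeasurableSet D := by
    rw [hDdef]
    exact hS.inter (hJm hE)
  have hsub : Xr X ρ \ A ⊆ B ∪ D := by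
    rintro x ⟨hx1, hx2⟩
    by_cases h3 : x ∘ J ∈ E
    · right
      rw [hDdef]
      exact ⟨hx1, h3⟩
    · left
      rw [hBdef]
      refine ⟨hx1, fun h4 => hx2 ?_, h3⟩
      rw [hAdef]
      exact ⟨hx1.1, h4, h3⟩
  have hBb : ∫⁻ x in B, ‖f x‖ₑ ∂μ ≤
      ENNReal.ofReal (C * Real.exp (-c * ρ) * (δ * (4 * Real.pi * ρ) ^ y)) := by
    have e1 : ∫⁻ x in B, ‖f x‖ₑ ∂μ ≤ ∫⁻ _ in B, ENNReal.ofReal (C * Real.exp (-c * ρ)) ∂μ := by
      refine setLIntegral_mono' hB fun x hx => ?_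
      rw [hBdef] at hx
      rw [← ofReal_norm]
      exact ENNReal.ofReal_le_ofReal (hE3 x hx.1 hx.2.1 hx.2.2)
    refine e1.trans ?_
    rw [setLIntegral_const, ENNReal.ofReal_mul (p := C * Real.exp (-c * ρ)) (by positivity)]
    refine mul_le_mul_right ((measure_mono ?_).trans hS1) _
    rw [hBdef]
    exact Set.inter_subset_left
  have hμD : μ D ≤ ENNReal.ofReal (δ * (C * Real.exp (-c * ρ))) := by
    refine (meas_le' hm hδ' hD hE fun x _ hx => ?_).trans ?_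
    · rw [hDdef] at hx
      exact hx.2
    · rw [ENNReal.ofReal_mul (Nat.cast_nonneg δ), ENNReal.ofReal_natCast]
      exact mul_le_mul_right hE1 _
  have hDb : ∫⁻ x in D, ‖f x‖ₑ ∂μ ≤ ENNReal.ofReal (Real.exp (-(c / 2) * ρ) * Q +
        Real.exp (c / 2 * ρ) * (δ * (C * Real.exp (-c * ρ)))) := by
    have e1 : ∫⁻ x in D, ‖f x‖ₑ ∂μ ≤
        ∫⁻ x in D, (ENNReal.ofReal (Real.exp (-(c / 2) * ρ)) * ENNReal.ofReal (‖f x‖ ^ 2) +
          ENNReal.ofReal (Real.exp (c / 2 * ρ))) ∂μ := by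
      apply lintegral_mono
      intro x
      show ‖f x‖ₑ ≤ ENNReal.ofReal (Real.exp (-(c / 2) * ρ)) * ENNReal.ofReal (‖f x‖ ^ 2) +
          ENNReal.ofReal (Real.exp (c / 2 * ρ))
      rw [← ofReal_norm, ← ENNReal.ofReal_mul (Real.exp_pos _).le,
        ← ENNReal.ofReal_add (by positivity) (Real.exp_pos _).le]
      apply ENNReal.ofReal_le_ofReal
      have e2 : Real.exp (-(c / 2) * ρ) * Real.exp (c / 2 * ρ) = 1 := by
        rw [← Real.exp_add]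
        simp
      set a := Real.exp (-(c / 2) * ρ)
      set a' := Real.exp (c / 2 * ρ)
      have ha : 0 < a := Real.exp_pos _
      have ha' : 0 < a' := Real.exp_pos _
      have e3 : 0 ≤ a' * (a * ‖f x‖ - 1) ^ 2 := by positivity
      have e4 : a' * (a * ‖f x‖ - 1) ^ 2 = a * ‖f x‖ ^ 2 - 2 * ‖f x‖ + a' := by
        have : a' * (a * ‖f x‖ - 1) ^ 2 = (a * a') * (a * ‖f x‖ ^ 2) - 2 * (a * a') * ‖f x‖ + a' := by
          ring
        rw [this, e2]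
        ring
      nlinarith [norm_nonneg (f x)]
    refine e1.trans ?_
    rw [lintegral_add_right _ measurable_const, lintegral_const_mul _ hfe, setLIntegral_const,
      ENNReal.ofReal_add (by positivity) (by positivity), ENNReal.ofReal_mul (Real.exp_pos _).le,
      ENNReal.ofReal_mul (Real.exp_pos _).le]
    refine add_le_add (mul_le_mul_right ((lintegral_mono_set ?_).trans hQ) _)
      (mul_le_mul_right hμD _)
    rw [hDdef]
    exact Set.inter_subset_left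
  have hfin : ‖∫ x in Xr X ρ, f x ∂μ‖ₑ ≤
      ENNReal.ofReal (C * Real.exp (-c * ρ) * (δ * (4 * Real.pi * ρ) ^ y) +
      (Real.exp (-(c / 2) * ρ) * Q +
        Real.exp (c / 2 * ρ) * (δ * (C * Real.exp (-c * ρ))))) := by
    rw [h1]
    refine (enorm_integral_le_lintegral_enorm _).trans ?_
    refine (lintegral_mono_set hsub).trans ?_
    refine (lintegral_union_le _ _ _).trans ?_
    rw [ENNReal.ofReal_add (by positivity) (by positivity)]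
    exact add_le_add hBb hDb
  rw [← ofReal_norm] at hfin
  exact (ENNReal.ofReal_le_ofReal_iff (by positivity)).1 hfin

private theorem tend {y : ℕ} {C c Q : ℝ} {δ : ℕ} (hc : 0 < c) :
    Filter.Tendsto (fun ρ : ℝ => C * Real.exp (-c * ρ) * (δ * (4 * Real.pi * ρ) ^ y) +
      (Real.exp (-(c / 2) * ρ) * (Q * (4 * Real.pi * ρ) ^ y) +
        Real.exp (c / 2 * ρ) * (δ * (C * Real.exp (-c * ρ))))) Filter.atTop (nhds 0) := by
  have h1 : ∀ b : ℝ, 0 < b → ∀ n : ℕ,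
      Filter.Tendsto (fun ρ : ℝ => ρ ^ n * Real.exp (-b * ρ)) Filter.atTop (nhds 0) := by
    intro b hb n
    have := tendsto_rpow_mul_exp_neg_mul_atTop_nhds_zero n b hb
    simpa [Real.rpow_natCast] using this
  have e1 := (h1 c hc y).const_mul (C * δ * (4 * Real.pi) ^ y)
  have e2 := (h1 (c / 2) (by positivity) y).const_mul (Q * (4 * Real.pi) ^ y)
  have e3 := (h1 (c / 2) (by positivity) 0).const_mul (δ * C)
  have e4 := e1.add (e2.add e3)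
  simp only [mul_zero, add_zero] at e4
  refine e4.congr fun ρ => ?_
  have e5 : Real.exp (-(c / 2) * ρ) = Real.exp (c / 2 * ρ) * Real.exp (-c * ρ) := by
    rw [← Real.exp_add]
    congr 1
    ring
  rw [mul_pow, mul_pow, mul_pow, pow_zero, one_mul, e5]
  ring

theorem main_estimate {ι : Type} [Fintype ι] {y : ℕ} (X : Set (ι → ℂ)) (hX : MeasurableSet X)
    (hX0 : ∀ x ∈ X, ∀ k, x k ≠ 0)
    (Γ : Finset (Fin y → ι)) (J₀ : Fin y → ι) (hJ₀ : J₀ ∈ Γ) (m : Measure (ι → ℂ))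
    (κ R : (Fin y → ι) → (ι → ℂ) → ℂ) (hκ : ∀ J, Measurable (κ J)) (hR : ∀ J, Measurable (R J))
    (c : (Fin y → ι) → ℂ) (h1 : ∀ x ∈ X, R J₀ x = ∑ J ∈ Γ, c J * κ J x)
    (h2 : ∀ J ∈ Γ, ∀ x ∈ X, R J₀ x = R J x * κ J x)
    (hmeas : ∀ J ∈ Γ, ∀ g : (ι → ℂ) → ℝ≥0∞, Measurable g →
      Measurable (fun t : Fin y → ℂ => ∑' x : fib X J t, g x))
    (hm : ∀ J ∈ Γ, ∀ g : (ι → ℂ) → ℝ≥0∞, Measurable g →
      ∫⁻ x, g x * ENNReal.ofReal (‖κ J x‖ ^ 2) ∂m = ∫⁻ t, ∑' x : fib X J t, g x ∂(mu y))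
    (δ : ℕ) (hδ : ∀ J ∈ Γ, ∀ᵐ t ∂(mu y), (fib X J t).Finite ∧ (fib X J t).ncard ≤ δ ∧
      ∑ᶠ x ∈ fib X J t, R J x = 0)
    (hE : ∀ J ∈ Γ, ∃ C > (0:ℝ), ∃ c > (0:ℝ), ∃ ρ₀ ≥ (1:ℝ), ∃ c₀ > (0:ℝ), ∀ ρ : ℝ, ρ₀ ≤ ρ →
      ∃ E : Set (Fin y → ℂ), MeasurableSet E ∧ mu y E ≤ ENNReal.ofReal (C * Real.exp (-c * ρ)) ∧
        (∀ x ∈ X, x ∘ J ∈ LogB y (c₀ * ρ) → x ∘ J ∉ E → x ∈ Xr X ρ) ∧
        (∀ x ∈ Xr X ρ, x ∘ J ∉ LogB y (c₀ * ρ) → x ∘ J ∉ E → ‖R J x‖ ≤ C * Real.exp (-c * ρ))) :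
    ∀ J ∈ Γ, ∀ᵐ t ∂(mu y), ∀ x ∈ fib X J t, R J x = 0 := by
  classical
  -- the measures
  have hdm : ∀ J, Measurable fun x => ENNReal.ofReal (‖κ J x‖ ^ 2) := fun J =>
    ENNReal.measurable_ofReal.comp ((hκ J).norm.pow_const 2)
  obtain ⟨mJ, hmJdef⟩ : ∃ mJ : (Fin y → ι) → Measure (ι → ℂ),
      mJ = fun J => m.withDensity (fun x => ENNReal.ofReal (‖κ J x‖ ^ 2)) := ⟨_, rfl⟩
  have hmJ0 : ∀ J, ∀ g : (ι → ℂ) → ℝ≥0∞, Measurable g →
      ∫⁻ x, g x ∂(mJ J) = ∫⁻ x, g x * ENNReal.ofReal (‖κ J x‖ ^ 2) ∂m := by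
    intro J g hg
    rw [hmJdef]
    show ∫⁻ x, g x ∂(m.withDensity _) = _
    rw [lintegral_withDensity_eq_lintegral_mul m (hdm J) hg]
    exact lintegral_congr fun x => mul_comm _ _
  have hmJ : ∀ J ∈ Γ, ∀ g : (ι → ℂ) → ℝ≥0∞, Measurable g →
      ∫⁻ x, g x ∂(mJ J) = ∫⁻ t, ∑' x : fib X J t, g x ∂(mu y) := by
    intro J hJ g hg
    rw [hmJ0 J g hg, hm J hJ g hg]
  have hmJs : ∀ J, ∀ S : Set (ι → ℂ), MeasurableSet S → ∀ g : (ι → ℂ) → ℝ≥0∞, Measurable g →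
      ∫⁻ x in S, g x ∂(mJ J) = ∫⁻ x in S, g x * ENNReal.ofReal (‖κ J x‖ ^ 2) ∂m := by
    intro J S hS g hg
    rw [← lintegral_indicator hS, hmJ0 J _ (hg.indicator hS), ← lintegral_indicator hS]
    refine lintegral_congr fun x => ?_
    by_cases hx : x ∈ S
    · rw [Set.indicator_of_mem hx, Set.indicator_of_mem hx]
    · rw [Set.indicator_of_notMem hx, Set.indicator_of_notMem hx, zero_mul]
  have hS := fun ρ => measurableSet_Xr' hX ρ
  -- (1)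
  have b1 : ∀ J ∈ Γ, ∀ ρ : ℝ, 0 ≤ ρ → mJ J (Xr X ρ) ≤
      ENNReal.ofReal (δ * (4 * Real.pi * ρ) ^ y) := by
    intro J hJ ρ hρ
    have hδ' : ∀ᵐ t ∂(mu y), (fib X J t).Finite ∧ (fib X J t).ncard ≤ δ := by
      filter_upwards [hδ J hJ] with t ht
      exact ⟨ht.1, ht.2.1⟩
    refine (meas_le' (hmJ J hJ) hδ' (hS ρ) (measurableSet_LogB y ρ) fun x hx hxS => ?_).trans ?_
    · exact fun i => ⟨hX0 x hx (J i), hxS.2 (J i)⟩
    · rw [mu_logB y ρ hρ, ENNReal.ofReal_mul (Nat.cast_nonneg δ), ENNReal.ofReal_natCast]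
  have hR0 : Measurable fun x => ENNReal.ofReal (‖R J₀ x‖ ^ 2) :=
    ENNReal.measurable_ofReal.comp ((hR J₀).norm.pow_const 2)
  obtain ⟨Er, hEr⟩ : ∃ Er : ℝ → ℝ≥0∞,
      Er = fun ρ => ∫⁻ x in Xr X ρ, ENNReal.ofReal (‖R J₀ x‖ ^ 2) ∂m := ⟨_, rfl⟩
  -- (2)
  obtain ⟨Q, hQdef⟩ : ∃ Q : ℝ, Q = ∑ J ∈ Γ, (Γ.card : ℝ) * ‖c J‖ ^ 2 * δ := ⟨_, rfl⟩
  have hQ0 : 0 ≤ Q := by
    rw [hQdef]
    exact Finset.sum_nonneg fun J _ => by positivity
  have b2 : ∀ ρ : ℝ, 0 ≤ ρ → Er ρ ≤ ENNReal.ofReal (Q * (4 * Real.pi * ρ) ^ y) := by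
    intro ρ hρ
    rw [hEr]
    have e1 : ∫⁻ x in Xr X ρ, ENNReal.ofReal (‖R J₀ x‖ ^ 2) ∂m ≤
        ∫⁻ x in Xr X ρ, ∑ J ∈ Γ, ENNReal.ofReal ((Γ.card : ℝ) * ‖c J‖ ^ 2) *
          ENNReal.ofReal (‖κ J x‖ ^ 2) ∂m := by
      refine setLIntegral_mono' (hS ρ) fun x hx => ?_
      have e2 : ‖R J₀ x‖ ^ 2 ≤ ∑ J ∈ Γ, (Γ.card : ℝ) * ‖c J‖ ^ 2 * ‖κ J x‖ ^ 2 := by
        rw [h1 x hx.1]
        calc ‖∑ J ∈ Γ, c J * κ J x‖ ^ 2 ≤ (∑ J ∈ Γ, ‖c J * κ J x‖) ^ 2 := by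
              gcongr
              exact norm_sum_le _ _
          _ ≤ Γ.card * ∑ J ∈ Γ, ‖c J * κ J x‖ ^ 2 := sq_sum_le_card_mul_sum_sq
          _ = _ := by
              rw [Finset.mul_sum]
              refine Finset.sum_congr rfl fun J _ => ?_
              rw [norm_mul, mul_pow, mul_assoc]
      refine (ENNReal.ofReal_le_ofReal e2).trans (le_of_eq ?_)
      rw [ENNReal.ofReal_sum_of_nonneg fun J _ => by positivity]
      exact Finset.sum_congr rfl fun J _ => ENNReal.ofReal_mul (by positivity)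
    refine e1.trans ?_
    rw [lintegral_finsetSum _ fun J _ => (hdm J).const_mul _]
    have e3 : ∀ J ∈ Γ, ∫⁻ x in Xr X ρ, ENNReal.ofReal ((Γ.card : ℝ) * ‖c J‖ ^ 2) *
          ENNReal.ofReal (‖κ J x‖ ^ 2) ∂m ≤
        ENNReal.ofReal ((Γ.card : ℝ) * ‖c J‖ ^ 2 * δ * (4 * Real.pi * ρ) ^ y) := by
      intro J hJ
      have e4 : ∫⁻ x in Xr X ρ, ENNReal.ofReal (‖κ J x‖ ^ 2) ∂m = mJ J (Xr X ρ) := by
        have := hmJs J (Xr X ρ) (hS ρ) (fun _ => 1) measurable_const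
        rw [setLIntegral_const, one_mul] at this
        rw [this]
        simp
      rw [lintegral_const_mul _ (hdm J), e4, mul_assoc ((Γ.card : ℝ) * ‖c J‖ ^ 2),
        ENNReal.ofReal_mul (p := (Γ.card : ℝ) * ‖c J‖ ^ 2) (by positivity)]
      exact mul_le_mul_right (b1 J hJ ρ hρ) _
    refine (Finset.sum_le_sum e3).trans (le_of_eq ?_)
    rw [← ENNReal.ofReal_sum_of_nonneg fun J _ => by positivity, hQdef, Finset.sum_mul]
  have hErtop : ∀ ρ : ℝ, 0 ≤ ρ → Er ρ < ⊤ := fun ρ hρ =>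
    (b2 ρ hρ).trans_lt ENNReal.ofReal_lt_top
  -- the energy for J
  have b3 : ∀ J ∈ Γ, ∀ ρ : ℝ, ∫⁻ x in Xr X ρ, ENNReal.ofReal (‖R J x‖ ^ 2) ∂(mJ J) = Er ρ := by
    intro J hJ ρ
    have hRJ : Measurable fun x => ENNReal.ofReal (‖R J x‖ ^ 2) :=
      ENNReal.measurable_ofReal.comp ((hR J).norm.pow_const 2)
    rw [hmJs J _ (hS ρ) _ hRJ, hEr]
    refine setLIntegral_congr_fun (hS ρ) fun x hx => ?_
    show ENNReal.ofReal (‖R J x‖ ^ 2) * ENNReal.ofReal (‖κ J x‖ ^ 2) =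
      ENNReal.ofReal (‖R J₀ x‖ ^ 2)
    rw [← ENNReal.ofReal_mul (by positivity), h2 J hJ x hx.1, norm_mul, mul_pow]
  -- (3)
  have b4 : ∀ ρ : ℝ, 0 ≤ ρ →
      (Er ρ).toReal ≤ ∑ J ∈ Γ, ‖c J‖ * ‖∫ x in Xr X ρ, R J x ∂(mJ J)‖ := by
    intro ρ hρ
    have e1 : (Er ρ).toReal = ∫ x in Xr X ρ, ‖R J₀ x‖ ^ 2 ∂m := by
      rw [integral_eq_lintegral_of_nonneg_ae (Filter.Eventually.of_forall fun x => by positivity)
        ((hR J₀).norm.pow_const 2).aestronglyMeasurable, hEr]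
    have e2 : ∫ x in Xr X ρ, ((‖R J₀ x‖ ^ 2 : ℝ) : ℂ) ∂m =
        ∑ J ∈ Γ, (starRingEnd ℂ) (c J) * ∫ x in Xr X ρ, R J x ∂(mJ J) := by
      have e3 : ∀ J ∈ Γ, ∫ x in Xr X ρ, R J x ∂(mJ J) =
          ∫ x in Xr X ρ, R J x * ((‖κ J x‖ ^ 2 : ℝ) : ℂ) ∂m := by
        intro J hJ
        rw [hmJdef]
        show ∫ x in Xr X ρ, R J x ∂(m.withDensity (fun x => ENNReal.ofReal (‖κ J x‖ ^ 2))) = _
        rw [restrict_withDensity (hS ρ), integral_withDensity_eq_integral_toReal_smul (hdm J)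
          (Filter.Eventually.of_forall fun x => ENNReal.ofReal_lt_top)]
        refine integral_congr_ae (Filter.Eventually.of_forall fun x => ?_)
        show (ENNReal.ofReal (‖κ J x‖ ^ 2)).toReal • R J x = _
        rw [ENNReal.toReal_ofReal (by positivity), Complex.real_smul, mul_comm]
      have e4 : ∀ J ∈ Γ, Integrable (fun x => (starRingEnd ℂ) (c J) *
          (R J x * ((‖κ J x‖ ^ 2 : ℝ) : ℂ))) (m.restrict (Xr X ρ)) := by
        intro J hJ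
        apply Integrable.const_mul
        have i1 : Integrable (fun x => ‖R J₀ x‖ ^ 2) (m.restrict (Xr X ρ)) := by
          refine ⟨((hR J₀).norm.pow_const 2).aestronglyMeasurable, ?_⟩
          rw [hasFiniteIntegral_iff_ofReal (Filter.Eventually.of_forall fun x => by positivity)]
          have := hErtop ρ hρ
          rwa [hEr] at this
        have i2 : Integrable (fun x => ‖κ J x‖ ^ 2) (m.restrict (Xr X ρ)) := by
          refine ⟨((hκ J).norm.pow_const 2).aestronglyMeasurable, ?_⟩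
          rw [hasFiniteIntegral_iff_ofReal (Filter.Eventually.of_forall fun x => by positivity)]
          have e5 := hmJs J (Xr X ρ) (hS ρ) (fun _ => 1) measurable_const
          rw [setLIntegral_const, one_mul] at e5
          simp only [one_mul] at e5
          rw [← e5]
          exact (b1 J hJ ρ hρ).trans_lt ENNReal.ofReal_lt_top
        refine (i1.add i2).mono' ?_ ?_
        · exact ((hR J).mul (Complex.measurable_ofReal.comp
            ((hκ J).norm.pow_const 2))).aestronglyMeasurable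
        · rw [ae_restrict_iff' (hS ρ)]
          refine Filter.Eventually.of_forall fun x hx => ?_
          show ‖R J x * ((‖κ J x‖ ^ 2 : ℝ) : ℂ)‖ ≤ ‖R J₀ x‖ ^ 2 + ‖κ J x‖ ^ 2
          rw [h2 J hJ x hx.1, norm_mul, norm_mul, Complex.norm_real, Real.norm_eq_abs,
            abs_of_nonneg (by positivity)]
          nlinarith [sq_nonneg (‖R J x‖ * ‖κ J x‖ - ‖κ J x‖), norm_nonneg (R J x),
            norm_nonneg (κ J x), mul_nonneg (norm_nonneg (R J x)) (norm_nonneg (κ J x))]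
      rw [Finset.sum_congr rfl fun J hJ => by rw [e3 J hJ, ← integral_const_mul],
        ← integral_finsetSum _ e4]
      refine setIntegral_congr_fun (hS ρ) fun x hx => ?_
      show ((‖R J₀ x‖ ^ 2 : ℝ) : ℂ) =
        ∑ J ∈ Γ, (starRingEnd ℂ) (c J) * (R J x * ((‖κ J x‖ ^ 2 : ℝ) : ℂ))
      have e6 : ∀ z : ℂ, ((‖z‖ ^ 2 : ℝ) : ℂ) = z * (starRingEnd ℂ) z := by
        intro z
        rw [Complex.mul_conj, Complex.normSq_eq_norm_sq]
      rw [e6 (R J₀ x)]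
      conv_lhs => rw [h1 x hx.1, map_sum, ← h1 x hx.1, Finset.mul_sum]
      refine Finset.sum_congr rfl fun J hJ => ?_
      rw [map_mul, e6 (κ J x), h2 J hJ x hx.1]
      ring
    have e7 : (Er ρ).toReal = ‖∫ x in Xr X ρ, ((‖R J₀ x‖ ^ 2 : ℝ) : ℂ) ∂m‖ := by
      rw [integral_complex_ofReal, ← e1, Complex.norm_real, Real.norm_eq_abs,
        abs_of_nonneg ENNReal.toReal_nonneg]
    rw [e7, e2]
    refine (norm_sum_le _ _).trans (Finset.sum_le_sum fun J _ => ?_)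
    rw [norm_mul, RCLike.norm_conj]
  -- (4)
  have b5 : ∀ J ∈ Γ, Filter.Tendsto (fun ρ : ℝ => ‖∫ x in Xr X ρ, R J x ∂(mJ J)‖)
      Filter.atTop (nhds 0) := by
    intro J hJ
    obtain ⟨C, hC, c', hc', ρ₀, hρ₀, c₀, _, hE'⟩ := hE J hJ
    refine squeeze_zero' (Filter.Eventually.of_forall fun ρ => norm_nonneg _) ?_
      (tend (y := y) (C := C) (c := c') (Q := Q) (δ := δ) hc')
    filter_upwards [Filter.eventually_ge_atTop ρ₀] with ρ hρ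
    obtain ⟨E, hE1, hE2, hE3, hE4⟩ := hE' ρ hρ
    have hρ1 : 1 ≤ ρ := hρ₀.trans hρ
    exact one hX (hmJ J hJ) (hR J) (hδ J hJ) hρ1 hC E hE1 hE2 hE3 hE4 (by positivity)
      (by rw [b3 J hJ ρ]; exact b2 ρ (by linarith)) (b1 J hJ ρ (by linarith))
  -- (5)
  have b6 : Filter.Tendsto (fun ρ : ℝ => (Er ρ).toReal) Filter.atTop (nhds 0) := by
    have t1 : Filter.Tendsto (fun ρ : ℝ => ∑ J ∈ Γ, ‖c J‖ * ‖∫ x in Xr X ρ, R J x ∂(mJ J)‖)
        Filter.atTop (nhds 0) := by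
      have := tendsto_finsetSum Γ fun J hJ => (b5 J hJ).const_mul ‖c J‖
      simpa using this
    refine squeeze_zero' (Filter.Eventually.of_forall fun ρ => ENNReal.toReal_nonneg) ?_ t1
    filter_upwards [Filter.eventually_ge_atTop (0:ℝ)] with ρ hρ
    exact b4 ρ hρ
  have hmono : ∀ ρ ρ' : ℝ, ρ ≤ ρ' → Er ρ ≤ Er ρ' := by
    intro ρ ρ' h
    rw [hEr]
    exact lintegral_mono_set fun x hx => ⟨hx.1, fun k => (hx.2 k).trans_le h⟩
  have b7 : ∀ ρ : ℝ, 0 ≤ ρ → Er ρ = 0 := by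
    intro ρ hρ
    have h3 : (Er ρ).toReal ≤ 0 := by
      refine ge_of_tendsto b6 ?_
      filter_upwards [Filter.eventually_ge_atTop ρ] with ρ' hρ'
      exact ENNReal.toReal_mono (hErtop ρ' (hρ.trans hρ')).ne (hmono ρ ρ' hρ')
    have h4 : (Er ρ).toReal = 0 := le_antisymm h3 ENNReal.toReal_nonneg
    rcases (ENNReal.toReal_eq_zero_iff _).1 h4 with h | h
    · exact h
    · exact absurd h (hErtop ρ hρ).ne
  have b8 : ∀ᵐ x ∂m, x ∈ X → R J₀ x = 0 := by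
    have h3 : ∀ n : ℕ, ∀ᵐ x ∂m, x ∈ Xr X (n : ℝ) → R J₀ x = 0 := by
      intro n
      have h4 := b7 n (Nat.cast_nonneg n)
      rw [hEr] at h4
      have h5 := (lintegral_eq_zero_iff hR0).1 h4
      have h6 := (ae_restrict_iff' (hS (n : ℝ))).1 h5
      filter_upwards [h6] with x hx hxS
      have h7 : ENNReal.ofReal (‖R J₀ x‖ ^ 2) = 0 := hx hxS
      rw [ENNReal.ofReal_eq_zero] at h7
      have h8 : ‖R J₀ x‖ ^ 2 = 0 := le_antisymm h7 (by positivity)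
      rwa [sq_eq_zero_iff, norm_eq_zero] at h8
    rw [← ae_all_iff] at h3
    filter_upwards [h3] with x hx hxX
    obtain ⟨n, hn⟩ := exists_nat_gt (∑ k, |Real.log ‖x k‖|)
    refine hx n ⟨hxX, fun k => lt_of_le_of_lt ?_ hn⟩
    exact Finset.single_le_sum (f := fun k => |Real.log ‖x k‖|) (fun k _ => abs_nonneg _)
      (Finset.mem_univ k)
  -- (6)
  intro J hJ
  obtain ⟨Z, hZ⟩ : ∃ Z : Set (ι → ℂ), Z = {x | x ∈ X ∧ R J x ≠ 0} := ⟨_, rfl⟩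
  have hZm : MeasurableSet Z := by
    rw [hZ]
    exact hX.inter (hR J (measurableSet_singleton 0).compl)
  have hg : Measurable (Z.indicator (1 : (ι → ℂ) → ℝ≥0∞)) := measurable_one.indicator hZm
  have h3 := hm J hJ _ hg
  have h4 : ∫⁻ x, Z.indicator (1 : (ι → ℂ) → ℝ≥0∞) x * ENNReal.ofReal (‖κ J x‖ ^ 2) ∂m = 0 := by
    have hgm : Measurable fun x =>
        Z.indicator (1 : (ι → ℂ) → ℝ≥0∞) x * ENNReal.ofReal (‖κ J x‖ ^ 2) := hg.mul (hdm J)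
    rw [lintegral_eq_zero_iff hgm]
    filter_upwards [b8] with x hx
    show Z.indicator (1 : (ι → ℂ) → ℝ≥0∞) x * ENNReal.ofReal (‖κ J x‖ ^ 2) = 0
    by_cases hxZ : x ∈ Z
    · rw [hZ] at hxZ
      have h5 := h2 J hJ x hxZ.1
      rw [hx hxZ.1] at h5
      have h6 : κ J x = 0 := by
        rcases mul_eq_zero.1 h5.symm with h | h
        · exact absurd h hxZ.2
        · exact h
      rw [h6]
      simp
    · rw [Set.indicator_of_notMem hxZ, zero_mul]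
  rw [h4] at h3
  have h5 := (lintegral_eq_zero_iff (hmeas J hJ _ hg)).1 h3.symm
  filter_upwards [h5] with t ht x hx
  have h6 : ∑' x : fib X J t, Z.indicator (1 : (ι → ℂ) → ℝ≥0∞) x = 0 := ht
  have h7 := ENNReal.tsum_eq_zero.1 h6 ⟨x, hx⟩
  by_contra hne
  have hxZ : x ∈ Z := by
    rw [hZ]
    exact ⟨hx.1, hne⟩
  have h8 : Z.indicator (1 : (ι → ℂ) → ℝ≥0∞) x = 0 := h7
  rw [Set.indicator_of_mem hxZ] at h8
  exact one_ne_zero h8

end Pool.Agent.EXI
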