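import Pool.Agent.EXI.TADec

/-!
# EXI / TAMeas: the measure on X

PROOF.  `meas_fib`: `decomp` with `J' = J`, `tsum_fib` and `Measurable.ennreal_tsum`.
`exists_meas`: with the decomposition (`J' = J`) let `Z n = {t ∈ U n | s n t ∈ Xn n}` and
`m = Measure.sum (fun n => Measure.map (s' n) ((mu y).restrict (Z n)))` where `s' n` is a measurable
function equal to `s n` on `U n` (e.g. `(U n).piecewise (s n) 0`, `Measurable.piecewise` does not
apply directly: `ContinuousOn.measurable_piecewise`). Then `∫⁻ g dm = ∑' n, ∫⁻ t in Z n, g (s n t)`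
(`lintegral_sum_measure`, `lintegral_map`) `= ∫⁻ t, ∑' n, indicator` (`lintegral_tsum`) and `tsum_fib`.
-/

set_option autoImplicit false

namespace Pool.Agent.EXI

open MvPolynomial MeasureTheory Pool.Agent.EXL
open scoped ENNReal

theorem meas_fib {ι : Type} [Fintype ι] (X : Set (ι → ℂ)) (hX : MeasurableSet X) {y : ℕ}
    (J : Fin y → ι) (l : Fin y → ι → (ι → ℂ) → ℂ) (h : IsEt X J l) (g : (ι → ℂ) → ℝ≥0∞)
    (hg : Measurable g) : Measurable (fun t : Fin y → ℂ => ∑' x : fib X J t, g x) := by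
  obtain ⟨Xn, U, U', s, s', hm, hd, hu, hch⟩ := decomp X hX J J l l h h
  obtain ⟨-, h2, h3⟩ := tsum_fib X J l Xn U s hm hd hu (fun n => (hch n).1)
    (fun n x hx => ⟨((hch n).2.2 x hx).1, ((hch n).2.2 x hx).2.1⟩)
  have e : (fun t : Fin y → ℂ => ∑' x : fib X J t, g x) = fun t =>
      ∑' n, {t | t ∈ U n ∧ s n t ∈ Xn n}.indicator (fun t => g (s n t)) t :=
    funext fun t => h3 g t
  rw [e]
  exact Measurable.tsum fun n => h2 n g hg

theorem exists_meas {ι : Type} [Fintype ι] (X : Set (ι → ℂ)) (hX : MeasurableSet X) {y : ℕ}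
    (J : Fin y → ι) (l : Fin y → ι → (ι → ℂ) → ℂ) (h : IsEt X J l) :
    ∃ m : Measure (ι → ℂ), ∀ g : (ι → ℂ) → ℝ≥0∞, Measurable g →
      ∫⁻ x, g x ∂m = ∫⁻ t, ∑' x : fib X J t, g x ∂(mu y) := by
  classical
  obtain ⟨Xn, U, U', s, s', hm, hd, hu, hch⟩ := decomp X hX J J l l h h
  obtain ⟨h1, h2, h3⟩ := tsum_fib X J l Xn U s hm hd hu (fun n => (hch n).1)
    (fun n x hx => ⟨((hch n).2.2 x hx).1, ((hch n).2.2 x hx).2.1⟩)
  have hcont : ∀ n, ContinuousOn (s n) (U n) := by
    intro n t ht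
    have hd := (hch n).1.2.2 t ht
    refine ContinuousAt.continuousWithinAt ?_
    rw [continuousAt_pi]
    exact fun k => (hd k).continuousAt
  have hsm : ∀ n, Measurable ((U n).piecewise (s n) (fun _ => 0)) := fun n =>
    (hcont n).measurable_piecewise continuousOn_const (hch n).1.1.measurableSet
  refine ⟨Measure.sum fun n => Measure.map ((U n).piecewise (s n) (fun _ => 0))
    ((mu y).restrict {t | t ∈ U n ∧ s n t ∈ Xn n}), fun g hg => ?_⟩
  rw [lintegral_sum_measure]
  have e1 : ∀ n, ∫⁻ x, g x ∂(Measure.map ((U n).piecewise (s n) (fun _ => 0))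
      ((mu y).restrict {t | t ∈ U n ∧ s n t ∈ Xn n})) =
      ∫⁻ t, {t | t ∈ U n ∧ s n t ∈ Xn n}.indicator (fun t => g (s n t)) t ∂(mu y) := by
    intro n
    rw [lintegral_map hg (hsm n), lintegral_indicator (h1 n)]
    refine setLIntegral_congr_fun (h1 n) ?_
    intro t ht
    show g ((U n).piecewise (s n) (fun _ => 0) t) = g (s n t)
    rw [Set.piecewise_eq_of_mem _ _ _ ht.1]
  simp only [e1]
  rw [← lintegral_tsum fun n => (h2 n g hg).aemeasurable]
  refine lintegral_congr fun t => ?_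
  exact (h3 g t).symm

end Pool.Agent.EXI
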