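import Pool.Agent.EXI.TAExc

/-!
# EXI / TANear: the estimate near the origin

PROOF.  There are `A, B > 0` with `‖aeval t (a k i)‖ ≤ A exp(B r)` for `t ∈ LogB y r`, `r ≥ 0` (all
`k, i`), and `nrm (a k 0) t ≥ γ exp(-B r)`, `nrm (a k (last)) t ≥ γ exp(-B r)` with `γ > 0` (one
monomial). Let `c₀ ≤ 1` with `2 B c₀ ≤ 1/4`, `E` the union over `k` of the two sets
`{t ∈ LogB y (c₀ ρ) | ‖aeval t a‖ < exp(-ρ/4) nrm a t}`, `a = a k 0, a k last`. By `exc`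
`mu y E ≤ C ρ^y exp(-c' ρ/4) ≤ C exp(-c ρ)`. For `t ∈ LogB y (c₀ρ)`, `t ∉ E` all
`‖aeval t (a k i)‖ ≤ M ‖aeval t (a k last)‖` and `≤ M ‖aeval t (a k 0)‖` with
`M = (A/γ) exp(2 B c₀ ρ + ρ/4) ≤ (A/γ) exp(ρ/2)` (and these two values are nonzero). The root bound:
if `∑_{i ≤ e} a_i x^i = 0`, `‖a_i‖ ≤ M ‖a_e‖`, `a_e ≠ 0`, then `‖x‖ ≤ 1 + (e+1) M` (if `‖x‖ ≥ 1` then
`‖x‖^e ≤ e M ‖x‖^(e-1)`; the case `e = 0` is contradictory). The same for `1/x` with `a_0`. So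
`|log ‖x‖| ≤ log(1 + (e+1) M) < ρ` for `ρ ≥ ρ₀`.
-/

set_option autoImplicit false

namespace Pool.Agent.EXI

open MvPolynomial MeasureTheory Pool.Agent.EXL
open scoped ENNReal

private lemma tn_aeval_eq {K : Subfield ℂ} {y : ℕ} (B : MvPolynomial (Fin y) K)
    (t : Fin y → ℂ) :
    aeval t B = ∑ s ∈ B.support, algebraMap K ℂ (B.coeff s) * ∏ i, t i ^ (s i) := by
  rw [aeval_def, eval₂_eq']

private lemma tn_cont {K : Subfield ℂ} {y : ℕ} (B : MvPolynomial (Fin y) K) :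
    Continuous fun t : Fin y → ℂ => aeval t B := by
  have h : (fun t : Fin y → ℂ => aeval t B) = fun t : Fin y → ℂ =>
      ∑ s ∈ B.support, algebraMap K ℂ (B.coeff s) * ∏ i, t i ^ (s i) := by
    funext t
    exact tn_aeval_eq B t
  rw [h]
  fun_prop

private lemma tn_le_nrm {K : Subfield ℂ} {y : ℕ} (B : MvPolynomial (Fin y) K)
    (t : Fin y → ℂ) : ‖aeval t B‖ ≤ nrm B t := by
  rw [tn_aeval_eq, nrm]
  refine (norm_sum_le _ _).trans (le_of_eq ?_)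
  refine Finset.sum_congr rfl fun s _ => ?_
  rw [norm_mul, norm_prod]
  simp only [norm_pow]

/-- bounds of a monomial on `LogB` -/
private lemma tn_mono {y : ℕ} {r : ℝ} {t : Fin y → ℂ} (ht : t ∈ LogB y r) (s : Fin y →₀ ℕ) :
    Real.exp (-((∑ i, (s i : ℝ)) * r)) ≤ ∏ i, ‖t i‖ ^ (s i) ∧
      ∏ i, ‖t i‖ ^ (s i) ≤ Real.exp ((∑ i, (s i : ℝ)) * r) := by
  have h1 : ∀ i, 0 < ‖t i‖ := fun i => norm_pos_iff.2 (ht i).1
  have h2 : ∀ i, ‖t i‖ = Real.exp (Real.log ‖t i‖) := fun i => (Real.exp_log (h1 i)).symm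
  have h3 : ∏ i, ‖t i‖ ^ (s i) = Real.exp (∑ i, (s i : ℝ) * Real.log ‖t i‖) := by
    rw [Real.exp_sum]
    refine Finset.prod_congr rfl fun i _ => ?_
    rw [Real.exp_nat_mul, ← h2]
  rw [h3]
  constructor
  · rw [Real.exp_le_exp, Finset.sum_mul, ← Finset.sum_neg_distrib]
    refine Finset.sum_le_sum fun i _ => ?_
    have h4 := (abs_lt.1 (ht i).2).1
    have h5 : (0 : ℝ) ≤ (s i : ℝ) := Nat.cast_nonneg _
    nlinarith
  · rw [Real.exp_le_exp, Finset.sum_mul]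
    refine Finset.sum_le_sum fun i _ => ?_
    have h4 := (abs_lt.1 (ht i).2).2
    have h5 : (0 : ℝ) ≤ (s i : ℝ) := Nat.cast_nonneg _
    nlinarith

private lemma tn_up {K : Subfield ℂ} {y : ℕ} (B : MvPolynomial (Fin y) K) :
    ∃ A ≥ (0:ℝ), ∃ b ≥ (0:ℝ), ∀ r : ℝ, 0 ≤ r → ∀ t ∈ LogB y r,
      ‖aeval t B‖ ≤ A * Real.exp (b * r) := by
  refine ⟨∑ s ∈ B.support, ‖algebraMap K ℂ (B.coeff s)‖, Finset.sum_nonneg fun _ _ => norm_nonneg _,
    ∑ s ∈ B.support, ∑ i, (s i : ℝ), Finset.sum_nonneg fun s _ => Finset.sum_nonneg fun i _ =>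
      Nat.cast_nonneg _, fun r hr t ht => ?_⟩
  refine (tn_le_nrm B t).trans ?_
  rw [nrm, Finset.sum_mul]
  refine Finset.sum_le_sum fun s hs => ?_
  refine mul_le_mul_of_nonneg_left ((tn_mono ht s).2.trans ?_) (norm_nonneg _)
  rw [Real.exp_le_exp]
  refine mul_le_mul_of_nonneg_right ?_ hr
  exact Finset.single_le_sum (f := fun s : Fin y →₀ ℕ => ∑ i, (s i : ℝ))
    (fun s _ => Finset.sum_nonneg fun i _ => Nat.cast_nonneg _) hs

private lemma tn_low {K : Subfield ℂ} {y : ℕ} (B : MvPolynomial (Fin y) K) (hB : B ≠ 0) :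
    ∃ D ≥ (0:ℝ), ∃ b ≥ (0:ℝ), ∀ r : ℝ, 0 ≤ r → ∀ t ∈ LogB y r,
      1 ≤ D * Real.exp (b * r) * nrm B t := by
  obtain ⟨s0, hs0⟩ := MvPolynomial.support_nonempty.2 hB
  have hc : algebraMap K ℂ (B.coeff s0) ≠ 0 := by
    rw [Ne, map_eq_zero]
    exact MvPolynomial.mem_support_iff.1 hs0
  have hc' : 0 < ‖algebraMap K ℂ (B.coeff s0)‖ := norm_pos_iff.2 hc
  refine ⟨‖algebraMap K ℂ (B.coeff s0)‖⁻¹, by positivity, ∑ i, (s0 i : ℝ),
    Finset.sum_nonneg fun i _ => Nat.cast_nonneg _, fun r hr t ht => ?_⟩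
  have h1 : ‖algebraMap K ℂ (B.coeff s0)‖ * ∏ i, ‖t i‖ ^ (s0 i) ≤ nrm B t := by
    rw [nrm]
    exact Finset.single_le_sum (f := fun s : Fin y →₀ ℕ =>
      ‖algebraMap K ℂ (B.coeff s)‖ * ∏ i, ‖t i‖ ^ (s i))
      (fun s _ => mul_nonneg (norm_nonneg _) (Finset.prod_nonneg fun i _ => by positivity)) hs0
  have h2 := (tn_mono ht s0).1
  have h3 : ‖algebraMap K ℂ (B.coeff s0)‖ * Real.exp (-((∑ i, (s0 i : ℝ)) * r)) ≤ nrm B t :=
    (mul_le_mul_of_nonneg_left h2 hc'.le).trans h1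
  calc (1:ℝ) = ‖algebraMap K ℂ (B.coeff s0)‖⁻¹ * Real.exp ((∑ i, (s0 i : ℝ)) * r) *
        (‖algebraMap K ℂ (B.coeff s0)‖ * Real.exp (-((∑ i, (s0 i : ℝ)) * r))) := by
        rw [Real.exp_neg]
        field_simp
    _ ≤ _ := mul_le_mul_of_nonneg_left h3 (by positivity)

/-- common constants -/
private lemma tn_up' {K : Subfield ℂ} {y : ℕ} {β : Type} [Fintype β]
    (B : β → MvPolynomial (Fin y) K) :
    ∃ A > (0:ℝ), ∃ b ≥ (0:ℝ), ∀ r : ℝ, 0 ≤ r → ∀ t ∈ LogB y r, ∀ j,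
      ‖aeval t (B j)‖ ≤ A * Real.exp (b * r) := by
  choose A hA b hb h using fun j => tn_up (B j)
  refine ⟨1 + ∑ j, A j, ?_, ∑ j, b j, Finset.sum_nonneg fun j _ => hb j, fun r hr t ht j => ?_⟩
  · have := Finset.sum_nonneg (s := Finset.univ) fun j _ => hA j
    linarith
  · refine (h j r hr t ht).trans ?_
    have h1 : A j ≤ 1 + ∑ j, A j := by
      have := Finset.single_le_sum (f := A) (fun j _ => hA j) (Finset.mem_univ j)
      linarith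
    have h2 : b j ≤ ∑ j, b j := Finset.single_le_sum (f := b) (fun j _ => hb j) (Finset.mem_univ j)
    exact mul_le_mul h1 (Real.exp_le_exp.2 (mul_le_mul_of_nonneg_right h2 hr))
      (Real.exp_pos _).le ((hA j).trans h1)

private lemma tn_nrm_nn {K : Subfield ℂ} {y : ℕ} (B : MvPolynomial (Fin y) K) (t : Fin y → ℂ) :
    0 ≤ nrm B t := by
  rw [nrm]
  exact Finset.sum_nonneg fun s _ => mul_nonneg (norm_nonneg _)
    (Finset.prod_nonneg fun i _ => by positivity)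

private lemma tn_low' {K : Subfield ℂ} {y : ℕ} {β : Type} [Fintype β]
    (B : β → MvPolynomial (Fin y) K) (hB : ∀ j, B j ≠ 0) :
    ∃ D > (0:ℝ), ∃ b ≥ (0:ℝ), ∀ r : ℝ, 0 ≤ r → ∀ t ∈ LogB y r, ∀ j,
      1 ≤ D * Real.exp (b * r) * nrm (B j) t := by
  choose A hA b hb h using fun j => tn_low (B j) (hB j)
  refine ⟨1 + ∑ j, A j, ?_, ∑ j, b j, Finset.sum_nonneg fun j _ => hb j, fun r hr t ht j => ?_⟩
  · have := Finset.sum_nonneg (s := Finset.univ) fun j _ => hA j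
    linarith
  · refine (h j r hr t ht).trans ?_
    have h1 : A j ≤ 1 + ∑ j, A j := by
      have := Finset.single_le_sum (f := A) (fun j _ => hA j) (Finset.mem_univ j)
      linarith
    have h2 : b j ≤ ∑ j, b j := Finset.single_le_sum (f := b) (fun j _ => hb j) (Finset.mem_univ j)
    exact mul_le_mul_of_nonneg_right (mul_le_mul h1 (Real.exp_le_exp.2
      (mul_le_mul_of_nonneg_right h2 hr)) (Real.exp_pos _).le ((hA j).trans h1)) (tn_nrm_nn _ _)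

private lemma tn_pow_exp (y : ℕ) (c : ℝ) (hc : 0 < c) :
    ∃ Q > (0:ℝ), ∀ ρ : ℝ, 0 ≤ ρ → ρ ^ y * Real.exp (-(c * ρ)) ≤ Q := by
  refine ⟨(y.factorial : ℝ) / c ^ y, by positivity, fun ρ hρ => ?_⟩
  have h1 := Real.pow_div_factorial_le_exp (c * ρ) (by positivity) y
  rw [Real.exp_neg, le_div_iff₀ (by positivity)]
  rw [div_le_iff₀ (by positivity)] at h1
  have h2 := Real.exp_pos (c * ρ)
  calc ρ ^ y * (Real.exp (c * ρ))⁻¹ * c ^ y = (c * ρ) ^ y * (Real.exp (c * ρ))⁻¹ := by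
        rw [mul_pow]; ring
    _ ≤ Real.exp (c * ρ) * (y.factorial : ℝ) * (Real.exp (c * ρ))⁻¹ :=
        mul_le_mul_of_nonneg_right h1 (by positivity)
    _ = (y.factorial : ℝ) := by field_simp

/-- the exceptional sets of finitely many polynomials -/
private lemma tn_exc {K : Subfield ℂ} {y : ℕ} {β : Type} [Fintype β]
    (B : β → MvPolynomial (Fin y) K) (c₀ δ : ℝ) (hc₀ : 0 < c₀) (hδ : 0 < δ) :
    ∃ C > (0:ℝ), ∃ c > (0:ℝ), ∀ ρ : ℝ, 0 ≤ ρ →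
      mu y (⋃ j, {t | t ∈ LogB y (c₀ * ρ) ∧ ‖aeval t (B j)‖ < Real.exp (-(δ * ρ)) * nrm (B j) t}) ≤
        ENNReal.ofReal (C * Real.exp (-c * ρ)) := by
  choose C hC c hc h using fun j => exc (B j)
  have hQ := fun j => tn_pow_exp y (c j * δ / 2) (by have := hc j; positivity)
  choose Q hQ0 hQ using hQ
  -- the minimal exponent
  set cm : ℝ := (1 + ∑ j, (c j * δ / 2)⁻¹)⁻¹ with hcm
  have hs0 : ∀ j, 0 < (c j * δ / 2)⁻¹ := fun j => by have := hc j; positivity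
  have hsum : 0 ≤ ∑ j, (c j * δ / 2)⁻¹ := Finset.sum_nonneg fun j _ => (hs0 j).le
  have hcm0 : 0 < cm := by rw [hcm]; positivity
  have hcmle : ∀ j, cm ≤ c j * δ / 2 := by
    intro j
    have h1 : (c j * δ / 2)⁻¹ ≤ 1 + ∑ j, (c j * δ / 2)⁻¹ := by
      have := Finset.single_le_sum (f := fun j => (c j * δ / 2)⁻¹) (fun j _ => (hs0 j).le)
        (Finset.mem_univ j)
      linarith
    rw [hcm]
    exact inv_le_of_inv_le₀ (by have := hc j; positivity) h1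
  have hCs : ∀ j, 0 < C j * c₀ ^ y * Q j := fun j => by
    have h1 := hC j
    have h2 := hQ0 j
    positivity
  refine ⟨1 + ∑ j, C j * c₀ ^ y * Q j, ?_, cm, hcm0, fun ρ hρ => ?_⟩
  · have := Finset.sum_nonneg (s := Finset.univ) fun j _ => (hCs j).le
    linarith
  refine (measure_iUnion_fintype_le _ _).trans ?_
  have h1 : ∀ j, mu y {t | t ∈ LogB y (c₀ * ρ) ∧ ‖aeval t (B j)‖ <
      Real.exp (-(δ * ρ)) * nrm (B j) t} ≤
      ENNReal.ofReal (C j * c₀ ^ y * Q j * Real.exp (-cm * ρ)) := by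
    intro j
    refine (h j (c₀ * ρ) (by positivity) _ (Real.exp_pos _)).trans ?_
    apply ENNReal.ofReal_le_ofReal
    have h2 : Real.exp (-(δ * ρ)) ^ (c j) = Real.exp (-(c j * δ / 2 * ρ)) *
        Real.exp (-(c j * δ / 2 * ρ)) := by
      rw [← Real.exp_mul, ← Real.exp_add]
      congr 1
      ring
    rw [h2]
    have h3 : Real.exp (-(c j * δ / 2 * ρ)) ≤ Real.exp (-cm * ρ) := by
      rw [Real.exp_le_exp]
      have := mul_le_mul_of_nonneg_right (hcmle j) hρ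
      linarith
    have h4 := hQ j ρ hρ
    have h5 := hC j
    calc C j * (c₀ * ρ) ^ y * (Real.exp (-(c j * δ / 2 * ρ)) * Real.exp (-(c j * δ / 2 * ρ)))
        = C j * c₀ ^ y * ((ρ ^ y * Real.exp (-(c j * δ / 2 * ρ))) *
          Real.exp (-(c j * δ / 2 * ρ))) := by
          rw [mul_pow]
          ring
      _ ≤ C j * c₀ ^ y * (Q j * Real.exp (-cm * ρ)) := by
          refine mul_le_mul_of_nonneg_left ?_ (by positivity)
          exact mul_le_mul h4 h3 (Real.exp_pos _).le (hQ0 j).le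
      _ = _ := by ring
  calc ∑ j, mu y {t | t ∈ LogB y (c₀ * ρ) ∧ ‖aeval t (B j)‖ < Real.exp (-(δ * ρ)) * nrm (B j) t}
      ≤ ∑ j, ENNReal.ofReal (C j * c₀ ^ y * Q j * Real.exp (-cm * ρ)) :=
        Finset.sum_le_sum fun j _ => h1 j
    _ = ENNReal.ofReal (∑ j, C j * c₀ ^ y * Q j * Real.exp (-cm * ρ)) :=
        (ENNReal.ofReal_sum_of_nonneg fun j _ => mul_nonneg (hCs j).le (Real.exp_pos _).le).symm
    _ ≤ _ := by
        apply ENNReal.ofReal_le_ofReal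
        rw [← Finset.sum_mul]
        exact mul_le_mul_of_nonneg_right (by linarith) (Real.exp_pos _).le

private lemma tn_meas {K : Subfield ℂ} {y : ℕ} {β : Type} [Fintype β]
    (B : β → MvPolynomial (Fin y) K) (r s : ℝ) :
    MeasurableSet (⋃ j, {t | t ∈ LogB y r ∧ ‖aeval t (B j)‖ < s * nrm (B j) t}) := by
  refine MeasurableSet.iUnion fun j => ?_
  exact (measurableSet_LogB y r).inter (measurableSet_lt (tn_cont (B j)).norm.measurable
    (continuous_const.mul (continuous_nrm (B j))).measurable)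

/-- a bound for the roots of a polynomial -/
private lemma tn_root {e : ℕ} (α : Fin (e + 1) → ℂ) (x : ℂ) (M : ℝ) (hM : 0 ≤ M)
    (hl : α (Fin.last e) ≠ 0) (h : ∀ i, ‖α i‖ ≤ M * ‖α (Fin.last e)‖)
    (hx : ∑ i, α i * x ^ (i : ℕ) = 0) : ‖x‖ ≤ 1 + (e + 1) * M := by
  by_contra hcon
  push Not at hcon
  have h1 : 1 < ‖x‖ := by
    have : 0 ≤ ((e : ℝ) + 1) * M := by positivity
    linarith
  rw [Fin.sum_univ_castSucc] at hx
  have h2 : α (Fin.last e) * x ^ ((Fin.last e : Fin (e + 1)) : ℕ) =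
      -∑ i : Fin e, α i.castSucc * x ^ ((i.castSucc : Fin (e + 1)) : ℕ) :=
    eq_neg_of_add_eq_zero_right hx
  have h3 : ‖α (Fin.last e)‖ * ‖x‖ ^ e ≤ ∑ i : Fin e, ‖α i.castSucc‖ * ‖x‖ ^ (i : ℕ) := by
    have h4 := congrArg norm h2
    rw [norm_mul, norm_pow, Fin.val_last, norm_neg] at h4
    rw [h4]
    refine (norm_sum_le _ _).trans (le_of_eq ?_)
    refine Finset.sum_congr rfl fun i _ => ?_
    rw [norm_mul, norm_pow, Fin.val_castSucc]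
  have hl' : 0 < ‖α (Fin.last e)‖ := norm_pos_iff.2 hl
  have h5 : ‖α (Fin.last e)‖ * ‖x‖ ^ e * ‖x‖ ≤ ‖α (Fin.last e)‖ * (e * M * ‖x‖ ^ e) := by
    calc ‖α (Fin.last e)‖ * ‖x‖ ^ e * ‖x‖
        ≤ (∑ i : Fin e, ‖α i.castSucc‖ * ‖x‖ ^ (i : ℕ)) * ‖x‖ :=
          mul_le_mul_of_nonneg_right h3 (norm_nonneg _)
      _ ≤ ∑ i : Fin e, M * ‖α (Fin.last e)‖ * ‖x‖ ^ e := by
          rw [Finset.sum_mul]
          refine Finset.sum_le_sum fun i _ => ?_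
          rw [mul_assoc, ← pow_succ]
          exact mul_le_mul (h _) (pow_le_pow_right₀ h1.le i.2) (by positivity)
            (by positivity)
      _ = ‖α (Fin.last e)‖ * (e * M * ‖x‖ ^ e) := by
          rw [Finset.sum_const, Finset.card_univ, Fintype.card_fin, nsmul_eq_mul]
          ring
  have h6 : ‖x‖ ^ e * ‖x‖ ≤ e * M * ‖x‖ ^ e := by
    rw [mul_assoc] at h5
    exact le_of_mul_le_mul_left h5 hl'
  have h7 : ‖x‖ ≤ e * M := by
    have h8 : 0 < ‖x‖ ^ e := by positivity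
    rw [mul_comm] at h6
    exact le_of_mul_le_mul_right h6 h8
  nlinarith

private lemma tn_log {e : ℕ} (α : Fin (e + 1) → ℂ) (x : ℂ) (hx0 : x ≠ 0) (M : ℝ) (hM : 0 ≤ M)
    (hl : α (Fin.last e) ≠ 0) (h : ∀ i, ‖α i‖ ≤ M * ‖α (Fin.last e)‖)
    (hl0 : α 0 ≠ 0) (h' : ∀ i, ‖α i‖ ≤ M * ‖α 0‖)
    (hx : ∑ i, α i * x ^ (i : ℕ) = 0) (ρ : ℝ) (hρ : 1 + (e + 1) * M < Real.exp ρ) :
    |Real.log ‖x‖| < ρ := by
  have hxp : 0 < ‖x‖ := norm_pos_iff.2 hx0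
  have h1 := tn_root α x M hM hl h hx
  have h2 : ‖x⁻¹‖ ≤ 1 + (e + 1) * M := by
    refine tn_root (fun i => α (Fin.rev i)) x⁻¹ M hM ?_ ?_ ?_
    · simpa using hl0
    · intro i
      simpa using h' (Fin.rev i)
    · have h3 : ∑ i : Fin (e + 1), α (Fin.rev i) * x⁻¹ ^ (i : ℕ) =
          (∑ i : Fin (e + 1), α i * x ^ (i : ℕ)) * x⁻¹ ^ e := by
        rw [Finset.sum_mul, ← Equiv.sum_comp Fin.revPerm]
        refine Finset.sum_congr rfl fun i _ => ?_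
        rw [Fin.revPerm_apply, Fin.rev_rev]
        have h4 : ((Fin.rev i : Fin (e + 1)) : ℕ) + (i : ℕ) = e := by
          rw [Fin.val_rev]
          have := i.2
          omega
        have h5 : x ^ (i : ℕ) * x⁻¹ ^ e = x⁻¹ ^ ((Fin.rev i : Fin (e + 1)) : ℕ) := by
          have h6 : x⁻¹ ^ e = x⁻¹ ^ ((Fin.rev i : Fin (e + 1)) : ℕ) * x⁻¹ ^ (i : ℕ) := by
            rw [← pow_add, h4]
          rw [h6, mul_comm, mul_assoc, ← mul_pow, inv_mul_cancel₀ hx0, one_pow, mul_one]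
        rw [mul_assoc, h5]
      rw [h3, hx, zero_mul]
  rw [abs_lt]
  constructor
  · have h3 : Real.log ‖x⁻¹‖ < ρ := by
      rw [Real.log_lt_iff_lt_exp (by rw [norm_inv]; positivity)]
      exact h2.trans_lt hρ
    rw [norm_inv, Real.log_inv] at h3
    linarith
  · rw [Real.log_lt_iff_lt_exp hxp]
    exact h1.trans_lt hρ

theorem near {K : Subfield ℂ} {y : ℕ} {κ : Type} [Fintype κ] (e : κ → ℕ)
    (a : (k : κ) → Fin (e k + 1) → MvPolynomial (Fin y) K) (h0 : ∀ k, a k 0 ≠ 0)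
    (h1 : ∀ k, a k (Fin.last (e k)) ≠ 0) :
    ∃ c₀ > (0:ℝ), ∃ ρ₀ ≥ (1:ℝ), ∃ C > (0:ℝ), ∃ c > (0:ℝ), c₀ ≤ 1 ∧ ∀ ρ : ℝ, ρ₀ ≤ ρ →
      ∃ E : Set (Fin y → ℂ), MeasurableSet E ∧ mu y E ≤ ENNReal.ofReal (C * Real.exp (-c * ρ)) ∧
      ∀ t ∈ LogB y (c₀ * ρ), t ∉ E → ∀ x : κ → ℂ, (∀ k, x k ≠ 0) →
        (∀ k, ∑ i, aeval t (a k i) * x k ^ (i : ℕ) = 0) → ∀ k, |Real.log ‖x k‖| < ρ := by
  obtain ⟨A, hA, b, hb, hup⟩ := tn_up' (fun j : (k : κ) × Fin (e k + 1) => a j.1 j.2)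
  set B : κ ⊕ κ → MvPolynomial (Fin y) K :=
    Sum.elim (fun k => a k 0) (fun k => a k (Fin.last (e k))) with hBdef
  have hB : ∀ j, B j ≠ 0 := by
    rintro (k | k)
    · exact h0 k
    · exact h1 k
  obtain ⟨D, hD, b', hb', hlow⟩ := tn_low' B hB
  set c₀ : ℝ := (1 + 4 * (b + b'))⁻¹ with hc₀
  have hc₀0 : 0 < c₀ := by rw [hc₀]; positivity
  have hc₀1 : c₀ ≤ 1 := by
    rw [hc₀]
    exact inv_le_one_of_one_le₀ (by linarith)
  have hc₀b : (b + b') * c₀ ≤ 1 / 4 := by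
    rw [hc₀, ← div_eq_mul_inv, div_le_iff₀ (by positivity)]
    linarith
  obtain ⟨C, hC, c, hc, hexc⟩ := tn_exc B c₀ (1 / 4) hc₀0 (by norm_num)
  set Q : ℝ := 1 + (∑ k, (e k : ℝ) + 1) * (A * D) with hQ
  have hes : 0 ≤ ∑ k, (e k : ℝ) := Finset.sum_nonneg fun k _ => Nat.cast_nonneg _
  have hQ1 : 1 ≤ Q := by
    rw [hQ]
    have : 0 ≤ (∑ k, (e k : ℝ) + 1) * (A * D) := by positivity
    linarith
  refine ⟨c₀, hc₀0, 1 + 2 * Q, by linarith, C, hC, c, hc, hc₀1, fun ρ hρ => ?_⟩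
  have hρ0 : 0 ≤ ρ := by linarith
  refine ⟨_, tn_meas B (c₀ * ρ) (Real.exp (-(1 / 4 * ρ))), hexc ρ hρ0, ?_⟩
  intro t ht htE x hx0 hx k
  have hr : 0 ≤ c₀ * ρ := by positivity
  have hlb : ∀ j, 1 ≤ D * Real.exp (b' * (c₀ * ρ) + 1 / 4 * ρ) * ‖aeval t (B j)‖ := by
    intro j
    have h2 : Real.exp (-(1 / 4 * ρ)) * nrm (B j) t ≤ ‖aeval t (B j)‖ := by
      by_contra hcon
      push Not at hcon
      exact htE (Set.mem_iUnion.2 ⟨j, ht, hcon⟩)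
    have h3 := hlow (c₀ * ρ) hr t ht j
    have h4 : nrm (B j) t ≤ Real.exp (1 / 4 * ρ) * ‖aeval t (B j)‖ := by
      rw [Real.exp_neg, inv_mul_le_iff₀ (Real.exp_pos _)] at h2
      exact h2
    calc (1:ℝ) ≤ D * Real.exp (b' * (c₀ * ρ)) * nrm (B j) t := h3
      _ ≤ D * Real.exp (b' * (c₀ * ρ)) * (Real.exp (1 / 4 * ρ) * ‖aeval t (B j)‖) :=
          mul_le_mul_of_nonneg_left h4 (by positivity)
      _ = _ := by rw [Real.exp_add]; ring
  set M : ℝ := A * D * Real.exp (1 / 2 * ρ) with hM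
  have hM0 : 0 ≤ M := by positivity
  have hbd : ∀ (i : Fin (e k + 1)) (j : κ ⊕ κ), ‖aeval t (a k i)‖ ≤ M * ‖aeval t (B j)‖ := by
    intro i j
    have h2 := hup (c₀ * ρ) hr t ht ⟨k, i⟩
    have h3 := hlb j
    have h5 : A * Real.exp (b * (c₀ * ρ)) ≤ A * Real.exp (b * (c₀ * ρ)) *
        (D * Real.exp (b' * (c₀ * ρ) + 1 / 4 * ρ) * ‖aeval t (B j)‖) :=
      le_mul_of_one_le_right (by positivity) h3
    have h6 : A * Real.exp (b * (c₀ * ρ)) *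
        (D * Real.exp (b' * (c₀ * ρ) + 1 / 4 * ρ) * ‖aeval t (B j)‖) =
        A * D * Real.exp (b * (c₀ * ρ) + (b' * (c₀ * ρ) + 1 / 4 * ρ)) * ‖aeval t (B j)‖ := by
      rw [Real.exp_add (b * (c₀ * ρ))]
      ring
    refine (h2.trans h5).trans ?_
    rw [h6]
    refine mul_le_mul_of_nonneg_right ?_ (norm_nonneg _)
    rw [hM]
    refine mul_le_mul_of_nonneg_left ?_ (by positivity)
    rw [Real.exp_le_exp]
    have h7 := mul_le_mul_of_nonneg_right hc₀b hρ0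
    nlinarith
  have hne : ∀ j, aeval t (B j) ≠ 0 := by
    intro j hj
    have h3 := hlb j
    rw [hj, norm_zero, mul_zero] at h3
    linarith
  refine tn_log (fun i => aeval t (a k i)) (x k) (hx0 k) M hM0 (hne (Sum.inr k))
    (fun i => hbd i (Sum.inr k)) (hne (Sum.inl k)) (fun i => hbd i (Sum.inl k)) (hx k) ρ ?_
  have hek : (e k : ℝ) ≤ ∑ k, (e k : ℝ) :=
    Finset.single_le_sum (f := fun k => (e k : ℝ)) (fun k _ => Nat.cast_nonneg _)
      (Finset.mem_univ k)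
  have hE1 : 1 ≤ Real.exp (1 / 2 * ρ) := Real.one_le_exp (by positivity)
  have h8 : 1 + ((e k : ℝ) + 1) * M ≤ Q * Real.exp (1 / 2 * ρ) := by
    rw [hQ, hM]
    have h9 : ((e k : ℝ) + 1) * (A * D * Real.exp (1 / 2 * ρ)) ≤
        (∑ k, (e k : ℝ) + 1) * (A * D * Real.exp (1 / 2 * ρ)) :=
      mul_le_mul_of_nonneg_right (by linarith) (by positivity)
    nlinarith
  have h10 : Q < Real.exp (1 / 2 * ρ) := by
    have := Real.add_one_le_exp (1 / 2 * ρ)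
    linarith
  calc 1 + ((e k : ℝ) + 1) * M ≤ Q * Real.exp (1 / 2 * ρ) := h8
    _ < Real.exp (1 / 2 * ρ) * Real.exp (1 / 2 * ρ) :=
        mul_lt_mul_of_pos_right h10 (Real.exp_pos _)
    _ = Real.exp ρ := by
        rw [← Real.exp_add]
        congr 1
        ring

end Pool.Agent.EXI
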