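import Pool.Agent.EXI.TAFar
import Pool.Agent.EXI.TANear
import Pool.Agent.EXI.TAFsum
import Pool.Agent.EXI.TADer
import Pool.Agent.EXI.TALoc
import Pool.Agent.EXI.TAMeas
import Pool.Agent.EXI.TACv
import Pool.Agent.EXI.TAMain

/-!
# EXI / TAFin: the analytic half of (T)
-/

set_option autoImplicit false

namespace Pool.Agent.EXI

open MvPolynomial MeasureTheory Pool.Agent.EXL
open scoped ENNReal

/-- Multilinear expansion. -/
theorem det_expand {ι : Type} [Fintype ι] {y : ℕ} (l : Fin y → ι → ℂ) (M : Fin y → ι → ℂ) :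
    Matrix.det (fun j i => ∑ k, l j k * M i k) =
      ∑ J : Fin y → ι, (∏ j, l j (J j)) * Matrix.det (fun j i => M i (J j)) := by
  classical
  have h1 : (fun j i => ∑ k, l j k * M i k : Matrix (Fin y) (Fin y) ℂ) =
      fun j => ∑ k, l j k • (fun i => M i k) := by
    funext j i
    simp [Finset.sum_apply]
  have h2 : Matrix.det (fun j i => ∑ k, l j k * M i k : Matrix (Fin y) (Fin y) ℂ) =
      Matrix.detRowAlternating.toMultilinearMap (fun j => ∑ k, l j k • (fun i => M i k)) := by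
    rw [h1]; rfl
  rw [h2, MultilinearMap.map_sum]
  refine Finset.sum_congr rfl fun J _ => ?_
  rw [MultilinearMap.map_smul_univ, smul_eq_mul]
  rfl

/-- Transfer of polynomial relations. -/
theorem VV_transfer {K : Subfield ℂ} {ι : Type} {b x : ι → ℂ} (hx : x ∈ VV K b)
    (p q : MvPolynomial ι K) (h : aeval b p = aeval b q) : aeval x p = aeval x q := by
  have h1 : aeval b (p - q) = 0 := by rw [map_sub, h, sub_self]
  have h2 := hx (p - q) h1
  rwa [map_sub, sub_eq_zero] at h2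

/-- Rational expression of a determinant. -/
theorem det_frac {K : Subfield ℂ} {ι κ : Type} [Fintype κ] {y : ℕ} (x : ι → ℂ)
    (l : Fin y → κ → ℂ) (hl : ∀ j k, l j k ∈ K) (N : Fin y → κ → MvPolynomial ι K)
    (G : MvPolynomial ι K) :
    Matrix.det (fun j i => ∑ k, l j k * (aeval x (N i k) / aeval x G)) =
      aeval x (Matrix.det (Matrix.of fun j i => ∑ k, C (⟨l j k, hl j k⟩ : K) * N i k)) /
        aeval x (G ^ y) := by
  classical
  have h1 : (aeval x : MvPolynomial ι K →ₐ[K] ℂ) (Matrix.det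
      (Matrix.of fun j i => ∑ k, C (⟨l j k, hl j k⟩ : K) * N i k)) =
      Matrix.det (Matrix.of fun j i => ∑ k, l j k * aeval x (N i k)) := by
    rw [AlgHom.map_det]
    congr 1
    ext j i
    simp only [AlgHom.mapMatrix_apply, Matrix.map_apply, Matrix.of_apply, map_sum, map_mul,
      algHom_C]
    rfl
  have h2 : (Matrix.of fun j i => ∑ k, l j k * (aeval x (N i k) / aeval x G)) =
      (aeval x G)⁻¹ • (Matrix.of fun j i => ∑ k, l j k * aeval x (N i k)) := by
    ext j i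
    rw [Matrix.smul_apply, smul_eq_mul, Matrix.of_apply, Matrix.of_apply, Finset.mul_sum]
    refine Finset.sum_congr rfl fun k _ => ?_
    ring
  change Matrix.det (Matrix.of fun j i => ∑ k, l j k * (aeval x (N i k) / aeval x G)) = _
  rw [h1, h2, Matrix.det_smul, map_pow, Fintype.card_fin, inv_pow]
  ring

/-- The case of the determinants `κ`. -/
theorem det_frac' {K : Subfield ℂ} {ι : Type} {y : ℕ} (x : ι → ℂ) (J : Fin y → ι)
    (N : Fin y → ι → MvPolynomial ι K) (G : MvPolynomial ι K) :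
    Matrix.det (fun j i => aeval x (N i (J j)) / aeval x G) =
      aeval x (Matrix.det (Matrix.of fun j i => N i (J j))) / aeval x (G ^ y) := by
  classical
  have h1 : (aeval x : MvPolynomial ι K →ₐ[K] ℂ) (Matrix.det
      (Matrix.of fun j i => N i (J j))) =
      Matrix.det (Matrix.of fun j i => aeval x (N i (J j))) := by
    rw [AlgHom.map_det]
    congr 1
  have h2 : (Matrix.of fun j i => (aeval x (N i (J j)) / aeval x G)) =
      (aeval x G)⁻¹ • (Matrix.of fun j i => aeval x (N i (J j))) := by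
    ext j i
    rw [Matrix.smul_apply, smul_eq_mul, Matrix.of_apply, Matrix.of_apply]
    ring
  change Matrix.det (Matrix.of fun j i => (aeval x (N i (J j)) / aeval x G)) = _
  rw [h1, h2, Matrix.det_smul, map_pow, Fintype.card_fin, inv_pow]
  ring

theorem continuous_aeval' {K : Subfield ℂ} {ι : Type} [Fintype ι] (p : MvPolynomial ι K) :
    Continuous (fun x : ι → ℂ => aeval x p) := by
  have h : (fun x : ι → ℂ => aeval x p) = fun x => eval x (map (algebraMap K ℂ) p) := by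
    funext x
    rw [eval_map, aeval_def]
  rw [h]
  exact MvPolynomial.continuous_eval _

/-- Transfer of the negativity relation. -/
theorem transfer_neg {K : Subfield ℂ} {ι : Type} [Fintype ι] {b x : ι → ℂ} (hx : x ∈ VV K b)
    {y d : ℕ} (J : Fin y → ι) (A : MvPolynomial ι K) (B : MvPolynomial ι K)
    (hB : aeval b B ≠ 0) (hBx : aeval x B ≠ 0) (N : Fin d → MvPolynomial (Fin y) K)
    (G : MvPolynomial (Fin y) K)
    (h : aeval (b ∘ J) G * (aeval b A / aeval b B) ^ d +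
      ∑ i, aeval (b ∘ J) (N i) * (aeval b A / aeval b B) ^ (i : ℕ) = 0) :
    aeval (x ∘ J) G * (aeval x A / aeval x B) ^ d +
      ∑ i, aeval (x ∘ J) (N i) * (aeval x A / aeval x B) ^ (i : ℕ) = 0 := by
  set p : MvPolynomial ι K := rename J G * A ^ d + ∑ i, rename J (N i) * (A ^ (i : ℕ) *
    B ^ (d - (i : ℕ))) with hp
  have key : ∀ z : ι → ℂ, aeval z B ≠ 0 → aeval z p = (aeval z B) ^ d *
      (aeval (z ∘ J) G * (aeval z A / aeval z B) ^ d +
      ∑ i, aeval (z ∘ J) (N i) * (aeval z A / aeval z B) ^ (i : ℕ)) := by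
    intro z hz
    rw [hp, map_add, map_mul, map_pow, aeval_rename, map_sum, mul_add, Finset.mul_sum]
    congr 1
    · rw [div_pow]
      field_simp
    · refine Finset.sum_congr rfl fun i _ => ?_
      rw [map_mul, map_mul, map_pow, map_pow, aeval_rename, div_pow]
      have h1 : (aeval z B) ^ d = (aeval z B) ^ (i : ℕ) * (aeval z B) ^ (d - (i : ℕ)) := by
        rw [← pow_add]
        congr 1
        have := i.2
        omega
      rw [h1]
      have h2 : (aeval z B) ^ (i : ℕ) ≠ 0 := pow_ne_zero _ hz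
      field_simp
  have h1 : aeval x p = 0 := by
    apply hx
    rw [key b hB, h, mul_zero]
  rw [key x hBx] at h1
  exact (mul_eq_zero.1 h1).resolve_left (pow_ne_zero _ hBx)

/-- Transfer of the algebraic relations of the coordinates. -/
theorem transfer_rel {K : Subfield ℂ} {ι : Type} [Fintype ι] {b x : ι → ℂ} (hx : x ∈ VV K b)
    {y : ℕ} (J : Fin y → ι) (k : ι) (e : ℕ) (a : Fin (e + 1) → MvPolynomial (Fin y) K)
    (h : ∑ i, aeval (b ∘ J) (a i) * b k ^ (i : ℕ) = 0) :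
    ∑ i, aeval (x ∘ J) (a i) * x k ^ (i : ℕ) = 0 := by
  have key : ∀ z : ι → ℂ, aeval z (∑ i, rename J (a i) * X k ^ (i : ℕ)) =
      ∑ i, aeval (z ∘ J) (a i) * z k ^ (i : ℕ) := by
    intro z
    rw [map_sum]
    refine Finset.sum_congr rfl fun i _ => ?_
    rw [map_mul, map_pow, aeval_rename, aeval_X]
  rw [← key x]
  apply hx
  rw [key b, h]

theorem tana (K : Subfield ℂ) {ι : Type} [Fintype ι] (b : ι → ℂ) (hb : ∀ i, b i ≠ 0) (y : ℕ)
    (hy : 1 ≤ y) (hyd : td (K : Set ℂ) b = y) (l : Fin y → ι → ℂ) (hl : ∀ j k, l j k ∈ K)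
    (R : (Fin y → ι) → ℂ)
    (hR : ∀ J, td (K : Set ℂ) (b ∘ J) = y → ∀ D : Fin y → Derivation ℤ ℂ ℂ,
      (∀ i, D i ∈ DerOver (K : Set ℂ)) → (∀ i j, D i (b (J j)) = if i = j then b (J j) else 0) →
      R J = Matrix.det (fun j i => ∑ k, l j k * (D i (b k) / b k)))
    (htr : ∀ J, td (K : Set ℂ) (b ∘ J) = y → ∃ r : FJ K b J, (r : ℂ) = R J ∧
      Algebra.trace (EJ K b J) (FJ K b J) r = 0)
    (hneg : ∀ J, td (K : Set ℂ) (b ∘ J) = y → ∃ d : ℕ, 1 ≤ d ∧
      ∃ (N : Fin d → MvPolynomial (Fin y) K) (G : MvPolynomial (Fin y) K), G ≠ 0 ∧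
        aeval (b ∘ J) G * R J ^ d + ∑ i, aeval (b ∘ J) (N i) * R J ^ (i : ℕ) = 0 ∧
        ∀ m : Fin y → ℤ, m ≠ 0 → ∃ s' ∈ G.support, ∀ i, ∀ s ∈ (N i).support,
          ∑ i, m i * (s' i : ℤ) < ∑ i, m i * (s i : ℤ)) :
    ∀ J, td (K : Set ℂ) (b ∘ J) = y → R J = 0 := by
  classical
  have hind : ∀ J : Fin y → ι, td (K : Set ℂ) (b ∘ J) = y → AlgebraicIndependent K (b ∘ J) :=
    fun J h => algInd_of_td K b J h
  have halg : ∀ J : Fin y → ι, td (K : Set ℂ) (b ∘ J) = y →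
      ∀ k, IsAlgebraic (Algebra.adjoin K (Set.range (b ∘ J))) (b k) :=
    fun J h k => alg_of_td K b J hyd h k
  -- dual derivations
  have hD0 : ∀ J : Fin y → ι, ∃ D : Fin y → Derivation ℤ ℂ ℂ, td (K : Set ℂ) (b ∘ J) = y →
      (∀ i, D i ∈ DerOver (K : Set ℂ)) ∧
      ∀ i j, D i (b (J j)) = if i = j then b (J j) else 0 := by
    intro J
    by_cases h : td (K : Set ℂ) (b ∘ J) = y
    · obtain ⟨D, hD⟩ := exists_D K b hb J h
      exact ⟨D, fun _ => hD⟩
    · exact ⟨fun _ => 0, fun h' => absurd h' h⟩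
  choose D hD using hD0
  -- rational functions
  have hrep : ∀ J : Fin y → ι, ∃ (G : MvPolynomial ι K) (N : Fin y → ι → MvPolynomial ι K),
      aeval b G ≠ 0 ∧ (td (K : Set ℂ) (b ∘ J) = y →
        ∀ i k, D J i (b k) / b k = aeval b (N i k) / aeval b G) := by
    intro J
    by_cases h : td (K : Set ℂ) (b ∘ J) = y
    · obtain ⟨G, hG, hN⟩ := rep K b J hb (hind J h) (halg J h) (D J) (hD J h).1 (hD J h).2
      choose N hN using hN
      exact ⟨G, N, hG, fun _ => hN⟩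
    · exact ⟨1, fun _ _ => 0, by rw [map_one]; exact one_ne_zero, fun h' => absurd h' h⟩
  choose GJ N hGJ hN using hrep
  have hloc : ∀ J : Fin y → ι, ∃ G₁ : MvPolynomial ι K, aeval b G₁ ≠ 0 ∧
      (td (K : Set ℂ) (b ∘ J) = y →
        IsEt (XG K b (GJ J * G₁)) J (fun i k x => aeval x (N J i k) / aeval x (GJ J))) := by
    intro J
    by_cases h : td (K : Set ℂ) (b ∘ J) = y
    · obtain ⟨G₁, hG₁, hE⟩ := loc K b J hb (hind J h) (halg J h) (D J) (hD J h).1 (hD J h).2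
        (GJ J) (hGJ J) (N J) (hN J h)
      exact ⟨G₁, hG₁, fun _ => hE⟩
    · exact ⟨1, by rw [map_one]; exact one_ne_zero, fun h' => absurd h' h⟩
  choose G1 hG1 hEt using hloc
  obtain ⟨J₀, hJ₀⟩ := exists_J K b hyd
  -- the big denominator
  set G : MvPolynomial ι K := (∏ J : Fin y → ι, (GJ J * G1 J) * GJ J ^ y) * ∏ k, X k with hGdef
  have hGb : aeval b G ≠ 0 := by
    rw [hGdef, map_mul, map_prod, map_prod]
    refine mul_ne_zero ?_ ?_
    · refine Finset.prod_ne_zero_iff.2 fun J _ => ?_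
      rw [map_mul, map_mul, map_pow]
      exact mul_ne_zero (mul_ne_zero (hGJ J) (hG1 J)) (pow_ne_zero _ (hGJ J))
    · refine Finset.prod_ne_zero_iff.2 fun k _ => ?_
      rw [aeval_X]; exact hb k
  have hdvd : ∀ J, (GJ J * G1 J) * GJ J ^ y ∣ G := fun J =>
    dvd_mul_of_dvd_left (Finset.dvd_prod_of_mem _ (Finset.mem_univ J)) _
  set Y : Set (ι → ℂ) := XG K b G with hY
  have hYm : MeasurableSet Y := measurableSet_XG K b G
  have hY0 : ∀ x ∈ Y, ∀ k, x k ≠ 0 := by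
    intro x hx k h
    apply hx.2
    obtain ⟨q, hq⟩ : (X k : MvPolynomial ι K) ∣ G := by
      rw [hGdef]
      exact dvd_mul_of_dvd_right (Finset.dvd_prod_of_mem _ (Finset.mem_univ k)) _
    rw [hq, map_mul, aeval_X, h, zero_mul]
  have hYG : ∀ x ∈ Y, ∀ J, aeval x (GJ J) ≠ 0 := by
    intro x hx J h
    apply hx.2
    obtain ⟨q, hq⟩ := hdvd J
    rw [hq, map_mul, map_mul, map_mul, h]
    ring
  have hEtY : ∀ J, td (K : Set ℂ) (b ∘ J) = y →
      IsEt Y J (fun i k x => aeval x (N J i k) / aeval x (GJ J)) := by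
    intro J h
    obtain ⟨q, hq⟩ := (dvd_mul_right (GJ J * G1 J) (GJ J ^ y)).trans (hdvd J)
    rw [hY, hq]
    exact (hEt J h).mul q
  -- the functions
  let lJ : (Fin y → ι) → Fin y → ι → (ι → ℂ) → ℂ := fun J i k x =>
    aeval x (N J i k) / aeval x (GJ J)
  let Rf : (Fin y → ι) → (ι → ℂ) → ℂ := fun J x => Matrix.det (fun j i => ∑ k, l j k * lJ J i k x)
  let κ : (Fin y → ι) → (ι → ℂ) → ℂ := fun J x => Matrix.det (fun j i => lJ J₀ i (J j) x)
  let NR : (Fin y → ι) → MvPolynomial ι K := fun J =>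
    Matrix.det (Matrix.of fun j i => ∑ k, C (⟨l j k, hl j k⟩ : K) * N J i k)
  let Nκ : (Fin y → ι) → MvPolynomial ι K := fun J => Matrix.det (Matrix.of fun j i => N J₀ i (J j))
  have hRf : ∀ J x, Rf J x = aeval x (NR J) / aeval x (GJ J ^ y) := fun J x =>
    det_frac x l hl (N J) (GJ J)
  have hκf : ∀ J x, κ J x = aeval x (Nκ J) / aeval x (GJ J₀ ^ y) := fun J x =>
    det_frac' x J (N J₀) (GJ J₀)
  have hRb : ∀ J, td (K : Set ℂ) (b ∘ J) = y → Rf J b = R J := by
    intro J h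
    rw [hR J h (D J) (hD J h).1 (hD J h).2]
    change Matrix.det (fun j i => ∑ k, l j k * (aeval b (N J i k) / aeval b (GJ J))) = _
    congr 1
    funext j i
    refine Finset.sum_congr rfl fun k _ => ?_
    rw [hN J h i k]
  have hκb : ∀ J, κ J b = Matrix.det (fun j i => D J₀ i (b (J j)) / b (J j)) := by
    intro J
    change Matrix.det (fun j i => aeval b (N J₀ i (J j)) / aeval b (GJ J₀)) = _
    congr 1
    funext j i
    rw [hN J₀ hJ₀ i (J j)]
  have hpow : ∀ (J : Fin y → ι) (x : ι → ℂ), aeval x (GJ J) ≠ 0 → aeval x (GJ J ^ y) ≠ 0 := by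
    intro J x h
    rw [map_pow]
    exact pow_ne_zero _ h
  have hκ0 : ∀ J, td (K : Set ℂ) (b ∘ J) ≠ y → ∀ x ∈ Y, κ J x = 0 := by
    intro J h x hx
    have h1 : κ J b = 0 := by
      rw [hκb]
      exact det_zero K b hb J h (D J₀) (hD J₀ hJ₀).1
    rw [hκf, div_eq_zero_iff] at h1
    have h2 := hx.1 (Nκ J) (h1.resolve_right (hpow _ _ (hGJ J₀)))
    rw [hκf, h2, zero_div]
  have hRκ : ∀ J, td (K : Set ℂ) (b ∘ J) = y → ∀ x ∈ Y, Rf J₀ x = Rf J x * κ J x := by
    intro J h x hx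
    have h1 : Rf J₀ b = Rf J b * κ J b := by
      rw [hRb J₀ hJ₀, hRb J h, hκb, hR J₀ hJ₀ (D J₀) (hD J₀ hJ₀).1 (hD J₀ hJ₀).2,
        hR J h (D J) (hD J h).1 (hD J h).2]
      exact R_change K b hb hyd J h (D J₀) (D J) (hD J₀ hJ₀).1 (hD J h).1 (hD J h).2 l
    rw [hRf, hRf, hκf] at h1
    have hg0 := hpow _ _ (hGJ J₀)
    have hg1 := hpow _ _ (hGJ J)
    have h2 : aeval b (NR J₀ * GJ J ^ y) = aeval b (NR J * Nκ J) := by
      rw [map_mul, map_mul]
      field_simp at h1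
      linear_combination h1
    have h3 := VV_transfer hx.1 _ _ h2
    rw [map_mul, map_mul] at h3
    rw [hRf, hRf, hκf]
    have hg0' := hpow _ _ (hYG x hx J₀)
    have hg1' := hpow _ _ (hYG x hx J)
    field_simp
    linear_combination h3
  have hκm : ∀ J, Measurable (κ J) := by
    intro J
    have : κ J = fun x => aeval x (Nκ J) / aeval x (GJ J₀ ^ y) := funext (hκf J)
    rw [this]
    exact (continuous_aeval' _).measurable.div (continuous_aeval' _).measurable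
  have hRm : ∀ J, Measurable (Rf J) := by
    intro J
    have : Rf J = fun x => aeval x (NR J) / aeval x (GJ J ^ y) := funext (hRf J)
    rw [this]
    exact (continuous_aeval' _).measurable.div (continuous_aeval' _).measurable
  have hlm : ∀ J i k, Measurable (lJ J i k) := fun J i k =>
    (continuous_aeval' _).measurable.div (continuous_aeval' _).measurable
  let Γ : Finset (Fin y → ι) := Finset.univ.filter fun J => td (K : Set ℂ) (b ∘ J) = y
  have hΓ : ∀ J, J ∈ Γ ↔ td (K : Set ℂ) (b ∘ J) = y := by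
    intro J
    simp [Γ]
  obtain ⟨m, hm⟩ := exists_meas Y hYm J₀ _ (hEtY J₀ hJ₀)
  -- fibres
  have hfib : ∀ J, ∃ n : ℕ, td (K : Set ℂ) (b ∘ J) = y → ∀ᵐ t ∂(mu y), (fib Y J t).Finite ∧
      (fib Y J t).ncard ≤ n ∧ ∑ᶠ x ∈ fib Y J t, Rf J x = 0 := by
    intro J
    by_cases h : td (K : Set ℂ) (b ∘ J) = y
    · obtain ⟨n, D₁, -, hD₁, h1⟩ := fib_card K b J (hind J h) (halg J h) G hGb
      have htr' : ∃ r : FJ K b J, (r : ℂ) = aeval b (NR J) / aeval b (GJ J ^ y) ∧
          Algebra.trace (EJ K b J) (FJ K b J) r = 0 := by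
        obtain ⟨r, hr, hr'⟩ := htr J h
        exact ⟨r, by rw [hr, ← hRf, hRb J h], hr'⟩
      obtain ⟨D₂, hD₂, h2⟩ := fib_trace K b J (hind J h) (halg J h) G hGb (NR J) (GJ J ^ y)
        ((dvd_mul_left _ _).trans (hdvd J)) htr'
      refine ⟨n, fun _ => ?_⟩
      have h3 : ∀ᵐ t ∂(mu y), aeval t (D₁ * D₂) ≠ 0 := by
        have := null (D₁ * D₂) (mul_ne_zero hD₁ hD₂)
        rw [ae_iff]
        simpa only [ne_eq, not_not] using this
      filter_upwards [h3] with t ht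
      rw [map_mul] at ht
      obtain ⟨h4, h5⟩ := h1 t (left_ne_zero_of_mul ht)
      refine ⟨h4, h5.le, ?_⟩
      rw [← h2 t (right_ne_zero_of_mul ht)]
      exact finsum_congr fun x => finsum_congr fun _ => hRf J x
    · exact ⟨0, fun h' => absurd h' h⟩
  choose n hn using hfib
  -- the estimates
  have hE : ∀ J ∈ Γ, ∃ C > (0:ℝ), ∃ c > (0:ℝ), ∃ ρ₀ ≥ (1:ℝ), ∃ c₀ > (0:ℝ), ∀ ρ : ℝ, ρ₀ ≤ ρ →
      ∃ E : Set (Fin y → ℂ), MeasurableSet E ∧ mu y E ≤ ENNReal.ofReal (C * Real.exp (-c * ρ)) ∧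
        (∀ x ∈ Y, x ∘ J ∈ LogB y (c₀ * ρ) → x ∘ J ∉ E → x ∈ Xr Y ρ) ∧
        (∀ x ∈ Xr Y ρ, x ∘ J ∉ LogB y (c₀ * ρ) → x ∘ J ∉ E →
          ‖Rf J x‖ ≤ C * Real.exp (-c * ρ)) := by
    intro J hJ
    have h := (hΓ J).1 hJ
    have hr0 := fun k => rel0 K b J (hind J h) (halg J h) k (hb k)
    choose e a ha0 ha1 ha using hr0
    obtain ⟨c₀, hc₀, ρ₀, hρ₀, C₁, hC₁, c₁, hc₁, -, hnear⟩ := near e a ha0 ha1
    obtain ⟨d, hd, N', G', hG', hrel, hsup⟩ := hneg J h
    obtain ⟨C₂, hC₂, c₂, hc₂, hfar⟩ := far N' hd G' hG' hsup c₀ hc₀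
    refine ⟨C₁ + C₂, by positivity, min c₁ c₂, lt_min hc₁ hc₂, ρ₀, hρ₀, c₀, hc₀, fun ρ hρ => ?_⟩
    obtain ⟨E₁, hE₁m, hE₁, hE₁'⟩ := hnear ρ hρ
    obtain ⟨E₂, hE₂m, hE₂, hE₂'⟩ := hfar ρ (hρ₀.trans hρ)
    have hρ0 : 0 ≤ ρ := by linarith [hρ₀.trans hρ]
    have he1 : Real.exp (-c₁ * ρ) ≤ Real.exp (-(min c₁ c₂) * ρ) := by
      apply Real.exp_le_exp.2
      nlinarith [min_le_left c₁ c₂]
    have he2 : Real.exp (-c₂ * ρ) ≤ Real.exp (-(min c₁ c₂) * ρ) := by
      apply Real.exp_le_exp.2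
      nlinarith [min_le_right c₁ c₂]
    refine ⟨E₁ ∪ E₂, hE₁m.union hE₂m, ?_, ?_, ?_⟩
    · refine (measure_union_le _ _).trans ((add_le_add hE₁ hE₂).trans ?_)
      rw [← ENNReal.ofReal_add (by positivity) (by positivity)]
      apply ENNReal.ofReal_le_ofReal
      nlinarith
    · intro x hx hxL hxE
      refine ⟨hx, ?_⟩
      refine hE₁' (x ∘ J) hxL (fun h' => hxE (Or.inl h')) x (hY0 x hx) fun k => ?_
      exact transfer_rel hx.1 J k (e k) (a k) (ha k)
    · intro x hx hxL hxE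
      have hxl : x ∘ J ∈ LogB y ρ := fun i => ⟨hY0 x hx.1 (J i), hx.2 (J i)⟩
      have h1 := hE₂' (x ∘ J) hxl (fun h' => hxE (Or.inr h')) hxL (Rf J x) (by
        rw [hRf]
        refine transfer_neg hx.1.1 J _ _ (hpow _ _ (hGJ J)) (hpow _ _ (hYG x hx.1 J)) N' G' ?_
        rw [← hRf, hRb J h]
        exact hrel)
      refine h1.trans ?_
      have hp := Real.exp_pos (-(min c₁ c₂) * ρ)
      have hp1 : C₂ * Real.exp (-c₂ * ρ) ≤ C₂ * Real.exp (-(min c₁ c₂) * ρ) :=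
        mul_le_mul_of_nonneg_left he2 hC₂.le
      have hp2 : 0 < C₁ * Real.exp (-(min c₁ c₂) * ρ) := mul_pos hC₁ hp
      linarith
  have hmain := main_estimate Y hYm hY0 Γ J₀ ((hΓ J₀).2 hJ₀) m κ Rf hκm hRm
    (fun J => ∏ j, l j (J j)) (by
      intro x hx
      change Matrix.det (fun j i => ∑ k, l j k * lJ J₀ i k x) = _
      rw [det_expand l (fun i k => lJ J₀ i k x), Finset.sum_filter]
      refine Finset.sum_congr rfl fun J _ => ?_
      split_ifs with h
      · rfl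
      · have := hκ0 J h x hx
        change _ * κ J x = 0
        rw [this, mul_zero]) (fun J hJ x hx => hRκ J ((hΓ J).1 hJ) x hx)
    (fun J hJ g hg => meas_fib Y hYm J _ (hEtY J ((hΓ J).1 hJ)) g hg)
    (fun J hJ g hg =>
      (hm (fun x => g x * ENNReal.ofReal (‖κ J x‖ ^ 2))
        (hg.mul ((hκm J).norm.pow_const 2).ennreal_ofReal)).trans
        (cv Y hYm hY0 J₀ J _ _ (hEtY J₀ hJ₀) (hEtY J ((hΓ J).1 hJ)) (hlm J₀) g hg).symm)
    (∑ J, n J) (fun J hJ => by
      filter_upwards [hn J ((hΓ J).1 hJ)] with t ht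
      exact ⟨ht.1, ht.2.1.trans (Finset.single_le_sum (f := n) (fun _ _ => Nat.zero_le _)
        (Finset.mem_univ J)), ht.2.2⟩) hE
  intro J h
  by_contra hne
  have hNR : aeval b (NR J) ≠ 0 := by
    intro h0
    apply hne
    rw [← hRb J h, hRf, h0, zero_div]
  obtain ⟨n', D₁, hn', hD₁, h1⟩ := fib_card K b J (hind J h) (halg J h) (G * NR J) (by
    rw [map_mul]
    exact mul_ne_zero hGb hNR)
  have h3 : ∀ᵐ t ∂(mu y), aeval t D₁ ≠ 0 := by
    have := null D₁ hD₁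
    rw [ae_iff]
    simpa only [ne_eq, not_not] using this
  have hnb : (ae (mu y)).NeBot := by
    rw [ae_neBot]
    intro h0
    have h4 := mu_logB y 1 zero_le_one
    rw [h0] at h4
    simp only [Measure.coe_zero, Pi.zero_apply, mul_one] at h4
    have h5 : (0:ℝ) < (4 * Real.pi) ^ y := by positivity
    have h6 := (ENNReal.ofReal_pos.2 h5).ne'
    exact h6 h4.symm
  obtain ⟨t, ht1, ht2⟩ := ((hmain J ((hΓ J).2 h)).and h3).exists
  obtain ⟨hfin, hcard⟩ := h1 t ht2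
  have hne' : (fib (XG K b (G * NR J)) J t).Nonempty := by
    rw [← Set.ncard_pos hfin, hcard]
    omega
  obtain ⟨x, hx, hxt⟩ := hne'
  have hx2 := hx.2
  rw [map_mul] at hx2
  have hxY : x ∈ Y := ⟨hx.1, left_ne_zero_of_mul hx2⟩
  have := ht1 x ⟨hxY, hxt⟩
  rw [hRf, div_eq_zero_iff] at this
  rcases this with h7 | h7
  · exact right_ne_zero_of_mul hx2 h7
  · exact hpow _ _ (hYG x hxY J) h7

end Pool.Agent.EXI
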