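import Pool.Agent.EXI.TADefs

/-!
# EXI / TAStr: the generic structure of the locus over the coordinates J

Let `E = K(b_J) = Frac K[b_J]`, `F = E(b) = K(b)` (finite over `E`, characteristic zero).
PROOF.  (1) Primitive element: `F = E(θ₀)`; `θ₀` is a polynomial in `b` with coefficients in `E`
(`b` is algebraic over `E`), so after multiplication by a nonzero element of `K[b_J]` it is in `K[b]`,
and after multiplication by another one it is integral over `K[b_J]`: `θ = aeval b W`, `E(θ) = F`.
(2) `K[b_J] ≅ MvPolynomial (Fin y) K` is integrally closed, so the minimal polynomial of `θ` over `E`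
comes from a monic `P ∈ MvPolynomial (Fin y) K [Y]` (`minpoly.isIntegrallyClosed_eq_field_fractions`);
`P` generates the kernel of evaluation at `(b_J, θ)` up to denominators: if `Q(b_J, θ) = 0` then `P ∣ Q`
(`P` monic: `minpoly.isIntegrallyClosed_dvd`).
(3) Every element of `F` is `A(b_J, θ) / D(b_J)`. Choose a common `D` for: all `b k` (numerators `A k`),
the element `1 / G(b)` (numerator `H`), and such that `D` is divisible by the discriminant (or: there
are `U, V ∈ K[T][Y]` with `U P + V P' = D₁ ∈ K[T]`, `D₁ ≠ 0`, as `P` is separable over `E`; take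
`D₁ ∣ D`), so that `P` specialised at `t` is separable when `D(t) ≠ 0`.
(4) First claim (`x ∈ VV K b`): `ev2 (b ∘ J) (aeval b W) P = 0` and
`D(b_J) b_k - A_k(b_J, W(b)) = 0` are polynomial relations `p(b) = 0` with
`p = (P with T ↦ X_J, Y ↦ W)` etc.; so they hold at `x`.
(5) Second claim: let `D(t) ≠ 0` and `P(t, θ_t) = 0`. Put `x_k = A_k(t, θ_t)/D(t)`. General principle:
if `p ∈ K[X, Y]` is a polynomial with `p(b, θ) = 0` then `p(x, θ_t) = 0`: for `M` large
`D(T)^M p(A(T,Y)/D(T), Y) ∈ K[T][Y]` vanishes at `(b_J, θ)`, so it is divisible by `P`, so it vanishes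
at `(t, θ_t)`. (Equivalently: the ring `K[b_J, θ, 1/D(b_J)]` is the localisation of `K[T][Y]/(P)` and
`(t, θ_t)` gives a ring homomorphism `ψ` from it to `ℂ`; it contains all `b_k` and `1/G(b)`, and
`x_k = ψ(b_k)`. With `ψ` all claims are immediate: `p(b) = 0 ⇒ p(x) = ψ(p(b)) = 0`,
`G(x) ψ(1/G(b)) = 1`, `x_{J i} = ψ(b_{J i}) = t_i`, `W(x) = ψ(θ) = θ_t`.) Suggestion for `ψ`: the
subalgebra of `ℂ` or `Localization.Away` of `AdjoinRoot P`.
-/

set_option autoImplicit false

namespace Pool.Agent.EXI

open MvPolynomial MeasureTheory Pool.Agent.EXL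
open scoped ENNReal

private theorem prim {R L : Type} [CommRing R] [IsDomain R] [Field L]
    [CharZero L] [Algebra R L] [FaithfulSMul R L] {ι : Type} [Finite ι] (b : ι → L)
    (hb : ∀ k, IsAlgebraic R (b k)) :
    ∃ θ ∈ Algebra.adjoin R (Set.range b), IsIntegral R θ ∧
      ∀ z ∈ Subfield.closure (Set.range (algebraMap R L) ∪ Set.range b),
        ∃ (B : Polynomial R) (d : R), d ≠ 0 ∧ algebraMap R L d * z = Polynomial.aeval θ B := by
  classical
  let _ : Algebra (FractionRing R) L := FractionRing.liftAlgebra R L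
  have _ : IsScalarTower R (FractionRing R) L := FractionRing.isScalarTower_liftAlgebra R L
  have hinj : Function.Injective (algebraMap R L) := FaithfulSMul.algebraMap_injective R L
  have hinjE : Function.Injective (algebraMap R (FractionRing R)) :=
    IsFractionRing.injective R (FractionRing R)
  have _ : CharZero (FractionRing R) := (algebraMap (FractionRing R) L).charZero
  have hbE : ∀ k, IsAlgebraic (FractionRing R) (b k) := fun k => (hb k).extendScalars hinjE
  have hbE' : ∀ x ∈ Set.range b, IsAlgebraic (FractionRing R) x := by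
    rintro x ⟨k, rfl⟩
    exact hbE k
  have _ : FiniteDimensional (FractionRing R) (IntermediateField.adjoin (FractionRing R) (Set.range b)) :=
    IntermediateField.finiteDimensional_adjoin fun x hx => (hbE' x hx).isIntegral
  obtain ⟨α, hα⟩ := Field.exists_primitive_element (FractionRing R)
    (IntermediateField.adjoin (FractionRing R) (Set.range b))
  have hFr : ∀ r : FractionRing R, ∃ n d : R, d ≠ 0 ∧
      algebraMap R L d * algebraMap (FractionRing R) L r = algebraMap R L n := by
    intro r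
    obtain ⟨n, d, hd, h⟩ := IsFractionRing.div_surjective (A := R) r
    refine ⟨n, d, nonZeroDivisors.ne_zero hd, ?_⟩
    have hd' : algebraMap R (FractionRing R) d ≠ 0 := by
      rw [Ne, map_eq_zero_iff _ hinjE]
      exact nonZeroDivisors.ne_zero hd
    rw [IsScalarTower.algebraMap_apply R (FractionRing R) L d,
      IsScalarTower.algebraMap_apply R (FractionRing R) L n, ← map_mul, ← h,
      mul_div_cancel₀ _ hd']
  -- a multiple of α in R[b]
  have h1 : ∀ z ∈ Algebra.adjoin (FractionRing R) (Set.range b), ∃ d : R, d ≠ 0 ∧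
      algebraMap R L d * z ∈ Algebra.adjoin R (Set.range b) := by
    intro z hz
    induction hz using Algebra.adjoin_induction with
    | mem x hx =>
      refine ⟨1, one_ne_zero, ?_⟩
      rw [map_one, one_mul]
      exact Algebra.subset_adjoin hx
    | algebraMap r =>
      obtain ⟨n, d, hd, h⟩ := hFr r
      exact ⟨d, hd, by rw [h]; exact Subalgebra.algebraMap_mem _ n⟩
    | add x y _ _ hx hy =>
      obtain ⟨d, hd, h⟩ := hx
      obtain ⟨e, he, h'⟩ := hy
      refine ⟨d * e, mul_ne_zero hd he, ?_⟩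
      have : algebraMap R L (d * e) * (x + y) =
          algebraMap R L e * (algebraMap R L d * x) + algebraMap R L d * (algebraMap R L e * y) := by
        rw [map_mul]
        ring
      rw [this]
      exact add_mem (mul_mem (Subalgebra.algebraMap_mem _ e) h)
        (mul_mem (Subalgebra.algebraMap_mem _ d) h')
    | mul x y _ _ hx hy =>
      obtain ⟨d, hd, h⟩ := hx
      obtain ⟨e, he, h'⟩ := hy
      refine ⟨d * e, mul_ne_zero hd he, ?_⟩
      have : algebraMap R L (d * e) * (x * y) =
          (algebraMap R L d * x) * (algebraMap R L e * y) := by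
        rw [map_mul]
        ring
      rw [this]
      exact mul_mem h h'
  have hαm : (α : L) ∈ Algebra.adjoin (FractionRing R) (Set.range b) := by
    rw [← IntermediateField.adjoin_toSubalgebra_of_isAlgebraic hbE']
    exact α.2
  obtain ⟨d, hd, hdα⟩ := h1 _ hαm
  have halgR : IsAlgebraic R (algebraMap R L d * (α : L)) := by
    have h2 : IsAlgebraic (FractionRing R) (α : L) := by
      have h3 : IsAlgebraic (FractionRing R) α := Algebra.IsAlgebraic.isAlgebraic α
      exact h3.algebraMap
    have h3 : IsAlgebraic R (α : L) := by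
      exact (IsFractionRing.isAlgebraic_iff R (FractionRing R) L).2 h2
    exact (isAlgebraic_algebraMap d).mul h3
  obtain ⟨e, he, hint⟩ := halgR.exists_integral_multiple
  have hde : algebraMap R (FractionRing R) (e * d) ≠ 0 := by
    rw [Ne, map_eq_zero_iff _ hinjE]
    exact mul_ne_zero he hd
  have hθ : e • (algebraMap R L d * (α : L)) = algebraMap R L (e * d) * (α : L) := by
    rw [Algebra.smul_def, map_mul, mul_assoc]
  rw [hθ] at hint
  refine ⟨algebraMap R L (e * d) * (α : L), ?_, hint, ?_⟩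
  · rw [map_mul, mul_assoc]
    exact mul_mem (Subalgebra.algebraMap_mem _ e) hdα
  · intro z hz
    have hzF : z ∈ IntermediateField.adjoin (FractionRing R) (Set.range b) := by
      have : Subfield.closure (Set.range (algebraMap R L) ∪ Set.range b) ≤
          (IntermediateField.adjoin (FractionRing R) (Set.range b)).toSubfield := by
        rw [Subfield.closure_le]
        rintro x (⟨r, rfl⟩ | hx)
        · rw [IsScalarTower.algebraMap_apply R (FractionRing R) L r]
          exact IntermediateField.algebraMap_mem _ _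
        · exact IntermediateField.subset_adjoin _ _ hx
      exact this hz
    obtain ⟨p, hp⟩ : ∃ p : Polynomial (FractionRing R), Polynomial.aeval α p = ⟨z, hzF⟩ := by
      have h2 : (⟨z, hzF⟩ : IntermediateField.adjoin (FractionRing R) (Set.range b)) ∈
          IntermediateField.adjoin (FractionRing R) {α} := by
        rw [hα]
        exact IntermediateField.mem_top
      rw [← IntermediateField.mem_toSubalgebra,
        IntermediateField.adjoin_simple_toSubalgebra_of_isAlgebraic
          (Algebra.IsAlgebraic.isAlgebraic α), Algebra.adjoin_singleton_eq_range_aeval] at h2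
      exact h2
    have hp' : Polynomial.aeval (α : L) p = z := by
      have := congrArg (algebraMap _ L) hp
      rw [← Polynomial.aeval_algebraMap_apply] at this
      exact this
    have hq : Polynomial.aeval (algebraMap R L (e * d) * (α : L))
        (p.comp (Polynomial.C (algebraMap R (FractionRing R) (e * d))⁻¹ * Polynomial.X)) = z := by
      rw [Polynomial.aeval_comp, map_mul, Polynomial.aeval_C, Polynomial.aeval_X, map_inv₀,
        ← IsScalarTower.algebraMap_apply, inv_mul_cancel_left₀, hp']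
      rw [IsScalarTower.algebraMap_apply R (FractionRing R) L]
      exact (map_ne_zero _).2 hde
    generalize (p.comp (Polynomial.C (algebraMap R (FractionRing R) (e * d))⁻¹ * Polynomial.X)) = q
      at hq
    obtain ⟨f, hf, h3⟩ := IsLocalization.integerNormalization_spec (nonZeroDivisors R) q
    refine ⟨IsLocalization.integerNormalization (nonZeroDivisors R) q, f,
      nonZeroDivisors.ne_zero hf, ?_⟩
    generalize algebraMap R L (e * d) * (α : L) = θ at hq ⊢
    rw [← Polynomial.aeval_map_algebraMap (FractionRing R), h3, ← hq, Algebra.smul_def,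
      Polynomial.algebraMap_apply, map_mul, Polynomial.aeval_C, ← IsScalarTower.algebraMap_apply]

private theorem sepr {R L : Type} [CommRing R] [IsDomain R] [IsIntegrallyClosed R] [Field L]
    [CharZero L] [Algebra R L] [FaithfulSMul R L] (θ : L) (hθ : IsIntegral R θ) :
    ∃ (U V : Polynomial R) (d : R), d ≠ 0 ∧
      U * minpoly R θ + V * Polynomial.derivative (minpoly R θ) = Polynomial.C d := by
  classical
  let _ : Algebra (FractionRing R) L := FractionRing.liftAlgebra R L
  have _ : IsScalarTower R (FractionRing R) L := FractionRing.isScalarTower_liftAlgebra R L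
  have hinjE : Function.Injective (algebraMap R (FractionRing R)) :=
    IsFractionRing.injective R (FractionRing R)
  have _ : CharZero (FractionRing R) := (algebraMap (FractionRing R) L).charZero
  have e1 : minpoly (FractionRing R) θ = (minpoly R θ).map (algebraMap R (FractionRing R)) :=
    minpoly.isIntegrallyClosed_eq_field_fractions' (FractionRing R) hθ
  have hsep : ((minpoly R θ).map (algebraMap R (FractionRing R))).Separable := by
    rw [← e1]
    exact (minpoly.irreducible hθ.tower_top).separable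
  obtain ⟨U, V, hUV⟩ := hsep
  obtain ⟨u, hu, h1⟩ := IsLocalization.integerNormalization_spec (nonZeroDivisors R) U
  obtain ⟨v, hv, h2⟩ := IsLocalization.integerNormalization_spec (nonZeroDivisors R) V
  refine ⟨Polynomial.C v * IsLocalization.integerNormalization (nonZeroDivisors R) U,
    Polynomial.C u * IsLocalization.integerNormalization (nonZeroDivisors R) V, u * v,
    mul_ne_zero (nonZeroDivisors.ne_zero hu) (nonZeroDivisors.ne_zero hv), ?_⟩
  apply Polynomial.map_injective _ hinjE
  rw [Polynomial.map_add, Polynomial.map_mul, Polynomial.map_mul, Polynomial.map_mul,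
    Polynomial.map_mul, h1, h2, Polynomial.map_C, Polynomial.map_C, Polynomial.map_C,
    ← Polynomial.derivative_map, Algebra.smul_def, Algebra.smul_def, Polynomial.algebraMap_apply,
    Polynomial.algebraMap_apply, map_mul, Polynomial.C_mul]
  linear_combination (Polynomial.C (algebraMap R (FractionRing R) u) *
    Polynomial.C (algebraMap R (FractionRing R) v)) * hUV

section Ev

variable {K : Subfield ℂ} {ι : Type} {y : ℕ}

private theorem ev2_add (t : Fin y → ℂ) (θ : ℂ) (P Q : Polynomial (MvPolynomial (Fin y) K)) :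
    ev2 t θ (P + Q) = ev2 t θ P + ev2 t θ Q := by
  simp [ev2]

private theorem ev2_sub (t : Fin y → ℂ) (θ : ℂ) (P Q : Polynomial (MvPolynomial (Fin y) K)) :
    ev2 t θ (P - Q) = ev2 t θ P - ev2 t θ Q := by
  simp [ev2]

private theorem ev2_mul (t : Fin y → ℂ) (θ : ℂ) (P Q : Polynomial (MvPolynomial (Fin y) K)) :
    ev2 t θ (P * Q) = ev2 t θ P * ev2 t θ Q := by
  simp [ev2]

private theorem ev2_C (t : Fin y → ℂ) (θ : ℂ) (r : MvPolynomial (Fin y) K) :
    ev2 t θ (Polynomial.C r) = aeval t r := by
  unfold ev2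
  rw [Polynomial.map_C, Polynomial.eval_C]
  rfl

private theorem ev2_X (t : Fin y → ℂ) (θ : ℂ) :
    ev2 (K := K) t θ Polynomial.X = θ := by
  simp [ev2]

private theorem ev2_dvd {t : Fin y → ℂ} {θ : ℂ} {P Q : Polynomial (MvPolynomial (Fin y) K)}
    (h : P ∣ Q) (hP : ev2 t θ P = 0) : ev2 t θ Q = 0 := by
  obtain ⟨e, rfl⟩ := h
  rw [ev2_mul, hP, zero_mul]

private theorem ev2_eq (J : Fin y → ι) (W : MvPolynomial ι K)
    (x : ι → ℂ) (Q : Polynomial (MvPolynomial (Fin y) K)) :
    ev2 (x ∘ J) (aeval x W) Q = aeval x (Polynomial.eval₂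
      (rename J : MvPolynomial (Fin y) K →ₐ[K] MvPolynomial ι K).toRingHom W Q) := by
  have h := Polynomial.hom_eval₂ Q
    (rename J : MvPolynomial (Fin y) K →ₐ[K] MvPolynomial ι K).toRingHom
    (aeval x : MvPolynomial ι K →ₐ[K] ℂ).toRingHom W
  have h2 : (aeval x : MvPolynomial ι K →ₐ[K] ℂ).toRingHom.comp
      (rename J : MvPolynomial (Fin y) K →ₐ[K] MvPolynomial ι K).toRingHom =
      (aeval (x ∘ J) : MvPolynomial (Fin y) K →ₐ[K] ℂ).toRingHom :=
    RingHom.ext fun p => aeval_rename _ _ _
  rw [h2] at h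
  unfold ev2
  rw [Polynomial.eval_map]
  exact h.symm

private theorem hom (D : MvPolynomial (Fin y) K)
    (A : ι → Polynomial (MvPolynomial (Fin y) K)) (p : MvPolynomial ι K) :
    ∃ (M : ℕ) (Q : Polynomial (MvPolynomial (Fin y) K)), ∀ (t : Fin y → ℂ) (θ : ℂ) (x : ι → ℂ),
      (∀ k, aeval t D * x k = ev2 t θ (A k)) → (aeval t D) ^ M * aeval x p = ev2 t θ Q := by
  induction p using MvPolynomial.induction_on with
  | C a =>
    refine ⟨0, Polynomial.C (C a), fun t θ x h => ?_⟩
    rw [ev2_C, pow_zero, one_mul, aeval_C, aeval_C]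
  | add p q hp hq =>
    obtain ⟨M1, Q1, h1⟩ := hp
    obtain ⟨M2, Q2, h2⟩ := hq
    refine ⟨M1 + M2, Polynomial.C (D ^ M2) * Q1 + Polynomial.C (D ^ M1) * Q2,
      fun t θ x h => ?_⟩
    rw [ev2_add, ev2_mul, ev2_mul, ev2_C, ev2_C, map_pow, map_pow, ← h1 t θ x h,
      ← h2 t θ x h, map_add, pow_add]
    ring
  | mul_X p k hp =>
    obtain ⟨M1, Q1, h1⟩ := hp
    refine ⟨M1 + 1, Q1 * A k, fun t θ x h => ?_⟩
    rw [ev2_mul, ← h1 t θ x h, ← h k, map_mul, aeval_X, pow_succ]
    ring

end Ev

variable (K : Subfield ℂ) {ι : Type} [Fintype ι] (b : ι → ℂ) {y : ℕ} (J : Fin y → ι)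

theorem str (hJ : AlgebraicIndependent K (b ∘ J))
    (halg : ∀ k, IsAlgebraic (Algebra.adjoin K (Set.range (b ∘ J))) (b k))
    (G : MvPolynomial ι K) (hG : aeval b G ≠ 0) :
    ∃ (D : MvPolynomial (Fin y) K) (P : Polynomial (MvPolynomial (Fin y) K))
      (A : ι → Polynomial (MvPolynomial (Fin y) K)) (W : MvPolynomial ι K),
      D ≠ 0 ∧ P.Monic ∧ 1 ≤ P.natDegree ∧
      (∀ Q : Polynomial (MvPolynomial (Fin y) K), ev2 (b ∘ J) (aeval b W) Q = 0 → P ∣ Q) ∧
      (∀ z ∈ IntermediateField.adjoin K (Set.range b),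
        ∃ (B : Polynomial (MvPolynomial (Fin y) K)) (D' : MvPolynomial (Fin y) K), D' ≠ 0 ∧
          aeval (b ∘ J) D' * z = ev2 (b ∘ J) (aeval b W) B) ∧
      (∀ x ∈ VV K b, ev2 (x ∘ J) (aeval x W) P = 0 ∧
        ∀ k, aeval (x ∘ J) D * x k = ev2 (x ∘ J) (aeval x W) (A k)) ∧
      (∀ t : Fin y → ℂ, aeval t D ≠ 0 →
        (P.map (aeval t : MvPolynomial (Fin y) K →ₐ[K] ℂ).toRingHom).Separable ∧
        ∀ θ, ev2 t θ P = 0 → ∃ x ∈ XG K b G, x ∘ J = t ∧ aeval x W = θ) := by
  classical
  let _ : Algebra (MvPolynomial (Fin y) K) ℂ :=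
    (aeval (b ∘ J) : MvPolynomial (Fin y) K →ₐ[K] ℂ).toRingHom.toAlgebra
  have hmap : ∀ r : MvPolynomial (Fin y) K,
      algebraMap (MvPolynomial (Fin y) K) ℂ r = aeval (b ∘ J) r := fun _ => rfl
  have hinj : Function.Injective (algebraMap (MvPolynomial (Fin y) K) ℂ) := hJ
  have _ : FaithfulSMul (MvPolynomial (Fin y) K) ℂ :=
    (faithfulSMul_iff_algebraMap_injective _ _).2 hinj
  have hne : ∀ r : MvPolynomial (Fin y) K, r ≠ 0 → aeval (b ∘ J) r ≠ 0 := by
    intro r hr
    rw [← hmap, Ne, map_eq_zero_iff _ hinj]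
    exact hr
  have hev : ∀ (θ : ℂ) (Q : Polynomial (MvPolynomial (Fin y) K)),
      Polynomial.aeval θ Q = ev2 (b ∘ J) θ Q := by
    intro θ Q
    rw [Polynomial.aeval_def, ev2, Polynomial.eval_map]
    rfl
  have hb : ∀ k, IsAlgebraic (MvPolynomial (Fin y) K) (b k) := by
    intro k
    obtain ⟨p, hp, hpb⟩ := halg k
    refine ⟨p.map (hJ.aevalEquiv.symm : _ →+* MvPolynomial (Fin y) K), ?_, ?_⟩
    · rw [Ne, Polynomial.map_eq_zero_iff]
      · exact hp
      · exact hJ.aevalEquiv.symm.injective
    · rw [Polynomial.aeval_def, Polynomial.eval₂_map]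
      have h2 : (algebraMap (MvPolynomial (Fin y) K) ℂ).comp
          (hJ.aevalEquiv.symm : _ →+* MvPolynomial (Fin y) K) =
          algebraMap (Algebra.adjoin K (Set.range (b ∘ J))) ℂ := by
        refine RingHom.ext fun z => ?_
        have h3 := hJ.algebraMap_aevalEquiv (hJ.aevalEquiv.symm z)
        rw [AlgEquiv.apply_symm_apply] at h3
        exact h3.symm
      rw [h2]
      exact hpb
  obtain ⟨θ, hθ1, hθ2, hθ3⟩ := prim (R := MvPolynomial (Fin y) K) b hb
  obtain ⟨U, V, d₁, hd₁, hUV⟩ := sepr (R := MvPolynomial (Fin y) K) θ hθ2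
  obtain ⟨W, hW⟩ : ∃ W : MvPolynomial ι K, aeval b W = θ := by
    clear hUV hθ2 hθ3
    induction hθ1 using Algebra.adjoin_induction with
    | mem x hx =>
      obtain ⟨k, rfl⟩ := hx
      exact ⟨X k, aeval_X _ _⟩
    | algebraMap r => exact ⟨rename J r, by rw [aeval_rename, hmap]⟩
    | add x z _ _ hx hz =>
      obtain ⟨W1, h1⟩ := hx
      obtain ⟨W2, h2⟩ := hz
      exact ⟨W1 + W2, by rw [map_add, h1, h2]⟩
    | mul x z _ _ hx hz =>
      obtain ⟨W1, h1⟩ := hx
      obtain ⟨W2, h2⟩ := hz
      exact ⟨W1 * W2, by rw [map_mul, h1, h2]⟩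
  obtain ⟨P, hP⟩ : ∃ P, P = minpoly (MvPolynomial (Fin y) K) θ := ⟨_, rfl⟩
  rw [← hP] at hUV
  have hPmonic : P.Monic := by
    rw [hP]
    exact minpoly.monic hθ2
  have hPdeg : 1 ≤ P.natDegree := by
    rw [hP]
    exact minpoly.natDegree_pos hθ2
  have hP0 : ev2 (b ∘ J) θ P = 0 := by
    rw [← hev, hP]
    exact minpoly.aeval _ _
  have hdvd : ∀ Q : Polynomial (MvPolynomial (Fin y) K), ev2 (b ∘ J) θ Q = 0 → P ∣ Q := by
    intro Q hQ
    rw [hP]
    exact minpoly.isIntegrallyClosed_dvd hθ2 (by rw [hev]; exact hQ)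
  have hfr : ∀ z ∈ IntermediateField.adjoin K (Set.range b),
      ∃ (B : Polynomial (MvPolynomial (Fin y) K)) (D' : MvPolynomial (Fin y) K), D' ≠ 0 ∧
        aeval (b ∘ J) D' * z = ev2 (b ∘ J) θ B := by
    intro z hz
    have hz' : z ∈ Subfield.closure
        (Set.range (algebraMap (MvPolynomial (Fin y) K) ℂ) ∪ Set.range b) := by
      have h1 : Subfield.closure (Set.range (algebraMap K ℂ) ∪ Set.range b) ≤
          Subfield.closure
            (Set.range (algebraMap (MvPolynomial (Fin y) K) ℂ) ∪ Set.range b) := by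
        rw [Subfield.closure_le]
        rintro x (⟨r, rfl⟩ | hx)
        · apply Subfield.subset_closure
          left
          refine ⟨C r, ?_⟩
          rw [hmap, aeval_C]
        · exact Subfield.subset_closure (Or.inr hx)
      exact h1 hz
    obtain ⟨B, d, hd, h⟩ := hθ3 z hz'
    exact ⟨B, d, hd, by rw [← hmap, h, hev]⟩
  have hbm : ∀ k, b k ∈ IntermediateField.adjoin K (Set.range b) := fun k =>
    IntermediateField.subset_adjoin _ _ ⟨k, rfl⟩
  have hGm : (aeval b G)⁻¹ ∈ IntermediateField.adjoin K (Set.range b) := by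
    apply inv_mem
    have h1 : ∀ p : MvPolynomial ι K, aeval b p ∈ IntermediateField.adjoin K (Set.range b) := by
      intro p
      induction p using MvPolynomial.induction_on with
      | C a =>
        rw [aeval_C]
        exact IntermediateField.algebraMap_mem _ a
      | add p q hp hq =>
        rw [map_add]
        exact add_mem hp hq
      | mul_X p k hp =>
        rw [map_mul, aeval_X]
        exact mul_mem hp (hbm k)
    exact h1 G
  choose B D' hD' hB using fun k => hfr (b k) (hbm k)
  obtain ⟨BG, DG, hDG, hBG⟩ := hfr _ hGm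
  obtain ⟨D, hD⟩ : ∃ D, D = d₁ * DG * ∏ k, D' k := ⟨_, rfl⟩
  have hD0 : D ≠ 0 := by
    rw [hD]
    exact mul_ne_zero (mul_ne_zero hd₁ hDG) (Finset.prod_ne_zero_iff.2 fun k _ => hD' k)
  have hgen : ∀ (z : ℂ) (B : Polynomial (MvPolynomial (Fin y) K)) (D' : MvPolynomial (Fin y) K),
      D' ∣ D → aeval (b ∘ J) D' * z = ev2 (b ∘ J) θ B →
      ∃ A : Polynomial (MvPolynomial (Fin y) K), aeval (b ∘ J) D * z = ev2 (b ∘ J) θ A := by
    rintro z B D' ⟨e, he⟩ h
    refine ⟨Polynomial.C e * B, ?_⟩
    rw [ev2_mul, ev2_C, ← h, he, map_mul]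
    ring
  have hA : ∀ k, ∃ A : Polynomial (MvPolynomial (Fin y) K),
      aeval (b ∘ J) D * b k = ev2 (b ∘ J) θ A := fun k =>
    hgen (b k) (B k) (D' k) (by
      rw [hD]
      exact (Finset.dvd_prod_of_mem _ (Finset.mem_univ k)).mul_left _) (hB k)
  choose A hA using hA
  obtain ⟨H, hH⟩ := hgen _ BG DG (by
    rw [hD]
    exact (dvd_mul_left DG d₁).mul_right _) hBG
  refine ⟨D, P, A, W, hD0, hPmonic, hPdeg, ?_, ?_, ?_, ?_⟩
  · rw [hW]
    exact hdvd
  · rw [hW]
    exact hfr
  · intro x hx
    refine ⟨?_, fun k => ?_⟩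
    · rw [ev2_eq]
      apply hx
      rw [← ev2_eq, hW]
      exact hP0
    · have h1 := hx (rename J D * X k - Polynomial.eval₂
        (rename J : MvPolynomial (Fin y) K →ₐ[K] MvPolynomial ι K).toRingHom W (A k)) (by
          rw [map_sub, map_mul, aeval_rename, aeval_X, ← ev2_eq, hW, hA k, sub_self])
      rw [map_sub, map_mul, aeval_rename, aeval_X, ← ev2_eq, sub_eq_zero] at h1
      exact h1
  · intro t ht
    have hd1t : aeval t d₁ ≠ 0 := by
      intro h0
      apply ht
      rw [hD, map_mul, map_mul, h0, zero_mul, zero_mul]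
    refine ⟨?_, fun θt hθt => ?_⟩
    · have h1 := congrArg (Polynomial.map
        (aeval t : MvPolynomial (Fin y) K →ₐ[K] ℂ).toRingHom) hUV
      rw [Polynomial.map_add, Polynomial.map_mul, Polynomial.map_mul, Polynomial.map_C,
        ← Polynomial.derivative_map] at h1
      have h2 : (aeval t : MvPolynomial (Fin y) K →ₐ[K] ℂ).toRingHom d₁ ≠ 0 := hd1t
      refine ⟨Polynomial.C ((aeval t : MvPolynomial (Fin y) K →ₐ[K] ℂ).toRingHom d₁)⁻¹ *
          U.map (aeval t : MvPolynomial (Fin y) K →ₐ[K] ℂ).toRingHom,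
        Polynomial.C ((aeval t : MvPolynomial (Fin y) K →ₐ[K] ℂ).toRingHom d₁)⁻¹ *
          V.map (aeval t : MvPolynomial (Fin y) K →ₐ[K] ℂ).toRingHom, ?_⟩
      rw [mul_assoc, mul_assoc, ← mul_add, h1, ← Polynomial.C_mul, inv_mul_cancel₀ h2,
        Polynomial.C_1]
    · -- the point over (t, θt)
      have hx0 : ∀ k, aeval t D * (ev2 t θt (A k) / aeval t D) = ev2 t θt (A k) := fun k =>
        mul_div_cancel₀ _ ht
      obtain ⟨x, hxdef⟩ : ∃ x : ι → ℂ, x = fun k => ev2 t θt (A k) / aeval t D := ⟨_, rfl⟩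
      have hx : ∀ k, aeval t D * x k = ev2 t θt (A k) := by
        intro k
        rw [hxdef]
        exact hx0 k
      have htr : ∀ Q : Polynomial (MvPolynomial (Fin y) K), ev2 (b ∘ J) θ Q = 0 →
          ev2 t θt Q = 0 := fun Q hQ => ev2_dvd (hdvd Q hQ) hθt
      have hxV : x ∈ VV K b := by
        intro p hp
        obtain ⟨M, Q, hMQ⟩ := hom D A p
        have h1 := hMQ (b ∘ J) θ b hA
        rw [hp, mul_zero] at h1
        have h2 := hMQ t θt x hx
        rw [htr Q h1.symm] at h2
        exact (mul_eq_zero.1 h2).resolve_left (pow_ne_zero _ ht)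
      refine ⟨x, ⟨hxV, ?_⟩, ?_, ?_⟩
      · obtain ⟨M, Q, hMQ⟩ := hom D A G
        have h1 := hMQ (b ∘ J) θ b hA
        have h2 := hMQ t θt x hx
        have h3 := htr (Q * H - Polynomial.C (D ^ (M + 1))) (by
          rw [ev2_sub, ev2_mul, ev2_C, ← h1, ← hH, map_pow, pow_succ]
          field_simp
          ring)
        rw [ev2_sub, ev2_mul, ev2_C, map_pow, sub_eq_zero] at h3
        intro hG0
        rw [hG0, mul_zero] at h2
        rw [← h2, zero_mul] at h3
        exact pow_ne_zero _ ht h3.symm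
      · funext i
        have h3 := htr (A (J i) - Polynomial.C (D * X i)) (by
          rw [ev2_sub, ev2_C, ← hA (J i), map_mul, aeval_X]
          exact sub_self _)
        rw [ev2_sub, ev2_C, map_mul, aeval_X, ← hx (J i), ← mul_sub] at h3
        exact sub_eq_zero.1 ((mul_eq_zero.1 h3).resolve_left ht)
      · obtain ⟨M, Q, hMQ⟩ := hom D A W
        have h1 := hMQ (b ∘ J) θ b hA
        have h2 := hMQ t θt x hx
        have h3 := htr (Q - Polynomial.C (D ^ M) * Polynomial.X) (by
          rw [ev2_sub, ev2_mul, ev2_C, ev2_X, ← h1, hW, map_pow]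
          exact sub_self _)
        rw [ev2_sub, ev2_mul, ev2_C, ev2_X, ← h2, map_pow, ← mul_sub] at h3
        exact sub_eq_zero.1 ((mul_eq_zero.1 h3).resolve_left (pow_ne_zero _ ht))

end Pool.Agent.EXI
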