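import Pool.Agent.EXI.TADefs

/-!
# EXI / TASubOne: sublevel sets of one variable polynomials on the circle

PROOF.  Let `n = q.natDegree ≤ N`, `L = ∑ ‖q.coeff j‖`. If `s > 1` the measure is `≤ 2π ≤ C s^(1/(N+1))`
as soon as `C ≥ 2π`; let `s ≤ 1`. If `n = 0` then `q` is constant and the set is empty for `s ≤ 1`
(`‖q‖ < s ‖q‖` is impossible). Let `n ≥ 1`, `q = a ∏ (X - w_i)` over the roots (`IsAlgClosed.splits`,
`Polynomial.eval_eq_prod_roots_of_splits_id` or similar). Then `L ≤ ‖a‖ ∏ (1 + ‖w_i‖)` (the sum of the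
absolute values of the coefficients is submultiplicative; by induction over the multiset of roots).
If `‖q(w)‖ < s L`, `‖w‖ = 1`, then `∏ (‖w - w_i‖ / (1 + ‖w_i‖)) < s`, so for some root
`‖w - w_i‖ < δ (1 + ‖w_i‖)` with `δ = s^(1/n) ≤ s^(1/(N+1))`. It suffices to bound, for every
`v : ℂ` and `0 < δ ≤ 1`, the measure of `{θ ∈ Ioc (-π) π | ‖exp(θ I) - v‖ < δ (1 + ‖v‖)}` by `C₁ δ`:
if `δ > 1/4` the bound is `2π ≤ 8π δ`; let `δ ≤ 1/4`: then `‖v‖ < 3` (otherwise
`‖exp(θ I) - v‖ ≥ ‖v‖ - 1 ≥ (1 + ‖v‖)/2`), so `‖exp(θ I) - v‖ < 4δ`. For two elements `θ, θ'` of the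
set `‖exp(θ I) - exp(θ' I)‖ < 8δ`, i.e. `2 |sin((θ-θ')/2)| < 8δ`. Fix `θ'` in the set (if it is
nonempty); all `θ` in the set satisfy `|sin((θ-θ')/2)| < 4δ`, `|θ-θ'|/2 ≤ π`, so `|θ-θ'|/2` is within
`2π δ` of `0` or `π` (`sin x ≥ 2x/π` on `[0, π/2]`): the set lies in the union of three intervals of
length `8πδ`. Sum over the at most `N` roots.
-/

set_option autoImplicit false

namespace Pool.Agent.EXI

open MvPolynomial MeasureTheory Pool.Agent.EXL
open scoped ENNReal

/-- `|sin (x/2)| < η`, `|x| < 2π` -/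
private theorem sin_small {x η : ℝ} (hx : |x| < 2 * Real.pi) (h : |Real.sin (x / 2)| < η) :
    |x| ≤ Real.pi * η ∨ 2 * Real.pi - Real.pi * η ≤ |x| := by
  have hpi := Real.pi_pos
  have h1 : |Real.sin (x / 2)| = Real.sin (|x| / 2) := by
    have h0 : |x| / 2 = |x / 2| := by rw [abs_div, abs_two]
    have hs : 0 ≤ Real.sin (|x| / 2) :=
      Real.sin_nonneg_of_nonneg_of_le_pi (by positivity) (by linarith)
    rcases abs_cases x with ⟨hx1, _⟩ | ⟨hx1, _⟩
    · rw [hx1] at hs ⊢
      exact abs_of_nonneg hs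
    · rw [hx1] at hs ⊢
      rw [← abs_of_nonneg hs, neg_div, Real.sin_neg, abs_neg]
  rw [h1] at h
  rcases le_total (|x| / 2) (Real.pi / 2) with h2 | h2
  · left
    have h3 := Real.mul_le_sin (x := |x| / 2) (by positivity) h2
    have h4 : 2 / Real.pi * (|x| / 2) < η := h3.trans_lt h
    have h5 : 2 / Real.pi * (|x| / 2) = |x| / Real.pi := by ring
    rw [h5, div_lt_iff₀ hpi] at h4
    linarith
  · right
    have h3 := Real.mul_le_sin (x := Real.pi - |x| / 2) (by linarith) (by linarith)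
    rw [Real.sin_pi_sub] at h3
    have h4 : 2 / Real.pi * (Real.pi - |x| / 2) < η := h3.trans_lt h
    have h5 : 2 / Real.pi * (Real.pi - |x| / 2) = (2 * Real.pi - |x|) / Real.pi := by
      field_simp
    rw [h5, div_lt_iff₀ hpi] at h4
    linarith

private theorem norm_exp_sub (θ θ' : ℝ) :
    ‖Complex.exp (θ * Complex.I) - Complex.exp (θ' * Complex.I)‖ =
      2 * |Real.sin ((θ - θ') / 2)| := by
  have h1 : Complex.exp (θ * Complex.I) - Complex.exp (θ' * Complex.I) =
      Complex.exp (θ' * Complex.I) *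
        (Complex.exp (Complex.I * ((θ - θ' : ℝ) : ℂ)) - 1) := by
    rw [mul_sub, mul_one, ← Complex.exp_add]
    congr 2
    push_cast
    ring
  rw [h1, norm_mul, Complex.norm_exp_ofReal_mul_I, one_mul, Complex.norm_exp_I_mul_ofReal_sub_one,
    Real.norm_eq_abs, abs_mul, abs_two]

private theorem arc_measure (S : Set ℝ) (hS : S ⊆ Set.Ioc (-Real.pi) Real.pi) {η : ℝ} (hη : 0 < η)
    (h : ∀ θ ∈ S, ∀ θ' ∈ S, |Real.sin ((θ - θ') / 2)| < η) :
    volume S ≤ ENNReal.ofReal (4 * Real.pi * η) := by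
  have hpi := Real.pi_pos
  rcases S.eq_empty_or_nonempty with h0 | ⟨θ', hθ'⟩
  · rw [h0]
    simp
  have hsub : S ⊆ (Set.Icc (θ' - Real.pi * η) (θ' + Real.pi * η) ∪
      Set.Icc (θ' + 2 * Real.pi - Real.pi * η) (θ' + 2 * Real.pi)) ∪
      Set.Icc (θ' - 2 * Real.pi) (θ' - 2 * Real.pi + Real.pi * η) := by
    intro θ hθ
    have h1 := hS hθ
    have h2 := hS hθ'
    have hx : |θ - θ'| < 2 * Real.pi := by
      rw [abs_lt]
      constructor <;> linarith [h1.1, h1.2, h2.1, h2.2]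
    have h3 := abs_lt.1 hx
    rcases sin_small hx (h θ hθ θ' hθ') with h4 | h4
    · left; left
      rw [abs_le] at h4
      constructor <;> linarith
    · rcases abs_cases (θ - θ') with ⟨h5, _⟩ | ⟨h5, _⟩
      · left; right
        rw [h5] at h4
        constructor <;> linarith
      · right
        rw [h5] at h4
        constructor <;> linarith
  refine (measure_mono hsub).trans ((measure_union_le _ _).trans
    ((add_le_add_left (measure_union_le _ _) _).trans ?_))
  rw [Real.volume_Icc, Real.volume_Icc, Real.volume_Icc, ← ENNReal.ofReal_add, ←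
    ENNReal.ofReal_add]
  · apply ENNReal.ofReal_le_ofReal
    linarith
  all_goals nlinarith

private theorem one_root (v : ℂ) {δ : ℝ} (hδ : 0 < δ) :
    volume {θ : ℝ | θ ∈ Set.Ioc (-Real.pi) Real.pi ∧
      ‖Complex.exp (θ * Complex.I) - v‖ < δ * (1 + ‖v‖)} ≤
      ENNReal.ofReal (16 * Real.pi * δ) := by
  have hpi := Real.pi_pos
  rcases lt_or_ge (1 / 4) δ with h1 | h1
  · have hsub : {θ : ℝ | θ ∈ Set.Ioc (-Real.pi) Real.pi ∧
      ‖Complex.exp (θ * Complex.I) - v‖ < δ * (1 + ‖v‖)} ⊆ Set.Ioc (-Real.pi) Real.pi :=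
      fun θ hθ => hθ.1
    refine (measure_mono hsub).trans ?_
    rw [Real.volume_Ioc]
    apply ENNReal.ofReal_le_ofReal
    nlinarith
  · have hv : ∀ θ : ℝ, ‖Complex.exp (θ * Complex.I) - v‖ < δ * (1 + ‖v‖) →
        ‖Complex.exp (θ * Complex.I) - v‖ < 4 * δ := by
      intro θ hθ
      have h2 : ‖v‖ - 1 ≤ ‖Complex.exp (θ * Complex.I) - v‖ := by
        have h3 := norm_sub_norm_le v (Complex.exp (θ * Complex.I))
        rw [Complex.norm_exp_ofReal_mul_I] at h3
        rwa [norm_sub_rev]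
      have h3 : δ * (1 + ‖v‖) ≤ 1 / 4 * (1 + ‖v‖) :=
        mul_le_mul_of_nonneg_right h1 (by positivity)
      have h4 : ‖v‖ < 3 := by linarith
      calc _ < δ * (1 + ‖v‖) := hθ
        _ ≤ δ * 4 := mul_le_mul_of_nonneg_left (by linarith) hδ.le
        _ = 4 * δ := by ring
    have h16 : 16 * Real.pi * δ = 4 * Real.pi * (4 * δ) := by ring
    rw [h16]
    refine arc_measure _ (fun θ hθ => hθ.1) (by positivity) ?_
    intro θ hθ θ' hθ'
    have h2 := hv θ hθ.2
    have h3 := hv θ' hθ'.2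
    have h4 : ‖Complex.exp (θ * Complex.I) - Complex.exp (θ' * Complex.I)‖ ≤
        ‖Complex.exp (θ * Complex.I) - v‖ + ‖Complex.exp (θ' * Complex.I) - v‖ := by
      rw [norm_sub_rev (Complex.exp (θ' * Complex.I)) v]
      exact norm_sub_le_norm_sub_add_norm_sub _ _ _
    rw [norm_exp_sub] at h4
    linarith

private theorem coeff_step (M : ℕ) (P : Polynomial ℂ) (w : ℂ) :
    ∑ j ∈ Finset.range (M + 1), ‖((Polynomial.X - Polynomial.C w) * P).coeff j‖ ≤
      (1 + ‖w‖) * ∑ j ∈ Finset.range (M + 1), ‖P.coeff j‖ := by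
  rw [Finset.sum_range_succ']
  have h0 : ((Polynomial.X - Polynomial.C w) * P).coeff 0 = -(w * P.coeff 0) := by
    simp [sub_mul]
  have h1 : ∑ j ∈ Finset.range M, ‖((Polynomial.X - Polynomial.C w) * P).coeff (j + 1)‖ ≤
      ∑ j ∈ Finset.range M, (‖P.coeff j‖ + ‖w‖ * ‖P.coeff (j + 1)‖) := by
    refine Finset.sum_le_sum fun j _ => ?_
    rw [Polynomial.coeff_X_sub_C_mul]
    refine (norm_sub_le _ _).trans ?_
    rw [norm_mul]
  rw [h0, norm_neg, norm_mul]
  rw [Finset.sum_add_distrib, ← Finset.mul_sum] at h1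
  have h2 : ∑ j ∈ Finset.range M, ‖P.coeff j‖ ≤ ∑ j ∈ Finset.range (M + 1), ‖P.coeff j‖ := by
    rw [Finset.sum_range_succ]
    linarith [norm_nonneg (P.coeff M)]
  have h3 : ∑ j ∈ Finset.range (M + 1), ‖P.coeff j‖ =
      ∑ j ∈ Finset.range M, ‖P.coeff (j + 1)‖ + ‖P.coeff 0‖ := Finset.sum_range_succ' _ _
  calc _ ≤ (∑ j ∈ Finset.range M, ‖P.coeff j‖ +
        ‖w‖ * ∑ j ∈ Finset.range M, ‖P.coeff (j + 1)‖) + ‖w‖ * ‖P.coeff 0‖ := by linarith
    _ ≤ (∑ j ∈ Finset.range (M + 1), ‖P.coeff j‖ +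
        ‖w‖ * ∑ j ∈ Finset.range M, ‖P.coeff (j + 1)‖) + ‖w‖ * ‖P.coeff 0‖ := by linarith
    _ = _ := by
        rw [h3]
        ring

private theorem coeff_prod (M : ℕ) (m : Multiset ℂ) :
    ∑ j ∈ Finset.range (M + 1),
      ‖((m.map (fun w => (Polynomial.X - Polynomial.C w))).prod).coeff j‖ ≤
      (m.map (fun w => 1 + ‖w‖)).prod := by
  induction m using Multiset.induction_on with
  | empty =>
    rw [Multiset.map_zero, Multiset.prod_zero, Multiset.map_zero, Multiset.prod_zero,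
      Finset.sum_range_succ']
    simp [Polynomial.coeff_one]
  | cons w m ih =>
    rw [Multiset.map_cons, Multiset.prod_cons, Multiset.map_cons, Multiset.prod_cons]
    exact (coeff_step M _ w).trans (mul_le_mul_of_nonneg_left ih (by positivity))

private theorem prod_measure {δ : ℝ} (hδ : 0 < δ) (m : Multiset ℂ) :
    volume {θ : ℝ | θ ∈ Set.Ioc (-Real.pi) Real.pi ∧
      (m.map (fun w => ‖Complex.exp (θ * Complex.I) - w‖)).prod <
        δ ^ (Multiset.card m) * (m.map (fun w => 1 + ‖w‖)).prod} ≤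
      ENNReal.ofReal (Multiset.card m * (16 * Real.pi * δ)) := by
  have hpi := Real.pi_pos
  induction m using Multiset.induction_on with
  | empty =>
    have : {θ : ℝ | θ ∈ Set.Ioc (-Real.pi) Real.pi ∧
      ((0 : Multiset ℂ).map (fun w => ‖Complex.exp (θ * Complex.I) - w‖)).prod <
        δ ^ (Multiset.card (0 : Multiset ℂ)) *
          ((0 : Multiset ℂ).map (fun w => 1 + ‖w‖)).prod} = ∅ := by
      ext θ
      simp
    rw [this]
    simp
  | cons w m ih =>
    have hsub : {θ : ℝ | θ ∈ Set.Ioc (-Real.pi) Real.pi ∧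
      ((w ::ₘ m).map (fun w => ‖Complex.exp (θ * Complex.I) - w‖)).prod <
        δ ^ (Multiset.card (w ::ₘ m)) * ((w ::ₘ m).map (fun w => 1 + ‖w‖)).prod} ⊆
        {θ : ℝ | θ ∈ Set.Ioc (-Real.pi) Real.pi ∧
          ‖Complex.exp (θ * Complex.I) - w‖ < δ * (1 + ‖w‖)} ∪
        {θ : ℝ | θ ∈ Set.Ioc (-Real.pi) Real.pi ∧
          (m.map (fun w => ‖Complex.exp (θ * Complex.I) - w‖)).prod <
            δ ^ (Multiset.card m) * (m.map (fun w => 1 + ‖w‖)).prod} := by
      rintro θ ⟨hθ, h⟩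
      by_contra hcon
      rw [Set.mem_union, not_or] at hcon
      have h1 : δ * (1 + ‖w‖) ≤ ‖Complex.exp (θ * Complex.I) - w‖ := by
        by_contra h1
        exact hcon.1 ⟨hθ, not_le.1 h1⟩
      have h2 : δ ^ (Multiset.card m) * (m.map (fun w => 1 + ‖w‖)).prod ≤
          (m.map (fun w => ‖Complex.exp (θ * Complex.I) - w‖)).prod := by
        by_contra h1
        exact hcon.2 ⟨hθ, not_le.1 h1⟩
      rw [Multiset.map_cons, Multiset.prod_cons, Multiset.map_cons, Multiset.prod_cons,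
        Multiset.card_cons] at h
      have h3 : 0 ≤ (m.map (fun w => 1 + ‖w‖)).prod := by
        refine Multiset.prod_nonneg ?_
        intro a ha
        obtain ⟨b, _, rfl⟩ := Multiset.mem_map.1 ha
        positivity
      have h4 : (δ * (1 + ‖w‖)) * (δ ^ (Multiset.card m) * (m.map (fun w => 1 + ‖w‖)).prod) ≤
          ‖Complex.exp (θ * Complex.I) - w‖ *
            (m.map (fun w => ‖Complex.exp (θ * Complex.I) - w‖)).prod :=
        mul_le_mul h1 h2 (by positivity) (norm_nonneg _)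
      have h5 : (δ * (1 + ‖w‖)) * (δ ^ (Multiset.card m) * (m.map (fun w => 1 + ‖w‖)).prod) =
          δ ^ (Multiset.card m + 1) * ((1 + ‖w‖) * (m.map (fun w => 1 + ‖w‖)).prod) := by ring
      linarith
    refine (measure_mono hsub).trans ((measure_union_le _ _).trans
      ((add_le_add (one_root w hδ) ih).trans ?_))
    rw [← ENNReal.ofReal_add (by positivity) (by positivity), Multiset.card_cons]
    apply ENNReal.ofReal_le_ofReal
    push_cast
    linarith

theorem sub1 (N : ℕ) : ∃ C > (0:ℝ), ∀ q : Polynomial ℂ, q.natDegree ≤ N → ∀ s : ℝ, 0 < s →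
    volume {θ : ℝ | θ ∈ Set.Ioc (-Real.pi) Real.pi ∧
      ‖q.eval (Complex.exp (θ * Complex.I))‖ < s * ∑ j ∈ q.support, ‖q.coeff j‖} ≤
      ENNReal.ofReal (C * s ^ ((1:ℝ) / (N + 1))) := by
  have hpi := Real.pi_pos
  refine ⟨16 * Real.pi * (N + 1), by positivity, ?_⟩
  intro q hq s hs
  have hN : (0 : ℝ) < N + 1 := by positivity
  rcases lt_or_ge 1 s with h1 | h1
  · have hsub : {θ : ℝ | θ ∈ Set.Ioc (-Real.pi) Real.pi ∧
      ‖q.eval (Complex.exp (θ * Complex.I))‖ < s * ∑ j ∈ q.support, ‖q.coeff j‖} ⊆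
        Set.Ioc (-Real.pi) Real.pi :=
      fun θ hθ => hθ.1
    refine (measure_mono hsub).trans ?_
    rw [Real.volume_Ioc]
    apply ENNReal.ofReal_le_ofReal
    have h2 : 1 ≤ s ^ ((1:ℝ) / (N + 1)) := Real.one_le_rpow h1.le (by positivity)
    have h3 : (1 : ℝ) ≤ N + 1 := by
      have : (0 : ℝ) ≤ N := Nat.cast_nonneg N
      linarith
    have h4 : 16 * Real.pi ≤ 16 * Real.pi * (N + 1) := by nlinarith
    nlinarith
  · set δ := s ^ ((1:ℝ) / (N + 1)) with hδ'
    have hδ : 0 < δ := Real.rpow_pos_of_pos hs _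
    have hδ1 : δ ≤ 1 := Real.rpow_le_one hs.le h1 (by positivity)
    have hδs : δ ^ (N + 1) = s := by
      rw [hδ', ← Real.rpow_natCast, ← Real.rpow_mul hs.le]
      push_cast
      rw [one_div_mul_cancel hN.ne', Real.rpow_one]
    have hcard : Multiset.card q.roots ≤ N := (Polynomial.card_roots' q).trans hq
    have hL : ∑ j ∈ q.support, ‖q.coeff j‖ ≤
        ‖q.leadingCoeff‖ * (q.roots.map (fun w => 1 + ‖w‖)).prod := by
      have h2 : ∑ j ∈ q.support, ‖q.coeff j‖ ≤
          ∑ j ∈ Finset.range (q.natDegree + 1), ‖q.coeff j‖ :=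
        Finset.sum_le_sum_of_subset_of_nonneg Polynomial.supp_subset_range_natDegree_succ
          fun _ _ _ => norm_nonneg _
      refine h2.trans ?_
      have h3 : ∀ j, ‖q.coeff j‖ = ‖q.leadingCoeff‖ *
          ‖((q.roots.map (fun w => (Polynomial.X - Polynomial.C w))).prod).coeff j‖ := by
        intro j
        conv_lhs => rw [(IsAlgClosed.splits q).eq_prod_roots]
        rw [Polynomial.coeff_C_mul, norm_mul]
      rw [Finset.sum_congr rfl fun j _ => h3 j, ← Finset.mul_sum]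
      exact mul_le_mul_of_nonneg_left (coeff_prod _ _) (norm_nonneg _)
    have hsub : {θ : ℝ | θ ∈ Set.Ioc (-Real.pi) Real.pi ∧
      ‖q.eval (Complex.exp (θ * Complex.I))‖ < s * ∑ j ∈ q.support, ‖q.coeff j‖} ⊆
        {θ : ℝ | θ ∈ Set.Ioc (-Real.pi) Real.pi ∧
          (q.roots.map (fun w => ‖Complex.exp (θ * Complex.I) - w‖)).prod <
            δ ^ (Multiset.card q.roots) * (q.roots.map (fun w => 1 + ‖w‖)).prod} := by
      rintro θ ⟨hθ, h⟩
      refine ⟨hθ, ?_⟩
      have h2 : ‖q.eval (Complex.exp (θ * Complex.I))‖ = ‖q.leadingCoeff‖ *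
          (q.roots.map (fun w => ‖Complex.exp (θ * Complex.I) - w‖)).prod := by
        rw [(IsAlgClosed.splits q).eval_eq_prod_roots, norm_mul]
        congr 1
        have := map_multiset_prod (normHom (α := ℂ)) (q.roots.map
          (fun w => Complex.exp (θ * Complex.I) - w))
        rw [Multiset.map_map] at this
        exact this
      rw [h2] at h
      have h3 : 0 ≤ (q.roots.map (fun w => 1 + ‖w‖)).prod := by
        refine Multiset.prod_nonneg ?_
        intro a ha
        obtain ⟨b, _, rfl⟩ := Multiset.mem_map.1 ha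
        positivity
      have h4 : s ≤ δ ^ (Multiset.card q.roots) := by
        rw [← hδs]
        exact pow_le_pow_of_le_one hδ.le hδ1 (by omega)
      have h5 : ‖q.leadingCoeff‖ *
          (q.roots.map (fun w => ‖Complex.exp (θ * Complex.I) - w‖)).prod <
          ‖q.leadingCoeff‖ *
            (δ ^ (Multiset.card q.roots) * (q.roots.map (fun w => 1 + ‖w‖)).prod) := by
        calc _ < s * ∑ j ∈ q.support, ‖q.coeff j‖ := h
          _ ≤ δ ^ (Multiset.card q.roots) *
              (‖q.leadingCoeff‖ * (q.roots.map (fun w => 1 + ‖w‖)).prod) :=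
              mul_le_mul h4 hL (Finset.sum_nonneg fun _ _ => norm_nonneg _) (by positivity)
          _ = _ := by ring
      exact lt_of_mul_lt_mul_left h5 (norm_nonneg _)
    refine (measure_mono hsub).trans ((prod_measure hδ q.roots).trans ?_)
    apply ENNReal.ofReal_le_ofReal
    have h6 : (Multiset.card q.roots : ℝ) ≤ N + 1 := by
      have : (Multiset.card q.roots : ℝ) ≤ N := by exact_mod_cast hcard
      linarith
    calc _ ≤ (N + 1 : ℝ) * (16 * Real.pi * δ) :=
          mul_le_mul_of_nonneg_right h6 (by positivity)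
      _ = _ := by ring

end Pool.Agent.EXI
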