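import Mathlib

/-!
# EXI / TFCm: the determinants of two simple matrices

PROOF. Both matrices are the identity matrix except for one column (`det_tor`), respectively one row
(`det_fin`: the row `i₀` is `(B_i)_i` with `w` at `i₀`, the other rows are those of the identity
matrix). Expand, e.g. `Matrix.det_eq_of_forall_row_eq_smul_add..`, or
`(1 : Matrix ..).updateCol i₀ A`, `Matrix.cramer`, `Matrix.det_updateCol_..`:
`det (updateCol 1 i₀ v) = v i₀` (`Matrix.cramer_one` / `Matrix.cramer_apply`) and the same with
`updateRow` (transpose).
-/

set_option autoImplicit false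

namespace Pool.Agent.EXL

private theorem det_updCol_one {L : Type*} [Field L] {y : ℕ} (i₀ : Fin y) (v : Fin y → L) :
    ((1 : Matrix (Fin y) (Fin y) L).updateCol i₀ v).det = v i₀ := by
  rw [← Matrix.cramer_apply, Matrix.cramer_one]
  rfl

theorem det_tor {L : Type*} [Field L] {y : ℕ} (i₀ : Fin y) (A : Fin y → L) :
    (Matrix.of fun l i : Fin y => if i = i₀ then A l else if l = i then (1 : L) else 0).det =
      A i₀ := by
  rw [← det_updCol_one i₀ A]
  congr 1
  ext l i
  rw [Matrix.of_apply, Matrix.updateCol_apply, Matrix.one_apply]

theorem det_fin {L : Type*} [Field L] {y : ℕ} (i₀ : Fin y) (w : L) (B : Fin y → L) :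
    (Matrix.of fun l i : Fin y => if i = i₀ then (if l = i₀ then w else 0)
      else (if l = i then (1 : L) else 0) + (if l = i₀ then B i else 0)).det = w := by
  have h := det_updCol_one i₀ (fun i => if i = i₀ then w else B i)
  rw [← Matrix.det_transpose] at h
  simp only [if_true] at h
  refine Eq.trans ?_ h
  congr 1
  ext l i
  rw [Matrix.of_apply, Matrix.transpose_apply, Matrix.updateCol_apply, Matrix.one_apply]
  by_cases h1 : i = i₀
  · subst h1
    by_cases h2 : l = i
    · subst h2
      simp
    · have h3 : ¬ i = l := fun h => h2 h.symm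
      simp [h2, h3]
  · by_cases h2 : l = i₀
    · subst h2
      have h3 : ¬ l = i := fun h => h1 h.symm
      simp [h1, h3]
    · by_cases h3 : l = i
      · subst h3
        simp [h1]
      · have h4 : ¬ i = l := fun h => h3 h.symm
        simp [h1, h2, h3, h4]

end Pool.Agent.EXL
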