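import Pool.Agent.EXI.Base

/-!
# EXI / TFCompl: determinants and complements

`P = {v | ℓ_j · v = 0 for all j}` in `ℂ^ι`, `j : Fin y`.
`compl_of_det`: if `det (ℓ_j · v_i) ≠ 0` then `P` and the span of the `v_i` are complementary.
PROOF. Disjoint: `x = ∑ c_i v_i ∈ P` gives `N c = 0`, `c = 0`. Codisjoint: for `w ∈ ℂ^ι` solve
`N c = (ℓ_j · w)_j`; then `w - ∑ c_i v_i ∈ P`.
`det_of_compl`: if `P` is complementary to `B` and the `v_i` are `y` linearly independent vectors of
`B`, `dim B = y`, then `det (ℓ_j · v_i) ≠ 0`. PROOF. otherwise there is `c ≠ 0` with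
`∑ c_i v_i ∈ P ∩ B`.
`compl_step`: let `t : Fin (r+1) → ℂ`, derivations `D_l ∈ DerOver K` with `D_l t_{l'} = δ_{ll'} t_{l'}`,
`τ = t ∘ i₀.succAbove`, `u_k ∈ Om K τ` nonzero, `m_k` integers. If the determinant of the matrix with
the columns `ℓ_j · (D_i u_k / u_k)_k` (`i ≠ i₀`) and `ℓ_j · m` (`i₀`) is not `0`, then `P` is complementary
to `lev u (DerOver K) + ℂ m`.
PROOF. `compl_of_det` with `v_i = lev u (D_i)`, `i ≠ i₀`, `v_{i₀} = m`; the span of the `v_i` is
`lev u (DerOver K) ⊔ ℂ m`: for `D ∈ DerOver K` the derivation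
`D - ∑_{l ≠ i₀} (D t_l / t_l) D_l` kills `K` and `τ` (`t_l ≠ 0` because `D_l t_l = t_l`.. see
hypothesis `ht0`), hence kills `Om K τ`, so `lev u D = ∑_{l ≠ i₀} (D t_l / t_l) lev u (D_l)`.
-/

set_option autoImplicit false

namespace Pool.Agent.EXL

private lemma tfc_sum {ι : Type} [Fintype ι] {y : ℕ} (ℓ : Fin y → ι → ℂ) (v : Fin y → ι → ℂ)
    (c : Fin y → ℂ) (j : Fin y) :
    ∑ k, ℓ j k * (∑ i, c i • v i) k = ((Matrix.of fun j i => ∑ k, ℓ j k * v i k).mulVec c) j := by
  simp only [Matrix.mulVec, dotProduct, Matrix.of_apply, Finset.sum_apply, Pi.smul_apply,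
    smul_eq_mul]
  simp only [Finset.mul_sum, Finset.sum_mul]
  rw [Finset.sum_comm]
  refine Finset.sum_congr rfl fun i _ => Finset.sum_congr rfl fun k _ => ?_
  ring

theorem compl_of_det {ι : Type} [Fintype ι] {y : ℕ} (P : Submodule ℂ (ι → ℂ)) (ℓ : Fin y → ι → ℂ)
    (hP : ∀ v : ι → ℂ, v ∈ P ↔ ∀ j, ∑ k, ℓ j k * v k = 0) (v : Fin y → ι → ℂ)
    (hN : (Matrix.of fun j i => ∑ k, ℓ j k * v i k).det ≠ 0) :
    IsCompl P (Submodule.span ℂ (Set.range v)) := by
  constructor
  · rw [Submodule.disjoint_def]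
    intro x hx hxs
    obtain ⟨c, hc⟩ := (Submodule.mem_span_range_iff_exists_fun ℂ).1 hxs
    have h1 : (Matrix.of fun j i => ∑ k, ℓ j k * v i k).mulVec c = 0 := by
      funext j
      rw [← tfc_sum, hc]
      exact (hP x).1 hx j
    have h2 := Matrix.eq_zero_of_mulVec_eq_zero hN h1
    rw [← hc, h2]
    simp
  · rw [codisjoint_iff, eq_top_iff]
    intro w _
    rw [Submodule.mem_sup]
    set N := (Matrix.of fun j i => ∑ k, ℓ j k * v i k) with hNdef
    set c : Fin y → ℂ := N⁻¹.mulVec (fun j => ∑ k, ℓ j k * w k) with hc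
    have h1 : N.mulVec c = fun j => ∑ k, ℓ j k * w k := by
      rw [hc, Matrix.mulVec_mulVec, Matrix.mul_nonsing_inv _ (isUnit_iff_ne_zero.2 hN),
        Matrix.one_mulVec]
    refine ⟨w - ∑ i, c i • v i, ?_, ∑ i, c i • v i, ?_, sub_add_cancel _ _⟩
    · rw [hP]
      intro j
      have h2 : ∑ k, ℓ j k * (w - ∑ i, c i • v i) k =
          ∑ k, ℓ j k * w k - ∑ k, ℓ j k * (∑ i, c i • v i) k := by
        rw [← Finset.sum_sub_distrib]
        refine Finset.sum_congr rfl fun k _ => ?_
        rw [Pi.sub_apply, mul_sub]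
      rw [h2, tfc_sum, ← hNdef, h1, sub_self]
    · exact (Submodule.mem_span_range_iff_exists_fun ℂ).2 ⟨c, rfl⟩

theorem det_of_compl {ι : Type} [Fintype ι] {y : ℕ} (P B : Submodule ℂ (ι → ℂ))
    (ℓ : Fin y → ι → ℂ) (hP : ∀ v : ι → ℂ, v ∈ P ↔ ∀ j, ∑ k, ℓ j k * v k = 0) (hc : IsCompl P B)
    (v : Fin y → ι → ℂ) (hv : LinearIndependent ℂ v) (hvB : ∀ i, v i ∈ B) :
    (Matrix.of fun j i => ∑ k, ℓ j k * v i k).det ≠ 0 := by
  intro h0
  obtain ⟨c, hc0, hc1⟩ := Matrix.exists_mulVec_eq_zero_iff.2 h0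
  have h1 : ∑ i, c i • v i ∈ P := by
    rw [hP]
    intro j
    rw [tfc_sum, hc1]
    rfl
  have h2 : ∑ i, c i • v i ∈ B := Submodule.sum_mem _ fun i _ => B.smul_mem _ (hvB i)
  have h3 := (Submodule.disjoint_def.1 hc.disjoint) _ h1 h2
  exact hc0 (funext fun i => Fintype.linearIndependent_iff.1 hv c h3 i)

theorem compl_step (K : Subfield ℂ) {ι : Type} [Fintype ι] {r : ℕ} (P : Submodule ℂ (ι → ℂ))
    (ℓ : Fin (r + 1) → ι → ℂ) (hP : ∀ v : ι → ℂ, v ∈ P ↔ ∀ j, ∑ k, ℓ j k * v k = 0)
    (t : Fin (r + 1) → ℂ) (ht0 : ∀ l, t l ≠ 0) (D : Fin (r + 1) → Derivation ℤ ℂ ℂ)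
    (hDK : ∀ l, D l ∈ DerOver (K : Set ℂ))
    (hDt : ∀ l l', D l (t l') = if l = l' then t l' else 0) (i₀ : Fin (r + 1))
    (u : ι → ℂ) (hu0 : ∀ k, u k ≠ 0) (hu : ∀ k, u k ∈ Om K (t ∘ i₀.succAbove)) (m : ι → ℤ)
    (hN : (Matrix.of fun j i => if i = i₀ then ∑ k, ℓ j k * (m k : ℂ)
      else ∑ k, ℓ j k * (D i (u k) / u k)).det ≠ 0) :
    IsCompl P ((DerOver (K : Set ℂ)).map (lev u) ⊔ Submodule.span ℂ {fun k => (m k : ℂ)}) := by
  set v : Fin (r + 1) → ι → ℂ := fun i => if i = i₀ then (fun k => (m k : ℂ)) else lev u (D i)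
    with hv
  have hN' : (Matrix.of fun j i => ∑ k, ℓ j k * v i k).det ≠ 0 := by
    have e : (Matrix.of fun j i => ∑ k, ℓ j k * v i k) =
        (Matrix.of fun j i => if i = i₀ then ∑ k, ℓ j k * (m k : ℂ)
          else ∑ k, ℓ j k * (D i (u k) / u k)) := by
      ext j i
      simp only [Matrix.of_apply, hv]
      by_cases h : i = i₀
      · simp only [if_pos h]
      · simp only [if_neg h, lev_apply]
    rw [e]
    exact hN
  have h1 := compl_of_det P ℓ hP v hN'
  have h2 : Submodule.span ℂ (Set.range v) =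
      (DerOver (K : Set ℂ)).map (lev u) ⊔ Submodule.span ℂ {fun k => (m k : ℂ)} := by
    apply le_antisymm
    · rw [Submodule.span_le]
      rintro _ ⟨i, rfl⟩
      by_cases h : i = i₀
      · have : v i = fun k => (m k : ℂ) := by simp only [hv, if_pos h]
        rw [this]
        exact Submodule.mem_sup_right (Submodule.mem_span_singleton_self _)
      · have : v i = lev u (D i) := by simp only [hv, if_neg h]
        rw [this]
        exact Submodule.mem_sup_left (Submodule.mem_map_of_mem (hDK i))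
    · refine sup_le ?_ ?_
      · rintro _ ⟨D', hD', rfl⟩
        set E : Derivation ℤ ℂ ℂ := D' - ∑ j : Fin r, (D' (t (i₀.succAbove j)) /
          t (i₀.succAbove j)) • D (i₀.succAbove j) with hE
        have hEm : E ∈ DerOver (K : Set ℂ) :=
          Submodule.sub_mem _ hD' (Submodule.sum_mem _ fun j _ => Submodule.smul_mem _ _ (hDK _))
        have hEt : ∀ j', E (t (i₀.succAbove j')) = 0 := by
          intro j'
          have e1 : (∑ j : Fin r, (D' (t (i₀.succAbove j)) / t (i₀.succAbove j)) •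
              D (i₀.succAbove j)) (t (i₀.succAbove j')) = ∑ j : Fin r,
                (D' (t (i₀.succAbove j)) / t (i₀.succAbove j)) *
                  (if i₀.succAbove j = i₀.succAbove j' then t (i₀.succAbove j') else 0) := by
            have e0 : ∀ (T : Finset (Fin r)) (F : Fin r → Derivation ℤ ℂ ℂ) (z : ℂ),
                (∑ j ∈ T, F j) z = ∑ j ∈ T, F j z := by
              intro T F z
              induction T using Finset.induction_on with
              | empty => rw [Finset.sum_empty, Finset.sum_empty]; rfl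
              | insert a T ha ih =>
                rw [Finset.sum_insert ha, Finset.sum_insert ha, Derivation.add_apply, ih]
            rw [e0]
            refine Finset.sum_congr rfl fun j _ => ?_
            rw [Derivation.smul_apply, hDt, smul_eq_mul]
          rw [hE, Derivation.sub_apply, e1, Finset.sum_eq_single j']
          · rw [if_pos rfl, div_mul_cancel₀ _ (ht0 _), sub_self]
          · intro j _ hj
            rw [if_neg fun h => hj (Fin.succAbove_right_injective h), mul_zero]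
          · intro h
            exact absurd (Finset.mem_univ _) h
        have hE2 : E ∈ DerOver ((K : Set ℂ) ∪ Set.range (t ∘ i₀.succAbove)) := by
          rintro x (hx | ⟨j, rfl⟩)
          · exact hEm x hx
          · exact hEt j
        have hEu : lev u E = 0 := by
          funext k
          rw [lev_apply, hu k E hE2, zero_div]
          rfl
        have e2 : lev u D' = ∑ j : Fin r, (D' (t (i₀.succAbove j)) / t (i₀.succAbove j)) •
            lev u (D (i₀.succAbove j)) := by
          have e3 : lev u D' = lev u E + lev u (∑ j : Fin r, (D' (t (i₀.succAbove j)) /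
              t (i₀.succAbove j)) • D (i₀.succAbove j)) := by
            rw [← map_add, hE, sub_add_cancel]
          rw [e3, hEu, zero_add, map_sum]
          refine Finset.sum_congr rfl fun j _ => ?_
          rw [map_smul]
        rw [e2]
        refine Submodule.sum_mem _ fun j _ => Submodule.smul_mem _ _ (Submodule.subset_span ?_)
        exact ⟨i₀.succAbove j, by simp only [hv, if_neg (Fin.succAbove_ne i₀ j)]⟩
      · rw [Submodule.span_singleton_le_iff_mem]
        exact Submodule.subset_span ⟨i₀, by simp only [hv, if_true]⟩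
  rw [← h2]
  exact h1

end Pool.Agent.EXL
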