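import Pool.Agent.EXI.Base

/-!
# EXI / TFDer: derivations of `ℂ((ζ))`

`cD D`: the derivation `D` of `ℂ` applied to the coefficients; `th`: the derivation `ζ d/dζ`.

PROOFS. Leibniz rules by comparing coefficients (`HahnSeries.coeff_mul`, finite sums over
`addAntidiagonal`; see `laurent_der_mul` in `EXL/Res.lean` for a similar proof; for `cD` the sums
may be taken over a common larger finite set; alternatively write Laurent series as
`single n 1 * power series` and prove the rules for power series, `PowerSeries.coeff_mul`).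
`cD_lead`: `f = ζ^n g`, `g` a power series with `g(0) ≠ 0`: `cD D f = ζ^n g^D = f * (g^D / g)`, where
`g^D` is the power series with coefficients `D (coeff g)`. `th_lead`: `ζ d/dζ (ζ^n g) =
f * (n + ζ g' / g)`.
-/

set_option autoImplicit false

namespace Pool.Agent.EXL

open PowerSeries

/-- `D` applied to the coefficients. -/
noncomputable def cD (D : Derivation ℤ ℂ ℂ) (f : LaurentSeries ℂ) : LaurentSeries ℂ :=
  HahnSeries.map f D

/-- The derivation `ζ d/dζ`. -/
noncomputable def th (f : LaurentSeries ℂ) : LaurentSeries ℂ where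
  coeff n := (n : ℂ) * f.coeff n
  isPWO_support' := f.isPWO_support.mono fun n hn h => hn (by
    show (n : ℂ) * f.coeff n = 0
    rw [h, mul_zero])

@[simp] lemma cD_coeff (D : Derivation ℤ ℂ ℂ) (f : LaurentSeries ℂ) (n : ℤ) :
    (cD D f).coeff n = D (f.coeff n) := rfl

@[simp] lemma th_coeff (f : LaurentSeries ℂ) (n : ℤ) : (th f).coeff n = n * f.coeff n := rfl

private lemma tfder_supp (D : Derivation ℤ ℂ ℂ) (f : LaurentSeries ℂ) :
    (cD D f).support ⊆ f.support := by
  intro n hn h
  apply hn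
  show D (f.coeff n) = 0
  rw [h, map_zero]

private lemma tfder_supp_th (f : LaurentSeries ℂ) : (th f).support ⊆ f.support := by
  intro n hn h
  apply hn
  show (n : ℂ) * f.coeff n = 0
  rw [h, mul_zero]

lemma cD_add (D : Derivation ℤ ℂ ℂ) (f g : LaurentSeries ℂ) : cD D (f + g) = cD D f + cD D g := by
  ext n
  rw [HahnSeries.coeff_add, cD_coeff, cD_coeff, cD_coeff, HahnSeries.coeff_add, map_add]

lemma th_add (f g : LaurentSeries ℂ) : th (f + g) = th f + th g := by
  ext n
  rw [HahnSeries.coeff_add, th_coeff, th_coeff, th_coeff, HahnSeries.coeff_add, mul_add]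

lemma cD_mul (D : Derivation ℤ ℂ ℂ) (f g : LaurentSeries ℂ) :
    cD D (f * g) = f * cD D g + g * cD D f := by
  ext n
  rw [HahnSeries.coeff_add, cD_coeff, HahnSeries.coeff_mul, mul_comm g (cD D f),
    HahnSeries.coeff_mul_right' g.isPWO_support (tfder_supp D g),
    HahnSeries.coeff_mul_left' f.isPWO_support (tfder_supp D f), map_sum,
    ← Finset.sum_add_distrib]
  refine Finset.sum_congr rfl fun p _ => ?_
  rw [D.leibniz, cD_coeff, cD_coeff, smul_eq_mul, smul_eq_mul]
  ring

lemma th_mul (f g : LaurentSeries ℂ) : th (f * g) = f * th g + g * th f := by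
  ext n
  rw [HahnSeries.coeff_add, th_coeff, HahnSeries.coeff_mul, mul_comm g (th f),
    HahnSeries.coeff_mul_right' g.isPWO_support (tfder_supp_th g),
    HahnSeries.coeff_mul_left' f.isPWO_support (tfder_supp_th f), Finset.mul_sum,
    ← Finset.sum_add_distrib]
  refine Finset.sum_congr rfl fun p hp => ?_
  rw [Finset.mem_antidiagonal] at hp
  rw [th_coeff, th_coeff, ← hp.2.2]
  push_cast
  ring

lemma cD_single (D : Derivation ℤ ℂ ℂ) (n : ℤ) (c : ℂ) :
    cD D (HahnSeries.single n c) = HahnSeries.single n (D c) := by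
  ext m
  rw [cD_coeff]
  by_cases h : m = n
  · rw [h, HahnSeries.coeff_single_same, HahnSeries.coeff_single_same]
  · rw [HahnSeries.coeff_single_of_ne h, HahnSeries.coeff_single_of_ne h, map_zero]

lemma th_single (n : ℤ) (c : ℂ) :
    th (HahnSeries.single n c) = HahnSeries.single n (n * c) := by
  ext m
  rw [th_coeff]
  by_cases h : m = n
  · rw [h, HahnSeries.coeff_single_same, HahnSeries.coeff_single_same]
  · rw [HahnSeries.coeff_single_of_ne h, HahnSeries.coeff_single_of_ne h, mul_zero]

private lemma tfder_coe (D : Derivation ℤ ℂ ℂ) (g : PowerSeries ℂ) :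
    cD D (g : LaurentSeries ℂ) =
      ((PowerSeries.mk fun n => D (PowerSeries.coeff n g) : PowerSeries ℂ) : LaurentSeries ℂ) := by
  ext n
  rw [cD_coeff, PowerSeries.coeff_coe, PowerSeries.coeff_coe]
  split_ifs with h
  · rw [map_zero]
  · rw [PowerSeries.coeff_mk]

private lemma tfder_coe_th (g : PowerSeries ℂ) :
    th (g : LaurentSeries ℂ) =
      ((PowerSeries.mk fun n => (n : ℂ) * PowerSeries.coeff n g : PowerSeries ℂ) :
        LaurentSeries ℂ) := by
  ext n
  rw [th_coeff, PowerSeries.coeff_coe, PowerSeries.coeff_coe]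
  split_ifs with h
  · rw [mul_zero]
  · rw [PowerSeries.coeff_mk]
    have h1 : ((n.natAbs : ℕ) : ℂ) = (n : ℂ) := by
      have h2 : ((n.natAbs : ℕ) : ℤ) = n := by omega
      calc ((n.natAbs : ℕ) : ℂ) = (((n.natAbs : ℕ) : ℤ) : ℂ) := (Int.cast_natCast _).symm
        _ = (n : ℂ) := by rw [h2]
    rw [h1]

theorem cD_lead (D : Derivation ℤ ℂ ℂ) (n : ℤ) (g : PowerSeries ℂ) (hg : constantCoeff g ≠ 0) :
    ∃ h : PowerSeries ℂ,
      cD D (HahnSeries.single n 1 * (g : LaurentSeries ℂ)) =
        (HahnSeries.single n 1 * (g : LaurentSeries ℂ)) * (h : LaurentSeries ℂ) ∧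
      constantCoeff h = D (constantCoeff g) / constantCoeff g := by
  refine ⟨(PowerSeries.mk fun n => D (PowerSeries.coeff n g)) * g⁻¹, ?_, ?_⟩
  · have h1 : (g : LaurentSeries ℂ) * ((g⁻¹ : PowerSeries ℂ) : LaurentSeries ℂ) = 1 := by
      rw [← PowerSeries.coe_mul, PowerSeries.mul_inv_cancel g hg, PowerSeries.coe_one]
    rw [cD_mul, cD_single, Derivation.map_one_eq_zero, HahnSeries.single_eq_zero, mul_zero,
      add_zero, tfder_coe, PowerSeries.coe_mul]
    set a : LaurentSeries ℂ := HahnSeries.single n 1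
    set b : LaurentSeries ℂ := ((PowerSeries.mk fun n => D (PowerSeries.coeff n g) :
      PowerSeries ℂ) : LaurentSeries ℂ)
    calc a * b = a * b * 1 := (mul_one _).symm
      _ = a * b * ((g : LaurentSeries ℂ) * ((g⁻¹ : PowerSeries ℂ) : LaurentSeries ℂ)) := by
          rw [h1]
      _ = _ := by ring
  · rw [map_mul, PowerSeries.constantCoeff_inv, ← PowerSeries.coeff_zero_eq_constantCoeff_apply,
      PowerSeries.coeff_mk, div_eq_mul_inv, PowerSeries.coeff_zero_eq_constantCoeff_apply]

theorem th_lead (n : ℤ) (g : PowerSeries ℂ) (hg : constantCoeff g ≠ 0) :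
    ∃ h : PowerSeries ℂ,
      th (HahnSeries.single n 1 * (g : LaurentSeries ℂ)) =
        (HahnSeries.single n 1 * (g : LaurentSeries ℂ)) * (h : LaurentSeries ℂ) ∧
      constantCoeff h = n := by
  refine ⟨PowerSeries.C (n : ℂ) +
    (PowerSeries.mk fun n => (n : ℂ) * PowerSeries.coeff n g) * g⁻¹, ?_, ?_⟩
  · have h1 : (g : LaurentSeries ℂ) * ((g⁻¹ : PowerSeries ℂ) : LaurentSeries ℂ) = 1 := by
      rw [← PowerSeries.coe_mul, PowerSeries.mul_inv_cancel g hg, PowerSeries.coe_one]
    have h2 : (HahnSeries.single n ((n : ℂ) * 1) : LaurentSeries ℂ) =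
        HahnSeries.single n 1 * ((PowerSeries.C (n : ℂ) : PowerSeries ℂ) : LaurentSeries ℂ) := by
      rw [PowerSeries.coe_C, HahnSeries.C_apply, HahnSeries.single_mul_single, add_zero, one_mul,
        mul_one]
    rw [th_mul, th_single, h2, tfder_coe_th, PowerSeries.coe_add, PowerSeries.coe_mul]
    set a : LaurentSeries ℂ := HahnSeries.single n 1
    set b : LaurentSeries ℂ := ((PowerSeries.mk fun n => (n : ℂ) * PowerSeries.coeff n g :
      PowerSeries ℂ) : LaurentSeries ℂ)
    set c : LaurentSeries ℂ := ((PowerSeries.C (n : ℂ) : PowerSeries ℂ) : LaurentSeries ℂ)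
    calc a * b + (g : LaurentSeries ℂ) * (a * c) = a * b * 1 + (g : LaurentSeries ℂ) * (a * c) := by
          rw [mul_one]
      _ = a * b * ((g : LaurentSeries ℂ) * ((g⁻¹ : PowerSeries ℂ) : LaurentSeries ℂ)) +
          (g : LaurentSeries ℂ) * (a * c) := by
          rw [h1]
      _ = _ := by ring
  · rw [map_add, map_mul, PowerSeries.constantCoeff_C,
      ← PowerSeries.coeff_zero_eq_constantCoeff_apply (PowerSeries.mk _),
      PowerSeries.coeff_mk, Nat.cast_zero, zero_mul, zero_mul, add_zero]

end Pool.Agent.EXL
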