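import Mathlib

/-!
# EXI / TFDerU: uniqueness of derivations along a homomorphism

Wanted: `derU`.

PROOF. The set of the `x` with `A x = 0` is a subfield (`A 1 = 0` by the product rule,
`A (x⁻¹) = - ρ(x)^{-2} A x`) which contains `S`, so `A = 0` on `Subfield.closure S =: E₀`. Let `x ∈ F`
and `p` its minimal polynomial over `E₀`. Then `0 = A (p(x)) = ρ(p'(x)) * A x` (by induction on the
polynomial: for every `q ∈ E₀[Z]`: `A (q(x)) = ρ (q'(x)) * A x`), and `p'(x) ≠ 0` (characteristic
zero, minimality of the degree).
-/

set_option autoImplicit false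

namespace Pool.Agent.EXL

private theorem derU_pow {F L : Type*} [Field F] [Field L] (ρ : F →+* L) (A : F → L)
    (h1 : A 1 = 0) (hmul : ∀ x y, A (x * y) = ρ x * A y + ρ y * A x) (x : F) (n : ℕ) :
    A (x ^ n) = (n : L) * ρ x ^ (n - 1) * A x := by
  induction n with
  | zero => simp [h1]
  | succ n ih =>
    rw [pow_succ, hmul, ih, map_pow]
    rcases Nat.eq_zero_or_pos n with rfl | hn
    · simp
    · obtain ⟨m, rfl⟩ : ∃ m, n = m + 1 := ⟨n - 1, by omega⟩
      simp only [Nat.add_sub_cancel]
      push_cast
      ring

theorem derU {F L : Type*} [Field F] [CharZero F] [Field L] (ρ : F →+* L) (A : F → L)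
    (hadd : ∀ x y, A (x + y) = A x + A y) (hmul : ∀ x y, A (x * y) = ρ x * A y + ρ y * A x)
    (S : Set F) (hS : ∀ x ∈ S, A x = 0) (halg : ∀ x : F, IsAlgebraic (Subfield.closure S) x)
    (x : F) : A x = 0 := by
  have h0 : A 0 = 0 := by
    have := hadd 0 0
    rw [add_zero] at this
    exact left_eq_add.mp this
  have h1 : A 1 = 0 := by
    have := hmul 1 1
    rw [mul_one, map_one, one_mul] at this
    exact left_eq_add.mp this
  have hneg : ∀ x, A (-x) = -A x := by
    intro x
    have := hadd x (-x)
    rw [add_neg_cancel, h0] at this
    exact (neg_eq_of_add_eq_zero_right this.symm).symm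
  let E0 : Subfield F :=
    { carrier := {x | A x = 0}
      zero_mem' := h0
      one_mem' := h1
      add_mem' := fun {a b} ha hb => by
        show A (a + b) = 0
        rw [hadd, show A a = 0 from ha, show A b = 0 from hb, add_zero]
      mul_mem' := fun {a b} ha hb => by
        show A (a * b) = 0
        rw [hmul, show A a = 0 from ha, show A b = 0 from hb, mul_zero, mul_zero, add_zero]
      neg_mem' := fun {a} ha => by
        show A (-a) = 0
        rw [hneg, show A a = 0 from ha, neg_zero]
      inv_mem' := fun a ha => by
        show A a⁻¹ = 0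
        rcases eq_or_ne a 0 with rfl | hne
        · rw [inv_zero]
          exact h0
        · have h2 := hmul a a⁻¹
          rw [mul_inv_cancel₀ hne, h1, show A a = 0 from ha, mul_zero, add_zero] at h2
          rcases mul_eq_zero.mp h2.symm with h3 | h3
          · exact absurd ((map_eq_zero ρ).mp h3) hne
          · exact h3 }
  have hE : ∀ c : Subfield.closure S, A (c : F) = 0 := by
    intro c
    have hle : Subfield.closure S ≤ E0 := Subfield.closure_le.mpr hS
    exact hle c.2
  have hpoly : ∀ q : Polynomial (Subfield.closure S),
      A (Polynomial.aeval x q) = ρ (Polynomial.aeval x (Polynomial.derivative q)) * A x := by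
    intro q
    induction q using Polynomial.induction_on' with
    | add p q hp hq => rw [map_add, hadd, hp, hq, map_add, map_add, map_add, add_mul]
    | monomial n a =>
      have hc : algebraMap (Subfield.closure S) F a = (a : F) := rfl
      rw [Polynomial.aeval_monomial, hmul, hc, hE a, mul_zero, add_zero,
        derU_pow ρ A h1 hmul, Polynomial.derivative_monomial, Polynomial.aeval_monomial,
        map_mul, map_mul, map_pow, map_natCast, hc, map_mul, map_natCast]
      ring
  have hint : IsIntegral (Subfield.closure S) x := (halg x).isIntegral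
  have hsep : (minpoly (Subfield.closure S) x).Separable := (minpoly.irreducible hint).separable
  have hne := hsep.aeval_derivative_ne_zero (minpoly.aeval (Subfield.closure S) x)
  have h3 := hpoly (minpoly (Subfield.closure S) x)
  rw [minpoly.aeval, h0] at h3
  rcases mul_eq_zero.mp h3.symm with h4 | h4
  · exact absurd ((map_eq_zero ρ).mp h4) hne
  · exact h4

end Pool.Agent.EXL
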