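import Pool.Agent.EXI.Base

/-!
# EXI / TFEll: stable subspaces are defined over the constants

`stab_span`: a subspace `P ≤ ℂ^ι` which is stable under the coordinatewise action of `Δ` is spanned
by its vectors with coordinates in `consts Δ`.
PROOF. Let `W ≤ P` be the span of the vectors of `P` with coordinates in `consts Δ`. Suppose
`W ≠ P` and let `v ∈ P \ W` with the smallest number of nonzero coordinates. Choose `w ∈ P`, `w ≠ 0`,
with support contained in that of `v` and with minimal number of nonzero coordinates, normalised to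
have one coordinate `w_j = 1`. For `D ∈ Δ` the vector `D w ∈ P` has support in `supp w` minus `j`, so
`D w = 0` by minimality: `w` has constant coordinates, `w ∈ W`. Then `v - v_j w ∈ P \ W` has fewer
nonzero coordinates, a contradiction.

`exists_ell`: `K` algebraically closed, `P` stable under `DerOver K`, `B` a complement of `P` of
dimension `y`: there are `y` linear forms with coefficients in `K` whose common kernel is `P`.
PROOF. The space `P' = {w | ∑ w_k p_k = 0 for p ∈ P}` has dimension `y` and is stable under
`DerOver K` (`0 = D (∑ w_k p_k) = ∑ (D w_k) p_k + ∑ w_k (D p_k)`), so by `stab_span` it is spanned by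
vectors with coordinates in `consts (DerOver K) = K` (`K` algebraically closed; see the lemmas of
`EXL/Tdi`, `EXL/Tr` on `consts (DerOver K)`), hence has a basis of `y` of them; `P = P'^⊥`.
-/

set_option autoImplicit false

namespace Pool.Agent.EXL

theorem stab_span {ι : Type*} [Fintype ι] (Δ : Submodule ℂ (Derivation ℤ ℂ ℂ))
    (P : Submodule ℂ (ι → ℂ)) (hP : Stab Δ P) :
    P = Submodule.span ℂ {v | v ∈ P ∧ ∀ i, v i ∈ consts Δ} := by
  classical
  refine le_antisymm ?_ (Submodule.span_le.2 fun v hv => hv.1)
  set W := Submodule.span ℂ {v | v ∈ P ∧ ∀ i, v i ∈ consts Δ} with hW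
  set sp : (ι → ℂ) → Finset ι := fun v => Finset.univ.filter fun i => v i ≠ 0 with hsp
  have hmem : ∀ (v : ι → ℂ) (i : ι), i ∈ sp v ↔ v i ≠ 0 := fun v i => by simp [hsp]
  have key : ∀ n : ℕ, ∀ v ∈ P, (sp v).card = n → v ∈ W := by
    intro n
    induction n using Nat.strong_induction_on with
    | _ n ih =>
      intro v hv hn
      by_cases hv0 : v = 0
      · rw [hv0]
        exact zero_mem _
      -- a vector of minimal support
      have hex : ∃ N : ℕ, ∃ w ∈ P, w ≠ 0 ∧ sp w ⊆ sp v ∧ (sp w).card = N :=
        ⟨_, v, hv, hv0, subset_rfl, rfl⟩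
      obtain ⟨w, hwP, hw0, hws, hwN⟩ := Nat.find_spec hex
      have hmin : ∀ w' ∈ P, sp w' ⊆ sp v → (sp w').card < (sp w).card → w' = 0 := by
        intro w' h1 h2 h3
        by_contra h4
        rw [hwN] at h3
        exact Nat.find_min hex h3 ⟨w', h1, h4, h2, rfl⟩
      obtain ⟨j, hj⟩ : ∃ j, w j ≠ 0 := by
        by_contra h
        push Not at h
        exact hw0 (funext h)
      set z : ι → ℂ := (w j)⁻¹ • w with hz
      have hzP : z ∈ P := P.smul_mem _ hwP
      have hzj : z j = 1 := by
        simp only [hz, Pi.smul_apply, smul_eq_mul]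
        exact inv_mul_cancel₀ hj
      have hzs : ∀ i, z i ≠ 0 → w i ≠ 0 := by
        intro i hi h
        apply hi
        simp only [hz, Pi.smul_apply, smul_eq_mul, h, mul_zero]
      have hzc : ∀ i, z i ∈ consts Δ := by
        intro i D hD
        have h1 : (fun i => D (z i)) ∈ P := hP D hD z hzP
        have h2 : sp (fun i => D (z i)) ⊆ (sp w).erase j := by
          intro l hl
          rw [hmem] at hl
          rw [Finset.mem_erase, hmem]
          constructor
          · rintro rfl
            apply hl
            show D (z l) = 0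
            rw [hzj]
            exact D.map_one_eq_zero
          · intro h
            apply hl
            show D (z l) = 0
            have : z l = 0 := by
              by_contra h'
              exact hzs l h' h
            rw [this, map_zero]
        have h3 : (sp (fun i => D (z i))).card < (sp w).card :=
          lt_of_le_of_lt (Finset.card_le_card h2)
            (Finset.card_erase_lt_of_mem ((hmem w j).2 hj))
        have h4 := hmin _ h1 (h2.trans ((Finset.erase_subset _ _).trans hws)) h3
        exact congrFun h4 i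
      have hzW : z ∈ W := Submodule.subset_span ⟨hzP, hzc⟩
      have hvj : v j ≠ 0 := (hmem v j).1 (hws ((hmem w j).2 hj))
      have h5 : sp (v - v j • z) ⊆ (sp v).erase j := by
        intro l hl
        rw [hmem] at hl
        rw [Finset.mem_erase, hmem]
        constructor
        · rintro rfl
          apply hl
          simp [hzj]
        · intro h
          apply hl
          have h6 : z l = 0 := by
            by_contra h'
            exact (hmem v l).1 (hws ((hmem w l).2 (hzs l h'))) h
          simp [h, h6]
      have h6 : (sp (v - v j • z)).card < n := by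
        rw [← hn]
        exact lt_of_le_of_lt (Finset.card_le_card h5)
          (Finset.card_erase_lt_of_mem ((hmem v j).2 hvj))
      have h7 := ih _ h6 (v - v j • z) (P.sub_mem hv (P.smul_mem _ hzP)) rfl
      have h8 : v = (v - v j • z) + v j • z := by rw [sub_add_cancel]
      rw [h8]
      exact W.add_mem h7 (W.smul_mem _ hzW)
  intro v hv
  exact key _ v hv rfl

private theorem consts_derOver_alg (K : Subfield ℂ) (hK : IsAlgClosed K) {c : ℂ}
    (hc : c ∈ consts (DerOver (K : Set ℂ))) : c ∈ K := by
  by_contra h
  have h1 : ¬ IsAlgebraic K c := by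
    intro h2
    apply h
    have h3 : IsIntegral K c := h2.isIntegral
    have hq : (minpoly K c).leadingCoeff = 1 := minpoly.monic h3
    have h4 : (minpoly K c).degree = 1 :=
      IsAlgClosed.degree_eq_one_of_irreducible K (minpoly.irreducible h3)
    have h5 : Polynomial.aeval c (minpoly K c) = 0 := minpoly.aeval K c
    rw [Polynomial.eq_X_add_C_of_degree_eq_one h4, hq, Polynomial.C_1, one_mul,
      Polynomial.aeval_add, Polynomial.aeval_X, Polynomial.aeval_C, add_eq_zero_iff_eq_neg] at h5
    rw [h5]
    exact K.neg_mem (SetLike.coe_mem ((minpoly K c).coeff 0))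
  obtain ⟨D, hD1, hD2⟩ := exists_der_ne_zero K c h1
  exact hD2 (hc D hD1)

theorem exists_ell (K : Subfield ℂ) (hK : IsAlgClosed K) {ι : Type} [Fintype ι]
    (P B : Submodule ℂ (ι → ℂ)) (hP : Stab (DerOver (K : Set ℂ)) P) (hc : IsCompl P B) (y : ℕ)
    (hy : Module.finrank ℂ B = y) :
    ∃ ℓ : Fin y → ι → ℂ, (∀ j k, ℓ j k ∈ K) ∧ ∀ v : ι → ℂ, v ∈ P ↔ ∀ j, ∑ k, ℓ j k * v k = 0 := by
  classical
  set P' : Submodule ℂ (ι → ℂ) :=
    P.dualAnnihilator.comap (dotProductEquiv ℂ ι).toLinearMap with hP'
  have hmem : ∀ w : ι → ℂ, w ∈ P' ↔ ∀ v ∈ P, ∑ k, w k * v k = 0 := by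
    intro w
    rw [hP', Submodule.mem_comap, Submodule.mem_dualAnnihilator]
    rfl
  have hst : Stab (DerOver (K : Set ℂ)) P' := by
    intro D hD w hw
    rw [hmem] at hw ⊢
    intro v hv
    have h1 := congrArg D (hw v hv)
    rw [map_zero, map_sum] at h1
    have h2 := hw _ (hP D hD v hv)
    have h3 : ∑ k, D (w k * v k) = ∑ k, w k * D (v k) + ∑ k, D (w k) * v k := by
      rw [← Finset.sum_add_distrib]
      refine Finset.sum_congr rfl fun k _ => ?_
      rw [Derivation.leibniz, smul_eq_mul, smul_eq_mul]
      ring
    rw [h3, h2, zero_add] at h1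
    exact h1
  have hspan := stab_span _ P' hst
  have hdim : Module.finrank ℂ P' = y := by
    have h1 : Module.finrank ℂ P' = Module.finrank ℂ P.dualAnnihilator := by
      have : P' = P.dualAnnihilator.map
          ((dotProductEquiv ℂ ι).symm : Module.Dual ℂ (ι → ℂ) →ₗ[ℂ] (ι → ℂ)) :=
        Submodule.comap_equiv_eq_map_symm _ _
      rw [this, LinearEquiv.finrank_map_eq]
    have h2 := Subspace.finrank_add_finrank_dualAnnihilator_eq P
    have h3 := Submodule.finrank_add_eq_of_isCompl hc
    omega
  obtain ⟨f, hf1, hf2, -⟩ := Submodule.exists_fun_fin_finrank_span_eq ℂ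
    {v : ι → ℂ | v ∈ P' ∧ ∀ i, v i ∈ consts (DerOver (K : Set ℂ))}
  have hcard : Module.finrank ℂ (Submodule.span ℂ
      {v : ι → ℂ | v ∈ P' ∧ ∀ i, v i ∈ consts (DerOver (K : Set ℂ))}) = y := by
    rw [← hspan, hdim]
  refine ⟨fun j => f (Fin.cast hcard.symm j), fun j k => consts_derOver_alg K hK ((hf1 _).2 k),
    fun v => ⟨fun hv j => ?_, fun hv => ?_⟩⟩
  · exact (hmem _).1 (hf1 (Fin.cast hcard.symm j)).1 v hv
  · rw [← Subspace.forall_mem_dualAnnihilator_apply_eq_zero_iff P v]
    intro φ hφ
    set w := (dotProductEquiv ℂ ι).symm φ with hw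
    have hφw : φ = dotProductEquiv ℂ ι w := by rw [hw, LinearEquiv.apply_symm_apply]
    have hwP : w ∈ P' := by
      rw [hP', Submodule.mem_comap]
      show dotProductEquiv ℂ ι w ∈ _
      rw [← hφw]
      exact hφ
    rw [hspan, ← hf2] at hwP
    have h1 : w ∈ LinearMap.ker (dotProductEquiv ℂ ι v) := by
      refine (Submodule.span_le.2 ?_) hwP
      rintro _ ⟨i, rfl⟩
      have h2 := hv (Fin.cast hcard i)
      show ∑ k, v k * f i k = 0
      rw [← h2]
      refine Finset.sum_congr rfl fun k _ => ?_
      rw [mul_comm]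
      rfl
    have h3 : ∑ k, v k * w k = 0 := h1
    rw [hφw]
    show ∑ k, w k * v k = 0
    rw [← h3]
    exact Finset.sum_congr rfl fun k _ => mul_comm _ _

end Pool.Agent.EXL
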