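import Pool.Agent.EXI.TFTor
import Pool.Agent.EXI.TFDer

/-!
# EXI / TFFin: the base embedding at a finite place, and the vanishing of the trace

`fin_base`: `t_0 ↦ α + s`, `t_{i+1} ↦ t_{i+1}` extends to `K(t) → Ω((s))`, `Ω = Om K (t ∘ Fin.succ)`.
PROOF. `base_of_inj`: a polynomial `f ≠ 0` over `K`, seen as a polynomial in `X_0` over
`K[X_1, .., X_r]` (`MvPolynomial.finSuccEquiv`) and evaluated at `t_{i+1}`, gives a nonzero
`p ∈ Ω[Z]` (the `t_{i+1}` are algebraically independent); `p(α + s) ≠ 0` in `Ω((s))`: it is the image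
of the nonzero polynomial `p(α + Z)` under the injective `Ω[Z] → Ω((s))`, `Z ↦ s`.

`tr_zero`: `q ∈ K(t)`, such that its images under embeddings `t_0 ↦ α + ζ^e` (all `α ≠ 0` in `Ω`), have
no coefficients of index `≤ -e` and its images under `t_0 ↦ ζ^e`, `t_0 ↦ ζ^{-e'}` have no
coefficients of index `≤ 0` (`t_{i+1} ↦ t_{i+1}` in all cases). Then `q = 0`.
PROOF. `q = N(t)/G(t)`, `N, G` polynomials over `K` (`IntermediateField.mem_adjoin_range_iff`). Let
`n(Z) = N(Z, t_1, ..)`, `g(Z) = G(Z, t_1, ..)` in `Ω[Z]`, `g ≠ 0`; for every embedding `κ` as above with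
`t_0 ↦ z` we have `κ(q) g(z) = n(z)` (`z` transcendental). Let `n = d n'`, `g = d g'`, `n'`, `g'`
coprime, `d ≠ 0`; `κ(q) g'(z) = n'(z)`. If `g'(α) = 0`, `α ≠ 0`, then `n'(α) ≠ 0`, and at `z = α + ζ^e`:
`n'(z)` has constant coefficient `n'(α) ≠ 0`, `g'(z)` is divisible by `ζ^e` in `Ω⟦ζ⟧`
(`g'(z) = (z - α) g''(z)`), `κ(q)` has only coefficients of index `> -e`: so `κ(q) g'(z)` has
constant coefficient `0`, a contradiction. If `g'(0) = 0` the same argument at `z = ζ^e` gives a
contradiction. So `g'` has no root in the algebraically closed `Ω` and is a constant. If `n' ≠ 0` then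
`n'(ζ^{-e'})` has the nonzero coefficient of index `- e' deg n' ≤ 0`, a contradiction to `κ(q)`
having only coefficients of index `> 0`. So `n' = 0`, `q = 0`.
-/

set_option autoImplicit false

namespace Pool.Agent.EXL

open MvPolynomial

/-- `p ∈ Ω[Z]` evaluated at a Laurent series. -/
private noncomputable def evz {Ω : Subfield ℂ} (z : LaurentSeries Ω) :
    Polynomial Ω →+* LaurentSeries Ω := Polynomial.eval₂RingHom (HahnSeries.C) z

private theorem evz_C {Ω : Subfield ℂ} (z : LaurentSeries Ω) (a : Ω) :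
    evz z (Polynomial.C a) = HahnSeries.C a := Polynomial.eval₂_C _ _

private theorem evz_X {Ω : Subfield ℂ} (z : LaurentSeries Ω) : evz z Polynomial.X = z :=
  Polynomial.eval₂_X _ _

private theorem evz_coeff {Ω : Subfield ℂ} (e : ℤ) (p : Polynomial Ω) (i : ℤ) :
    (evz (HahnSeries.single e (1 : Ω)) p).coeff i =
      ∑ n ∈ Finset.range (p.natDegree + 1), if i = n * e then p.coeff n else 0 := by
  show HahnSeries.coeff (Polynomial.eval₂ (HahnSeries.C : Ω →+* LaurentSeries Ω)
    (HahnSeries.single e (1 : Ω)) p) i = _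
  rw [Polynomial.eval₂_eq_sum_range, HahnSeries.coeff_sum]
  refine Finset.sum_congr rfl fun n _ => ?_
  have h1 : (HahnSeries.C (p.coeff n) : LaurentSeries Ω) * HahnSeries.single e (1 : Ω) ^ n =
      HahnSeries.single ((n : ℤ) * e) (p.coeff n) := by
    rw [HahnSeries.single_pow, one_pow, nsmul_eq_mul]
    have h2 : (HahnSeries.C (p.coeff n) : LaurentSeries Ω) = HahnSeries.single 0 (p.coeff n) := rfl
    rw [h2, HahnSeries.single_mul_single, zero_add, mul_one]
  rw [h1, HahnSeries.coeff_single]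
  split_ifs <;> rfl

private theorem evz_coeff_mul {Ω : Subfield ℂ} {e : ℤ} (he : e ≠ 0) (p : Polynomial Ω) (n : ℕ) :
    (evz (HahnSeries.single e (1 : Ω)) p).coeff (n * e) = p.coeff n := by
  rw [evz_coeff]
  have h1 : ∀ m : ℕ, ((n : ℤ) * e = m * e) ↔ m = n := by
    intro m
    rw [mul_left_inj' he]
    constructor <;> intro h <;> omega
  simp only [h1]
  rw [Finset.sum_ite_eq']
  split_ifs with h
  · rfl
  · rw [Finset.mem_range, not_lt] at h
    exact (Polynomial.coeff_eq_zero_of_natDegree_lt (by omega)).symm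

private theorem evz_neg {Ω : Subfield ℂ} {e : ℤ} (he : 0 < e) (p : Polynomial Ω) {i : ℤ}
    (hi : i < 0) : (evz (HahnSeries.single e (1 : Ω)) p).coeff i = 0 := by
  rw [evz_coeff]
  refine Finset.sum_eq_zero fun n _ => if_neg ?_
  intro h
  have : 0 ≤ (n : ℤ) * e := by positivity
  omega

private theorem evz_ne {Ω : Subfield ℂ} {e : ℤ} (he : e ≠ 0) {p : Polynomial Ω} (hp : p ≠ 0) :
    evz (HahnSeries.single e (1 : Ω)) p ≠ 0 := by
  intro h
  apply hp
  ext1 n
  rw [← evz_coeff_mul he, h, Polynomial.coeff_zero]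
  rfl

private theorem evz_shift {Ω : Subfield ℂ} (α : Ω) (w : LaurentSeries Ω) (p : Polynomial Ω) :
    evz (HahnSeries.C α + w) p = evz w (p.comp (Polynomial.X + Polynomial.C α)) := by
  have h : (evz (HahnSeries.C α + w)) = (evz w).comp
      (Polynomial.compRingHom (Polynomial.X + Polynomial.C α)) := by
    apply Polynomial.ringHom_ext
    · intro a
      rw [RingHom.comp_apply, Polynomial.coe_compRingHom_apply, Polynomial.C_comp, evz_C, evz_C]
    · rw [RingHom.comp_apply, Polynomial.coe_compRingHom_apply, Polynomial.X_comp, evz_X, map_add,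
        evz_X, evz_C, add_comm]
  rw [h]
  rfl

private theorem evz_ne' {Ω : Subfield ℂ} (α : Ω) {e : ℤ} (he : e ≠ 0) {p : Polynomial Ω}
    (hp : p ≠ 0) : evz (HahnSeries.C α + HahnSeries.single e (1 : Ω)) p ≠ 0 := by
  rw [evz_shift]
  refine evz_ne he fun h => hp ?_
  exact Polynomial.comp_X_add_C_eq_zero_iff.1 h

/-- The polynomial `f` as a polynomial in the first variable over `Ω`. -/
private noncomputable def pf {K : Subfield ℂ} {r : ℕ} {Ω : Subfield ℂ} (h : K ≤ Ω) (c : Fin r → Ω) :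
    MvPolynomial (Fin (r + 1)) K →+* Polynomial Ω :=
  (Polynomial.mapRingHom (eval₂Hom (Subfield.inclusion h) c)).comp
    (MvPolynomial.finSuccEquiv K r).toRingEquiv.toRingHom

private theorem pf_ne {K : Subfield ℂ} {r : ℕ} (t : Fin (r + 1) → ℂ)
    (ht : AlgebraicIndependent K t) {Ω : Subfield ℂ} (h : K ≤ Ω) (c : Fin r → Ω)
    (hc : ∀ l, ((c l : Ω) : ℂ) = t l.succ) {f : MvPolynomial (Fin (r + 1)) K} (hf : f ≠ 0) :
    pf h c f ≠ 0 := by
  have hinj : Function.Injective (eval₂Hom (Subfield.inclusion h) c) := by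
    rw [injective_iff_map_eq_zero]
    intro g hg
    have h1 : AlgebraicIndependent K (t ∘ Fin.succ) := ht.comp _ (Fin.succ_injective r)
    apply (algebraicIndependent_iff.mp h1) g
    have h2 : (Ω.subtype).comp (eval₂Hom (Subfield.inclusion h) c) =
        (aeval (t ∘ Fin.succ) : MvPolynomial (Fin r) K →ₐ[K] ℂ).toRingHom := by
      apply MvPolynomial.ringHom_ext
      · intro a
        simp
        rfl
      · intro l
        simp [hc]
    have h3 := congrArg (fun φ : MvPolynomial (Fin r) K →+* ℂ => φ g) h2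
    simp only [RingHom.comp_apply, hg, map_zero] at h3
    exact h3.symm
  have h4 : Function.Injective (pf (K := K) h c) := by
    intro x y hxy
    have h5 := Polynomial.map_injective _ hinj hxy
    exact (MvPolynomial.finSuccEquiv K r).injective h5
  intro h0
  apply hf
  apply h4
  rw [h0, map_zero]

private theorem pf_eval {K : Subfield ℂ} {r : ℕ} {Ω : Subfield ℂ} (h : K ≤ Ω) (c : Fin r → Ω)
    (z : LaurentSeries Ω) (f : MvPolynomial (Fin (r + 1)) K) :
    eval₂ (cst h) (Fin.cons z fun l => HahnSeries.C (c l)) f = evz z (pf h c f) := by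
  have h1 : eval₂Hom (cst h) (Fin.cons z fun l => HahnSeries.C (c l)) =
      (evz z).comp (pf (K := K) h c) := by
    apply MvPolynomial.ringHom_ext
    · intro a
      have h2 : pf h c (C a) = Polynomial.C (Subfield.inclusion h a) := by
        have h3 : MvPolynomial.finSuccEquiv K r (C a) = Polynomial.C (C a) := by
          simp [finSuccEquiv_apply]
        show Polynomial.map _ (MvPolynomial.finSuccEquiv K r (C a)) = _
        rw [h3, Polynomial.map_C]
        simp
      rw [RingHom.comp_apply, h2, evz_C]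
      simp [cst]
    · intro i
      refine Fin.cases ?_ (fun l => ?_) i
      · have h2 : pf (K := K) h c (MvPolynomial.X 0) = Polynomial.X := by
          show Polynomial.map _ (MvPolynomial.finSuccEquiv K r (MvPolynomial.X 0)) = _
          rw [finSuccEquiv_X_zero, Polynomial.map_X]
        rw [RingHom.comp_apply, h2, evz_X]
        simp
      · have h2 : pf (K := K) h c (MvPolynomial.X l.succ) = Polynomial.C (c l) := by
          show Polynomial.map _ (MvPolynomial.finSuccEquiv K r (MvPolynomial.X l.succ)) = _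
          rw [finSuccEquiv_X_succ, Polynomial.map_C]
          simp
        rw [RingHom.comp_apply, h2, evz_C]
        simp
  have h2 := congrArg (fun φ : MvPolynomial (Fin (r + 1)) K →+* LaurentSeries Ω => φ f) h1
  exact h2

theorem fin_base {K : Subfield ℂ} {r : ℕ} (t : Fin (r + 1) → ℂ) (ht : AlgebraicIndependent K t)
    {Ω : Subfield ℂ} (h : K ≤ Ω) (c : Fin r → Ω) (hc : ∀ l, ((c l : Ω) : ℂ) = t l.succ) (α : Ω) :
    ∃ κ : (IntermediateField.adjoin K (Set.range t)) →+* LaurentSeries Ω,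
      (∀ x : K, κ (algebraMap K _ x) = cst h x) ∧
      κ ⟨t 0, IntermediateField.subset_adjoin K _ ⟨0, rfl⟩⟩ =
        HahnSeries.C α + HahnSeries.single 1 1 ∧
      ∀ l : Fin r, κ ⟨t l.succ, IntermediateField.subset_adjoin K _ ⟨l.succ, rfl⟩⟩ =
        HahnSeries.C (c l) := by
  obtain ⟨κ, h1, h2⟩ := base_of_inj t ht (cst h)
    (Fin.cons (HahnSeries.C α + HahnSeries.single 1 1) fun l => HahnSeries.C (c l))
    (fun f hf => by
      rw [pf_eval]
      exact evz_ne' α one_ne_zero (pf_ne t ht h c hc hf))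
  refine ⟨κ, h1, ?_, fun l => ?_⟩
  · rw [h2]
    rfl
  · rw [h2]
    rfl

private theorem kap_eval {K : Subfield ℂ} {r : ℕ} (t : Fin (r + 1) → ℂ) {Ω : Subfield ℂ}
    (h : K ≤ Ω) (c : Fin r → Ω) (z : LaurentSeries Ω)
    (κ : (IntermediateField.adjoin K (Set.range t)) →+* LaurentSeries Ω)
    (h1 : ∀ x : K, κ (algebraMap K _ x) = cst h x)
    (h2 : κ ⟨t 0, IntermediateField.subset_adjoin K _ ⟨0, rfl⟩⟩ = z)
    (h3 : ∀ l : Fin r, κ ⟨t l.succ, IntermediateField.subset_adjoin K _ ⟨l.succ, rfl⟩⟩ =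
        HahnSeries.C (c l)) (f : MvPolynomial (Fin (r + 1)) K)
    (x : IntermediateField.adjoin K (Set.range t)) (hx : (x : ℂ) = aeval t f) :
    κ x = evz z (pf h c f) := by
  rw [← pf_eval]
  set t' : Fin (r + 1) → IntermediateField.adjoin K (Set.range t) :=
    fun l => ⟨t l, IntermediateField.subset_adjoin K _ ⟨l, rfl⟩⟩ with ht'
  have h4 : x = aeval t' f := by
    apply Subtype.ext
    rw [hx]
    have h5 : (IntermediateField.adjoin K (Set.range t)).val.comp (aeval t') = aeval t := by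
      apply MvPolynomial.algHom_ext
      intro l
      simp [ht']
    rw [← h5]
    rfl
  have h5 : κ.comp (aeval t' : MvPolynomial (Fin (r + 1)) K →ₐ[K] _).toRingHom =
      eval₂Hom (cst h) (Fin.cons z fun l => HahnSeries.C (c l)) := by
    apply MvPolynomial.ringHom_ext
    · intro a
      have h6 : (aeval t' : MvPolynomial (Fin (r + 1)) K →ₐ[K] _).toRingHom (C a) =
          algebraMap K _ a := aeval_C _ _
      rw [RingHom.comp_apply, h6, h1]
      simp
    · intro i
      have h6 : (aeval t' : MvPolynomial (Fin (r + 1)) K →ₐ[K] _).toRingHom (MvPolynomial.X i) = t' i :=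
        aeval_X _ _
      rw [RingHom.comp_apply, h6]
      refine Fin.cases ?_ (fun l => ?_) i
      · rw [ht']
        simp only
        rw [h2]
        simp
      · rw [ht']
        simp only
        rw [h3]
        simp
  rw [h4]
  have h6 := congrArg (fun φ : MvPolynomial (Fin (r + 1)) K →+* LaurentSeries Ω => φ f) h5
  exact h6

private theorem mul_low {Ω : Subfield ℂ} {a b : LaurentSeries Ω} {β : ℤ}
    (ha : ∀ i : ℤ, i ≤ β → a.coeff i = 0) (hb : ∀ i : ℤ, i < 0 → b.coeff i = 0) (i : ℤ)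
    (hi : i ≤ β) : (a * b).coeff i = 0 := by
  rw [HahnSeries.coeff_mul]
  refine Finset.sum_eq_zero fun ij hij => ?_
  rw [Finset.mem_addAntidiagonal] at hij
  by_cases h : ij.1 ≤ β
  · rw [ha _ h, zero_mul]
  · rw [hb ij.2 (by omega), mul_zero]

/-- no zero of the denominator -/
private theorem no_root {Ω : Subfield ℂ} {n g : Polynomial Ω} (hco : IsCoprime g n) (α : Ω)
    {e : ℕ} (he : 0 < e) (a : LaurentSeries Ω)
    (hn : a * evz (HahnSeries.C α + HahnSeries.single (e : ℤ) 1) g =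
      evz (HahnSeries.C α + HahnSeries.single (e : ℤ) 1) n)
    (ha : ∀ i : ℤ, i ≤ -(e : ℤ) → a.coeff i = 0) : ¬ g.IsRoot α := by
  intro hg
  have he' : (0 : ℤ) < e := by exact_mod_cast he
  obtain ⟨g1, hg1⟩ := Polynomial.dvd_iff_isRoot.2 hg
  have hnα : n.eval α ≠ 0 := by
    intro h0
    obtain ⟨u, v, huv⟩ := hco
    have h1 := congrArg (Polynomial.eval α) huv
    rw [Polynomial.eval_add, Polynomial.eval_mul, Polynomial.eval_mul, h0,
      show Polynomial.eval α g = 0 from hg, mul_zero, mul_zero, add_zero,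
      Polynomial.eval_one] at h1
    exact zero_ne_one h1
  have h2 : evz (HahnSeries.C α + HahnSeries.single (e : ℤ) 1) g =
      HahnSeries.single (e : ℤ) 1 * evz (HahnSeries.C α + HahnSeries.single (e : ℤ) 1) g1 := by
    rw [hg1, map_mul, map_sub, evz_X, evz_C, add_sub_cancel_left]
  have h3 : (evz (HahnSeries.C α + HahnSeries.single (e : ℤ) 1) n).coeff 0 = n.eval α := by
    rw [evz_shift]
    have h4 := evz_coeff_mul he'.ne' (n.comp (Polynomial.X + Polynomial.C α)) 0
    rw [Nat.cast_zero, zero_mul] at h4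
    rw [h4, Polynomial.coeff_zero_eq_eval_zero, Polynomial.eval_comp]
    simp
  apply hnα
  rw [← h3, ← hn, h2, ← mul_assoc]
  refine mul_low (β := 0) ?_ ?_ 0 le_rfl
  · intro i hi
    have h5 : (a * HahnSeries.single (e : ℤ) 1).coeff i = a.coeff (i - e) := by
      have h6 := HahnSeries.coeff_mul_single_add (r := (1 : Ω)) (x := a) (a := i - e)
        (b := (e : ℤ))
      rw [sub_add_cancel, mul_one] at h6
      exact h6
    rw [h5]
    exact ha _ (by omega)
  · intro i hi
    rw [evz_shift]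
    exact evz_neg he' _ hi

theorem tr_zero {K : Subfield ℂ} {r : ℕ} (t : Fin (r + 1) → ℂ) (ht : AlgebraicIndependent K t)
    {Ω : Subfield ℂ} (hΩ : IsAlgClosed Ω) (h : K ≤ Ω) (c : Fin r → Ω)
    (hc : ∀ l, ((c l : Ω) : ℂ) = t l.succ)
    (q : IntermediateField.adjoin K (Set.range t))
    (hfin : ∀ α : Ω, α ≠ 0 → ∃ (e : ℕ)
      (κ : (IntermediateField.adjoin K (Set.range t)) →+* LaurentSeries Ω), 0 < e ∧
      (∀ x : K, κ (algebraMap K _ x) = cst h x) ∧
      κ ⟨t 0, IntermediateField.subset_adjoin K _ ⟨0, rfl⟩⟩ =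
        HahnSeries.C α + HahnSeries.single (e : ℤ) 1 ∧
      (∀ l : Fin r, κ ⟨t l.succ, IntermediateField.subset_adjoin K _ ⟨l.succ, rfl⟩⟩ =
        HahnSeries.C (c l)) ∧ ∀ i : ℤ, i ≤ -(e : ℤ) → (κ q).coeff i = 0)
    (htor : ∀ s : ℤ, s = 1 ∨ s = -1 → ∃ (e : ℕ)
      (κ : (IntermediateField.adjoin K (Set.range t)) →+* LaurentSeries Ω), 0 < e ∧
      (∀ x : K, κ (algebraMap K _ x) = cst h x) ∧
      κ ⟨t 0, IntermediateField.subset_adjoin K _ ⟨0, rfl⟩⟩ = HahnSeries.single ((e : ℤ) * s) 1 ∧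
      (∀ l : Fin r, κ ⟨t l.succ, IntermediateField.subset_adjoin K _ ⟨l.succ, rfl⟩⟩ =
        HahnSeries.C (c l)) ∧ ∀ i : ℤ, i ≤ 0 → (κ q).coeff i = 0) :
    q = 0 := by
  classical
  obtain ⟨N, G, hNG⟩ := (IntermediateField.mem_adjoin_range_iff K t (q : ℂ)).1 q.2
  by_cases hG0 : (aeval t G : ℂ) = 0
  · rw [hG0, div_zero] at hNG
    exact Subtype.ext hNG
  have hGne : G ≠ 0 := by
    rintro rfl
    exact hG0 (map_zero _)
  -- polynomials over `Ω`
  obtain ⟨g, hg⟩ : ∃ g, g = pf h c G := ⟨_, rfl⟩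
  obtain ⟨n, hn⟩ : ∃ n, n = pf h c N := ⟨_, rfl⟩
  have hgne : g ≠ 0 := by
    rw [hg]
    exact pf_ne t ht h c hc hGne
  have hmem : ∀ f : MvPolynomial (Fin (r + 1)) K,
      (aeval t f : ℂ) ∈ IntermediateField.adjoin K (Set.range t) := by
    intro f
    rw [IntermediateField.mem_adjoin_range_iff]
    exact ⟨f, 1, by simp⟩
  have key : ∀ (z : LaurentSeries Ω)
      (κ : (IntermediateField.adjoin K (Set.range t)) →+* LaurentSeries Ω),
      (∀ x : K, κ (algebraMap K _ x) = cst h x) →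
      κ ⟨t 0, IntermediateField.subset_adjoin K _ ⟨0, rfl⟩⟩ = z →
      (∀ l : Fin r, κ ⟨t l.succ, IntermediateField.subset_adjoin K _ ⟨l.succ, rfl⟩⟩ =
        HahnSeries.C (c l)) → κ q * evz z g = evz z n := by
    intro z κ h1 h2 h3
    have h4 := kap_eval t h c z κ h1 h2 h3 G ⟨_, hmem G⟩ rfl
    have h5 := kap_eval t h c z κ h1 h2 h3 N ⟨_, hmem N⟩ rfl
    rw [hg, hn, ← h4, ← h5, ← map_mul]
    congr 1
    apply Subtype.ext
    show (q : ℂ) * aeval t G = aeval t N
    rw [hNG, div_mul_cancel₀ _ hG0]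
  -- coprime numerator and denominator
  obtain ⟨d, g', n', hd, hgd, hnd, hco⟩ : ∃ d g' n' : Polynomial Ω, d ≠ 0 ∧ g = d * g' ∧
      n = d * n' ∧ IsCoprime g' n' := by
    let _ : GCDMonoid (Polynomial Ω) := EuclideanDomain.gcdMonoid _
    have hd : gcd n g ≠ 0 := fun h0 => hgne (zero_dvd_iff.1 (h0 ▸ gcd_dvd_right n g))
    refine ⟨gcd n g, g / gcd n g, n / gcd n g, hd,
      (EuclideanDomain.mul_div_cancel' hd (gcd_dvd_right n g)).symm,
      (EuclideanDomain.mul_div_cancel' hd (gcd_dvd_left n g)).symm,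
      (isCoprime_div_gcd_div_gcd hgne).symm⟩
  have hg'ne : g' ≠ 0 := by
    rintro rfl
    exact hgne (by rw [hgd, mul_zero])
  have key2 : ∀ (z : LaurentSeries Ω) (_ : evz z d ≠ 0)
      (κ : (IntermediateField.adjoin K (Set.range t)) →+* LaurentSeries Ω),
      (∀ x : K, κ (algebraMap K _ x) = cst h x) →
      κ ⟨t 0, IntermediateField.subset_adjoin K _ ⟨0, rfl⟩⟩ = z →
      (∀ l : Fin r, κ ⟨t l.succ, IntermediateField.subset_adjoin K _ ⟨l.succ, rfl⟩⟩ =
        HahnSeries.C (c l)) → κ q * evz z g' = evz z n' := by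
    intro z hz κ h1 h2 h3
    have h4 := key z κ h1 h2 h3
    rw [hgd, hnd, map_mul, map_mul] at h4
    apply mul_left_cancel₀ hz
    rw [← h4]
    ring
  have hnoroot : ∀ α : Ω, ¬ g'.IsRoot α := by
    intro α
    by_cases hα : α = 0
    · subst hα
      obtain ⟨e, κ, he, h1, h2, h3, h4⟩ := htor 1 (Or.inl rfl)
      have he' : (0 : ℤ) < e := by exact_mod_cast he
      rw [mul_one] at h2
      have h2' : κ ⟨t 0, IntermediateField.subset_adjoin K _ ⟨0, rfl⟩⟩ =
          HahnSeries.C 0 + HahnSeries.single (e : ℤ) 1 := by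
        rw [h2, map_zero, zero_add]
      exact no_root hco 0 he (κ q) (key2 _ (evz_ne' 0 he'.ne' hd) κ h1 h2' h3)
        (fun i hi => h4 i (by omega))
    · obtain ⟨e, κ, he, h1, h2, h3, h4⟩ := hfin α hα
      have he' : (0 : ℤ) < e := by exact_mod_cast he
      exact no_root hco α he (κ q) (key2 _ (evz_ne' α he'.ne' hd) κ h1 h2 h3) h4
  have hdeg : g'.degree = 0 := by
    by_contra hne
    obtain ⟨α, hα⟩ := IsAlgClosed.exists_root g' hne
    exact hnoroot α hα
  have hg'C : g' = Polynomial.C (g'.coeff 0) := Polynomial.eq_C_of_degree_eq_zero hdeg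
  obtain ⟨e, κ, he, h1, h2, h3, h4⟩ := htor (-1) (Or.inr rfl)
  have he' : (0 : ℤ) < e := by exact_mod_cast he
  have he2 : (e : ℤ) * -1 ≠ 0 := by omega
  have h5 := key2 _ (evz_ne he2 hd) κ h1 h2 h3
  have hn' : n' = 0 := by
    by_contra hne
    have h6 := evz_coeff_mul he2 n' n'.natDegree
    have h7 : n'.coeff n'.natDegree ≠ 0 := by
      rw [Polynomial.coeff_natDegree]
      exact Polynomial.leadingCoeff_ne_zero.2 hne
    apply h7
    rw [← h6, ← h5, hg'C, evz_C]
    refine mul_low (β := 0) h4 (fun i hi => ?_) _ ?_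
    · have : (HahnSeries.C (g'.coeff 0) : LaurentSeries Ω) = HahnSeries.single 0 (g'.coeff 0) := rfl
      rw [this, HahnSeries.coeff_single, if_neg hi.ne]
    · have : 0 ≤ (n'.natDegree : ℤ) * e := by positivity
      nlinarith
  rw [hn', map_zero] at h5
  have h8 : evz (HahnSeries.single ((e : ℤ) * -1) (1 : Ω)) g' ≠ 0 := evz_ne he2 hg'ne
  rcases mul_eq_zero.1 h5 with h6 | h6
  · exact (map_eq_zero κ).1 h6
  · exact absurd h6 h8

end Pool.Agent.EXL
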