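import Pool.Agent.EXI.TFTor

/-!
# EXI / TFNeg: orders of coefficients of polynomials

`coeff_pos_of_roots`: the lower coefficients of a product of factors `Z - r` with `r` of positive
order have positive order. PROOF. The set of the Laurent series with no coefficient at `i ≤ 0` is an
ideal (closed under multiplication) of the ring of those with no coefficient at `i < 0`; induction on
the multiset: the coefficients of index `< card` have positive order and the leading one is `1`.

`hneg_of`: a monic polynomial `q` over `E = K(t)` such that for all `m ≠ 0` the lower coefficients of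
its image under a monomial embedding `κ` of direction `e m` have positive order, can be written with
a common denominator `G` as `q_i = N_i / G`, and the exponents satisfy the strict inequalities.
PROOF. Every element of `E = IntermediateField.adjoin K (range t)` is `P(t)/Q(t)`
(`IntermediateField.mem_adjoin_range_iff`), take a common denominator `G` (nonzero) of the `q_i`. Let
`m ≠ 0`, `κ` as in the hypothesis. `κ (q_i) κ(G(t)) = κ (N_i(t))`, and `κ (f(t)) = eval₂ (cst h) (..) f`
for all polynomials `f`. By `tor_ord` (with `e m` in place of `m`) there is `s' ∈ G.support` with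
`e ⟨m, s'⟩ = ord κ(G(t))`; as `κ (q_i)` has positive order, all coefficients of `κ (N_i(t))` of index
`≤ e ⟨m, s'⟩` vanish, so by `tor_ord` for `N_i` (if `N_i ≠ 0`) `e ⟨m, s⟩ > e ⟨m, s'⟩` for all
`s ∈ N_i.support`.
-/

set_option autoImplicit false

namespace Pool.Agent.EXL

open MvPolynomial

private lemma tfn_mul {Ω : Type*} [Field Ω] {a b : LaurentSeries Ω} {β : ℤ}
    (ha : ∀ i : ℤ, i ≤ 0 → a.coeff i = 0) (hb : ∀ i : ℤ, i < β → b.coeff i = 0) (i : ℤ)
    (hi : i ≤ β) : (a * b).coeff i = 0 := by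
  rw [HahnSeries.coeff_mul]
  refine Finset.sum_eq_zero fun ij hij => ?_
  rw [Finset.mem_addAntidiagonal] at hij
  by_cases h : ij.1 ≤ 0
  · rw [ha _ h, zero_mul]
  · rw [hb ij.2 (by omega), mul_zero]

private lemma tfn_mul0 {Ω : Type*} [Field Ω] {a b : LaurentSeries Ω}
    (ha : ∀ i : ℤ, i ≤ 0 → a.coeff i = 0) (hb : ∀ i : ℤ, i < 0 → b.coeff i = 0) (i : ℤ)
    (hi : i ≤ 0) : (a * b).coeff i = 0 := tfn_mul ha hb i hi

private lemma tfn_root {Ω : Type*} [Field Ω] (s : Multiset (LaurentSeries Ω)) :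
    (∀ r ∈ s, ∀ i : ℤ, i ≤ 0 → r.coeff i = 0) →
    (∀ n < s.card, ∀ i : ℤ, i ≤ 0 →
      (((s.map fun r => Polynomial.X - Polynomial.C r).prod).coeff n).coeff i = 0) ∧
    ((s.map fun r => Polynomial.X - Polynomial.C r).prod).coeff s.card = 1 ∧
    ∀ n, s.card < n → ((s.map fun r => Polynomial.X - Polynomial.C r).prod).coeff n = 0 := by
  induction s using Multiset.induction_on with
  | empty =>
    intro _
    refine ⟨fun n hn => absurd hn (Nat.not_lt_zero n), ?_, fun n hn => ?_⟩
    · rw [Multiset.map_zero, Multiset.prod_zero, Multiset.card_zero, Polynomial.coeff_one_zero]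
    · rw [Multiset.map_zero, Multiset.prod_zero, Polynomial.coeff_one]
      rw [Multiset.card_zero] at hn
      rw [if_neg (by omega)]
  | cons a t ih =>
    intro hs
    obtain ⟨h1, h2, h3⟩ := ih fun r hr => hs r (Multiset.mem_cons_of_mem hr)
    have ha := hs a (Multiset.mem_cons_self a t)
    set q := (t.map fun r => Polynomial.X - Polynomial.C r).prod with hq
    have hA : ∀ n, ∀ i : ℤ, i < 0 → (q.coeff n).coeff i = 0 := by
      intro n i hi
      rcases lt_trichotomy n t.card with h | h | h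
      · exact h1 n h i hi.le
      · rw [h, h2, HahnSeries.coeff_one, if_neg hi.ne]
      · rw [h3 n h, HahnSeries.coeff_zero]
    have e0 : ((a ::ₘ t).map fun r => Polynomial.X - Polynomial.C r).prod =
        (Polynomial.X - Polynomial.C a) * q := by
      rw [Multiset.map_cons, Multiset.prod_cons]
    rw [e0]
    have c0 : ((Polynomial.X - Polynomial.C a) * q).coeff 0 = -(a * q.coeff 0) := by
      rw [sub_mul, Polynomial.coeff_sub, Polynomial.coeff_C_mul, Polynomial.mul_coeff_zero,
        Polynomial.coeff_X_zero, zero_mul, zero_sub]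
    have c1 : ∀ n, ((Polynomial.X - Polynomial.C a) * q).coeff (n + 1) =
        q.coeff n - a * q.coeff (n + 1) := by
      intro n
      rw [sub_mul, Polynomial.coeff_sub, Polynomial.coeff_C_mul, Polynomial.coeff_X_mul]
    refine ⟨?_, ?_, ?_⟩
    · intro n hn i hi
      rw [Multiset.card_cons] at hn
      cases n with
      | zero => rw [c0, HahnSeries.coeff_neg, tfn_mul0 ha (hA 0) i hi, neg_zero]
      | succ n =>
        rw [c1, HahnSeries.coeff_sub, h1 n (by omega) i hi, tfn_mul0 ha (hA _) i hi, sub_zero]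
    · rw [Multiset.card_cons, c1, h2, h3 _ (Nat.lt_succ_self _), mul_zero, sub_zero]
    · intro n hn
      rw [Multiset.card_cons] at hn
      cases n with
      | zero => omega
      | succ n => rw [c1, h3 n (by omega), h3 (n + 1) (by omega), mul_zero, sub_zero]

theorem coeff_pos_of_roots {Ω : Type*} [Field Ω] (s : Multiset (LaurentSeries Ω))
    (hs : ∀ r ∈ s, ∀ i : ℤ, i ≤ 0 → r.coeff i = 0) (n : ℕ) (hn : n < s.card) (i : ℤ) (hi : i ≤ 0) :
    (((s.map fun r => Polynomial.X - Polynomial.C r).prod).coeff n).coeff i = 0 :=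
  (tfn_root s hs).1 n hn i hi

private lemma tfn_frac {K : Subfield ℂ} {y : ℕ} (t : Fin y → ℂ)
    (x : IntermediateField.adjoin K (Set.range t)) :
    ∃ P Q : MvPolynomial (Fin y) K, Q ≠ 0 ∧ (x : ℂ) * aeval t Q = aeval t P := by
  obtain ⟨r, s, hrs⟩ := (IntermediateField.mem_adjoin_range_iff K t (x : ℂ)).1 x.2
  by_cases h : aeval t s = 0
  · refine ⟨0, 1, one_ne_zero, ?_⟩
    rw [hrs, h, div_zero, zero_mul, map_zero]
  · refine ⟨r, s, ?_, ?_⟩
    · rintro rfl
      exact h (map_zero _)
    · rw [hrs, div_mul_cancel₀ _ h]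

theorem hneg_of {K : Subfield ℂ} {y : ℕ} (t : Fin y → ℂ) (ht : AlgebraicIndependent K t)
    (q : Polynomial (IntermediateField.adjoin K (Set.range t)))
    (H : ∀ m : Fin y → ℤ, m ≠ 0 → ∃ (i₀ : Fin y) (Ω : Subfield ℂ) (h : K ≤ Ω) (c : Fin y → Ω) (e : ℕ)
      (κ : (IntermediateField.adjoin K (Set.range t)) →+* LaurentSeries Ω),
      0 < e ∧ m i₀ ≠ 0 ∧ c i₀ = 1 ∧
      AlgebraicIndependent K (fun l : {l : Fin y // l ≠ i₀} => ((c l : Ω) : ℂ)) ∧
      (∀ x : K, κ (algebraMap K _ x) = cst h x) ∧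
      (∀ l, κ ⟨t l, IntermediateField.subset_adjoin K _ ⟨l, rfl⟩⟩ =
        HahnSeries.single ((e : ℤ) * m l) (c l)) ∧
      ∀ n < q.natDegree, ∀ i : ℤ, i ≤ 0 → (κ (q.coeff n)).coeff i = 0) :
    ∃ (N : Fin q.natDegree → MvPolynomial (Fin y) K) (G : MvPolynomial (Fin y) K), G ≠ 0 ∧
      (∀ n : Fin q.natDegree, ((q.coeff n : IntermediateField.adjoin K (Set.range t)) : ℂ) *
        aeval t G = aeval t (N n)) ∧
      ∀ m : Fin y → ℤ, m ≠ 0 → ∃ s' ∈ G.support, ∀ n, ∀ s ∈ (N n).support,
        ∑ l, m l * (s' l : ℤ) < ∑ l, m l * (s l : ℤ) := by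
  classical
  choose P Q hQ0 hPQ using fun n : Fin q.natDegree => tfn_frac t (q.coeff n)
  have hG0 : (∏ n, Q n) ≠ 0 := Finset.prod_ne_zero_iff.2 fun n _ => hQ0 n
  set G := ∏ n, Q n with hG
  set N : Fin q.natDegree → MvPolynomial (Fin y) K := fun n =>
    P n * ∏ n' ∈ Finset.univ.erase n, Q n' with hN
  have hNG : ∀ n : Fin q.natDegree,
      ((q.coeff n : IntermediateField.adjoin K (Set.range t)) : ℂ) * aeval t G =
        aeval t (N n) := by
    intro n
    have e : G = Q n * ∏ n' ∈ Finset.univ.erase n, Q n' :=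
      (Finset.mul_prod_erase _ _ (Finset.mem_univ n)).symm
    rw [e, map_mul, ← mul_assoc, hPQ n, hN, map_mul]
  refine ⟨N, G, hG0, hNG, fun m hm => ?_⟩
  obtain ⟨i₀, Ω, h, c, e, κ, he, hmi, hc, hind, hκ, hκt, hκq⟩ := H m hm
  have hm' : (e : ℤ) * m i₀ ≠ 0 := mul_ne_zero (by exact_mod_cast he.ne') hmi
  -- the image of polynomials
  set t' : Fin y → IntermediateField.adjoin K (Set.range t) :=
    fun l => ⟨t l, IntermediateField.subset_adjoin K _ ⟨l, rfl⟩⟩ with ht'
  have hcoe : ∀ f : MvPolynomial (Fin y) K,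
      ((aeval t' f : IntermediateField.adjoin K (Set.range t)) : ℂ) = aeval t f := by
    intro f
    have h1 : ((IntermediateField.adjoin K (Set.range t)).val.comp (aeval t')) =
        (aeval t : MvPolynomial (Fin y) K →ₐ[K] ℂ) := by
      apply MvPolynomial.algHom_ext
      intro l
      rw [AlgHom.comp_apply, aeval_X, aeval_X]
      rfl
    rw [← h1]
    rfl
  have hκf : ∀ f : MvPolynomial (Fin y) K, κ (aeval t' f) =
      eval₂ (cst h) (fun l => HahnSeries.single ((e : ℤ) * m l) (c l)) f := by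
    intro f
    rw [aeval_def, ← MvPolynomial.coe_eval₂Hom, ← RingHom.comp_apply]
    have h2 : κ.comp (eval₂Hom (algebraMap K (IntermediateField.adjoin K (Set.range t))) t') =
        eval₂Hom (cst h) (fun l => HahnSeries.single ((e : ℤ) * m l) (c l)) := by
      apply MvPolynomial.ringHom_ext
      · intro x
        rw [RingHom.comp_apply, eval₂Hom_C, eval₂Hom_C, hκ]
      · intro l
        rw [RingHom.comp_apply, eval₂Hom_X', eval₂Hom_X', hκt]
    rw [h2]
    rfl
  obtain ⟨s', hs', hmin', hne', hlow'⟩ :=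
    tor_ord h c (fun l => (e : ℤ) * m l) i₀ hm' hc hind G hG0
  refine ⟨s', hs', fun n s hs => ?_⟩
  have hNn : N n ≠ 0 := by
    intro h0
    rw [h0, MvPolynomial.support_zero] at hs
    exact absurd hs (Finset.notMem_empty _)
  obtain ⟨s2, hs2, hmin2, hne2, hlow2⟩ :=
    tor_ord h c (fun l => (e : ℤ) * m l) i₀ hm' hc hind (N n) hNn
  have hprod : κ (q.coeff n) * κ (aeval t' G) = κ (aeval t' (N n)) := by
    rw [← map_mul]
    congr 1
    apply Subtype.ext
    rw [hcoe, ← hNG n, ← hcoe G]
    rfl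
  rw [hκf, hκf] at hprod
  have hlt : ∑ l, (e : ℤ) * m l * (s' l : ℤ) < ∑ l, (e : ℤ) * m l * (s2 l : ℤ) := by
    by_contra hcon
    apply hne2
    rw [← hprod]
    exact tfn_mul (hκq n n.2) hlow' _ (not_lt.1 hcon)
  have hle := hmin2 s hs
  have h5 : ∀ w : Fin y →₀ ℕ, ∑ l, (e : ℤ) * m l * (w l : ℤ) = e * ∑ l, m l * (w l : ℤ) := by
    intro w
    rw [Finset.mul_sum]
    exact Finset.sum_congr rfl fun l _ => by ring
  have h6 := hlt.trans_le hle
  rw [h5, h5] at h6
  exact lt_of_mul_lt_mul_left h6 (by positivity)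

end Pool.Agent.EXL
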