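import Pool.Agent.EXI.TFStep
import Pool.Agent.EXI.TFEmb
import Pool.Agent.EXI.TFFin
import Pool.Agent.EXI.TFNeg
import Pool.Agent.EXI.TFCm

/-!
# EXI / TFFinS: the degenerations at finite places

PROOF of `fin_step` (here `i₀ = 0`).  `κ₀` := `fin_base` for `t = b ∘ J`, `Ω`, `α`. `emb κ₀ R`
(`setup_fd`) gives `e`, `χ` and the multiset `s` of embeddings; `κ := χ.comp κ₀`. For `σ ∈ s`,
`ρ = toC ∘ σ`, `z := ρ t_0 = C α + single e 1`: `der_rho` for `𝔇 = th` with `A_0 = w := single e e / z`,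
`A_l = 0` for `l ≠ 0`, and for `𝔇 = cD (D i)`, `i ≠ 0`, with `A_i = 1`, `A_0 = B_i := C (D_i α) / z`, other
`A_l = 0` (`D_i (t_l) = δ_{il} t_l`; `S₀ = range cF`; `setup_alg`). So the matrix of `det_fin` satisfies the
hypotheses of `step` and `w * ρ R = G`, `G(0) = 0`, i.e. `single e e * ρ R = z * G` has only
coefficients of index `≥ 1`, and `σ R` has no coefficients of index `≤ -e`. The subleading
coefficient of `∏ (X - C (σ R))` is `- ∑ σ R` (`Polynomial.multiset_prod_X_sub_C_nextCoeff`), hence the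
claim for `κ (nextCoeff (minpoly E R))` (`Polynomial.nextCoeff_map`).
-/

set_option autoImplicit false

namespace Pool.Agent.EXL

open PowerSeries Pool.Agent.EXI

private theorem toC_C {Ω : Subfield ℂ} (a : Ω) :
    toC Ω (HahnSeries.C a) = HahnSeries.C (a : ℂ) := by
  ext n
  rw [toC_coeff]
  show ((HahnSeries.single (0 : ℤ) a).coeff n : ℂ) = (HahnSeries.single (0 : ℤ) (a : ℂ)).coeff n
  rw [HahnSeries.coeff_single, HahnSeries.coeff_single]
  split_ifs <;> rfl

private theorem toC_single {Ω : Subfield ℂ} (e : ℤ) :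
    toC Ω (HahnSeries.single e 1) = HahnSeries.single e 1 := by
  ext n
  rw [toC_coeff, HahnSeries.coeff_single, HahnSeries.coeff_single]
  split_ifs <;> rfl

private theorem th_C (a : ℂ) : th (HahnSeries.C a) = 0 := by
  have h := th_single 0 a
  rw [Int.cast_zero, zero_mul] at h
  have h2 : (HahnSeries.C a : LaurentSeries ℂ) = HahnSeries.single 0 a := rfl
  rw [h2, h]
  exact HahnSeries.single_eq_zero

private theorem cD_C (D : Derivation ℤ ℂ ℂ) (a : ℂ) :
    cD D (HahnSeries.C a) = HahnSeries.C (D a) := cD_single D 0 a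

/-- The order of the residue form at a finite place. -/
private theorem fin_low {α : ℂ} {e : ℕ} (he : 0 < e) (a : LaurentSeries ℂ)
    (hz : (HahnSeries.C α + HahnSeries.single (e : ℤ) 1 : LaurentSeries ℂ) ≠ 0)
    (G : PowerSeries ℂ) (hG : constantCoeff G = 0)
    (h : (HahnSeries.single (e : ℤ) (e : ℂ) / (HahnSeries.C α + HahnSeries.single (e : ℤ) 1)) * a =
      (G : LaurentSeries ℂ)) (i : ℤ) (hi : i ≤ -(e : ℤ)) : a.coeff i = 0 := by
  have he' : (0 : ℤ) < e := by exact_mod_cast he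
  have hec : (e : ℂ) ≠ 0 := by exact_mod_cast he.ne'
  have h1 : HahnSeries.single (e : ℤ) (e : ℂ) * a =
      (HahnSeries.C α + HahnSeries.single (e : ℤ) 1) * (G : LaurentSeries ℂ) := by
    rw [← h]
    field_simp
  have hGc : ∀ j : ℤ, j ≤ 0 → ((G : LaurentSeries ℂ)).coeff j = 0 := by
    intro j hj
    rcases hj.lt_or_eq with hlt | rfl
    · have h0 := PowerSeries.coeff_coe (f := G) j
      rw [if_pos hlt] at h0
      exact h0
    · have := LaurentSeries.coeff_coe_powerSeries G 0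
      rw [Nat.cast_zero] at this
      rw [this, PowerSeries.coeff_zero_eq_constantCoeff_apply, hG]
  have hzc : ∀ j : ℤ, j < 0 →
      (HahnSeries.C α + HahnSeries.single (e : ℤ) 1 : LaurentSeries ℂ).coeff j = 0 := by
    intro j hj
    rw [HahnSeries.coeff_add]
    have h2 : (HahnSeries.C α : LaurentSeries ℂ) = HahnSeries.single 0 α := rfl
    rw [h2, HahnSeries.coeff_single, HahnSeries.coeff_single, if_neg hj.ne, if_neg (by omega),
      add_zero]
  have h3 : ((HahnSeries.C α + HahnSeries.single (e : ℤ) 1) * (G : LaurentSeries ℂ)).coeff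
      (i + e) = 0 := by
    rw [HahnSeries.coeff_mul]
    refine Finset.sum_eq_zero fun ij hij => ?_
    rw [Finset.mem_addAntidiagonal] at hij
    by_cases h4 : ij.1 < 0
    · rw [hzc _ h4, zero_mul]
    · rw [hGc ij.2 (by omega), mul_zero]
  rw [← h1] at h3
  have h5 := HahnSeries.coeff_single_mul_add (r := (e : ℂ)) (x := a) (a := i) (b := (e : ℤ))
  rw [h3] at h5
  rcases mul_eq_zero.1 h5.symm with h6 | h6
  · exact absurd h6 hec
  · exact h6

theorem fin_step (K : Subfield ℂ) {ι : Type} [Fintype ι] (b : ι → ℂ) (hb : ∀ k, b k ≠ 0) {r : ℕ}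
    (P : Submodule ℂ (ι → ℂ)) (hno : ¬ TConcl K b P r) (hy : td (K : Set ℂ) b = ((r + 1 : ℕ) : ℕ))
    (ℓ : Fin (r + 1) → ι → ℂ) (hℓ : ∀ j k, ℓ j k ∈ K)
    (hP : ∀ v : ι → ℂ, v ∈ P ↔ ∀ j, ∑ k, ℓ j k * v k = 0)
    (J : Fin (r + 1) → ι) (hJ : td (K : Set ℂ) (b ∘ J) = ((r + 1 : ℕ) : ℕ))
    (D : Fin (r + 1) → Derivation ℤ ℂ ℂ) (hDK : ∀ l, D l ∈ DerOver (K : Set ℂ))
    (hDt : ∀ i j, D i (b (J j)) = if i = j then b (J j) else 0)
    (R : FJ K b J)
    (hR : (R : ℂ) = Matrix.det (Matrix.of fun j i => ∑ k, ℓ j k * (D i (b k) / b k)))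
    (c : Fin r → Om K ((b ∘ J) ∘ (0 : Fin (r + 1)).succAbove))
    (hc : ∀ l, ((c l : Om K ((b ∘ J) ∘ (0 : Fin (r + 1)).succAbove)) : ℂ) = b (J l.succ))
    (α : Om K ((b ∘ J) ∘ (0 : Fin (r + 1)).succAbove)) (hα : α ≠ 0) :
    ∃ (e : ℕ) (κ : EJ K b J →+* LaurentSeries (Om K ((b ∘ J) ∘ (0 : Fin (r + 1)).succAbove))),
      0 < e ∧ (∀ x : K, κ (algebraMap K _ x) = cst (le_Om K _) x) ∧
      κ ⟨(b ∘ J) 0, IntermediateField.subset_adjoin K _ ⟨0, rfl⟩⟩ =
        HahnSeries.C α + HahnSeries.single (e : ℤ) 1 ∧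
      (∀ l : Fin r, κ ⟨(b ∘ J) l.succ, IntermediateField.subset_adjoin K _ ⟨l.succ, rfl⟩⟩ =
        HahnSeries.C (c l)) ∧
      ∀ i : ℤ, i ≤ -(e : ℤ) → (κ ((minpoly (EJ K b J) R).nextCoeff)).coeff i = 0 := by
  have hind := algInd_of_td K b J hJ
  obtain ⟨κ₀, hκ1, hκ2, hκ3⟩ := fin_base (b ∘ J) hind (le_Om K _) c hc α
  have hfd : FiniteDimensional (EJ K b J) (FJ K b J) := setup_fd K b hy J hJ
  have hac : IsAlgClosed (Om K ((b ∘ J) ∘ (0 : Fin (r + 1)).succAbove)) := isAlgClosed_Om K _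
  obtain ⟨e, he, χ, hχC, hχs, s, hs1, hs2⟩ := emb (E := EJ K b J) (F := FJ K b J)
    (Ω := Om K ((b ∘ J) ∘ (0 : Fin (r + 1)).succAbove)) κ₀ R
  have hk0 : (χ.comp κ₀) ⟨(b ∘ J) 0, IntermediateField.subset_adjoin K _ ⟨0, rfl⟩⟩ =
      HahnSeries.C α + HahnSeries.single (e : ℤ) 1 := by
    rw [RingHom.comp_apply, hκ2, map_add, hχC, hχs]
  have hk1 : ∀ l : Fin r, (χ.comp κ₀) ⟨(b ∘ J) l.succ,
      IntermediateField.subset_adjoin K _ ⟨l.succ, rfl⟩⟩ = HahnSeries.C (c l) := by
    intro l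
    rw [RingHom.comp_apply, hκ3, hχC]
  have hkc : ∀ x : K, (χ.comp κ₀) (algebraMap K _ x) = cst (le_Om K _) x := by
    intro x
    rw [RingHom.comp_apply, hκ1]
    exact hχC _
  have hDE : ∀ i l, D i (b (J l)) ∈ EJ K b J := by
    intro i l
    rw [hDt]
    split_ifs
    · exact IntermediateField.subset_adjoin K _ ⟨l, rfl⟩
    · exact zero_mem _
  choose δ hδ using fun i => setup_der K b hy J hJ (D i) (hDK i) (hDE i)
  have hδt : ∀ l l', δ l (bF K b J (J l')) = if l = l' then bF K b J (J l') else 0 := by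
    intro l l'
    apply Subtype.ext
    rw [hδ, hDt]
    split_ifs <;> rfl
  have hδc : ∀ x ∈ Set.range (cF K b J), ∀ l, δ l x = 0 := by
    rintro _ ⟨x, rfl⟩ l
    apply Subtype.ext
    rw [hδ]
    exact hDK l _ x.2
  have hzne : (HahnSeries.C (α : ℂ) + HahnSeries.single (e : ℤ) 1 : LaurentSeries ℂ) ≠ 0 := by
    intro h0
    have h1 := congrArg (fun f : LaurentSeries ℂ => f.coeff 0) h0
    have h2 : (HahnSeries.C (α : ℂ) : LaurentSeries ℂ) = HahnSeries.single 0 (α : ℂ) := rfl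
    have he' : (0 : ℤ) ≠ e := by
      have : (0 : ℤ) < e := by exact_mod_cast he
      omega
    simp only [HahnSeries.coeff_add, h2, HahnSeries.coeff_single, if_neg he', if_true,
      add_zero, HahnSeries.coeff_zero] at h1
    exact hα (Subtype.ext h1)
  -- the coefficients of `σ R`
  have hσR : ∀ σ ∈ s, ∀ i : ℤ, i ≤ -(e : ℤ) → (σ R).coeff i = 0 := by
    intro σ hσ i hi
    have hσE : ∀ x : EJ K b J, σ (algebraMap (EJ K b J) (FJ K b J) x) = (χ.comp κ₀) x := by
      intro x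
      rw [← hs1 σ hσ]
      rfl
    have hσc : ∀ c : K, σ (cF K b J c) = HahnSeries.C ⟨(c : ℂ), le_Om K _ c.2⟩ := by
      intro c
      rw [hσE, hkc]
      rfl
    have hσ0 : σ (bF K b J (J 0)) = HahnSeries.C α + HahnSeries.single (e : ℤ) 1 := by
      rw [← hk0, ← hσE]
      rfl
    have hσl : ∀ l : Fin r, σ (bF K b J (J l.succ)) = HahnSeries.C (c l) := by
      intro l
      rw [← hk1 l, ← hσE]
      rfl
    set ρ : FJ K b J →+* LaurentSeries ℂ := (toC _).comp σ with hρ
    have hρ0 : ρ (bF K b J (J 0)) = HahnSeries.C (α : ℂ) + HahnSeries.single (e : ℤ) 1 := by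
      rw [hρ, RingHom.comp_apply, hσ0, map_add, toC_C, toC_single]
    have hρl : ∀ l, l ≠ 0 → ρ (bF K b J (J l)) = HahnSeries.C (b (J l)) := by
      intro l hl
      obtain ⟨l, rfl⟩ := Fin.exists_succ_eq.2 hl
      rw [hρ, RingHom.comp_apply, hσl, toC_C, hc]
    have hρc : ∀ x ∈ Set.range (cF K b J), ∃ a : ℂ, a ∈ K ∧ ρ x = HahnSeries.C a := by
      rintro _ ⟨x, rfl⟩
      refine ⟨x, x.2, ?_⟩
      rw [hρ, RingHom.comp_apply, hσc, toC_C]
    set z : LaurentSeries ℂ := HahnSeries.C (α : ℂ) + HahnSeries.single (e : ℤ) 1 with hz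
    set w : LaurentSeries ℂ := HahnSeries.single (e : ℤ) (e : ℂ) / z with hw
    have hth : ∀ x, th (ρ x) = ∑ l, (if l = 0 then w else 0) * ρ (δ l x) := by
      refine der_rho ρ δ (fun l => bF K b J (J l)) (Set.range (cF K b J)) hδt hδc
        (setup_alg K b hy J hJ) th th_add th_mul (fun l => if l = 0 then w else 0) ?_ ?_
      · intro l
        by_cases hl : l = 0
        · subst hl
          rw [if_pos rfl, hρ0, hw, div_mul_cancel₀ _ hzne, hz, th_add, th_C, th_single, zero_add,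
            mul_one, Int.cast_natCast]
        · rw [if_neg hl, zero_mul, hρl l hl, th_C]
      · intro x hx
        obtain ⟨a, _, ha⟩ := hρc x hx
        rw [ha, th_C]
    have hcD : ∀ i, i ≠ 0 → ∀ x, cD (D i) (ρ x) =
        ∑ l, ((if l = i then (1 : LaurentSeries ℂ) else 0) +
          (if l = 0 then HahnSeries.C (D i (α : ℂ)) / z else 0)) * ρ (δ l x) := by
      intro i hi0
      refine der_rho ρ δ (fun l => bF K b J (J l)) (Set.range (cF K b J)) hδt hδc
        (setup_alg K b hy J hJ) (cD (D i)) (cD_add (D i)) (cD_mul (D i))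
        (fun l => (if l = i then (1 : LaurentSeries ℂ) else 0) +
          (if l = 0 then HahnSeries.C (D i (α : ℂ)) / z else 0)) ?_ ?_
      · intro l
        by_cases hl : l = 0
        · subst hl
          have h1 : cD (D i) (HahnSeries.single (e : ℤ) (1 : ℂ)) = 0 := by
            rw [cD_single, Derivation.map_one_eq_zero]
            exact HahnSeries.single_eq_zero
          rw [if_pos rfl, if_neg (Ne.symm hi0), zero_add, hρ0, div_mul_cancel₀ _ hzne, hz, cD_add,
            cD_C, h1, add_zero]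
        · rw [if_neg hl, add_zero, hρl l hl, cD_C, hDt]
          by_cases hli : l = i
          · rw [if_pos hli, if_pos hli.symm, one_mul]
          · rw [if_neg hli, if_neg (Ne.symm hli), zero_mul, map_zero]
      · intro x hx
        obtain ⟨a, haK, ha⟩ := hρc x hx
        rw [ha, cD_C, hDK i a haK, map_zero]
    obtain ⟨G, hG0, hG⟩ := step K b hb P hno hy ℓ hℓ hP J hJ D hDK hDt δ hδ R hR 0 σ hσc
      (Matrix.of fun l i : Fin (r + 1) => if i = 0 then (if l = 0 then w else 0)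
        else (if l = i then (1 : LaurentSeries ℂ) else 0) +
          (if l = 0 then HahnSeries.C (D i (α : ℂ)) / z else 0))
      (fun x => by
        simp only [Matrix.of_apply, if_true]
        exact hth x)
      (fun i hi0 x => by
        simp only [Matrix.of_apply, if_neg hi0]
        exact hcD i hi0 x)
    rw [det_fin] at hG
    have h7 := fin_low he (toC _ (σ R)) hzne G hG0 hG i hi
    rw [toC_coeff] at h7
    exact Subtype.ext h7
  refine ⟨e, χ.comp κ₀, he, hkc, hk0, hk1, fun i hi => ?_⟩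
  rw [← Polynomial.nextCoeff_map (χ.comp κ₀).injective, hs2]
  have h8 : (s.map fun σ => Polynomial.X - Polynomial.C (σ R)).prod =
      ((s.map fun σ => σ R).map fun x => Polynomial.X - Polynomial.C x).prod := by
    rw [Multiset.map_map]
    rfl
  rw [h8, Polynomial.multiset_prod_X_sub_C_nextCoeff]
  have h9 : ∀ (S : Multiset (LaurentSeries (Om K ((b ∘ J) ∘ (0 : Fin (r + 1)).succAbove)))),
      (∀ x ∈ S, x.coeff i = 0) → (S.sum).coeff i = 0 := by
    intro S
    induction S using Multiset.induction_on with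
    | empty =>
      intro _
      rw [Multiset.sum_zero]
      rfl
    | cons a S ih =>
      intro h
      rw [Multiset.sum_cons, HahnSeries.coeff_add, h a (Multiset.mem_cons_self a S),
        ih fun x hx => h x (Multiset.mem_cons_of_mem hx), add_zero]
  rw [HahnSeries.coeff_neg, h9, neg_zero]
  intro x hx
  obtain ⟨σ, hσ, rfl⟩ := Multiset.mem_map.1 hx
  exact hσR σ hσ i hi

end Pool.Agent.EXL
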