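import Pool.Agent.EXI.TFTorS
import Pool.Agent.EXI.TFFinS
import Pool.Agent.EXI.TFEll
import Pool.Agent.EXI.TAFin

/-!
# EXI / TFMain: Theorem T
-/

set_option autoImplicit false

namespace Pool.Agent.EXL

open Pool.Agent.EXI MvPolynomial

lemma trace_eq_zero_of {E F : Type*} [Field E] [Field F] [Algebra E F] [FiniteDimensional E F]
    (x : F) (h : (minpoly E x).nextCoeff = 0) : Algebra.trace E F x = 0 := by
  have h1 := (IntermediateField.adjoin.powerBasis
    (Algebra.IsIntegral.isIntegral (R := E) x)).trace_gen_eq_nextCoeff_minpoly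
  rw [trace_eq_trace_adjoin E x]
  have h2 : (IntermediateField.adjoin.powerBasis
    (Algebra.IsIntegral.isIntegral (R := E) x)).gen = IntermediateField.AdjoinSimple.gen E x :=
    IntermediateField.adjoin.powerBasis_gen _
  rw [h2, IntermediateField.minpoly_gen, h, neg_zero] at h1
  rw [h1, smul_zero]

lemma finrank_map_lev {ι : Type} [Fintype ι] (b : ι → ℂ) (hb : ∀ k, b k ≠ 0)
    (Δ : Submodule ℂ (Derivation ℤ ℂ ℂ)) : Module.finrank ℂ (Δ.map (lev b)) = rk Δ b := by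
  let f : (ι → ℂ) ≃ₗ[ℂ] (ι → ℂ) := LinearEquiv.piCongrRight fun k =>
    LinearEquiv.smulOfUnit (Units.mk0 (b k)⁻¹ (inv_ne_zero (hb k)))
  have h1 : Δ.map (lev b) = (Δ.map (ev b)).map (f : (ι → ℂ) →ₗ[ℂ] (ι → ℂ)) := by
    rw [← Submodule.map_comp]
    congr 1
    ext D k
    change D (b k) / b k = (b k)⁻¹ * D (b k)
    rw [div_eq_inv_mul]
  rw [h1, LinearEquiv.finrank_map_eq]
  rfl

lemma mem_Om (K : Subfield ℂ) {r : ℕ} (τ : Fin r → ℂ) (l : Fin r) : τ l ∈ Om K τ := by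
  intro D hD
  exact hD _ (Or.inr ⟨l, rfl⟩)

/-- The determinant as an element of `K(b)`. -/
lemma exists_RF (K : Subfield ℂ) {ι : Type} [Fintype ι] (b : ι → ℂ) {y : ℕ}
    (hy : td (K : Set ℂ) b = y) (ℓ : Fin y → ι → ℂ) (hℓ : ∀ j k, ℓ j k ∈ K)
    (J : Fin y → ι) (hJ : td (K : Set ℂ) (b ∘ J) = y)
    (D : Fin y → Derivation ℤ ℂ ℂ) (hDK : ∀ l, D l ∈ DerOver (K : Set ℂ))
    (hDt : ∀ i j, D i (b (J j)) = if i = j then b (J j) else 0) :
    ∃ R : FJ K b J,
      (R : ℂ) = Matrix.det (Matrix.of fun j i => ∑ k, ℓ j k * (D i (b k) / b k)) := by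
  have hδ : ∀ i, ∃ δ : Derivation ℤ (FJ K b J) (FJ K b J), ∀ x : FJ K b J,
      ((δ x : FJ K b J) : ℂ) = D i (x : ℂ) := by
    intro i
    refine setup_der K b hy J hJ (D i) (hDK i) fun l => ?_
    rw [hDt]
    split_ifs
    · exact IntermediateField.subset_adjoin K _ ⟨l, rfl⟩
    · exact zero_mem _
  choose δ hδ using hδ
  refine ⟨Matrix.det (Matrix.of fun j i => ∑ k, cF K b J ⟨ℓ j k, hℓ j k⟩ *
    (δ i (bF K b J k) / bF K b J k)), ?_⟩
  have h1 := RingHom.map_det (FJ K b J).val.toRingHom (Matrix.of fun j i =>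
    ∑ k, cF K b J ⟨ℓ j k, hℓ j k⟩ * (δ i (bF K b J k) / bF K b J k))
  refine Eq.trans (show _ = _ from h1) ?_
  congr 1
  ext j i
  simp only [RingHom.mapMatrix_apply, Matrix.map_apply, Matrix.of_apply, map_sum, map_mul,
    map_div₀]
  refine Finset.sum_congr rfl fun k _ => ?_
  have h2 := hδ i (bF K b J k)
  change ℓ j k * (((δ i (bF K b J k) : FJ K b J) : ℂ) / b k) = _
  rw [h2]

theorem thmT' (K : Subfield ℂ) (hK : IsAlgClosed K) {ι : Type} [Fintype ι] (b : ι → ℂ)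
    (hb : ∀ j, b j ≠ 0) (r : ℕ) (hr : td (K : Set ℂ) b = r + 1) (P : Submodule ℂ (ι → ℂ))
    (hPs : Stab (DerOver (K : Set ℂ)) P)
    (hc : IsCompl P ((DerOver (K : Set ℂ)).map (lev b))) : TConcl K b P r := by
  classical
  by_contra hno
  have hy : td (K : Set ℂ) b = ((r + 1 : ℕ) : ℕ) := hr
  obtain ⟨ℓ, hℓ, hP⟩ := exists_ell K hK P _ hPs hc (r + 1) (by
    rw [finrank_map_lev b hb]; exact hr)
  have hD0 : ∀ J : Fin (r + 1) → ι, ∃ D : Fin (r + 1) → Derivation ℤ ℂ ℂ,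
      td (K : Set ℂ) (b ∘ J) = ((r + 1 : ℕ) : ℕ) → (∀ i, D i ∈ DerOver (K : Set ℂ)) ∧
      ∀ i j, D i (b (J j)) = if i = j then b (J j) else 0 := by
    intro J
    by_cases h : td (K : Set ℂ) (b ∘ J) = ((r + 1 : ℕ) : ℕ)
    · obtain ⟨D, hD⟩ := exists_D K b hb J h
      exact ⟨D, fun _ => hD⟩
    · exact ⟨fun _ => 0, fun h' => absurd h' h⟩
  choose D hD using hD0
  have hRF : ∀ J : Fin (r + 1) → ι, ∃ R : FJ K b J, td (K : Set ℂ) (b ∘ J) = ((r + 1 : ℕ) : ℕ) →
      (R : ℂ) = Matrix.det (Matrix.of fun j i => ∑ k, ℓ j k * (D J i (b k) / b k)) := by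
    intro J
    by_cases h : td (K : Set ℂ) (b ∘ J) = ((r + 1 : ℕ) : ℕ)
    · obtain ⟨R, hR⟩ := exists_RF K b hy ℓ hℓ J h (D J) (hD J h).1 (hD J h).2
      exact ⟨R, fun _ => hR⟩
    · exact ⟨0, fun h' => absurd h' h⟩
  choose RF hRF using hRF
  have hfd : ∀ J : Fin (r + 1) → ι, td (K : Set ℂ) (b ∘ J) = ((r + 1 : ℕ) : ℕ) →
      FiniteDimensional (EJ K b J) (FJ K b J) := fun J h => setup_fd K b hy J h
  have hpos : ∀ J : Fin (r + 1) → ι, td (K : Set ℂ) (b ∘ J) = ((r + 1 : ℕ) : ℕ) →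
      0 < (minpoly (EJ K b J) (RF J)).natDegree := by
    intro J h
    have := hfd J h
    exact minpoly.natDegree_pos (Algebra.IsIntegral.isIntegral (R := EJ K b J) (RF J))
  have hmon : ∀ J : Fin (r + 1) → ι, td (K : Set ℂ) (b ∘ J) = ((r + 1 : ℕ) : ℕ) →
      (minpoly (EJ K b J) (RF J)).Monic := by
    intro J h
    have := hfd J h
    exact minpoly.monic (Algebra.IsIntegral.isIntegral (R := EJ K b J) (RF J))
  -- parameters of the degenerations
  have hcex : ∀ (J : Fin (r + 1) → ι) (i₀ : Fin (r + 1)),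
      ∃ c : Fin (r + 1) → Om K ((b ∘ J) ∘ i₀.succAbove), c i₀ = 1 ∧
        ∀ l, l ≠ i₀ → ((c l : Om K ((b ∘ J) ∘ i₀.succAbove)) : ℂ) = b (J l) := by
    intro J i₀
    refine ⟨fun l => if h : l = i₀ then 1 else ⟨b (J l), ?_⟩, ?_, ?_⟩
    · obtain ⟨z, hz⟩ := Fin.exists_succAbove_eq h
      have := mem_Om K ((b ∘ J) ∘ i₀.succAbove) z
      simp only [Function.comp_apply, hz] at this
      exact this
    · simp
    · intro l hl
      simp [hl]
  have htr : ∀ J : Fin (r + 1) → ι, td (K : Set ℂ) (b ∘ J) = ((r + 1 : ℕ) : ℕ) →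
      Algebra.trace (EJ K b J) (FJ K b J) (RF J) = 0 := by
    intro J h
    have := hfd J h
    apply trace_eq_zero_of
    obtain ⟨c, hc0, hc1⟩ := hcex J 0
    have hnext : (minpoly (EJ K b J) (RF J)).nextCoeff =
        (minpoly (EJ K b J) (RF J)).coeff ((minpoly (EJ K b J) (RF J)).natDegree - 1) :=
      Polynomial.nextCoeff_of_natDegree_pos (hpos J h)
    refine tr_zero (b ∘ J) (algInd_of_td K b J h) (isAlgClosed_Om K _) (le_Om K _)
      (fun l => c l.succ) (fun l => hc1 _ (Fin.succ_ne_zero l)) _ ?_ ?_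
    · intro α hα
      obtain ⟨e, κ, he, h1, h2, h3, h4⟩ := fin_step K b hb P hno hy ℓ hℓ hP J h (D J) (hD J h).1
        (hD J h).2 (RF J) (hRF J h) (fun l => c l.succ) (fun l => hc1 _ (Fin.succ_ne_zero l)) α hα
      exact ⟨e, κ, he, h1, h2, h3, h4⟩
    · intro s hs
      obtain ⟨e, κ, he, h1, h2, h3⟩ := tor_step K b hb P hno hy ℓ hℓ hP J h (D J) (hD J h).1
        (hD J h).2 (RF J) (hRF J h) 0 c hc0 hc1 (fun l => if l = 0 then s else 0) (by
          rcases hs with rfl | rfl <;> simp)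
      refine ⟨e, κ, he, h1, ?_, ?_, ?_⟩
      · rw [h2 0, hc0, if_pos rfl]
      · intro l
        rw [h2 l.succ, if_neg (Fin.succ_ne_zero l), mul_zero]
        rfl
      · intro i hi
        rw [hnext]
        exact h3 _ (by have := hpos J h; omega) i hi
  -- the polynomial relation
  have hneg : ∀ J : Fin (r + 1) → ι, td (K : Set ℂ) (b ∘ J) = ((r + 1 : ℕ) : ℕ) → ∃ d : ℕ, 1 ≤ d ∧
      ∃ (N : Fin d → MvPolynomial (Fin (r + 1)) K) (G : MvPolynomial (Fin (r + 1)) K), G ≠ 0 ∧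
        aeval (b ∘ J) G * (RF J : ℂ) ^ d + ∑ i, aeval (b ∘ J) (N i) * (RF J : ℂ) ^ (i : ℕ) = 0 ∧
        ∀ m : Fin (r + 1) → ℤ, m ≠ 0 → ∃ s' ∈ G.support, ∀ i, ∀ s ∈ (N i).support,
          ∑ i, m i * (s' i : ℤ) < ∑ i, m i * (s i : ℤ) := by
    intro J h
    have := hfd J h
    have hind := algInd_of_td K b J h
    obtain ⟨N, G, hG, hN, hm⟩ := hneg_of (b ∘ J) hind (minpoly (EJ K b J) (RF J)) (by
      intro m hm
      obtain ⟨i₀, hi₀⟩ := Function.ne_iff.1 hm
      obtain ⟨c, hc0, hc1⟩ := hcex J i₀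
      obtain ⟨e, κ, he, h1, h2, h3⟩ := tor_step K b hb P hno hy ℓ hℓ hP J h (D J) (hD J h).1
        (hD J h).2 (RF J) (hRF J h) i₀ c hc0 hc1 m hi₀
      refine ⟨i₀, _, le_Om K _, c, e, κ, he, hi₀, hc0, ?_, h1, h2, h3⟩
      have h4 : (fun l : {l : Fin (r + 1) // l ≠ i₀} =>
          ((c l : Om K ((b ∘ J) ∘ i₀.succAbove)) : ℂ)) = (b ∘ J) ∘ Subtype.val := by
        funext l
        exact hc1 l l.2
      rw [h4]
      exact hind.comp _ Subtype.val_injective)
    refine ⟨_, hpos J h, N, G, hG, ?_, hm⟩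
    have h1 : Polynomial.aeval (RF J) (minpoly (EJ K b J) (RF J)) = 0 := minpoly.aeval _ _
    rw [Polynomial.aeval_eq_sum_range, Finset.sum_range_succ] at h1
    have h2 := congrArg (fun z : FJ K b J => (z : ℂ)) h1
    simp only [(hmon J h).coeff_natDegree, one_smul] at h2
    have h3 : ((∑ i ∈ Finset.range (minpoly (EJ K b J) (RF J)).natDegree,
        (minpoly (EJ K b J) (RF J)).coeff i • (RF J) ^ i : FJ K b J) : ℂ) =
        ∑ i : Fin (minpoly (EJ K b J) (RF J)).natDegree,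
        (((minpoly (EJ K b J) (RF J)).coeff i : EJ K b J) : ℂ) * (RF J : ℂ) ^ (i : ℕ) := by
      rw [Finset.sum_range]
      push_cast
      refine Finset.sum_congr rfl fun i _ => ?_
      rw [Algebra.smul_def]
      push_cast
      rfl
    have h4 : (∑ i : Fin (minpoly (EJ K b J) (RF J)).natDegree,
        (((minpoly (EJ K b J) (RF J)).coeff i : EJ K b J) : ℂ) * (RF J : ℂ) ^ (i : ℕ)) +
        (RF J : ℂ) ^ (minpoly (EJ K b J) (RF J)).natDegree = 0 := by
      rw [← h3]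
      have := h2
      push_cast at this ⊢
      exact this
    calc _ = aeval (b ∘ J) G * ((∑ i : Fin (minpoly (EJ K b J) (RF J)).natDegree,
        (((minpoly (EJ K b J) (RF J)).coeff i : EJ K b J) : ℂ) * (RF J : ℂ) ^ (i : ℕ)) +
        (RF J : ℂ) ^ (minpoly (EJ K b J) (RF J)).natDegree) := by
          rw [mul_add, Finset.mul_sum, add_comm]
          congr 1
          refine Finset.sum_congr rfl fun i _ => ?_
          rw [← hN i]
          ring
      _ = 0 := by rw [h4, mul_zero]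
  have hmain := tana K b hb (r + 1) (Nat.succ_le_succ (Nat.zero_le r)) hy ℓ hℓ
    (fun J => (RF J : ℂ)) (by
      intro J h D' hD'K hD't
      have h1 := R_change K b hb hy J h (D J) D' (hD J h).1 hD'K hD't ℓ
      have h2 : (Matrix.det (fun j i => D J i (b (J j)) / b (J j)) : ℂ) = 1 := by
        have : (Matrix.of fun j i => D J i (b (J j)) / b (J j)) =
            (1 : Matrix (Fin (r + 1)) (Fin (r + 1)) ℂ) := by
          ext j i
          rw [Matrix.of_apply, (hD J h).2 i j, Matrix.one_apply]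
          by_cases hij : i = j
          · rw [if_pos hij, if_pos hij.symm, div_self (hb _)]
          · rw [if_neg hij, if_neg (Ne.symm hij), zero_div]
        exact (congrArg Matrix.det this).trans Matrix.det_one
      rw [h2, mul_one] at h1
      exact (hRF J h).trans h1)
    (fun J h => ⟨RF J, rfl, htr J h⟩) hneg
  obtain ⟨J, hJ⟩ := exists_J K b hy
  have h0 := hmain J hJ
  refine det_of_compl P _ ℓ hP hc (fun i => lev b (D J i)) ?_ ?_ ((hRF J hJ).symm.trans h0)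
  · rw [Fintype.linearIndependent_iff]
    intro g hg i
    have h1 := congrFun hg (J i)
    rw [Finset.sum_apply, Pi.zero_apply, Finset.sum_eq_single i] at h1
    · rw [Pi.smul_apply, lev_apply, (hD J hJ).2, if_pos rfl, div_self (hb _), smul_eq_mul,
        mul_one] at h1
      exact h1
    · intro l _ hl
      rw [Pi.smul_apply, lev_apply, (hD J hJ).2, if_neg hl, zero_div, smul_zero]
    · intro hi
      exact absurd (Finset.mem_univ i) hi
  · intro i
    exact Submodule.mem_map_of_mem ((hD J hJ).1 i)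

end Pool.Agent.EXL
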