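import Pool.Agent.Helper33.FiniteExt

/-!
# EXI / TFPui: the formal Newton-Puiseux theorem

Wanted: `pui`. `Ω` algebraically closed of characteristic zero, `M` a finite extension of `Ω((s))`.
There is an embedding `χ` of `M` in `Ω((ζ))` which is the identity on `Ω` and maps `s` to `ζ^e`.

PROOF. Let `S` be the integral closure of `Ω⟦X⟧` in `M` (`algebra Ω⟦X⟧ M` through
`Ω⟦X⟧ → Ω((X)) → M`; `M/Ω((X))` is finite separable, so `S` is a Dedekind domain finite over `Ω⟦X⟧`
with fraction field `M`: `integralClosure.isDedekindDomain`, `IsIntegralClosure.finite`).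
`nonempty_algEquiv_of_finite` (Helper33/FiniteExt) gives `f : S ≃ₐ[Ω] Ω⟦X⟧`. The element
`f (X_S)`, `X_S` the image of `X`, is not zero and not a unit (`X_mem_of_isMaximal`), so it is
`X^e * w` with `e ≥ 1` and `w` a unit of `Ω⟦X⟧`. Choose `v ∈ Ω⟦X⟧` with `v^e = w` (the constant
coefficient has an `e`-th root in `Ω`; Hensel's lemma `HenselianLocalRing` for `Ω⟦X⟧`, or directly)
and put `π = X v`, again a uniformizer of `Ω⟦X⟧`, with `f (X_S) = π^e`. The proof of
`nonempty_algEquiv_powerSeries` (Helper33/Cohen; the isomorphism constructed there maps the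
chosen uniformizer `π` to `X`: copy the proof and add this statement, or compose with the
substitution inverse) gives an `Ω`-algebra automorphism `g` of `Ω⟦X⟧` with `g π = X`. Then
`g ∘ f : S → Ω⟦X⟧` maps `X_S` to `X^e`; extend it to fraction fields (`IsFractionRing.lift`, injective)
`M = Frac S → Ω((X))`.
-/

set_option autoImplicit false

namespace Pool.Agent.EXL

open PowerSeries

private theorem pui_cohen {k S : Type*} [Field k] [CommRing S] [IsDomain S] [Algebra k S] (π : S) (hπ0 : π ≠ 0)
    (hres : ∀ s : S, ∃ c : k, π ∣ s - algebraMap k S c)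
    (hunit : ∀ c : k, π ∣ algebraMap k S c → c = 0)
    (hHaus : ∀ s : S, (∀ n : ℕ, π ^ n ∣ s) → s = 0)
    (hcomp : ∀ a : ℕ → k, ∃ s : S, ∀ N : ℕ,
      π ^ N ∣ s - ∑ i ∈ Finset.range N, algebraMap k S (a i) * π ^ i) :
    ∃ f : S ≃ₐ[k] k⟦X⟧, f π = X := by
  classical
  choose c hc using hres
  choose nx hnx using hc
  -- s = c s + π * nx s
  have hs : ∀ s, s = algebraMap k S (c s) + π * nx s := fun s => by
    linear_combination hnx s
  -- uniqueness
  have huniq : ∀ (s : S) (a : k) (y : S), s = algebraMap k S a + π * y → c s = a ∧ nx s = y := by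
    intro s a y h
    have h1 := hs s
    have h2 : algebraMap k S (c s - a) = π * (y - nx s) := by
      rw [map_sub]
      linear_combination h - h1
    have h3 : c s - a = 0 := hunit _ ⟨_, h2⟩
    refine ⟨sub_eq_zero.mp h3, ?_⟩
    rw [h3, map_zero] at h2
    have h4 := (mul_eq_zero.mp h2.symm).resolve_left hπ0
    exact (sub_eq_zero.mp h4).symm
  have hadd : ∀ s s', c (s + s') = c s + c s' ∧ nx (s + s') = nx s + nx s' := by
    intro s s'
    apply huniq
    rw [map_add]
    linear_combination hs s + hs s'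
  have hmul : ∀ s s', c (s * s') = c s * c s' ∧ nx (s * s') =
      algebraMap k S (c s) * nx s' + algebraMap k S (c s') * nx s + π * (nx s * nx s') := by
    intro s s'
    apply huniq
    rw [map_mul]
    have h1 := hs s
    have h2 := hs s'
    calc s * s' = (algebraMap k S (c s) + π * nx s) * (algebraMap k S (c s') + π * nx s') := by
          rw [← h1, ← h2]
      _ = _ := by ring
  have hconst : ∀ a : k, c (algebraMap k S a) = a ∧ nx (algebraMap k S a) = 0 := by
    intro a
    apply huniq
    ring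
  have hpi : ∀ s, c (π * s) = 0 ∧ nx (π * s) = s := by
    intro s
    apply huniq
    rw [map_zero, zero_add]
  have hscal : ∀ (a : k) s, c (algebraMap k S a * s) = a * c s ∧
      nx (algebraMap k S a * s) = algebraMap k S a * nx s := by
    intro a s
    apply huniq
    rw [map_mul]
    have h1 := hs s
    calc algebraMap k S a * s = algebraMap k S a * (algebraMap k S (c s) + π * nx s) := by
          rw [← h1]
      _ = _ := by ring
  let ψ : S → k⟦X⟧ := fun s => PowerSeries.mk fun n => c (nx^[n] s)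
  have hψ0 : ∀ s, coeff 0 (ψ s) = c s := fun s => by simp [ψ]
  have hψs : ∀ s n, coeff (n + 1) (ψ s) = coeff n (ψ (nx s)) := fun s n => by
    simp [ψ]
  have hψrec : ∀ s, ψ s = C (c s) + X * ψ (nx s) := by
    intro s
    ext n
    cases n with
    | zero => rw [hψ0]; simp
    | succ n => rw [hψs]; simp [coeff_succ_X_mul, coeff_succ_C]
  have hψadd : ∀ s s', ψ (s + s') = ψ s + ψ s' := by
    intro s s'
    ext n
    induction n generalizing s s' with
    | zero => rw [map_add, hψ0, hψ0, hψ0, (hadd s s').1]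
    | succ n ih => rw [map_add, hψs, hψs, hψs, (hadd s s').2, ih, map_add]
  have hψscal : ∀ (a : k) s, ψ (algebraMap k S a * s) = C a * ψ s := by
    intro a s
    ext n
    induction n generalizing s with
    | zero => rw [hψ0, (hscal a s).1]; simp [hψ0]
    | succ n ih => rw [hψs, (hscal a s).2, ih]; simp [hψs]
  have hψpi : ∀ s, ψ (π * s) = X * ψ s := by
    intro s
    rw [hψrec, (hpi s).1, (hpi s).2, map_zero, zero_add]
  have hψmul : ∀ s s', ψ (s * s') = ψ s * ψ s' := by
    have key : ∀ n, ∀ m ≤ n, ∀ s s', coeff m (ψ (s * s')) = coeff m (ψ s * ψ s') := by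
      intro n
      induction n with
      | zero =>
        intro m hm s s'
        obtain rfl : m = 0 := by omega
        rw [hψ0, (hmul s s').1, coeff_mul]
        simp [hψ0]
      | succ n ih =>
        intro m hm s s'
        rcases Nat.lt_or_ge m (n + 1) with h | h
        · exact ih m (by omega) s s'
        obtain rfl : m = n + 1 := by omega
        rw [hψs, (hmul s s').2, hψadd, hψadd, hψscal, hψscal, hψpi]
        have h2 : ψ s * ψ s' = C (c s * c s') + X * (C (c s) * ψ (nx s') + C (c s') * ψ (nx s)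
            + X * (ψ (nx s) * ψ (nx s'))) := by
          rw [hψrec s, hψrec s', map_mul]
          ring
        have h3 : coeff (n + 1) (ψ s * ψ s') = coeff n (C (c s) * ψ (nx s') +
            C (c s') * ψ (nx s) + X * (ψ (nx s) * ψ (nx s'))) := by
          rw [h2, map_add, coeff_succ_X_mul, coeff_succ_C, zero_add]
        rw [h3, map_add, map_add (coeff n) _ (X * _)]
        congr 1
        cases n with
        | zero => simp
        | succ n => rw [coeff_succ_X_mul, coeff_succ_X_mul, ih n (by omega)]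
    intro s s'
    ext n
    exact key n n le_rfl s s'
  have hψalg : ∀ a : k, ψ (algebraMap k S a) = C a := by
    intro a
    have h0 : ψ 0 = 0 := by
      have := hψadd 0 0
      rw [add_zero] at this
      exact left_eq_add.mp this
    rw [hψrec, (hconst a).1, (hconst a).2, h0, mul_zero, add_zero]
  have hψsum : ∀ (a : ℕ → k) (N : ℕ) (y : S),
      ψ ((∑ i ∈ Finset.range N, algebraMap k S (a i) * π ^ i) + π ^ N * y) =
        (∑ i ∈ Finset.range N, C (a i) * X ^ i) + X ^ N * ψ y := by
    intro a N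
    induction N generalizing a with
    | zero => intro y; simp
    | succ N ih =>
      intro y
      have h1 : (∑ i ∈ Finset.range (N + 1), algebraMap k S (a i) * π ^ i) + π ^ (N + 1) * y =
          algebraMap k S (a 0) + π * ((∑ i ∈ Finset.range N,
            algebraMap k S (a (i + 1)) * π ^ i) + π ^ N * y) := by
        rw [Finset.sum_range_succ', mul_add, Finset.mul_sum, pow_zero, mul_one]
        have : ∀ i, algebraMap k S (a (i + 1)) * π ^ (i + 1) =
            π * (algebraMap k S (a (i + 1)) * π ^ i) := fun i => by ring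
        simp only [this]
        ring
      rw [h1, hψadd, hψalg, hψpi, ih (fun i => a (i + 1)), Finset.sum_range_succ', mul_add,
        Finset.mul_sum, pow_zero, mul_one]
      have : ∀ i, C (a (i + 1)) * X ^ (i + 1) =
            (X : k⟦X⟧) * (C (a (i + 1)) * X ^ i) := fun i => by ring
      simp only [this]
      ring
  let F : S →ₐ[k] k⟦X⟧ :=
    { toFun := ψ
      map_one' := by
        have := hψalg 1
        rwa [map_one, map_one] at this
      map_mul' := hψmul
      map_zero' := by
        have := hψalg 0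
        rwa [map_zero, map_zero] at this
      map_add' := hψadd
      commutes' := fun a => by
        rw [hψalg]
        rfl }
  refine ⟨AlgEquiv.ofBijective F ⟨?_, ?_⟩, ?_⟩
  rotate_left 2
  · change ψ π = X
    have h1 := hψpi 1
    have h2 := hψalg 1
    rw [map_one, map_one] at h2
    rw [mul_one, h2, mul_one] at h1
    exact h1
  · rw [injective_iff_map_eq_zero]
    intro s hs0
    have hs0' : ψ s = 0 := hs0
    apply hHaus
    intro n
    have key : ∀ n, ∀ s, ψ s = 0 → ∃ y, s = π ^ n * y ∧ ψ y = 0 := by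
      intro n
      induction n with
      | zero => intro s h; exact ⟨s, by simp, h⟩
      | succ n ih =>
        intro s h
        have h1 : c s = 0 := by rw [← hψ0, h, map_zero]
        have h2 : ψ (nx s) = 0 := by
          ext m
          rw [← hψs, h, map_zero, map_zero]
        obtain ⟨y, hy, hy2⟩ := ih _ h2
        refine ⟨y, ?_, hy2⟩
        rw [hs s, h1, map_zero, zero_add, hy]
        ring
    obtain ⟨y, hy, -⟩ := key n s hs0'
    exact ⟨y, hy⟩
  · intro f
    obtain ⟨s, hs⟩ := hcomp fun i => coeff i f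
    refine ⟨s, ?_⟩
    change ψ s = f
    ext n
    obtain ⟨y, hy⟩ := hs (n + 1)
    have h1 : s = (∑ i ∈ Finset.range (n + 1), algebraMap k S (coeff i f) * π ^ i) +
        π ^ (n + 1) * y := by linear_combination hy
    rw [h1, hψsum, map_add, coeff_X_pow_mul', if_neg (by omega), add_zero, map_sum]
    rw [Finset.sum_eq_single n]
    · simp
    · intro b _ hb
      rw [coeff_C_mul, coeff_X_pow, if_neg (Ne.symm hb), mul_zero]
    · intro h
      simp at h


/-- an automorphism of `k⟦X⟧` mapping a given uniformizer to `X` -/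
private theorem pui_auto {k : Type*} [Field k] (v : k⟦X⟧) (hv : IsUnit v) :
    ∃ g : k⟦X⟧ ≃ₐ[k] k⟦X⟧, g (X * v) = X := by
  have hass : ∀ n : ℕ, Associated ((X : k⟦X⟧) ^ n) ((X * v) ^ n) := by
    intro n
    obtain ⟨u, rfl⟩ := hv
    exact Associated.pow_pow ⟨u, rfl⟩
  have hd : ∀ (n : ℕ) (s : k⟦X⟧), (X * v) ^ n ∣ s ↔ X ^ n ∣ s := fun n s =>
    ((hass n).dvd_iff_dvd_left).symm
  have hd1 : ∀ s : k⟦X⟧, X * v ∣ s ↔ X ∣ s := by
    intro s
    have := hd 1 s
    rwa [pow_one, pow_one] at this
  refine pui_cohen (X * v) (mul_ne_zero X_ne_zero hv.ne_zero) ?_ ?_ ?_ ?_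
  · intro s
    refine ⟨constantCoeff s, ?_⟩
    rw [hd1, PowerSeries.X_dvd_iff]
    simp [PowerSeries.algebraMap_apply]
  · intro c hc
    rw [hd1, PowerSeries.X_dvd_iff] at hc
    simpa using hc
  · intro s hs
    ext n
    have := (hd (n + 1) s).1 (hs (n + 1))
    rw [PowerSeries.X_pow_dvd_iff] at this
    rw [this n (Nat.lt_succ_self n), map_zero]
  · intro a
    have hmemS : ∀ (n : ℕ) (s : k⟦X⟧),
        s ∈ ((Ideal.span {(X : k⟦X⟧)}) ^ n • ⊤ : Submodule k⟦X⟧ k⟦X⟧) ↔ X ^ n ∣ s := by
      intro n s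
      rw [smul_eq_mul, Ideal.mul_top, Ideal.span_singleton_pow, Ideal.mem_span_singleton]
    obtain ⟨s, hs⟩ := IsPrecomplete.prec' (I := Ideal.span {(X : k⟦X⟧)}) (M := k⟦X⟧)
      (fun n => ∑ i ∈ Finset.range n, algebraMap k k⟦X⟧ (a i) * (X * v) ^ i) (by
        intro m n hmn
        rw [SModEq.sub_mem, hmemS, ← hd]
        rw [← Finset.sum_range_add_sum_Ico _ hmn]
        rw [sub_add_cancel_left, dvd_neg]
        refine Finset.dvd_sum fun i hi => ?_
        rw [Finset.mem_Ico] at hi
        exact Dvd.dvd.mul_left (pow_dvd_pow _ hi.1) _)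
    refine ⟨s, fun N => ?_⟩
    have h1 := hs N
    rw [SModEq.sub_mem, hmemS, ← hd] at h1
    rw [← dvd_neg, neg_sub]
    exact h1

/-- roots of units -/
private theorem pui_root {k : Type*} [Field k] [IsAlgClosed k] [CharZero k] (w : k⟦X⟧)
    (hw : IsUnit w) {e : ℕ} (he : 0 < e) : ∃ v : k⟦X⟧, IsUnit v ∧ v ^ e = w := by
  obtain ⟨c, hc⟩ := IsAlgClosed.exists_pow_nat_eq (constantCoeff w) he
  have hw0 : constantCoeff w ≠ 0 := (hw.map constantCoeff).ne_zero
  have hc0 : c ≠ 0 := by
    rintro rfl
    rw [zero_pow he.ne'] at hc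
    exact hw0 hc.symm
  have hH : HenselianRing k⟦X⟧ (Ideal.span {(X : k⟦X⟧)}) := inferInstance
  have hmem : ∀ s : k⟦X⟧, s ∈ Ideal.span {(X : k⟦X⟧)} ↔ constantCoeff s = 0 := by
    intro s
    rw [Ideal.mem_span_singleton, PowerSeries.X_dvd_iff]
  have hmonic : (Polynomial.X ^ e - Polynomial.C w : Polynomial k⟦X⟧).Monic :=
    Polynomial.monic_X_pow_sub_C w he.ne'
  obtain ⟨v, hv, hvc⟩ := hH.is_henselian _ hmonic (C c) (by
    rw [hmem]
    simp [hc]) (by
    have hu : IsUnit (Polynomial.eval (C c)
        (Polynomial.derivative (Polynomial.X ^ e - Polynomial.C w : Polynomial k⟦X⟧))) := by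
      rw [PowerSeries.isUnit_iff_constantCoeff]
      have he0 : (e : k) ≠ 0 := by exact_mod_cast he.ne'
      simp [Polynomial.derivative_X_pow, he0, hc0]
    exact hu.map _)
  have hve : v ^ e = w := by
    have : Polynomial.eval v (Polynomial.X ^ e - Polynomial.C w : Polynomial k⟦X⟧) = 0 := hv
    simpa [sub_eq_zero] using this
  refine ⟨v, ?_, hve⟩
  rw [← hve] at hw
  exact (isUnit_pow_iff he.ne').1 hw

theorem pui (Ω : Type) [Field Ω] [IsAlgClosed Ω] [CharZero Ω] (M : Type) [Field M]
    [Algebra (LaurentSeries Ω) M] [FiniteDimensional (LaurentSeries Ω) M] :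
    ∃ (e : ℕ) (_ : 0 < e) (χ : M →+* LaurentSeries Ω),
      (∀ c : Ω, χ (algebraMap (LaurentSeries Ω) M (HahnSeries.C c)) = HahnSeries.C c) ∧
      χ (algebraMap (LaurentSeries Ω) M (HahnSeries.single 1 1)) = HahnSeries.single (e : ℤ) 1 := by
  classical
  have hchar : CharZero (LaurentSeries Ω) :=
    charZero_of_injective_ringHom (f := (HahnSeries.C : Ω →+* LaurentSeries Ω))
      (HahnSeries.C_injective)
  let aR : Algebra Ω⟦X⟧ M :=
    ((algebraMap (LaurentSeries Ω) M).comp (algebraMap Ω⟦X⟧ (LaurentSeries Ω))).toAlgebra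
  have tow : IsScalarTower Ω⟦X⟧ (LaurentSeries Ω) M := IsScalarTower.of_algebraMap_eq fun _ => rfl
  let aO : Algebra Ω M := ((algebraMap Ω⟦X⟧ M).comp (algebraMap Ω Ω⟦X⟧)).toAlgebra
  have tow2 : IsScalarTower Ω Ω⟦X⟧ M := IsScalarTower.of_algebraMap_eq fun _ => rfl
  have hsep : Algebra.IsSeparable (LaurentSeries Ω) M := inferInstance
  let S := integralClosure Ω⟦X⟧ M
  have hded : IsDedekindDomain S := integralClosure.isDedekindDomain Ω⟦X⟧ (LaurentSeries Ω) M
  have hfin : Module.Finite Ω⟦X⟧ S := IsIntegralClosure.finite Ω⟦X⟧ (LaurentSeries Ω) M S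
  have hfrac : IsFractionRing S M :=
    integralClosure.isFractionRing_of_finite_extension (LaurentSeries Ω) M
  have hinjM : Function.Injective (algebraMap Ω⟦X⟧ M) := by
    change Function.Injective ((algebraMap (LaurentSeries Ω) M) ∘
      (algebraMap Ω⟦X⟧ (LaurentSeries Ω)))
    exact (algebraMap (LaurentSeries Ω) M).injective.comp
      (IsFractionRing.injective Ω⟦X⟧ (LaurentSeries Ω))
  have hinjS : Function.Injective (algebraMap Ω⟦X⟧ S) := by
    intro a b hab
    apply hinjM
    have := congrArg (algebraMap S M) hab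
    rwa [← IsScalarTower.algebraMap_apply, ← IsScalarTower.algebraMap_apply] at this
  have hfaith : FaithfulSMul Ω⟦X⟧ S := (faithfulSMul_iff_algebraMap_injective Ω⟦X⟧ S).2 hinjS
  obtain ⟨f⟩ := Pool.Agent.Helper33.nonempty_algEquiv_of_finite Ω S
  set t : S := algebraMap Ω⟦X⟧ S X with ht
  have ht0 : t ≠ 0 := by
    rw [ht, Ne, map_eq_zero_iff _ hinjS]
    exact X_ne_zero
  have htu : ¬ IsUnit t := by
    obtain ⟨P, hP⟩ := Ideal.exists_maximal S
    intro hu
    exact hP.ne_top (Ideal.eq_top_of_isUnit_mem _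
      (Pool.Agent.Helper33.X_mem_of_isMaximal Ω P) hu)
  have hft0 : f t ≠ 0 := by
    rw [Ne, map_eq_zero_iff _ f.injective]
    exact ht0
  obtain ⟨e, w, hw⟩ := IsDiscreteValuationRing.eq_unit_mul_pow_irreducible hft0
    (PowerSeries.X_irreducible (R := Ω))
  have he : 0 < e := by
    rcases Nat.eq_zero_or_pos e with h | h
    · exfalso
      subst h
      apply htu
      rw [pow_zero, mul_one] at hw
      have : IsUnit (f t) := hw ▸ w.isUnit
      have h2 := this.map f.symm
      simpa using h2
    · exact h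
  obtain ⟨v, hvu, hv⟩ := pui_root (w : Ω⟦X⟧) w.isUnit he
  obtain ⟨g, hg⟩ := pui_auto v hvu
  have hgft : g (f t) = X ^ e := by
    have : f t = (X * v) ^ e := by
      rw [hw, mul_pow, hv, mul_comm]
    rw [this, map_pow, hg]
  let φ : S →+* LaurentSeries Ω :=
    (algebraMap Ω⟦X⟧ (LaurentSeries Ω)).comp ((g : Ω⟦X⟧ →+* Ω⟦X⟧).comp (f : S →+* Ω⟦X⟧))
  have hφ : ∀ s, φ s = algebraMap Ω⟦X⟧ (LaurentSeries Ω) (g (f s)) := fun _ => rfl
  have hφinj : Function.Injective φ := by
    intro a b hab
    rw [hφ, hφ] at hab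
    exact f.injective (g.injective (IsFractionRing.injective Ω⟦X⟧ (LaurentSeries Ω) hab))
  refine ⟨e, he, IsFractionRing.lift (A := S) (K := M) hφinj, ?_, ?_⟩
  · intro c
    have h1 : algebraMap (LaurentSeries Ω) M (HahnSeries.C c) =
        algebraMap S M (algebraMap Ω S c) := by
      rw [← IsScalarTower.algebraMap_apply Ω S M, IsScalarTower.algebraMap_apply Ω Ω⟦X⟧ M,
        IsScalarTower.algebraMap_apply Ω⟦X⟧ (LaurentSeries Ω) M, LaurentSeries.coe_algebraMap]
      congr 1
      exact (HahnSeries.ofPowerSeries_C c).symm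
    rw [h1, IsFractionRing.lift_algebraMap, hφ, AlgEquiv.commutes, AlgEquiv.commutes,
      LaurentSeries.coe_algebraMap]
    exact HahnSeries.ofPowerSeries_C c
  · have h1 : algebraMap (LaurentSeries Ω) M (HahnSeries.single 1 1) = algebraMap S M t := by
      rw [ht, ← IsScalarTower.algebraMap_apply Ω⟦X⟧ S M,
        IsScalarTower.algebraMap_apply Ω⟦X⟧ (LaurentSeries Ω) M, LaurentSeries.coe_algebraMap]
      congr 1
      exact HahnSeries.ofPowerSeries_X.symm
    rw [h1, IsFractionRing.lift_algebraMap, hφ, hgft, map_pow, LaurentSeries.coe_algebraMap,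
      HahnSeries.ofPowerSeries_X, HahnSeries.single_pow]
    simp

end Pool.Agent.EXL
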