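import Pool.Agent.EXI.TFDer
import Pool.Agent.EXI.TFDerU

/-!
# EXI / TFRes: derivations and residues along an embedding in `ℂ((ζ))`

`F` is a field with derivations `δ_l`, `t_l ∈ F` with `δ_l t_{l'} = δ_{ll'} t_{l'}`, `S₀ ⊆ F` a set of
constants of all `δ_l`, `F` is algebraic over the field generated by `S₀` and the `t_l`;
`ρ : F → L` an embedding.

`der_rho`: let `𝔇` be a derivation of `L` with `𝔇 (ρ t_l) = A_l ρ(t_l)` and `𝔇 (ρ x) = 0` for
`x ∈ S₀`. Then `𝔇 (ρ x) = ∑ A_l ρ (δ_l x)` for all `x ∈ F`.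
PROOF. `derU` for the difference of the two sides.

`res_gen`: `L = ℂ((ζ))`. Let `ρ (b_k) = ζ^{μ_k} g_k`, `g_k(0) ≠ 0`, `ρ ℓ_{jk} = lc_{jk}` constants, and
let `Cm` be a matrix over `ℂ((ζ))` with `th (ρ x) = ∑_l Cm_{l i₀} ρ (δ_l x)`,
`cD (D_i) (ρ x) = ∑_l Cm_{l i} ρ (δ_l x)` (`i ≠ i₀`). Then, with
`R := det (∑_k ℓ_{jk} δ_i(b_k)/b_k)_{j,i}`, the series `det Cm * ρ R` is a power series `G` with
constant term `det N`, `N_{j i} = ∑_k lc_{jk} D_i(g_k(0))/g_k(0)` for `i ≠ i₀` and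
`N_{j i₀} = ∑_k lc_{jk} μ_k`.
PROOF. Let `M` be the matrix over `ℂ((ζ))` with the columns `∑_k lc_{jk} cD(D_i)(ρ b_k)/ρ b_k` for
`i ≠ i₀` and `∑_k lc_{jk} th(ρ b_k)/ρ b_k` for `i₀`. Then `M = (ρ (∑_k ℓ_{jk} δ_l(b_k)/b_k))_{j,l} * Cm`,
so `det M = ρ R * det Cm`. By `cD_lead`, `th_lead` all entries of `M` are power series and their
constant terms are the entries of `N`; `det` commutes with the ring homomorphisms
`PowerSeries ℂ → ℂ((ζ))` and `constantCoeff` (`RingHom.map_det`).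
-/

set_option autoImplicit false

namespace Pool.Agent.EXL

open PowerSeries

variable {F : Type} [Field F] [CharZero F] {y : ℕ}

theorem der_rho {L : Type*} [Field L] (ρ : F →+* L) (δ : Fin y → Derivation ℤ F F) (t : Fin y → F)
    (S₀ : Set F) (hδt : ∀ l l', δ l (t l') = if l = l' then t l' else 0)
    (hS₀ : ∀ x ∈ S₀, ∀ l, δ l x = 0)
    (halg : ∀ x : F, IsAlgebraic (Subfield.closure (S₀ ∪ Set.range t)) x)
    (𝔇 : L → L) (hadd : ∀ f g, 𝔇 (f + g) = 𝔇 f + 𝔇 g) (hmul : ∀ f g, 𝔇 (f * g) = f * 𝔇 g + g * 𝔇 f)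
    (A : Fin y → L) (hA : ∀ l, 𝔇 (ρ (t l)) = A l * ρ (t l)) (h0 : ∀ x ∈ S₀, 𝔇 (ρ x) = 0) (x : F) :
    𝔇 (ρ x) = ∑ l, A l * ρ (δ l x) := by
  rw [← sub_eq_zero]
  refine derU ρ (fun x => 𝔇 (ρ x) - ∑ l, A l * ρ (δ l x)) ?_ ?_ (S₀ ∪ Set.range t) ?_ halg x
  · intro x y
    simp only [map_add, hadd, mul_add, Finset.sum_add_distrib]
    ring
  · intro x y
    simp only [map_mul, hmul, Derivation.leibniz, smul_eq_mul, map_add, mul_sub, Finset.mul_sum]
    have : ∑ l, A l * (ρ x * ρ (δ l y) + ρ y * ρ (δ l x)) =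
        ∑ l, ρ x * (A l * ρ (δ l y)) + ∑ l, ρ y * (A l * ρ (δ l x)) := by
      rw [← Finset.sum_add_distrib]
      exact Finset.sum_congr rfl fun l _ => by ring
    rw [this]
    ring
  · rintro x (hx | ⟨l', rfl⟩)
    · simp only [h0 x hx, hS₀ x hx, map_zero, mul_zero, Finset.sum_const_zero, sub_zero]
    · show 𝔇 (ρ (t l')) - ∑ l, A l * ρ (δ l (t l')) = 0
      rw [hA, sub_eq_zero]
      rw [Finset.sum_eq_single l']
      · rw [hδt, if_pos rfl]
      · intro l _ hl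
        rw [hδt, if_neg hl, map_zero, mul_zero]
      · intro h
        exact absurd (Finset.mem_univ _) h

theorem res_gen (ρ : F →+* LaurentSeries ℂ) (δ : Fin y → Derivation ℤ F F) (i₀ : Fin y)
    {ι : Type} [Fintype ι] (b : ι → F) (ℓ : Fin y → ι → F) (lc : Fin y → ι → ℂ)
    (hℓ : ∀ j k, ρ (ℓ j k) = HahnSeries.C (lc j k)) (D : Fin y → Derivation ℤ ℂ ℂ)
    (Cm : Matrix (Fin y) (Fin y) (LaurentSeries ℂ))
    (hth : ∀ x, th (ρ x) = ∑ l, Cm l i₀ * ρ (δ l x))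
    (hcD : ∀ i, i ≠ i₀ → ∀ x, cD (D i) (ρ x) = ∑ l, Cm l i * ρ (δ l x))
    (μ : ι → ℤ) (g : ι → PowerSeries ℂ) (hg : ∀ k, constantCoeff (g k) ≠ 0)
    (hb : ∀ k, ρ (b k) = HahnSeries.single (μ k) 1 * (g k : LaurentSeries ℂ)) :
    ∃ G : PowerSeries ℂ,
      Cm.det * ρ (Matrix.det (Matrix.of fun j i => ∑ k, ℓ j k * (δ i (b k) / b k))) =
        (G : LaurentSeries ℂ) ∧
      constantCoeff G = Matrix.det (Matrix.of fun j i =>
        if i = i₀ then ∑ k, lc j k * (μ k : ℂ)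
        else ∑ k, lc j k * (D i (constantCoeff (g k)) / constantCoeff (g k))) := by
  have hb0 : ∀ k, ρ (b k) ≠ 0 := by
    intro k h
    rw [hb] at h
    rcases mul_eq_zero.1 h with h1 | h1
    · exact HahnSeries.single_ne_zero one_ne_zero h1
    · apply hg k
      have h2 : HahnSeries.ofPowerSeries ℤ ℂ (g k) = HahnSeries.ofPowerSeries ℤ ℂ 0 := by
        rw [map_zero]
        exact h1
      rw [HahnSeries.ofPowerSeries_injective h2, map_zero]
  have hex : ∀ (i : Fin y) (k : ι), ∃ h : PowerSeries ℂ,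
      ∑ l, Cm l i * ρ (δ l (b k)) = ρ (b k) * (h : LaurentSeries ℂ) ∧
      constantCoeff h = if i = i₀ then (μ k : ℂ)
        else D i (constantCoeff (g k)) / constantCoeff (g k) := by
    intro i k
    by_cases hi : i = i₀
    · obtain ⟨h, h1, h2⟩ := th_lead (μ k) (g k) (hg k)
      refine ⟨h, ?_, by rw [if_pos hi, h2]⟩
      rw [hi, ← hth, hb]
      exact h1
    · obtain ⟨h, h1, h2⟩ := cD_lead (D i) (μ k) (g k) (hg k)
      refine ⟨h, ?_, by rw [if_neg hi, h2]⟩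
      rw [← hcD i hi, hb]
      exact h1
  choose h hh1 hh2 using hex
  set Mp : Matrix (Fin y) (Fin y) (PowerSeries ℂ) := Matrix.of fun j i =>
    ∑ k, PowerSeries.C (lc j k) * h i k with hMp
  refine ⟨Mp.det, ?_, ?_⟩
  · have h3 : (HahnSeries.ofPowerSeries ℤ ℂ).mapMatrix Mp =
        (ρ.mapMatrix (Matrix.of fun j i => ∑ k, ℓ j k * (δ i (b k) / b k))) * Cm := by
      ext1 j i
      rw [Matrix.mul_apply]
      simp only [RingHom.mapMatrix_apply, Matrix.map_apply, hMp, Matrix.of_apply, map_sum, map_mul,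
        map_div₀, HahnSeries.ofPowerSeries_C]
      simp only [Finset.sum_mul]
      rw [Finset.sum_comm]
      refine Finset.sum_congr rfl fun k _ => ?_
      have h4 := hh1 i k
      have h5 : HahnSeries.ofPowerSeries ℤ ℂ (h i k) =
          (∑ l, Cm l i * ρ (δ l (b k))) / ρ (b k) := by
        rw [h4, mul_div_cancel_left₀ _ (hb0 k)]
      rw [h5, hℓ, Finset.sum_div, Finset.mul_sum]
      exact Finset.sum_congr rfl fun l _ => by ring
    show _ = HahnSeries.ofPowerSeries ℤ ℂ Mp.det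
    rw [RingHom.map_det, RingHom.map_det, h3, Matrix.det_mul, mul_comm]
  · rw [RingHom.map_det]
    congr 1
    ext j i
    simp only [RingHom.mapMatrix_apply, Matrix.map_apply, hMp, Matrix.of_apply, map_sum, map_mul,
      PowerSeries.constantCoeff_C, hh2]
    split_ifs <;> rfl

end Pool.Agent.EXL
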