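import Pool.Agent.EXI.TFSetup
import Pool.Agent.EXI.TFCompl
import Pool.Agent.EXI.TFRes

/-!
# EXI / TFStep: one degeneration

`TConcl` is the conclusion of Theorem T. `step`: if it is false then for every embedding
`σ : K(b) → Ω((ζ))` which is compatible with the derivations the residue is zero.

PROOF. `FJ` with the derivations `δ_l`, `ρ = toC ∘ σ`. For every `k` `exists_lead` for `σ (b k) ≠ 0`
gives `n_k`, `g_k` (`u_k := constantCoeff g_k = (σ b_k).coeff n_k ∈ Ω`). `res_gen` with `ℓ` the elements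
`cF ⟨ℓ j k, _⟩`, `lc = ℓ`: `Cm.det * ρ R = G`, `constantCoeff G = det N` (`R` is the determinant of the
matrix in `FJ`: the inclusion `FJ → ℂ` commutes with `det`, and `hR`). If `det N ≠ 0` then
`compl_step` with `t = b ∘ J` and `mk_degen` give `TConcl` with `τ = (b ∘ J) ∘ i₀.succAbove`
(`td K τ = r`: `τ` is a subfamily of the algebraically independent `b ∘ J`; `algInd_iff` in `EXL/Tdi`,
or with the derivations `D`: the rows `(D_i τ_l)_l`, `i ≠ i₀`, are linearly independent,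
`le_rk_of_linearIndependent` and `rk_le_card` in EXL/Rk), a contradiction.
-/

set_option autoImplicit false

namespace Pool.Agent.EXL

open PowerSeries Pool.Agent.EXI

/-- The conclusion of Theorem T. -/
def TConcl (K : Subfield ℂ) {ι : Type} (b : ι → ℂ) (P : Submodule ℂ (ι → ℂ)) (r : ℕ) : Prop :=
  ∃ (τ : Fin r → ℂ) (d : Degen K b (le_Om K τ)), td (K : Set ℂ) τ = r ∧
    IsCompl P ((DerOver (K : Set ℂ)).map (lev fun j => ((d.u j : Om K τ) : ℂ)) ⊔
      Submodule.span ℂ {fun j => (d.m j : ℂ)})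

theorem step (K : Subfield ℂ) {ι : Type} [Fintype ι] (b : ι → ℂ) (hb : ∀ k, b k ≠ 0) {r : ℕ}
    (P : Submodule ℂ (ι → ℂ)) (hno : ¬ TConcl K b P r) (hy : td (K : Set ℂ) b = ((r + 1 : ℕ) : ℕ))
    (ℓ : Fin (r + 1) → ι → ℂ) (hℓ : ∀ j k, ℓ j k ∈ K)
    (hP : ∀ v : ι → ℂ, v ∈ P ↔ ∀ j, ∑ k, ℓ j k * v k = 0)
    (J : Fin (r + 1) → ι) (hJ : td (K : Set ℂ) (b ∘ J) = ((r + 1 : ℕ) : ℕ))
    (D : Fin (r + 1) → Derivation ℤ ℂ ℂ) (hDK : ∀ l, D l ∈ DerOver (K : Set ℂ))
    (hDt : ∀ i j, D i (b (J j)) = if i = j then b (J j) else 0)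
    (δ : Fin (r + 1) → Derivation ℤ (FJ K b J) (FJ K b J))
    (hδ : ∀ l, ∀ x : FJ K b J, ((δ l x : FJ K b J) : ℂ) = D l (x : ℂ))
    (R : FJ K b J)
    (hR : (R : ℂ) = Matrix.det (Matrix.of fun j i => ∑ k, ℓ j k * (D i (b k) / b k)))
    (i₀ : Fin (r + 1))
    (σ : FJ K b J →+* LaurentSeries (Om K ((b ∘ J) ∘ i₀.succAbove)))
    (hσ : ∀ c : K, σ (cF K b J c) = HahnSeries.C ⟨(c : ℂ), le_Om K _ c.2⟩)
    (Cm : Matrix (Fin (r + 1)) (Fin (r + 1)) (LaurentSeries ℂ))
    (hth : ∀ x, th (toC _ (σ x)) = ∑ l, Cm l i₀ * toC _ (σ (δ l x)))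
    (hcD : ∀ i, i ≠ i₀ → ∀ x, cD (D i) (toC _ (σ x)) = ∑ l, Cm l i * toC _ (σ (δ l x))) :
    ∃ G : PowerSeries ℂ, constantCoeff G = 0 ∧ Cm.det * toC _ (σ R) = (G : LaurentSeries ℂ) := by
  classical
  have hbF : ∀ k, σ (bF K b J k) ≠ 0 := by
    intro k h
    have h1 : bF K b J k = 0 := (map_eq_zero σ).1 h
    exact hb k (congrArg Subtype.val h1)
  choose n g hg0 hg1 hg2 hg3 hg4 using fun k => exists_lead _ (σ (bF K b J k)) (hbF k)
  have hℓ' : ∀ j k, ((toC _).comp σ) (cF K b J ⟨ℓ j k, hℓ j k⟩) = HahnSeries.C (ℓ j k) := by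
    intro j k
    rw [RingHom.comp_apply, hσ]
    ext m
    rw [toC_coeff, HahnSeries.C_apply, HahnSeries.C_apply, HahnSeries.coeff_single,
      HahnSeries.coeff_single]
    split_ifs <;> rfl
  obtain ⟨G, hG1, hG2⟩ := res_gen ((toC _).comp σ) δ i₀ (fun k => bF K b J k)
    (fun j k => cF K b J ⟨ℓ j k, hℓ j k⟩) ℓ hℓ' D Cm hth hcD n g hg0 hg1
  refine ⟨G, ?_, ?_⟩
  · by_contra hne
    rw [hG2] at hne
    apply hno
    obtain ⟨d, hd⟩ := mk_degen K b hb J (le_Om K _) σ hσ n (fun k => hg3 k) (fun k => hg4 k)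
    have hu : ∀ k, ((d.u k : Om K ((b ∘ J) ∘ i₀.succAbove)) : ℂ) = constantCoeff (g k) := by
      intro k
      rw [(hd k).2, hg2 k]
    have hm : ∀ k, d.m k = n k := fun k => (hd k).1
    refine ⟨(b ∘ J) ∘ i₀.succAbove, d, ?_, ?_⟩
    · apply le_antisymm
      · have h1 := rk_le_card (DerOver (K : Set ℂ)) ((b ∘ J) ∘ i₀.succAbove)
        rw [Fintype.card_fin] at h1
        exact h1
      · refine le_rk_of_linearIndependent _ _ (fun l => D (i₀.succAbove l))
          (fun l => hDK _) ?_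
        rw [Fintype.linearIndependent_iff]
        intro c hc l
        have h2 := congrFun hc l
        rw [Finset.sum_apply, Pi.zero_apply, Finset.sum_eq_single l] at h2
        · have h3 : ev ((b ∘ J) ∘ i₀.succAbove) (D (i₀.succAbove l)) l = b (J (i₀.succAbove l)) := by
            change D (i₀.succAbove l) (b (J (i₀.succAbove l))) = _
            rw [hDt, if_pos rfl]
          rw [Pi.smul_apply, h3, smul_eq_mul] at h2
          exact (mul_eq_zero.1 h2).resolve_right (hb _)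
        · intro l' _ hl'
          have h3 : ev ((b ∘ J) ∘ i₀.succAbove) (D (i₀.succAbove l')) l = 0 := by
            change D (i₀.succAbove l') (b (J (i₀.succAbove l))) = _
            rw [hDt, if_neg (fun h => hl' (Fin.succAbove_right_injective h))]
          rw [Pi.smul_apply, h3, smul_zero]
        · intro h
          exact absurd (Finset.mem_univ _) h
    · refine compl_step K P ℓ hP (b ∘ J) (fun l => hb _) D hDK (fun l l' => hDt l l') i₀
        (fun k => ((d.u k : Om K ((b ∘ J) ∘ i₀.succAbove)) : ℂ)) ?_ (fun k => (d.u k).2) d.m ?_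
      · intro k
        rw [hu]
        exact hg0 k
      · simp only [hu, hm]
        exact hne
  · rw [← hG1, RingHom.comp_apply]
    congr 3
    apply Subtype.ext
    rw [hR]
    have h1 : ((Matrix.det (Matrix.of fun j i => ∑ k, cF K b J ⟨ℓ j k, hℓ j k⟩ *
        (δ i (bF K b J k) / bF K b J k)) : FJ K b J) : ℂ) =
        Matrix.det ((algebraMap (FJ K b J) ℂ).mapMatrix (Matrix.of fun j i =>
          ∑ k, cF K b J ⟨ℓ j k, hℓ j k⟩ * (δ i (bF K b J k) / bF K b J k))) :=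
      RingHom.map_det (algebraMap (FJ K b J) ℂ) _
    rw [h1]
    congr 1
    ext j i
    rw [RingHom.mapMatrix_apply, Matrix.map_apply, Matrix.of_apply, Matrix.of_apply, map_sum]
    refine Finset.sum_congr rfl fun k _ => ?_
    rw [map_mul, map_div₀]
    have h2 : (algebraMap (FJ K b J) ℂ) (δ i (bF K b J k)) = D i (b k) := hδ i _
    rw [h2]
    rfl

end Pool.Agent.EXL
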