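import Pool.Agent.EXI.TFStep
import Pool.Agent.EXI.TFEmb
import Pool.Agent.EXI.TFTor
import Pool.Agent.EXI.TFNeg
import Pool.Agent.EXI.TFCm

/-!
# EXI / TFTorS: the monomial degenerations

PROOF of `tor_step`.  `κ₀` := `tor_base` for `t = b ∘ J`, `c` (the `c_l`, `l ≠ i₀`, are algebraically
independent), `m`. `emb κ₀ R` (`setup_fd`) gives `e`, `χ` and the multiset `s` of embeddings
`σ : FJ → Ω((ζ))`; `κ := χ.comp κ₀`. `χ (single k a) = single (e k) a` (`single k a = C a * (single 1 1)^k`).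
For `σ ∈ s` and `ρ = toC ∘ σ`: `der_rho` for `𝔇 = th` with `A_l = C (e m_l)` (`th_single`) and for
`𝔇 = cD (D i)`, `i ≠ i₀`, with `A_l = 1` if `l = i` and `0` otherwise (`cD_single`; `D_i c_l = c_l` or
`0`, `c_{i₀} = 1`); `S₀ = range cF`, `setup_alg`. So the matrix `Cm` of `det_tor` with `A_l = C (e m_l)`
satisfies the hypotheses of `step`, and `C (e m_{i₀}) * ρ R = G` with `G(0) = 0`: `σ R` has no
coefficients of index `≤ 0`. Now `coeff_pos_of_roots` for the multiset `s.map (fun σ => σ R)`;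
`card s = natDegree (minpoly E R)` by comparing degrees.
-/

set_option autoImplicit false

namespace Pool.Agent.EXL

open PowerSeries Pool.Agent.EXI

private theorem tts_pow {Ω : Type} [Field Ω] (χ : LaurentSeries Ω →+* LaurentSeries Ω) (e : ℕ)
    (h1 : ∀ c : Ω, χ (HahnSeries.C c) = HahnSeries.C c)
    (h2 : χ (HahnSeries.single 1 1) = HahnSeries.single (e : ℤ) 1) (k : ℤ) (a : Ω) :
    χ (HahnSeries.single k a) = HahnSeries.single ((e : ℤ) * k) a := by
  have hnat : ∀ n : ℕ, χ (HahnSeries.single (n : ℤ) 1) = HahnSeries.single ((e : ℤ) * n) 1 := by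
    intro n
    have e1 : (HahnSeries.single (n : ℤ) (1 : Ω)) = (HahnSeries.single 1 1) ^ n := by
      rw [HahnSeries.single_pow]
      simp
    rw [e1, map_pow, h2, HahnSeries.single_pow]
    congr 1
    · rw [nsmul_eq_mul, mul_comm]
    · rw [one_pow]
  have hz : ∀ k : ℤ, χ (HahnSeries.single k 1) = HahnSeries.single ((e : ℤ) * k) 1 := by
    intro k
    obtain ⟨n, rfl | rfl⟩ := k.eq_nat_or_neg
    · exact hnat n
    · have h3 : χ (HahnSeries.single (-(n : ℤ)) 1) * HahnSeries.single ((e : ℤ) * n) 1 = 1 := by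
        rw [← hnat, ← map_mul, HahnSeries.single_mul_single, neg_add_cancel, mul_one]
        exact map_one χ
      have h4 : HahnSeries.single ((e : ℤ) * -(n : ℤ)) (1 : Ω) *
          HahnSeries.single ((e : ℤ) * n) 1 = 1 := by
        rw [HahnSeries.single_mul_single, mul_one, ← mul_add, neg_add_cancel, mul_zero]
        rfl
      have hne : HahnSeries.single ((e : ℤ) * n) (1 : Ω) ≠ 0 :=
        HahnSeries.single_ne_zero one_ne_zero
      exact mul_right_cancel₀ hne (h3.trans h4.symm)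
  have e2 : (HahnSeries.single k a : LaurentSeries Ω) =
      HahnSeries.C a * HahnSeries.single k 1 := by
    rw [HahnSeries.C_apply, HahnSeries.single_mul_single, zero_add, mul_one]
  rw [e2, map_mul, h1, hz, HahnSeries.C_apply, HahnSeries.single_mul_single, zero_add, mul_one]

private theorem tts_toC (Ω : Subfield ℂ) (k : ℤ) (a : Ω) :
    toC Ω (HahnSeries.single k a) = HahnSeries.single k (a : ℂ) := by
  ext i
  rw [toC_coeff, HahnSeries.coeff_single, HahnSeries.coeff_single]
  split_ifs <;> rfl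

private theorem tts_zero {w : ℂ} (hw : w ≠ 0) {f : LaurentSeries ℂ} {G : PowerSeries ℂ}
    (hG : constantCoeff G = 0) (h : HahnSeries.C w * f = (G : LaurentSeries ℂ)) (i : ℤ)
    (hi : i ≤ 0) : f.coeff i = 0 := by
  have h1 : (HahnSeries.C w * f).coeff i = w * f.coeff i := by
    rw [HahnSeries.C_apply]
    have := HahnSeries.coeff_single_mul_add (r := w) (x := f) (a := i) (b := (0:ℤ))
    rw [add_zero] at this
    exact this
  have h2 : (G : LaurentSeries ℂ).coeff i = 0 := by
    erw [PowerSeries.coeff_coe]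
    split_ifs with h0
    · rfl
    · have : i = 0 := by omega
      rw [this]
      simpa using hG
  rw [h, h2] at h1
  exact (mul_eq_zero.1 h1.symm).resolve_left hw

theorem tor_step (K : Subfield ℂ) {ι : Type} [Fintype ι] (b : ι → ℂ) (hb : ∀ k, b k ≠ 0) {r : ℕ}
    (P : Submodule ℂ (ι → ℂ)) (hno : ¬ TConcl K b P r) (hy : td (K : Set ℂ) b = ((r + 1 : ℕ) : ℕ))
    (ℓ : Fin (r + 1) → ι → ℂ) (hℓ : ∀ j k, ℓ j k ∈ K)
    (hP : ∀ v : ι → ℂ, v ∈ P ↔ ∀ j, ∑ k, ℓ j k * v k = 0)
    (J : Fin (r + 1) → ι) (hJ : td (K : Set ℂ) (b ∘ J) = ((r + 1 : ℕ) : ℕ))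
    (D : Fin (r + 1) → Derivation ℤ ℂ ℂ) (hDK : ∀ l, D l ∈ DerOver (K : Set ℂ))
    (hDt : ∀ i j, D i (b (J j)) = if i = j then b (J j) else 0)
    (R : FJ K b J)
    (hR : (R : ℂ) = Matrix.det (Matrix.of fun j i => ∑ k, ℓ j k * (D i (b k) / b k)))
    (i₀ : Fin (r + 1)) (c : Fin (r + 1) → Om K ((b ∘ J) ∘ i₀.succAbove)) (hc₀ : c i₀ = 1)
    (hc : ∀ l, l ≠ i₀ → ((c l : Om K ((b ∘ J) ∘ i₀.succAbove)) : ℂ) = b (J l))
    (m : Fin (r + 1) → ℤ) (hm : m i₀ ≠ 0) :
    ∃ (e : ℕ) (κ : EJ K b J →+* LaurentSeries (Om K ((b ∘ J) ∘ i₀.succAbove))), 0 < e ∧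
      (∀ x : K, κ (algebraMap K _ x) = cst (le_Om K _) x) ∧
      (∀ l, κ ⟨(b ∘ J) l, IntermediateField.subset_adjoin K _ ⟨l, rfl⟩⟩ =
        HahnSeries.single ((e : ℤ) * m l) (c l)) ∧
      ∀ n < (minpoly (EJ K b J) R).natDegree, ∀ i : ℤ, i ≤ 0 →
        (κ ((minpoly (EJ K b J) R).coeff n)).coeff i = 0 := by
  classical
  have ht : AlgebraicIndependent K (b ∘ J) := algInd_of_td K b J hJ
  have hind : AlgebraicIndependent K fun l : {l : Fin (r + 1) // l ≠ i₀} =>
      ((c l : Om K ((b ∘ J) ∘ i₀.succAbove)) : ℂ) := by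
    have h1 := ht.comp (fun l : {l : Fin (r + 1) // l ≠ i₀} => l.1) Subtype.val_injective
    have h2 : (fun l : {l : Fin (r + 1) // l ≠ i₀} =>
        ((c l : Om K ((b ∘ J) ∘ i₀.succAbove)) : ℂ)) =
        (b ∘ J) ∘ fun l : {l : Fin (r + 1) // l ≠ i₀} => l.1 := by
      funext l
      exact hc l.1 l.2
    rw [h2]
    exact h1
  obtain ⟨κ₀, hκc, hκt⟩ := tor_base (le_Om K _) (b ∘ J) ht c m i₀ hm hc₀ hind
  have hfd := setup_fd K b hy J hJ
  have hac : IsAlgClosed (Om K ((b ∘ J) ∘ i₀.succAbove)) := isAlgClosed_Om K _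
  obtain ⟨e, he, χ, hχC, hχ1, s, hs, hprod⟩ := emb κ₀ R
  have hχs := tts_pow χ e hχC hχ1
  have hκK : ∀ x : K, (χ.comp κ₀) (algebraMap K _ x) = cst (le_Om K _) x := by
    intro x
    rw [RingHom.comp_apply, hκc]
    exact hχC _
  have hκT : ∀ l, (χ.comp κ₀) ⟨(b ∘ J) l, IntermediateField.subset_adjoin K _ ⟨l, rfl⟩⟩ =
      HahnSeries.single ((e : ℤ) * m l) (c l) := by
    intro l
    rw [RingHom.comp_apply, hκt, hχs]
  have hDE : ∀ i l, D i (b (J l)) ∈ EJ K b J := by
    intro i l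
    rw [hDt]
    split_ifs
    · exact IntermediateField.subset_adjoin K _ ⟨l, rfl⟩
    · exact (EJ K b J).zero_mem
  choose δ hδ using fun i => setup_der K b hy J hJ (D i) (hDK i) (hDE i)
  have hδt : ∀ l l', δ l (bF K b J (J l')) = if l = l' then bF K b J (J l') else 0 := by
    intro l l'
    apply Subtype.ext
    rw [hδ]
    show D l (b (J l')) = _
    rw [hDt]
    split_ifs <;> rfl
  have hδ0 : ∀ x ∈ Set.range (cF K b J), ∀ l, δ l x = 0 := by
    rintro _ ⟨x, rfl⟩ l
    apply Subtype.ext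
    rw [hδ]
    exact hDK l _ x.2
  have hw : (((e : ℤ) * m i₀ : ℤ) : ℂ) ≠ 0 := by
    have : ((e : ℤ) * m i₀ : ℤ) ≠ 0 := mul_ne_zero (by exact_mod_cast he.ne') hm
    exact_mod_cast this
  have hzero : ∀ σ ∈ s, ∀ i : ℤ, i ≤ 0 → (σ R).coeff i = 0 := by
    intro σ hσs i hi
    have hσ := hs σ hσs
    have hσE : ∀ z : EJ K b J, σ (algebraMap (EJ K b J) (FJ K b J) z) = (χ.comp κ₀) z := by
      intro z
      rw [← hσ]
      rfl
    have hσc : ∀ x : K, σ (cF K b J x) = HahnSeries.C ⟨(x : ℂ), le_Om K _ x.2⟩ := by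
      intro x
      rw [hσE, hκK]
      rfl
    have hσt : ∀ l, σ (bF K b J (J l)) = HahnSeries.single ((e : ℤ) * m l) (c l) := by
      intro l
      rw [← hκT l, ← hσE]
      rfl
    set ρ : FJ K b J →+* LaurentSeries ℂ := (toC _).comp σ with hρ
    have hρt : ∀ l, ρ (bF K b J (J l)) =
        HahnSeries.single ((e : ℤ) * m l) ((c l : Om K ((b ∘ J) ∘ i₀.succAbove)) : ℂ) := by
      intro l
      rw [hρ, RingHom.comp_apply, hσt, tts_toC]
    have hρc : ∀ x : K, ρ (cF K b J x) = HahnSeries.single 0 (x : ℂ) := by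
      intro x
      rw [hρ, RingHom.comp_apply, hσc, HahnSeries.C_apply, tts_toC]
    have hth : ∀ x, th (ρ x) = ∑ l, HahnSeries.C (((e : ℤ) * m l : ℤ) : ℂ) * ρ (δ l x) := by
      intro x
      refine der_rho ρ δ (fun l => bF K b J (J l)) (Set.range (cF K b J)) hδt hδ0
        (setup_alg K b hy J hJ) th th_add th_mul
        (fun l => HahnSeries.C (((e : ℤ) * m l : ℤ) : ℂ)) ?_ ?_ x
      · intro l
        rw [hρt, th_single, HahnSeries.C_apply, HahnSeries.single_mul_single, zero_add]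
      · rintro _ ⟨x, rfl⟩
        rw [hρc, th_single]
        simp
    have hcD : ∀ i, i ≠ i₀ → ∀ x, cD (D i) (ρ x) =
        ∑ l, (if l = i then (1 : LaurentSeries ℂ) else 0) * ρ (δ l x) := by
      intro i hi x
      refine der_rho ρ δ (fun l => bF K b J (J l)) (Set.range (cF K b J)) hδt hδ0
        (setup_alg K b hy J hJ) (cD (D i)) (cD_add _) (cD_mul _)
        (fun l => if l = i then 1 else 0) ?_ ?_ x
      · intro l
        rw [hρt, cD_single]
        by_cases hl : l = i₀
        · subst hl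
          rw [hc₀]
          have : D i ((1 : Om K ((b ∘ J) ∘ l.succAbove)) : ℂ) = 0 := (D i).map_one_eq_zero
          rw [this, if_neg (Ne.symm hi)]
          simp
        · rw [hc l hl, hDt]
          by_cases hli : l = i
          · subst hli
            simp
          · rw [if_neg (Ne.symm hli), if_neg hli]
            simp
      · rintro _ ⟨x, rfl⟩
        rw [hρc, cD_single]
        have : D i (x : ℂ) = 0 := hDK i _ x.2
        rw [this]
        simp
    obtain ⟨G, hG0, hG⟩ := step K b hb P hno hy ℓ hℓ hP J hJ D hDK hDt δ hδ R hR i₀ σ hσc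
      (Matrix.of fun l i : Fin (r + 1) => if i = i₀ then
        HahnSeries.C (((e : ℤ) * m l : ℤ) : ℂ) else if l = i then (1 : LaurentSeries ℂ) else 0)
      (by
        intro x
        have := hth x
        rw [hρ] at this
        simp only [RingHom.comp_apply] at this
        rw [this]
        refine Finset.sum_congr rfl fun l _ => ?_
        rw [Matrix.of_apply, if_pos rfl])
      (by
        intro i hi x
        have := hcD i hi x
        rw [hρ] at this
        simp only [RingHom.comp_apply] at this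
        rw [this]
        refine Finset.sum_congr rfl fun l _ => ?_
        rw [Matrix.of_apply, if_neg hi])
    rw [det_tor] at hG
    have := tts_zero hw hG0 hG i hi
    rw [toC_coeff] at this
    exact_mod_cast this
  refine ⟨e, χ.comp κ₀, he, hκK, hκT, ?_⟩
  intro n hn i hi
  have hcoef : (χ.comp κ₀) ((minpoly (EJ K b J) R).coeff n) =
      (((s.map fun σ : FJ K b J →+* LaurentSeries (Om K ((b ∘ J) ∘ i₀.succAbove)) => σ R).map
        fun r => Polynomial.X - Polynomial.C r).prod).coeff n := by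
    rw [Multiset.map_map, ← Polynomial.coeff_map, hprod]
    rfl
  rw [hcoef]
  refine coeff_pos_of_roots _ ?_ n ?_ i hi
  · intro r hr
    obtain ⟨σ, hσ, rfl⟩ := Multiset.mem_map.1 hr
    exact hzero σ hσ
  · rw [Multiset.card_map]
    have h5 : (minpoly (EJ K b J) R).natDegree = s.card := by
      rw [← Polynomial.natDegree_map (χ.comp κ₀), hprod]
      have h6 := Polynomial.natDegree_multiset_prod_X_sub_C_eq_card
        (s.map fun σ : FJ K b J →+* LaurentSeries (Om K ((b ∘ J) ∘ i₀.succAbove)) => σ R)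
      rw [Multiset.map_map, Multiset.card_map] at h6
      exact h6
    rw [← h5]
    exact hn

end Pool.Agent.EXL
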